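import Pool.Agent.Run7.h490.OD8
import Pool.Agent.H552R3.Tsen.Zero
import Pool.Agent.H450R2.Sp.Null

/-! Forms with algebraically independent coefficients are in general position (II). -/

set_option autoImplicit false

namespace Pool.Agent.Run7.h490

open MvPolynomial Module MeasureTheory

theorem span_scale {L : Type} [Field L] [CharZero L] {n : ℕ} (t : L) (ht : t ≠ 0)
    (z : Fin n → L) : finrank ℚ (Submodule.span ℚ (Set.range (fun j => t * z j))) ≤
      finrank ℚ (Submodule.span ℚ (Set.range z)) := by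
  have h1 : Set.range (fun j => t * z j) = (LinearMap.mulLeft ℚ t) '' Set.range z := by
    rw [← Set.range_comp]
    rfl
  rw [h1, ← Submodule.map_span]
  have : Module.Finite ℚ (Submodule.span ℚ (Set.range z)) :=
    FiniteDimensional.span_of_finite ℚ (Set.finite_range _)
  exact Submodule.finrank_map_le _ _

section

variable {n r : ℕ} (d : Fin r → ℕ) (S : Fin r → Finset (Fin n →₀ ℕ))
  (hS : ∀ i m, m ∈ S i ↔ m.degree ≤ d i)

include hS

theorem cond_complex (a : (Σ i : Fin r, {m // m ∈ S i}) → ℂ) (ha : AlgebraicIndependent ℚ a)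
    (hr : 1 ≤ r) (z : Fin n → ℂ) (hz : z ≠ 0) (hz0 : ∀ i, eval z (Hp d S a i) = 0) :
    r < finrank ℚ (Submodule.span ℚ (Set.range z)) := by
  by_contra hcon
  obtain ⟨k₀, hk₀⟩ := Function.ne_iff.1 hz
  rw [Pi.zero_apply] at hk₀
  have h1 := rank_zero d S hS (r - 1) (τ := Unit) (fun _ => a) (by
    have h2 : (fun p : Unit × (Σ i : Fin r, {m // m ∈ S i}) => a p.2) = a ∘ Prod.snd := rfl
    rw [h2]
    refine ha.comp _ ?_
    rintro ⟨_, p⟩ ⟨_, q⟩ h
    exact Prod.ext rfl h) (fun j => (z k₀)⁻¹ * z j) k₀ (inv_mul_cancel₀ hk₀) (fun _ i => by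
      rw [← eval_Hp]
      have h3 := eval_hsmul _ (Hp_homog d S a i) (z k₀)⁻¹ z
      rw [hz0 i, mul_zero] at h3
      exact h3) (by
      have h4 := span_scale (z k₀)⁻¹ (inv_ne_zero hk₀) z
      omega)
  rw [Fintype.card_unit, one_mul] at h1
  omega

theorem cond_real (a : (Σ i : Fin r, {m // m ∈ S i}) → ℂ)
    (ha : AlgebraicIndependent ℚ (Sum.elim (fun p => (a p).re) (fun p => (a p).im)))
    (hr : 1 ≤ r) (x : Fin n → ℝ) (hx : x ≠ 0)
    (hx0 : ∀ i, eval (fun j => (x j : ℂ)) (Hp d S a i) = 0) :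
    2 * r < finrank ℚ (Submodule.span ℚ (Set.range x)) := by
  by_contra hcon
  obtain ⟨k₀, hk₀⟩ := Function.ne_iff.1 hx
  rw [Pi.zero_apply] at hk₀
  have hV : ∀ i p, Vw d S (fun j => (((x k₀)⁻¹ * x j : ℝ) : ℂ)) i p =
      ((Vw d S (fun j => (x k₀)⁻¹ * x j) i p : ℝ) : ℂ) := by
    intro i p
    unfold Vw
    split_ifs
    · push_cast
      rfl
    · rfl
  have hsum : ∀ i, ∑ p, a p * ((Vw d S (fun j => (x k₀)⁻¹ * x j) i p : ℝ) : ℂ) = 0 := by
    intro i
    have h3 := eval_hsmul _ (Hp_homog d S a i) (((x k₀)⁻¹ : ℝ) : ℂ) (fun j => (x j : ℂ))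
    rw [hx0 i, mul_zero] at h3
    have h4 : ((((x k₀)⁻¹ : ℝ) : ℂ) • fun j => (x j : ℂ)) =
        fun j => (((x k₀)⁻¹ * x j : ℝ) : ℂ) := by
      funext j
      simp
    rw [h4, eval_Hp] at h3
    simpa only [hV] using h3
  have h1 := rank_zero d S hS (2 * r - 1) (τ := Bool)
    (fun t p => if t then (a p).re else (a p).im) (by
    have h2 : (fun p : Bool × (Σ i : Fin r, {m // m ∈ S i}) =>
        if p.1 then (a p.2).re else (a p.2).im) =
        Sum.elim (fun p => (a p).re) (fun p => (a p).im) ∘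
          fun p => if p.1 then Sum.inl p.2 else Sum.inr p.2 := by
      funext p
      rcases p with ⟨t, p⟩
      cases t <;> rfl
    rw [h2]
    refine ha.comp _ ?_
    rintro ⟨t, p⟩ ⟨t', q⟩ h
    cases t <;> cases t'
    · exact Prod.ext rfl (Sum.inr.inj h)
    · cases h
    · cases h
    · exact Prod.ext rfl (Sum.inl.inj h)) (fun j => (x k₀)⁻¹ * x j) k₀ (inv_mul_cancel₀ hk₀)
    (fun t i => by
      have h3 := hsum i
      cases t
      · have h4 := congrArg Complex.im h3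
        rw [Complex.im_sum, Complex.zero_im] at h4
        rw [← h4]
        refine Finset.sum_congr rfl fun p _ => ?_
        rw [Complex.im_mul_ofReal]
        rfl
      · have h4 := congrArg Complex.re h3
        rw [Complex.re_sum, Complex.zero_re] at h4
        rw [← h4]
        refine Finset.sum_congr rfl fun p _ => ?_
        rw [Complex.re_mul_ofReal]
        rfl) (by
      have h4 := span_scale (x k₀)⁻¹ (inv_ne_zero hk₀) x
      omega)
  rw [Fintype.card_bool] at h1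
  omega

theorem cond_smooth (hd : ∀ i, 1 ≤ d i) (a : (Σ i : Fin r, {m // m ∈ S i}) → ℂ)
    (ha : AlgebraicIndependent ℚ a) (z : Fin n → ℂ) (hz : z ≠ 0)
    (hz0 : ∀ i, eval z (Hp d S a i) = 0) :
    LinearIndependent ℂ fun i j => eval z (pderiv j (Hp d S a i)) := by
  by_contra hcon
  obtain ⟨k₀, hk₀⟩ := Function.ne_iff.1 hz
  rw [Pi.zero_apply] at hk₀
  rw [Fintype.linearIndependent_iff] at hcon
  push Not at hcon
  obtain ⟨c, hc, i₀, hi₀⟩ := hcon
  have hc' : ∀ k, ∑ i, c i * eval z (pderiv k (Hp d S a i)) = 0 := by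
    intro k
    have := congrFun hc k
    simpa [Finset.sum_apply] using this
  refine smooth_gen d S hS a ha (fun j => (z k₀)⁻¹ * z j) k₀ (inv_mul_cancel₀ hk₀)
    (fun i => (c i * (z k₀) ^ (d i - 1)) / (c i₀ * (z k₀) ^ (d i₀ - 1))) i₀
    (div_self (mul_ne_zero hi₀ (pow_ne_zero _ hk₀))) (hd i₀) (fun i => ?_) (fun k => ?_)
  · rw [← eval_Hp]
    have h3 := eval_hsmul _ (Hp_homog d S a i) (z k₀)⁻¹ z
    rw [hz0 i, mul_zero] at h3
    exact h3
  · rw [← eval_dHp]
    have h5 : ∀ i, (c i * (z k₀) ^ (d i - 1)) / (c i₀ * (z k₀) ^ (d i₀ - 1)) *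
        eval (fun j => (z k₀)⁻¹ * z j) (pderiv k (Hp d S a i)) =
        (c i₀ * (z k₀) ^ (d i₀ - 1))⁻¹ * (c i * eval z (pderiv k (Hp d S a i))) := by
      intro i
      have h6 : (pderiv k (Hp d S a i)).IsHomogeneous (d i - 1) := by
        exact (Hp_homog d S a i).pderiv
      have h3 := eval_hsmul _ h6 (z k₀)⁻¹ z
      have h7 : eval (fun j => (z k₀)⁻¹ * z j) (pderiv k (Hp d S a i)) =
          (z k₀)⁻¹ ^ (d i - 1) * eval z (pderiv k (Hp d S a i)) := h3
      rw [h7]
      have h8 : (z k₀) ^ (d i - 1) * (z k₀)⁻¹ ^ (d i - 1) = 1 := by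
        rw [← mul_pow, mul_inv_cancel₀ hk₀, one_pow]
      calc _ = ((z k₀) ^ (d i - 1) * (z k₀)⁻¹ ^ (d i - 1)) * ((c i₀ * (z k₀) ^ (d i₀ - 1))⁻¹ *
            (c i * eval z (pderiv k (Hp d S a i)))) := by ring
        _ = _ := by rw [h8, one_mul]
    rw [Finset.sum_congr rfl fun i _ => h5 i, ← Finset.mul_sum, hc' k, mul_zero]

theorem cond_dense (hrn : r < n) (hd : ∀ i, 1 ≤ d i) (a : (Σ i : Fin r, {m // m ∈ S i}) → ℂ)
    (ha : AlgebraicIndependent ℚ a) (z : Fin n → ℂ)
    (hz0 : ∀ i, eval z (Hp d S a i) = 0) : z ∈ closure {z' : Fin n → ℂ |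
      (∀ i, eval z' (Hp d S a i) = 0) ∧
      (LinearIndependent ℂ fun i j => eval z' (pderiv j (Hp d S a i)))} := by
  by_cases hz : z = 0
  · obtain ⟨v, hv, hv0⟩ := Pool.Agent.H552R3.Tsen.exists_common_zero (fun i => Hp d S a i)
      (fun i => by
        have h3 := eval_hsmul _ (Hp_homog d S a i) 0 0
        rw [zero_smul, zero_pow (by have := hd i; omega), zero_mul] at h3
        exact h3) (by rw [Fintype.card_fin, Fintype.card_fin]; exact hrn)
    rw [hz]
    have h1 : Filter.Tendsto (fun m : ℕ => ((1 : ℂ) / ((m : ℂ) + 1)) • v) Filter.atTop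
        (nhds (0 : Fin n → ℂ)) := by
      have h2 := (tendsto_one_div_add_atTop_nhds_zero_nat (𝕜 := ℂ)).smul_const v
      rw [zero_smul] at h2
      exact h2
    refine mem_closure_of_tendsto h1 (Filter.Eventually.of_forall fun m => ?_)
    have h2 : ((1 : ℂ) / ((m : ℂ) + 1)) ≠ 0 := by
      apply div_ne_zero one_ne_zero
      exact Nat.cast_add_one_ne_zero m
    have h3 : ∀ i, eval (((1 : ℂ) / ((m : ℂ) + 1)) • v) (Hp d S a i) = 0 := by
      intro i
      rw [eval_hsmul _ (Hp_homog d S a i), hv0 i, mul_zero]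
    exact ⟨h3, cond_smooth d S hS hd a ha _ (smul_ne_zero h2 hv) h3⟩
  · exact subset_closure ⟨hz0, cond_smooth d S hS hd a ha z hz hz0⟩

theorem ne_zero_of_indep (a : (Σ i : Fin r, {m // m ∈ S i}) → ℂ)
    (ha : AlgebraicIndependent ℚ a) (p) : a p ≠ 0 := ha.ne_zero p

end

/-- real and imaginary parts -/
noncomputable def ri (ι : Type) [Fintype ι] : (ι → ℂ) ≃ₗ[ℝ] (ι ⊕ ι → ℝ) where
  toFun A := Sum.elim (fun p => (A p).re) (fun p => (A p).im)
  map_add' A B := by
    funext q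
    rcases q with q | q <;> simp
  map_smul' c A := by
    funext q
    rcases q with q | q <;> simp
  invFun y := fun i => ⟨y (Sum.inl i), y (Sum.inr i)⟩
  left_inv A := by
    funext i
    rfl
  right_inv y := by
    funext q
    rcases q with q | q <;> rfl

theorem ae_indep (ι : Type) [Fintype ι] : ∀ᵐ a : ι → ℂ,
    AlgebraicIndependent ℚ (Sum.elim (fun p => (a p).re) (fun p => (a p).im)) := by
  have hcnt : Countable (MvPolynomial (ι ⊕ ι) ℚ) := by
    rw [← Cardinal.mk_le_aleph0_iff]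
    refine MvPolynomial.cardinalMk_le_max.trans ?_
    simp
  have key : ∀ q : MvPolynomial (ι ⊕ ι) ℚ,
      ∀ᵐ A : ι → ℂ, q ≠ 0 → aeval (ri ι A) q ≠ 0 := by
    intro q
    by_cases hq : q = 0
    · exact Filter.Eventually.of_forall fun A h => absurd hq h
    obtain ⟨P, hP⟩ : ∃ P : MvPolynomial (ι ⊕ ι) ℂ, P = map (algebraMap ℚ ℂ) q := ⟨_, rfl⟩
    have hP0 : P ≠ 0 := by
      rw [hP]
      exact (map_ne_zero_iff _ (map_injective _ (algebraMap ℚ ℂ).injective)).2 hq
    have h1 : ∀ᵐ y : ι ⊕ ι → ℝ, eval (fun j => (y j : ℂ)) P ≠ 0 := by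
      rw [ae_iff]
      simpa using H450Sp.poly_null P hP0
    let L : (ι → ℂ) ≃L[ℝ] (ι ⊕ ι → ℝ) := (ri ι).toContinuousLinearEquiv
    have h2 : (Measure.map L (volume : Measure (ι → ℂ))) ≪ volume := by
      have := L.isAddHaarMeasure_map (volume : Measure (ι → ℂ))
      exact Measure.absolutelyContinuous_isAddHaarMeasure _ _
    have h3 := h2.ae_le h1
    have h4 := ae_of_ae_map L.continuous.measurable.aemeasurable h3
    filter_upwards [h4] with A hA _ h0
    apply hA
    have h5 : (fun j => ((L A j : ℝ) : ℂ)) = algebraMap ℝ ℂ ∘ (ri ι A) := rfl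
    have h6 : eval (fun j => ((L A j : ℝ) : ℂ)) P = aeval (algebraMap ℝ ℂ ∘ (ri ι A)) q := by
      rw [hP, eval_map, h5]
      rfl
    rw [h6, aeval_algebraMap_apply, h0, map_zero]
  have h := ae_all_iff.2 key
  filter_upwards [h] with A hA
  rw [algebraicIndependent_iff]
  intro q hq
  by_contra hne
  exact hA q hne hq

theorem complex_of_real {ι : Type} (a : ι → ℂ)
    (ha : AlgebraicIndependent ℚ (Sum.elim (fun p => (a p).re) (fun p => (a p).im))) :
    AlgebraicIndependent ℚ a := by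
  have h1 := Pool.Agent.K3h68.ET.indep_complex _ _ ha
  have h2 : (fun j => (((a j).re : ℝ) : ℂ) + Complex.I * (((a j).im : ℝ) : ℂ)) = a := by
    funext j
    rw [mul_comm]
    exact Complex.re_add_im _
  rwa [h2] at h1

end Pool.Agent.Run7.h490
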