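import Mathlib
import Pool.Agent.R845.E3.All
import Pool.Agent.R845.E3.Refl
import Pool.Agent.R845.E3.Sections2
import Pool.Agent.R845.E3.Rat

/-! # Rational sections of projections from linear subspaces of smooth cubic hypersurfaces -/

set_option autoImplicit false

namespace Pool.Agent.Run7.h490.OR

open MvPolynomial Pool.Agent.TH314.PD Module Pool.Agent.Y201.C3 IntermediateField
open Pool.Agent.R845.T2 Pool.Agent.R845.E3

noncomputable section

/-- coordinates adapted to a linear subspace -/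
theorem adapt2 {N P : ℕ} {F : MvPolynomial (Fin N) ℂ} (hF0 : F ≠ 0)
    (A : Fin N → Fin P → ℂ) (hA0 : A ≠ 0)
    (hA : ∀ a : Fin P → ℂ, eval (fun i => ∑ l, a l * A i l) F = 0) :
    ∃ (k m : ℕ) (σ : Fin (k + 1 + (m + 1)) ≃ Fin N) (U : Fin (k + 1) → Fin (m + 1) → ℂ),
      VanW (shear U (rename σ.symm F)) ∧
      (∀ j l, A (σ (Fin.natAdd (k + 1) j)) l =
        ∑ i, U i j * A (σ (Fin.castAdd (m + 1) i)) l) ∧
      (∀ u : Fin (k + 1) → ℂ, ∃ a : Fin P → ℂ,
        ∀ i, ∑ l, a l * A (σ (Fin.castAdd (m + 1) i)) l = u i) ∧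
      ∀ (M : Type) [Field M] [Algebra ℂ M] (w : Fin P → M) (j : Fin (m + 1)),
        tp U (fun i => ∑ l, w l * algebraMap ℂ M (A (σ i) l)) (Fin.natAdd (k + 1) j) = 0 := by
  classical
  obtain ⟨k, m, σ, U, hli, hU⟩ := rows' A hA0 (by
    intro h
    apply hF0
    apply MvPolynomial.funext
    intro u
    obtain ⟨a, ha⟩ := h u
    rw [map_zero, ← hA a, show (fun i => ∑ l, a l * A i l) = u from funext ha])
  set F1 : MvPolynomial (Fin (k + 1 + (m + 1))) ℂ := rename σ.symm F with hF1
  set F2 := shear U F1 with hF2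
  -- `F2` vanishes on `W`
  have hsurj : ∀ u : Fin (k + 1) → ℂ, ∃ a : Fin P → ℂ,
      ∀ i, ∑ l, a l * A (σ (Fin.castAdd (m + 1) i)) l = u i := by
    intro u
    have h1 : Function.Surjective (Matrix.mulVecLin (Matrix.of fun i : Fin (k + 1) =>
        A (σ (Fin.castAdd (m + 1) i)))) := by
      rw [← LinearMap.range_eq_top]
      have h2 := LinearIndependent.rank_matrix (M := Matrix.of fun i : Fin (k + 1) =>
        A (σ (Fin.castAdd (m + 1) i))) hli
      apply Submodule.eq_top_of_finrank_eq
      rw [Module.finrank_fin_fun]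
      rw [Fintype.card_fin] at h2
      exact h2
    obtain ⟨a, ha⟩ := h1 u
    refine ⟨a, fun i => ?_⟩
    rw [← ha]
    simp only [Matrix.mulVecLin_apply, Matrix.mulVec, dotProduct, Matrix.of_apply]
    exact Finset.sum_congr rfl fun l _ => mul_comm _ _
  refine ⟨k, m, σ, U, ?_, hU, hsurj, ?_⟩
  · unfold VanW
    apply MvPolynomial.funext
    intro u
    rw [map_zero]
    obtain ⟨a, ha⟩ := hsurj u
    have h1 : eval u (aeval (Fin.append (X : Fin (k + 1) → MvPolynomial (Fin (k + 1)) ℂ) 0) F2) =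
        aeval (Fin.append u (0 : Fin (m + 1) → ℂ)) F2 := by
      have h2 := comp_aeval_apply (f := Fin.append (X : Fin (k + 1) →
        MvPolynomial (Fin (k + 1)) ℂ) 0) (aeval u) F2
      rw [aeval_eq_eval] at h2
      rw [h2]
      congr 2
      funext i
      refine Fin.addCases (fun j => ?_) (fun j => ?_) i
      · rw [Fin.append_left, Fin.append_left, eval_X]
      · rw [Fin.append_right, Fin.append_right, Pi.zero_apply, Pi.zero_apply, map_zero]
    rw [h1, hF2, aeval_shear, hF1, aeval_rename]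
    have h3 : ((Fin.append (fun i => Fin.append u (0 : Fin (m + 1) → ℂ) (Fin.castAdd (m + 1) i))
        (fun j => Fin.append u (0 : Fin (m + 1) → ℂ) (Fin.natAdd (k + 1) j) +
          ∑ i, algebraMap ℂ ℂ (U i j) * Fin.append u (0 : Fin (m + 1) → ℂ)
            (Fin.castAdd (m + 1) i))) ∘ σ.symm) = fun i => ∑ l, a l * A i l := by
      funext i
      obtain ⟨i', rfl⟩ := σ.surjective i
      simp only [Function.comp_apply, Equiv.symm_apply_apply]
      refine Fin.addCases (fun j => ?_) (fun j => ?_) i'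
      · rw [Fin.append_left, Fin.append_left, ha]
      · rw [Fin.append_right, Fin.append_right, Pi.zero_apply, zero_add]
        simp only [Fin.append_left, Algebra.algebraMap_self, RingHom.id_apply, hU]
        simp only [Finset.mul_sum]
        rw [Finset.sum_comm]
        refine Finset.sum_congr rfl fun i _ => ?_
        rw [← ha, Finset.mul_sum]
        refine Finset.sum_congr rfl fun l _ => ?_
        ring
    rw [h3, aeval_eq_eval]
    exact hA a
  · intro M _ _ w j
    unfold tp
    rw [Fin.append_right, sub_eq_zero]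
    simp only [hU, map_sum, map_mul, Finset.mul_sum]
    rw [Finset.sum_comm]
    refine Finset.sum_congr rfl fun i _ => Finset.sum_congr rfl fun l _ => ?_
    ring

/-- in coordinates adapted to `A` the projection has a rational section -/
def AdIso {N P : ℕ} (F : MvPolynomial (Fin N) ℂ) (A : Fin N → Fin P → ℂ) : Prop :=
  ∃ (k m : ℕ) (σ : Fin (k + 1 + (m + 1)) ≃ Fin N) (U : Fin (k + 1) → Fin (m + 1) → ℂ),
      VanW (shear U (rename σ.symm F)) ∧
      (∀ j l, A (σ (Fin.natAdd (k + 1) j)) l =
        ∑ i, U i j * A (σ (Fin.castAdd (m + 1) i)) l) ∧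
      (∀ u : Fin (k + 1) → ℂ, ∃ a : Fin P → ℂ,
        ∀ i, ∑ l, a l * A (σ (Fin.castAdd (m + 1) i)) l = u i) ∧
      Iso (shear U (rename σ.symm F))

section transport

variable {N k m : ℕ}

theorem tp_neg_tp {R : Type} [CommRing R] [Algebra ℂ R] (U : Fin (k + 1) → Fin (m + 1) → ℂ)
    (x : Fin (k + 1 + (m + 1)) → R) : tp (fun i j => -U i j) (tp U x) = x := by
  funext i
  unfold tp
  refine Fin.addCases (fun j => ?_) (fun j => ?_) i
  · simp only [Fin.append_left]
  · simp only [Fin.append_right, Fin.append_left, map_neg, neg_mul, Finset.sum_neg_distrib]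
    ring

theorem tp_tp_neg {R : Type} [CommRing R] [Algebra ℂ R] (U : Fin (k + 1) → Fin (m + 1) → ℂ)
    (x : Fin (k + 1 + (m + 1)) → R) : tp U (tp (fun i j => -U i j) x) = x := by
  have h1 := tp_neg_tp (fun i j => -U i j) x
  simpa only [neg_neg] using h1

theorem fwd {F : MvPolynomial (Fin N) ℂ} (hF : F.IsHomogeneous 3)
    (σ : Fin (k + 1 + (m + 1)) ≃ Fin N) (U : Fin (k + 1) → Fin (m + 1) → ℂ)
    {M : Type} [Field M] [Algebra ℂ M] {x : Fin N → M} (hG : Gp F x) :
    Gp (shear U (rename σ.symm F)) (tp U fun i => x (σ i)) ∧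
      ratioField (tp U fun i => x (σ i)) = ratioField x := by
  have hF1h : (rename σ.symm F).IsHomogeneous 3 := hF.rename_isHomogeneous
  have hx1G : Gp (rename σ.symm F) (fun i => x (σ i)) := by
    have h1 := gp_rename σ.symm hG
    simpa only [Equiv.symm_symm] using h1
  have hx1r : ratioField (fun i => x (σ i)) = ratioField x := by
    have h1 := ratioField_perm σ.symm x
    simpa only [Equiv.symm_symm] using h1
  have hx2G := gp_tp U hx1G
  have hx1n : ∀ i, (fun i => x (σ i)) i ≠ 0 := coord_ne_zero hF1h (by norm_num) _ hx1G.2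
  have hx2n : ∀ i, tp U (fun i => x (σ i)) i ≠ 0 :=
    coord_ne_zero (shear_hom hF1h U) (by norm_num) _ hx2G.2
  have hx2r : ratioField (tp U fun i => x (σ i)) = ratioField fun i => x (σ i) :=
    ratioField_tp U _ ⟨_, hx1n (Fin.castAdd (m + 1) 0)⟩ ⟨_, hx2n (Fin.castAdd (m + 1) 0)⟩
  exact ⟨hx2G, hx2r.trans hx1r⟩

theorem bwd {F : MvPolynomial (Fin N) ℂ}
    (σ : Fin (k + 1 + (m + 1)) ≃ Fin N) (U : Fin (k + 1) → Fin (m + 1) → ℂ)
    {M : Type} [Field M] [Algebra ℂ M] {x : Fin N → M}
    (h : Gp (shear U (rename σ.symm F)) (tp U fun i => x (σ i))) : Gp F x := by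
  have h1 := gp_tp (fun i j => -U i j) h
  rw [tp_neg_tp] at h1
  have h2 : shear (fun i j => -U i j) (shear U (rename σ.symm F)) = rename σ.symm F := by
    have h3 := shear_neg_shear (fun i j => -U i j) (rename σ.symm F)
    simpa only [neg_neg] using h3
  rw [h2] at h1
  have h4 := gp_rename σ h1
  have h5 : rename σ (rename σ.symm F) = F := by
    rw [rename_rename]
    have h6 : (σ : Fin (k + 1 + (m + 1)) → Fin N) ∘ σ.symm = id := by
      funext i
      simp
    rw [h6, rename_id_apply]
  rw [h5] at h4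
  simpa only [Equiv.apply_symm_apply] using h4

end transport

/-- curves whose projections are lines -/
theorem lines_iso {N P : ℕ} {F : MvPolynomial (Fin N) ℂ}
    (hF : F.IsHomogeneous 3) (hsm : Sm F) (hF0 : F ≠ 0) (A : Fin N → Fin P → ℂ)
    (hA : ∀ a : Fin P → ℂ, eval (fun i => ∑ l, a l * A i l) F = 0)
    {M : Type} [Field M] [Algebra ℂ M] (L : IntermediateField ℂ M) (t : M)
    (ht : Transcendental L t) (hM : adjoin L {t} = ⊤) (x : Fin N → M) (hG : Gp F x)
    (hodd : Odd (finrank (ratioField x) M)) (s : M) (w : Fin P → M) (β γ : Fin N → M)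
    (hβ : ∀ i, β i ∈ L) (hγ : ∀ i, γ i ∈ L)
    (hx : ∀ i, x i = s * (t * β i + γ i) + ∑ l, w l * algebraMap ℂ M (A i l)) :
    AdIso F A := by
  classical
  by_cases hA0 : A = 0
  · exfalso
    have h1 : ∀ i, x i = s * (t * β i + γ i) := by
      intro i
      rw [hx, hA0]
      simp
    have hs : s ≠ 0 := by
      intro h0
      obtain ⟨i, hi⟩ : ∃ i : Fin N, True := by
        by_contra hcon
        push Not at hcon
        have : IsEmpty (Fin N) := ⟨fun i => hcon i⟩
        have h2 := hF.totalDegree hF0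
        rw [eq_C_of_isEmpty F, totalDegree_C] at h2
        omega
      exact coord_ne_zero hF (by norm_num) x hG.2 i (by rw [h1, h0, zero_mul])
    obtain ⟨h2, h3⟩ := gp_smul hF hs h1
    rw [h2] at hG
    rw [h3] at hodd
    have hirr : Irreducible F :=
      Pool.Agent.Y201.LI.irreducible_of_generic hF hF0 _ hG.1 hG.2
    have h4 := Pool.Agent.Y201.LI.hT1 N 3 F hF (by norm_num) hirr hsm M L t ht β γ
      hβ hγ hG.1 hG.2
    exact (Nat.not_even_iff_odd.2 hodd) (even_iff_two_dvd.2 h4)
  obtain ⟨k, m, σ, U, hW, hU, hsurj, htp⟩ := adapt2 hF0 A hA0 hA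
  refine ⟨k, m, σ, U, hW, hU, hsurj, ?_⟩
  have hF1h : (rename σ.symm F).IsHomogeneous 3 := hF.rename_isHomogeneous
  obtain ⟨hx2G, hx2r⟩ := fwd hF σ U hG
  refine sec_iso spr desc (shear_hom hF1h U) (sm_shear (sm_rename σ.symm hsm) U) hW L t ht hM
    (tp U fun i => x (σ i)) hx2G (by rw [hx2r]; exact hodd) s
    (fun j => tp U (fun i => β (σ i)) (Fin.natAdd (k + 1) j))
    (fun j => tp U (fun i => γ (σ i)) (Fin.natAdd (k + 1) j))
    (fun j => tp_mem U L _ (fun i => hβ _) _) (fun j => tp_mem U L _ (fun i => hγ _) _)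
    fun j => ?_
  have h1 : (fun i => x (σ i)) = fun i => s * t * β (σ i) + s * γ (σ i) +
      ∑ l, w l * algebraMap ℂ M (A (σ i) l) := by
    funext i
    rw [hx]
    ring
  rw [h1, tp_lin]
  simp only
  rw [htp M w j]
  ring

/-- conics which meet the linear subspace -/
theorem conics_iso {N P : ℕ} {F : MvPolynomial (Fin N) ℂ}
    (hF : F.IsHomogeneous 3) (hsm : Sm F) (hF0 : F ≠ 0) (A : Fin N → Fin P → ℂ)
    (hA : ∀ a : Fin P → ℂ, eval (fun i => ∑ l, a l * A i l) F = 0)
    {M : Type} [Field M] [Algebra ℂ M] (L : IntermediateField ℂ M) (t : M)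
    (ht : Transcendental L t) (x : Fin N → M) (hG : Gp F x)
    (hodd : Odd (finrank (ratioField x) M)) (s : M) (hs : s ≠ 0) (w : Fin P → M)
    (β γ : Fin N → M) (hw : ∀ l, w l ∈ L) (hβ : ∀ i, β i ∈ L) (hγ : ∀ i, γ i ∈ L)
    (hx : ∀ i, s * x i = t ^ 2 * (∑ l, w l * algebraMap ℂ M (A i l)) + t * β i + γ i) :
    AdIso F A := by
  classical
  set x' : Fin N → M := fun i => s * x i with hx'
  obtain ⟨g1, g2⟩ := gp_smul (x := x') (y := x) hF hs (fun i => rfl)
  have hG' : Gp F x' := g1.2 hG
  have hodd' : Odd (finrank (ratioField x') M) := by rw [g2]; exact hodd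
  by_cases hA0 : A = 0
  · exfalso
    have h1 : x' = fun i => t * β i + γ i := by
      funext i
      rw [hx']
      simp only
      rw [hx, hA0]
      simp
    rw [h1] at hG' hodd'
    have hirr : Irreducible F :=
      Pool.Agent.Y201.LI.irreducible_of_generic hF hF0 _ hG'.1 hG'.2
    have h4 := Pool.Agent.Y201.LI.hT1 N 3 F hF (by norm_num) hirr hsm M L t ht β γ
      hβ hγ hG'.1 hG'.2
    exact (Nat.not_even_iff_odd.2 hodd') (even_iff_two_dvd.2 h4)
  obtain ⟨k, m, σ, U, hW, hU, hsurj, htp⟩ := adapt2 hF0 A hA0 hA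
  refine ⟨k, m, σ, U, hW, hU, hsurj, ?_⟩
  have hF1h : (rename σ.symm F).IsHomogeneous 3 := hF.rename_isHomogeneous
  obtain ⟨hx2G, hx2r⟩ := fwd hF σ U hG'
  set v : Fin N → M := fun i => ∑ l, w l * algebraMap ℂ M (A i l) with hv
  have hvL : ∀ i, v i ∈ L := fun i => sum_mem fun l _ => mul_mem (hw l) (L.algebraMap_mem _)
  set α : Fin (k + 1) → M := fun i => v (σ (Fin.castAdd (m + 1) i)) with hα
  have htv : tp U (fun i => v (σ i)) = Fin.append α (0 : Fin (m + 1) → M) := by
    funext i
    refine Fin.addCases (fun j => ?_) (fun j => ?_) i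
    · unfold tp
      rw [Fin.append_left, Fin.append_left]
    · rw [Fin.append_right, Pi.zero_apply]
      exact htp M w j
  have htx : (tp U fun i => x' (σ i)) = fun i => t ^ 2 * Fin.append α (0 : Fin (m + 1) → M) i +
      t * tp U (fun i => β (σ i)) i + tp U (fun i => γ (σ i)) i := by
    rw [← htv, ← tp_lin]
    congr 1
    funext i
    rw [hx']
    simp only
    rw [hx]
  rw [htx] at hx2G hx2r
  exact cc spr desc k m _ (shear_hom hF1h U) (sm_shear (sm_rename σ.symm hsm) U) hW M L t ht α
    (tp U fun i => β (σ i)) (tp U fun i => γ (σ i)) (fun i => hvL _)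
    (tp_mem U L _ fun i => hβ _) (tp_mem U L _ fun i => hγ _) hx2G
    (by rw [hx2r]; exact hodd')

/-- a jump of the parity in a fibre of the projection -/
theorem fibre_iso {N P : ℕ} {F : MvPolynomial (Fin N) ℂ}
    (hF : F.IsHomogeneous 3) (hsm : Sm F) (hF0 : F ≠ 0) (A : Fin N → Fin P → ℂ)
    (hA : ∀ a : Fin P → ℂ, eval (fun i => ∑ l, a l * A i l) F = 0)
    {M : Type} [Field M] [Algebra ℂ M] (x y : Fin N → M) (hG : Gp F x)
    (hodd : Odd (finrank (ratioField x) M)) (hyF : aeval y F = 0) (s : M) (hs : s ≠ 0)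
    (w : Fin P → M) (hy : ∀ i, y i = s * x i + ∑ l, w l * algebraMap ℂ M (A i l))
    (hyn : ¬ (Gp F y ∧ Odd (finrank (ratioField y) M))) :
    AdIso F A := by
  classical
  by_cases hA0 : A = 0
  · exfalso
    apply hyn
    have h1 : ∀ i, y i = s * x i := by
      intro i
      rw [hy, hA0]
      simp
    obtain ⟨h2, h3⟩ := gp_smul hF hs h1
    exact ⟨h2.2 hG, by rw [h3]; exact hodd⟩
  obtain ⟨k, m, σ, U, hW, hU, hsurj, htp⟩ := adapt2 hF0 A hA0 hA
  refine ⟨k, m, σ, U, hW, hU, hsurj, ?_⟩
  by_contra hni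
  apply hyn
  have hF1h : (rename σ.symm F).IsHomogeneous 3 := hF.rename_isHomogeneous
  set F2 := shear U (rename σ.symm F) with hF2
  have hF2h : F2.IsHomogeneous 3 := shear_hom hF1h U
  have hF2s : Sm F2 := sm_shear (sm_rename σ.symm hsm) U
  obtain ⟨hx2G, hx2r⟩ := fwd hF σ U hG
  set x2 := tp U fun i => x (σ i) with hx2
  set y2 := tp U fun i => y (σ i) with hy2
  have hy2F : aeval y2 F2 = 0 := by
    rw [hy2, hF2, aeval_tp, aeval_rename]
    have h1 : (fun i => y (σ i)) ∘ σ.symm = y := by
      funext i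
      simp
    rw [h1]
    exact hyF
  set w' : Fin (k + 1) → M := fun i =>
    ∑ l, w l * algebraMap ℂ M (A (σ (Fin.castAdd (m + 1) i)) l) with hw'
  have hyx : ∀ i, y2 i = s * x2 i + Fin.append w' (0 : Fin (m + 1) → M) i := by
    have h1 : (fun i => y (σ i)) = fun i => s * x (σ i) + 0 * x (σ i) +
        ∑ l, w l * algebraMap ℂ M (A (σ i) l) := by
      funext i
      rw [hy]
      ring
    intro i
    rw [hy2, h1, tp_lin]
    have h2 : tp U (fun i => ∑ l, w l * algebraMap ℂ M (A (σ i) l)) i =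
        Fin.append w' (0 : Fin (m + 1) → M) i := by
      refine Fin.addCases (fun j => ?_) (fun j => ?_) i
      · unfold tp
        rw [Fin.append_left, Fin.append_left]
      · rw [Fin.append_right, Pi.zero_apply]
        exact htp M w j
    simp only
    rw [h2]
    ring
  -- the point `y2` is generic of odd degree
  have key : Gp F2 y2 ∧ Odd (finrank (ratioField y2) M) := by
    by_cases hw0 : w' = 0
    · have h1 : ∀ i, y2 i = s * x2 i := by
        intro i
        rw [hyx, hw0]
        have h2 : Fin.append (0 : Fin (k + 1) → M) (0 : Fin (m + 1) → M) i = 0 := by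
          refine Fin.addCases (fun j => ?_) (fun j => ?_) i
          · rw [Fin.append_left, Pi.zero_apply]
          · rw [Fin.append_right, Pi.zero_apply]
        rw [h2, add_zero]
      obtain ⟨h2, h3⟩ := gp_smul hF2h hs h1
      exact ⟨h2.2 hx2G, by rw [h3, hx2r]; exact hodd⟩
    · obtain ⟨T, hT, hFT⟩ := exists_tri F2 hF2h
      obtain ⟨hB, hzG, hzo⟩ := refl_odd spr desc hF2h hF2s hW hni hT hFT x2 hx2G
        (by rw [hx2r]; exact hodd) w' hw0
      set p : Fin (k + 1 + (m + 1)) → M := Fin.append w' (0 : Fin (m + 1) → M) with hp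
      set a := 3 * Bg T x2 x2 p with ha
      set b := 3 * Bg T x2 p p with hb
      have hpF : aeval p F2 = 0 := vanW_aeval hW w'
      -- the equation of the line
      have hline : s * (s * a + b) = 0 := by
        have hev : ∀ v : Fin (k + 1 + (m + 1)) → M, aeval v F2 = Bg T v v v := by
          intro v
          conv_lhs => rw [hFT]
          exact aeval_frmG T v
        have h1 : y2 = fun i => s * x2 i + 1 * p i + 0 * p i := by
          funext i
          rw [hyx]
          ring
        have h2 := hy2F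
        rw [h1, hev, Bg_span3 hT] at h2
        rw [hev] at hpF
        have h3 : Bg T x2 x2 x2 = 0 := by
          rw [← hev]
          exact hx2G.1
        rw [hpF, h3] at h2
        rw [ha, hb]
        linear_combination h2
      have hsab : s * a + b = 0 := (mul_eq_zero.1 hline).resolve_left hs
      have ha0 : a ≠ 0 := by
        intro h0
        rw [h0, mul_zero, zero_add] at hsab
        exact hB hsab
      have h1 : ∀ i, y2 i = (-1 / a) * (b * x2 i - a * p i) := by
        intro i
        rw [hyx]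
        have h2 : s = -b / a := by
          field_simp
          linear_combination hsab
        rw [h2]
        field_simp
        ring
      obtain ⟨h2, h3⟩ := gp_smul hF2h (div_ne_zero (neg_ne_zero.2 one_ne_zero) ha0) h1
      exact ⟨h2.2 hzG, by rw [h3]; exact hzo⟩
  have hyG : Gp F y := bwd σ U key.1
  refine ⟨hyG, ?_⟩
  rw [← (fwd hF σ U hyG).2]
  exact key.2

end

end Pool.Agent.Run7.h490.OR
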