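import Mathlib
import Pool.Agent.Run7.h490.OR1

/-! # Consequences of a rational section; parametrizations by cubic polynomials -/

set_option autoImplicit false

namespace Pool.Agent.Run7.h490.OR

open MvPolynomial Pool.Agent.TH314.PD Module Pool.Agent.Y201.C3 IntermediateField
open Pool.Agent.R845.T2 Pool.Agent.R845.E3

noncomputable section

/-- the generic point `(1, X_1, ..., X_r)` of projective space -/
def zg (r : ℕ) : Fin (r + 1) → Rn r := fun i =>
  algebraMap (MvPolynomial (Fin r) ℂ) (Rn r)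
    ((Fin.cons 1 X : Fin (r + 1) → MvPolynomial (Fin r) ℂ) i)

/-- the projection from the span of `A` has a rational section: there are rational functions `s`,
`w l` such that `F (s z + ∑ w l A l) = 0`, where `z` is the generic point of projective space -/
def HasSection {r P : ℕ} (F : MvPolynomial (Fin (r + 1)) ℂ) (A : Fin (r + 1) → Fin P → ℂ) :
    Prop :=
  ∃ (s : Rn r) (w : Fin P → Rn r), s ≠ 0 ∧
    aeval (fun i => s * zg r i + ∑ l, w l * algebraMap ℂ (Rn r) (A i l)) F = 0

theorem zg_gen {r e : ℕ} (H : MvPolynomial (Fin (r + 1)) ℂ) (hH : H.IsHomogeneous e)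
    (h : aeval (zg r) H = 0) : H = 0 := by
  refine hom_zero hH ?_
  apply IsFractionRing.injective (MvPolynomial (Fin r) ℂ) (Rn r)
  rw [map_zero, ← h]
  exact comp_aeval_apply (φ := IsScalarTower.toAlgHom ℂ (MvPolynomial (Fin r) ℂ) (Rn r)) _ H

/-- a rational section in adapted coordinates -/
theorem section_gen {r P : ℕ} {F : MvPolynomial (Fin (r + 1)) ℂ} (hF : F.IsHomogeneous 3)
    (hsm : Sm F) (A : Fin (r + 1) → Fin P → ℂ) (h : AdIso F A) {E : Type} [Field E]
    [Algebra ℂ E] (z : Fin (r + 1) → E) (hz : ∀ (e : ℕ) (H : MvPolynomial (Fin (r + 1)) ℂ),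
      H.IsHomogeneous e → aeval z H = 0 → H = 0) :
    ∃ (s : E) (w : Fin P → E), s ≠ 0 ∧
      aeval (fun i => s * z i + ∑ l, w l * algebraMap ℂ E (A i l)) F = 0 := by
  classical
  obtain ⟨k, m, σ, U, hW, hU, hsurj, c, l, hcl | hcl⟩ := h
  swap
  · exact (Trans.alt2 evn k m _ (shear_hom hF.rename_isHomogeneous U)
      (sm_shear (sm_rename σ.symm hsm) U) hW c hcl.1 hcl.2).elim
  obtain ⟨hl, hx⟩ := hcl
  set F2 := shear U (rename σ.symm F) with hF2
  set x2 : Fin (k + 1 + (m + 1)) → E := tp U fun i => z (σ i) with hx2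
  have hgen : ∀ (e : ℕ) (H : MvPolynomial (Fin (k + 1 + (m + 1))) ℂ), H.IsHomogeneous e →
      aeval x2 H = 0 → H = 0 := by
    intro e H hH h0
    rw [hx2, ← aeval_shear_neg] at h0
    have h1 : rename σ (shear (fun i j => -U i j) H) = 0 := by
      refine hz _ _ (shear_hom hH _).rename_isHomogeneous ?_
      rw [aeval_rename]
      exact h0
    have h2 := rename_injective σ σ.injective (h1.trans (map_zero _).symm)
    have h3 := shear_neg_shear U H
    rw [← h3, h2]
    unfold shear
    rw [map_zero]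
  set v0 : E := x2 (Fin.natAdd (k + 1) 0) with hv0
  have hv0n : v0 ≠ 0 := by
    intro h0
    exact X_ne_zero _ (hgen 1 (X (Fin.natAdd (k + 1) 0)) (isHomogeneous_X _ _)
      (by rw [aeval_X]; exact h0))
  set Y : Fin m → E := fun j => x2 (Fin.natAdd (k + 1) j.succ) / v0 with hY
  have hYi : AlgebraicIndependent ℂ Y := by
    let b : Fin (k + 1 + (m + 1)) := Fin.natAdd (k + 1) 0
    let f : Fin m → Fin (k + 1 + (m + 1)) := fun j => Fin.natAdd (k + 1) j.succ
    have hf : Function.Injective f := by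
      intro i j hij
      exact Fin.succ_injective _ ((Fin.natAdd_injective _ _) hij)
    have hfb : ∀ i, f i ≠ b := by
      intro i hi
      exact Fin.succ_ne_zero i ((Fin.natAdd_injective _ _) hi)
    exact gen_ratio (r := k + 1 + m) x2 hgen b f hf hfb
  have hlY : aeval Y l ≠ 0 := fun h0 => hl ((injective_iff_map_eq_zero _).1 hYi l h0)
  -- the point
  set q2 : Fin (k + 1 + (m + 1)) → E := fun i =>
    aeval Y (Fin.append c (fun j => l * yv ℂ m j) i) with hq2
  have hq2F : aeval q2 F2 = 0 := by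
    have h1 := comp_aeval_apply (f := Fin.append c (fun j => l * yv ℂ m j)) (aeval Y) F2
    rw [hx, map_zero] at h1
    exact h1.symm
  set s : E := aeval Y l / v0 with hs
  have hs0 : s ≠ 0 := div_ne_zero hlY hv0n
  have hq2y : ∀ j, q2 (Fin.natAdd (k + 1) j) = s * x2 (Fin.natAdd (k + 1) j) := by
    intro j
    rw [hq2]
    simp only
    rw [Fin.append_right, map_mul, hs]
    refine Fin.cases ?_ (fun j => ?_) j
    · unfold yv
      rw [Fin.cons_zero, map_one, ← hv0]
      field_simp
    · unfold yv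
      rw [Fin.cons_succ, aeval_X, hY]
      field_simp
  set w' : Fin (k + 1) → E := fun i =>
    q2 (Fin.castAdd (m + 1) i) - s * x2 (Fin.castAdd (m + 1) i) with hw'
  choose a ha using fun i : Fin (k + 1) => hsurj (Pi.single i 1)
  set w : Fin P → E := fun l => ∑ i, w' i * algebraMap ℂ E (a i l) with hw
  have hwc : ∀ i, ∑ l, w l * algebraMap ℂ E (A (σ (Fin.castAdd (m + 1) i)) l) = w' i := by
    intro i
    rw [hw]
    simp only [Finset.sum_mul]
    rw [Finset.sum_comm]
    have h1 : ∀ i', ∑ l, w' i' * algebraMap ℂ E (a i' l) *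
        algebraMap ℂ E (A (σ (Fin.castAdd (m + 1) i)) l) =
        w' i' * algebraMap ℂ E ((Pi.single i' 1 : Fin (k + 1) → ℂ) i) := by
      intro i'
      rw [← ha i' i, map_sum, Finset.mul_sum]
      exact Finset.sum_congr rfl fun l _ => by rw [map_mul]; ring
    simp only [h1]
    rw [Finset.sum_eq_single i]
    · rw [Pi.single_eq_same, map_one, mul_one]
    · intro b _ hb
      rw [Pi.single_eq_of_ne (Ne.symm hb), map_zero, mul_zero]
    · intro h
      exact absurd (Finset.mem_univ i) h
  have hwn : ∀ j, ∑ l, w l * algebraMap ℂ E (A (σ (Fin.natAdd (k + 1) j)) l) =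
      ∑ i, algebraMap ℂ E (U i j) * w' i := by
    intro j
    simp only [← hwc, hU, map_sum, map_mul, Finset.mul_sum]
    rw [Finset.sum_comm]
    exact Finset.sum_congr rfl fun i _ => Finset.sum_congr rfl fun l _ => by ring
  refine ⟨s, w, hs0, ?_⟩
  set q : Fin (r + 1) → E := fun i => s * z i + ∑ l, w l * algebraMap ℂ E (A i l)
    with hq
  have hqq : (tp U fun i => q (σ i)) = q2 := by
    have h1 : (fun i => q (σ i)) = fun i => s * z (σ i) + 0 * z (σ i) +
        ∑ l, w l * algebraMap ℂ E (A (σ i) l) := by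
      funext i
      rw [hq]
      ring
    rw [h1, tp_lin]
    funext i
    refine Fin.addCases (fun j => ?_) (fun j => ?_) i
    · have h2 : tp U (fun i => ∑ l, w l * algebraMap ℂ E (A (σ i) l))
          (Fin.castAdd (m + 1) j) = w' j := by
        unfold tp
        rw [Fin.append_left]
        exact hwc j
      rw [h2, hw', ← hx2]
      ring
    · have h2 : tp U (fun i => ∑ l, w l * algebraMap ℂ E (A (σ i) l))
          (Fin.natAdd (k + 1) j) = 0 := by
        unfold tp
        rw [Fin.append_right]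
        simp only [hwn, hwc]
        ring
      rw [h2, ← hx2, hq2y]
      ring
  have h3 : aeval (fun i => q (σ i)) (rename σ.symm F) = 0 := by
    rw [← aeval_tp U, hqq]
    exact hq2F
  rw [aeval_rename] at h3
  have h4 : (fun i => q (σ i)) ∘ σ.symm = q := by
    funext i
    simp
  rwa [h4] at h3

theorem section_of {r P : ℕ} {F : MvPolynomial (Fin (r + 1)) ℂ} (hF : F.IsHomogeneous 3)
    (hsm : Sm F) (A : Fin (r + 1) → Fin P → ℂ) (h : AdIso F A) : HasSection F A :=
  section_gen hF hsm A h (zg r) fun _ H hH h0 => zg_gen H hH h0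

/-- a rational section gives a birational parametrization -/
theorem rational_of {n P : ℕ} (hn : 1 ≤ n) {F : MvPolynomial (Fin (n + 2)) ℂ}
    (hF : F.IsHomogeneous 3) (hsm : Sm F) (A : Fin (n + 2) → Fin P → ℂ) (h : AdIso F A) :
    ∃ G : Fin (n + 2) → MvPolynomial (Fin n) ℂ,
      Gp F (fun i => algebraMap (MvPolynomial (Fin n) ℂ) (Rn n) (G i)) ∧
      (ratioField fun i => algebraMap (MvPolynomial (Fin n) ℂ) (Rn n) (G i)) = ⊤ := by
  classical
  obtain ⟨k, m, σ, U, hW, hU, hsurj, hiso⟩ := h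
  have hkm : n = k + m := by
    have h1 := Fintype.card_congr σ
    rw [Fintype.card_fin, Fintype.card_fin] at h1
    omega
  subst hkm
  obtain ⟨G2, hG2, htop⟩ := rat evn k m hn _ (shear_hom hF.rename_isHomogeneous U)
    (sm_shear (sm_rename σ.symm hsm) U) hW hiso
  let al : MvPolynomial (Fin (k + m)) ℂ →ₐ[ℂ] Rn (k + m) := IsScalarTower.toAlgHom ℂ _ _
  set G : Fin (k + m + 2) → MvPolynomial (Fin (k + m)) ℂ := fun i =>
    tp (fun i j => -U i j) G2 (σ.symm i) with hG
  have h1 : (tp U fun i => algebraMap (MvPolynomial (Fin (k + m)) ℂ) (Rn (k + m)) (G (σ i))) =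
      fun i => algebraMap (MvPolynomial (Fin (k + m)) ℂ) (Rn (k + m)) (G2 i) := by
    have h2 : (fun i => algebraMap (MvPolynomial (Fin (k + m)) ℂ) (Rn (k + m)) (G (σ i))) =
        tp (fun i j => -U i j) fun i =>
          algebraMap (MvPolynomial (Fin (k + m)) ℂ) (Rn (k + m)) (G2 i) := by
      funext i
      rw [hG]
      simp only [Equiv.symm_apply_apply]
      change al (tp (fun i j => -U i j) G2 i) = tp (fun i j => -U i j) (fun i => al (G2 i)) i
      refine Fin.addCases (fun j => ?_) (fun j => ?_) i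
      · unfold tp
        rw [Fin.append_left, Fin.append_left]
      · unfold tp
        rw [Fin.append_right, Fin.append_right, map_sub, map_sum]
        congr 1
        refine Finset.sum_congr rfl fun i _ => ?_
        rw [map_mul, AlgHom.commutes]
    rw [h2, tp_tp_neg]
  refine ⟨G, ?_⟩
  have h3 : Gp F fun i => algebraMap (MvPolynomial (Fin (k + m)) ℂ) (Rn (k + m)) (G i) := by
    refine bwd σ U ?_
    rw [h1]
    exact hG2
  refine ⟨h3, ?_⟩
  rw [← (fwd hF σ U h3).2, h1]
  exact htop

/-- parametrizations of odd degree by cubic polynomials -/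
theorem cubic_iso {n : ℕ} (hn : 1 ≤ n)
    {F : MvPolynomial (Fin (n + 2)) ℂ} (hF : F.IsHomogeneous 3) (hsm : Sm F)
    (G : Fin (n + 2) → MvPolynomial (Fin n) ℂ) (hG : ∀ i, (G i).totalDegree ≤ 3)
    (hgp : Gp F (fun i => algebraMap (MvPolynomial (Fin n) ℂ) (Rn n) (G i)))
    (hodd : Odd (finrank (ratioField fun i => algebraMap (MvPolynomial (Fin n) ℂ) (Rn n) (G i))
      (Rn n))) :
    ∃ A : Fin (n + 2) → Fin (n + 1) → ℂ,
      (∀ a : Fin (n + 1) → ℂ, eval (fun i => ∑ l, a l * A i l) F = 0) ∧ AdIso F A := by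
  classical
  choose H hH hHG using fun i => hom3 (G i) (hG i)
  have hdh : dh H = fun i => algebraMap (MvPolynomial (Fin n) ℂ) (Rn n) (G i) := by
    funext i
    unfold dh
    rw [hHG]
  have hF0 : F ≠ 0 := ne_zero_of_smooth (m := n + 1) hsm
  let al : MvPolynomial (Fin n) ℂ →ₐ[ℂ] Rn n := IsScalarTower.toAlgHom ℂ _ _
  have hal : Function.Injective al := IsFractionRing.injective (MvPolynomial (Fin n) ℂ) _
  have halG : ∀ P : MvPolynomial (Fin (n + 2)) ℂ,
      aeval (fun i => algebraMap (MvPolynomial (Fin n) ℂ) (Rn n) (G i)) P = al (aeval G P) := by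
    intro P
    rw [comp_aeval_apply]
    rfl
  have hFG : aeval G F = 0 := hal (by rw [← halG, hgp.1, map_zero])
  have hdom : ∀ e (P : MvPolynomial (Fin (n + 2)) ℂ), P.IsHomogeneous e → aeval G P = 0 →
      F ∣ P := by
    intro e P hP h0
    exact hgp.2 e P hP (by rw [halG, h0, map_zero])
  obtain ⟨hfin, hb⟩ := bound (k := 3) (by norm_num) F hF hsm G hG hFG hdom
  have hb3 : 3 * finrank (ratioField fun i => algebraMap (MvPolynomial (Fin n) ℂ) (Rn n) (G i))
      (Rn n) ≤ n + 1 := by
    have h1 : finrank (ratioField fun i => algebraMap (MvPolynomial (Fin n) ℂ) (Rn n) (G i))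
      (Rn n) * (3 * 2 ^ n) ≤ (n + 1) * 2 ^ n := hb
    rw [← mul_assoc] at h1
    have h2 := Nat.le_of_mul_le_mul_right h1 (by positivity)
    omega
  have hHF : aeval H F = 0 := by
    have h1 : (aeval H F).IsHomogeneous (3 * 3) := hF.aeval H hH
    refine hom_zero h1 ?_
    rw [comp_aeval_apply]
    rw [show (fun i => aeval (Fin.cons 1 X : Fin (n + 1) → MvPolynomial (Fin n) ℂ) (H i)) = G
      from funext hHG]
    exact hFG
  -- a base point
  obtain ⟨b, hb0, hbH⟩ : ∃ b : Fin (n + 1) → ℂ, b ≠ 0 ∧ ∀ i, eval b (H i) = 0 := by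
    by_contra hcon
    push Not at hcon
    have h1 := bas n F hF hF0 H hH (fun b hb => by
      by_contra hb0
      obtain ⟨i, hi⟩ := hcon b hb0
      exact hi (hb i)) hHF (by rw [hdh]; exact hfin)
    rw [hdh] at h1
    have h2 := pow_gt n hn
    omega
  obtain ⟨A, hA, L, t, s, ht, hs, w, β, γ, hw, hβ, hγ, hx⟩ :=
    con n hn F hF H hH hHF b hb0 hbH
  refine ⟨A, hA, conics_iso hF hsm hF0 A hA L t ht (dh H) (by rw [hdh]; exact hgp)
    (by rw [hdh]; exact hodd) s hs w β γ hw hβ hγ hx⟩

end

end Pool.Agent.Run7.h490.OR
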