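import Mathlib
import Pool.Agent.Run7.h490.OR2

/-! # Rational sections of projections: the converse; very general cubic hypersurfaces -/

set_option autoImplicit false

namespace Pool.Agent.Run7.h490.OR

open MvPolynomial Pool.Agent.TH314.PD Module Pool.Agent.Y201.C3 IntermediateField
open Pool.Agent.R845.T2 Pool.Agent.R845.E3

noncomputable section

/-- the coordinates of the generic point of projective space generate the field -/
theorem ratio_zg (r : ℕ) : ratioField (zg r) = ⊤ := by
  let al : MvPolynomial (Fin r) ℂ →ₐ[ℂ] Rn r := IsScalarTower.toAlgHom ℂ _ _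
  have hz0 : zg r 0 = 1 := by
    change al _ = 1
    rw [Fin.cons_zero, map_one]
  have hX : ∀ i, al (X i) ∈ ratioField (zg r) := by
    intro i
    have h1 : zg r i.succ / zg r 0 ∈ ratioField (zg r) := subset_adjoin ℂ _ ⟨_, _, rfl⟩
    rw [hz0, div_one] at h1
    have h2 : zg r i.succ = al (X i) := by
      change al _ = _
      rw [Fin.cons_succ]
    rwa [h2] at h1
  have hP : ∀ q : MvPolynomial (Fin r) ℂ, al q ∈ ratioField (zg r) := by
    intro q
    induction q using MvPolynomial.induction_on with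
    | C a =>
      have h1 : al (C a) = algebraMap ℂ (Rn r) a := by
        rw [← algebraMap_eq, AlgHom.commutes]
      rw [h1]
      exact (ratioField (zg r)).algebraMap_mem a
    | add p q hp hq =>
      rw [map_add]
      exact add_mem hp hq
    | mul_X p j hp =>
      rw [map_mul]
      exact mul_mem hp (hX j)
  rw [eq_top_iff]
  rintro y -
  obtain ⟨a, b, -, hy⟩ := IsFractionRing.div_surjective (A := MvPolynomial (Fin r) ℂ) y
  rw [← hy]
  exact div_mem (hP a) (hP b)

/-- a rational section over the generic point of projective space, in adapted coordinates -/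
theorem adiso_gen {r P : ℕ} {F : MvPolynomial (Fin (r + 1)) ℂ} (hF : F.IsHomogeneous 3)
    (hF0 : F ≠ 0) (A : Fin (r + 1) → Fin P → ℂ)
    (hA : ∀ a : Fin P → ℂ, eval (fun i => ∑ l, a l * A i l) F = 0) {E : Type} [Field E]
    [Algebra ℂ E] (z : Fin (r + 1) → E) (hz : ∀ (e : ℕ) (H : MvPolynomial (Fin (r + 1)) ℂ),
      H.IsHomogeneous e → aeval z H = 0 → H = 0) (hodd : Odd (finrank (ratioField z) E))
    (s : E) (w : Fin P → E) (hs : s ≠ 0)
    (h : aeval (fun i => s * z i + ∑ l, w l * algebraMap ℂ E (A i l)) F = 0) :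
    AdIso F A := by
  classical
  by_cases hA0 : A = 0
  · exfalso
    apply hF0
    apply hz 3 F hF
    have h1 : (fun i => s * z i + ∑ l, w l * algebraMap ℂ E (A i l)) = fun i => s * z i := by
      funext i
      rw [hA0]
      simp
    rw [h1, aeval_smul_form hF] at h
    exact (mul_eq_zero.1 h).resolve_left (pow_ne_zero _ hs)
  obtain ⟨k, m, σ, U, hW, hU, hsurj, htp⟩ := adapt2 hF0 A hA0 hA
  refine ⟨k, m, σ, U, hW, hU, hsurj, ?_⟩
  have hF1h : (rename σ.symm F).IsHomogeneous 3 := hF.rename_isHomogeneous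
  set F2 := shear U (rename σ.symm F) with hF2
  have hF2h : F2.IsHomogeneous 3 := shear_hom hF1h U
  set z2 : Fin (k + 1 + (m + 1)) → E := tp U fun i => z (σ i) with hz2
  have hgen : ∀ (e : ℕ) (H : MvPolynomial (Fin (k + 1 + (m + 1))) ℂ), H.IsHomogeneous e →
      aeval z2 H = 0 → H = 0 := by
    intro e H hH h0
    rw [hz2, ← aeval_shear_neg] at h0
    have h1 : rename σ (shear (fun i j => -U i j) H) = 0 := by
      refine hz _ _ (shear_hom hH _).rename_isHomogeneous ?_
      rw [aeval_rename]
      exact h0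
    have h2 := rename_injective σ σ.injective (h1.trans (map_zero _).symm)
    have h3 := shear_neg_shear U H
    rw [← h3, h2]
    unfold shear
    rw [map_zero]
  have hne : ∀ i, z2 i ≠ 0 := by
    intro i h0
    exact X_ne_zero i (hgen 1 (X i) (isHomogeneous_X _ _) (by rw [aeval_X]; exact h0))
  have hz1n : ∀ i, z i ≠ 0 := by
    intro i h0
    exact X_ne_zero i (hz 1 (X i) (isHomogeneous_X _ _) (by rw [aeval_X]; exact h0))
  have hr : ratioField z2 = ratioField z := by
    have h1 := ratioField_perm σ.symm z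
    rw [Equiv.symm_symm] at h1
    rw [← h1]
    exact ratioField_tp U _ ⟨Fin.castAdd (m + 1) 0, hz1n _⟩ ⟨Fin.castAdd (m + 1) 0, hne _⟩
  set q : Fin (r + 1) → E := fun i => s * z i + ∑ l, w l * algebraMap ℂ E (A i l) with hq
  set q2 : Fin (k + 1 + (m + 1)) → E := tp U fun i => q (σ i) with hq2
  have hq2F : aeval q2 F2 = 0 := by
    rw [hq2, hF2, aeval_tp, aeval_rename]
    have h1 : (fun i => q (σ i)) ∘ σ.symm = q := by
      funext i
      simp
    rw [h1]
    exact h
  have hq2y : ∀ j, q2 (Fin.natAdd (k + 1) j) = s * z2 (Fin.natAdd (k + 1) j) := by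
    intro j
    have h1 : (fun i => q (σ i)) = fun i => s * z (σ i) + 0 * z (σ i) +
        ∑ l, w l * algebraMap ℂ E (A (σ i) l) := by
      funext i
      rw [hq]
      ring
    rw [hq2, h1, tp_lin]
    have h2 := htp E w j
    change s * tp U (fun i => z (σ i)) (Fin.natAdd (k + 1) j) +
      0 * tp U (fun i => z (σ i)) (Fin.natAdd (k + 1) j) +
      tp U (fun i => ∑ l, w l * algebraMap ℂ E (A (σ i) l)) (Fin.natAdd (k + 1) j) = _
    rw [h2, ← hz2]
    ring
  refine iso_of_odd spr desc hF2h hW (fun i => s⁻¹ * q2 i) z2 ?_ hgen ?_ (by rw [hr]; exact hodd)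
  · rw [aeval_smul_form hF2h, hq2F, mul_zero]
  · intro j
    rw [hq2y]
    field_simp

theorem adiso_of_section {r P : ℕ} {F : MvPolynomial (Fin (r + 1)) ℂ} (hF : F.IsHomogeneous 3)
    (hF0 : F ≠ 0) (A : Fin (r + 1) → Fin P → ℂ)
    (hA : ∀ a : Fin P → ℂ, eval (fun i => ∑ l, a l * A i l) F = 0) (h : HasSection F A) :
    AdIso F A := by
  obtain ⟨s, w, hs, h⟩ := h
  refine adiso_gen hF hF0 A hA (zg r) (fun _ H hH h0 => zg_gen H hH h0) ?_ s w hs h
  rw [ratio_zg, IntermediateField.finrank_top]
  exact odd_one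

/-- very general cubic hypersurfaces: no projection has a rational section -/
theorem no_adiso {n : ℕ} (hn : 3 ≤ n) {F : MvPolynomial (Fin (n + 2)) ℂ}
    (hF : F.IsHomogeneous 3) (hsm : Sm F)
    (hind : AlgebraicIndependent ℚ
      (fun β : {β : Fin (n + 2) →₀ ℕ // β.degree = 3} => coeff β.1 F))
    {P : ℕ} (A : Fin (n + 2) → Fin P → ℂ) : ¬ AdIso F A := by
  rintro ⟨k, m, σ, U, hW, -, -, hiso⟩
  have hkm : k + m = n := by
    have h1 := Fintype.card_congr σ
    rw [Fintype.card_fin, Fintype.card_fin] at h1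
    omega
  exact at_all k m (by omega) _ hF.rename_isHomogeneous (sm_rename σ.symm hsm)
    (ind_rename σ.symm hind) U hW hiso

end

end Pool.Agent.Run7.h490.OR
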