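import Mathlib

/-! # Symmetric trilinear forms in three variables over a field -/

set_option autoImplicit false

namespace Pool.Agent.Run7.h490.PF

open Polynomial

noncomputable section

section gen

variable {K R : Type} [Field K] [CommRing R] [Algebra K R]

/-- the trilinear form with the coefficients `τ` -/
def tg (τ : Fin 3 → Fin 3 → Fin 3 → K) (x y z : Fin 3 → R) : R :=
  ∑ i, ∑ j, ∑ k, algebraMap K R (τ i j k) * x i * y j * z k

/-- symmetric -/
def SymT (τ : Fin 3 → Fin 3 → Fin 3 → K) : Prop :=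
  ∀ i j k, τ i j k = τ j i k ∧ τ i j k = τ i k j

/-- the polar of two vectors -/
def gr (τ : Fin 3 → Fin 3 → Fin 3 → K) (x y : Fin 3 → R) (k : Fin 3) : R :=
  ∑ i, ∑ j, algebraMap K R (τ i j k) * x i * y j

theorem tg_gr (τ : Fin 3 → Fin 3 → Fin 3 → K) (x y z : Fin 3 → R) :
    tg τ x y z = ∑ k, gr τ x y k * z k := by
  unfold tg gr
  simp only [Finset.sum_mul]
  have : ∀ j : Fin 3, ∑ i, ∑ k, algebraMap K R (τ i j k) * x i * y j * z k =
      ∑ k, ∑ i, algebraMap K R (τ i j k) * x i * y j * z k := fun j => Finset.sum_comm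
  calc ∑ i, ∑ j, ∑ k, algebraMap K R (τ i j k) * x i * y j * z k
      = ∑ j, ∑ i, ∑ k, algebraMap K R (τ i j k) * x i * y j * z k := Finset.sum_comm
    _ = ∑ j, ∑ k, ∑ i, algebraMap K R (τ i j k) * x i * y j * z k :=
        Finset.sum_congr rfl fun j _ => this j
    _ = ∑ k, ∑ j, ∑ i, algebraMap K R (τ i j k) * x i * y j * z k := Finset.sum_comm
    _ = _ := Finset.sum_congr rfl fun k _ => Finset.sum_comm

theorem tg_swap12 {τ : Fin 3 → Fin 3 → Fin 3 → K} (hT : SymT τ) (x y z : Fin 3 → R) :
    tg τ x y z = tg τ y x z := by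
  unfold tg
  rw [Finset.sum_comm]
  refine Finset.sum_congr rfl fun i _ => Finset.sum_congr rfl fun j _ =>
    Finset.sum_congr rfl fun k _ => ?_
  rw [(hT j i k).1]
  ring

theorem tg_swap23 {τ : Fin 3 → Fin 3 → Fin 3 → K} (hT : SymT τ) (x y z : Fin 3 → R) :
    tg τ x y z = tg τ x z y := by
  unfold tg
  refine Finset.sum_congr rfl fun i _ => ?_
  rw [Finset.sum_comm]
  refine Finset.sum_congr rfl fun j _ => Finset.sum_congr rfl fun k _ => ?_
  rw [(hT i k j).2]
  ring

theorem tg_add1 (τ : Fin 3 → Fin 3 → Fin 3 → K) (x x' y z : Fin 3 → R) :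
    tg τ (fun i => x i + x' i) y z = tg τ x y z + tg τ x' y z := by
  unfold tg
  simp only [← Finset.sum_add_distrib]
  refine Finset.sum_congr rfl fun i _ => Finset.sum_congr rfl fun j _ =>
    Finset.sum_congr rfl fun k _ => ?_
  ring

theorem tg_smul1 (τ : Fin 3 → Fin 3 → Fin 3 → K) (c : R) (x y z : Fin 3 → R) :
    tg τ (fun i => c * x i) y z = c * tg τ x y z := by
  unfold tg
  simp only [Finset.mul_sum]
  refine Finset.sum_congr rfl fun i _ => Finset.sum_congr rfl fun j _ =>
    Finset.sum_congr rfl fun k _ => ?_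
  ring

theorem tg_add2 (τ : Fin 3 → Fin 3 → Fin 3 → K) (x y y' z : Fin 3 → R) :
    tg τ x (fun i => y i + y' i) z = tg τ x y z + tg τ x y' z := by
  unfold tg
  simp only [← Finset.sum_add_distrib]
  refine Finset.sum_congr rfl fun i _ => Finset.sum_congr rfl fun j _ =>
    Finset.sum_congr rfl fun k _ => ?_
  ring

theorem tg_smul2 (τ : Fin 3 → Fin 3 → Fin 3 → K) (c : R) (x y z : Fin 3 → R) :
    tg τ x (fun i => c * y i) z = c * tg τ x y z := by
  unfold tg
  simp only [Finset.mul_sum]
  refine Finset.sum_congr rfl fun i _ => Finset.sum_congr rfl fun j _ =>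
    Finset.sum_congr rfl fun k _ => ?_
  ring

theorem tg_add3 (τ : Fin 3 → Fin 3 → Fin 3 → K) (x y z z' : Fin 3 → R) :
    tg τ x y (fun i => z i + z' i) = tg τ x y z + tg τ x y z' := by
  unfold tg
  simp only [← Finset.sum_add_distrib]
  refine Finset.sum_congr rfl fun i _ => Finset.sum_congr rfl fun j _ =>
    Finset.sum_congr rfl fun k _ => ?_
  ring

theorem tg_smul3 (τ : Fin 3 → Fin 3 → Fin 3 → K) (c : R) (x y z : Fin 3 → R) :
    tg τ x y (fun i => c * z i) = c * tg τ x y z := by
  unfold tg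
  simp only [Finset.mul_sum]
  refine Finset.sum_congr rfl fun i _ => Finset.sum_congr rfl fun j _ =>
    Finset.sum_congr rfl fun k _ => ?_
  ring

/-- three vectors -/
theorem tg_span3 {τ : Fin 3 → Fin 3 → Fin 3 → K} (hT : SymT τ) (x y z : Fin 3 → R) (a b c : R) :
    tg τ (fun i => a * x i + b * y i + c * z i) (fun i => a * x i + b * y i + c * z i)
      (fun i => a * x i + b * y i + c * z i) =
      a ^ 3 * tg τ x x x + b ^ 3 * tg τ y y y + c ^ 3 * tg τ z z z +
      3 * a ^ 2 * b * tg τ x x y + 3 * a ^ 2 * c * tg τ x x z + 3 * a * b ^ 2 * tg τ y y x +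
      3 * b ^ 2 * c * tg τ y y z + 3 * a * c ^ 2 * tg τ z z x + 3 * b * c ^ 2 * tg τ z z y +
      6 * a * b * c * tg τ x y z := by
  simp only [tg_add1, tg_add2, tg_add3, tg_smul1, tg_smul2, tg_smul3]
  have e1 : tg τ x y x = tg τ x x y := tg_swap23 hT x y x
  have e2 : tg τ y x x = tg τ x x y := by rw [tg_swap12 hT y x x, e1]
  have e3 : tg τ x z x = tg τ x x z := tg_swap23 hT x z x
  have e4 : tg τ z x x = tg τ x x z := by rw [tg_swap12 hT z x x, e3]
  have e5 : tg τ y x y = tg τ y y x := tg_swap23 hT y x y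
  have e6 : tg τ x y y = tg τ y y x := by rw [tg_swap12 hT x y y, e5]
  have e7 : tg τ y z y = tg τ y y z := tg_swap23 hT y z y
  have e8 : tg τ z y y = tg τ y y z := by rw [tg_swap12 hT z y y, e7]
  have e9 : tg τ z x z = tg τ z z x := tg_swap23 hT z x z
  have e10 : tg τ x z z = tg τ z z x := by rw [tg_swap12 hT x z z, e9]
  have e11 : tg τ z y z = tg τ z z y := tg_swap23 hT z y z
  have e12 : tg τ y z z = tg τ z z y := by rw [tg_swap12 hT y z z, e11]
  have f1 : tg τ x z y = tg τ x y z := tg_swap23 hT x z y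
  have f2 : tg τ y x z = tg τ x y z := tg_swap12 hT y x z
  have f3 : tg τ y z x = tg τ x y z := by rw [tg_swap23 hT y z x, f2]
  have f4 : tg τ z x y = tg τ x y z := by rw [tg_swap12 hT z x y, f1]
  have f5 : tg τ z y x = tg τ x y z := by rw [tg_swap23 hT z y x, f4]
  rw [e1, e2, e3, e4, e5, e6, e7, e8, e9, e10, e11, e12, f1, f2, f3, f4, f5]
  ring

theorem map_tg {R' : Type} [CommRing R'] [Algebra K R'] (φ : R →ₐ[K] R')
    (τ : Fin 3 → Fin 3 → Fin 3 → K) (x y z : Fin 3 → R) :
    φ (tg τ x y z) = tg τ (fun i => φ (x i)) (fun i => φ (y i)) (fun i => φ (z i)) := by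
  unfold tg
  simp only [map_sum, map_mul, AlgHom.commutes]

theorem map_gr {R' : Type} [CommRing R'] [Algebra K R'] (φ : R →ₐ[K] R')
    (τ : Fin 3 → Fin 3 → Fin 3 → K) (x y : Fin 3 → R) (k : Fin 3) :
    φ (gr τ x y k) = gr τ (fun i => φ (x i)) (fun i => φ (y i)) k := by
  unfold gr
  simp only [map_sum, map_mul, AlgHom.commutes]

end gen

section pol

variable {K : Type} [Field K]

/-- a Bezout relation -/
theorem bez {ι : Type} [Fintype ι] (f : ι → K[X])
    (h : ∀ q : K[X], Irreducible q → ∃ j, ¬ q ∣ f j) : ∃ u : ι → K[X], ∑ j, u j * f j = 1 := by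
  classical
  have hI : Ideal.span (Set.range f) = ⊤ := by
    by_contra hcon
    obtain ⟨m, hm, hle⟩ := Ideal.exists_le_maximal _ hcon
    obtain ⟨q, hq⟩ := (IsPrincipalIdealRing.principal m).principal
    have hdiv : ∀ j, q ∣ f j := by
      intro j
      have h1 : f j ∈ m := hle (Ideal.subset_span ⟨j, rfl⟩)
      rw [hq] at h1
      exact Ideal.mem_span_singleton.1 h1
    by_cases hq0 : q = 0
    · obtain ⟨j, hj⟩ := h X irreducible_X
      apply hj
      have h2 := hdiv j
      rw [hq0, zero_dvd_iff] at h2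
      rw [h2]
      exact dvd_zero _
    · have hpr : Prime q := by
        rw [← Ideal.span_singleton_prime hq0]
        have h3 := hm.isPrime
        rw [hq] at h3
        exact h3
      obtain ⟨j, hj⟩ := h q hpr.irreducible
      exact hj (hdiv j)
  have h1 : (1 : K[X]) ∈ Ideal.span (Set.range f) := by
    rw [hI]
    trivial
  rw [Ideal.mem_span_range_iff_exists_fun] at h1
  exact h1

/-- a point of a curve of genus zero: a singular vector over the algebraic closure -/
theorem exists_sing [CharZero K] {τ : Fin 3 → Fin 3 → Fin 3 → K} (hτ : SymT τ) (p : Fin 3 → K[X])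
    (hcop : ∀ q : K[X], Irreducible q → ∃ j, ¬ q ∣ p j) (hp : tg τ p p p = 0)
    (H1 : ∀ μ : Fin 3 → K, (∀ k, gr τ μ μ k = 0) → μ = 0)
    (H2 : ∀ c : Fin 3 → K, ∑ j, C (c j) * p j = 0 → c = 0) :
    ∃ u : Fin 3 → AlgebraicClosure K, u ≠ 0 ∧ ∀ k, gr τ u u k = 0 := by
  classical
  by_contra hcon
  push Not at hcon
  set g : Fin 3 → K[X] := fun k => gr τ p p k with hg
  -- the polynomials `g` have no common factor
  have hgc : ∀ q : K[X], Irreducible q → ∃ j, ¬ q ∣ g j := by
    intro q hq
    by_contra hall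
    push Not at hall
    obtain ⟨θ, hθ⟩ := IsAlgClosed.exists_aeval_eq_zero (AlgebraicClosure K) q
      (Polynomial.degree_pos_of_irreducible hq).ne'
    have h1 : ∀ k, gr τ (fun i => aeval θ (p i)) (fun i => aeval θ (p i)) k = 0 := by
      intro k
      have h2 := map_gr (aeval θ : K[X] →ₐ[K] AlgebraicClosure K) τ p p k
      rw [← h2]
      obtain ⟨r, hr⟩ := hall k
      change aeval θ (g k) = 0
      rw [hr, map_mul, hθ, zero_mul]
    have h3 : (fun i => aeval θ (p i)) = (0 : Fin 3 → AlgebraicClosure K) := by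
      by_contra hne
      obtain ⟨k, hk⟩ := hcon _ hne
      exact hk (h1 k)
    have hint : IsIntegral K θ := Algebra.IsIntegral.isIntegral θ
    obtain ⟨j, hj⟩ := hcop (minpoly K θ) (minpoly.irreducible hint)
    exact hj (minpoly.dvd K θ (congrFun h3 j))
  obtain ⟨u, hu⟩ := bez g hgc
  obtain ⟨c, hc⟩ := bez p hcop
  -- the maximal degree
  set e : ℕ := Finset.univ.sup fun j => (p j).natDegree with he
  have hle : ∀ j, (p j).natDegree ≤ e := fun j =>
    Finset.le_sup (f := fun j => (p j).natDegree) (Finset.mem_univ j)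
  obtain ⟨j0, -, hj0⟩ := Finset.exists_mem_eq_sup (Finset.univ : Finset (Fin 3))
    Finset.univ_nonempty fun j => (p j).natDegree
  rw [← he] at hj0
  have he1 : 1 ≤ e := by
    by_contra hlt
    have he0 : e = 0 := by omega
    have hconst : ∀ j, p j = C ((p j).coeff 0) := fun j =>
      eq_C_of_natDegree_eq_zero (Nat.le_zero.1 (he0 ▸ hle j))
    by_cases h0 : (p 0).coeff 0 = 0
    · have h4 := H2 ![1, 0, 0] (by
        simp only [Fin.sum_univ_three, Matrix.cons_val_zero, Matrix.cons_val_one,
          Matrix.cons_val]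
        rw [hconst 0, h0]
        simp)
      have h5 := congrFun h4 0
      simp at h5
    · have h4 := H2 ![-(p 1).coeff 0, (p 0).coeff 0, 0] (by
        simp only [Fin.sum_univ_three, Matrix.cons_val_zero, Matrix.cons_val_one,
          Matrix.cons_val]
        rw [hconst 0, hconst 1]
        simp only [coeff_C_zero, C_neg, C_0]
        ring)
      have h5 := congrFun h4 1
      simp at h5
      exact h0 h5
  have hlead : (p j0).coeff e ≠ 0 := by
    rw [hj0]
    intro h0
    have h1 := leadingCoeff_eq_zero.1 h0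
    rw [h1, natDegree_zero] at hj0
    omega
  set l : Fin 3 → K := fun j => (p j).coeff e with hl
  have hl0 : l ≠ 0 := fun h0 => hlead (congrFun h0 j0)
  obtain ⟨b, hb⟩ : ∃ k, gr τ l l k ≠ 0 := by
    by_contra hall
    push Not at hall
    exact hl0 (H1 l hall)
  have hgb : (g b).coeff (e + e) = gr τ l l b := by
    simp only [hg, gr, finsetSum_coeff]
    refine Finset.sum_congr rfl fun i _ => Finset.sum_congr rfl fun j _ => ?_
    rw [Polynomial.algebraMap_eq, mul_assoc, coeff_C_mul,
      coeff_mul_add_eq_of_natDegree_le (hle i) (hle j)]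
    change _ = τ i j b * l i * l j
    rw [mul_assoc]
  have hgb0 : g b ≠ 0 := by
    intro h0
    rw [h0, coeff_zero] at hgb
    exact hb hgb.symm
  have hgbd : e + e ≤ (g b).natDegree := le_natDegree_of_ne_zero (by rw [hgb]; exact hb)
  -- orthogonality
  set p' : Fin 3 → K[X] := fun j => derivative (p j) with hp'
  have ho1 : ∑ k, g k * p k = 0 := by
    rw [← hp, tg_gr]
  have ho2 : ∑ k, g k * p' k = 0 := by
    have h1 : derivative (tg τ p p p) = tg τ p' p p + tg τ p p' p + tg τ p p p' := by
      unfold tg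
      simp only [derivative_sum, ← Finset.sum_add_distrib]
      refine Finset.sum_congr rfl fun i _ => Finset.sum_congr rfl fun j _ =>
        Finset.sum_congr rfl fun k _ => ?_
      rw [Polynomial.algebraMap_eq]
      simp only [derivative_mul, derivative_C, hp']
      ring
    rw [hp, derivative_zero, tg_swap12 hτ p' p p, tg_swap23 hτ p p' p] at h1
    have h2 : (3 : K[X]) * tg τ p p p' = 0 := by
      rw [h1]
      ring
    have h3 : (3 : K[X]) ≠ 0 := by
      intro h0
      have h4 : C (3 : K) = 0 := h0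
      rw [C_eq_zero] at h4
      norm_num at h4
    rw [← tg_gr]
    exact (mul_eq_zero.1 h2).resolve_left h3
  rw [Fin.sum_univ_three] at ho1 ho2
  set h : Fin 3 → K[X] := ![p 1 * p' 2 - p 2 * p' 1, p 2 * p' 0 - p 0 * p' 2,
    p 0 * p' 1 - p 1 * p' 0] with hh
  have hpar : ∀ a b, g a * h b = g b * h a := by
    have h01 : g 0 * h 1 = g 1 * h 0 := by
      simp only [hh, Matrix.cons_val_zero, Matrix.cons_val_one, Matrix.cons_val]
      linear_combination p 2 * ho2 - p' 2 * ho1
    have h02 : g 0 * h 2 = g 2 * h 0 := by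
      simp only [hh, Matrix.cons_val_zero, Matrix.cons_val_one, Matrix.cons_val]
      linear_combination p' 1 * ho1 - p 1 * ho2
    have h12 : g 1 * h 2 = g 2 * h 1 := by
      simp only [hh, Matrix.cons_val_zero, Matrix.cons_val_one, Matrix.cons_val]
      linear_combination p 0 * ho2 - p' 0 * ho1
    intro a b
    fin_cases a <;> fin_cases b
    · rfl
    · exact h01
    · exact h02
    · exact h01.symm
    · rfl
    · exact h12
    · exact h02.symm
    · exact h12.symm
    · rfl
  set r := ∑ a, u a * h a with hr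
  have hgr : ∀ b, h b = g b * r := by
    intro b
    calc h b = (∑ a, u a * g a) * h b := by rw [hu, one_mul]
      _ = ∑ a, u a * (g a * h b) := by
        rw [Finset.sum_mul]
        exact Finset.sum_congr rfl fun a _ => by ring
      _ = ∑ a, u a * (g b * h a) := Finset.sum_congr rfl fun a _ => by rw [hpar a b]
      _ = g b * r := by
        rw [hr, Finset.mul_sum]
        exact Finset.sum_congr rfl fun a _ => by ring
  have hdeg1 : ∀ a b, (p a * p' b).natDegree ≤ e + (e - 1) := by
    intro a b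
    refine natDegree_mul_le.trans (add_le_add (hle a) ?_)
    refine (natDegree_derivative_le _).trans (Nat.sub_le_sub_right (hle b) 1)
  have hdeg2 : ∀ b, (h b).natDegree ≤ e + (e - 1) := by
    intro b
    fin_cases b
    · exact (natDegree_sub_le _ _).trans (max_le (hdeg1 _ _) (hdeg1 _ _))
    · exact (natDegree_sub_le _ _).trans (max_le (hdeg1 _ _) (hdeg1 _ _))
    · exact (natDegree_sub_le _ _).trans (max_le (hdeg1 _ _) (hdeg1 _ _))
  have hr0 : r = 0 := by
    by_contra hrne
    have h1 := hdeg2 b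
    rw [hgr b, natDegree_mul hgb0 hrne] at h1
    omega
  have hh0 : ∀ b, h b = 0 := fun b => by rw [hgr, hr0, mul_zero]
  have hw : ∀ a b, p a * p' b = p b * p' a := by
    have w0 : p 1 * p' 2 = p 2 * p' 1 := sub_eq_zero.1 (hh0 0)
    have w1 : p 2 * p' 0 = p 0 * p' 2 := sub_eq_zero.1 (hh0 1)
    have w2 : p 0 * p' 1 = p 1 * p' 0 := sub_eq_zero.1 (hh0 2)
    intro a b
    fin_cases a <;> fin_cases b
    · rfl
    · exact w2
    · exact w1.symm
    · exact w2.symm
    · rfl
    · exact w0
    · exact w1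
    · exact w0.symm
    · rfl
  have hz : p' j0 = p j0 * ∑ a, c a * p' a := by
    calc p' j0 = (∑ a, c a * p a) * p' j0 := by rw [hc, one_mul]
      _ = ∑ a, c a * (p a * p' j0) := by
        rw [Finset.sum_mul]
        exact Finset.sum_congr rfl fun a _ => by ring
      _ = ∑ a, c a * (p j0 * p' a) := Finset.sum_congr rfl fun a _ => by rw [hw a j0]
      _ = _ := by
        rw [Finset.mul_sum]
        exact Finset.sum_congr rfl fun a _ => by ring
  have hpj0 : p j0 ≠ 0 := by
    intro h0
    rw [h0, coeff_zero] at hlead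
    exact hlead rfl
  have hne : (p j0).natDegree ≠ 0 := by
    rw [← hj0]
    omega
  have hlt := natDegree_derivative_lt hne
  have hp'0 : p' j0 ≠ 0 := by
    intro h0
    exact hne (derivative_eq_zero.1 h0)
  have hs0 : ∑ a, c a * p' a ≠ 0 := by
    intro h0
    rw [h0, mul_zero] at hz
    exact hp'0 hz
  have h1 : (p' j0).natDegree = (p j0).natDegree + (∑ a, c a * p' a).natDegree := by
    conv_lhs => rw [hz]
    exact natDegree_mul hpj0 hs0
  change (p' j0).natDegree < _ at hlt
  omega

end pol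

end

end Pool.Agent.Run7.h490.PF
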