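import Mathlib
import Pool.Agent.Run7.h490.PF1

/-! # Plane cubics of genus zero without rational singular points -/

set_option autoImplicit false

namespace Pool.Agent.Run7.h490.PF

open Polynomial

noncomputable section

variable {K : Type} [Field K]

/-- the cross product -/
def cr {R : Type} [CommRing R] (u v : Fin 3 → R) : Fin 3 → R :=
  ![u 1 * v 2 - u 2 * v 1, u 2 * v 0 - u 0 * v 2, u 0 * v 1 - u 1 * v 0]

/-- the scalar product -/
def dt {R : Type} [CommRing R] (u v : Fin 3 → R) : R := u 0 * v 0 + u 1 * v 1 + u 2 * v 2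

theorem f3 (i : Fin 3) : i = 0 ∨ i = 1 ∨ i = 2 := by
  revert i
  decide

section

variable {R : Type} [CommRing R]

theorem cr0 (u v : Fin 3 → R) : cr u v 0 = u 1 * v 2 - u 2 * v 1 := rfl

theorem cr1 (u v : Fin 3 → R) : cr u v 1 = u 2 * v 0 - u 0 * v 2 := rfl

theorem cr2 (u v : Fin 3 → R) : cr u v 2 = u 0 * v 1 - u 1 * v 0 := rfl

theorem cramer (u v w P : Fin 3 → R) (j : Fin 3) :
    dt u (cr v w) * P j = dt P (cr v w) * u j + dt P (cr w u) * v j + dt P (cr u v) * w j := by
  unfold dt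
  rcases f3 j with rfl | rfl | rfl
  · simp only [cr0, cr1, cr2]
    ring
  · simp only [cr0, cr1, cr2]
    ring
  · simp only [cr0, cr1, cr2]
    ring

end

theorem fixed [CharZero K] (z : AlgebraicClosure K)
    (h : ∀ σ : AlgebraicClosure K ≃ₐ[K] AlgebraicClosure K, σ z = z) :
    ∃ a : K, algebraMap K (AlgebraicClosure K) a = z := by
  have h1 : z ∈ (⊥ : IntermediateField K (AlgebraicClosure K)) :=
    (InfiniteGalois.mem_bot_iff_fixed z).2 h
  rwa [IntermediateField.mem_bot] at h1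

/-- proportional vectors -/
theorem prop_of {F : Type} [Field F] {u v : Fin 3 → F} (h : cr u v = 0) {j : Fin 3}
    (hj : u j ≠ 0) : v = fun i => v j / u j * u i := by
  have h0 : u 1 * v 2 - u 2 * v 1 = 0 := congrFun h 0
  have h1 : u 2 * v 0 - u 0 * v 2 = 0 := congrFun h 1
  have h2 : u 0 * v 1 - u 1 * v 0 = 0 := congrFun h 2
  funext i
  rw [div_mul_eq_mul_div, eq_div_iff hj]
  rcases f3 j with rfl | rfl | rfl <;> rcases f3 i with rfl | rfl | rfl
  · ring
  · linear_combination h2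
  · linear_combination -h1
  · linear_combination -h2
  · ring
  · linear_combination h0
  · linear_combination h1
  · linear_combination -h0
  · ring

/-- a relation over the algebraic closure gives one over the field -/
theorem descend_rel {Ω : Type} [Field Ω] [Algebra K Ω] (p : Fin 3 → K[X])
    (H2 : ∀ c : Fin 3 → K, ∑ j, C (c j) * p j = 0 → c = 0) (ω : Fin 3 → Ω)
    (h : ∑ j, C (ω j) * (p j).map (algebraMap K Ω) = 0) : ω = 0 := by
  funext j
  rw [Pi.zero_apply]
  rw [← Module.forall_dual_apply_eq_zero_iff K]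
  intro φ
  have h1 : ∑ j, C (φ (ω j)) * p j = 0 := by
    apply Polynomial.ext
    intro m
    have h2 := congrArg (fun q : Polynomial Ω => φ (q.coeff m)) h
    simp only [finsetSum_coeff, coeff_C_mul, coeff_map, coeff_zero, map_zero, map_sum] at h2
    rw [finsetSum_coeff, coeff_zero, ← h2]
    refine Finset.sum_congr rfl fun j _ => ?_
    rw [coeff_C_mul, mul_comm (ω j), ← Algebra.smul_def, map_smul, smul_eq_mul, mul_comm]
  exact congrFun (H2 _ h1) j

section aux

variable {Ω : Type} [Field Ω] [Algebra K Ω]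

theorem hS {τ : Fin 3 → Fin 3 → Fin 3 → K} {R : Type} [CommRing R] [Algebra K R]
    {v : Fin 3 → R} (hv : ∀ k, gr τ v v k = 0) (z : Fin 3 → R) : tg τ v v z = 0 := by
  rw [tg_gr]
  exact Finset.sum_eq_zero fun k _ => by rw [hv, zero_mul]

theorem gr_alg {τ : Fin 3 → Fin 3 → Fin 3 → K} {μ : Fin 3 → K}
    (h : ∀ k, gr τ (fun i => algebraMap K Ω (μ i)) (fun i => algebraMap K Ω (μ i)) k = 0) :
    ∀ k, gr τ μ μ k = 0 := by
  intro k
  apply (algebraMap K Ω).injective
  have h1 := map_gr (Algebra.ofId K Ω) τ μ μ k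
  rw [map_zero]
  exact h1.trans (h k)

theorem gr_smul {τ : Fin 3 → Fin 3 → Fin 3 → K} {u : Fin 3 → Ω} (hu : ∀ k, gr τ u u k = 0)
    (s : Ω) (k : Fin 3) : gr τ (fun i => s * u i) (fun i => s * u i) k = 0 := by
  have h6 : gr τ (fun i => s * u i) (fun i => s * u i) k = s * s * gr τ u u k := by
    unfold gr
    simp only [Finset.mul_sum]
    refine Finset.sum_congr rfl fun a _ => Finset.sum_congr rfl fun b _ => ?_
    ring
  rw [h6, hu, mul_zero]

theorem gr_aut {τ : Fin 3 → Fin 3 → Fin 3 → K} (σ : Ω ≃ₐ[K] Ω) {v : Fin 3 → Ω}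
    (hv : ∀ k, gr τ v v k = 0) (k : Fin 3) :
    gr τ (fun i => σ (v i)) (fun i => σ (v i)) k = 0 := by
  have h1 := map_gr (σ : Ω →ₐ[K] Ω) τ v v k
  rw [hv, map_zero] at h1
  exact h1.symm

/-- the case of one singular point -/
theorem one_sing (hfix : ∀ z : Ω, (∀ σ : Ω ≃ₐ[K] Ω, σ z = z) → ∃ a : K, algebraMap K Ω a = z)
    {τ : Fin 3 → Fin 3 → Fin 3 → K}
    (H1 : ∀ μ : Fin 3 → K, (∀ k, gr τ μ μ k = 0) → μ = 0) {u : Fin 3 → Ω}
    (hu : ∀ k, gr τ u u k = 0) {j : Fin 3} (hj : u j ≠ 0)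
    (hcase : ∀ v : Fin 3 → Ω, (∀ k, gr τ v v k = 0) → cr u v = 0) : False := by
  have h1 : ∀ i, ∃ a : K, algebraMap K Ω a = u i / u j := by
    intro i
    apply hfix
    intro σ
    have h2 := prop_of (hcase _ (gr_aut σ hu)) hj
    have h3 : σ (u i) = σ (u j) / u j * u i := congrFun h2 i
    have h4 : σ (u j) ≠ 0 := (map_ne_zero σ).2 hj
    rw [map_div₀, h3]
    field_simp
  choose μ hμ using h1
  have h4 : μ = 0 := by
    apply H1
    apply gr_alg (Ω := Ω)
    intro k
    have h5 : (fun i => algebraMap K Ω (μ i)) = fun i => (u j)⁻¹ * u i := by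
      funext i
      rw [hμ, div_eq_inv_mul]
    rw [h5]
    exact gr_smul hu _ k
  have h7 := hμ j
  rw [h4, Pi.zero_apply, map_zero, div_self hj] at h7
  exact zero_ne_one h7

/-- the case of a line of singular points or of two singular points -/
theorem two_sing (hfix : ∀ z : Ω, (∀ σ : Ω ≃ₐ[K] Ω, σ z = z) → ∃ a : K, algebraMap K Ω a = z)
    {τ : Fin 3 → Fin 3 → Fin 3 → K} (hτ : SymT τ) {u v : Fin 3 → Ω}
    (hu : ∀ k, gr τ u u k = 0) (hv : ∀ k, gr τ v v k = 0) (huv : cr u v ≠ 0)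
    (hcase : ∀ w : Fin 3 → Ω, (∀ k, gr τ w w k = 0) → dt (cr u v) w = 0) :
    ∃ c : Fin 3 → K, c ≠ 0 ∧ ∀ x y z : Fin 3 → K, dt c x = 0 → dt c y = 0 → dt c z = 0 →
      tg τ x y z = 0 := by
  obtain ⟨c, hc⟩ : ∃ c, c = cr u v := ⟨_, rfl⟩
  rw [← hc] at huv hcase
  obtain ⟨l, hl⟩ : ∃ l, c l ≠ 0 := by
    by_contra hall
    push Not at hall
    exact huv (_root_.funext hall)
  have c0 : c 0 = u 1 * v 2 - u 2 * v 1 := by rw [hc, cr0]
  have c1 : c 1 = u 2 * v 0 - u 0 * v 2 := by rw [hc, cr1]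
  have c2 : c 2 = u 0 * v 1 - u 1 * v 0 := by rw [hc, cr2]
  have h1 : ∀ i, ∃ a : K, algebraMap K Ω a = c i / c l := by
    intro i
    apply hfix
    intro σ
    have hsu : c 0 * σ (u 0) + c 1 * σ (u 1) + c 2 * σ (u 2) = 0 := hcase _ (gr_aut σ hu)
    have hsv : c 0 * σ (v 0) + c 1 * σ (v 1) + c 2 * σ (v 2) = 0 := hcase _ (gr_aut σ hv)
    have e0 : σ (c 0) = σ (u 1) * σ (v 2) - σ (u 2) * σ (v 1) := by
      rw [c0, map_sub, map_mul, map_mul]
    have e1 : σ (c 1) = σ (u 2) * σ (v 0) - σ (u 0) * σ (v 2) := by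
      rw [c1, map_sub, map_mul, map_mul]
    have e2 : σ (c 2) = σ (u 0) * σ (v 1) - σ (u 1) * σ (v 0) := by
      rw [c2, map_sub, map_mul, map_mul]
    have hpar : cr c (fun a => σ (c a)) = 0 := by
      funext a
      rw [Pi.zero_apply]
      rcases f3 a with rfl | rfl | rfl
      · rw [cr0, e1, e2]
        linear_combination σ (u 0) * hsv - σ (v 0) * hsu
      · rw [cr1, e0, e2]
        linear_combination σ (u 1) * hsv - σ (v 1) * hsu
      · rw [cr2, e0, e1]
        linear_combination σ (u 2) * hsv - σ (v 2) * hsu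
    have h2 := prop_of hpar hl
    have h3 : σ (c i) = σ (c l) / c l * c i := congrFun h2 i
    have h4 : σ (c l) ≠ 0 := (map_ne_zero σ).2 hl
    rw [map_div₀, h3]
    field_simp
  choose κ hκ using h1
  refine ⟨κ, ?_, ?_⟩
  · intro h0
    have h7 := hκ l
    rw [h0, Pi.zero_apply, map_zero, div_self hl] at h7
    exact zero_ne_one h7
  · -- vectors of the plane are combinations of `u` and `v`
    have hcomb : ∀ x : Fin 3 → K, dt κ x = 0 → ∃ a b : Ω,
        (fun i => algebraMap K Ω (x i)) = fun i => a * u i + b * v i := by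
      intro x hx
      have h2 : c 0 * algebraMap K Ω (x 0) + c 1 * algebraMap K Ω (x 1) +
          c 2 * algebraMap K Ω (x 2) = 0 := by
        have h3 := congrArg (algebraMap K Ω) hx
        unfold dt at h3
        rw [map_zero, map_add, map_add, map_mul, map_mul, map_mul, hκ, hκ, hκ] at h3
        field_simp at h3
        rw [h3, mul_zero]
      have h5 : (Matrix.of ![u, v, fun i => algebraMap K Ω (x i)]).det = 0 := by
        rw [Matrix.det_fin_three]
        simp only [Matrix.of_apply, Matrix.cons_val_zero, Matrix.cons_val_one,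
          Matrix.cons_val]
        rw [← h2, c0, c1, c2]
        ring
      obtain ⟨s, hs0, hs⟩ := Matrix.exists_vecMul_eq_zero_iff.2 h5
      have h6 : ∀ i, s 0 * u i + s 1 * v i + s 2 * algebraMap K Ω (x i) = 0 := by
        intro i
        have h7 := congrFun hs i
        simpa [Matrix.vecMul, dotProduct, Fin.sum_univ_three] using h7
      have hs2 : s 2 ≠ 0 := by
        intro h0
        have h8 : ∀ i, s 0 * u i + s 1 * v i = 0 := by
          intro i
          have h9 := h6 i
          rw [h0, zero_mul, add_zero] at h9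
          exact h9
        have k0 := h8 0
        have k1 := h8 1
        have k2 := h8 2
        have h9 : ∀ a, s 0 * c a = 0 ∧ s 1 * c a = 0 := by
          intro a
          rcases f3 a with rfl | rfl | rfl
          · rw [c0]
            exact ⟨by linear_combination v 2 * k1 - v 1 * k2,
              by linear_combination -u 2 * k1 + u 1 * k2⟩
          · rw [c1]
            exact ⟨by linear_combination v 0 * k2 - v 2 * k0,
              by linear_combination -u 0 * k2 + u 2 * k0⟩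
          · rw [c2]
            exact ⟨by linear_combination v 1 * k0 - v 0 * k1,
              by linear_combination -u 1 * k0 + u 0 * k1⟩
        apply hs0
        funext a
        have m0 := (mul_eq_zero.1 (h9 l).1).resolve_right hl
        have m1 := (mul_eq_zero.1 (h9 l).2).resolve_right hl
        rw [Pi.zero_apply]
        rcases f3 a with rfl | rfl | rfl
        · exact m0
        · exact m1
        · exact h0
      refine ⟨-(s 0) / s 2, -(s 1) / s 2, ?_⟩
      funext i
      have h7 := h6 i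
      field_simp
      linear_combination h7
    intro x y z hx hy hz
    obtain ⟨a1, b1, h1⟩ := hcomb x hx
    obtain ⟨a2, b2, h2⟩ := hcomb y hy
    obtain ⟨a3, b3, h3⟩ := hcomb z hz
    apply (algebraMap K Ω).injective
    rw [map_zero]
    have h4 := map_tg (Algebra.ofId K Ω) τ x y z
    have h5 : tg τ (fun i => algebraMap K Ω (x i)) (fun i => algebraMap K Ω (y i))
        (fun i => algebraMap K Ω (z i)) = 0 := by
      rw [h1, h2, h3]
      simp only [tg_add1, tg_add2, tg_add3, tg_smul1, tg_smul2, tg_smul3]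
      have e1 : tg τ u v u = 0 := by rw [tg_swap23 hτ, hS hu]
      have e2 : tg τ v u u = 0 := by rw [tg_swap12 hτ, e1]
      have e5 : tg τ v u v = 0 := by rw [tg_swap23 hτ, hS hv]
      have e6 : tg τ u v v = 0 := by rw [tg_swap12 hτ, e5]
      rw [e1, e2, e5, e6, hS hu, hS hu, hS hv, hS hv]
      ring
    exact h4.trans h5

/-- the case of three singular points which are not on a line -/
theorem three_sing [CharZero K] {τ : Fin 3 → Fin 3 → Fin 3 → K} (hτ : SymT τ) (p : Fin 3 → K[X])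
    (hp : tg τ p p p = 0) (H1 : ∀ μ : Fin 3 → K, (∀ k, gr τ μ μ k = 0) → μ = 0)
    (H2 : ∀ c : Fin 3 → K, ∑ j, C (c j) * p j = 0 → c = 0) {u v w : Fin 3 → Ω}
    (hu : ∀ k, gr τ u u k = 0) (hv : ∀ k, gr τ v v k = 0) (hw : ∀ k, gr τ w w k = 0)
    (huv : cr u v ≠ 0) (hcw : dt (cr u v) w ≠ 0) : False := by
  obtain ⟨P, hP⟩ : ∃ P : Fin 3 → Polynomial Ω, P = fun j => (p j).map (algebraMap K Ω) := ⟨_, rfl⟩
  have hPP : tg τ P P P = 0 := by
    have h1 := map_tg (Polynomial.mapAlgHom (Algebra.ofId K Ω)) τ p p p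
    rw [hp, map_zero] at h1
    rw [hP]
    exact h1.symm
  obtain ⟨D, hD⟩ : ∃ D : Polynomial Ω, D = C (dt u (cr v w)) := ⟨_, rfl⟩
  obtain ⟨α, hα⟩ : ∃ α : Polynomial Ω, α = dt P (fun i => C (cr v w i)) := ⟨_, rfl⟩
  obtain ⟨β, hβ⟩ : ∃ β : Polynomial Ω, β = dt P (fun i => C (cr w u i)) := ⟨_, rfl⟩
  obtain ⟨γ, hγ⟩ : ∃ γ : Polynomial Ω, γ = dt P (fun i => C (cr u v i)) := ⟨_, rfl⟩
  have hcrC : ∀ (a b : Fin 3 → Ω), (fun i => C (cr a b i)) =
      cr (fun i => C (a i)) (fun i => C (b i)) := by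
    intro a b
    funext i
    rcases f3 i with rfl | rfl | rfl
    · simp only [cr0, C_sub, C_mul]
    · simp only [cr1, C_sub, C_mul]
    · simp only [cr2, C_sub, C_mul]
  have hDP : ∀ j, D * P j = α * C (u j) + β * C (v j) + γ * C (w j) := by
    intro j
    have h1 := cramer (fun i => C (u i)) (fun i => C (v i)) (fun i => C (w i)) P j
    rw [← hcrC, ← hcrC, ← hcrC] at h1
    rw [hα, hβ, hγ, ← h1, hD]
    congr 1
    unfold dt
    simp only [C_add, C_mul]
  have hCS : ∀ {a : Fin 3 → Ω}, (∀ k, gr τ a a k = 0) → ∀ z : Fin 3 → Ω,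
      tg τ (fun i => C (a i)) (fun i => C (a i)) (fun i => C (z i)) = 0 := by
    intro a ha z
    have h1 := map_tg (Polynomial.CAlgHom : Ω →ₐ[K] Polynomial Ω) τ a a z
    rw [hS ha, map_zero] at h1
    exact h1.symm
  have hDne : dt u (cr v w) ≠ 0 := by
    have h1 : dt u (cr v w) = dt (cr u v) w := by
      unfold dt
      simp only [cr0, cr1, cr2]
      ring
    rw [h1]
    exact hcw
  have h6 : 6 * α * β * γ * tg τ (fun i => C (u i)) (fun i => C (v i)) (fun i => C (w i)) =
      0 := by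
    have h1 : tg τ (fun j => D * P j) (fun j => D * P j) (fun j => D * P j) = 0 := by
      rw [tg_smul1, tg_smul2, tg_smul3, hPP, mul_zero, mul_zero, mul_zero]
    have h2 : (fun j => D * P j) = fun j => α * C (u j) + β * C (v j) + γ * C (w j) :=
      _root_.funext hDP
    rw [h2, tg_span3 hτ, hCS hu, hCS hv, hCS hw, hCS hu, hCS hu, hCS hv, hCS hv, hCS hw,
      hCS hw] at h1
    linear_combination h1
  have hne : ∀ a b : Fin 3 → Ω, dt P (fun i => C (cr a b i)) = 0 → cr a b = 0 := by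
    intro a b h0
    apply descend_rel p H2
    rw [Fin.sum_univ_three]
    unfold dt at h0
    rw [hP] at h0
    rw [← h0]
    ring
  have hvw : cr v w ≠ 0 := by
    intro h0
    apply hDne
    rw [h0]
    unfold dt
    simp
  have hwu : cr w u ≠ 0 := by
    intro h0
    apply hDne
    have k0 : w 1 * u 2 - w 2 * u 1 = 0 := congrFun h0 0
    have k1 : w 2 * u 0 - w 0 * u 2 = 0 := congrFun h0 1
    have k2 : w 0 * u 1 - w 1 * u 0 = 0 := congrFun h0 2
    unfold dt
    simp only [cr0, cr1, cr2]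
    linear_combination v 0 * k0 + v 1 * k1 + v 2 * k2
  have hα0 : α ≠ 0 := fun h0 => hvw (hne _ _ (hα ▸ h0))
  have hβ0 : β ≠ 0 := fun h0 => hwu (hne _ _ (hβ ▸ h0))
  have hγ0 : γ ≠ 0 := fun h0 => huv (hne _ _ (hγ ▸ h0))
  have hcK : CharZero Ω := charZero_of_injective_algebraMap (algebraMap K Ω).injective
  have h60 : (6 : Polynomial Ω) ≠ 0 := by
    intro h0
    have h4 : C (6 : Ω) = 0 := h0
    rw [C_eq_zero] at h4
    norm_num at h4
  have h7 : tg τ (fun i => C (u i)) (fun i => C (v i)) (fun i => C (w i)) = 0 :=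
    (mul_eq_zero.1 h6).resolve_left
      (mul_ne_zero (mul_ne_zero (mul_ne_zero h60 hα0) hβ0) hγ0)
  have h8 : tg τ u v w = 0 := by
    have h1 := map_tg (Polynomial.CAlgHom : Ω →ₐ[K] Polynomial Ω) τ u v w
    apply C_injective
    rw [C_0, ← h7]
    exact h1
  -- the form is zero
  have hzero : ∀ x y z : Fin 3 → Ω, tg τ x y z = 0 := by
    have hexp : ∀ x : Fin 3 → Ω, x = fun i =>
        dt x (cr v w) / dt u (cr v w) * u i + dt x (cr w u) / dt u (cr v w) * v i +
          dt x (cr u v) / dt u (cr v w) * w i := by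
      intro x
      funext i
      have h1 := cramer u v w x i
      field_simp
      linear_combination h1
    intro x y z
    rw [hexp x, hexp y, hexp z]
    simp only [tg_add1, tg_add2, tg_add3, tg_smul1, tg_smul2, tg_smul3]
    have e1 : tg τ u v u = 0 := by rw [tg_swap23 hτ, hS hu]
    have e2 : tg τ v u u = 0 := by rw [tg_swap12 hτ, e1]
    have e3 : tg τ u w u = 0 := by rw [tg_swap23 hτ, hS hu]
    have e4 : tg τ w u u = 0 := by rw [tg_swap12 hτ, e3]
    have e5 : tg τ v u v = 0 := by rw [tg_swap23 hτ, hS hv]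
    have e6 : tg τ u v v = 0 := by rw [tg_swap12 hτ, e5]
    have e7 : tg τ v w v = 0 := by rw [tg_swap23 hτ, hS hv]
    have e8 : tg τ w v v = 0 := by rw [tg_swap12 hτ, e7]
    have e9 : tg τ w u w = 0 := by rw [tg_swap23 hτ, hS hw]
    have e10 : tg τ u w w = 0 := by rw [tg_swap12 hτ, e9]
    have e11 : tg τ w v w = 0 := by rw [tg_swap23 hτ, hS hw]
    have e12 : tg τ v w w = 0 := by rw [tg_swap12 hτ, e11]
    have f1 : tg τ u w v = 0 := by rw [tg_swap23 hτ, h8]
    have f2 : tg τ v u w = 0 := by rw [tg_swap12 hτ, h8]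
    have f3 : tg τ v w u = 0 := by rw [tg_swap23 hτ, f2]
    have f4 : tg τ w u v = 0 := by rw [tg_swap12 hτ, f1]
    have f5 : tg τ w v u = 0 := by rw [tg_swap23 hτ, f4]
    rw [e1, e2, e3, e4, e5, e6, e7, e8, e9, e10, e11, e12, f1, f2, f3, f4, f5, h8, hS hu,
      hS hu, hS hu, hS hv, hS hv, hS hv, hS hw, hS hw, hS hw]
    ring
  have h9 : (fun _ => 1 : Fin 3 → K) = 0 := by
    apply H1
    apply gr_alg (Ω := Ω)
    intro k
    have h10 := hzero (fun _ => algebraMap K Ω 1) (fun _ => algebraMap K Ω 1)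
      (fun a => if a = k then 1 else 0)
    rw [tg_gr] at h10
    simpa using h10
  have h11 := congrFun h9 0
  exact one_ne_zero h11

end aux

/-- the form vanishes on a plane over `K` -/
theorem plane [CharZero K] {τ : Fin 3 → Fin 3 → Fin 3 → K} (hτ : SymT τ) (p : Fin 3 → K[X])
    (hcop : ∀ q : K[X], Irreducible q → ∃ j, ¬ q ∣ p j) (hp : tg τ p p p = 0)
    (H1 : ∀ μ : Fin 3 → K, (∀ k, gr τ μ μ k = 0) → μ = 0)
    (H2 : ∀ c : Fin 3 → K, ∑ j, C (c j) * p j = 0 → c = 0) :
    ∃ c : Fin 3 → K, c ≠ 0 ∧ ∀ x y z : Fin 3 → K, dt c x = 0 → dt c y = 0 → dt c z = 0 →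
      tg τ x y z = 0 := by
  obtain ⟨u, hu0, hu⟩ := exists_sing hτ p hcop hp H1 H2
  obtain ⟨j, hj⟩ : ∃ j, u j ≠ 0 := by
    by_contra hall
    push Not at hall
    exact hu0 (_root_.funext hall)
  by_cases hcase : ∀ v : Fin 3 → AlgebraicClosure K, (∀ k, gr τ v v k = 0) → cr u v = 0
  · exact (one_sing fixed H1 hu hj hcase).elim
  push Not at hcase
  obtain ⟨v, hv, huv⟩ := hcase
  by_cases hcase2 : ∀ w : Fin 3 → AlgebraicClosure K, (∀ k, gr τ w w k = 0) → dt (cr u v) w = 0
  · exact two_sing fixed hτ hu hv huv hcase2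
  push Not at hcase2
  obtain ⟨w, hw, hcw⟩ := hcase2
  exact (three_sing hτ p hp H1 H2 hu hv hw huv hcw).elim

end

end Pool.Agent.Run7.h490.PF
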