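import Mathlib
import Pool.Agent.R845.E3.Refl
import Pool.Agent.R845.E3.Sec
import Pool.Agent.Run7.h490.PF2

/-! # Points of odd degree on smooth cubic hypersurfaces and subfields -/

set_option autoImplicit false

namespace Pool.Agent.Run7.h490.PF

open MvPolynomial Pool.Agent.TH314.PD Module Pool.Agent.Y201.C3 IntermediateField
open Pool.Agent.R845.T2 Pool.Agent.R845.E3

noncomputable section

/-- a line through a generic point of odd degree is not tangent in another rational point -/
theorem no_tangent {r : ℕ} {F : MvPolynomial (Fin (r + 1)) ℂ} (hF : F.IsHomogeneous 3)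
    (hsm : Sm F) {T : Fin (r + 1) → Fin (r + 1) → Fin (r + 1) → ℂ} (hT : SymG T)
    (hFT : F = Bg T X X X) {M : Type} [Field M] [Algebra ℂ M] (x p : Fin (r + 1) → M)
    (hG : Gp F x) (hodd : Odd (finrank (ratioField x) M)) (hli : LinearIndependent M ![x, p])
    (hp : aeval p F = 0) : Bg T x p p ≠ 0 := by
  have tan : S_TAN := tan_of div (nt Pool.Agent.Y201.LI.hT1) fi fd
  intro h0
  have hline := line_shape hT hFT x p hG.1 hp
  rw [h0, mul_zero, Polynomial.C_0, zero_mul, add_zero] at hline
  have h1 := tan r 3 F hF (by norm_num) hsm M x p _ hli hG.1 hG.2 hline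
  exact (Nat.not_even_iff_odd.2 hodd) (even_iff_two_dvd.2 h1)

/-- a generic point of odd degree is not proportional to a vector over a subfield over which `M`
is not algebraic -/
theorem not_sub {N : ℕ} {M : Type} [Field M] [Algebra ℂ M] (x : Fin N → M)
    (hodd : Odd (finrank (ratioField x) M)) (L : IntermediateField ℂ M) (t : M)
    (ht : Transcendental L t) (s : M) (y : Fin N → M) (hy : ∀ i, y i ∈ L)
    (hx : ∀ i, x i = s * y i) : False := by
  have hle : ratioField x ≤ L := by
    unfold ratioField
    rw [IntermediateField.adjoin_le_iff]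
    rintro z ⟨i, j, rfl⟩
    rw [hx, hx]
    by_cases hs : s = 0
    · rw [hs, zero_mul, zero_div]
      exact zero_mem _
    · rw [mul_div_mul_left _ _ hs]
      exact div_mem (hy i) (hy j)
  have hfd : FiniteDimensional (ratioField x) M := FiniteDimensional.of_finrank_pos hodd.pos
  have halg : IsAlgebraic (ratioField x) t := Algebra.IsAlgebraic.isAlgebraic t
  obtain ⟨q, hq0, hq⟩ := halg
  apply ht
  refine ⟨q.map (IntermediateField.inclusion hle).toRingHom, ?_, ?_⟩
  · rw [Ne, Polynomial.map_eq_zero]
    exact hq0
  · rw [Polynomial.aeval_def, Polynomial.eval₂_map]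
    exact hq

variable {r : ℕ} {F : MvPolynomial (Fin (r + 1)) ℂ} {M : Type} [Field M] [Algebra ℂ M]

/-- a generic point of odd degree is not on a line over a subfield over which `M` is not
algebraic -/
theorem not_line (hF : F.IsHomogeneous 3) (hsm : Sm F) (x : Fin (r + 1) → M) (hG : Gp F x)
    (hodd : Odd (finrank (ratioField x) M)) (L : IntermediateField ℂ M) (t : M)
    (ht : Transcendental L t) (a b : M) (u w : Fin (r + 1) → M) (hu : ∀ i, u i ∈ L)
    (hw : ∀ i, w i ∈ L) (hx : ∀ i, x i = a * u i + b * w i) : False := by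
  by_cases hb : b = 0
  · exact not_sub x hodd L t ht a u hu fun i => by rw [hx, hb, zero_mul, add_zero]
  have hx1 : ∀ i, x i = b * ((a / b) * u i + w i) := by
    intro i
    rw [hx]
    field_simp
  by_cases hab : IsAlgebraic L (a / b)
  · set A : IntermediateField ℂ M := (algebraicClosure L M).restrictScalars ℂ with hA
    have hLA : ∀ z ∈ L, z ∈ A := by
      intro z hz
      change z ∈ algebraicClosure L M
      exact (algebraicClosure L M).algebraMap_mem ⟨z, hz⟩
    have hrA : a / b ∈ A := by
      change a / b ∈ algebraicClosure L M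
      exact mem_algebraicClosure_iff.2 hab
    refine not_sub x hodd A t ?_ b (fun i => (a / b) * u i + w i)
      (fun i => add_mem (mul_mem hrA (hLA _ (hu i))) (hLA _ (hw i))) hx1
    intro h
    apply ht
    have h1 : IsAlgebraic (algebraicClosure L M) t := h
    exact h1.restrictScalars L
  · obtain ⟨h2, h3⟩ := gp_smul hF hb hx1
    have hirr : Irreducible F :=
      Pool.Agent.Y201.LI.irreducible_of_generic hF (ne_zero_of_smooth hsm) _ hG.1 hG.2
    have h5 := h2.1 hG
    have h4 := Pool.Agent.Y201.LI.hT1 (r + 1) 3 F hF (by norm_num) hirr hsm M L (a / b) hab u w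
      hu hw h5.1 h5.2
    rw [h3] at hodd
    exact (Nat.not_even_iff_odd.2 hodd) (even_iff_two_dvd.2 h4)

/-- no rational point over the subfield is conjugate to the generic point -/
theorem no_pt (hF : F.IsHomogeneous 3) (hsm : Sm F)
    {T : Fin (r + 1) → Fin (r + 1) → Fin (r + 1) → ℂ} (hT : SymG T)
    (hFT : F = Bg T X X X) (x : Fin (r + 1) → M) (hG : Gp F x)
    (hodd : Odd (finrank (ratioField x) M)) (L : IntermediateField ℂ M) (t : M)
    (ht : Transcendental L t) (y : Fin (r + 1) → M) (hy : ∀ i, y i ∈ L) (hy0 : y ≠ 0)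
    (hyF : aeval y F = 0) : Bg T x y y ≠ 0 := by
  refine no_tangent hF hsm hT hFT x y hG hodd ?_ hyF
  rw [LinearIndependent.pair_iff]
  intro a b hab
  by_cases ha : a = 0
  · refine ⟨ha, ?_⟩
    rw [ha, zero_smul, zero_add] at hab
    exact (smul_eq_zero.1 hab).resolve_right hy0
  · exfalso
    refine not_sub x hodd L t ht (-b / a) y hy fun i => ?_
    have h1 := congrFun hab i
    simp only [Pi.add_apply, Pi.smul_apply, smul_eq_mul, Pi.zero_apply] at h1
    field_simp
    linear_combination h1

end

end Pool.Agent.Run7.h490.PF
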