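import Mathlib
import Pool.Agent.Run7.h490.OR3
import Pool.Agent.Run7.h490.PF3

/-! # The converse: a rational section gives points of odd degree of the special kinds -/

set_option autoImplicit false

namespace Pool.Agent.Run7.h490.OR

open MvPolynomial Pool.Agent.TH314.PD Module Pool.Agent.Y201.C3 IntermediateField
open Pool.Agent.R845.T2 Pool.Agent.R845.E3

noncomputable section

variable {k m : ℕ}

/-- vectors of `W` are combinations of the vectors `A l` -/
theorem span_back {N P : ℕ} (A : Fin N → Fin P → ℂ) (σ : Fin (k + 1 + (m + 1)) ≃ Fin N)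
    (U : Fin (k + 1) → Fin (m + 1) → ℂ)
    (hU : ∀ j l, A (σ (Fin.natAdd (k + 1) j)) l =
        ∑ i, U i j * A (σ (Fin.castAdd (m + 1) i)) l)
    (hsurj : ∀ u : Fin (k + 1) → ℂ, ∃ a : Fin P → ℂ,
        ∀ i, ∑ l, a l * A (σ (Fin.castAdd (m + 1) i)) l = u i)
    {E : Type} [Field E] [Algebra ℂ E] (w' : Fin (k + 1) → E) :
    ∃ w : Fin P → E, ∀ i, ∑ l, w l * algebraMap ℂ E (A (σ i) l) =
      tp (fun i j => -U i j) (Fin.append w' (0 : Fin (m + 1) → E)) i := by
  classical
  choose a ha using fun i : Fin (k + 1) => hsurj (Pi.single i 1)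
  refine ⟨fun l => ∑ i, w' i * algebraMap ℂ E (a i l), ?_⟩
  have hwc : ∀ i, ∑ l, (∑ i, w' i * algebraMap ℂ E (a i l)) *
      algebraMap ℂ E (A (σ (Fin.castAdd (m + 1) i)) l) = w' i := by
    intro i
    simp only [Finset.sum_mul]
    rw [Finset.sum_comm]
    have h1 : ∀ i', ∑ l, w' i' * algebraMap ℂ E (a i' l) *
        algebraMap ℂ E (A (σ (Fin.castAdd (m + 1) i)) l) =
        w' i' * algebraMap ℂ E ((Pi.single i' 1 : Fin (k + 1) → ℂ) i) := by
      intro i'
      rw [← ha i' i, map_sum, Finset.mul_sum]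
      exact Finset.sum_congr rfl fun l _ => by rw [map_mul]; ring
    simp only [h1]
    rw [Finset.sum_eq_single i]
    · rw [Pi.single_eq_same, map_one, mul_one]
    · intro b _ hb
      rw [Pi.single_eq_of_ne (Ne.symm hb), map_zero, mul_zero]
    · intro h
      exact absurd (Finset.mem_univ i) h
  intro i
  refine Fin.addCases (fun j => ?_) (fun j => ?_) i
  · unfold tp
    rw [Fin.append_left, Fin.append_left]
    exact hwc j
  · unfold tp
    rw [Fin.append_right, Fin.append_right, Pi.zero_apply, zero_sub, ← Finset.sum_neg_distrib]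
    have h2 : ∀ i, -(algebraMap ℂ E (-U i j) *
        Fin.append w' (0 : Fin (m + 1) → E) (Fin.castAdd (m + 1) i)) =
        algebraMap ℂ E (U i j) * w' i := by
      intro i
      rw [Fin.append_left, map_neg]
      ring
    simp only [h2]
    have h3 : ∀ i, w' i = ∑ l, (∑ i, w' i * algebraMap ℂ E (a i l)) *
      algebraMap ℂ E (A (σ (Fin.castAdd (m + 1) i)) l) := fun i => (hwc i).symm
    conv_rhs =>
      enter [2, i]
      rw [h3]
    simp only [hU, map_sum, map_mul, Finset.mul_sum]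
    rw [Finset.sum_comm]
    refine Finset.sum_congr rfl fun i _ => Finset.sum_congr rfl fun l _ => ?_
    ring

/-- the birational parametrization given by a rational section -/
theorem rat_full (hkm : 1 ≤ k + m) (F : MvPolynomial (Fin (k + 1 + (m + 1))) ℂ)
    (hF : F.IsHomogeneous 3) (hsm : Sm F) (hW : VanW F) (hiso : Iso F) :
    ∃ (c : Fin (k + 1) → MvPolynomial (Fin m) ℂ) (l : MvPolynomial (Fin m) ℂ)
      (a b : MvPolynomial (Fin (k + m)) ℂ), l ≠ 0 ∧ b ≠ 0 ∧
      aeval (fun i => Rat.rh k m (Rat.xa c l i)) F = 0 ∧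
      Gp F (fun i => algebraMap (MvPolynomial (Fin (k + m)) ℂ) (Rn (k + m))
        (b * Rat.rh k m (Rat.xa c l i) - a * Rat.pw k m i)) ∧
      (ratioField fun i => algebraMap (MvPolynomial (Fin (k + m)) ℂ) (Rn (k + m))
        (b * Rat.rh k m (Rat.xa c l i) - a * Rat.pw k m i)) = ⊤ := by
  obtain ⟨T, hT, rfl⟩ := exists_tri F hF
  obtain ⟨c, l, h | h⟩ := hiso
  swap
  · exact (Trans.alt2 evn k m _ hF hsm hW c h.1 h.2).elim
  obtain ⟨hl, hx⟩ := h
  have hx' : aeval (Rat.xa c l)
      (Bg T X X X : MvPolynomial (Fin (k + 1 + (m + 1))) ℂ) = 0 := hx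
  have ha := Rat.a_ne hT hF hsm c l hl hx'
  have hb := Rat.b_ne hT hsm hW c l hl
  set x0 : Fin (k + 1 + (m + 1)) → MvPolynomial (Fin (k + m)) ℂ :=
    fun i => Rat.rh k m (Rat.xa c l i) with hx0
  set a := Bg T x0 x0 (Rat.pw k m) with had
  set b := Bg T x0 (Rat.pw k m) (Rat.pw k m) with hbd
  have htop := Rat.top_of c l hl a b ha hb
  have hF0 : Bg T x0 x0 x0 = 0 := by
    have h1 := congrArg (Rat.rh k m) hx'
    rw [aeval_frmG, map_Bg, map_zero] at h1
    exact h1
  have hFp : Bg T (Rat.pw k m) (Rat.pw k m) (Rat.pw k m) = 0 := Rat.bg_W hT hW _ _ _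
  have hG : aeval (fun i => b * Rat.rh k m (Rat.xa c l i) - a * Rat.pw k m i)
      (Bg T X X X : MvPolynomial (Fin (k + 1 + (m + 1))) ℂ) = 0 := by
    rw [aeval_frmG]
    have h1 : (fun i => b * Rat.rh k m (Rat.xa c l i) - a * Rat.pw k m i) =
        fun i => b * x0 i + (-a) * Rat.pw k m i + 0 * Rat.pw k m i := by
      funext i
      rw [hx0]
      ring
    rw [h1, Bg_span3 hT, hF0, hFp, ← had, ← hbd]
    ring
  refine ⟨c, l, a, b, hl, hb, by rw [aeval_frmG]; exact hF0,
    Rat.gp_of_top (by omega) hkm _ hF hsm _ ?_ htop, htop⟩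
  have h1 := congrArg (IsScalarTower.toAlgHom ℂ (MvPolynomial (Fin (k + m)) ℂ) (Rn (k + m))) hG
  rw [map_zero, comp_aeval_apply] at h1
  exact h1

end

end Pool.Agent.Run7.h490.OR
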