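import Mathlib
import Pool.Agent.Run7.h490.OR4

/-! # The converse: a rational section gives points of odd degree of the special kinds (2) -/

set_option autoImplicit false

namespace Pool.Agent.Run7.h490.OR

open MvPolynomial Pool.Agent.TH314.PD Module Pool.Agent.Y201.C3 IntermediateField
open Pool.Agent.R845.T2 Pool.Agent.R845.E3

noncomputable section

/-- a smooth cubic hypersurface contains no hyperplane of its space -/
theorem m_pos {k m : ℕ} (hk : 1 ≤ k) {F : MvPolynomial (Fin (k + 1 + (m + 1))) ℂ}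
    (hF : F.IsHomogeneous 3) (hsm : Sm F) (hW : VanW F) : 1 ≤ m := by
  classical
  by_contra hm
  have hm0 : m = 0 := by omega
  subst hm0
  obtain ⟨T, hT, hFT⟩ := exists_tri F hF
  have hW' : VanW (Bg T X X X : MvPolynomial (Fin (k + 1 + (0 + 1))) ℂ) := by
    rw [← hFT]
    exact hW
  set e : Fin (k + 1 + (0 + 1)) → ℂ := fun i => if i = Fin.natAdd (k + 1) 0 then 1 else 0 with he
  set f0 : Fin (k + 1 + (0 + 1)) → ℂ :=
    Fin.append (Pi.single (0 : Fin (k + 1)) 1 : Fin (k + 1) → ℂ) 0 with hf0
  set f1 : Fin (k + 1 + (0 + 1)) → ℂ :=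
    Fin.append (Pi.single (⟨1, by omega⟩ : Fin (k + 1)) 1 : Fin (k + 1) → ℂ) 0 with hf1
  -- a zero of the quadratic form
  obtain ⟨v, hv0, hv⟩ : ∃ v : Fin (k + 1) → ℂ, v ≠ 0 ∧ Bg T e (Fin.append v 0)
      (Fin.append v (0 : Fin (0 + 1) → ℂ)) = 0 := by
    by_cases hA : Bg T e f0 f0 = 0
    · exact ⟨Pi.single 0 1, by simp, hA⟩
    · obtain ⟨z, hz⟩ := IsAlgClosed.exists_pow_nat_eq
        (Bg T e f0 f1 ^ 2 - Bg T e f0 f0 * Bg T e f1 f1) (n := 2) (by norm_num)
      set τ : ℂ := (-Bg T e f0 f1 + z) / Bg T e f0 f0 with hτ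
      refine ⟨fun i => τ * (Pi.single (0 : Fin (k + 1)) 1 : Fin (k + 1) → ℂ) i +
        (Pi.single (⟨1, by omega⟩ : Fin (k + 1)) 1 : Fin (k + 1) → ℂ) i, ?_, ?_⟩
      · intro h0
        have h1 := congrFun h0 ⟨1, by omega⟩
        have h2 : (⟨1, by omega⟩ : Fin (k + 1)) ≠ 0 := by
          intro h3
          have := congrArg Fin.val h3
          simp at this
        simp only [Pi.single_eq_of_ne h2, Pi.single_eq_same, Pi.zero_apply, mul_zero,
          zero_add] at h1
        exact one_ne_zero h1
      · have h1 : (Fin.append (fun i => τ * (Pi.single (0 : Fin (k + 1)) 1 : Fin (k + 1) → ℂ) i +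
            (Pi.single (⟨1, by omega⟩ : Fin (k + 1)) 1 : Fin (k + 1) → ℂ) i)
            (0 : Fin (0 + 1) → ℂ)) = fun i => τ * f0 i + f1 i := by
          funext i
          refine Fin.addCases (fun j => ?_) (fun j => ?_) i
          · rw [hf0, hf1, Fin.append_left, Fin.append_left, Fin.append_left]
          · rw [hf0, hf1, Fin.append_right, Fin.append_right, Fin.append_right, Pi.zero_apply]
            ring
        rw [h1, Bg_add2, Bg_add3, Bg_add3, Bg_smul2, Bg_smul3, Bg_smul3, Bg_smul2,
          Bg_swap23 hT e f1 f0]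
        have h3 : Bg T e f0 f0 * τ = -Bg T e f0 f1 + z := by
          rw [hτ]
          field_simp
        apply mul_left_cancel₀ hA
        rw [mul_zero]
        linear_combination (Bg T e f0 f0 * τ + Bg T e f0 f1 + z) * h3 + hz
  apply hv0
  have h1 : (Fin.append v (0 : Fin (0 + 1) → ℂ)) = 0 := by
    apply hsm
    intro i
    have h2 := pderiv_frmG hT i (Fin.append v (0 : Fin (0 + 1) → ℂ))
    rw [← hFT, aeval_eq_eval] at h2
    refine h2.trans ?_
    refine Fin.addCases (fun j => ?_) (fun j => ?_) i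
    · have h3 : (fun i => if i = Fin.castAdd (0 + 1) j then (1 : ℂ) else 0) =
          Fin.append (fun a => if a = j then (1 : ℂ) else 0 : Fin (k + 1) → ℂ)
            (0 : Fin (0 + 1) → ℂ) := by
        funext i
        refine Fin.addCases (fun a => ?_) (fun a => ?_) i
        · rw [Fin.append_left]
          by_cases h : a = j
          · rw [if_pos h, if_pos (by rw [h])]
          · rw [if_neg h, if_neg]
            intro h4
            exact h (Fin.castAdd_injective _ _ h4)
        · rw [Fin.append_right, Pi.zero_apply, if_neg]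
          intro h4
          have h5 := congrArg Fin.val h4
          simp only [Fin.val_natAdd, Fin.val_castAdd] at h5
          omega
      rw [h3, Rat.bg_W hT hW', mul_zero]
    · have h3 : j = 0 := by
        apply Fin.ext
        have := j.isLt
        simp only [Fin.val_zero]
        omega
      rw [h3]
      change 3 * Bg T e _ _ = 0
      rw [hv, mul_zero]
  funext i
  have h2 := congrFun h1 (Fin.castAdd (0 + 1) i)
  rwa [Fin.append_left] at h2

/-- the subspace has dimension at least one -/
theorem k_pos {N P k m : ℕ} (A : Fin N → Fin P → ℂ) (σ : Fin (k + 1 + (m + 1)) ≃ Fin N)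
    (U : Fin (k + 1) → Fin (m + 1) → ℂ)
    (hU : ∀ j l, A (σ (Fin.natAdd (k + 1) j)) l =
        ∑ i, U i j * A (σ (Fin.castAdd (m + 1) i)) l)
    (hrk : ∃ l1 l2, LinearIndependent ℂ ![fun i => A i l1, fun i => A i l2]) : 1 ≤ k := by
  classical
  by_contra hk
  have hk0 : k = 0 := by omega
  subst hk0
  obtain ⟨l1, l2, hli⟩ := hrk
  rw [LinearIndependent.pair_iff] at hli
  set a : Fin P → ℂ := fun l => A (σ (Fin.castAdd (m + 1) 0)) l with ha
  set v : Fin (0 + 1 + (m + 1)) → ℂ := Fin.append (fun _ => 1) (U 0) with hv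
  have hcol : ∀ i l, A (σ i) l = a l * v i := by
    intro i l
    refine Fin.addCases (fun j => ?_) (fun j => ?_) i
    · have h1 : j = 0 := by
        apply Fin.ext
        have := j.isLt
        simp only [Fin.val_zero]
        omega
      rw [h1, hv, Fin.append_left, mul_one]
    · rw [hU, Fin.sum_univ_one, hv, Fin.append_right, ha]
      ring
  have h1 := hli (a l2) (-a l1) (by
    funext i
    obtain ⟨i', rfl⟩ := σ.surjective i
    simp only [Pi.add_apply, Pi.smul_apply, smul_eq_mul, Pi.zero_apply, hcol]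
    ring)
  have h2 : a l1 = 0 := neg_eq_zero.1 h1.2
  have h3 := hli 1 0 (by
    funext i
    obtain ⟨i', rfl⟩ := σ.surjective i
    simp only [Pi.add_apply, Pi.smul_apply, smul_eq_mul, Pi.zero_apply, hcol, h2]
    ring)
  exact one_ne_zero h3.1

/-- the variables generate the field -/
theorem var_top {n : ℕ} (j : Fin n) (L : IntermediateField ℂ (Rn n))
    (hL : ∀ l, l ≠ j → algebraMap (MvPolynomial (Fin n) ℂ) (Rn n) (X l) ∈ L) :
    adjoin L {algebraMap (MvPolynomial (Fin n) ℂ) (Rn n) (X j)} = ⊤ := by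
  let al : MvPolynomial (Fin n) ℂ →ₐ[ℂ] Rn n := IsScalarTower.toAlgHom ℂ _ _
  set K := adjoin L {algebraMap (MvPolynomial (Fin n) ℂ) (Rn n) (X j)} with hK
  have hLK : ∀ z ∈ L, z ∈ K := fun z hz => K.algebraMap_mem ⟨z, hz⟩
  have hX : ∀ i, al (X i) ∈ K := by
    intro i
    by_cases h : i = j
    · rw [h]
      exact mem_adjoin_simple_self _ _
    · exact hLK _ (hL i h)
  have hP : ∀ q : MvPolynomial (Fin n) ℂ, al q ∈ K := by
    intro q
    induction q using MvPolynomial.induction_on with
    | C a =>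
      have h1 : al (C a) = algebraMap ℂ (Rn n) a := by
        rw [← algebraMap_eq, AlgHom.commutes]
      rw [h1]
      exact hLK _ (L.algebraMap_mem a)
    | add p q hp hq =>
      rw [map_add]
      exact add_mem hp hq
    | mul_X p j hp =>
      rw [map_mul]
      exact mul_mem hp (hX j)
  rw [eq_top_iff]
  rintro y -
  obtain ⟨a, b, -, hy⟩ := IsFractionRing.div_surjective (A := MvPolynomial (Fin n) ℂ) y
  rw [← hy]
  exact div_mem (hP a) (hP b)

end

end Pool.Agent.Run7.h490.OR
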