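import Mathlib
import Pool.Agent.Run7.h490.OR5

/-! # The converse: a rational section gives points of odd degree of the special kinds (3) -/

set_option autoImplicit false

namespace Pool.Agent.Run7.h490.OR

open MvPolynomial Pool.Agent.TH314.PD Module Pool.Agent.Y201.C3 IntermediateField
open Pool.Agent.R845.T2 Pool.Agent.R845.E3

noncomputable section

/-- linearity -/
theorem tp_lin2 {k m : ℕ} {M : Type} [Field M] [Algebra ℂ M] (U : Fin (k + 1) → Fin (m + 1) → ℂ)
    (a : M) (x z : Fin (k + 1 + (m + 1)) → M) (i : Fin (k + 1 + (m + 1))) :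
    tp U (fun i => a * x i + z i) i = a * tp U x i + tp U z i := by
  have h1 := tp_lin U a 0 x x z
  have h2 : (fun i => a * x i + 0 * x i + z i) = fun i => a * x i + z i := by
    funext i
    ring
  rw [h2] at h1
  rw [h1]
  ring

theorem tp_alg {k m n : ℕ} (U : Fin (k + 1) → Fin (m + 1) → ℂ) {M : Type} [Field M]
    [Algebra ℂ M] (al : MvPolynomial (Fin n) ℂ →ₐ[ℂ] M)
    (G : Fin (k + 1 + (m + 1)) → MvPolynomial (Fin n) ℂ) (i : Fin (k + 1 + (m + 1))) :
    al (tp U G i) = tp U (fun i => al (G i)) i := by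
  refine Fin.addCases (fun j => ?_) (fun j => ?_) i
  · unfold tp
    rw [Fin.append_left, Fin.append_left]
  · unfold tp
    rw [Fin.append_right, Fin.append_right, map_sub, map_sum]
    congr 1
    refine Finset.sum_congr rfl fun i _ => ?_
    rw [map_mul, AlgHom.commutes]

/-- the birational parametrization and the section, in the given coordinates -/
theorem rat_data {n P : ℕ} (hn : 1 ≤ n) {F : MvPolynomial (Fin (n + 2)) ℂ}
    (hF : F.IsHomogeneous 3) (hsm : Sm F) (A : Fin (n + 2) → Fin P → ℂ)
    (hrk : ∃ l1 l2, LinearIndependent ℂ ![fun i => A i l1, fun i => A i l2])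
    (h : AdIso F A) :
    ∃ (G Y : Fin (n + 2) → MvPolynomial (Fin n) ℂ) (g0 g1 : MvPolynomial (Fin n) ℂ)
      (j0 j1 : Fin n) (β γ : Fin (n + 2) → MvPolynomial (Fin n) ℂ)
      (w0 w1 : Fin P → Rn n),
      Gp F (fun i => algebraMap (MvPolynomial (Fin n) ℂ) (Rn n) (G i)) ∧
      (ratioField fun i => algebraMap (MvPolynomial (Fin n) ℂ) (Rn n) (G i)) = ⊤ ∧
      aeval Y F = 0 ∧ g0 ≠ 0 ∧ (∀ i, j0 ∉ (Y i).vars) ∧
      (∀ i, algebraMap (MvPolynomial (Fin n) ℂ) (Rn n) (G i) =
        algebraMap (MvPolynomial (Fin n) ℂ) (Rn n) g0 *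
          algebraMap (MvPolynomial (Fin n) ℂ) (Rn n) (Y i) +
          ∑ l, w0 l * algebraMap ℂ (Rn n) (A i l)) ∧
      (∀ i, j1 ∉ (β i).vars) ∧ (∀ i, j1 ∉ (γ i).vars) ∧
      (∀ i, algebraMap (MvPolynomial (Fin n) ℂ) (Rn n) (G i) =
        algebraMap (MvPolynomial (Fin n) ℂ) (Rn n) g1 *
          (algebraMap (MvPolynomial (Fin n) ℂ) (Rn n) (X j1) *
            algebraMap (MvPolynomial (Fin n) ℂ) (Rn n) (β i) +
            algebraMap (MvPolynomial (Fin n) ℂ) (Rn n) (γ i)) +
          ∑ l, w1 l * algebraMap ℂ (Rn n) (A i l)) := by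
  classical
  obtain ⟨k, m, σ, U, hW, hU, hsurj, hiso⟩ := h
  have hkm : n = k + m := by
    have h1 := Fintype.card_congr σ
    rw [Fintype.card_fin, Fintype.card_fin] at h1
    omega
  subst hkm
  have hk : 1 ≤ k := k_pos A σ U hU hrk
  have hF1h : (rename σ.symm F).IsHomogeneous 3 := hF.rename_isHomogeneous
  set F2 := shear U (rename σ.symm F) with hF2
  have hF2h : F2.IsHomogeneous 3 := shear_hom hF1h U
  have hF2s : Sm F2 := sm_shear (sm_rename σ.symm hsm) U
  have hm : 1 ≤ m := m_pos hk hF2h hF2s hW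
  obtain ⟨c, l, a, b, hl, hb, hY2, hG2, htop⟩ := rat_full hn F2 hF2h hF2s hW hiso
  let al : MvPolynomial (Fin (k + m)) ℂ →ₐ[ℂ] Rn (k + m) := IsScalarTower.toAlgHom ℂ _ _
  have hal : Function.Injective al := IsFractionRing.injective (MvPolynomial (Fin (k + m)) ℂ) _
  set Y2 : Fin (k + 1 + (m + 1)) → MvPolynomial (Fin (k + m)) ℂ :=
    fun i => Rat.rh k m (Rat.xa c l i) with hY2d
  set G2 : Fin (k + 1 + (m + 1)) → MvPolynomial (Fin (k + m)) ℂ :=
    fun i => b * Y2 i - a * Rat.pw k m i with hG2d
  set G : Fin (k + m + 2) → MvPolynomial (Fin (k + m)) ℂ := fun i =>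
    tp (fun i j => -U i j) G2 (σ.symm i) with hG
  set Y : Fin (k + m + 2) → MvPolynomial (Fin (k + m)) ℂ := fun i =>
    tp (fun i j => -U i j) Y2 (σ.symm i) with hY
  have hGs : ∀ i, al (G (σ i)) = tp (fun i j => -U i j) (fun i => al (G2 i)) i := by
    intro i
    rw [hG]
    simp only [Equiv.symm_apply_apply]
    exact tp_alg _ al G2 i
  have hYs : ∀ i, al (Y (σ i)) = tp (fun i j => -U i j) (fun i => al (Y2 i)) i := by
    intro i
    rw [hY]
    simp only [Equiv.symm_apply_apply]
    exact tp_alg _ al Y2 i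
  have h1 : (tp U fun i => al (G (σ i))) = fun i => al (G2 i) := by
    rw [funext hGs, tp_tp_neg]
  have h3 : Gp F fun i => al (G i) := by
    refine bwd σ U ?_
    rw [h1]
    exact hG2
  have h4 : (ratioField fun i => al (G i)) = ⊤ := by
    rw [← (fwd hF σ U h3).2, h1]
    exact htop
  -- the section is on the hypersurface
  have hYF : aeval Y F = 0 := by
    apply hal
    rw [map_zero, comp_aeval_apply]
    have h5 : (tp U fun i => al (Y (σ i))) = fun i => al (Y2 i) := by
      rw [funext hYs, tp_tp_neg]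
    have h6 : aeval (fun i => al (Y (σ i))) (rename σ.symm F) = 0 := by
      rw [← aeval_tp U, h5]
      have h7 := congrArg al hY2
      rw [map_zero, comp_aeval_apply] at h7
      exact h7
    rw [aeval_rename] at h6
    have h8 : (fun i => al (Y (σ i))) ∘ σ.symm = fun i => al (Y i) := by
      funext i
      simp
    rwa [h8] at h6
  -- points of `W`
  set w0' : Fin (k + 1) → Rn (k + m) := fun i =>
    -al a * al ((Fin.cons 1 fun i => X (Fin.castAdd m i) : Fin (k + 1) → _) i) with hw0'
  obtain ⟨w0, hw0⟩ := span_back A σ U hU hsurj w0'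
  set w1' : Fin (k + 1) → Rn (k + m) := fun i => al (G2 (Fin.castAdd (m + 1) i)) with hw1'
  obtain ⟨w1, hw1⟩ := span_back A σ U hU hsurj w1'
  have hG0 : ∀ i, al (G2 i) = al b * al (Y2 i) + Fin.append w0' (0 : Fin (m + 1) → _) i := by
    intro i
    rw [hG2d]
    simp only
    rw [map_sub, map_mul, map_mul, sub_eq_add_neg]
    congr 1
    unfold Rat.pw
    refine Fin.addCases (fun j => ?_) (fun j => ?_) i
    · rw [Fin.append_left, Fin.append_left, hw0']
      ring
    · rw [Fin.append_right, Fin.append_right, Pi.zero_apply, Pi.zero_apply, map_zero, mul_zero,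
        neg_zero]
  -- the line
  let jm : Fin m := ⟨0, hm⟩
  set β2 : Fin (k + 1 + (m + 1)) → MvPolynomial (Fin (k + m)) ℂ :=
    Fin.append 0 (fun j => if j = jm.succ then 1 else 0) with hβ2
  set γ2 : Fin (k + 1 + (m + 1)) → MvPolynomial (Fin (k + m)) ℂ :=
    Fin.append 0 (fun j => if j = jm.succ then 0 else Rat.rh k m (yv ℂ m j)) with hγ2
  set g1 : MvPolynomial (Fin (k + m)) ℂ := b * Rat.rh k m l with hg1
  set β : Fin (k + m + 2) → MvPolynomial (Fin (k + m)) ℂ := fun i =>
    tp (fun i j => -U i j) β2 (σ.symm i) with hβ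
  set γ : Fin (k + m + 2) → MvPolynomial (Fin (k + m)) ℂ := fun i =>
    tp (fun i j => -U i j) γ2 (σ.symm i) with hγ
  have hG1 : ∀ i, al (G2 i) = al g1 * (al (X (Fin.natAdd k jm)) * al (β2 i) + al (γ2 i)) +
      Fin.append w1' (0 : Fin (m + 1) → _) i := by
    intro i
    refine Fin.addCases (fun j => ?_) (fun j => ?_) i
    · rw [hβ2, hγ2, Fin.append_left, Fin.append_left, Fin.append_left, hw1', Pi.zero_apply,
        map_zero]
      ring
    · rw [hβ2, hγ2, Fin.append_right, Fin.append_right, Fin.append_right, Pi.zero_apply,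
        add_zero, hG2d, hg1]
      simp only
      rw [← map_mul, ← map_add, ← map_mul]
      congr 1
      rw [hY2d]
      simp only
      unfold Rat.pw Rat.xa
      rw [Fin.append_right, Fin.append_right, Pi.zero_apply, mul_zero, sub_zero, map_mul,
        mul_assoc]
      congr 2
      by_cases h : j = jm.succ
      · rw [if_pos h, if_pos h, h]
        unfold yv Rat.rh
        rw [Fin.cons_succ, rename_X, mul_one, add_zero]
      · rw [if_neg h, if_neg h, mul_zero, zero_add]
  -- variables
  have htpv : ∀ (j : Fin (k + m)) (H : Fin (k + 1 + (m + 1)) → MvPolynomial (Fin (k + m)) ℂ),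
      (∀ i, j ∉ (H i).vars) → ∀ i, j ∉ (tp (fun i j => -U i j) H i).vars := by
    intro j H hH i
    refine Fin.addCases (fun a => ?_) (fun a => ?_) i
    · unfold tp
      rw [Fin.append_left]
      exact hH _
    · unfold tp
      rw [Fin.append_right]
      intro hj
      have h5 := vars_sub_subset (p := H (Fin.natAdd (k + 1) a)) (q := ∑ i, algebraMap ℂ
        (MvPolynomial (Fin (k + m)) ℂ) (-U i a) * H (Fin.castAdd (m + 1) i)) hj
      rw [Finset.mem_union] at h5
      rcases h5 with h5 | h5
      · exact hH _ h5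
      · have h6 := vars_sum_subset (Finset.univ) (fun i => algebraMap ℂ
          (MvPolynomial (Fin (k + m)) ℂ) (-U i a) * H (Fin.castAdd (m + 1) i)) h5
        rw [Finset.mem_biUnion] at h6
        obtain ⟨i', -, h7⟩ := h6
        have h8 := vars_mul _ _ h7
        rw [Finset.mem_union, algebraMap_eq, vars_C] at h8
        rcases h8 with h8 | h8
        · simp at h8
        · exact hH _ h8
  have hrh : ∀ (i : Fin k) (q : MvPolynomial (Fin m) ℂ),
      Fin.castAdd m i ∉ (Rat.rh k m q).vars := by
    intro i q hq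
    unfold Rat.rh at hq
    have h5 := vars_rename (Fin.natAdd k) q hq
    rw [Finset.mem_image] at h5
    obtain ⟨j, -, hj⟩ := h5
    have h6 := congrArg Fin.val hj
    simp only [Fin.val_natAdd, Fin.val_castAdd] at h6
    omega
  refine ⟨G, Y, b, g1, Fin.castAdd m ⟨0, hk⟩, Fin.natAdd k jm, β, γ, w0, w1, h3, h4, hYF, hb,
    fun i => htpv _ _ (fun i => hrh _ _) _, ?_, fun i => htpv _ _ ?_ _, fun i => htpv _ _ ?_ _,
    ?_⟩
  · intro i
    obtain ⟨i', rfl⟩ := σ.surjective i
    change al (G (σ i')) = al b * al (Y (σ i')) + _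
    rw [hw0, hGs, hYs, funext hG0, tp_lin2]
  · intro i
    rw [hβ2]
    refine Fin.addCases (fun j => ?_) (fun j => ?_) i
    · rw [Fin.append_left, Pi.zero_apply, vars_0]
      simp
    · rw [Fin.append_right]
      split_ifs
      · rw [vars_one]
        simp
      · rw [vars_0]
        simp
  · intro i
    rw [hγ2]
    refine Fin.addCases (fun j => ?_) (fun j => ?_) i
    · rw [Fin.append_left, Pi.zero_apply, vars_0]
      simp
    · rw [Fin.append_right]
      split_ifs with h
      · rw [vars_0]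
        simp
      · revert h
        refine Fin.cases ?_ (fun j => ?_) j
        · intro _
          unfold yv
          rw [Fin.cons_zero, map_one, vars_one]
          simp
        · intro h
          unfold yv Rat.rh
          rw [Fin.cons_succ, rename_X, vars_X, Finset.mem_singleton]
          intro h5
          exact h (by rw [Fin.natAdd_injective _ _ h5])
  · intro i
    obtain ⟨i', rfl⟩ := σ.surjective i
    change al (G (σ i')) = al g1 * (al (X (Fin.natAdd k jm)) * al (β (σ i')) + al (γ (σ i'))) + _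
    have hβs : al (β (σ i')) = tp (fun i j => -U i j) (fun i => al (β2 i)) i' := by
      rw [hβ]
      simp only [Equiv.symm_apply_apply]
      exact tp_alg _ al β2 i'
    have hγs : al (γ (σ i')) = tp (fun i j => -U i j) (fun i => al (γ2 i)) i' := by
      rw [hγ]
      simp only [Equiv.symm_apply_apply]
      exact tp_alg _ al γ2 i'
    rw [hw1, hGs, hβs, hγs, funext hG1, tp_lin2, tp_lin2]

end

end Pool.Agent.Run7.h490.OR
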