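import Mathlib
import Pool.Agent.Run7.h490.OR6

/-! # The converse: a rational section gives points of odd degree of the special kinds (4) -/

set_option autoImplicit false

namespace Pool.Agent.Run7.h490.OR

open MvPolynomial Pool.Agent.TH314.PD Module Pool.Agent.Y201.C3 IntermediateField
open Pool.Agent.R845.T2 Pool.Agent.R845.E3

noncomputable section

/-- polynomials which do not involve a variable -/
theorem mem_of_vars {n : ℕ} {R : Type} [Field R] [Algebra ℂ R] (al : MvPolynomial (Fin n) ℂ →ₐ[ℂ] R)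
    (j : Fin n) (p : MvPolynomial (Fin n) ℂ) (hp : j ∉ p.vars) :
    al p ∈ adjoin ℂ ((fun l => al (X l)) '' {j}ᶜ) := by
  classical
  obtain ⟨q, hq⟩ := exists_rename_eq_of_vars_subset_range p
    (Subtype.val : {l : Fin n // l ≠ j} → Fin n) Subtype.val_injective (by
      intro i hi
      refine ⟨⟨i, ?_⟩, rfl⟩
      rintro rfl
      exact hp hi)
  rw [← hq]
  induction q using MvPolynomial.induction_on generalizing p with
  | C a =>
    rw [rename_C, ← algebraMap_eq, AlgHom.commutes]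
    exact IntermediateField.algebraMap_mem _ _
  | add u v hu hv =>
    rw [map_add, map_add]
    refine add_mem ?_ ?_
    · refine hu (rename Subtype.val u) ?_ rfl
      intro h
      have h1 := vars_rename (Subtype.val : {l : Fin n // l ≠ j} → Fin n) u h
      rw [Finset.mem_image] at h1
      obtain ⟨a, -, ha⟩ := h1
      exact a.2 ha
    · refine hv (rename Subtype.val v) ?_ rfl
      intro h
      have h1 := vars_rename (Subtype.val : {l : Fin n // l ≠ j} → Fin n) v h
      rw [Finset.mem_image] at h1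
      obtain ⟨a, -, ha⟩ := h1
      exact a.2 ha
  | mul_X u i hu =>
    rw [map_mul, map_mul, rename_X]
    refine mul_mem ?_ ?_
    · refine hu (rename Subtype.val u) ?_ rfl
      intro h
      have h1 := vars_rename (Subtype.val : {l : Fin n // l ≠ j} → Fin n) u h
      rw [Finset.mem_image] at h1
      obtain ⟨a, -, ha⟩ := h1
      exact a.2 ha
    · exact subset_adjoin ℂ _ ⟨i.1, i.2, rfl⟩

/-- a rational section gives a jump of the parity -/
theorem jump {n P : ℕ} (hn : 1 ≤ n) {F : MvPolynomial (Fin (n + 2)) ℂ}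
    (hF : F.IsHomogeneous 3) (hsm : Sm F) (A : Fin (n + 2) → Fin P → ℂ)
    (hrk : ∃ l1 l2, LinearIndependent ℂ ![fun i => A i l1, fun i => A i l2])
    (h : AdIso F A) :
    ∃ (x y : Fin (n + 2) → Rn n) (s : Rn n) (w : Fin P → Rn n), Gp F x ∧ ratioField x = ⊤ ∧
      aeval y F = 0 ∧ s ≠ 0 ∧ (∀ i, y i = s * x i + ∑ l, w l * algebraMap ℂ (Rn n) (A i l)) ∧
      ¬ Odd (finrank (ratioField y) (Rn n)) := by
  obtain ⟨G, Y, g0, -, j0, -, -, -, w0, -, h1, h2, h3, h4, h5, h6, -⟩ :=
    rat_data hn hF hsm A hrk h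
  let al : MvPolynomial (Fin n) ℂ →ₐ[ℂ] Rn n := IsScalarTower.toAlgHom ℂ _ _
  have hal : Function.Injective al := IsFractionRing.injective (MvPolynomial (Fin n) ℂ) _
  have hg0 : al g0 ≠ 0 := by
    intro h0
    exact h4 (hal (h0.trans (map_zero _).symm))
  refine ⟨fun i => al (G i), fun i => al (Y i), (al g0)⁻¹, fun l => -(al g0)⁻¹ * w0 l, h1, h2, ?_,
    inv_ne_zero hg0, ?_, ?_⟩
  · have h7 := congrArg al h3
    rw [map_zero, comp_aeval_apply] at h7
    exact h7
  · intro i
    have h7 : al (G i) = al g0 * al (Y i) + ∑ l, w0 l * algebraMap ℂ (Rn n) (A i l) := h6 i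
    have h8 : ∑ l, -(al g0)⁻¹ * w0 l * algebraMap ℂ (Rn n) (A i l) =
        -(al g0)⁻¹ * ∑ l, w0 l * algebraMap ℂ (Rn n) (A i l) := by
      rw [Finset.mul_sum]
      exact Finset.sum_congr rfl fun l _ => by ring
    change al (Y i) = (al g0)⁻¹ * al (G i) +
      ∑ l, -(al g0)⁻¹ * w0 l * algebraMap ℂ (Rn n) (A i l)
    rw [h8, h7]
    field_simp
    ring
  · intro hodd
    let s : Fin n → Rn n := fun l => al (X l)
    have hs : AlgebraicIndependent ℂ s :=
      (MvPolynomial.algebraicIndependent_X (Fin n) ℂ).map' hal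
    obtain ⟨ht, -⟩ := Pool.Agent.Y201.LI.linear_poly s hs j0
    exact PF.not_sub (fun i => al (Y i)) hodd _ (s j0) ht 1 (fun i => al (Y i))
      (fun i => mem_of_vars al j0 (Y i) (h5 i)) fun i => (one_mul _).symm

/-- a rational section gives a point over a line -/
theorem line_pt {n P : ℕ} (hn : 1 ≤ n) {F : MvPolynomial (Fin (n + 2)) ℂ}
    (hF : F.IsHomogeneous 3) (hsm : Sm F) (A : Fin (n + 2) → Fin P → ℂ)
    (hrk : ∃ l1 l2, LinearIndependent ℂ ![fun i => A i l1, fun i => A i l2])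
    (h : AdIso F A) :
    ∃ (x : Fin (n + 2) → Rn n) (L : IntermediateField ℂ (Rn n)) (t : Rn n), Gp F x ∧
      ratioField x = ⊤ ∧ Transcendental L t ∧ adjoin L {t} = ⊤ ∧
      ∃ (s : Rn n) (w : Fin P → Rn n) (β γ : Fin (n + 2) → L), ∀ i,
        x i = s * (t * (β i : Rn n) + (γ i : Rn n)) + ∑ l, w l * algebraMap ℂ (Rn n) (A i l) := by
  obtain ⟨G, -, -, g1, -, j1, β, γ, -, w1, h1, h2, -, -, -, -, h5, h6, h7⟩ :=
    rat_data hn hF hsm A hrk h
  let al : MvPolynomial (Fin n) ℂ →ₐ[ℂ] Rn n := IsScalarTower.toAlgHom ℂ _ _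
  have hal : Function.Injective al := IsFractionRing.injective (MvPolynomial (Fin n) ℂ) _
  let s : Fin n → Rn n := fun l => al (X l)
  have hs : AlgebraicIndependent ℂ s :=
    (MvPolynomial.algebraicIndependent_X (Fin n) ℂ).map' hal
  obtain ⟨ht, -⟩ := Pool.Agent.Y201.LI.linear_poly s hs j1
  refine ⟨fun i => al (G i), adjoin ℂ (s '' {j1}ᶜ), s j1, h1, h2, ht, ?_, al g1, w1,
    fun i => ⟨al (β i), mem_of_vars al j1 (β i) (h5 i)⟩,
    fun i => ⟨al (γ i), mem_of_vars al j1 (γ i) (h6 i)⟩, h7⟩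
  exact var_top j1 _ fun l hl => subset_adjoin ℂ _ ⟨l, hl, rfl⟩

end

end Pool.Agent.Run7.h490.OR
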