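import Mathlib
import Pool.Agent.Run7.h490.PF3

/-! # Families of plane curves of odd degree on a smooth cubic hypersurface -/

set_option autoImplicit false

namespace Pool.Agent.Run7.h490.PF

open MvPolynomial Pool.Agent.TH314.PD Module Pool.Agent.Y201.C3 IntermediateField
open Pool.Agent.R845.T2 Pool.Agent.R845.E3

noncomputable section

section alg

variable {K : Type} [Field K]

theorem inv_row (W : Matrix (Fin 3) (Fin 3) K) (hW : W.det ≠ 0) (v : Fin 3 → K) :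
    ∃ ζ : Fin 3 → K, ∀ b, v b = ζ 0 * W 0 b + ζ 1 * W 1 b + ζ 2 * W 2 b := by
  have hu : IsUnit W.det := isUnit_iff_ne_zero.2 hW
  refine ⟨Matrix.vecMul v W⁻¹, fun b => ?_⟩
  have h1 : Matrix.vecMul (Matrix.vecMul v W⁻¹) W = v := by
    rw [Matrix.vecMul_vecMul, Matrix.nonsing_inv_mul _ hu, Matrix.vecMul_one]
  have h2 := congrFun h1 b
  rw [← h2]
  conv_lhs => rw [Matrix.vecMul, dotProduct, Fin.sum_univ_three]

theorem row_inj (W : Matrix (Fin 3) (Fin 3) K) (hW : W.det ≠ 0) (ζ : Fin 3 → K)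
    (h : ∀ b, ζ 0 * W 0 b + ζ 1 * W 1 b + ζ 2 * W 2 b = 0) : ζ = 0 := by
  by_contra hne
  apply hW
  rw [← Matrix.exists_vecMul_eq_zero_iff]
  refine ⟨ζ, hne, ?_⟩
  funext b
  rw [Matrix.vecMul, dotProduct, Fin.sum_univ_three]
  exact h b

theorem basisW (c : Fin 3 → K) (hc : c ≠ 0) : ∃ W : Matrix (Fin 3) (Fin 3) K, W.det ≠ 0 ∧
    dt c (W 1) = 0 ∧ dt c (W 2) = 0 := by
  obtain ⟨l, hl⟩ : ∃ l, c l ≠ 0 := by
    by_contra hall
    push Not at hall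
    exact hc (_root_.funext hall)
  rcases f3 l with rfl | rfl | rfl
  · refine ⟨!![1, 0, 0; -c 1 / c 0, 1, 0; -c 2 / c 0, 0, 1], ?_, ?_, ?_⟩
    · rw [Matrix.det_fin_three]
      simp
    · unfold dt
      simp [Matrix.of_apply]
      field_simp
      ring
    · unfold dt
      simp [Matrix.of_apply]
      field_simp
      ring
  · refine ⟨!![0, 1, 0; 1, -c 0 / c 1, 0; 0, -c 2 / c 1, 1], ?_, ?_, ?_⟩
    · rw [Matrix.det_fin_three]
      simp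
    · unfold dt
      simp [Matrix.of_apply]
      field_simp
      ring
    · unfold dt
      simp [Matrix.of_apply]
      field_simp
      ring
  · refine ⟨!![0, 0, 1; 1, 0, -c 0 / c 2; 0, 1, -c 1 / c 2], ?_, ?_, ?_⟩
    · rw [Matrix.det_fin_three]
      simp
    · unfold dt
      simp [Matrix.of_apply]
      field_simp
      ring
    · unfold dt
      simp [Matrix.of_apply]
      field_simp
      ring

/-- the conic -/
def Qm (τ : Fin 3 → Fin 3 → Fin 3 → K) (W : Matrix (Fin 3) (Fin 3) K) :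
    Matrix (Fin 3) (Fin 3) K :=
  !![tg τ (W 0) (W 0) (W 0), 3 / 2 * tg τ (W 0) (W 0) (W 1), 3 / 2 * tg τ (W 0) (W 0) (W 2);
    3 / 2 * tg τ (W 0) (W 0) (W 1), 3 * tg τ (W 1) (W 1) (W 0), 3 * tg τ (W 0) (W 1) (W 2);
    3 / 2 * tg τ (W 0) (W 0) (W 2), 3 * tg τ (W 0) (W 1) (W 2), 3 * tg τ (W 2) (W 2) (W 0)]

/-- a bilinear form -/
def bil {R : Type} [CommRing R] [Algebra K R] (Q : Matrix (Fin 3) (Fin 3) K) (x y : Fin 3 → R) :
    R :=
  ∑ a, ∑ b, algebraMap K R (Q a b) * x a * y b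

theorem Qm_symm (τ : Fin 3 → Fin 3 → Fin 3 → K) (W : Matrix (Fin 3) (Fin 3) K) :
    (Qm τ W).IsSymm := by
  unfold Matrix.IsSymm Qm
  ext a b
  rcases f3 a with rfl | rfl | rfl <;> rcases f3 b with rfl | rfl | rfl <;> simp

theorem bil_Qm {R : Type} [CommRing R] [Algebra K R] (τ : Fin 3 → Fin 3 → Fin 3 → K)
    (W : Matrix (Fin 3) (Fin 3) K) (x y : Fin 3 → R) : bil (Qm τ W) x y =
      algebraMap K R (tg τ (W 0) (W 0) (W 0)) * x 0 * y 0 +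
      algebraMap K R (3 / 2 * tg τ (W 0) (W 0) (W 1)) * (x 0 * y 1 + x 1 * y 0) +
      algebraMap K R (3 / 2 * tg τ (W 0) (W 0) (W 2)) * (x 0 * y 2 + x 2 * y 0) +
      algebraMap K R (3 * tg τ (W 1) (W 1) (W 0)) * x 1 * y 1 +
      algebraMap K R (3 * tg τ (W 0) (W 1) (W 2)) * (x 1 * y 2 + x 2 * y 1) +
      algebraMap K R (3 * tg τ (W 2) (W 2) (W 0)) * x 2 * y 2 := by
  unfold bil Qm
  simp only [Fin.sum_univ_three, Matrix.of_apply, Matrix.cons_val_zero, Matrix.cons_val_one,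
    Matrix.cons_val]
  ring

/-- the cubic form in the coordinates given by `W` -/
theorem tg_W [CharZero K] {R : Type} [CommRing R] [Algebra K R]
    {τ : Fin 3 → Fin 3 → Fin 3 → K} (hτ : SymT τ)
    (W : Matrix (Fin 3) (Fin 3) K) (h0 : ∀ a b c : Fin 3, a ≠ 0 → b ≠ 0 → c ≠ 0 →
      tg τ (W a) (W b) (W c) = 0) (κ ζ : Fin 3 → R) :
    3 * tg τ (fun i => κ 0 * algebraMap K R (W 0 i) + κ 1 * algebraMap K R (W 1 i) +
        κ 2 * algebraMap K R (W 2 i))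
      (fun i => κ 0 * algebraMap K R (W 0 i) + κ 1 * algebraMap K R (W 1 i) +
        κ 2 * algebraMap K R (W 2 i))
      (fun i => ζ 0 * algebraMap K R (W 0 i) + ζ 1 * algebraMap K R (W 1 i) +
        ζ 2 * algebraMap K R (W 2 i)) =
      ζ 0 * bil (Qm τ W) κ κ + 2 * κ 0 * bil (Qm τ W) κ ζ := by
  have hm : ∀ a b c : Fin 3, tg τ (fun i => algebraMap K R (W a i))
      (fun i => algebraMap K R (W b i)) (fun i => algebraMap K R (W c i)) =
      algebraMap K R (tg τ (W a) (W b) (W c)) := fun a b c =>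
    (map_tg (Algebra.ofId K R) τ (W a) (W b) (W c)).symm
  simp only [tg_add1, tg_add2, tg_add3, tg_smul1, tg_smul2, tg_smul3, hm]
  have e1 : tg τ (W 0) (W 1) (W 0) = tg τ (W 0) (W 0) (W 1) := tg_swap23 hτ _ _ _
  have e2 : tg τ (W 1) (W 0) (W 0) = tg τ (W 0) (W 0) (W 1) := by rw [tg_swap12 hτ, e1]
  have e3 : tg τ (W 0) (W 2) (W 0) = tg τ (W 0) (W 0) (W 2) := tg_swap23 hτ _ _ _
  have e4 : tg τ (W 2) (W 0) (W 0) = tg τ (W 0) (W 0) (W 2) := by rw [tg_swap12 hτ, e3]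
  have e5 : tg τ (W 1) (W 0) (W 1) = tg τ (W 1) (W 1) (W 0) := tg_swap23 hτ _ _ _
  have e6 : tg τ (W 0) (W 1) (W 1) = tg τ (W 1) (W 1) (W 0) := by rw [tg_swap12 hτ, e5]
  have e9 : tg τ (W 2) (W 0) (W 2) = tg τ (W 2) (W 2) (W 0) := tg_swap23 hτ _ _ _
  have e10 : tg τ (W 0) (W 2) (W 2) = tg τ (W 2) (W 2) (W 0) := by rw [tg_swap12 hτ, e9]
  have f1 : tg τ (W 0) (W 2) (W 1) = tg τ (W 0) (W 1) (W 2) := tg_swap23 hτ _ _ _
  have f2 : tg τ (W 1) (W 0) (W 2) = tg τ (W 0) (W 1) (W 2) := tg_swap12 hτ _ _ _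
  have f3' : tg τ (W 1) (W 2) (W 0) = tg τ (W 0) (W 1) (W 2) := by rw [tg_swap23 hτ, f2]
  have f4 : tg τ (W 2) (W 0) (W 1) = tg τ (W 0) (W 1) (W 2) := by rw [tg_swap12 hτ, f1]
  have f5 : tg τ (W 2) (W 1) (W 0) = tg τ (W 0) (W 1) (W 2) := by rw [tg_swap23 hτ, f4]
  have z1 : (1 : Fin 3) ≠ 0 := by decide
  have z2 : (2 : Fin 3) ≠ 0 := by decide
  have h32 : (2 : R) * algebraMap K R (3 / 2) = 3 := by
    have h1 : (2 : R) = algebraMap K R 2 := (map_ofNat _ 2).symm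
    have h3 : (3 : R) = algebraMap K R 3 := (map_ofNat _ 3).symm
    rw [h1, h3, ← map_mul]
    congr 1
    field_simp
  have h3 : algebraMap K R 3 = 3 := map_ofNat _ 3
  rw [bil_Qm, bil_Qm, e1, e2, e3, e4, e5, e6, e9, e10, f1, f2, f3', f4, f5,
    h0 1 1 1 z1 z1 z1, h0 1 1 2 z1 z1 z2, h0 1 2 1 z1 z2 z1, h0 2 1 1 z2 z1 z1,
    h0 1 2 2 z1 z2 z2, h0 2 1 2 z2 z1 z2, h0 2 2 1 z2 z2 z1, h0 2 2 2 z2 z2 z2]
  simp only [map_mul, map_zero, h3]
  linear_combination (-(algebraMap K R (tg τ (W 0) (W 0) (W 1))) * (κ 0 * κ 1 * ζ 0 +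
    κ 0 * (κ 0 * ζ 1 + κ 1 * ζ 0)) - (algebraMap K R (tg τ (W 0) (W 0) (W 2))) *
    (κ 0 * κ 2 * ζ 0 + κ 0 * (κ 0 * ζ 2 + κ 2 * ζ 0))) * h32

end alg

end

end Pool.Agent.Run7.h490.PF
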