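import Mathlib
import Pool.Agent.Run7.h490.PF4

/-! # Families of plane curves of odd degree on a smooth cubic hypersurface, the main theorem -/

set_option autoImplicit false

namespace Pool.Agent.Run7.h490.PF

open MvPolynomial Pool.Agent.TH314.PD Module Pool.Agent.Y201.C3 IntermediateField
open Pool.Agent.R845.T2 Pool.Agent.R845.E3

noncomputable section

/-- primitive part of a vector of polynomials -/
theorem prim_part {K : Type} [Field K] {ι : Type} [Fintype ι] (g : ι → Polynomial K)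
    (hg : g ≠ 0) : ∃ (h : Polynomial K) (p : ι → Polynomial K), h ≠ 0 ∧ (∀ a, g a = h * p a) ∧
      ∀ q : Polynomial K, Irreducible q → ∃ j, ¬ q ∣ p j := by
  classical
  obtain ⟨h, hh⟩ := (IsPrincipalIdealRing.principal (Ideal.span (Set.range g))).principal
  have hdiv : ∀ a, ∃ p, g a = h * p := by
    intro a
    have h1 : g a ∈ Ideal.span (Set.range g) := Ideal.subset_span ⟨a, rfl⟩
    rw [hh] at h1
    exact Ideal.mem_span_singleton.1 h1
  choose p hp using hdiv
  have hh0 : h ≠ 0 := by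
    intro h0
    apply hg
    funext a
    rw [hp, h0, zero_mul, Pi.zero_apply]
  have hmem : h ∈ Ideal.span (Set.range g) := by
    rw [hh]
    exact Ideal.mem_span_singleton_self h
  rw [Ideal.mem_span_range_iff_exists_fun] at hmem
  obtain ⟨u, hu⟩ := hmem
  have h1 : h * ∑ a, u a * p a = h * 1 := by
    rw [mul_one, Finset.mul_sum]
    conv_rhs => rw [← hu]
    exact Finset.sum_congr rfl fun a _ => by rw [hp a]; ring
  have h2 := mul_left_cancel₀ hh0 h1
  refine ⟨h, p, hh0, hp, fun q hq => ?_⟩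
  by_contra hall
  push Not at hall
  apply hq.not_isUnit
  apply isUnit_of_dvd_one
  rw [← h2]
  exact Finset.dvd_sum fun a _ => Dvd.dvd.mul_left (hall a) _

/-- finitely many elements of `L(t)` have a common denominator -/
theorem den {M : Type} [Field M] [Algebra ℂ M] (L : IntermediateField ℂ M) (t : M)
    (ht : Transcendental L t) {ι : Type} [Fintype ι] (f : ι → M)
    (hf : ∀ i, f i ∈ adjoin L {t}) :
    ∃ (D : Polynomial L) (g : ι → Polynomial L), Polynomial.aeval t D ≠ 0 ∧
      ∀ i, Polynomial.aeval t D * f i = Polynomial.aeval t (g i) := by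
  classical
  have h1 : ∀ z : M, z ∈ adjoin L {t} → ∃ a b : Polynomial L, b ≠ 0 ∧
      Polynomial.aeval t b * z = Polynomial.aeval t a := by
    intro z hz
    rw [mem_adjoin_simple_iff] at hz
    obtain ⟨a, b, rfl⟩ := hz
    by_cases hb : Polynomial.aeval t b = 0
    · exact ⟨0, 1, one_ne_zero, by rw [hb, div_zero, mul_zero, map_zero]⟩
    · refine ⟨a, b, ?_, by rw [mul_div_cancel₀ _ hb]⟩
      rintro rfl
      exact hb (map_zero _)
  choose a b hb hab using fun i => h1 (f i) (hf i)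
  refine ⟨∏ i, b i, fun i => a i * ∏ j ∈ Finset.univ.erase i, b j, ?_, fun i => ?_⟩
  · intro h0
    exact ht ⟨_, Finset.prod_ne_zero_iff.2 fun i _ => hb i, h0⟩
  · rw [← Finset.mul_prod_erase Finset.univ b (Finset.mem_univ i), map_mul, map_mul, ← hab]
    ring

variable {r : ℕ} {F : MvPolynomial (Fin (r + 1)) ℂ} {M : Type} [Field M] [Algebra ℂ M]

/-- the trilinear form on a plane -/
def tp3 (T : Fin (r + 1) → Fin (r + 1) → Fin (r + 1) → ℂ) {L : IntermediateField ℂ M}
    (V : Fin 3 → Fin (r + 1) → L) (a b c : Fin 3) : L := Bg T (V a) (V b) (V c)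

theorem tp3_sym {T : Fin (r + 1) → Fin (r + 1) → Fin (r + 1) → ℂ} (hT : SymG T)
    {L : IntermediateField ℂ M} (V : Fin 3 → Fin (r + 1) → L) : SymT (tp3 T V) :=
  fun _ _ _ => ⟨Bg_swap12 hT _ _ _, Bg_swap23 hT _ _ _⟩

theorem tg_fam {T : Fin (r + 1) → Fin (r + 1) → Fin (r + 1) → ℂ} (hT : SymG T)
    {L : IntermediateField ℂ M} (V : Fin 3 → Fin (r + 1) → L) (x y z : Fin 3 → M) :
    tg (tp3 T V) x y z = Bg T (fun i => ∑ a, x a * (V a i : M)) (fun i => ∑ a, y a * (V a i : M))
      (fun i => ∑ a, z a * (V a i : M)) := by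
  rw [Bg_sum1]
  unfold tg
  refine Finset.sum_congr rfl fun a _ => ?_
  have h1 : Bg T (fun i => x a * (V a i : M)) (fun i => ∑ b, y b * (V b i : M))
      (fun i => ∑ c, z c * (V c i : M)) =
      ∑ b, ∑ c, x a * (y b * (z c * algebraMap L M (tp3 T V a b c))) := by
    rw [Bg_smul1, Bg_sum2 hT, Finset.mul_sum]
    refine Finset.sum_congr rfl fun b _ => ?_
    rw [Bg_smul2, Bg_sum3 hT, Finset.mul_sum, Finset.mul_sum]
    refine Finset.sum_congr rfl fun c _ => ?_
    rw [Bg_smul3]
    congr 3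
    exact (map_Bg L.val T (V a) (V b) (V c)).symm
  refine Eq.trans ?_ h1.symm
  refine Finset.sum_congr rfl fun b _ => Finset.sum_congr rfl fun c _ => ?_
  ring

/-- the coefficients of a generic point of odd degree in a plane satisfy no linear relation -/
theorem no_rel (hF : F.IsHomogeneous 3) (hsm : Sm F) (x : Fin (r + 1) → M) (hG : Gp F x)
    (hodd : Odd (finrank (ratioField x) M)) (L : IntermediateField ℂ M) (t : M)
    (ht : Transcendental L t) (V : Fin 3 → Fin (r + 1) → L) (α : Fin 3 → M)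
    (hx : ∀ i, x i = ∑ a, α a * (V a i : M)) (c : Fin 3 → L)
    (hc : ∑ a, (c a : M) * α a = 0) : c = 0 := by
  by_contra hne
  obtain ⟨l, hl⟩ : ∃ l, c l ≠ 0 := by
    by_contra hall
    push Not at hall
    exact hne (funext hall)
  have hl' : ((c l : L) : M) ≠ 0 := fun h0 => hl (Subtype.ext h0)
  rw [Fin.sum_univ_three] at hc
  rcases f3 l with rfl | rfl | rfl
  · refine not_line hF hsm x hG hodd L t ht (α 1) (α 2)
      (fun i => (V 1 i : M) - (c 1 : M) / (c 0 : M) * (V 0 i : M))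
      (fun i => (V 2 i : M) - (c 2 : M) / (c 0 : M) * (V 0 i : M))
      (fun i => sub_mem (V 1 i).2 (mul_mem (div_mem (c 1).2 (c 0).2) (V 0 i).2))
      (fun i => sub_mem (V 2 i).2 (mul_mem (div_mem (c 2).2 (c 0).2) (V 0 i).2)) fun i => ?_
    rw [hx, Fin.sum_univ_three]
    field_simp
    linear_combination (V 0 i : M) * hc
  · refine not_line hF hsm x hG hodd L t ht (α 0) (α 2)
      (fun i => (V 0 i : M) - (c 0 : M) / (c 1 : M) * (V 1 i : M))
      (fun i => (V 2 i : M) - (c 2 : M) / (c 1 : M) * (V 1 i : M))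
      (fun i => sub_mem (V 0 i).2 (mul_mem (div_mem (c 0).2 (c 1).2) (V 1 i).2))
      (fun i => sub_mem (V 2 i).2 (mul_mem (div_mem (c 2).2 (c 1).2) (V 1 i).2)) fun i => ?_
    rw [hx, Fin.sum_univ_three]
    field_simp
    linear_combination (V 1 i : M) * hc
  · refine not_line hF hsm x hG hodd L t ht (α 0) (α 1)
      (fun i => (V 0 i : M) - (c 0 : M) / (c 2 : M) * (V 2 i : M))
      (fun i => (V 1 i : M) - (c 1 : M) / (c 2 : M) * (V 2 i : M))
      (fun i => sub_mem (V 0 i).2 (mul_mem (div_mem (c 0).2 (c 2).2) (V 2 i).2))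
      (fun i => sub_mem (V 1 i).2 (mul_mem (div_mem (c 1).2 (c 2).2) (V 2 i).2)) fun i => ?_
    rw [hx, Fin.sum_univ_three]
    field_simp
    linear_combination (V 2 i : M) * hc

/-- the vectors are linearly independent -/
theorem V_ind (hF : F.IsHomogeneous 3) (hsm : Sm F) (x : Fin (r + 1) → M) (hG : Gp F x)
    (hodd : Odd (finrank (ratioField x) M)) (L : IntermediateField ℂ M) (t : M)
    (ht : Transcendental L t) (V : Fin 3 → Fin (r + 1) → L) (α : Fin 3 → M)
    (hx : ∀ i, x i = ∑ a, α a * (V a i : M)) (μ : Fin 3 → L)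
    (hμ : ∀ i, ∑ a, (μ a : M) * (V a i : M) = 0) : μ = 0 := by
  by_contra hne
  obtain ⟨l, hl⟩ : ∃ l, μ l ≠ 0 := by
    by_contra hall
    push Not at hall
    exact hne (funext hall)
  have hl' : ((μ l : L) : M) ≠ 0 := fun h0 => hl (Subtype.ext h0)
  have h1 := no_rel hF hsm x hG hodd L t ht V (fun a => α a - α l / (μ l : M) * (μ a : M))
    (fun i => by
      rw [hx]
      have h2 : ∑ a, (α a - α l / (μ l : M) * (μ a : M)) * (V a i : M) =
          ∑ a, α a * (V a i : M) - α l / (μ l : M) * ∑ a, (μ a : M) * (V a i : M) := by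
        rw [Finset.mul_sum, ← Finset.sum_sub_distrib]
        exact Finset.sum_congr rfl fun a _ => by ring
      rw [h2, hμ, mul_zero, sub_zero]) (Pi.single l 1) (by
      rw [Finset.sum_eq_single l]
      · rw [Pi.single_eq_same]
        field_simp
        simp
      · intro b _ hb
        rw [Pi.single_eq_of_ne hb]
        simp
      · intro h
        exact absurd (Finset.mem_univ l) h)
  have h2 := congrFun h1 l
  rw [Pi.single_eq_same, Pi.zero_apply] at h2
  exact one_ne_zero h2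

/-- no singular point over the subfield -/
theorem no_sing (hF : F.IsHomogeneous 3) (hsm : Sm F)
    {T : Fin (r + 1) → Fin (r + 1) → Fin (r + 1) → ℂ} (hT : SymG T)
    (hFT : F = Bg T X X X) (x : Fin (r + 1) → M) (hG : Gp F x)
    (hodd : Odd (finrank (ratioField x) M)) (L : IntermediateField ℂ M) (t : M)
    (ht : Transcendental L t) (V : Fin 3 → Fin (r + 1) → L) (α : Fin 3 → M)
    (hx : ∀ i, x i = ∑ a, α a * (V a i : M)) (μ : Fin 3 → L)
    (hμ : ∀ k, gr (tp3 T V) μ μ k = 0) : μ = 0 := by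
  by_contra hne
  have hτ := tp3_sym hT V
  set y : Fin (r + 1) → M := fun i => ∑ a, (μ a : M) * (V a i : M) with hy
  have hy0 : y ≠ 0 := by
    intro h0
    exact hne (V_ind hF hsm x hG hodd L t ht V α hx μ fun i => congrFun h0 i)
  have hgrM : ∀ k, gr (tp3 T V) (fun a => (μ a : M)) (fun a => (μ a : M)) k = 0 := by
    intro k
    have h1 := map_gr (Algebra.ofId L M) (tp3 T V) μ μ k
    rw [hμ, map_zero] at h1
    exact h1.symm
  have hyF : aeval y F = 0 := by
    have h1 : aeval y F = Bg T y y y := by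
      conv_lhs => rw [hFT]
      exact aeval_frmG T y
    rw [h1, hy, ← tg_fam hT, hS hgrM]
  refine no_pt hF hsm hT hFT x hG hodd L t ht y
    (fun i => sum_mem fun a _ => mul_mem (μ a).2 (V a i).2) hy0 hyF ?_
  have hx' : x = fun i => ∑ a, α a * (V a i : M) := funext hx
  rw [hx', hy, ← tg_fam hT, tg_swap12 hτ, tg_swap23 hτ, hS hgrM]

/-- **families of plane curves** -/
theorem family (hF : F.IsHomogeneous 3) (hsm : Sm F)
    {T : Fin (r + 1) → Fin (r + 1) → Fin (r + 1) → ℂ} (hT : SymG T)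
    (hFT : F = Bg T X X X) (x : Fin (r + 1) → M) (hG : Gp F x)
    (hodd : Odd (finrank (ratioField x) M)) (L : IntermediateField ℂ M) (t : M)
    (ht : Transcendental L t) (V : Fin 3 → Fin (r + 1) → L) (lam : Fin 3 → M)
    (hlam : ∀ a, lam a ∈ adjoin L {t}) (hx : ∀ i, x i = ∑ a, lam a * (V a i : M)) :
    ∃ (W Q : Matrix (Fin 3) (Fin 3) L) (μ : Fin 3 → M), W.det ≠ 0 ∧ Q.IsSymm ∧ Q.det ≠ 0 ∧
      (∀ Y : Fin 3 → M, aeval (fun i => ∑ a, Y a * ∑ b, (W a b : M) * (V b i : M)) F =
        Y 0 * ∑ a, ∑ b, (Q a b : M) * Y a * Y b) ∧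
      (∀ b c : L, Q 1 1 * b ^ 2 + 2 * Q 1 2 * b * c + Q 2 2 * c ^ 2 = 0 → b = 0 ∧ c = 0) ∧
      (∀ i, x i = ∑ a, μ a * ∑ b, (W a b : M) * (V b i : M)) ∧ μ 0 ≠ 0 ∧
      ∑ a, ∑ b, (Q a b : M) * μ a * μ b = 0 ∧ ∀ b, lam b = ∑ a, μ a * (W a b : M) := by
  have hτ := tp3_sym hT V
  have hinj : Function.Injective (Polynomial.aeval t : Polynomial L →ₐ[L] M) := by
    rw [injective_iff_map_eq_zero]
    intro q hq
    by_contra hne
    exact ht ⟨q, hne, hq⟩
  -- polynomial coordinates
  obtain ⟨D, g, hD, hg⟩ := den L t ht lam hlam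
  have hx0 : ∀ i, x i ≠ 0 := coord_ne_zero hF (by norm_num) x hG.2
  have hg0 : g ≠ 0 := by
    intro h0
    apply hx0 0
    have h1 : Polynomial.aeval t D * x 0 = 0 := by
      rw [hx, Finset.mul_sum]
      refine Finset.sum_eq_zero fun a _ => ?_
      rw [← mul_assoc, hg, h0, Pi.zero_apply, map_zero, zero_mul]
    exact (mul_eq_zero.1 h1).resolve_left hD
  obtain ⟨h, p, hh0, hgp, hcop⟩ := prim_part g hg0
  have hh1 : Polynomial.aeval t h ≠ 0 := fun h0 => ht ⟨h, hh0, h0⟩
  obtain ⟨s, hs⟩ : ∃ s : M, s = Polynomial.aeval t h / Polynomial.aeval t D := ⟨_, rfl⟩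
  have hs0 : s ≠ 0 := by
    rw [hs]
    exact div_ne_zero hh1 hD
  have hlp : ∀ a, lam a = s * Polynomial.aeval t (p a) := by
    intro a
    have h1 := hg a
    rw [hgp, map_mul] at h1
    rw [hs]
    field_simp
    linear_combination h1
  have hx1 : ∀ i, x i = ∑ a, (s * Polynomial.aeval t (p a)) * (V a i : M) := by
    intro i
    rw [hx]
    exact Finset.sum_congr rfl fun a _ => by rw [hlp]
  have hxF : Bg T x x x = 0 := by
    have h1 := hG.1
    rw [hFT] at h1
    rw [← h1]
    exact (aeval_frmG T x).symm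
  have hp : tg (tp3 T V) p p p = 0 := by
    apply hinj
    rw [map_zero, map_tg]
    have h1 : tg (tp3 T V) (fun a => s * Polynomial.aeval t (p a))
        (fun a => s * Polynomial.aeval t (p a)) (fun a => s * Polynomial.aeval t (p a)) = 0 := by
      rw [tg_fam hT, ← hxF]
      congr 1 <;> exact (funext hx1).symm
    rw [tg_smul1, tg_smul2, tg_smul3] at h1
    have h2 := (mul_eq_zero.1 h1).resolve_left hs0
    have h3 := (mul_eq_zero.1 h2).resolve_left hs0
    exact (mul_eq_zero.1 h3).resolve_left hs0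
  have H1 : ∀ μ : Fin 3 → L, (∀ k, gr (tp3 T V) μ μ k = 0) → μ = 0 := fun μ hμ =>
    no_sing hF hsm hT hFT x hG hodd L t ht V lam hx μ hμ
  have H2 : ∀ c : Fin 3 → L, ∑ j, Polynomial.C (c j) * p j = 0 → c = 0 := by
    intro c hc
    refine no_rel hF hsm x hG hodd L t ht V lam hx c ?_
    have h1 := congrArg (Polynomial.aeval t) hc
    rw [map_sum, map_zero] at h1
    have h2 : ∑ a, (c a : M) * lam a = s * ∑ a, Polynomial.aeval t (Polynomial.C (c a) * p a) := by
      rw [Finset.mul_sum]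
      refine Finset.sum_congr rfl fun a _ => ?_
      rw [hlp, map_mul, Polynomial.aeval_C]
      change (c a : M) * _ = s * ((c a : M) * _)
      ring
    rw [h2, h1, mul_zero]
  obtain ⟨c, hc0, hc⟩ := plane hτ p hcop hp H1 H2
  obtain ⟨W, hW, hW1, hW2⟩ := basisW c hc0
  have hWv : ∀ a : Fin 3, a ≠ 0 → dt c (W a) = 0 := by
    intro a ha
    rcases f3 a with rfl | rfl | rfl
    · exact absurd rfl ha
    · exact hW1
    · exact hW2
  have h0 : ∀ a b c : Fin 3, a ≠ 0 → b ≠ 0 → c ≠ 0 → tg (tp3 T V) (W a) (W b) (W c) = 0 :=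
    fun a b d ha hb hd => hc _ _ _ (hWv a ha) (hWv b hb) (hWv d hd)
  have h3L : (3 : L) ≠ 0 := by norm_num
  have h3M : (3 : M) ≠ 0 := by
    have : CharZero M := charZero_of_injective_algebraMap (algebraMap ℂ M).injective
    norm_num
  -- singular vectors
  have hsing : ∀ κ : Fin 3 → L, bil (Qm (tp3 T V) W) κ κ = 0 →
      (∀ ζ : Fin 3 → L, κ 0 * bil (Qm (tp3 T V) W) κ ζ = 0) → κ = 0 := by
    intro κ h1 h2
    apply row_inj W hW
    have h4 : (fun i => κ 0 * W 0 i + κ 1 * W 1 i + κ 2 * W 2 i) = 0 := by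
      apply H1
      intro k
      obtain ⟨ζ, hζ⟩ := inv_row W hW (fun a => if a = k then 1 else 0)
      have h5 := tg_W hτ W h0 κ ζ
      rw [h1, mul_zero, zero_add, mul_assoc, h2, mul_zero] at h5
      have h6 := (mul_eq_zero.1 h5).resolve_left h3L
      have h7 : (fun i => ζ 0 * algebraMap L L (W 0 i) + ζ 1 * algebraMap L L (W 1 i) +
          ζ 2 * algebraMap L L (W 2 i)) = fun a => if a = k then 1 else 0 := by
        funext a
        exact (hζ a).symm
      rw [h7, tg_gr] at h6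
      simpa using h6
    exact fun b => congrFun h4 b
  -- the coefficients of `x`
  have hWM : (W.map (algebraMap L M)).det ≠ 0 := by
    have h1 := (algebraMap L M).map_det W
    rw [RingHom.mapMatrix_apply] at h1
    rw [← h1]
    exact (map_ne_zero _).2 hW
  obtain ⟨μ, hμ⟩ := inv_row (W.map (algebraMap L M)) hWM lam
  have hμ' : ∀ b, lam b = ∑ a, μ a * (W a b : M) := by
    intro b
    rw [hμ, Fin.sum_univ_three]
    rfl
  have hxμ : ∀ i, x i = ∑ a, μ a * ∑ b, (W a b : M) * (V b i : M) := by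
    intro i
    rw [hx]
    simp only [hμ', Finset.sum_mul, Finset.mul_sum]
    rw [Finset.sum_comm]
    exact Finset.sum_congr rfl fun a _ => Finset.sum_congr rfl fun b _ => by ring
  have hcub : ∀ Y : Fin 3 → M, aeval (fun i => ∑ a, Y a * ∑ b, (W a b : M) * (V b i : M)) F =
        Y 0 * bil (Qm (tp3 T V) W) Y Y := by
    intro Y
    have h1 : (fun i => ∑ a, Y a * ∑ b, (W a b : M) * (V b i : M)) =
        fun i => ∑ b, (Y 0 * algebraMap L M (W 0 b) + Y 1 * algebraMap L M (W 1 b) +
          Y 2 * algebraMap L M (W 2 b)) * (V b i : M) := by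
      funext i
      simp only [Finset.mul_sum]
      rw [Finset.sum_comm]
      refine Finset.sum_congr rfl fun b _ => ?_
      rw [Fin.sum_univ_three]
      change Y 0 * ((W 0 b : M) * _) + Y 1 * ((W 1 b : M) * _) + Y 2 * ((W 2 b : M) * _) =
        (Y 0 * (W 0 b : M) + Y 1 * (W 1 b : M) + Y 2 * (W 2 b : M)) * _
      ring
    have h2 : ∀ v : Fin (r + 1) → M, aeval v F = Bg T v v v := by
      intro v
      conv_lhs => rw [hFT]
      exact aeval_frmG T v
    rw [h1, h2, ← tg_fam hT]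
    have h5 := tg_W hτ W h0 Y Y
    apply mul_left_cancel₀ h3M
    rw [h5]
    ring
  have hμ0 : μ 0 ≠ 0 := by
    intro h1
    refine not_line hF hsm x hG hodd L t ht (μ 1) (μ 2)
      (fun i => ∑ b, (W 1 b : M) * (V b i : M)) (fun i => ∑ b, (W 2 b : M) * (V b i : M))
      (fun i => sum_mem fun b _ => mul_mem (W 1 b).2 (V b i).2)
      (fun i => sum_mem fun b _ => mul_mem (W 2 b).2 (V b i).2) fun i => ?_
    rw [hxμ, Fin.sum_univ_three, h1, zero_mul, zero_add]
  refine ⟨W, Qm (tp3 T V) W, μ, hW, Qm_symm _ _, ?_, hcub, ?_, hxμ, hμ0, ?_, hμ'⟩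
  · intro hdet
    obtain ⟨κ, hκ0, hκ⟩ := Matrix.exists_mulVec_eq_zero_iff.2 hdet
    apply hκ0
    have h1 : ∀ ζ : Fin 3 → L, bil (Qm (tp3 T V) W) κ ζ = 0 := by
      intro ζ
      have h2 : bil (Qm (tp3 T V) W) κ ζ =
          ∑ b, ζ b * ∑ a, Qm (tp3 T V) W b a * κ a := by
        unfold bil
        simp only [Finset.mul_sum]
        rw [Finset.sum_comm]
        refine Finset.sum_congr rfl fun b _ => Finset.sum_congr rfl fun a _ => ?_
        have h3 := congrFun (congrFun (Qm_symm (tp3 T V) W) a) b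
        rw [Matrix.transpose_apply] at h3
        rw [h3]
        change Qm (tp3 T V) W a b * _ * _ = _
        ring
      rw [h2]
      refine Finset.sum_eq_zero fun b _ => ?_
      have h4 := congrFun hκ b
      rw [Matrix.mulVec, dotProduct] at h4
      rw [h4, Pi.zero_apply, mul_zero]
    exact hsing κ (h1 κ) fun ζ => by rw [h1, mul_zero]
  · intro b c hbc
    have h1 : (![0, b, c] : Fin 3 → L) = 0 := by
      apply hsing
      · unfold bil
        simp only [Fin.sum_univ_three, Matrix.cons_val_zero, Matrix.cons_val_one,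
          Matrix.cons_val]
        have h3 := congrFun (congrFun (Qm_symm (tp3 T V) W) 1) 2
        rw [Matrix.transpose_apply] at h3
        change _ + _ + (_ + Qm (tp3 T V) W 1 1 * b * b + Qm (tp3 T V) W 1 2 * b * c) +
          (_ + Qm (tp3 T V) W 2 1 * c * b + Qm (tp3 T V) W 2 2 * c * c) = 0
        rw [h3]
        linear_combination hbc
      · intro ζ
        simp only [Matrix.cons_val_zero, zero_mul]
    exact ⟨congrFun h1 1, congrFun h1 2⟩
  · have h1 := hcub μ
    have h2 : (fun i => ∑ a, μ a * ∑ b, (W a b : M) * (V b i : M)) = x := (funext hxμ).symm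
    rw [h2, hG.1] at h1
    exact (mul_eq_zero.1 h1.symm).resolve_left hμ0

end

end Pool.Agent.Run7.h490.PF
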