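import Mathlib
import Pool.Agent.Run7.h490.PF5

/-! # Parameters which occur with three exponents only -/

set_option autoImplicit false

namespace Pool.Agent.Run7.h490.PF

open MvPolynomial Pool.Agent.TH314.PD Module Pool.Agent.Y201.C3 IntermediateField
open Pool.Agent.R845.T2 Pool.Agent.R845.E3

noncomputable section

/-- polynomials in which a variable occurs only with given exponents -/
theorem poly_exp {n : ℕ} {R : Type} [Field R] [Algebra ℂ R] (s : Fin n → R)
    (j : Fin n) (e : Fin 3 → ℕ) (he : Function.Injective e) (G : MvPolynomial (Fin n) ℂ)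
    (hG : ∀ m ∈ G.support, ∃ a, m j = e a) :
    ∃ V : Fin 3 → adjoin ℂ (s '' {j}ᶜ), aeval s G = ∑ a, s j ^ e a * (V a : R) := by
  classical
  have hX : ∀ l, l ≠ j → s l ∈ adjoin ℂ (s '' {j}ᶜ) := fun l hl =>
    subset_adjoin ℂ _ ⟨l, hl, rfl⟩
  have hmon : ∀ m : Fin n →₀ ℕ, ∏ l ∈ Finset.univ.erase j, s l ^ m l ∈ adjoin ℂ (s '' {j}ᶜ) :=
    fun m => prod_mem fun l hl => pow_mem (hX l (Finset.ne_of_mem_erase hl)) _
  refine ⟨fun a => ⟨∑ m ∈ G.support, (if m j = e a then algebraMap ℂ R (coeff m G) *
      ∏ l ∈ Finset.univ.erase j, s l ^ m l else 0), sum_mem fun m _ => ?_⟩, ?_⟩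
  · split_ifs
    · exact mul_mem (IntermediateField.algebraMap_mem _ _) (hmon m)
    · exact zero_mem _
  · simp only
    rw [aeval_def, eval₂_eq']
    simp only [Finset.mul_sum]
    rw [Finset.sum_comm]
    refine Finset.sum_congr rfl fun m hm => ?_
    obtain ⟨a, ha⟩ := hG m hm
    rw [Finset.sum_eq_single a]
    · rw [if_pos ha, ← Finset.mul_prod_erase Finset.univ _ (Finset.mem_univ j), ha]
      ring
    · intro b _ hb
      rw [if_neg, mul_zero]
      intro h1
      exact hb (he (h1.symm.trans ha))
    · intro h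
      exact absurd (Finset.mem_univ a) h

/-- a quadratic relation between three powers of a transcendental element -/
theorem three_pow {L M : Type} [Field L] [CharZero L] [Field M] [Algebra L M] (t : M)
    (ht : Transcendental L t) (e : Fin 3 → ℕ) (h01 : e 0 < e 1) (h12 : e 1 < e 2)
    (hne : e 0 + e 2 ≠ 2 * e 1) (Q : Matrix (Fin 3) (Fin 3) L) (hQ : Q.IsSymm)
    (h : ∑ a, ∑ b, algebraMap L M (Q a b) * t ^ e a * t ^ e b = 0) : Q = 0 := by
  have hq : ∑ a, ∑ b, (Polynomial.monomial (e a + e b) (Q a b)) = (0 : Polynomial L) := by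
    by_contra hne0
    apply ht
    refine ⟨_, hne0, ?_⟩
    rw [map_sum, ← h]
    refine Finset.sum_congr rfl fun a _ => ?_
    rw [map_sum]
    refine Finset.sum_congr rfl fun b _ => ?_
    rw [Polynomial.aeval_monomial, pow_add, mul_assoc]
  have hs : ∀ a b, Q b a = Q a b := fun a b => congrFun (congrFun hQ a) b
  have hc : ∀ k, ∑ a, ∑ b, (if e a + e b = k then Q a b else 0) = 0 := by
    intro k
    have h1 := congrArg (fun p : Polynomial L => p.coeff k) hq
    simp only [Polynomial.finsetSum_coeff, Polynomial.coeff_monomial, Polynomial.coeff_zero] at h1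
    exact h1
  simp only [Fin.sum_univ_three] at hc
  have q00 : Q 0 0 = 0 := by
    have h1 := hc (e 0 + e 0)
    rw [if_pos rfl, if_neg (by omega), if_neg (by omega), if_neg (by omega), if_neg (by omega),
      if_neg (by omega), if_neg (by omega), if_neg (by omega), if_neg (by omega)] at h1
    simpa using h1
  have q01 : Q 0 1 = 0 := by
    have h1 := hc (e 0 + e 1)
    rw [if_neg (by omega), if_pos rfl, if_neg (by omega), if_pos (by omega), if_neg (by omega),
      if_neg (by omega), if_neg (by omega), if_neg (by omega), if_neg (by omega), hs 0 1] at h1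
    have h2 : 2 * Q 0 1 = 0 := by linear_combination h1
    exact (mul_eq_zero.1 h2).resolve_left two_ne_zero
  have q02 : Q 0 2 = 0 := by
    have h1 := hc (e 0 + e 2)
    rw [if_neg (by omega), if_neg (by omega), if_pos rfl, if_neg (by omega), if_neg (by omega),
      if_neg (by omega), if_pos (by omega), if_neg (by omega), if_neg (by omega), hs 0 2] at h1
    have h2 : 2 * Q 0 2 = 0 := by linear_combination h1
    exact (mul_eq_zero.1 h2).resolve_left two_ne_zero
  have q11 : Q 1 1 = 0 := by
    have h1 := hc (e 1 + e 1)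
    rw [if_neg (by omega), if_neg (by omega), if_neg (by omega), if_neg (by omega), if_pos rfl,
      if_neg (by omega), if_neg (by omega), if_neg (by omega), if_neg (by omega)] at h1
    simpa using h1
  have q12 : Q 1 2 = 0 := by
    have h1 := hc (e 1 + e 2)
    rw [if_neg (by omega), if_neg (by omega), if_neg (by omega), if_neg (by omega),
      if_neg (by omega), if_pos rfl, if_neg (by omega), if_pos (by omega), if_neg (by omega),
      hs 1 2] at h1
    have h2 : 2 * Q 1 2 = 0 := by linear_combination h1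
    exact (mul_eq_zero.1 h2).resolve_left two_ne_zero
  have q22 : Q 2 2 = 0 := by
    have h1 := hc (e 2 + e 2)
    rw [if_neg (by omega), if_neg (by omega), if_neg (by omega), if_neg (by omega),
      if_neg (by omega), if_neg (by omega), if_neg (by omega), if_neg (by omega),
      if_pos rfl] at h1
    simpa using h1
  ext a b
  rw [Matrix.zero_apply]
  rcases f3 a with rfl | rfl | rfl <;> rcases f3 b with rfl | rfl | rfl
  · exact q00
  · exact q01
  · exact q02
  · rw [hs 0 1, q01]
  · exact q11
  · exact q12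
  · rw [hs 0 2, q02]
  · rw [hs 1 2, q12]
  · exact q22

/-- the quadratic form in the old coordinates -/
theorem old_coord {L M : Type} [Field L] [Field M] [Algebra L M] (W Q : Matrix (Fin 3) (Fin 3) L)
    (hW : W.det ≠ 0) (lam μ : Fin 3 → M) (hlam : ∀ b, lam b = ∑ a, μ a * algebraMap L M (W a b))
    (h : ∑ a, ∑ b, algebraMap L M (Q a b) * μ a * μ b = 0) :
    ∑ a, ∑ b, algebraMap L M ((W⁻¹ * Q * (W⁻¹).transpose) a b) * lam a * lam b = 0 := by
  have hu : IsUnit W.det := isUnit_iff_ne_zero.2 hW
  have h1 : ∀ a, μ a = ∑ c, lam c * algebraMap L M (W⁻¹ c a) := by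
    intro a
    simp only [hlam, Finset.sum_mul]
    rw [Finset.sum_comm]
    have h2 : ∀ b, ∑ c, μ b * algebraMap L M (W b c) * algebraMap L M (W⁻¹ c a) =
        μ b * algebraMap L M ((W * W⁻¹) b a) := by
      intro b
      rw [Matrix.mul_apply, map_sum, Finset.mul_sum]
      exact Finset.sum_congr rfl fun c _ => by rw [map_mul]; ring
    simp only [h2, Matrix.mul_nonsing_inv _ hu, Matrix.one_apply]
    simp
  rw [← h]
  simp only [h1, Finset.mul_sum, Finset.sum_mul, Matrix.mul_apply, map_sum, map_mul,
    Matrix.transpose_apply]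
  -- sums over c, d (outer), b, a
  have e1 : ∀ (f : Fin 3 → Fin 3 → Fin 3 → Fin 3 → M),
      ∑ c, ∑ d, ∑ b, ∑ a, f c d b a = ∑ a, ∑ b, ∑ c, ∑ d, f c d b a := by
    intro f
    simp only [Fin.sum_univ_three]
    ring
  rw [e1]
  refine Finset.sum_congr rfl fun a _ => Finset.sum_congr rfl fun b _ => ?_
  rw [Finset.sum_comm]
  refine Finset.sum_congr rfl fun c _ => Finset.sum_congr rfl fun d _ => ?_
  ring

/-- an involution which fixes the ratios of the coordinates -/
theorem even_of_inv {N : ℕ} {M : Type} [Field M] [Algebra ℂ M] (x : Fin N → M)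
    (σ : M ≃ₐ[ℂ] M) (h2 : ∀ z, σ (σ z) = z) (h1 : ∃ z, σ z ≠ z)
    (hx : ∀ i j, σ (x i / x j) = x i / x j) : ¬ Odd (finrank (ratioField x) M) := by
  intro hodd
  have hfd : FiniteDimensional (ratioField x) M := FiniteDimensional.of_finrank_pos hodd.pos
  have hfix : ∀ z ∈ ratioField x, σ z = z := by
    intro z hz
    unfold ratioField at hz
    induction hz using IntermediateField.adjoin_induction with
    | mem z hz =>
      obtain ⟨i, j, rfl⟩ := hz
      exact hx i j
    | algebraMap c => exact σ.commutes c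
    | add a b _ _ ha hb => rw [map_add, ha, hb]
    | inv a _ ha => rw [map_inv₀, ha]
    | mul a b _ _ ha hb => rw [map_mul, ha, hb]
  set τ : M ≃ₐ[ratioField x] M := AlgEquiv.ofRingEquiv (f := σ.toRingEquiv)
    (fun z => hfix _ z.2) with hτ
  have hτa : ∀ z, τ z = σ z := fun z => rfl
  have hord : orderOf τ = 2 := by
    apply orderOf_eq_prime
    · ext z
      rw [pow_two, AlgEquiv.mul_apply, hτa, hτa, h2, AlgEquiv.one_apply]
    · intro h
      obtain ⟨z, hz⟩ := h1
      apply hz
      rw [← hτa, h, AlgEquiv.one_apply]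
  have h3 := IntermediateField.finrank_fixedField_eq_card (Subgroup.zpowers τ)
  rw [Nat.card_zpowers, hord] at h3
  have h4 := Module.finrank_mul_finrank (ratioField x)
    (IntermediateField.fixedField (Subgroup.zpowers τ)) M
  rw [h3] at h4
  rw [← h4] at hodd
  exact (Nat.not_even_iff_odd.2 hodd) (even_two.mul_left _)

end

end Pool.Agent.Run7.h490.PF
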