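import Mathlib
import Pool.Agent.Run7.h490.PF6

/-! # Dominant maps of odd degree in which a parameter occurs with three exponents -/

set_option autoImplicit false

namespace Pool.Agent.Run7.h490.PF

open MvPolynomial Pool.Agent.TH314.PD Module Pool.Agent.Y201.C3 IntermediateField
open Pool.Agent.R845.T2 Pool.Agent.R845.E3

noncomputable section

/-- change of sign of a variable -/
def sg {n : ℕ} (j : Fin n) : MvPolynomial (Fin n) ℂ →ₐ[ℂ] MvPolynomial (Fin n) ℂ :=
  aeval fun l => if l = j then -X l else X l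

theorem sg_sg {n : ℕ} (j : Fin n) : (sg j).comp (sg j) = AlgHom.id ℂ _ := by
  apply algHom_ext
  intro l
  rw [AlgHom.comp_apply, AlgHom.id_apply]
  unfold sg
  rw [aeval_X]
  by_cases h : l = j
  · rw [if_pos h, map_neg, aeval_X, if_pos h, neg_neg]
  · rw [if_neg h, aeval_X, if_neg h]

/-- the automorphism -/
def sgE {n : ℕ} (j : Fin n) : MvPolynomial (Fin n) ℂ ≃ₐ[ℂ] MvPolynomial (Fin n) ℂ :=
  AlgEquiv.ofAlgHom (sg j) (sg j) (sg_sg j) (sg_sg j)

theorem sg_parity {n : ℕ} (j : Fin n) (e : ℕ) (G : MvPolynomial (Fin n) ℂ)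
    (hG : ∀ m ∈ G.support, ∃ k, m j = e + 2 * k) : sg j G = (-1) ^ e * G := by
  classical
  conv_rhs => rw [G.as_sum]
  conv_lhs => rw [G.as_sum]
  rw [map_sum, Finset.mul_sum]
  refine Finset.sum_congr rfl fun m hm => ?_
  obtain ⟨k, hk⟩ := hG m hm
  unfold sg
  rw [aeval_monomial, algebraMap_eq, Finsupp.prod_fintype _ _ (fun i => pow_zero _),
    monomial_eq, Finsupp.prod_fintype _ _ (fun i => pow_zero _)]
  have h1 : ∏ i, (if i = j then -X i else X i : MvPolynomial (Fin n) ℂ) ^ m i =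
      (∏ i, (if i = j then (-1 : MvPolynomial (Fin n) ℂ) else 1) ^ m i) * ∏ i, X i ^ m i := by
    rw [← Finset.prod_mul_distrib]
    refine Finset.prod_congr rfl fun i _ => ?_
    rw [← mul_pow]
    congr 1
    split_ifs
    · ring
    · ring
  have h2 : ∏ i, (if i = j then (-1 : MvPolynomial (Fin n) ℂ) else 1) ^ m i = (-1) ^ e := by
    rw [Finset.prod_eq_single j]
    · rw [if_pos rfl, hk, pow_add, pow_mul]
      norm_num
    · intro b _ hb
      rw [if_neg hb, one_pow]
    · intro h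
      exact absurd (Finset.mem_univ j) h
  rw [h1, h2]
  ring

/-- a parameter which occurs with exponents of the same parity only -/
theorem even_exp {N n : ℕ} (G : Fin N → MvPolynomial (Fin n) ℂ) (j : Fin n) (e : ℕ)
    (hG : ∀ i, ∀ m ∈ (G i).support, ∃ k, m j = e + 2 * k) :
    ¬ Odd (finrank (ratioField fun i => algebraMap (MvPolynomial (Fin n) ℂ)
      (FractionRing (MvPolynomial (Fin n) ℂ)) (G i)) (FractionRing (MvPolynomial (Fin n) ℂ))) := by
  set σ : FractionRing (MvPolynomial (Fin n) ℂ) ≃ₐ[ℂ] FractionRing (MvPolynomial (Fin n) ℂ) :=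
    IsFractionRing.algEquivOfAlgEquiv (sgE j) with hσ
  have hσa : ∀ P : MvPolynomial (Fin n) ℂ, σ (algebraMap _ _ P) = algebraMap _ _ (sg j P) :=
    fun P => IsFractionRing.algEquivOfAlgEquiv_algebraMap (sgE j) P
  have hinj : Function.Injective (algebraMap (MvPolynomial (Fin n) ℂ)
      (FractionRing (MvPolynomial (Fin n) ℂ))) :=
    IsFractionRing.injective _ _
  refine even_of_inv _ σ ?_ ⟨algebraMap (MvPolynomial (Fin n) ℂ)
    (FractionRing (MvPolynomial (Fin n) ℂ)) (X j), ?_⟩ ?_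
  · intro z
    obtain ⟨a, b, hb, rfl⟩ := IsFractionRing.div_surjective (MvPolynomial (Fin n) ℂ) z
    have h1 : ∀ P : MvPolynomial (Fin n) ℂ, sg j (sg j P) = P := fun P =>
      congrArg (fun f : MvPolynomial (Fin n) ℂ →ₐ[ℂ] MvPolynomial (Fin n) ℂ => f P) (sg_sg j)
    rw [map_div₀, map_div₀, hσa, hσa, hσa, hσa, h1, h1]
  · intro h
    rw [hσa] at h
    have h1 := hinj h
    unfold sg at h1
    rw [aeval_X, if_pos rfl] at h1
    have h2 : (2 : MvPolynomial (Fin n) ℂ) * X j = 0 := by linear_combination -h1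
    rcases mul_eq_zero.1 h2 with h3 | h3
    · have h4 : (C (2 : ℂ) : MvPolynomial (Fin n) ℂ) = 0 := h3
      rw [C_eq_zero] at h4
      norm_num at h4
    · exact X_ne_zero j h3
  · intro i i'
    rw [map_div₀, hσa, hσa, sg_parity j e _ (hG i), sg_parity j e _ (hG i'), map_mul, map_mul]
    refine mul_div_mul_left _ _ ?_
    intro h0
    have h1 := hinj (h0.trans (map_zero _).symm)
    exact pow_ne_zero e (neg_ne_zero.2 one_ne_zero) h1

/-- **three exponents** -/
theorem three_exp {r n : ℕ} {F : MvPolynomial (Fin (r + 1)) ℂ} (hF : F.IsHomogeneous 3)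
    (hsm : Sm F) (G : Fin (r + 1) → MvPolynomial (Fin n) ℂ) (j : Fin n)
    (hGp : Gp F fun i => algebraMap (MvPolynomial (Fin n) ℂ)
      (FractionRing (MvPolynomial (Fin n) ℂ)) (G i))
    (hodd : Odd (finrank (ratioField fun i => algebraMap (MvPolynomial (Fin n) ℂ)
      (FractionRing (MvPolynomial (Fin n) ℂ)) (G i)) (FractionRing (MvPolynomial (Fin n) ℂ))))
    (e : Fin 3 → ℕ) (h01 : e 0 < e 1) (h12 : e 1 < e 2)
    (hG : ∀ i, ∀ m ∈ (G i).support, ∃ a, m j = e a) :
    e 0 + e 2 = 2 * e 1 ∧ Odd (e 1 - e 0) := by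
  have hfirst : e 0 + e 2 = 2 * e 1 := by
    by_contra hne
    let M := FractionRing (MvPolynomial (Fin n) ℂ)
    let al : MvPolynomial (Fin n) ℂ →ₐ[ℂ] M := IsScalarTower.toAlgHom ℂ _ M
    have hal : Function.Injective al := IsFractionRing.injective (MvPolynomial (Fin n) ℂ) M
    let s : Fin n → M := fun l => al (X l)
    have hs : AlgebraicIndependent ℂ s :=
      (MvPolynomial.algebraicIndependent_X (Fin n) ℂ).map' hal
    obtain ⟨ht, -⟩ := Pool.Agent.Y201.LI.linear_poly s hs j
    have he : Function.Injective e := by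
      intro a b hab
      rcases f3 a with rfl | rfl | rfl <;> rcases f3 b with rfl | rfl | rfl <;>
        first | rfl | (exfalso; omega)
    choose V hV using fun i => poly_exp s j e he (G i) (hG i)
    have hsG : ∀ P : MvPolynomial (Fin n) ℂ, aeval s P = al P := by
      intro P
      have : (aeval s : MvPolynomial (Fin n) ℂ →ₐ[ℂ] M) = al := by
        apply algHom_ext
        intro i
        rw [aeval_X]
      rw [this]
    obtain ⟨T, hT, hFT⟩ := exists_tri F hF
    have hx : ∀ i, al (G i) = ∑ a, s j ^ e a * ((fun a i => V i a) a i : M) := by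
      intro i
      rw [← hsG, hV]
    obtain ⟨W, Q, μ, hW, hQs, hQd, -, -, -, -, hQμ, hlam⟩ := family hF hsm hT hFT
      (fun i => al (G i)) hGp hodd _ (s j) ht (fun a i => V i a) (fun a => s j ^ e a)
      (fun a => pow_mem (mem_adjoin_simple_self _ _) _) hx
    have h1 := old_coord W Q hW (fun a => s j ^ e a) μ hlam hQμ
    have hu : IsUnit W.det := isUnit_iff_ne_zero.2 hW
    have h2 : W⁻¹ * Q * (W⁻¹).transpose = 0 := by
      refine three_pow (s j) ht e h01 h12 hne _ ?_ h1
      unfold Matrix.IsSymm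
      rw [Matrix.transpose_mul, Matrix.transpose_mul, Matrix.transpose_transpose, hQs,
        Matrix.mul_assoc]
    have h3 := congrArg Matrix.det h2
    rw [Matrix.det_mul, Matrix.det_mul, Matrix.det_transpose, Matrix.det_zero] at h3
    have h4 : (W⁻¹).det ≠ 0 := (Matrix.isUnit_nonsing_inv_det W hu).ne_zero
    rcases mul_eq_zero.1 h3 with h5 | h5
    · rcases mul_eq_zero.1 h5 with h6 | h6
      · exact h4 h6
      · exact hQd h6
    · exact h4 h5
  refine ⟨hfirst, ?_⟩
  rw [← Nat.not_even_iff_odd]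
  rintro ⟨k, hk⟩
  apply even_exp G j (e 0) ?_ hodd
  intro i m hm
  obtain ⟨a, ha⟩ := hG i m hm
  rw [ha]
  rcases f3 a with rfl | rfl | rfl
  · exact ⟨0, by omega⟩
  · exact ⟨k, by omega⟩
  · exact ⟨2 * k, by omega⟩

end

end Pool.Agent.Run7.h490.PF
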