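import Pool.Agent.Run7.h490.HY4

/-! Points at which a form takes purely imaginary values, with prescribed real direction. -/

set_option autoImplicit false

namespace Pool.Agent.Run7.h490

open MvPolynomial Filter Topology Metric Set Pool.Agent.K3h53.UG

/-- the leading term of a polynomial in one variable -/
theorem poly_lead (H : Polynomial ℂ) : ∃ K : ℝ, 0 ≤ K ∧ ∀ z : ℂ, 1 ≤ ‖z‖ →
    ‖H.eval z - H.leadingCoeff * z ^ H.natDegree‖ ≤ K * ‖z‖ ^ (H.natDegree - 1) := by
  refine ⟨∑ i ∈ Finset.range H.natDegree, ‖H.coeff i‖,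
    Finset.sum_nonneg fun _ _ => norm_nonneg _, fun z hz => ?_⟩
  rw [Polynomial.eval_eq_sum_range, Finset.sum_range_succ]
  have h1 : ∑ i ∈ Finset.range H.natDegree, H.coeff i * z ^ i +
      H.coeff H.natDegree * z ^ H.natDegree - H.leadingCoeff * z ^ H.natDegree =
      ∑ i ∈ Finset.range H.natDegree, H.coeff i * z ^ i := by
    rw [Polynomial.leadingCoeff]
    ring
  rw [h1, Finset.sum_mul]
  refine (norm_sum_le _ _).trans (Finset.sum_le_sum fun i hi => ?_)
  rw [norm_mul, norm_pow]
  rw [Finset.mem_range] at hi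
  exact mul_le_mul_of_nonneg_left (pow_le_pow_right₀ hz (by omega)) (norm_nonneg _)

/-- a polynomial of degree at least two takes a purely imaginary value at a point of the right half
plane which is not critical -/
theorem half_plane (H : Polynomial ℂ) (he : 2 ≤ H.natDegree) :
    ∃ z : ℂ, 0 < z.re ∧ (H.eval z).re = 0 ∧ H.derivative.eval z ≠ 0 := by
  obtain ⟨e, he'⟩ : ∃ e, e = H.natDegree := ⟨_, rfl⟩
  obtain ⟨c, hc⟩ : ∃ c, c = H.leadingCoeff := ⟨_, rfl⟩
  obtain ⟨K, hK, hH⟩ := poly_lead H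
  rw [← he', ← hc] at hH
  rw [← he'] at he
  have hc0 : c ≠ 0 := by
    rw [hc, Ne, Polynomial.leadingCoeff_eq_zero]
    rintro rfl
    rw [Polynomial.natDegree_zero] at he'
    omega
  have hD0 : H.derivative ≠ 0 := by
    intro h0
    have := Polynomial.derivative_eq_zero.1 h0
    omega
  have heR : (2 : ℝ) ≤ e := by exact_mod_cast he
  -- the three directions
  obtain ⟨A, hA⟩ : ∃ A : ℝ → ℝ, A = fun φ : ℝ =>
    (c * Complex.exp (φ * Complex.I) ^ e).re := ⟨_, rfl⟩
  obtain ⟨φ₁, hφ₁⟩ : ∃ φ₁ : ℝ, φ₁ = 2 * Real.pi / 3 / e := ⟨_, rfl⟩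
  have hφe : (e : ℝ) * φ₁ = 2 * Real.pi / 3 := by
    rw [hφ₁]
    field_simp
  have hφ0 : 0 < φ₁ := by
    rw [hφ₁]
    positivity
  have hφle : φ₁ ≤ Real.pi / 3 := by
    have h1 : 2 * φ₁ ≤ e * φ₁ := mul_le_mul_of_nonneg_right heR hφ0.le
    rw [hφe] at h1
    linarith
  have hexp : ∀ φ : ℝ, Complex.exp (φ * Complex.I) ^ e =
      Complex.exp (((e * φ : ℝ) : ℂ) * Complex.I) := by
    intro φ
    rw [← Complex.exp_nat_mul]
    congr 1
    push_cast
    ring
  have hval : ∀ φ : ℝ, A φ = c.re * Real.cos (e * φ) - c.im * Real.sin (e * φ) := by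
    intro φ
    rw [hA]
    simp only
    rw [hexp, Complex.mul_re, Complex.exp_ofReal_mul_I_re, Complex.exp_ofReal_mul_I_im]
  have hcos : Real.cos (2 * Real.pi / 3) = -(1 / 2) := by
    have : 2 * Real.pi / 3 = Real.pi - Real.pi / 3 := by ring
    rw [this, Real.cos_pi_sub, Real.cos_pi_div_three]
  have hsin : 0 < Real.sin (2 * Real.pi / 3) :=
    Real.sin_pos_of_pos_of_lt_pi (by positivity) (by linarith [Real.pi_pos])
  have hA0 : A 0 = c.re := by
    rw [hval]
    simp
  have hA1 : A φ₁ = -(1 / 2) * c.re - c.im * Real.sin (2 * Real.pi / 3) := by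
    rw [hval, hφe, hcos]
    ring
  have hA2 : A (-φ₁) = -(1 / 2) * c.re + c.im * Real.sin (2 * Real.pi / 3) := by
    rw [hval, mul_neg, hφe, Real.cos_neg, Real.sin_neg, hcos]
    ring
  have hposneg : ∃ a b : ℝ, |a| ≤ Real.pi / 3 ∧ |b| ≤ Real.pi / 3 ∧ 0 < A a ∧ A b < 0 := by
    have h0 : |(0 : ℝ)| ≤ Real.pi / 3 := by
      rw [abs_zero]
      positivity
    have h1 : |φ₁| ≤ Real.pi / 3 := by rwa [abs_of_pos hφ0]
    have h2 : |(-φ₁)| ≤ Real.pi / 3 := by rwa [abs_neg, abs_of_pos hφ0]
    rcases lt_trichotomy c.re 0 with h | h | h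
    · by_cases h3 : 0 < A φ₁
      · exact ⟨φ₁, 0, h1, h0, h3, by rw [hA0]; exact h⟩
      · refine ⟨-φ₁, 0, h2, h0, ?_, by rw [hA0]; exact h⟩
        rw [hA2]
        rw [hA1] at h3
        linarith
    · have him : c.im ≠ 0 := fun h' => hc0 (Complex.ext h h')
      rcases lt_or_gt_of_ne him with h' | h'
      · refine ⟨φ₁, -φ₁, h1, h2, ?_, ?_⟩
        · rw [hA1, h]
          nlinarith
        · rw [hA2, h]
          nlinarith
      · refine ⟨-φ₁, φ₁, h2, h1, ?_, ?_⟩
        · rw [hA2, h]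
          nlinarith
        · rw [hA1, h]
          nlinarith
    · by_cases h3 : A φ₁ < 0
      · exact ⟨0, φ₁, h0, h1, by rw [hA0]; exact h, h3⟩
      · refine ⟨0, -φ₁, h0, h2, by rw [hA0]; exact h, ?_⟩
        rw [hA2]
        rw [hA1] at h3
        linarith
  obtain ⟨a, b, ha, hb, hAa, hAb⟩ := hposneg
  -- the radius
  obtain ⟨r, hr1, hra, hrb, hrr⟩ : ∃ r : ℝ, 1 ≤ r ∧ K < r * A a ∧ K < r * (-A b) ∧
      ∀ z : ℂ, ‖z‖ = r → H.derivative.eval z ≠ 0 := by
    refine ⟨1 + K / A a + K / (-A b) + ∑ z ∈ H.derivative.roots.toFinset, ‖z‖, ?_, ?_, ?_, ?_⟩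
    · have : 0 ≤ ∑ z ∈ H.derivative.roots.toFinset, ‖z‖ :=
        Finset.sum_nonneg fun _ _ => norm_nonneg _
      have h3 : 0 ≤ K / A a := div_nonneg hK hAa.le
      have h4 : 0 ≤ K / (-A b) := div_nonneg hK (by linarith)
      linarith
    · have : 0 ≤ ∑ z ∈ H.derivative.roots.toFinset, ‖z‖ :=
        Finset.sum_nonneg fun _ _ => norm_nonneg _
      have h4 : 0 ≤ K / (-A b) := div_nonneg hK (by linarith)
      have h5 : K / A a * A a = K := div_mul_cancel₀ _ hAa.ne'
      nlinarith
    · have : 0 ≤ ∑ z ∈ H.derivative.roots.toFinset, ‖z‖ :=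
        Finset.sum_nonneg fun _ _ => norm_nonneg _
      have h4 : 0 ≤ K / A a := div_nonneg hK hAa.le
      have h6 : (0 : ℝ) < -A b := by linarith
      have h5 : K / (-A b) * (-A b) = K := div_mul_cancel₀ _ h6.ne'
      nlinarith
    · intro z hz h0
      have h7 : z ∈ H.derivative.roots.toFinset := by
        rw [Multiset.mem_toFinset, Polynomial.mem_roots hD0]
        exact h0
      have h8 : ‖z‖ ≤ ∑ z ∈ H.derivative.roots.toFinset, ‖z‖ :=
        Finset.single_le_sum (f := fun z : ℂ => ‖z‖) (fun _ _ => norm_nonneg _) h7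
      have h3 : 0 ≤ K / A a := div_nonneg hK hAa.le
      have h4 : 0 ≤ K / (-A b) := div_nonneg hK (by linarith)
      linarith
  have hr0 : 0 < r := by linarith
  have hnorm : ∀ φ : ℝ, ‖(r : ℂ) * Complex.exp (φ * Complex.I)‖ = r := by
    intro φ
    rw [norm_mul, Complex.norm_exp_ofReal_mul_I, mul_one, Complex.norm_real, Real.norm_eq_abs,
      abs_of_pos hr0]
  obtain ⟨f, hf⟩ : ∃ f : ℝ → ℝ, f = fun φ : ℝ =>
    (H.eval ((r : ℂ) * Complex.exp (φ * Complex.I))).re := ⟨_, rfl⟩
  have hfc : Continuous f := by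
    rw [hf]
    fun_prop
  have hest : ∀ φ : ℝ, |f φ - r ^ e * A φ| ≤ K * r ^ (e - 1) := by
    intro φ
    have h1 := hH ((r : ℂ) * Complex.exp (φ * Complex.I)) (by rw [hnorm]; exact hr1)
    rw [hnorm] at h1
    refine le_trans ?_ h1
    have h2 : f φ - r ^ e * A φ = (H.eval ((r : ℂ) * Complex.exp (φ * Complex.I)) -
        c * ((r : ℂ) * Complex.exp (φ * Complex.I)) ^ e).re := by
      rw [Complex.sub_re, mul_pow, hf, hA]
      simp only
      congr 1
      have h3 : c * ((r : ℂ) ^ e * Complex.exp (φ * Complex.I) ^ e) =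
          ((r ^ e : ℝ) : ℂ) * (c * Complex.exp (φ * Complex.I) ^ e) := by
        push_cast
        ring
      rw [h3, Complex.re_ofReal_mul]
    rw [h2]
    exact Complex.abs_re_le_norm _
  have hre : r ^ e = r ^ (e - 1) * r := by
    rw [← pow_succ]
    congr 1
    omega
  have hrp : 0 < r ^ (e - 1) := pow_pos hr0 _
  have hfa : 0 < f a := by
    have h1 := (abs_le.1 (hest a)).1
    rw [hre] at h1
    nlinarith
  have hfb : f b < 0 := by
    have h1 := (abs_le.1 (hest b)).2
    rw [hre] at h1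
    nlinarith
  obtain ⟨φ, hφ, hfφ⟩ := intermediate_value_uIcc (a := a) (b := b) (f := f) hfc.continuousOn
    (show (0 : ℝ) ∈ Set.uIcc (f a) (f b) by
      rw [Set.mem_uIcc]
      exact Or.inr ⟨hfb.le, hfa.le⟩)
  have hφ' : |φ| ≤ Real.pi / 3 := by
    rw [Set.mem_uIcc] at hφ
    rw [abs_le] at ha hb ⊢
    rcases hφ with h | h <;> constructor <;> linarith [ha.1, ha.2, hb.1, hb.2, h.1, h.2]
  refine ⟨(r : ℂ) * Complex.exp (φ * Complex.I), ?_, ?_, hrr _ (hnorm φ)⟩
  · rw [Complex.re_ofReal_mul, Complex.exp_ofReal_mul_I_re]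
    refine mul_pos hr0 (Real.cos_pos_of_mem_Ioo ⟨?_, ?_⟩)
    · have := (abs_le.1 hφ').1
      linarith [Real.pi_pos]
    · have := (abs_le.1 hφ').2
      linarith [Real.pi_pos]
  · rw [hf] at hfφ
    exact hfφ

/-- the restriction of a polynomial to a line -/
noncomputable def onLine {n : ℕ} (x v : Fin n → ℂ) : MvPolynomial (Fin n) ℂ →ₐ[ℂ] Polynomial ℂ :=
  aeval fun i => Polynomial.C (x i) + Polynomial.X * Polynomial.C (v i)

theorem eval_onLine {n : ℕ} (x v : Fin n → ℂ) (q : MvPolynomial (Fin n) ℂ) (τ : ℂ) :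
    (onLine x v q).eval τ = eval (x + τ • v) q := by
  have h1 : (Polynomial.evalRingHom τ).comp (onLine x v).toRingHom = eval (x + τ • v) := by
    apply MvPolynomial.ringHom_ext
    · intro a
      simp [onLine]
    · intro i
      simp [onLine]
      ring
  exact congrArg (fun f => f q) (congrArg DFunLike.coe h1)

theorem dd_C {n : ℕ} (v : Fin n → ℂ) (a : ℂ) : dd v (C a) = 0 := by
  unfold dd
  exact Finset.sum_eq_zero fun i _ => by rw [pderiv_C, mul_zero]

theorem dd_X {n : ℕ} (v : Fin n → ℂ) (k : Fin n) : dd v (X k) = C (v k) := by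
  classical
  unfold dd
  rw [Finset.sum_eq_single k]
  · rw [pderiv_X_self, mul_one]
  · intro i _ hi
    rw [pderiv_X, Pi.single_eq_of_ne (Ne.symm hi), mul_zero]
  · intro h
    exact absurd (Finset.mem_univ k) h

theorem derivative_onLine {n : ℕ} (x v : Fin n → ℂ) (q : MvPolynomial (Fin n) ℂ) :
    Polynomial.derivative (onLine x v q) = onLine x v (dd v q) := by
  induction q using MvPolynomial.induction_on with
  | C a =>
    rw [dd_C, map_zero]
    unfold onLine
    rw [aeval_C]
    exact Polynomial.derivative_C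
  | add p q hp hq => rw [map_add, Polynomial.derivative_add, hp, hq, dd_add, map_add]
  | mul_X p i hp =>
    rw [map_mul, Polynomial.derivative_mul, hp, dd_mul, dd_X, map_add, map_mul, map_mul]
    unfold onLine
    rw [aeval_X, aeval_C]
    simp only [Polynomial.derivative_add, Polynomial.derivative_C, Polynomial.derivative_mul,
      Polynomial.derivative_X, Polynomial.algebraMap_eq]
    ring

/-- Euler's identity -/
theorem eval_dd_self {n d : ℕ} (q : MvPolynomial (Fin n) ℂ) (hq : q.IsHomogeneous d)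
    (v : Fin n → ℂ) : eval v (dd v q) = d * eval v q := by
  have h1 := congrArg (eval v) hq.sum_X_mul_pderiv
  rw [map_sum, map_nsmul, nsmul_eq_mul] at h1
  rw [eval_dd_sum, ← h1]
  exact Finset.sum_congr rfl fun i _ => by rw [map_mul, eval_X]

/-- points with purely imaginary values -/
theorem good_point {n m : ℕ} (P : MvPolynomial (Fin n) ℂ) (hP : P.IsHomogeneous m) (hm : 2 ≤ m)
    (v : Fin n → ℝ)
    (h : dd (fun i => (v i : ℂ)) (dd (fun i => (v i : ℂ)) P) ≠ 0 ∨
      (dd (fun i => (v i : ℂ)) P ≠ 0 ∧ ∃ x : Fin n → ℝ,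
        (Complex.I ^ (m - 1) * eval (fun i => (x i : ℂ)) P).im ≠ 0)) :
    ∃ (x : Fin n → ℂ) (t : ℝ), 0 < t ∧ (∀ i, (x i).re = t * v i) ∧ (eval x P).re = 0 ∧
      eval x (dd (fun i => (v i : ℂ)) P) ≠ 0 := by
  obtain ⟨w, hw⟩ : ∃ w : Fin n → ℂ, w = fun i => (v i : ℂ) := ⟨_, rfl⟩
  rw [← hw] at h ⊢
  have hI : ∀ (k : ℕ) (q : MvPolynomial (Fin n) ℂ), q.IsHomogeneous k → ∀ ζ : Fin n → ℝ,
      eval (fun i => Complex.I * (ζ i : ℂ)) q = Complex.I ^ k * eval (fun i => (ζ i : ℂ)) q := by
    intro k q hq ζ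
    exact eval_hsmul q hq Complex.I _
  have hre : ∀ (ζ : Fin n → ℝ) (z : ℂ) (i : Fin n),
      (((fun i => Complex.I * (ζ i : ℂ)) + z • w) i).re = z.re * v i := by
    intro ζ z i
    rw [hw]
    simp
  have h1h := dd_homog w P hP
  by_cases h2 : dd w (dd w P) = 0
  · rw [or_iff_right (not_not.2 h2)] at h
    obtain ⟨h1, x₀, hx₀⟩ := h
    by_contra hcon
    push Not at hcon
    -- the values on lines
    have key : ∀ ζ : Fin n → ℝ, eval (fun i => (ζ i : ℂ)) (dd w P) ≠ 0 →
        ((Complex.I ^ (m - 1) * eval (fun i => (ζ i : ℂ)) (dd w P)).im = 0) ∧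
        0 ≤ (Complex.I ^ (m - 1) * eval (fun i => (ζ i : ℂ)) (dd w P)).re *
          (Complex.I ^ m * eval (fun i => (ζ i : ℂ)) P).re := by
      intro ζ hζ
      obtain ⟨α, hα⟩ : ∃ α, α = Complex.I ^ (m - 1) * eval (fun i => (ζ i : ℂ)) (dd w P) :=
        ⟨_, rfl⟩
      obtain ⟨β, hβ⟩ : ∃ β, β = Complex.I ^ m * eval (fun i => (ζ i : ℂ)) P := ⟨_, rfl⟩
      rw [← hα, ← hβ]
      have hα0 : α ≠ 0 := by
        rw [hα]
        exact mul_ne_zero (pow_ne_zero _ Complex.I_ne_zero) hζ
      have hdl : ∀ z : ℂ, eval ((fun i => Complex.I * (ζ i : ℂ)) + z • w) (dd w P) = α := by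
        intro z
        rw [← eval_onLine]
        have h3 : Polynomial.derivative (onLine (fun i => Complex.I * (ζ i : ℂ)) w (dd w P)) =
            0 := by
          rw [derivative_onLine, h2, map_zero]
        rw [Polynomial.eq_C_of_derivative_eq_zero h3, Polynomial.eval_C,
          ← Polynomial.eval_C (x := (0 : ℂ)) (a := Polynomial.coeff _ 0),
          ← Polynomial.eq_C_of_derivative_eq_zero h3, eval_onLine, zero_smul, add_zero,
          hI (m - 1) _ h1h, hα]
      have hPl : ∀ z : ℂ, eval ((fun i => Complex.I * (ζ i : ℂ)) + z • w) P = α * z + β := by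
        intro z
        rw [← eval_onLine]
        obtain ⟨Q, hQ⟩ : ∃ Q, Q = onLine (fun i => Complex.I * (ζ i : ℂ)) w P -
          (Polynomial.C α * Polynomial.X + Polynomial.C β) := ⟨_, rfl⟩
        have h4 : Polynomial.derivative Q = 0 := by
          rw [hQ, Polynomial.derivative_sub, derivative_onLine]
          apply Polynomial.funext
          intro z
          rw [Polynomial.eval_sub, eval_onLine, hdl]
          simp
        have h5 := Polynomial.eq_C_of_derivative_eq_zero h4
        have h6 : Q.coeff 0 = 0 := by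
          rw [Polynomial.coeff_zero_eq_eval_zero, hQ, Polynomial.eval_sub, eval_onLine, zero_smul,
            add_zero, hI m _ hP, ← hβ]
          simp
        rw [h6, map_zero] at h5
        have h7 : Q.eval z = 0 := by rw [h5, Polynomial.eval_zero]
        rw [hQ, Polynomial.eval_sub, sub_eq_zero] at h7
        rw [h7]
        simp
      have hno : ∀ z : ℂ, 0 < z.re → (α * z + β).re ≠ 0 := by
        intro z hz h0
        have h3 := hcon ((fun i => Complex.I * (ζ i : ℂ)) + z • w) z.re hz (hre ζ z) (by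
          rw [hPl]
          exact h0)
        rw [hdl] at h3
        exact hα0 h3
      have him : α.im = 0 := by
        by_contra hne
        apply hno (1 + ((α.re + β.re) / α.im : ℝ) * Complex.I)
        · simp
        · simp only [Complex.add_re, Complex.mul_re, Complex.one_re, Complex.ofReal_re,
            Complex.I_re, Complex.ofReal_im, Complex.I_im, Complex.add_im, Complex.one_im,
            Complex.mul_im]
          field_simp
          ring
      refine ⟨him, ?_⟩
      by_contra hneg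
      push Not at hneg
      have hare : α.re ≠ 0 := fun h0 => hα0 (Complex.ext h0 him)
      apply hno ((-β.re / α.re : ℝ) : ℂ)
      · rw [Complex.ofReal_re]
        have h3 : -β.re / α.re = -(α.re * β.re) / (α.re ^ 2) := by
          field_simp
        rw [h3]
        exact div_pos (by linarith) (by positivity)
      · rw [Complex.add_re, Complex.mul_re, Complex.ofReal_re, Complex.ofReal_im]
        field_simp
        ring
    have key2 : ∀ ζ : Fin n → ℝ, eval (fun i => (ζ i : ℂ)) (dd w P) ≠ 0 →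
        (Complex.I ^ m * eval (fun i => (ζ i : ℂ)) P).re = 0 := by
      intro ζ hζ
      obtain ⟨h3, h4⟩ := key ζ hζ
      have hneg : ∀ (k : ℕ) (q : MvPolynomial (Fin n) ℂ), q.IsHomogeneous k →
          eval (fun i => ((-ζ i : ℝ) : ℂ)) q = (-1) ^ k * eval (fun i => (ζ i : ℂ)) q := by
        intro k q hq
        have h5 := eval_hsmul q hq (-1) fun i => (ζ i : ℂ)
        rw [← h5]
        congr 2
        funext i
        simp
      have hn1 := hneg (m - 1) _ h1h
      have hn2 := hneg m _ hP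
      obtain ⟨h5, h6⟩ := key (fun i => -ζ i) (by
        rw [hn1]
        exact mul_ne_zero (pow_ne_zero _ (by norm_num)) hζ)
      rw [hn1, hn2] at h6
      obtain ⟨α, hα⟩ : ∃ α, α = Complex.I ^ (m - 1) * eval (fun i => (ζ i : ℂ)) (dd w P) :=
        ⟨_, rfl⟩
      obtain ⟨β, hβ⟩ : ∃ β, β = Complex.I ^ m * eval (fun i => (ζ i : ℂ)) P := ⟨_, rfl⟩
      have hα0 : α ≠ 0 := by
        rw [hα]
        exact mul_ne_zero (pow_ne_zero _ Complex.I_ne_zero) hζ
      have e1 : Complex.I ^ (m - 1) * ((-1) ^ (m - 1) * eval (fun i => (ζ i : ℂ)) (dd w P)) =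
          (((-1) ^ (m - 1) : ℝ) : ℂ) * α := by
        rw [hα]
        push_cast
        ring
      have e2 : Complex.I ^ m * ((-1) ^ m * eval (fun i => (ζ i : ℂ)) P) =
          (((-1) ^ m : ℝ) : ℂ) * β := by
        rw [hβ]
        push_cast
        ring
      rw [e1, e2, Complex.re_ofReal_mul, Complex.re_ofReal_mul] at h6
      have e3 : ((-1 : ℝ) ^ (m - 1) * α.re) * ((-1) ^ m * β.re) = -(α.re * β.re) := by
        obtain ⟨k, rfl⟩ : ∃ k, m = k + 1 := ⟨m - 1, by omega⟩
        rw [Nat.add_sub_cancel, pow_succ]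
        have : ((-1 : ℝ) ^ k) * (-1) ^ k = 1 := by
          rw [← pow_add, ← two_mul, pow_mul]
          simp
        calc ((-1 : ℝ) ^ k * α.re) * ((-1) ^ k * (-1) * β.re) =
            (((-1 : ℝ) ^ k) * (-1) ^ k) * (-(α.re * β.re)) := by ring
          _ = _ := by rw [this, one_mul]
      rw [e3] at h6
      rw [← hα, ← hβ] at h4
      rw [← hα] at h3
      have hare : α.re ≠ 0 := fun h0 => hα0 (Complex.ext h0 h3)
      rw [← hβ]
      have h7 : α.re * β.re = 0 := by linarith
      exact (mul_eq_zero.1 h7).resolve_left hare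
    -- so the form is real
    obtain ⟨G, hG⟩ : ∃ G, G = C (Complex.I ^ (m - 1)) * P := ⟨_, rfl⟩
    have h3 : (G - cj G) * dd w P = 0 := by
      by_contra hne
      obtain ⟨ζ, hζ⟩ := exists_real hne
      rw [map_mul, map_sub] at hζ
      have h4 := key2 ζ (right_ne_zero_of_mul hζ)
      apply left_ne_zero_of_mul hζ
      rw [eval_cj]
      simp only [Complex.conj_ofReal]
      rw [sub_eq_zero]
      symm
      rw [Complex.conj_eq_iff_im, hG, map_mul, eval_C]
      have h5 : Complex.I ^ m * eval (fun i => (ζ i : ℂ)) P =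
          Complex.I * (Complex.I ^ (m - 1) * eval (fun i => (ζ i : ℂ)) P) := by
        rw [← mul_assoc, ← pow_succ']
        congr 2
        omega
      rw [h5, Complex.mul_re, Complex.I_re, Complex.I_im] at h4
      linarith
    have h4 : G - cj G = 0 := (mul_eq_zero.1 h3).resolve_right h1
    have h5 := congrArg (eval fun i => (x₀ i : ℂ)) h4
    rw [map_sub, eval_cj, map_zero, sub_eq_zero] at h5
    simp only [Complex.conj_ofReal] at h5
    have h6 := Complex.conj_eq_iff_im.1 h5.symm
    apply hx₀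
    rw [hG, map_mul, eval_C] at h6
    exact h6
  · obtain ⟨ζ, hζ⟩ := exists_real h2
    obtain ⟨H, hH⟩ : ∃ H, H = onLine (fun i => Complex.I * (ζ i : ℂ)) w P := ⟨_, rfl⟩
    have hdeg : 2 ≤ H.natDegree := by
      by_contra hlt
      have h3 : Polynomial.derivative (Polynomial.derivative H) = 0 := by
        have := Polynomial.iterate_derivative_eq_zero (p := H) (x := 2) (by omega)
        exact this
      have h4 : (Polynomial.derivative (Polynomial.derivative H)).eval 0 =
          Complex.I ^ (m - 1 - 1) * eval (fun i => (ζ i : ℂ)) (dd w (dd w P)) := by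
        rw [hH, derivative_onLine, derivative_onLine, eval_onLine, zero_smul, add_zero,
          hI _ _ (dd_homog w _ h1h)]
      rw [h3, Polynomial.eval_zero] at h4
      exact mul_ne_zero (pow_ne_zero _ Complex.I_ne_zero) hζ h4.symm
    obtain ⟨z, hz1, hz2, hz3⟩ := half_plane H hdeg
    rw [hH, eval_onLine] at hz2
    rw [hH, derivative_onLine, eval_onLine] at hz3
    exact ⟨_, z.re, hz1, hre ζ z, hz2, hz3⟩

end Pool.Agent.Run7.h490
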