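import Pool.Agent.Run7.h490.GR1
import Pool.Agent.K3h64.UG.COR2
import Pool.Agent.K3h53.UG.Fin11

/-! Exponential points on varieties over graphs of polynomials. -/

set_option autoImplicit false

namespace Pool.Agent.Run7.h490

open MvPolynomial Filter Topology Metric Set Pool.Agent.K3h22.EX Pool.Agent.K3h53.UG

/-- a polynomial in which one variable does not occur -/
theorem eval_off {n : ℕ} (J : Fin n) (q : MvPolynomial (Fin n) ℂ) (hJ : J ∉ q.vars)
    (a b : Fin n → ℂ) (h : ∀ i, i ≠ J → a i = b i) : eval a q = eval b q := by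
  rw [eval_eq', eval_eq']
  refine Finset.sum_congr rfl fun m hm => ?_
  congr 1
  refine Finset.prod_congr rfl fun i _ => ?_
  by_cases hi : i = J
  · have h1 : m J = 0 := by
      by_contra h0
      exact hJ ((mem_vars_iff_mem_support J).2 ⟨m, hm, Finsupp.mem_support_iff.2 h0⟩)
    rw [hi, h1, pow_zero, pow_zero]
  · rw [h i hi]

theorem dd_off {n : ℕ} (J : Fin n) (q : MvPolynomial (Fin n) ℂ) (hJ : J ∉ q.vars)
    (a b v : Fin n → ℂ) (h : ∀ i, i ≠ J → a i = b i) :
    eval a (dd v q) = eval b (dd v q) := by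
  have h1 : onLine a v q = onLine b v q := by
    apply Polynomial.funext
    intro τ
    rw [eval_onLine, eval_onLine]
    refine eval_off J q hJ _ _ fun i hi => ?_
    simp only [Pi.add_apply]
    rw [h i hi]
  have h2 := congrArg (fun Q => (Polynomial.derivative Q).eval 0) h1
  simp only [derivative_onLine, eval_onLine, zero_smul, add_zero] at h2
  exact h2

theorem vars_top {n : ℕ} (q : MvPolynomial (Fin n) ℂ) (J : Fin n) (hJ : J ∉ q.vars) :
    J ∉ (top q).vars := by
  intro h
  obtain ⟨m, hm, hmJ⟩ := (mem_vars_iff_mem_support J).1 h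
  apply hJ
  refine (mem_vars_iff_mem_support J).2 ⟨m, ?_, hmJ⟩
  rw [mem_support_iff] at hm ⊢
  intro h0
  apply hm
  unfold top
  rw [coeff_homogeneousComponent, h0, ite_self]

theorem wtop_one' {n : ℕ} (w : Fin n → ℕ) : wtop w (1 : MvPolynomial (Fin n) ℂ) = 1 := by
  classical
  have h0 : weightedTotalDegree w (1 : MvPolynomial (Fin n) ℂ) = 0 := by
    unfold weightedTotalDegree
    rw [← Nat.bot_eq_zero, Finset.sup_eq_bot_iff]
    intro m hm
    rw [mem_support_iff, coeff_one] at hm
    have h1 : m = 0 := by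
      by_contra h
      exact hm (if_neg (Ne.symm h))
    rw [h1, map_zero]
    rfl
  unfold wtop
  rw [h0]
  ext m
  rw [coeff_weightedHomogeneousComponent, coeff_one]
  split_ifs with h1 h2 h2
  · rfl
  · rfl
  · exfalso
    apply h1
    rw [← h2, map_zero]
  · rfl

/-- the theorem for graphs of polynomials -/
theorem geGraph {n : ℕ} (J : Fin n) (p : MvPolynomial (Fin n) ℂ) (hJ : J ∉ p.vars)
    (hm : 2 ≤ p.totalDegree)
    (hcond : ∀ v : Fin n → ℚ, v ≠ 0 → v J = 0 →
      dd (fun i => (v i : ℂ)) (dd (fun i => (v i : ℂ)) (top p)) ≠ 0 ∨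
      (dd (fun i => (v i : ℂ)) (top p) ≠ 0 ∧ ∃ x : Fin n → ℝ,
        (Complex.I ^ (p.totalDegree - 1) * eval (fun i => (x i : ℂ)) (top p)).im ≠ 0))
    (P : Ideal (MvPolynomial (Fin n ⊕ Fin n) ℂ)) (V : Set (Fin n ⊕ Fin n → ℂ)) (hP : P.IsPrime)
    (hV : V = {p | (∀ f ∈ P, eval p f = 0) ∧ ∀ j : Fin n, p (Sum.inr j) ≠ 0})
    (hne : V.Nonempty) (hg : ∀ u ∈ V, u (Sum.inl J) = eval (fun i => u (Sum.inl i)) p)
    (k : Fin n) (hk : k ≠ J)
    (hind : Indep V (insert (Sum.inr k) ((Finset.univ.erase J).image Sum.inl)))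
    (c : Fin n ⊕ Fin n → ℂ) (hc : ∀ i, c (Sum.inr i) ≠ 0)
    (H : MvPolynomial (Fin n ⊕ Fin n) ℂ)
    (hHV : ∃ u ∈ V, eval (Sum.elim (fun i => u (Sum.inl i) + c (Sum.inl i))
      (fun i => c (Sum.inr i) * u (Sum.inr i))) H ≠ 0) :
    ∃ z : Fin n → ℂ, (∃ u ∈ V, (Sum.elim z fun i => Complex.exp (z i) :
      Fin n ⊕ Fin n → ℂ) = Sum.elim (fun i => u (Sum.inl i) + c (Sum.inl i))
        (fun i => c (Sum.inr i) * u (Sum.inr i))) ∧
      eval (Sum.elim z fun i => Complex.exp (z i)) H ≠ 0 := by
  classical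
  obtain ⟨s, rfl⟩ : ∃ s, n = s + 1 := ⟨n - 1, by
    have := J.2
    omega⟩
  have hXi : ∀ G : MvPolynomial (Fin (s + 1)) ℂ, G.vars ⊆ Finset.univ.erase J →
      (∀ u ∈ V, eval (fun i => u (Sum.inl i)) G = 0) → G = 0 := by
    intro G hG hGV
    have h1 : rename (Sum.inl : Fin (s + 1) → Fin (s + 1) ⊕ Fin (s + 1)) G = 0 := by
      apply hind
      · refine (vars_rename _ _).trans ?_
        intro x hx
        obtain ⟨a, ha, rfl⟩ := Finset.mem_image.1 hx
        exact Finset.mem_insert_of_mem (Finset.mem_image_of_mem _ (hG ha))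
      · intro u hu
        rw [eval_rename]
        exact hGV u hu
    exact rename_injective _ Sum.inl_injective (by rw [h1, map_zero])
  have hXc : (Finset.univ.erase J : Finset (Fin (s + 1))).card = s := by
    rw [Finset.card_erase_of_mem (Finset.mem_univ J), Finset.card_univ, Fintype.card_fin]
    omega
  have hF0 : (X J - p : MvPolynomial (Fin (s + 1)) ℂ) ≠ 0 := by
    intro h0
    rw [sub_eq_zero] at h0
    apply hJ
    rw [← h0, vars_X]
    exact Finset.mem_singleton_self J
  have hX2 : ∀ K : Finset (Fin (s + 1)), K.card = s + 1 → ¬ ∀ G : MvPolynomial (Fin (s + 1)) ℂ,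
      G.vars ⊆ K → (∀ u ∈ V, eval (fun i => u (Sum.inl i)) G = 0) → G = 0 := by
    intro K hK hcon
    have hKu : K = Finset.univ := by
      rw [← Finset.card_eq_iff_eq_univ, Fintype.card_fin, hK]
    apply hF0
    apply hcon
    · rw [hKu]
      exact Finset.subset_univ _
    · intro u hu
      rw [map_sub, eval_X, sub_eq_zero]
      exact hg u hu
  obtain ⟨w, hw⟩ : ∃ w : Fin (s + 1) → ℕ, w = fun j => if j = J then p.totalDegree else 1 :=
    ⟨_, rfl⟩
  have hwJ : w J = p.totalDegree := by rw [hw]; exact if_pos rfl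
  have hwj : ∀ j, j ≠ J → w j = 1 := fun j hj => by rw [hw]; exact if_neg hj
  have hw1 : ∀ j, w j = 1 ↔ j ≠ J := by
    intro j
    constructor
    · rintro h rfl
      rw [hwJ] at h
      omega
    · exact hwj j
  have hpv : ∀ j ∈ p.vars, w j = 1 := fun j hj => hwj j fun h => hJ (h ▸ hj)
  have htop : wtop w (X J - p) = X J - top p :=
    Pool.Agent.K3h64.UG.wtop_graph w J p hwJ hJ hpv
  have hth : (top p).IsHomogeneous p.totalDegree := homogeneousComponent_isHomogeneous _ _
  have htJ := vars_top p J hJ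
  refine geCrit (s := s) (r := 1) rfl P V hP hV hne ⟨_, hXc, hXi⟩ hX2 (fun _ : Fin 1 => k)
    (fun a b _ => Subsingleton.elim a b) ?_ w ?_ (fun _ => hwj k hk) (fun _ => X J - p) 1 ?_
    {ρ : Fin 1 → ℝ | 0 < ρ 0} ?_ ?_ ?_ c hc H hHV
  · refine (fibre_iff P V hP hV hne hX2 (Finset.univ.erase J) hXc hXi (fun _ : Fin 1 => k)
      (fun a b _ => Subsingleton.elim a b)).2 ?_
    intro f hf
    apply hind f
    refine hf.trans ?_
    intro x hx
    rcases Finset.mem_union.1 hx with h | h
    · exact Finset.mem_insert_of_mem h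
    · obtain ⟨b, -, rfl⟩ := Finset.mem_image.1 h
      exact Finset.mem_insert_self _ _
  · intro i
    by_cases hi : i = J
    · rw [hi, hwJ]
      omega
    · rw [hwj i hi]
  · intro x hx _ G hG
    have hxJ : x J = eval x p := by
      have := hx 0
      rw [map_sub, eval_X, sub_eq_zero] at this
      exact this
    obtain ⟨f, hf⟩ : ∃ f : Fin (s + 1) → MvPolynomial (Fin (s + 1)) ℂ,
      f = fun i => if i = J then p else X i := ⟨_, rfl⟩
    have hev : ∀ y : Fin (s + 1) → ℂ, y J = eval y p → eval y (bind₁ f G) = eval y G := by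
      intro y hy
      have h1 : (eval y).comp (bind₁ f).toRingHom = eval y := by
        apply MvPolynomial.ringHom_ext
        · intro a
          simp
        · intro i
          simp only [AlgHom.toRingHom_eq_coe, RingHom.coe_comp, RingHom.coe_coe,
            Function.comp_apply, bind₁_X_right, eval_X]
          rw [hf]
          by_cases hi : i = J
          · simp only [hi, if_true]
            exact hy.symm
          · simp only [hi, if_false, eval_X]
      exact congrArg (fun g => g G) (congrArg DFunLike.coe h1)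
    have h0 : bind₁ f G = 0 := by
      apply hXi
      · refine (vars_bind₁ f G).trans ?_
        intro j hj
        obtain ⟨i, -, hij⟩ := Finset.mem_biUnion.1 hj
        rw [Finset.mem_erase]
        refine ⟨?_, Finset.mem_univ _⟩
        rintro rfl
        rw [hf] at hij
        by_cases hi : i = j
        · simp only [hi, if_true] at hij
          exact hJ hij
        · simp only [hi, if_false, vars_X, Finset.mem_singleton] at hij
          exact hi hij.symm
      · intro u hu
        rw [hev _ (hg u hu)]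
        exact hG u hu
    rw [← hev x hxJ, h0, map_zero]
  · exact isOpen_lt continuous_const (continuous_apply 0)
  · exact ⟨fun _ => 1, by
      show (0 : ℝ) < 1
      norm_num⟩
  · intro S hS ρ hρ
    have hρ0 : 0 < ρ 0 := hρ
    apply subset_closure
    obtain ⟨v, hv⟩ : ∃ v : Fin (s + 1) → ℚ, v = fun j => if j = J then 0 else S j 0 := ⟨_, rfl⟩
    have hvJ : v J = 0 := by rw [hv]; exact if_pos rfl
    have hvj : ∀ j, j ≠ J → v j = S j 0 := fun j hj => by rw [hv]; exact if_neg hj
    have hv0 : v ≠ 0 := by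
      intro h0
      have h1 := congrFun h0 k
      rw [hvj k hk, Pi.zero_apply, hS 0 0, if_pos rfl] at h1
      exact one_ne_zero h1
    have hvc : (fun i => (((v i : ℚ) : ℝ) : ℂ)) = fun i => ((v i : ℚ) : ℂ) := by
      funext i
      push_cast
      rfl
    obtain ⟨x, t, ht, hx1, hx2, hx3⟩ := good_point (top p) hth hm (fun i => ((v i : ℚ) : ℝ)) (by
      rw [hvc]
      exact hcond v hv0 hvJ)
    rw [hvc] at hx3
    obtain ⟨c', hc'⟩ : ∃ c' : ℝ, c' = ρ 0 / t := ⟨_, rfl⟩
    have hc'0 : 0 < c' := by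
      rw [hc']
      positivity
    have hcc : (c' : ℂ) ≠ 0 := by exact_mod_cast hc'0.ne'
    obtain ⟨z, hz⟩ : ∃ z : Fin (s + 1) → ℂ, z = fun j => if j = J then
      eval ((c' : ℂ) • x) (top p) else ((c' : ℂ) • x) j := ⟨_, rfl⟩
    have hzJ : z J = eval ((c' : ℂ) • x) (top p) := by rw [hz]; exact if_pos rfl
    have hzj : ∀ j, j ≠ J → z j = ((c' : ℂ) • x) j := fun j hj => by rw [hz]; exact if_neg hj
    have hzt : eval z (top p) = eval ((c' : ℂ) • x) (top p) := eval_off J _ htJ _ _ hzj
    refine ⟨z, fun _ => ?_, ?_, fun j => ?_, ?_⟩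
    · rw [htop, map_sub, eval_X, hzt, hzJ, sub_self]
    · rw [wtop_one', map_one]
      exact one_ne_zero
    · by_cases hj : j = J
      · rw [if_neg (by rw [hw1]; exact not_not.2 hj), hj, hzJ, eval_hsmul _ hth,
          ← Complex.ofReal_pow, Complex.re_ofReal_mul, hx2, mul_zero]
      · rw [if_pos ((hw1 j).2 hj), hzj j hj, Pi.smul_apply, smul_eq_mul, Complex.re_ofReal_mul,
          hx1, Finset.univ_unique, Finset.sum_singleton, hvj j hj, hc']
        have hdef : (default : Fin 1) = 0 := rfl
        rw [hdef]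
        field_simp
    · rw [Matrix.det_unique, Matrix.of_apply]
      have hdef : (default : Fin 1) = 0 := rfl
      rw [hdef]
      have h1 : (∑ j, if w j = 1 then
          (S j 0 : ℂ) * eval z (pderiv j (wtop w (X J - p))) else 0) =
          -eval z (dd (fun i => ((v i : ℚ) : ℂ)) (top p)) := by
        rw [eval_dd_sum, ← Finset.sum_neg_distrib]
        refine Finset.sum_congr rfl fun j _ => ?_
        by_cases hj : j = J
        · rw [if_neg (by rw [hw1]; exact not_not.2 hj), hj, hvJ]
          simp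
        · rw [if_pos ((hw1 j).2 hj), htop, map_sub, map_sub, pderiv_X,
            Pi.single_eq_of_ne (fun h => hj h.symm), map_zero, zero_sub, hvj j hj]
          ring
      rw [h1, neg_ne_zero, dd_off J _ htJ z ((c' : ℂ) • x) _ hzj,
        eval_hsmul _ (dd_homog _ _ hth)]
      exact mul_ne_zero (pow_ne_zero _ hcc) hx3

end Pool.Agent.Run7.h490
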