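import Pool.Agent.Run7.h490.GR2

/-! Criteria for admissible polynomials. -/

set_option autoImplicit false

namespace Pool.Agent.Run7.h490

open MvPolynomial Pool.Agent.K3h22.EX Pool.Agent.K3h53.UG

theorem pcomm {n : ℕ} (i j : Fin n) (T : MvPolynomial (Fin n) ℂ) :
    pderiv i (pderiv j T) = pderiv j (pderiv i T) := by
  have h : ⁅(pderiv i : Derivation ℂ (MvPolynomial (Fin n) ℂ) (MvPolynomial (Fin n) ℂ)),
      (pderiv j : Derivation ℂ (MvPolynomial (Fin n) ℂ) (MvPolynomial (Fin n) ℂ))⁆ = 0 := by
    apply MvPolynomial.derivation_ext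
    intro k
    rw [Derivation.commutator_apply, pderiv_X, pderiv_X, Pi.single_apply, Pi.single_apply]
    split_ifs <;> simp
  have h1 := congrArg (fun D => D T) h
  simp only [Derivation.commutator_apply, Derivation.coe_zero, Pi.zero_apply] at h1
  exact sub_eq_zero.1 h1

theorem dd_pderiv {n : ℕ} (v : Fin n → ℂ) (j : Fin n) (T : MvPolynomial (Fin n) ℂ) :
    dd v (pderiv j T) = pderiv j (dd v T) := by
  unfold dd
  rw [map_sum]
  refine Finset.sum_congr rfl fun i _ => ?_
  rw [Derivation.leibniz, pderiv_C, smul_zero, add_zero, smul_eq_mul, pcomm]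

/-- no rational zeros -/
theorem adm_of_ne {n m : ℕ} (P : MvPolynomial (Fin n) ℂ) (hP : P.IsHomogeneous m) (hm : 2 ≤ m)
    (v : Fin n → ℂ) (hv : eval v P ≠ 0) : dd v (dd v P) ≠ 0 := by
  intro h0
  have h1 := eval_dd_self _ (dd_homog v P hP) v
  rw [h0, map_zero, eval_dd_self P hP v] at h1
  have h2 : ((m - 1 : ℕ) : ℂ) ≠ 0 := by
    rw [Nat.cast_ne_zero]
    omega
  have h3 : (m : ℂ) ≠ 0 := by
    rw [Nat.cast_ne_zero]
    omega
  exact mul_ne_zero h2 (mul_ne_zero h3 hv) h1.symm

/-- smooth forms of degree at least three -/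
theorem adm_of_smooth {n m : ℕ} (P : MvPolynomial (Fin n) ℂ) (hP : P.IsHomogeneous m)
    (hm : 3 ≤ m) (v : Fin n → ℂ) (j : Fin n) (hv : eval v (pderiv j P) ≠ 0) :
    dd v (dd v P) ≠ 0 := by
  intro h0
  have h1 : (pderiv j P).IsHomogeneous (m - 1) := hP.pderiv
  have h2 : dd v (dd v (pderiv j P)) = 0 := by
    rw [dd_pderiv, dd_pderiv, h0, map_zero]
  exact adm_of_ne _ h1 (by omega) v hv h2

/-- real forms of even degree -/
theorem adm_of_real {n m : ℕ} (P : MvPolynomial (Fin n) ℂ) (hm : Even m) (hm0 : 2 ≤ m)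
    (hP0 : P ≠ 0) (hre : ∀ x : Fin n → ℝ, (eval (fun i => (x i : ℂ)) P).im = 0) :
    ∃ x : Fin n → ℝ, (Complex.I ^ (m - 1) * eval (fun i => (x i : ℂ)) P).im ≠ 0 := by
  obtain ⟨x, hx⟩ := exists_real hP0
  refine ⟨x, ?_⟩
  have h1 : (eval (fun i => (x i : ℂ)) P).re ≠ 0 := fun h => hx (Complex.ext h (hre x))
  obtain ⟨k, rfl⟩ : ∃ k, m = 2 * (k + 1) := by
    obtain ⟨k, rfl⟩ := hm
    exact ⟨k - 1, by omega⟩
  have h2 : 2 * (k + 1) - 1 = 2 * k + 1 := by omega
  rw [h2, pow_succ, pow_mul, Complex.I_sq]
  have h3 : ((-1 : ℂ)) ^ k = (((-1) ^ k : ℝ) : ℂ) := by push_cast; rfl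
  rw [h3, mul_assoc, Complex.im_ofReal_mul, Complex.mul_im, Complex.I_re, Complex.I_im, zero_mul,
    one_mul, zero_add]
  exact mul_ne_zero (pow_ne_zero _ (by norm_num)) h1

/-- the exponents of the monomials of degree at most `d` without the variable `J` -/
def expOff (n d : ℕ) (J : Fin n) : Finset (Fin n →₀ ℕ) :=
  ((Finset.range (d + 1)).biUnion fun k => Finset.finsuppAntidiag Finset.univ k).filter
    fun m => m J = 0

theorem mem_expOff {n d : ℕ} (J : Fin n) (m : Fin n →₀ ℕ) :
    m ∈ expOff n d J ↔ m.degree ≤ d ∧ m J = 0 := by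
  classical
  unfold expOff
  rw [Finset.mem_filter, Finset.mem_biUnion]
  refine and_congr_left fun _ => ?_
  constructor
  · rintro ⟨k, hk, hm⟩
    rw [Finset.mem_finsuppAntidiag] at hm
    rw [Finset.mem_range] at hk
    rw [Finsupp.degree_eq_sum, hm.1]
    omega
  · intro hm
    refine ⟨m.degree, Finset.mem_range.2 (by omega), ?_⟩
    rw [Finset.mem_finsuppAntidiag]
    exact ⟨(Finsupp.degree_eq_sum m).symm, Finset.subset_univ _⟩

/-- the polynomial with the coefficients `a m` -/
noncomputable def polyOff {n d : ℕ} (J : Fin n) (a : {m // m ∈ expOff n d J} → ℂ) :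
    MvPolynomial (Fin n) ℂ :=
  ∑ m : {m // m ∈ expOff n d J}, monomial m.1 (a m)

theorem coeff_polyOff {n d : ℕ} (J : Fin n) (a : {m // m ∈ expOff n d J} → ℂ)
    (m : Fin n →₀ ℕ) : coeff m (polyOff J a) = if h : m ∈ expOff n d J then a ⟨m, h⟩ else 0 := by
  classical
  unfold polyOff
  rw [coeff_sum]
  simp only [coeff_monomial]
  split_ifs with h
  · rw [Finset.sum_eq_single ⟨m, h⟩]
    · rw [if_pos rfl]
    · intro b _ hb
      rw [if_neg fun h' => hb (Subtype.ext h')]
    · intro h'
      exact absurd (Finset.mem_univ _) h'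
  · refine Finset.sum_eq_zero fun b _ => ?_
    rw [if_neg]
    intro h'
    apply h
    rw [← h']
    exact b.2

/-- polynomials with coefficients which are linearly independent over the rationals -/
theorem adm_gen {n d : ℕ} (hn : 2 ≤ n) (J : Fin n)
    (a : {m // m ∈ expOff n d J} → ℂ) (ha : LinearIndependent ℚ a) :
    J ∉ (polyOff J a).vars ∧ (polyOff J a).totalDegree = d ∧
      ∀ v : Fin n → ℚ, v ≠ 0 → v J = 0 → eval (fun i => (v i : ℂ)) (top (polyOff J a)) ≠ 0 := by
  classical
  have hvars : J ∉ (polyOff J a).vars := by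
    intro h
    obtain ⟨m, hm, hmJ⟩ := (mem_vars_iff_mem_support J).1 h
    rw [mem_support_iff, coeff_polyOff] at hm
    split_ifs at hm with h1
    · exact Finsupp.mem_support_iff.1 hmJ ((mem_expOff J m).1 h1).2
    · exact hm rfl
  obtain ⟨k, hk⟩ : ∃ k : Fin n, k ≠ J := by
    by_contra hcon
    push Not at hcon
    have h1 : (Finset.univ : Finset (Fin n)).card ≤ 1 :=
      Finset.card_le_one.2 fun a _ b _ => (hcon a).trans (hcon b).symm
    rw [Finset.card_univ, Fintype.card_fin] at h1
    omega
  have hmem : ∀ i : Fin n, i ≠ J → Finsupp.single i d ∈ expOff n d J := by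
    intro i hi
    rw [mem_expOff, Finsupp.degree_single, Finsupp.single_eq_of_ne (Ne.symm hi)]
    exact ⟨le_rfl, rfl⟩
  have hdeg : (polyOff J a).totalDegree = d := by
    apply le_antisymm
    · unfold totalDegree
      refine Finset.sup_le fun m hm => ?_
      change m.degree ≤ d
      rw [mem_support_iff, coeff_polyOff] at hm
      split_ifs at hm with h1
      · exact ((mem_expOff J m).1 h1).1
      · exact absurd rfl hm
    · have h1 : Finsupp.single k d ∈ (polyOff J a).support := by
        rw [mem_support_iff, coeff_polyOff, dif_pos (hmem k hk)]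
        exact ha.ne_zero _
      have h2 := le_totalDegree h1
      rw [Finsupp.sum_single_index rfl] at h2
      exact h2
  refine ⟨hvars, hdeg, fun v hv hvJ h0 => ?_⟩
  have h1 : eval (fun i => (v i : ℂ)) (top (polyOff J a)) =
      ∑ m : {m // m ∈ expOff n d J}, (if m.1.degree = d then ∏ i, v i ^ m.1 i else 0 : ℚ) • a m := by
    have h2 : top (polyOff J a) = ∑ m : {m // m ∈ expOff n d J},
        if m.1.degree = d then monomial m.1 (a m) else 0 := by
      unfold top
      rw [hdeg]
      ext μ
      rw [coeff_homogeneousComponent, coeff_polyOff, coeff_sum]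
      split_ifs with h3 h4
      · rw [Finset.sum_eq_single ⟨μ, h4⟩]
        · rw [if_pos h3, coeff_monomial, if_pos rfl]
        · intro b _ hb
          split_ifs
          · rw [coeff_monomial, if_neg fun h' => hb (Subtype.ext h')]
          · rfl
        · intro h'
          exact absurd (Finset.mem_univ _) h'
      · symm
        refine Finset.sum_eq_zero fun b _ => ?_
        split_ifs
        · rw [coeff_monomial, if_neg]
          intro h'
          apply h4
          rw [← h']
          exact b.2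
        · rfl
      · symm
        refine Finset.sum_eq_zero fun b _ => ?_
        split_ifs with h5
        · rw [coeff_monomial, if_neg]
          rintro rfl
          exact h3 h5
        · rfl
    rw [h2, map_sum]
    refine Finset.sum_congr rfl fun m _ => ?_
    split_ifs
    · rw [eval_monomial, Rat.smul_def, Finsupp.prod_fintype _ _ (fun i => pow_zero _)]
      push_cast
      ring
    · rw [map_zero, zero_smul]
  rw [h1] at h0
  obtain ⟨i, hi⟩ := Function.ne_iff.1 hv
  rw [Pi.zero_apply] at hi
  have hiJ : i ≠ J := by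
    rintro rfl
    exact hi hvJ
  have h3 := Fintype.linearIndependent_iff.1 ha _ h0 ⟨Finsupp.single i d, hmem i hiJ⟩
  simp only at h3
  rw [if_pos (Finsupp.degree_single i d), Finset.prod_eq_single i] at h3
  · rw [Finsupp.single_eq_same] at h3
    exact pow_ne_zero _ hi h3
  · intro j _ hj
    rw [Finsupp.single_eq_of_ne hj, pow_zero]
  · intro h
    exact absurd (Finset.mem_univ i) h

end Pool.Agent.Run7.h490
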