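import Pool.Agent.Run7.h490.OD7
import Pool.Agent.K3h93.UG.Dir6

/-! Hypersurfaces which have a nondegenerate zero at infinity with every rational real part. -/

set_option autoImplicit false

namespace Pool.Agent.Run7.h490

open MvPolynomial Filter Topology Metric Set Pool.Agent.K3h22.EX Pool.Agent.K3h53.UG
  Pool.Agent.K3h22.E8 Module

/-- the vector of the slopes -/
def slv {n s : ℕ} (e : Fin s ⊕ Fin 1 ≃ Fin n) (σ : Fin s → Fin 1 → ℚ) : Fin n → ℚ :=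
  fun i => (Sum.elim (fun j => σ j 0) (fun _ => 1) : Fin s ⊕ Fin 1 → ℚ) (e.symm i)

theorem slv_ne {n s : ℕ} (e : Fin s ⊕ Fin 1 ≃ Fin n) (σ : Fin s → Fin 1 → ℚ) :
    slv e σ ≠ 0 := by
  intro h
  have := congrFun h (e (Sum.inr 0))
  simp [slv] at this

theorem xr_single {n s : ℕ} (e : Fin s ⊕ Fin 1 ≃ Fin n) (σ : Fin s → Fin 1 → ℚ) :
    xr e (fun j b => ((σ j b : ℚ) : ℝ)) 0 (Pi.single 0 1) = fun i => ((slv e σ i : ℚ) : ℂ) := by
  funext i
  obtain ⟨k, rfl⟩ := e.surjective i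
  rcases k with j | b
  · rw [xr_inl]
    simp [slv]
  · rw [xr_inr]
    have hb : b = 0 := Subsingleton.elim _ _
    subst hb
    simp [slv]

/-- for `r = 1` a point is good if it is a zero with nonvanishing derivative -/
theorem good_one {n s : ℕ} (e : Fin s ⊕ Fin 1 ≃ Fin n) (σ : Fin s → Fin 1 → ℚ)
    (f : MvPolynomial (Fin n) ℂ) (lam : Fin s → ℂ) (θ : Fin 1 → ℂ)
    (h0 : ∀ j, (lam j).re = 0)
    (h1 : eval (xr e (fun j b => ((σ j b : ℚ) : ℝ)) lam θ) f = 0)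
    (h2 : ∑ i, ((slv e σ i : ℚ) : ℂ) *
      eval (xr e (fun j b => ((σ j b : ℚ) : ℝ)) lam θ) (pderiv i f) ≠ 0) :
    Good e (fun _ : Fin 1 => f) (fun j b => ((σ j b : ℚ) : ℝ)) lam θ := by
  refine ⟨h0, fun _ => h1, ?_⟩
  rw [Matrix.det_unique]
  show eval _ (dd (xr e (fun j b => ((σ j b : ℚ) : ℝ)) 0 (Pi.single (default : Fin 1) 1)) f) ≠ 0
  have e1 : (default : Fin 1) = 0 := rfl
  rw [e1, xr_single]
  unfold dd
  simp only [map_sum, map_mul, eval_C]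
  exact h2

theorem one_good {n s : ℕ} (e : Fin s ⊕ Fin 1 ≃ Fin n) (σ : Fin s → Fin 1 → ℚ)
    (f : MvPolynomial (Fin n) ℂ) (lam : Fin s → ℂ) (θ : Fin 1 → ℂ)
    (h : Good e (fun _ : Fin 1 => f) (fun j b => ((σ j b : ℚ) : ℝ)) lam θ) :
    ∑ i, ((slv e σ i : ℚ) : ℂ) *
      eval (xr e (fun j b => ((σ j b : ℚ) : ℝ)) lam θ) (pderiv i f) ≠ 0 := by
  have h1 := h.det
  rw [Matrix.det_unique] at h1
  have h2 : eval (xr e (fun j b => ((σ j b : ℚ) : ℝ)) lam θ)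
    (dd (xr e (fun j b => ((σ j b : ℚ) : ℝ)) 0 (Pi.single (default : Fin 1) 1)) f) ≠ 0 := h1
  have e1 : (default : Fin 1) = 0 := rfl
  rw [e1, xr_single] at h2
  unfold dd at h2
  simp only [map_sum, map_mul, eval_C] at h2
  exact h2

theorem exists_good1 {n s : ℕ} (e : Fin s ⊕ Fin 1 ≃ Fin n) (q u g : MvPolynomial (Fin n) ℂ)
    (D : ℕ) (hu : (q * u).IsHomogeneous D) (hirr : Irreducible q)
    (hqu : ¬ q ∣ u) (hqg : ¬ q ∣ g) (D' : ℕ) (hg : g.IsHomogeneous D')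
    (hN : ∀ v : Fin n → ℚ, v ≠ 0 → ∃ ξ : Fin n → ℂ, (∀ i, (ξ i).re = v i) ∧ eval ξ q = 0 ∧
      ∑ i, (v i : ℂ) * eval ξ (pderiv i q) ≠ 0)
    (σ : Fin s → Fin 1 → ℚ) (ω : Fin 1 → ℝ) (δ : ℝ) (hδ : 0 < δ) :
    ∃ (lam : Fin s → ℂ) (θ : Fin 1 → ℂ),
      Good e (fun _ : Fin 1 => q * u) (fun j b => ((σ j b : ℚ) : ℝ)) lam θ ∧
      eval (xr e (fun j b => ((σ j b : ℚ) : ℝ)) lam θ) g ≠ 0 ∧ ∀ b, |(θ b).re - ω b| < δ := by
  obtain ⟨ξ, hξ1, hξ2, hξ3⟩ := hN (slv e σ) (slv_ne e σ)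
  -- the starting point
  obtain ⟨lam₀, hlam₀⟩ : ∃ lam₀, lam₀ = prj e σ ξ := ⟨_, rfl⟩
  obtain ⟨θ₀, hθ₀⟩ : ∃ θ₀ : Fin 1 → ℂ, θ₀ = fun b => ξ (e (Sum.inr b)) := ⟨_, rfl⟩
  have hx₀ : ξ = xr e (fun j b => ((σ j b : ℚ) : ℝ)) lam₀ θ₀ := by
    rw [hlam₀, hθ₀]
    exact eq_xr e σ ξ
  have hθre : (θ₀ 0).re = 1 := by
    rw [hθ₀]
    show (ξ (e (Sum.inr 0))).re = 1
    rw [hξ1]
    simp [slv]
  have hgood₀ : Good e (fun _ : Fin 1 => q) (fun j b => ((σ j b : ℚ) : ℝ)) lam₀ θ₀ := by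
    refine good_one e σ q lam₀ θ₀ ?_ ?_ ?_
    · intro j
      rw [hlam₀, prj_apply]
      rw [Complex.sub_re, hξ1, Complex.re_sum]
      simp only [Finset.univ_unique, Finset.sum_singleton, Fin.default_eq_zero]
      have h1 : (((σ j 0 : ℚ) : ℂ) * ξ (e (Sum.inr 0))).re = (σ j 0 : ℝ) * 1 := by
        have h2 : ((σ j 0 : ℚ) : ℂ) = (((σ j 0 : ℚ) : ℝ) : ℂ) := by push_cast; rfl
        rw [h2, Complex.re_ofReal_mul, hξ1]
        simp [slv]
      rw [h1]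
      simp [slv]
    · rw [← hx₀]
      exact hξ2
    · rw [← hx₀]
      exact hξ3
  -- elimination
  have hns : n = s + 1 := by
    have := Fintype.card_congr e
    simp only [Fintype.card_sum, Fintype.card_fin] at this
    exact this.symm
  have hP : (Ideal.span {q} : Ideal (MvPolynomial (Fin n) ℂ)).IsPrime :=
    (Ideal.span_singleton_prime hirr.ne_zero).2 hirr.prime
  have hind : ∀ h : MvPolynomial (Fin s) ℂ, h ≠ 0 →
      lsub e (fun j b => ((σ j b : ℚ) : ℝ)) h ∉ Ideal.span {q} := by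
    intro h hne hmem
    rw [Ideal.mem_span_singleton] at hmem
    obtain ⟨lam', θ', h1, -, h3⟩ := Pool.Agent.K3h93.UG.Dir6.t_DIR6 n s 1 e (fun _ => q) _ lam₀ θ₀
      hgood₀ h hne 1 one_pos
    obtain ⟨p, hp⟩ := hmem
    have h4 := congrArg (eval (xr e (fun j b => ((σ j b : ℚ) : ℝ)) lam' θ')) hp
    rw [Pool.Agent.K3h57.UG.eval_lsub, map_mul, h1.zero 0, zero_mul] at h4
    exact h3 h4
  obtain ⟨hh, G', hne, hmem⟩ := Pool.Agent.K3h72.UG.t_NORM6 n s 1 e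
    (fun j b => ((σ j b : ℚ) : ℝ)) (Ideal.span {q}) hP (fun K hK => ⟨q,
      Ideal.mem_span_singleton_self q, hirr.ne_zero, by
        have : K = Finset.univ := by
          rw [← Finset.card_eq_iff_eq_univ, Fintype.card_fin, hK, hns]
        rw [this]
        exact Finset.subset_univ _⟩) hind (u * g) (by
      rw [Ideal.mem_span_singleton]
      intro h
      rcases hirr.prime.dvd_or_dvd h with h | h
      · exact hqu h
      · exact hqg h)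
  -- the size
  obtain ⟨t, ht0, htω⟩ : ∃ t : ℝ, t ≠ 0 ∧ |t - ω 0| < δ / 2 := by
    by_cases h : ω 0 = 0
    · refine ⟨δ / 4, by positivity, ?_⟩
      rw [h, sub_zero, abs_of_pos (by positivity)]
      linarith
    · exact ⟨ω 0, h, by rw [sub_self, abs_zero]; positivity⟩
  have htpos : 0 < |t| := abs_pos.2 ht0
  obtain ⟨lam', θ', h1, h2, h3⟩ := Pool.Agent.K3h93.UG.Dir6.t_DIR6 n s 1 e (fun _ => q) _ lam₀ θ₀
      hgood₀ hh hne (δ / (4 * |t|)) (by positivity)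
  obtain ⟨ζ, hζ⟩ : ∃ ζ, ζ = xr e (fun j b => ((σ j b : ℚ) : ℝ)) lam' θ' := ⟨_, rfl⟩
  have hqζ : eval ζ q = 0 := by
    rw [hζ]
    exact h1.zero 0
  have hug : eval ζ u ≠ 0 ∧ eval ζ g ≠ 0 := by
    rw [Ideal.mem_span_singleton] at hmem
    obtain ⟨p, hp⟩ := hmem
    have h4 := congrArg (eval ζ) hp
    rw [map_sub, map_mul, map_mul, map_mul, hqζ, zero_mul, hζ,
      Pool.Agent.K3h57.UG.eval_lsub, ← hζ, sub_eq_zero] at h4
    have h5 : eval ζ u * eval ζ g ≠ 0 := by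
      intro h0
      rw [h0, zero_mul] at h4
      exact h3 h4.symm
    exact ⟨left_ne_zero_of_mul h5, right_ne_zero_of_mul h5⟩
  have hder : ∑ i, ((slv e σ i : ℚ) : ℂ) * eval ζ (pderiv i (q * u)) ≠ 0 := by
    have h4 := one_good e σ q lam' θ' h1
    rw [← hζ] at h4
    have h5 : ∀ i, ((slv e σ i : ℚ) : ℂ) * eval ζ (pderiv i (q * u)) =
        (((slv e σ i : ℚ) : ℂ) * eval ζ (pderiv i q)) * eval ζ u := by
      intro i
      rw [Derivation.leibniz, map_add, smul_eq_mul, smul_eq_mul, map_mul, map_mul, hqζ]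
      ring
    rw [Finset.sum_congr rfl fun i _ => h5 i, ← Finset.sum_mul]
    exact mul_ne_zero h4 hug.1
  -- scaling
  have hsc : xr e (fun j b => ((σ j b : ℚ) : ℝ)) (((t : ℝ) : ℂ) • lam') (((t : ℝ) : ℂ) • θ') =
      ((t : ℝ) : ℂ) • ζ := by
    rw [hζ, xr_smul]
  have htc : ((t : ℝ) : ℂ) ≠ 0 := Complex.ofReal_ne_zero.2 ht0
  refine ⟨((t : ℝ) : ℂ) • lam', ((t : ℝ) : ℂ) • θ', good_one e σ _ _ _ ?_ ?_ ?_, ?_, ?_⟩
  · intro j
    rw [Pi.smul_apply, smul_eq_mul, Complex.re_ofReal_mul, h1.im j, mul_zero]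
  · rw [hsc, eval_hsmul _ hu, map_mul, hqζ, zero_mul, mul_zero]
  · rw [hsc]
    have h6 : ∀ i, ((slv e σ i : ℚ) : ℂ) * eval (((t : ℝ) : ℂ) • ζ) (pderiv i (q * u)) =
        ((t : ℝ) : ℂ) ^ (D - 1) * (((slv e σ i : ℚ) : ℂ) * eval ζ (pderiv i (q * u))) := by
      intro i
      rw [eval_hsmul _ (hu.pderiv (i := i))]
      ring
    rw [Finset.sum_congr rfl fun i _ => h6 i, ← Finset.mul_sum]
    exact mul_ne_zero (pow_ne_zero _ htc) hder
  · rw [hsc, eval_hsmul _ hg]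
    exact mul_ne_zero (pow_ne_zero _ htc) hug.2
  · intro b
    have hb : b = 0 := Subsingleton.elim _ _
    subst hb
    rw [Pi.smul_apply, smul_eq_mul, Complex.re_ofReal_mul]
    have h4 : |(θ' 0).re - 1| ≤ δ / (4 * |t|) := by
      rw [← hθre, ← Complex.sub_re]
      exact (Complex.abs_re_le_norm _).trans (h2 0)
    have h5 : |t * (θ' 0).re - t| ≤ δ / 4 := by
      have : t * (θ' 0).re - t = t * ((θ' 0).re - 1) := by ring
      rw [this, abs_mul]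
      calc |t| * |(θ' 0).re - 1| ≤ |t| * (δ / (4 * |t|)) :=
            mul_le_mul_of_nonneg_left h4 htpos.le
        _ = δ / 4 := by field_simp
    rw [abs_le] at h5
    rw [abs_lt] at htω ⊢
    constructor <;> linarith [h5.1, h5.2, htω.1, htω.2]

end Pool.Agent.Run7.h490
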