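import Pool.Agent.Run7.h490.HY1

/-! Exponential points on varieties over hypersurfaces. -/

set_option autoImplicit false

namespace Pool.Agent.Run7.h490

open MvPolynomial Filter Topology Metric Set Pool.Agent.K3h22.EX Pool.Agent.K3h53.UG
  Pool.Agent.K3h22.E8 Module

/-- nondegenerate zeros with every rational real part -/
def NZ {n : ℕ} (q : MvPolynomial (Fin n) ℂ) : Prop :=
  ∀ v : Fin n → ℚ, v ≠ 0 → ∃ ξ : Fin n → ℂ, (∀ i, (ξ i).re = v i) ∧ eval ξ q = 0 ∧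
      ∑ i, (v i : ℂ) * eval ξ (pderiv i q) ≠ 0

theorem geoL_hyp {n s : ℕ} (e : Fin s ⊕ Fin 1 ≃ Fin n)
    (F g q u : MvPolynomial (Fin n) ℂ) (hF : top F = q * u) (hirr : Irreducible q)
    (hqu : ¬ q ∣ u) (hqg : ¬ q ∣ top g) (hN : NZ q)
    (I : Ideal (MvPolynomial (Fin n) ℂ)) (hI : I.IsPrime)
    (hId : ∀ K : Finset (Fin n), K.card = s + 1 → ∃ G ∈ I, G ≠ 0 ∧ G.vars ⊆ K)
    (hIF : ∀ x : Fin n → ℂ, eval x F = 0 → eval x g ≠ 0 → ∀ G ∈ I, eval x G = 0)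
    (ω : Fin 1 → ℝ) (σ : Fin s → Fin 1 → ℚ) :
    GeoL e {x : Fin n → ℂ | (∀ _ : Fin 1, eval x F = 0) ∧ eval x g ≠ 0} I ω σ := by
  classical
  intro δ' hδ' T hT δ hδ
  have hhF : (q * u).IsHomogeneous F.totalDegree := by
    rw [← hF]
    exact homogeneousComponent_isHomogeneous _ _
  have hhg : (top g).IsHomogeneous g.totalDegree := homogeneousComponent_isHomogeneous _ _
  obtain ⟨lam, θ, h4, h5, h6⟩ := exists_good1 e q u (top g) _ hhF hirr hqu hqg _ hhg hN σ ω δ' hδ'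
  have e1 : (sg e (fun _ => 1) fun j b => ((σ j b : ℚ) : ℝ)) =
      fun j b => ((σ j b : ℚ) : ℝ) := by
    funext j b
    simp [sg]
  obtain ⟨cn, ε, C, R₀, h7, h8, h9, h10, h11⟩ := Pool.Agent.K3h57.UG.t_GEO7
    Pool.Agent.K3h68.UG.t_DIR7 Pool.Agent.K3h99.UG.t_BR6 Pool.Agent.K3h72.UG.t_TOP6
    Pool.Agent.K3h90.UG.t_TOP7 Pool.Agent.K3h72.UG.t_NORM6 n s 1 e (fun _ => 1)
    (fun _ => le_rfl) (fun _ => rfl) (fun _ => F) g I hI hId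
    (fun x h => hIF x (h 0)) (fun j b => ((σ j b : ℚ) : ℝ)) lam θ (by
      simp only [e1, wtop_one]
      rw [hF]
      exact h4) (by
      rw [e1, wtop_one]
      exact h5) T hT δ hδ
  exact ⟨fun b => (θ b).re, h6, cn, ε, C, R₀, h7, h8, h9, h10, h11⟩

theorem geHyp {n s : ℕ} (hn : n = s + 1) (hs : 1 ≤ s)
    (P : Ideal (MvPolynomial (Fin n ⊕ Fin n) ℂ)) (V : Set (Fin n ⊕ Fin n → ℂ)) (hP : P.IsPrime)
    (hV : V = {p | (∀ f ∈ P, eval p f = 0) ∧ ∀ j : Fin n, p (Sum.inr j) ≠ 0})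
    (hne : V.Nonempty)
    (hX1 : ∃ K : Finset (Fin n), K.card = s ∧ ∀ G : MvPolynomial (Fin n) ℂ, G.vars ⊆ K →
      (∀ u ∈ V, eval (fun i => u (Sum.inl i)) G = 0) → G = 0)
    (hX2 : ∀ K : Finset (Fin n), K.card = s + 1 → ¬ ∀ G : MvPolynomial (Fin n) ℂ, G.vars ⊆ K →
      (∀ u ∈ V, eval (fun i => u (Sum.inl i)) G = 0) → G = 0)
    (hd : ∃ K : Finset (Fin n ⊕ Fin n), K.card = n ∧ Indep V K)
    (F g q u : MvPolynomial (Fin n) ℂ)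
    (hIF : ∀ x : Fin n → ℂ, eval x F = 0 → eval x g ≠ 0 →
      ∀ G : MvPolynomial (Fin n) ℂ, (∀ u ∈ V, eval (fun i => u (Sum.inl i)) G = 0) →
        eval x G = 0)
    (hF : top F = q * u) (hirr : Irreducible q) (hqu : ¬ q ∣ u) (hqg : ¬ q ∣ top g) (hN : NZ q)
    (c : Fin n ⊕ Fin n → ℂ) (hc : ∀ i, c (Sum.inr i) ≠ 0)
    (H : MvPolynomial (Fin n ⊕ Fin n) ℂ)
    (hHV : ∃ u ∈ V, eval (Sum.elim (fun i => u (Sum.inl i) + c (Sum.inl i))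
      (fun i => c (Sum.inr i) * u (Sum.inr i))) H ≠ 0) :
    ∃ z : Fin n → ℂ, (∃ u ∈ V, (Sum.elim z fun i => Complex.exp (z i) :
      Fin n ⊕ Fin n → ℂ) = Sum.elim (fun i => u (Sum.inl i) + c (Sum.inl i))
        (fun i => c (Sum.inr i) * u (Sum.inr i))) ∧
      eval (Sum.elim z fun i => Complex.exp (z i)) H ≠ 0 := by
  classical
  obtain ⟨H', hH'⟩ := pullback c H
  obtain ⟨u', hu, huH⟩ := hHV
  rw [← hH'] at huH
  obtain ⟨L', T, hL', hLT, hTc, hT⟩ := exists_T hn P V hP hV hne hX2 hX1 hd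
  obtain ⟨P', V', h1, h2, h3, ⟨v, hv, hvH⟩, h5, h6, h7⟩ := reduceT hn P V hP hV hne hX2 L' hL' T
    hLT hTc hT H' ⟨u', hu, huH⟩
  obtain ⟨K₁, hK₁, hK₂⟩ := hX1
  obtain ⟨z, ⟨u'', hu', hz⟩, hzH⟩ := mainG Pool.Agent.K3h64.E8.t_CORE8
    Pool.Agent.K3h77.E8.t_ALG8 Pool.Agent.K3h60.E8.t_SUPP8 Pool.Agent.K3h86.E8.t_TRD8
    Pool.Agent.K3h87.ET.t_SEP (Pool.Agent.K3h58.ET.t_FLAG Pool.Agent.K3h49.ET.t_VAL
      Pool.Agent.K3h35.ET.t_TRM) Pool.Agent.K3h25.ET3.t_CONE1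
    Pool.Agent.K3h24.ET.t_CONE2 hn hs le_rfl P' V' h1 h2 ⟨v, hv⟩ ⟨_, hTc, h5⟩ h6
    ⟨K₁, hK₁, fun G hG hGV => hK₂ G hG ((h7 G).1 hGV)⟩
    (fun K hK hcon => hX2 K hK fun G hG hGV => hcon G hG ((h7 G).2 hGV)) (fun _ => F) g
    (fun x hx hxg G hG => hIF x (hx 0) hxg G ((h7 G).1 hG)) ⊤ 0 (by omega) (fun i => i.elim0)
    gq_top (fun w _ => Submodule.mem_top)
    (fun I hI hId hIF w _ e σ _ => geoL_hyp e F g q u hF hirr hqu hqg hN I hI hId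
      (fun x hx => hIF x fun _ => hx) _ σ) c hc H
    ⟨v, hv, by rw [← hH']; exact hvH⟩
  exact ⟨z, ⟨u'', h3 hu', hz⟩, hzH⟩

end Pool.Agent.Run7.h490
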