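import Pool.Agent.Run7.h490.HY2
import Pool.Agent.Run7.h490.OD9

/-! Criteria for the existence of nondegenerate zeros with rational real parts. -/

set_option autoImplicit false

namespace Pool.Agent.Run7.h490

open MvPolynomial Filter Topology Metric Set Pool.Agent.K3h22.EX Pool.Agent.K3h53.UG
  Pool.Agent.K3h22.E8 Module
open Pool.Agent.K3h67.EX (dlin dlin_apply hasStrict)
open Pool.Agent.K3h51.UG (eval_dd)

theorem eval_dd_sum {n : ℕ} (v : Fin n → ℂ) (q : MvPolynomial (Fin n) ℂ) (z : Fin n → ℂ) :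
    eval z (dd v q) = ∑ i, v i * eval z (pderiv i q) := by
  unfold dd
  rw [map_sum]
  exact Finset.sum_congr rfl fun j _ => by rw [map_mul, eval_C]

theorem dd_mul {n : ℕ} (v : Fin n → ℂ) (p q : MvPolynomial (Fin n) ℂ) :
    dd v (p * q) = p * dd v q + q * dd v p := by
  unfold dd
  rw [Finset.mul_sum, Finset.mul_sum, ← Finset.sum_add_distrib]
  refine Finset.sum_congr rfl fun j _ => ?_
  rw [Derivation.leibniz, smul_eq_mul, smul_eq_mul]
  ring

theorem dd_add {n : ℕ} (v : Fin n → ℂ) (p q : MvPolynomial (Fin n) ℂ) :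
    dd v (p + q) = dd v p + dd v q := by
  unfold dd
  rw [← Finset.sum_add_distrib]
  refine Finset.sum_congr rfl fun j _ => ?_
  rw [map_add, mul_add]

theorem dd_pow {n : ℕ} (v : Fin n → ℂ) (p : MvPolynomial (Fin n) ℂ) (k : ℕ) :
    dd v (p ^ (k + 1)) = (k + 1 : ℕ) * p ^ k * dd v p := by
  induction k with
  | zero => simp
  | succ k ih =>
    rw [pow_succ, dd_mul, ih]
    push_cast
    ring

theorem dd_lsub {n s : ℕ} (e : Fin s ⊕ Fin 1 ≃ Fin n) (σ : Fin s → Fin 1 → ℚ)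
    (h : MvPolynomial (Fin s) ℂ) :
    dd (fun i => ((slv e σ i : ℚ) : ℂ)) (lsub e (fun j b => ((σ j b : ℚ) : ℝ)) h) = 0 := by
  classical
  have hC : ∀ a : ℂ, dd (fun i => ((slv e σ i : ℚ) : ℂ)) (C a) = 0 := by
    intro a
    unfold dd
    exact Finset.sum_eq_zero fun i _ => by rw [pderiv_C, mul_zero]
  have hX : ∀ k, dd (fun i => ((slv e σ i : ℚ) : ℂ)) (X k) = C ((slv e σ k : ℚ) : ℂ) := by
    intro k
    unfold dd
    rw [Finset.sum_eq_single k]
    · rw [pderiv_X_self, mul_one]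
    · intro i _ hi
      rw [pderiv_X, Pi.single_eq_of_ne (Ne.symm hi), mul_zero]
    · intro h
      exact absurd (Finset.mem_univ k) h
  induction h using MvPolynomial.induction_on with
  | C a =>
    rw [← algebraMap_eq, AlgHom.commutes, algebraMap_eq]
    exact hC a
  | add p q hp hq => rw [map_add, dd_add, hp, hq, add_zero]
  | mul_X p i hp =>
    rw [map_mul, dd_mul, hp, mul_zero, add_zero]
    have h1 : lsub e (fun j b => ((σ j b : ℚ) : ℝ)) (X i) = X (e (Sum.inl i)) -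
        C (((σ i 0 : ℚ) : ℝ) : ℂ) * X (e (Sum.inr 0)) := by
      unfold lsub
      rw [aeval_X]
      simp
    have h2 : (X (e (Sum.inl i)) : MvPolynomial (Fin n) ℂ) -
        C (((σ i 0 : ℚ) : ℝ) : ℂ) * X (e (Sum.inr 0)) = X (e (Sum.inl i)) +
        C (-(((σ i 0 : ℚ) : ℝ) : ℂ)) * X (e (Sum.inr 0)) := by
      rw [map_neg]
      ring
    rw [h1, h2, dd_add, dd_mul, hC, mul_zero, add_zero, hX, hX, ← map_mul, ← map_add]
    have h3 : ((slv e σ (e (Sum.inl i)) : ℚ) : ℂ) +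
        -(((σ i 0 : ℚ) : ℝ) : ℂ) * ((slv e σ (e (Sum.inr 0)) : ℚ) : ℂ) = 0 := by
      simp [slv]
    rw [h3, map_zero, mul_zero]

/-- no polynomial in the coordinates `l` is a multiple of `q` -/
theorem not_dvd_lsub {n s : ℕ} (e : Fin s ⊕ Fin 1 ≃ Fin n) (σ : Fin s → Fin 1 → ℚ)
    (q : MvPolynomial (Fin n) ℂ) (hirr : Irreducible q)
    (hq : ¬ q ∣ dd (fun i => ((slv e σ i : ℚ) : ℂ)) q)
    (h : MvPolynomial (Fin s) ℂ) (hne : lsub e (fun j b => ((σ j b : ℚ) : ℝ)) h ≠ 0) :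
    ¬ q ∣ lsub e (fun j b => ((σ j b : ℚ) : ℝ)) h := by
  intro hdvd
  obtain ⟨L, hL⟩ : ∃ L, L = lsub e (fun j b => ((σ j b : ℚ) : ℝ)) h := ⟨_, rfl⟩
  have hD := dd_lsub e σ h
  rw [← hL] at hne hdvd hD
  have key : ∀ k : ℕ, q ^ (k + 1) ∣ L := by
    intro k
    induction k with
    | zero => rwa [zero_add, pow_one]
    | succ k ih =>
      obtain ⟨p, hp⟩ := ih
      rw [hp, dd_mul, dd_pow] at hD
      have h1 : q ^ k * (q * dd (fun i => ((slv e σ i : ℚ) : ℂ)) p +
          p * ((k + 1 : ℕ) * dd (fun i => ((slv e σ i : ℚ) : ℂ)) q)) = 0 := by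
        rw [← hD]
        ring
      rcases mul_eq_zero.1 h1 with h2 | h2
      · exact absurd h2 (pow_ne_zero _ hirr.ne_zero)
      · have h3 : q ∣ p * ((k + 1 : ℕ) * dd (fun i => ((slv e σ i : ℚ) : ℂ)) q) := by
          rw [eq_neg_of_add_eq_zero_right h2]
          exact (dvd_mul_right _ _).neg_right
        rcases hirr.prime.dvd_or_dvd h3 with h4 | h4
        · rw [hp, pow_succ q (k + 1)]
          exact mul_dvd_mul_left _ h4
        · rcases hirr.prime.dvd_or_dvd h4 with h5 | h5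
          · exfalso
            apply hirr.not_isUnit
            refine isUnit_of_dvd_unit h5 ?_
            have h6 : ((k + 1 : ℕ) : MvPolynomial (Fin n) ℂ) = C ((k + 1 : ℕ) : ℂ) := by
              simp
            rw [h6]
            refine IsUnit.map C (isUnit_iff_ne_zero.2 ?_)
            exact_mod_cast Nat.succ_ne_zero k
          · exact absurd h5 hq
  obtain ⟨m, hm⟩ := FiniteMultiplicity.of_not_isUnit hirr.not_isUnit hne
  exact hm (key m)

theorem dd_smul {n : ℕ} (t : ℂ) (v : Fin n → ℂ) (q : MvPolynomial (Fin n) ℂ) :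
    dd (t • v) q = C t * dd v q := by
  unfold dd
  rw [Finset.mul_sum]
  refine Finset.sum_congr rfl fun i _ => ?_
  rw [Pi.smul_apply, smul_eq_mul, map_mul, mul_assoc]

theorem dd_homog {n d : ℕ} (v : Fin n → ℂ) (q : MvPolynomial (Fin n) ℂ)
    (hq : q.IsHomogeneous d) : (dd v q).IsHomogeneous (d - 1) := by
  unfold dd
  refine IsHomogeneous.sum _ _ _ fun i _ => ?_
  have := (isHomogeneous_C (Fin n) (v i)).mul (hq.pderiv (i := i))
  rwa [zero_add] at this

theorem not_dvd_dd {n d : ℕ} (v : Fin n → ℂ) (q : MvPolynomial (Fin n) ℂ)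
    (hq : q.IsHomogeneous d) (h0 : dd v q ≠ 0) : ¬ q ∣ dd v q := by
  rintro ⟨p, hp⟩
  have hq0 : q ≠ 0 := by
    rintro rfl
    exact h0 (by rw [hp, zero_mul])
  have hp0 : p ≠ 0 := by
    rintro rfl
    exact h0 (by rw [hp, mul_zero])
  have h1 := (dd_homog v q hq).totalDegree h0
  rw [hp, totalDegree_mul_of_isDomain hq0 hp0, hq.totalDegree hq0] at h1
  have h2 : d = 0 := by omega
  apply h0
  unfold dd
  have h3 : q = C (coeff 0 q) := by
    rw [← totalDegree_eq_zero_iff_eq_C, hq.totalDegree hq0, h2]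
  refine Finset.sum_eq_zero fun i _ => ?_
  rw [h3, pderiv_C, mul_zero]

/-- a nonzero polynomial does not vanish at all real points -/
theorem exists_real {n : ℕ} {p : MvPolynomial (Fin n) ℂ} (hp : p ≠ 0) :
    ∃ x : Fin n → ℝ, eval (fun i => (x i : ℂ)) p ≠ 0 := by
  by_contra h
  push Not at h
  apply hp
  refine MvPolynomial.funext_set (fun _ : Fin n => Set.range fun x : ℝ => (x : ℂ))
    (fun _ => Set.infinite_range_of_injective Complex.ofReal_injective) fun x hx => ?_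
  have h1 : ∀ j, ∃ b : ℝ, (b : ℂ) = x j := by
    intro j
    exact hx j (Set.mem_univ _)
  choose b hb using h1
  have e : x = fun j => (b j : ℂ) := funext fun j => (hb j).symm
  rw [e, h b, map_zero]

theorem line_root {n : ℕ} (q : MvPolynomial (Fin n) ℂ) (x v : Fin n → ℂ)
    (h : eval x (dd v q) ≠ 0) : ∃ τ : ℂ, eval (x + τ • v) q = 0 := by
  obtain ⟨p, hp⟩ : ∃ p : Polynomial ℂ, p = aeval (fun i => Polynomial.C (x i) +
    Polynomial.X * Polynomial.C (v i)) q := ⟨_, rfl⟩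
  have hpe : ∀ τ : ℂ, p.eval τ = eval (x + τ • v) q := by
    intro τ
    rw [hp]
    have h1 : (Polynomial.evalRingHom τ).comp (aeval (fun i => Polynomial.C (x i) +
        Polynomial.X * Polynomial.C (v i)) : MvPolynomial (Fin n) ℂ →ₐ[ℂ] _).toRingHom =
        eval (x + τ • v) := by
      apply MvPolynomial.ringHom_ext
      · intro a
        simp
      · intro i
        simp
        ring
    exact congrArg (fun f => f q) (congrArg DFunLike.coe h1)
  by_cases hd : p.degree = 0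
  · exfalso
    apply h
    have hc : ∀ τ : ℂ, eval (x + τ • v) q = eval x q := by
      intro τ
      have h1 := hpe τ
      have h2 := hpe 0
      rw [zero_smul, add_zero] at h2
      rw [← h1, ← h2, Polynomial.eq_C_of_degree_eq_zero hd, Polynomial.eval_C, Polynomial.eval_C]
    have h1 : HasDerivAt (fun τ : ℂ => x + τ • v) v 0 := by
      have := ((hasDerivAt_id (0 : ℂ)).smul_const v).const_add x
      simpa using this
    have h2' : HasFDerivAt (fun z => eval z q) (dlin q (x + (0 : ℂ) • v)) (x + (0 : ℂ) • v) :=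
      (hasStrict q (x + (0 : ℂ) • v)).hasFDerivAt
    have h2 : HasDerivAt (fun τ : ℂ => eval (x + τ • v) q) (dlin q (x + (0 : ℂ) • v) v) 0 :=
      HasFDerivAt.comp_hasDerivAt (0 : ℂ) (l := fun z => eval z q) (f := fun τ : ℂ => x + τ • v)
        h2' h1
    have h3 : HasDerivAt (fun τ : ℂ => eval (x + τ • v) q) 0 0 := by
      simp only [hc]
      exact hasDerivAt_const _ _
    have h4 := h2.unique h3
    rw [zero_smul, add_zero] at h4
    rw [eval_dd, h4]
  · obtain ⟨τ, hτ⟩ := Complex.isAlgClosed.exists_root p hd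
    exact ⟨τ, by rw [← hpe]; exact hτ⟩

/-- the criterion -/
theorem nz_of {n d : ℕ} (q : MvPolynomial (Fin n) ℂ) (hq : q.IsHomogeneous d)
    (hirr : Irreducible q)
    (hv : ∀ v : Fin n → ℚ, v ≠ 0 → dd (fun i => (v i : ℂ)) q ≠ 0)
    (G : MvPolynomial (Fin n) ℂ) (hG : ¬ q ∣ G)
    (hre : ∀ x : Fin n → ℝ, eval (fun i => (x i : ℂ)) q = 0 →
      eval (fun i => (x i : ℂ)) G = 0) : NZ q := by
  classical
  intro v hv0
  obtain ⟨b, hb⟩ := Function.ne_iff.1 hv0
  rw [Pi.zero_apply] at hb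
  obtain ⟨s, rfl⟩ : ∃ s, n = s + 1 := ⟨n - 1, by
    have := b.2
    omega⟩
  obtain ⟨e0, he0⟩ : ∃ e0 : Fin s ⊕ Fin 1 ≃ Fin (s + 1), e0 = finSumFinEquiv := ⟨_, rfl⟩
  obtain ⟨e, he⟩ : ∃ e : Fin s ⊕ Fin 1 ≃ Fin (s + 1),
    e = e0.trans (Equiv.swap (e0 (Sum.inr 0)) b) := ⟨_, rfl⟩
  have heb : e (Sum.inr 0) = b := by
    rw [he]
    simp
  obtain ⟨σ, hσ⟩ : ∃ σ : Fin s → Fin 1 → ℚ, σ = fun j _ => v (e (Sum.inl j)) / v b := ⟨_, rfl⟩
  have hslv : ∀ i, slv e σ i = (v b)⁻¹ * v i := by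
    intro i
    obtain ⟨k, rfl⟩ := e.surjective i
    unfold slv
    rw [Equiv.symm_apply_apply]
    rcases k with j | j
    · rw [Sum.elim_inl, hσ]
      exact div_eq_inv_mul _ _
    · have hj : j = 0 := Subsingleton.elim _ _
      rw [Sum.elim_inr, hj, heb, inv_mul_cancel₀ hb]
  obtain ⟨w, hw⟩ : ∃ w : Fin (s + 1) → ℂ, w = fun i => ((slv e σ i : ℚ) : ℂ) := ⟨_, rfl⟩
  have hwv : w = ((v b : ℂ))⁻¹ • fun i => (v i : ℂ) := by
    rw [hw]
    funext i
    rw [hslv, Pi.smul_apply, smul_eq_mul]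
    push_cast
    rfl
  have hbc : (v b : ℂ) ≠ 0 := by exact_mod_cast hb
  have hdw : dd w q ≠ 0 := by
    rw [hwv, dd_smul]
    refine mul_ne_zero ?_ (hv v hv0)
    rw [Ne, C_eq_zero]
    exact inv_ne_zero hbc
  have hndw : ¬ q ∣ dd w q := not_dvd_dd w q hq hdw
  have hP : (Ideal.span {q} : Ideal (MvPolynomial (Fin (s + 1)) ℂ)).IsPrime :=
    (Ideal.span_singleton_prime hirr.ne_zero).2 hirr.prime
  have hlinj : ∀ h : MvPolynomial (Fin s) ℂ, h ≠ 0 →
      lsub e (fun j b => ((σ j b : ℚ) : ℝ)) h ≠ 0 := by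
    intro h hne h0
    apply hne
    refine MvPolynomial.funext fun l => ?_
    rw [map_zero, ← Pool.Agent.K3h57.UG.eval_lsub e (fun j b => ((σ j b : ℚ) : ℝ)) l 0, h0,
      map_zero]
  have hind : ∀ h : MvPolynomial (Fin s) ℂ, h ≠ 0 →
      lsub e (fun j b => ((σ j b : ℚ) : ℝ)) h ∉ Ideal.span {q} := by
    intro h hne hmem
    rw [Ideal.mem_span_singleton] at hmem
    exact not_dvd_lsub e σ q hirr (by rw [← hw]; exact hndw) h (hlinj h hne) hmem
  obtain ⟨hh, G', hne, hmem⟩ := Pool.Agent.K3h72.UG.t_NORM6 (s + 1) s 1 e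
    (fun j b => ((σ j b : ℚ) : ℝ)) (Ideal.span {q}) hP (fun K hK => ⟨q,
      Ideal.mem_span_singleton_self q, hirr.ne_zero, by
        have : K = Finset.univ := by
          rw [← Finset.card_eq_iff_eq_univ, Fintype.card_fin, hK]
        rw [this]
        exact Finset.subset_univ _⟩) hind (dd w q * G) (by
      rw [Ideal.mem_span_singleton]
      intro h
      rcases hirr.prime.dvd_or_dvd h with h | h
      · exact hndw h
      · exact hG h)
  rw [Ideal.mem_span_singleton] at hmem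
  obtain ⟨p, hp⟩ := hmem
  obtain ⟨x, hx⟩ := exists_real (mul_ne_zero (hlinj hh hne) hdw)
  rw [map_mul] at hx
  obtain ⟨τ, hτ⟩ := line_root q (fun i => (x i : ℂ)) w (right_ne_zero_of_mul hx)
  obtain ⟨ζ, hζ⟩ : ∃ ζ : Fin (s + 1) → ℂ, ζ = (fun i => (x i : ℂ)) + τ • w := ⟨_, rfl⟩
  rw [← hζ] at hτ
  have hprj : prj e σ ζ = prj e σ (fun i => (x i : ℂ)) := by
    rw [hζ, map_add, map_smul]
    have h1 : prj e σ w = 0 := by
      funext j
      rw [prj_apply, hw]
      simp [slv]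
    rw [h1, smul_zero, add_zero]
  have hlz : eval ζ (lsub e (fun j b => ((σ j b : ℚ) : ℝ)) hh) ≠ 0 := by
    rw [eq_xr e σ ζ, Pool.Agent.K3h57.UG.eval_lsub, hprj]
    have h1 := left_ne_zero_of_mul hx
    rw [eq_xr e σ (fun i => (x i : ℂ)), Pool.Agent.K3h57.UG.eval_lsub] at h1
    exact h1
  have hDG : eval ζ (dd w q) ≠ 0 ∧ eval ζ G ≠ 0 := by
    have h4 := congrArg (eval ζ) hp
    rw [map_sub, map_mul, map_mul, map_mul, hτ, zero_mul, sub_eq_zero] at h4
    have h5 : eval ζ (dd w q) * eval ζ G ≠ 0 := by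
      intro h0
      rw [h0, zero_mul] at h4
      exact hlz h4.symm
    exact ⟨left_ne_zero_of_mul h5, right_ne_zero_of_mul h5⟩
  have hwre : ∀ i, w i = (((slv e σ i : ℚ) : ℝ) : ℂ) := by
    intro i
    rw [hw]
    push_cast
    rfl
  have hτi : τ.im ≠ 0 := by
    intro h0
    apply hDG.2
    have h1 : τ = ((τ.re : ℝ) : ℂ) := by
      apply Complex.ext
      · simp
      · simp [h0]
    have h2 : ζ = fun i => ((x i + τ.re * ((slv e σ i : ℚ) : ℝ) : ℝ) : ℂ) := by
      rw [hζ]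
      funext i
      rw [Pi.add_apply, Pi.smul_apply, smul_eq_mul, hwre, h1]
      push_cast
      simp
    rw [h2]
    apply hre
    rw [← h2]
    exact hτ
  -- scaling
  obtain ⟨t, ht⟩ : ∃ t : ℂ, t = ((-((v b : ℝ) / τ.im) : ℝ) : ℂ) * Complex.I := ⟨_, rfl⟩
  have ht0 : t ≠ 0 := by
    rw [ht]
    refine mul_ne_zero ?_ Complex.I_ne_zero
    rw [Complex.ofReal_ne_zero]
    refine neg_ne_zero.2 (div_ne_zero ?_ hτi)
    exact_mod_cast hb
  refine ⟨t • ζ, fun i => ?_, ?_, ?_⟩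
  · rw [Pi.smul_apply, smul_eq_mul, ht, mul_assoc, Complex.re_ofReal_mul]
    have h1 : (Complex.I * ζ i).re = -(τ.im * ((slv e σ i : ℚ) : ℝ)) := by
      rw [Complex.I_mul_re, hζ, Pi.add_apply, Pi.smul_apply, smul_eq_mul, hwre, Complex.add_im,
        Complex.ofReal_im, zero_add, Complex.im_mul_ofReal]
    rw [h1, hslv]
    have hbr : (v b : ℝ) ≠ 0 := by exact_mod_cast hb
    push_cast
    field_simp
  · rw [eval_hsmul _ hq, hτ, mul_zero]
  · have h1 : ∑ i, (v i : ℂ) * eval (t • ζ) (pderiv i q) =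
        t ^ (d - 1) * ((v b : ℂ) * eval ζ (dd w q)) := by
      rw [hwv, dd_smul, map_mul, eval_C, mul_inv_cancel_left₀ hbc, eval_dd_sum, Finset.mul_sum]
      refine Finset.sum_congr rfl fun i _ => ?_
      rw [eval_hsmul _ (hq.pderiv (i := i))]
      ring
    rw [h1]
    exact mul_ne_zero (pow_ne_zero _ ht0) (mul_ne_zero hbc hDG.1)

end Pool.Agent.Run7.h490
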