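import Pool.Agent.Run7.h490.HY3

/-! Almost all hypersurfaces have nondegenerate zeros at infinity with all rational real parts. -/

set_option autoImplicit false

namespace Pool.Agent.Run7.h490

open MvPolynomial Module
open Pool.Agent.K3h53.UG (dd)
open Pool.Agent.K3h67.EX (dlin dlin_apply hasStrict)
open Pool.Agent.K3h51.UG (eval_dd)

/-- factors of forms are forms -/
theorem homog_of_dvd {σ : Type} [Finite σ] {F G : MvPolynomial σ ℂ} {n : ℕ}
    (hF : F.IsHomogeneous n) (hF0 : F ≠ 0) (h : G ∣ F) : G.IsHomogeneous G.totalDegree := by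
  obtain ⟨K, rfl⟩ := h
  have hG0 : G ≠ 0 := left_ne_zero_of_mul hF0
  have hK0 : K ≠ 0 := right_ne_zero_of_mul hF0
  have hle : ∀ P : MvPolynomial σ ℂ, P ≠ 0 → (P : MvPowerSeries σ ℂ).order ≤ P.totalDegree := by
    intro P hP
    obtain ⟨d, hd⟩ := MvPolynomial.ne_zero_iff.1 hP
    have h1 : (P : MvPowerSeries σ ℂ).order ≤ (d.degree : ℕ∞) :=
      MvPowerSeries.order_le (by simpa using hd)
    refine h1.trans ?_
    have h2 : d.degree ≤ P.totalDegree := by
      have := MvPolynomial.le_totalDegree (p := P) (s := d) (MvPolynomial.mem_support_iff.2 hd)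
      simpa [Finsupp.degree_apply, Finsupp.sum] using this
    exact_mod_cast h2
  have hmul : ((G * K : MvPolynomial σ ℂ) : MvPowerSeries σ ℂ).order =
      (G : MvPowerSeries σ ℂ).order + (K : MvPowerSeries σ ℂ).order := by
    rw [MvPolynomial.coe_mul, MvPowerSeries.order_mul]
  have hFo : (n : ℕ∞) ≤ ((G * K : MvPolynomial σ ℂ) : MvPowerSeries σ ℂ).order := by
    apply MvPowerSeries.nat_le_order
    intro d hd
    rw [MvPolynomial.coeff_coe]
    by_contra hne
    have := hF hne
    have h' : d.degree = n := by rw [← this, Finsupp.degree_eq_weight_one]; rfl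
    omega
  have hT : (G * K).totalDegree = n := hF.totalDegree hF0
  rw [MvPolynomial.totalDegree_mul_of_isDomain hG0 hK0] at hT
  have hGo := hle G hG0
  have hKo := hle K hK0
  rw [hmul] at hFo
  intro d hd
  have h1 : (G : MvPowerSeries σ ℂ).order ≤ (d.degree : ℕ∞) :=
      MvPowerSeries.order_le (by simpa using hd)
  have h2 : d.degree ≤ G.totalDegree := by
      have := MvPolynomial.le_totalDegree (p := G) (s := d) (MvPolynomial.mem_support_iff.2 hd)
      simpa [Finsupp.degree_apply, Finsupp.sum] using this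
  have h3 : (n : ℕ∞) ≤ (d.degree : ℕ∞) + (K.totalDegree : ℕ∞) := hFo.trans (add_le_add h1 hKo)
  have h4 : n ≤ d.degree + K.totalDegree := by exact_mod_cast h3
  have h5 : d.degree = G.totalDegree := by omega
  rw [← h5, Finsupp.degree_eq_weight_one]
  rfl

/-- the conjugate polynomial -/
noncomputable def cj {n : ℕ} (q : MvPolynomial (Fin n) ℂ) : MvPolynomial (Fin n) ℂ :=
  map (starRingEnd ℂ) q

theorem eval_cj {n : ℕ} (q : MvPolynomial (Fin n) ℂ) (z : Fin n → ℂ) :
    eval z (cj q) = (starRingEnd ℂ) (eval (fun i => (starRingEnd ℂ) (z i)) q) := by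
  induction q using MvPolynomial.induction_on with
  | C a => simp [cj]
  | add p q hp hq =>
    unfold cj at hp hq ⊢
    rw [map_add, map_add, map_add, map_add, hp, hq]
  | mul_X p i hp =>
    unfold cj at hp ⊢
    rw [map_mul, map_mul, map_mul, map_mul, hp]
    simp

theorem totalDegree_cj {n : ℕ} (q : MvPolynomial (Fin n) ℂ) :
    (cj q).totalDegree = q.totalDegree := by
  unfold cj totalDegree
  rw [support_map_of_injective _ (starRingEnd ℂ).injective]

/-- an irreducible polynomial which divides its conjugate is a multiple of a real one -/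
theorem real_of_dvd_cj {n : ℕ} (q : MvPolynomial (Fin n) ℂ) (hq : q ≠ 0) (h : q ∣ cj q) :
    ∃ (c : ℂ) (p : MvPolynomial (Fin n) ℝ), q = C c * map (algebraMap ℝ ℂ) p := by
  obtain ⟨w, hw⟩ := h
  have hcq : cj q ≠ 0 := (map_ne_zero_iff _ (map_injective _ (starRingEnd ℂ).injective)).2 hq
  have hw0 : w ≠ 0 := by
    rintro rfl
    rw [mul_zero] at hw
    exact hcq hw
  have h1 := congrArg totalDegree hw
  rw [totalDegree_mul_of_isDomain hq hw0, totalDegree_cj] at h1
  have h2 : w = C (coeff 0 w) := by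
    rw [← totalDegree_eq_zero_iff_eq_C]
    omega
  obtain ⟨m, hm⟩ := MvPolynomial.ne_zero_iff.1 hq
  have hcoef : ∀ k, (starRingEnd ℂ) (coeff k q) = coeff k q * coeff 0 w := by
    intro k
    have h3 := congrArg (coeff k) hw
    rw [h2, mul_comm q, coeff_C_mul] at h3
    unfold cj at h3
    rw [coeff_map] at h3
    rw [h3, mul_comm]
  refine ⟨coeff m q, ∑ k ∈ q.support, monomial k ((coeff k q / coeff m q).re), ?_⟩
  ext k
  have hmap : map (algebraMap ℝ ℂ) (∑ k ∈ q.support, monomial k ((coeff k q / coeff m q).re)) =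
      ∑ k ∈ q.support, monomial k (((coeff k q / coeff m q).re : ℝ) : ℂ) := by
    rw [map_sum]
    exact Finset.sum_congr rfl fun k _ => by rw [map_monomial]; rfl
  rw [hmap, coeff_C_mul, coeff_sum]
  simp only [coeff_monomial]
  rw [Finset.sum_ite_eq']
  split_ifs with hk
  · have h3 : (starRingEnd ℂ) (coeff k q / coeff m q) = coeff k q / coeff m q := by
      rw [map_div₀, hcoef, hcoef]
      have h4 : coeff 0 w ≠ 0 := by
        intro h0
        rw [h0, map_zero] at h2
        exact hw0 h2
      field_simp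
    rw [Complex.conj_eq_iff_re.1 h3]
    field_simp
  · rw [mul_zero]
    exact notMem_support_iff.1 hk

theorem eval_self_of_dd {n d : ℕ} (q : MvPolynomial (Fin n) ℂ) (hq : q.IsHomogeneous d)
    (hd : 1 ≤ d) (v : Fin n → ℂ) (h : dd v q = 0) : eval v q = 0 := by
  have h1 : HasDerivAt (fun τ : ℂ => τ • v) v 1 := by
    have := (hasDerivAt_id (1 : ℂ)).smul_const v
    simpa using this
  have h2' : HasFDerivAt (fun z => eval z q) (dlin q ((1 : ℂ) • v)) ((1 : ℂ) • v) :=
    (hasStrict q ((1 : ℂ) • v)).hasFDerivAt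
  have h2 : HasDerivAt (fun τ : ℂ => eval (τ • v) q) (dlin q ((1 : ℂ) • v) v) 1 :=
    HasFDerivAt.comp_hasDerivAt (1 : ℂ) (l := fun z => eval z q) (f := fun τ : ℂ => τ • v)
      h2' h1
  rw [← eval_dd, h, map_zero] at h2
  have h3 : HasDerivAt (fun τ : ℂ => eval (τ • v) q) ((d : ℂ) * 1 ^ (d - 1) * eval v q) 1 := by
    have e1 : (fun τ : ℂ => eval (τ • v) q) = fun τ => τ ^ d * eval v q := by
      funext τ
      exact eval_hsmul _ hq _ _
    rw [e1]
    exact (hasDerivAt_pow d (1 : ℂ)).mul_const _
  have h4 := h3.unique h2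
  rw [one_pow, mul_one] at h4
  rcases mul_eq_zero.1 h4 with h5 | h5
  · have : d = 0 := by exact_mod_cast h5
    omega
  · exact h5

theorem rank_le_two {n : ℕ} (z : Fin n → ℂ) (k₀ k₁ : Fin n) (h : ∀ i, i ≠ k₀ → i ≠ k₁ → z i = 0) :
    finrank ℚ (Submodule.span ℚ (Set.range z)) ≤ 2 := by
  classical
  have h1 : Submodule.span ℚ (Set.range z) ≤
      Submodule.span ℚ ((({z k₀, z k₁} : Finset ℂ)) : Set ℂ) := by
    rw [Submodule.span_le]
    rintro _ ⟨i, rfl⟩
    by_cases h0 : i = k₀
    · rw [h0]
      exact Submodule.subset_span (by simp)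
    by_cases h1 : i = k₁
    · rw [h1]
      exact Submodule.subset_span (by simp)
    · rw [h i h0 h1]
      exact Submodule.zero_mem _
  have h2 : Module.Finite ℚ (Submodule.span ℚ ((({z k₀, z k₁} : Finset ℂ)) : Set ℂ)) :=
    FiniteDimensional.span_finset ℚ _
  exact (Submodule.finrank_mono h1).trans ((finrank_span_finset_le_card _).trans
    Finset.card_le_two)

section

variable {n : ℕ} (d : Fin 1 → ℕ) (S : Fin 1 → Finset (Fin n →₀ ℕ))
  (hS : ∀ i m, m ∈ S i ↔ m.degree ≤ d i)

include hS

/-- irreducible factors of a generic form -/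
theorem factor_gen (hn : 2 ≤ n) (hd : 1 ≤ d 0) (a : (Σ i : Fin 1, {m // m ∈ S i}) → ℂ)
    (ha : AlgebraicIndependent ℚ (Sum.elim (fun p => (a p).re) (fun p => (a p).im))) :
    ∃ q u : MvPolynomial (Fin n) ℂ, Hp d S a 0 = q * u ∧ Irreducible q ∧ ¬ q ∣ u ∧ NZ q ∧
      (∃ k, q.IsHomogeneous k) ∧ ∀ v : Fin n → ℚ, v ≠ 0 → dd (fun i => (v i : ℂ)) q ≠ 0 := by
  classical
  have hac := complex_of_real a ha
  have hdd : ∀ i : Fin 1, 1 ≤ d i := by
    intro i
    have hi : i = 0 := Subsingleton.elim _ _
    rw [hi]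
    exact hd
  obtain ⟨k₀, k₁, hk⟩ : ∃ k₀ k₁ : Fin n, k₀ ≠ k₁ :=
    ⟨⟨0, by omega⟩, ⟨1, by omega⟩, by simp [Fin.ext_iff]⟩
  have hh := Hp_homog d S a 0
  -- the form does not vanish at the unit vectors
  have hh0 : Hp d S a 0 ≠ 0 := by
    intro h0
    have h1 := cond_complex d S hS a hac le_rfl (Pi.single k₀ 1) (by
      intro h
      have := congrFun h k₀
      rw [Pi.single_eq_same, Pi.zero_apply] at this
      exact one_ne_zero this) (fun i => by
        have hi : i = 0 := Subsingleton.elim _ _
        rw [hi, h0, map_zero])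
    have h2 : Submodule.span ℚ (Set.range (Pi.single k₀ 1 : Fin n → ℂ)) ≤
        Submodule.span ℚ ((({1} : Finset ℂ)) : Set ℂ) := by
      rw [Submodule.span_le]
      rintro _ ⟨i, rfl⟩
      by_cases hi : i = k₀
      · rw [hi, Pi.single_eq_same]
        exact Submodule.subset_span (by simp)
      · rw [Pi.single_eq_of_ne hi]
        exact Submodule.zero_mem _
    have h3 : Module.Finite ℚ (Submodule.span ℚ ((({1} : Finset ℂ)) : Set ℂ)) :=
      FiniteDimensional.span_finset ℚ _
    have h4 := (Submodule.finrank_mono h2).trans (finrank_span_finset_le_card _)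
    rw [Finset.card_singleton] at h4
    omega
  have hhu : ¬ IsUnit (Hp d S a 0) := by
    intro hu
    obtain ⟨c, hc, hc'⟩ := MvPolynomial.isUnit_iff_eq_C_of_isReduced.1 hu
    have h1 := hh.totalDegree hh0
    rw [hc', totalDegree_C] at h1
    omega
  obtain ⟨q, hirr, u, hqu⟩ := WfDvdMonoid.exists_irreducible_factor hhu hh0
  have hqh := homog_of_dvd hh hh0 ⟨u, hqu⟩
  have hqd : 1 ≤ q.totalDegree := by
    by_contra hcon
    have h1 : q.totalDegree = 0 := by omega
    rw [totalDegree_eq_zero_iff_eq_C] at h1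
    apply hirr.not_isUnit
    rw [h1]
    refine IsUnit.map C (isUnit_iff_ne_zero.2 ?_)
    intro h0
    rw [h0, map_zero] at h1
    exact hirr.ne_zero h1
  have hq00 : eval (0 : Fin n → ℂ) q = 0 := by
    have h3 := eval_hsmul _ hqh 0 0
    rw [zero_smul, zero_pow (by omega), zero_mul] at h3
    exact h3
  have hdvd : ∀ z, eval z q = 0 → ∀ i : Fin 1, eval z (Hp d S a i) = 0 := by
    intro z hz i
    have hi : i = 0 := Subsingleton.elim _ _
    rw [hi, hqu, map_mul, hz, zero_mul]
  have hndd : ¬ q ∣ u := by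
    rintro ⟨w, hw⟩
    obtain ⟨v, hv, hv0⟩ := Pool.Agent.H552R3.Tsen.exists_common_zero (fun _ : Fin 1 => q)
      (fun _ => hq00) (by rw [Fintype.card_fin, Fintype.card_fin]; omega)
    have h1 := cond_smooth d S hS hdd a hac v hv (hdvd v (hv0 0))
    rw [Fintype.linearIndependent_iff] at h1
    have h2 := h1 (fun _ => 1) (by
      funext k
      rw [Finset.univ_unique, Finset.sum_singleton, Pi.smul_apply, one_smul, Pi.zero_apply]
      have hdef : (default : Fin 1) = 0 := rfl
      rw [hdef, hqu, hw, Derivation.leibniz, Derivation.leibniz]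
      simp only [smul_eq_mul, map_add, map_mul, hv0 0]
      ring) 0
    exact one_ne_zero h2
  have hv : ∀ v : Fin n → ℚ, v ≠ 0 → dd (fun i => (v i : ℂ)) q ≠ 0 := by
    intro v hv0 h0
    have h1 := eval_self_of_dd q hqh hqd _ h0
    have h2 := cond_complex d S hS a hac le_rfl (fun i => (v i : ℂ)) (by
      intro h
      apply hv0
      funext i
      have := congrFun h i
      simp only [Pi.zero_apply] at this
      exact_mod_cast this) (hdvd _ h1)
    have h3 : Submodule.span ℚ (Set.range (fun i => (v i : ℂ))) ≤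
        Submodule.span ℚ ((({1} : Finset ℂ)) : Set ℂ) := by
      rw [Submodule.span_le]
      rintro _ ⟨i, rfl⟩
      have h4 : ((v i : ℚ) : ℂ) = v i • (1 : ℂ) := by
        rw [Rat.smul_def, mul_one]
      show ((v i : ℚ) : ℂ) ∈ Submodule.span ℚ ((({1} : Finset ℂ)) : Set ℂ)
      rw [h4]
      exact Submodule.smul_mem _ _ (Submodule.subset_span (by simp))
    have h4 : Module.Finite ℚ (Submodule.span ℚ ((({1} : Finset ℂ)) : Set ℂ)) :=
      FiniteDimensional.span_finset ℚ _
    have h5 := (Submodule.finrank_mono h3).trans (finrank_span_finset_le_card _)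
    rw [Finset.card_singleton] at h5
    omega
  refine ⟨q, u, hqu, hirr, hndd, nz_of q hqh hirr hv (cj q) ?_ ?_, ⟨_, hqh⟩, hv⟩
  · intro hcj
    -- a zero in a rational plane
    obtain ⟨z, hz, hz0⟩ := Pool.Agent.H552R3.Tsen.exists_common_zero
      (fun i : {i : Fin n // i ≠ k₁} => if i.1 = k₀ then q else X i.1)
      (fun i => by
        split_ifs
        · exact hq00
        · simp) (by
        rw [Fintype.card_subtype_compl, Fintype.card_fin, Fintype.card_subtype_eq]
        omega)
    have hzq : eval z q = 0 := by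
      have := hz0 ⟨k₀, hk⟩
      rwa [if_pos rfl] at this
    have hzi : ∀ i, i ≠ k₀ → i ≠ k₁ → z i = 0 := by
      intro i h0 h1
      have := hz0 ⟨i, h1⟩
      rw [if_neg h0, eval_X] at this
      exact this
    have hzc : eval (fun i => (starRingEnd ℂ) (z i)) q = 0 := by
      obtain ⟨w, hw⟩ := hcj
      have h1 := congrArg (eval z) hw
      rw [map_mul, hzq, zero_mul, eval_cj] at h1
      exact (map_eq_zero _).1 h1
    obtain ⟨k, hk'⟩ := Function.ne_iff.1 hz
    rw [Pi.zero_apply] at hk'
    obtain ⟨z', hz'⟩ : ∃ z' : Fin n → ℂ, z' = fun j => (z k)⁻¹ * z j := ⟨_, rfl⟩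
    have hz'q : eval z' (Hp d S a 0) = 0 := by
      have h3 := eval_hsmul _ hh (z k)⁻¹ z
      rw [hdvd z hzq 0, mul_zero] at h3
      rw [hz']
      exact h3
    have hz'c : eval (fun i => (starRingEnd ℂ) (z' i)) (Hp d S a 0) = 0 := by
      have h3 := eval_hsmul _ hh ((starRingEnd ℂ) (z k)⁻¹) (fun i => (starRingEnd ℂ) (z i))
      rw [hdvd _ hzc 0, mul_zero] at h3
      rw [hz']
      simp only [map_mul]
      exact h3
    have hsum1 : ∑ p, a p * Vw d S z' 0 p = 0 := by
      rw [← eval_Hp]
      exact hz'q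
    have hsum2 : ∑ p, (starRingEnd ℂ) (a p) * Vw d S z' 0 p = 0 := by
      have h1 : ∑ p, a p * Vw d S (fun i => (starRingEnd ℂ) (z' i)) 0 p = 0 := by
        rw [← eval_Hp]
        exact hz'c
      have h2 := congrArg (starRingEnd ℂ) h1
      rw [map_sum, map_zero] at h2
      rw [← h2]
      refine Finset.sum_congr rfl fun p _ => ?_
      rw [map_mul]
      congr 1
      unfold Vw
      split_ifs
      · rw [map_prod]
        refine Finset.prod_congr rfl fun j _ => ?_
        rw [map_pow, Complex.conj_conj]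
      · rw [map_zero]
    have h1 := rank_zero d S hS 1 (τ := Bool)
      (fun t p => if t then (((a p).re : ℝ) : ℂ) else (((a p).im : ℝ) : ℂ)) (by
      have h2 : (fun p : Bool × (Σ i : Fin 1, {m // m ∈ S i}) =>
          if p.1 then (((a p.2).re : ℝ) : ℂ) else (((a p.2).im : ℝ) : ℂ)) =
          (fun t => ((Sum.elim (fun p => (a p).re) (fun p => (a p).im) t : ℝ) : ℂ)) ∘
            fun p => if p.1 then Sum.inl p.2 else Sum.inr p.2 := by
        funext p
        rcases p with ⟨t, p⟩
        cases t <;> rfl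
      rw [h2]
      have h3 : AlgebraicIndependent ℚ
          (fun t => ((Sum.elim (fun p => (a p).re) (fun p => (a p).im) t : ℝ) : ℂ)) :=
        ha.map' (f := (Algebra.ofId ℝ ℂ).restrictScalars ℚ) (by
          intro a b hab
          exact Complex.ofReal_injective hab)
      refine h3.comp _ ?_
      rintro ⟨t, p⟩ ⟨t', q⟩ h
      cases t <;> cases t'
      · exact Prod.ext rfl (Sum.inr.inj h)
      · cases h
      · cases h
      · exact Prod.ext rfl (Sum.inl.inj h)) z' k (by
        rw [hz']
        exact inv_mul_cancel₀ hk') (fun t i => by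
        have hi : i = 0 := Subsingleton.elim _ _
        subst hi
        cases t
        · have h4 : ∑ p, (((a p).im : ℝ) : ℂ) * Vw d S z' 0 p =
              (∑ p, a p * Vw d S z' 0 p - ∑ p, (starRingEnd ℂ) (a p) * Vw d S z' 0 p) *
                (2 * Complex.I)⁻¹ := by
            rw [← Finset.sum_sub_distrib, Finset.sum_mul]
            refine Finset.sum_congr rfl fun p _ => ?_
            have h5 := Complex.sub_conj (a p)
            have h6 : (((a p).im : ℝ) : ℂ) = (a p - (starRingEnd ℂ) (a p)) * (2 * Complex.I)⁻¹ := by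
              rw [h5]
              have := Complex.I_ne_zero
              push_cast
              field_simp
            rw [h6]
            ring
          show ∑ p, (((a p).im : ℝ) : ℂ) * Vw d S z' 0 p = 0
          rw [h4, hsum1, hsum2, sub_zero, zero_mul]
        · have h4 : ∑ p, (((a p).re : ℝ) : ℂ) * Vw d S z' 0 p =
              (∑ p, a p * Vw d S z' 0 p + ∑ p, (starRingEnd ℂ) (a p) * Vw d S z' 0 p) * 2⁻¹ := by
            rw [← Finset.sum_add_distrib, Finset.sum_mul]
            refine Finset.sum_congr rfl fun p _ => ?_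
            have h5 := Complex.add_conj (a p)
            have h6 : (((a p).re : ℝ) : ℂ) = (a p + (starRingEnd ℂ) (a p)) * 2⁻¹ := by
              rw [h5]
              push_cast
              ring
            rw [h6]
            ring
          show ∑ p, (((a p).re : ℝ) : ℂ) * Vw d S z' 0 p = 0
          rw [h4, hsum1, hsum2, add_zero, zero_mul]) (by
        have h4 := span_scale (z k)⁻¹ (inv_ne_zero hk') z
        have h5 := rank_le_two z k₀ k₁ hzi
        rw [hz']
        omega)
    rw [Fintype.card_bool] at h1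
    omega
  · intro x hx
    rw [eval_cj]
    simp only [Complex.conj_ofReal]
    rw [hx, map_zero]

end

end Pool.Agent.Run7.h490
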