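import Pool.Agent.K3h76.ET.GPQ

/-! Linear spaces in general position with respect to the dimension `q` of the space of their real
parts. -/

set_option autoImplicit false

namespace Pool.Agent.Run7.h490

open Pool.Agent.K3h22.EX Module

/-- the real parts of the points of `L` -/
noncomputable def reL {n : ℕ} (L : Submodule ℂ (Fin n → ℂ)) : Submodule ℝ (Fin n → ℝ) where
  carrier := {w | ∃ ξ ∈ L, ∀ i, (ξ i).re = w i}
  add_mem' := by
    rintro a b ⟨x, hx, ha⟩ ⟨y, hy, hb⟩
    exact ⟨x + y, L.add_mem hx hy, fun i => by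
      rw [Pi.add_apply, Pi.add_apply, Complex.add_re, ha, hb]⟩
  zero_mem' := ⟨0, L.zero_mem, fun i => by simp⟩
  smul_mem' := by
    rintro c a ⟨x, hx, ha⟩
    exact ⟨(c : ℂ) • x, L.smul_mem _ hx, fun i => by
      rw [Pi.smul_apply, Pi.smul_apply, smul_eq_mul, smul_eq_mul, Complex.re_ofReal_mul, ha]⟩

theorem mem_reL {n : ℕ} (L : Submodule ℂ (Fin n → ℂ)) (w : Fin n → ℝ) :
    w ∈ reL L ↔ ∃ ξ ∈ L, ∀ i, (ξ i).re = w i := Iff.rfl

/-- the rank over `ℚ` of the coordinates of a combination of `k` rational vectors -/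
theorem rank_comb {n k : ℕ} {E : Type} [AddCommGroup E] [Module ℚ E] (c : Fin k → E)
    (M : Fin k → Fin n → ℚ) :
    finrank ℚ (Submodule.span ℚ (Set.range fun j => ∑ i, M i j • c i)) ≤ k := by
  have h1 : Submodule.span ℚ (Set.range fun j => ∑ i, M i j • c i) ≤
      Submodule.span ℚ (Set.range c) := by
    rw [Submodule.span_le]
    rintro _ ⟨j, rfl⟩
    exact Submodule.sum_mem _ fun i _ => Submodule.smul_mem _ _ (Submodule.subset_span ⟨i, rfl⟩)
  have : Module.Finite ℚ (Submodule.span ℚ (Set.range c)) :=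
    FiniteDimensional.span_of_finite ℚ (Set.finite_range c)
  refine (Submodule.finrank_mono h1).trans ?_
  have h2 := finrank_range_le_card (R := ℚ) c
  rwa [Fintype.card_fin] at h2

/-- linear independence over `ℚ` and over `ℝ` -/
theorem rat_indep {n k : ℕ} (M : Fin k → Fin n → ℚ) (hM : LinearIndependent ℚ M)
    (a : Fin k → ℝ) (h : ∀ j, ∑ i, a i * (M i j : ℝ) = 0) : ∀ i, a i = 0 := by
  classical
  let T : (Fin k → ℚ) →ₗ[ℚ] (Fin n → ℚ) := Fintype.linearCombination ℚ M
  have hT : LinearMap.ker T = ⊥ := by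
    rw [Submodule.eq_bot_iff]
    intro x hx
    have h1 : ∑ i, x i • M i = 0 := hx
    funext i
    exact Fintype.linearIndependent_iff.1 hM x h1 i
  obtain ⟨S, hS⟩ := LinearMap.exists_leftInverse_of_injective T hT
  have hSM : ∀ i, S (M i) = Pi.single i 1 := by
    intro i
    have h1 : T (Pi.single i 1) = M i := by
      show ∑ i', (Pi.single i 1 : Fin k → ℚ) i' • M i' = M i
      rw [Finset.sum_eq_single i]
      · rw [Pi.single_eq_same, one_smul]
      · intro b _ hb
        rw [Pi.single_eq_of_ne hb, zero_smul]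
      · intro hi
        exact absurd (Finset.mem_univ i) hi
    rw [← h1]
    exact LinearMap.congr_fun hS _
  have hSc : ∀ (v : Fin n → ℚ) (i : Fin k), S v i = ∑ j, S (Pi.single j 1) i * v j := by
    intro v i
    conv_lhs => rw [← Finset.univ_sum_single v]
    rw [map_sum, Finset.sum_apply]
    refine Finset.sum_congr rfl fun j _ => ?_
    have : Pi.single j (v j) = (v j) • (Pi.single j (1 : ℚ) : Fin n → ℚ) := by
      rw [← Pi.single_smul]
      simp
    rw [this, map_smul, Pi.smul_apply, smul_eq_mul, mul_comm]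
  intro i₀
  have h1 : ∑ j, (S (Pi.single j 1) i₀ : ℝ) * ∑ i, a i * (M i j : ℝ) = 0 := by
    refine Finset.sum_eq_zero fun j _ => ?_
    rw [h j, mul_zero]
  simp only [Finset.mul_sum] at h1
  rw [Finset.sum_comm] at h1
  rw [← h1, Finset.sum_eq_single i₀]
  · have h2 := hSc (M i₀) i₀
    rw [hSM, Pi.single_eq_same] at h2
    have h3 : (1 : ℝ) = ∑ j, (S (Pi.single j 1) i₀ : ℝ) * (M i₀ j : ℝ) := by
      have := congrArg (fun x : ℚ => (x : ℝ)) h2
      push_cast at this
      exact this
    calc a i₀ = a i₀ * 1 := (mul_one _).symm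
      _ = _ := by
        rw [h3, Finset.mul_sum]
        exact Finset.sum_congr rfl fun j _ => by ring
  · intro i _ hi
    have h2 := hSc (M i) i₀
    rw [hSM, Pi.single_eq_of_ne (Ne.symm hi)] at h2
    have h3 : (0 : ℝ) = ∑ j, (S (Pi.single j 1) i₀ : ℝ) * (M i j : ℝ) := by
      have := congrArg (fun x : ℚ => (x : ℝ)) h2
      push_cast at this
      exact this
    calc ∑ j, (S (Pi.single j 1) i₀ : ℝ) * (a i * (M i j : ℝ)) =
        a i * ∑ j, (S (Pi.single j 1) i₀ : ℝ) * (M i j : ℝ) := by
          rw [Finset.mul_sum]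
          exact Finset.sum_congr rfl fun j _ => by ring
      _ = 0 := by rw [← h3, mul_zero]
  · intro hi
    exact absurd (Finset.mem_univ i₀) hi

/-- surjectivity of rational forms on the real parts -/
theorem surj_re {n q : ℕ} (L : Submodule ℂ (Fin n → ℂ))
    (hreal : ∀ c : Fin n → ℝ, c ≠ 0 → finrank ℚ (Submodule.span ℚ (Set.range c)) ≤ q →
      ∃ v ∈ L, ∑ i, (c i : ℂ) * v i ≠ 0) (k : ℕ) (M : Fin k → Fin n → ℚ) (hk : k ≤ q)
    (hM : LinearIndependent ℚ M) :
    Function.Surjective ((Pool.Agent.K3h76.ET.rowMap fun i j => (M i j : ℝ)).domRestrict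
      (reL L)) := by
  rw [← LinearMap.range_eq_top]
  by_contra hne
  obtain ⟨f, hf0, hf⟩ := Submodule.exists_le_ker_of_lt_top _ (lt_top_iff_ne_top.2 hne)
  have hfc : ∀ y : Fin k → ℝ, f y = ∑ i, f (Pi.single i 1) * y i := by
    intro y
    conv_lhs => rw [← Finset.univ_sum_single y]
    rw [map_sum]
    refine Finset.sum_congr rfl fun i _ => ?_
    have : Pi.single i (y i) = (y i) • (Pi.single i (1 : ℝ) : Fin k → ℝ) := by
      rw [← Pi.single_smul]
      simp
    rw [this, map_smul, smul_eq_mul, mul_comm]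
  set a : Fin k → ℝ := fun i => f (Pi.single i 1) with ha
  set c : Fin n → ℝ := fun j => ∑ i, M i j • a i with hc
  have hc0 : c ≠ 0 := by
    intro h0
    apply hf0
    have h2 : ∀ i, a i = 0 := by
      refine rat_indep M hM a fun j => ?_
      have := congrFun h0 j
      simp only [hc, Pi.zero_apply] at this
      rw [← this]
      refine Finset.sum_congr rfl fun i _ => ?_
      rw [Rat.smul_def, mul_comm]
    refine LinearMap.ext fun y => ?_
    rw [hfc]
    refine Finset.sum_eq_zero fun i _ => ?_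
    have := h2 i
    rw [ha] at this
    simp only at this
    rw [this, zero_mul]
  obtain ⟨v, hv, hne0⟩ := hreal c hc0 ((rank_comb a M).trans hk)
  apply hne0
  have key : ∀ ξ ∈ L, ∑ j, c j * (ξ j).re = 0 := by
    intro ξ hξ
    have h1 : f ((Pool.Agent.K3h76.ET.rowMap fun i j => (M i j : ℝ)) fun j => (ξ j).re) = 0 :=
      hf ⟨⟨fun j => (ξ j).re, ξ, hξ, fun i => rfl⟩, rfl⟩
    rw [hfc] at h1
    rw [← h1]
    show _ = ∑ i, f (Pi.single i 1) * ∑ j, (M i j : ℝ) * (ξ j).re
    simp only [hc, Finset.sum_mul, Finset.mul_sum]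
    rw [Finset.sum_comm]
    refine Finset.sum_congr rfl fun i _ => Finset.sum_congr rfl fun j _ => ?_
    rw [Rat.smul_def]
    ring
  have h1 := key v hv
  have h2 := key (Complex.I • v) (L.smul_mem _ hv)
  apply Complex.ext
  · rw [Complex.re_sum, Complex.zero_re, ← h1]
    exact Finset.sum_congr rfl fun j _ => Complex.re_ofReal_mul _ _
  · rw [Complex.im_sum, Complex.zero_im]
    have h3 : ∑ j, c j * (v j).im = 0 := by
      rw [← neg_eq_zero, ← Finset.sum_neg_distrib, ← h2]
      refine Finset.sum_congr rfl fun j _ => ?_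
      rw [Pi.smul_apply, smul_eq_mul, Complex.I_mul_re]
      ring
    rw [← h3]
    exact Finset.sum_congr rfl fun j _ => Complex.im_ofReal_mul _ _

/-- rational relations have only the zero solution in `L` -/
theorem ratRel {n s : ℕ} (L : Submodule ℂ (Fin n → ℂ)) (hs : finrank ℂ L = s)
    (hcomp : ∀ c : Fin n → ℂ, c ≠ 0 → finrank ℚ (Submodule.span ℚ (Set.range c)) ≤ s →
      ∃ v ∈ L, ∑ i, c i * v i ≠ 0) (r : ℕ) (e : Fin s ⊕ Fin r ≃ Fin n)
    (σ : Fin s → Fin r → ℚ) : ∀ z ∈ L,
    (∀ j, z (e (Sum.inl j)) = ∑ b, (σ j b : ℂ) * z (e (Sum.inr b))) → z = 0 := by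
  classical
  -- the rational forms
  let M : Fin s → Fin n → ℚ := fun j i =>
    Sum.elim (fun j' => if j' = j then 1 else 0) (fun b => -σ j b) (e.symm i)
  have hMl : ∀ j j', M j (e (Sum.inl j')) = if j' = j then 1 else 0 := fun j j' => by
    simp [M]
  have hMr : ∀ j b, M j (e (Sum.inr b)) = -σ j b := fun j b => by
    simp [M]
  let Φ : L →ₗ[ℂ] (Fin s → ℂ) :=
    { toFun := fun z j => ∑ i, (M j i : ℂ) * z.1 i
      map_add' := fun z w => by
        funext j
        simp only [Submodule.coe_add, Pi.add_apply, mul_add, Finset.sum_add_distrib]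
      map_smul' := fun c z => by
        funext j
        simp only [Submodule.coe_smul, Pi.smul_apply, smul_eq_mul, RingHom.id_apply,
          Finset.mul_sum]
        exact Finset.sum_congr rfl fun i _ => by ring }
  have hΦ : ∀ z j, Φ z j = ∑ i, (M j i : ℂ) * z.1 i := fun _ _ => rfl
  have hsurj : Function.Surjective Φ := by
    rw [← LinearMap.range_eq_top]
    by_contra hne
    obtain ⟨f, hf0, hf⟩ := Submodule.exists_le_ker_of_lt_top _ (lt_top_iff_ne_top.2 hne)
    have hfc : ∀ y : Fin s → ℂ, f y = ∑ i, f (Pi.single i 1) * y i := by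
      intro y
      conv_lhs => rw [← Finset.univ_sum_single y]
      rw [map_sum]
      refine Finset.sum_congr rfl fun i _ => ?_
      have : Pi.single i (y i) = (y i) • (Pi.single i (1 : ℂ) : Fin s → ℂ) := by
        rw [← Pi.single_smul]
        simp
      rw [this, map_smul, smul_eq_mul, mul_comm]
    have hc0 : (fun i => ∑ j, M j i • f (Pi.single j 1)) ≠ (0 : Fin n → ℂ) := by
      intro h0
      apply hf0
      have h2 : ∀ j, f (Pi.single j 1) = 0 := by
        intro j
        have h3 := congrFun h0 (e (Sum.inl j))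
        simp only [Pi.zero_apply, hMl] at h3
        rw [Finset.sum_eq_single j] at h3
        · simpa using h3
        · intro j' _ hj'
          rw [if_neg (Ne.symm hj'), zero_smul]
        · intro h
          exact absurd (Finset.mem_univ j) h
      refine LinearMap.ext fun y => ?_
      rw [hfc]
      exact Finset.sum_eq_zero fun i _ => by rw [h2 i, zero_mul]
    obtain ⟨v, hv, hne0⟩ := hcomp _ hc0 (rank_comb (fun j => f (Pi.single j 1)) M)
    apply hne0
    have h1 : f (Φ ⟨v, hv⟩) = 0 := hf ⟨_, rfl⟩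
    rw [hfc] at h1
    rw [← h1]
    simp only [hΦ, Finset.sum_mul, Finset.mul_sum]
    rw [Finset.sum_comm]
    refine Finset.sum_congr rfl fun i _ => Finset.sum_congr rfl fun j _ => ?_
    rw [Rat.smul_def]
    ring
  have hinj : Function.Injective Φ := by
    refine (LinearMap.injective_iff_surjective_of_finrank_eq_finrank ?_).2 hsurj
    rw [hs, finrank_fin_fun]
  intro z hz hzσ
  have h1 : Φ ⟨z, hz⟩ = 0 := by
    funext j
    rw [hΦ, Pi.zero_apply, ← e.sum_comp, Fintype.sum_sum_type]
    simp only [hMl, hMr]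
    rw [Finset.sum_eq_single j]
    · rw [if_pos rfl, Rat.cast_one, one_mul, hzσ j, ← Finset.sum_add_distrib]
      refine Finset.sum_eq_zero fun b _ => ?_
      push_cast
      ring
    · intro j' _ hj'
      rw [if_neg hj', Rat.cast_zero, zero_mul]
    · intro h'
      exact absurd (Finset.mem_univ j) h'
  have h2 : (⟨z, hz⟩ : L) = 0 := hinj (by rw [h1, map_zero])
  exact congrArg Subtype.val h2

/-- the real parts of a linear space in general position -/
theorem gq_reL {n q : ℕ} (L : Submodule ℂ (Fin n → ℂ)) (hq : finrank ℝ (reL L) ≤ q)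
    (hreal : ∀ c : Fin n → ℝ, c ≠ 0 → finrank ℚ (Submodule.span ℚ (Set.range c)) ≤ q →
      ∃ v ∈ L, ∑ i, (c i : ℂ) * v i ≠ 0) :
    GQ (reL L) ∧ ∃ N : Fin (n - q) → Fin n → ℝ,
      ∀ w, (∀ i, ∑ j, N i j * w j = 0) → w ∈ reL L := by
  classical
  have hsurj := surj_re L hreal
  -- many coordinates
  have hdim : min n q ≤ finrank ℝ (reL L) := by
    obtain ⟨k0, hk0⟩ : ∃ k0, k0 = min n q := ⟨_, rfl⟩
    have hk1 : k0 ≤ n := by rw [hk0]; exact min_le_left _ _
    have hk2 : k0 ≤ q := by rw [hk0]; exact min_le_right _ _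
    let M : Fin k0 → Fin n → ℚ := fun i => Pi.single (Fin.castLE hk1 i) 1
    have hi : LinearIndependent ℚ M := by
      have h1 : LinearIndependent ℚ (fun i : Fin n => (Pi.single i 1 : Fin n → ℚ)) := by
        have := (Pi.basisFun ℚ (Fin n)).linearIndependent
        have h2 : (⇑(Pi.basisFun ℚ (Fin n))) = fun i : Fin n => (Pi.single i 1 : Fin n → ℚ) := by
          funext i
          rw [Pi.basisFun_apply]
        rwa [h2] at this
      exact h1.comp _ (Fin.castLE_injective _)
    have h3 := LinearMap.finrank_le_finrank_of_surjective (hsurj k0 M hk2 hi)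
    rw [Module.finrank_fin_fun] at h3
    rwa [← hk0]
  refine ⟨?_, ?_⟩
  · intro k M
    obtain ⟨r, f, hf1, hf2, hf3⟩ : ∃ (r : ℕ) (f : Fin r → Fin n → ℚ),
        (∀ i, f i ∈ Set.range fun i => (fun j => (M i j : ℚ))) ∧
        Submodule.span ℚ (Set.range f) =
          Submodule.span ℚ (Set.range fun i => (fun j => (M i j : ℚ))) ∧
        LinearIndependent ℚ f := ⟨_, Submodule.exists_fun_fin_finrank_span_eq ℚ _⟩
    rcases le_or_gt r q with hle | hgt
    · right
      intro x
      obtain ⟨w, hw⟩ := hsurj r f hle hf3 (fun i => ∑ j, (f i j : ℝ) * x j)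
      refine ⟨w.1, w.2, fun i => ?_⟩
      have h1 : ∀ v ∈ Submodule.span ℚ (Set.range f),
          ∑ j, (v j : ℝ) * w.1 j = ∑ j, (v j : ℝ) * x j := by
        intro v hv
        induction hv using Submodule.span_induction with
        | mem v hv =>
          obtain ⟨i, rfl⟩ := hv
          exact congrFun hw i
        | zero => simp
        | add v w _ _ hv hw =>
          simp only [Pi.add_apply, Rat.cast_add, add_mul, Finset.sum_add_distrib, hv, hw]
        | smul a v _ hv =>
          simp only [Pi.smul_apply, smul_eq_mul, Rat.cast_mul, mul_assoc, ← Finset.mul_sum, hv]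
      have h2 := h1 (fun j => (M i j : ℚ)) (by
        rw [hf2]
        exact Submodule.subset_span ⟨i, rfl⟩)
      simpa using h2
    · left
      intro x hxL hx
      have hi : LinearIndependent ℚ (f ∘ Fin.castLE hgt.le) :=
        hf3.comp _ (Fin.castLE_injective _)
      have h1 := hsurj q (f ∘ Fin.castLE hgt.le) le_rfl hi
      have hfr : finrank ℝ (reL L) = finrank ℝ (Fin q → ℝ) := by
        have h3 := LinearMap.finrank_le_finrank_of_surjective h1
        rw [Module.finrank_fin_fun] at h3 ⊢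
        omega
      have h2 := (LinearMap.injective_iff_surjective_of_finrank_eq_finrank hfr).2 h1
      have h3 : (⟨x, hxL⟩ : reL L) = 0 := by
        apply h2
        rw [map_zero]
        funext i
        obtain ⟨i', hi'⟩ := hf1 (Fin.castLE hgt.le i)
        show ∑ j, ((f (Fin.castLE hgt.le i) j : ℚ) : ℝ) * x j = 0
        rw [← hi']
        have := hx i'
        simpa using this
      exact congrArg Subtype.val h3
  · -- the equations
    set e := finrank ℝ ((Fin n → ℝ) ⧸ reL L) with he
    have hen : e ≤ n - q := by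
      have h1 := Submodule.finrank_quotient_add_finrank (reL L)
      rw [Module.finrank_fin_fun] at h1
      omega
    let Φ : (Fin n → ℝ) →ₗ[ℝ] (Fin e → ℝ) :=
      ((finBasis ℝ ((Fin n → ℝ) ⧸ reL L)).equivFun : _ →ₗ[ℝ] (Fin e → ℝ)).comp (reL L).mkQ
    have hΦ : ∀ w, Φ w = 0 → w ∈ reL L := by
      intro w hw
      have h1 : (finBasis ℝ ((Fin n → ℝ) ⧸ reL L)).equivFun ((reL L).mkQ w) = 0 := hw
      rw [LinearEquiv.map_eq_zero_iff] at h1
      rwa [Submodule.mkQ_apply, Submodule.Quotient.mk_eq_zero] at h1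
    have hΦc : ∀ (w : Fin n → ℝ) (i : Fin e), Φ w i = ∑ j, Φ (Pi.single j 1) i * w j := by
      intro w i
      conv_lhs => rw [← Finset.univ_sum_single w]
      rw [map_sum, Finset.sum_apply]
      refine Finset.sum_congr rfl fun j _ => ?_
      have : Pi.single j (w j) = (w j) • (Pi.single j (1 : ℝ) : Fin n → ℝ) := by
        rw [← Pi.single_smul]
        simp
      rw [this, map_smul, Pi.smul_apply, smul_eq_mul, mul_comm]
    refine ⟨fun i j => if h : (i : ℕ) < e then Φ (Pi.single j 1) ⟨i, h⟩ else 0, ?_⟩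
    intro w hw
    apply hΦ
    funext i
    have h1 := hw ⟨i, i.2.trans_le hen⟩
    rw [Pi.zero_apply, hΦc, ← h1]
    refine Finset.sum_congr rfl fun j _ => ?_
    beta_reduce
    rw [dif_pos i.2]

end Pool.Agent.Run7.h490
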