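import Mathlib

/-! Common zeros of polynomials whose leading forms have no common zero are algebraic. -/

set_option autoImplicit false

namespace Pool.Agent.Run7.h490

open MvPolynomial

theorem homogComp_mul_right {K : Type*} [Field K] {ι : Type*} {d n : ℕ}
    (h g : MvPolynomial ι K) (hg : g.IsHomogeneous d) (hn : d ≤ n) :
    homogeneousComponent n (h * g) = homogeneousComponent (n - d) h * g := by
  conv_lhs => rw [← sum_homogeneousComponent h, Finset.sum_mul, map_sum]
  have h1 : ∀ i, homogeneousComponent n (homogeneousComponent i h * g) =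
      if i = n - d then homogeneousComponent i h * g else 0 := by
    intro i
    rw [homogeneousComponent_of_mem (n := i + d)
      ((homogeneousComponent_isHomogeneous i h).mul hg)]
    by_cases hi : i = n - d
    · rw [if_pos hi, if_pos (by omega)]
    · rw [if_neg hi, if_neg (by omega)]
  simp only [h1, Finset.sum_ite_eq']
  split_ifs with h2
  · rfl
  · rw [homogeneousComponent_eq_zero (n - d) h (by
      rw [Finset.mem_range] at h2
      omega), zero_mul]

theorem homogComp_mul_right_zero {K : Type*} [Field K] {ι : Type*} {d n : ℕ}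
    (h g : MvPolynomial ι K) (hg : g.IsHomogeneous d) (hn : ¬ d ≤ n) :
    homogeneousComponent n (h * g) = 0 := by
  conv_lhs => rw [← sum_homogeneousComponent h, Finset.sum_mul, map_sum]
  refine Finset.sum_eq_zero fun i _ => ?_
  rw [homogeneousComponent_of_mem (n := i + d)
    ((homogeneousComponent_isHomogeneous i h).mul hg)]
  rw [if_neg (by omega)]

/-- coefficients of low degree -/
theorem homog_span {K : Type*} [Field K] {r t : ℕ} (p : Fin t → MvPolynomial (Fin r) K)
    (d : Fin t → ℕ) (hp : ∀ i, (p i).IsHomogeneous (d i)) (g : MvPolynomial (Fin r) K) (N : ℕ)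
    (hg : g.IsHomogeneous N) (hmem : g ∈ Ideal.span (Set.range p)) :
    ∃ c : Fin t → MvPolynomial (Fin r) K, (∀ i, c i = 0 ∨ (c i).totalDegree + d i ≤ N) ∧
      g = ∑ i, c i * p i := by
  classical
  rw [Ideal.mem_span_range_iff_exists_fun] at hmem
  obtain ⟨a, ha⟩ := hmem
  refine ⟨fun i => if d i ≤ N then homogeneousComponent (N - d i) (a i) else 0, ?_, ?_⟩
  · intro i
    dsimp only
    by_cases h : d i ≤ N
    · right
      rw [if_pos h]
      have := (homogeneousComponent_isHomogeneous (N - d i) (a i)).totalDegree_le
      omega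
    · left
      rw [if_neg h]
  · have h1 : homogeneousComponent N g = g := by
      rw [homogeneousComponent_of_mem (n := N) hg, if_pos rfl]
    rw [← h1, ← ha, map_sum]
    refine Finset.sum_congr rfl fun i _ => ?_
    dsimp only
    by_cases h : d i ≤ N
    · rw [if_pos h, homogComp_mul_right _ _ (hp i) h]
    · rw [if_neg h, zero_mul, homogComp_mul_right_zero _ _ (hp i) h]

theorem alg_of_top {K L : Type*} [Field K] [Field L] [Algebra K L] {r t : ℕ}
    (p q : Fin t → MvPolynomial (Fin r) K) (d : Fin t → ℕ)
    (hp : ∀ i, (p i).IsHomogeneous (d i)) (hq : ∀ i, q i = 0 ∨ (q i).totalDegree < d i)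
    (hN : ∀ b, ∃ N, (X b : MvPolynomial (Fin r) K) ^ N ∈ Ideal.span (Set.range p))
    (θ : Fin r → L) (hθ : ∀ i, aeval θ (p i) + aeval θ (q i) = 0) (b : Fin r) :
    IsAlgebraic K (θ b) := by
  classical
  choose N hN using hN
  let W : ℕ → Submodule K L := fun k =>
    Submodule.map (aeval θ : MvPolynomial (Fin r) K →ₐ[K] L).toLinearMap
      (restrictTotalDegree (Fin r) K k)
  have hW : ∀ (k : ℕ) (g : MvPolynomial (Fin r) K), g.totalDegree ≤ k → aeval θ g ∈ W k := by
    intro k g hg
    exact ⟨g, (mem_restrictTotalDegree (Fin r) k g).2 hg, rfl⟩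
  obtain ⟨D, hD⟩ : ∃ D : ℕ, D = ∑ b, N b := ⟨_, rfl⟩
  have hWmono : ∀ k k', k ≤ k' → W k ≤ W k' := by
    rintro k k' hk _ ⟨g, hg, rfl⟩
    exact hW k' g (((mem_restrictTotalDegree (Fin r) k g).1 hg).trans hk)
  have hstep : ∀ k, D ≤ k → W (k + 1) ≤ W k := by
    rintro k hk _ ⟨g, hg, rfl⟩
    have hg' := (mem_restrictTotalDegree (Fin r) (k + 1) g).1 hg
    change aeval θ g ∈ W k
    rw [g.as_sum, map_sum]
    refine Submodule.sum_mem _ fun m hm => ?_
    have hmd : m.degree ≤ k + 1 := by
      have := le_totalDegree hm
      rw [Finsupp.degree_eq_sum]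
      rw [Finsupp.sum_fintype _ _ (by simp)] at this
      exact this.trans hg'
    by_cases hmk : m.degree ≤ k
    · apply hW
      refine (totalDegree_monomial_le _ _).trans ?_
      rwa [Finsupp.degree_eq_sum, ← Finsupp.sum_fintype _ (fun _ n => n) (by simp)] at hmk
    · have hmk' : m.degree = k + 1 := by omega
      -- one exponent is large
      obtain ⟨c, hc⟩ : ∃ c, N c ≤ m c := by
        by_contra hcon
        push Not at hcon
        have h1 : ∑ b, m b ≤ ∑ b, N b := Finset.sum_le_sum fun b _ => (hcon b).le
        rw [Finsupp.degree_eq_sum] at hmk'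
        omega
      obtain ⟨a, ha1, ha2⟩ := homog_span p d hp (X c ^ N c) (N c)
        (by
          have := (isHomogeneous_X K c).pow (N c)
          rwa [one_mul] at this) (hN c)
      have hsplit : monomial m (coeff m g) =
          monomial (m - Finsupp.single c (N c)) (coeff m g) * X c ^ N c := by
        rw [X_pow_eq_monomial, monomial_mul, mul_one, tsub_add_cancel_of_le]
        rw [Finsupp.single_le_iff]
        exact hc
      have hdeg' : (m - Finsupp.single c (N c)).degree + N c = k + 1 := by
        have h1 : m - Finsupp.single c (N c) + Finsupp.single c (N c) = m :=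
          tsub_add_cancel_of_le (by
            rw [Finsupp.single_le_iff]
            exact hc)
        have h2 := congrArg Finsupp.degree h1
        rw [map_add, Finsupp.degree_single, hmk'] at h2
        exact h2
      have hval : aeval θ (monomial m (coeff m g)) =
          aeval θ (-∑ i, monomial (m - Finsupp.single c (N c)) (coeff m g) * (a i * q i)) := by
        rw [hsplit, ha2, map_mul, map_neg, map_sum, map_sum, Finset.mul_sum,
          ← Finset.sum_neg_distrib]
        refine Finset.sum_congr rfl fun i _ => ?_
        rw [map_mul, map_mul, map_mul, ← mul_neg, ← mul_neg]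
        congr 2
        exact eq_neg_of_add_eq_zero_left (hθ i)
      rw [hval]
      apply hW
      rw [totalDegree_neg]
      refine totalDegree_finsetSum_le fun i _ => ?_
      rcases ha1 i with h0 | h0
      · rw [h0, zero_mul, mul_zero, totalDegree_zero]
        exact Nat.zero_le _
      rcases hq i with h1 | h1
      · rw [h1, mul_zero, mul_zero, totalDegree_zero]
        exact Nat.zero_le _
      refine (totalDegree_mul _ _).trans ?_
      have h2 := totalDegree_mul (a i) (q i)
      have h3 : (monomial (m - Finsupp.single c (N c)) (coeff m g)).totalDegree ≤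
          (m - Finsupp.single c (N c)).degree := by
        refine (totalDegree_monomial_le _ _).trans ?_
        rw [Finsupp.degree_eq_sum]
        exact (Finsupp.sum_fintype _ _ (fun _ => rfl)).le
      omega
  have hall : ∀ k, W (D + k) ≤ W D := by
    intro k
    induction k with
    | zero => exact le_rfl
    | succ k ih => exact (hstep (D + k) (by omega)).trans ih
  have hfg : (W D).FG := by
    apply Submodule.FG.map
    have : Module.Finite K (restrictTotalDegree (Fin r) K D) := inferInstance
    exact (Submodule.fg_iff_finiteDimensional _).2 this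
  have hne : W D ≠ ⊥ := by
    intro h0
    have h1 : aeval θ (1 : MvPolynomial (Fin r) K) ∈ W D := hW D 1 (by simp)
    rw [h0, Submodule.mem_bot, map_one] at h1
    exact one_ne_zero h1
  have hint : IsIntegral K (θ b) := by
    refine isIntegral_of_smul_mem_submodule (M := L) (W D) hne hfg (θ b) ?_
    rintro _ ⟨g, hg, rfl⟩
    have hg' := (mem_restrictTotalDegree (Fin r) D g).1 hg
    apply hall 1
    have h1 : θ b • (aeval θ : MvPolynomial (Fin r) K →ₐ[K] L).toLinearMap g =
        aeval θ (X b * g) := by
      rw [map_mul, aeval_X]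
      rfl
    rw [h1]
    apply hW
    refine (totalDegree_mul _ _).trans ?_
    rw [totalDegree_X]
    omega
  exact hint.isAlgebraic

end Pool.Agent.Run7.h490
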