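import Pool.Agent.K3h53.UG.Stm6
import Pool.Agent.K3h51.UG.Br
import Pool.Agent.H135R2.VS.Der

/-! Generic points of a smooth cone are nondegenerate along rational subspaces. -/

set_option autoImplicit false

namespace Pool.Agent.Run7.h490

open MvPolynomial Pool.Agent.K3h22.EX Pool.Agent.K3h53.UG Module

theorem der_aeval {K : Type} [Field K] [Algebra K ℂ] {n : ℕ} (D : Derivation K ℂ ℂ)
    (ζ : Fin n → ℂ) (g : MvPolynomial (Fin n) K) :
    D (aeval ζ g) = ∑ k, aeval ζ (pderiv k g) * D (ζ k) := by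
  induction g using MvPolynomial.induction_on with
  | C a =>
    simp
  | add p q hp hq =>
    rw [map_add, map_add, hp, hq, ← Finset.sum_add_distrib]
    refine Finset.sum_congr rfl fun k _ => ?_
    rw [map_add, map_add, add_mul]
  | mul_X p i hp =>
    rw [map_mul, aeval_X, Derivation.leibniz, hp, smul_eq_mul, smul_eq_mul, Finset.mul_sum]
    have h1 : ∀ k, aeval ζ (pderiv k (p * X i)) * D (ζ k) =
        ζ i * (aeval ζ (pderiv k p) * D (ζ k)) +
        (if k = i then aeval ζ p * D (ζ i) else 0) := by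
      intro k
      rw [Derivation.leibniz, map_add, smul_eq_mul, smul_eq_mul, map_mul, map_mul, aeval_X,
        pderiv_X]
      by_cases h : k = i
      · subst h
        rw [Pi.single_eq_same, map_one, if_pos rfl]
        ring
      · rw [Pi.single_eq_of_ne (Ne.symm h), map_zero, if_neg h]
        ring
    simp only [h1]
    rw [Finset.sum_add_distrib, Finset.sum_ite_eq' Finset.univ i, if_pos (Finset.mem_univ i)]
    ring

theorem der_rat {K : Type} [Field K] [Algebra K ℂ] (D : Derivation K ℂ ℂ) (q : ℚ) (z : ℂ) :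
    D ((q : ℂ) * z) = (q : ℂ) * D z := by
  have h1 : ∀ q : ℚ, D ((q : ℂ) * z) = (q : ℂ) * D z := by
    intro q
    have h2 : (q : ℂ) * z = q • z := (Rat.smul_def q z).symm
    have h3 : (q : ℂ) * D z = q • D z := (Rat.smul_def q (D z)).symm
    rw [h2, h3]
    exact map_rat_smul D q z
  exact h1 q

/-- the projection along the rational subspace -/
noncomputable def prj {n s r : ℕ} (e : Fin s ⊕ Fin r ≃ Fin n) (σ : Fin s → Fin r → ℚ) :
    (Fin n → ℂ) →ₗ[ℂ] (Fin s → ℂ) where
  toFun x j := x (e (Sum.inl j)) - ∑ b, (σ j b : ℂ) * x (e (Sum.inr b))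
  map_add' x y := by
    funext j
    simp only [Pi.add_apply, mul_add, Finset.sum_add_distrib]
    ring
  map_smul' c x := by
    funext j
    simp only [Pi.smul_apply, smul_eq_mul, RingHom.id_apply, mul_sub, Finset.mul_sum]
    congr 1
    exact Finset.sum_congr rfl fun b _ => by ring

theorem prj_apply {n s r : ℕ} (e : Fin s ⊕ Fin r ≃ Fin n) (σ : Fin s → Fin r → ℚ)
    (x : Fin n → ℂ) (j : Fin s) :
    prj e σ x j = x (e (Sum.inl j)) - ∑ b, (σ j b : ℂ) * x (e (Sum.inr b)) := rfl

theorem xr_inl {n s r : ℕ} (e : Fin s ⊕ Fin r ≃ Fin n) (σ : Fin s → Fin r → ℝ)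
    (l : Fin s → ℂ) (θ : Fin r → ℂ) (j : Fin s) :
    xr e σ l θ (e (Sum.inl j)) = l j + ∑ b, ((σ j b : ℝ) : ℂ) * θ b := by
  unfold xr
  rw [Equiv.symm_apply_apply]
  rfl

theorem xr_inr {n s r : ℕ} (e : Fin s ⊕ Fin r ≃ Fin n) (σ : Fin s → Fin r → ℝ)
    (l : Fin s → ℂ) (θ : Fin r → ℂ) (b : Fin r) :
    xr e σ l θ (e (Sum.inr b)) = θ b := by
  unfold xr
  rw [Equiv.symm_apply_apply]
  rfl

theorem prj_xr {n s r : ℕ} (e : Fin s ⊕ Fin r ≃ Fin n) (σ : Fin s → Fin r → ℚ)
    (l : Fin s → ℂ) (θ : Fin r → ℂ) :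
    prj e σ (xr e (fun j b => ((σ j b : ℚ) : ℝ)) l θ) = l := by
  funext j
  rw [prj_apply, xr_inl]
  simp only [xr_inr]
  push_cast
  ring

theorem eq_xr {n s r : ℕ} (e : Fin s ⊕ Fin r ≃ Fin n) (σ : Fin s → Fin r → ℚ)
    (x : Fin n → ℂ) :
    x = xr e (fun j b => ((σ j b : ℚ) : ℝ)) (prj e σ x) (fun b => x (e (Sum.inr b))) := by
  funext i
  obtain ⟨k, rfl⟩ := e.surjective i
  rcases k with j | b
  · rw [xr_inl, prj_apply]
    push_cast
    ring
  · rw [xr_inr]

theorem nondeg {K : Type} [Field K] [CharZero K] [Algebra K ℂ] {n s r : ℕ}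
    (e : Fin s ⊕ Fin r ≃ Fin n)
    (σ : Fin s → Fin r → ℚ) (f : Fin r → MvPolynomial (Fin n) K) (lam : Fin s → ℂ)
    (θ : Fin r → ℂ) (hlam : AlgebraicIndependent K lam)
    (hf : ∀ i, aeval (xr e (fun j b => ((σ j b : ℚ) : ℝ)) lam θ) (f i) = 0)
    (hgr : LinearIndependent ℂ fun (i : Fin r) (k : Fin n) =>
      aeval (xr e (fun j b => ((σ j b : ℚ) : ℝ)) lam θ) (pderiv k (f i))) :
    (Matrix.of fun i b : Fin r => eval (xr e (fun j b => ((σ j b : ℚ) : ℝ)) lam θ)
      (dd (xr e (fun j b => ((σ j b : ℚ) : ℝ)) 0 (Pi.single b 1))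
        (map (algebraMap K ℂ) (f i)))).det ≠ 0 := by
  classical
  obtain ⟨ζ, hζ⟩ : ∃ ζ, ζ = xr e (fun j b => ((σ j b : ℚ) : ℝ)) lam θ := ⟨_, rfl⟩
  rw [← hζ] at hf hgr ⊢
  have hns : n = s + r := by
    have := Fintype.card_congr e
    simp only [Fintype.card_sum, Fintype.card_fin] at this
    exact this.symm
  -- the differential
  let Φ : (Fin n → ℂ) →ₗ[ℂ] (Fin r → ℂ) :=
    { toFun := fun x i => ∑ k, aeval ζ (pderiv k (f i)) * x k
      map_add' := fun x y => by
        funext i
        simp only [Pi.add_apply, mul_add, Finset.sum_add_distrib]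
      map_smul' := fun c x => by
        funext i
        simp only [Pi.smul_apply, smul_eq_mul, RingHom.id_apply, Finset.mul_sum]
        exact Finset.sum_congr rfl fun k _ => by ring }
  have hΦ : ∀ x i, Φ x i = ∑ k, aeval ζ (pderiv k (f i)) * x k := fun _ _ => rfl
  have hsurj : LinearMap.range Φ = ⊤ := by
    by_contra hne
    obtain ⟨g, hg0, hg⟩ := Submodule.exists_le_ker_of_lt_top _ (lt_top_iff_ne_top.2 hne)
    have hgc : ∀ y : Fin r → ℂ, g y = ∑ i, g (Pi.single i 1) * y i := by
      intro y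
      conv_lhs => rw [← Finset.univ_sum_single y]
      rw [map_sum]
      refine Finset.sum_congr rfl fun i _ => ?_
      have : Pi.single i (y i) = (y i) • (Pi.single i (1 : ℂ) : Fin r → ℂ) := by
        rw [← Pi.single_smul]
        simp
      rw [this, map_smul, smul_eq_mul, mul_comm]
    have h1 := Fintype.linearIndependent_iff.1 hgr (fun i => g (Pi.single i 1)) (by
      funext k
      have h2 : g (Φ (Pi.single k 1)) = 0 := hg ⟨_, rfl⟩
      rw [hgc] at h2
      rw [Finset.sum_apply, Pi.zero_apply, ← h2]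
      refine Finset.sum_congr rfl fun i _ => ?_
      rw [Pi.smul_apply, smul_eq_mul, hΦ, Finset.sum_eq_single k]
      · rw [Pi.single_eq_same, mul_one]
      · intro k' _ hk'
        rw [Pi.single_eq_of_ne hk', mul_zero]
      · intro h
        exact absurd (Finset.mem_univ k) h)
    apply hg0
    refine LinearMap.ext fun y => ?_
    rw [hgc]
    exact Finset.sum_eq_zero fun i _ => by rw [h1 i, zero_mul]
  have hker : finrank ℂ (LinearMap.ker Φ) = s := by
    have h1 := LinearMap.finrank_range_add_finrank_ker Φ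
    rw [hsurj, finrank_top, finrank_fin_fun, finrank_fin_fun] at h1
    omega
  -- the derivations
  have hD : ∀ j : Fin s, ∃ D : Derivation K ℂ ℂ, ∀ j', D (lam j') = if j' = j then 1 else 0 :=
    fun j => Pool.Agent.H135R2.VS.exists_der hlam (fun j' => if j' = j then 1 else 0)
  choose D hD using hD
  have hprjζ : prj e σ ζ = lam := by rw [hζ, prj_xr]
  have hmem : ∀ j, (fun k => D j (ζ k)) ∈ LinearMap.ker Φ := by
    intro j
    rw [LinearMap.mem_ker]
    funext i
    rw [hΦ, ← der_aeval, hf i, map_zero, Pi.zero_apply]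
  have hprjD : ∀ j, prj e σ (fun k => D j (ζ k)) = Pi.single j 1 := by
    intro j
    funext j'
    rw [prj_apply]
    have h1 : D j (prj e σ ζ j') = D j (ζ (e (Sum.inl j'))) -
        ∑ b, (σ j' b : ℂ) * D j (ζ (e (Sum.inr b))) := by
      rw [prj_apply, map_sub, map_sum]
      congr 1
      exact Finset.sum_congr rfl fun b _ => der_rat _ _ _
    rw [← h1, hprjζ, hD, Pi.single_apply]
  let Ψ : LinearMap.ker Φ →ₗ[ℂ] (Fin s → ℂ) := (prj e σ).domRestrict (LinearMap.ker Φ)
  have hΨs : Function.Surjective Ψ := by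
    intro y
    refine ⟨∑ j, y j • ⟨_, hmem j⟩, ?_⟩
    rw [map_sum]
    funext j'
    rw [Finset.sum_apply, Finset.sum_eq_single j']
    · rw [map_smul]
      show y j' * prj e σ (fun k => D j' (ζ k)) j' = y j'
      rw [hprjD, Pi.single_eq_same, mul_one]
    · intro j _ hj
      rw [map_smul]
      show y j * prj e σ (fun k => D j (ζ k)) j' = 0
      rw [hprjD, Pi.single_eq_of_ne (Ne.symm hj), mul_zero]
    · intro h
      exact absurd (Finset.mem_univ j') h
  have hΨi : Function.Injective Ψ :=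
    (LinearMap.injective_iff_surjective_of_finrank_eq_finrank (by
      rw [hker, finrank_fin_fun])).2 hΨs
  intro hdet
  obtain ⟨c, hc0, hc⟩ := Matrix.exists_mulVec_eq_zero_iff.2 hdet
  have hv : xr e (fun j b => ((σ j b : ℚ) : ℝ)) 0 c ∈ LinearMap.ker Φ := by
    rw [LinearMap.mem_ker]
    funext i
    have h1 := congrFun hc i
    simp only [Matrix.mulVec, dotProduct, Matrix.of_apply, Pi.zero_apply,
      Pool.Agent.K3h51.UG.eval_dd, Pool.Agent.K3h67.EX.dlin_apply] at h1
    rw [Pi.zero_apply, hΦ, ← h1]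
    have h2 : ∀ k, xr e (fun j b => ((σ j b : ℚ) : ℝ)) 0 c k =
        ∑ b, xr e (fun j b => ((σ j b : ℚ) : ℝ)) 0 (Pi.single b 1) k * c b := by
      intro k
      obtain ⟨k, rfl⟩ := e.surjective k
      rcases k with j | b
      · simp only [xr_inl, Pi.zero_apply, zero_add]
        refine Finset.sum_congr rfl fun b _ => ?_
        rw [Finset.sum_eq_single b]
        · rw [Pi.single_eq_same, mul_one]
        · intro b' _ hb'
          rw [Pi.single_eq_of_ne hb', mul_zero]
        · intro h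
          exact absurd (Finset.mem_univ b) h
      · simp only [xr_inr]
        rw [Finset.sum_eq_single b]
        · rw [Pi.single_eq_same, one_mul]
        · intro b' _ hb'
          rw [Pi.single_eq_of_ne (Ne.symm hb'), zero_mul]
        · intro h
          exact absurd (Finset.mem_univ b) h
    have h3 : ∀ k, aeval ζ (pderiv k (f i)) = eval ζ (pderiv k (map (algebraMap K ℂ) (f i))) := by
      intro k
      rw [pderiv_map, eval_map]
      rfl
    simp only [h2, h3, Finset.mul_sum, Finset.sum_mul]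
    rw [Finset.sum_comm]
    exact Finset.sum_congr rfl fun b _ => Finset.sum_congr rfl fun k _ => by ring
  have h0 : (⟨_, hv⟩ : LinearMap.ker Φ) = 0 := by
    apply hΨi
    rw [map_zero]
    exact prj_xr e σ 0 c
  apply hc0
  funext b
  have h1 := congrFun (congrArg Subtype.val h0) (e (Sum.inr b))
  rw [show ((⟨_, hv⟩ : LinearMap.ker Φ) : Fin n → ℂ) (e (Sum.inr b)) = c b from
    xr_inr _ _ _ _ _] at h1
  exact h1

end Pool.Agent.Run7.h490
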