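import Mathlib
import Pool.Agent.H450R2.Sp.Null

/-! Algebra for generic points of cones: exchange, conjugation, real generic points, low degree. -/

set_option autoImplicit false

namespace Pool.Agent.Run7.h490

open MvPolynomial MeasureTheory Module

/-- real points with algebraically independent coordinates are dense -/
theorem gen_real (K : Type) [Field K] [Countable K] [Algebra K ℂ] {ι : Type} [Fintype ι]
    (U : Set (ι → ℝ)) (hU : IsOpen U) (hne : U.Nonempty) :
    ∃ x ∈ U, AlgebraicIndependent K (fun j => ((x j : ℝ) : ℂ)) := by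
  have hcnt : Countable (MvPolynomial ι K) := by
    rw [← Cardinal.mk_le_aleph0_iff]
    refine MvPolynomial.cardinalMk_le_max.trans ?_
    simp
  have key : ∀ q : MvPolynomial ι K,
      ∀ᵐ y : ι → ℝ, q ≠ 0 → aeval (fun j => ((y j : ℝ) : ℂ)) q ≠ 0 := by
    intro q
    by_cases hq : q = 0
    · exact Filter.Eventually.of_forall fun A h => absurd hq h
    set P : MvPolynomial ι ℂ := map (algebraMap K ℂ) q with hP
    have hP0 : P ≠ 0 := by
      rw [hP]
      exact (map_ne_zero_iff _ (map_injective _ (algebraMap K ℂ).injective)).2 hq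
    have h1 : ∀ᵐ y : ι → ℝ, eval (fun j => (y j : ℂ)) P ≠ 0 := by
      rw [ae_iff]
      simpa using H450Sp.poly_null P hP0
    filter_upwards [h1] with y hy _ h0
    apply hy
    rw [hP, eval_map]
    exact h0
  have h := ae_all_iff.2 key
  obtain ⟨x, hxU, hx⟩ : ∃ x ∈ U, ∀ q : MvPolynomial ι K, q ≠ 0 →
      aeval (fun j => ((x j : ℝ) : ℂ)) q ≠ 0 := by
    by_contra hcon
    push Not at hcon
    have h2 : volume U = 0 := by
      refine measure_mono_null ?_ (ae_iff.1 h)
      intro x hx
      obtain ⟨q, hq, hq0⟩ := hcon x hx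
      intro hall
      exact hall q hq hq0
    exact (hU.measure_pos volume hne).ne' h2
  refine ⟨x, hxU, ?_⟩
  rw [algebraicIndependent_iff]
  intro q hq
  by_contra hne
  exact hx q hne hq

theorem mem_cl {K : Type} [Field K] [Algebra K ℂ] (S : Set ℂ) (z : ℂ) :
    z ∈ (AlgebraicIndependent.matroid K ℂ).closure S ↔ IsAlgebraic (Algebra.adjoin K S) z := by
  rw [AlgebraicIndependent.matroid_closure_eq]
  rfl

/-- exchange -/
theorem exch {K : Type} [Field K] [Algebra K ℂ] {s : ℕ} (u x : Fin s → ℂ)
    (hx : AlgebraicIndependent K x)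
    (h : ∀ i, IsAlgebraic (Algebra.adjoin K (Set.range u)) (x i)) :
    AlgebraicIndependent K u := by
  classical
  obtain ⟨M, hM⟩ : ∃ M, M = AlgebraicIndependent.matroid K ℂ := ⟨_, rfl⟩
  have hI : M.Indep (Set.range x) := by
    rw [hM, AlgebraicIndependent.matroid_indep_iff]
    exact hx.coe_range
  have hsub : Set.range x ⊆ M.closure (Set.range u) := by
    rintro _ ⟨i, rfl⟩
    rw [hM]
    exact (mem_cl _ _).2 (h i)
  have hcx : (Set.range x).encard = s := by
    rw [← Set.image_univ, hx.injective.injOn.encard_image, Set.encard_univ]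
    simp
  have hcu : (Set.range u).encard ≤ s := by
    rw [← Set.image_univ]
    refine (Set.encard_image_le _ _).trans ?_
    rw [Set.encard_univ]
    simp
  have h1 : (s : ℕ∞) ≤ M.eRk (Set.range u) := by
    rw [← hcx, ← M.eRk_closure_eq (Set.range u)]
    exact hI.encard_le_eRk_of_subset hsub
  have h2 : M.eRk (Set.range u) ≤ (Set.range u).encard := M.eRk_le_encard _
  have h3 : (Set.range u).encard = s := le_antisymm hcu (h1.trans h2)
  have h4 : M.Indep (Set.range u) := by
    rw [Matroid.indep_iff_eRk_eq_encard_of_finite (Set.finite_range u)]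
    refine le_antisymm h2 ?_
    rw [h3]
    exact h1
  have hinj : Function.Injective u := by
    have h5 : (Finset.univ.image u).card = (Finset.univ : Finset (Fin s)).card := by
      have h6 : ((Finset.univ.image u : Finset ℂ) : Set ℂ).encard = s := by
        rw [Finset.coe_image, Finset.coe_univ, Set.image_univ]
        exact h3
      rw [Set.encard_coe_eq_coe_finsetCard] at h6
      rw [Finset.card_univ, Fintype.card_fin]
      exact_mod_cast h6
    have h7 := Finset.card_image_iff.1 h5
    rw [Finset.coe_univ, Set.injOn_univ] at h7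
    exact h7
  rw [hM, AlgebraicIndependent.matroid_indep_iff] at h4
  exact (algebraicIndependent_subtype_range hinj).1 h4

/-- conjugation -/
theorem alg_conj (E : Subfield ℂ) (hE : ∀ x ∈ E, (starRingEnd ℂ) x ∈ E) (z : ℂ)
    (h : IsAlgebraic E z) : IsAlgebraic E ((starRingEnd ℂ) z) := by
  obtain ⟨P, hP0, hP⟩ := h
  let φ : E →+* E := (starRingEnd ℂ).restrict E E hE
  refine ⟨P.map φ, ?_, ?_⟩
  · exact (Polynomial.map_ne_zero_iff φ.injective).2 hP0
  · have h1 : (algebraMap E ℂ).comp φ = (starRingEnd ℂ).comp (algebraMap E ℂ) := by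
      ext x
      rfl
    rw [Polynomial.aeval_def, Polynomial.eval₂_map, h1, ← Polynomial.hom_eval₂,
      ← Polynomial.aeval_def, hP, map_zero]

/-- low degree -/
def Low {K : Type*} [CommRing K] {r : ℕ} (d : ℕ) (A : MvPolynomial (Fin r) K) : Prop :=
  A = 0 ∨ A.totalDegree < d

theorem Low.add {K : Type*} [CommRing K] {r : ℕ} {d : ℕ} {A B : MvPolynomial (Fin r) K}
    (hA : Low d A) (hB : Low d B) : Low d (A + B) := by
  rcases hA with rfl | hA
  · rwa [zero_add]
  rcases hB with rfl | hB
  · rw [add_zero]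
    exact Or.inr hA
  exact Or.inr ((totalDegree_add A B).trans_lt (max_lt hA hB))

theorem Low.mul {K : Type*} [CommRing K] {r : ℕ} {a d : ℕ} {A B : MvPolynomial (Fin r) K}
    (hA : A.totalDegree ≤ a) (hB : Low d B) : Low (a + d) (A * B) := by
  rcases hB with rfl | hB
  · rw [mul_zero]
    exact Or.inl rfl
  · right
    have := totalDegree_mul A B
    omega

theorem Low.sum {K : Type*} [CommRing K] {r : ℕ} {d : ℕ} {κ : Type*} (S : Finset κ)
    (A : κ → MvPolynomial (Fin r) K) (hA : ∀ i ∈ S, Low d (A i)) : Low d (∑ i ∈ S, A i) := by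
  classical
  induction S using Finset.induction_on with
  | empty =>
    rw [Finset.sum_empty]
    exact Or.inl rfl
  | insert i S hi ih =>
    rw [Finset.sum_insert hi]
    exact (hA i (Finset.mem_insert_self i S)).add
      (ih fun j hj => hA j (Finset.mem_insert_of_mem hj))

/-- a polynomial with its leading part -/
def Gd {K : Type*} [CommRing K] {r : ℕ} (a : ℕ) (A A' : MvPolynomial (Fin r) K) : Prop :=
  A'.totalDegree ≤ a ∧ Low a (A - A')

theorem Gd.one {K : Type*} [CommRing K] {r : ℕ} : Gd 0 (1 : MvPolynomial (Fin r) K) 1 :=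
  ⟨by simp, Or.inl (sub_self _)⟩

theorem Gd.mul {K : Type*} [CommRing K] {r : ℕ} {a b : ℕ} {A A' B B' : MvPolynomial (Fin r) K}
    (hA : Gd a A A') (hB : Gd b B B') : Gd (a + b) (A * B) (A' * B') := by
  refine ⟨(totalDegree_mul _ _).trans (add_le_add hA.1 hB.1), ?_⟩
  have h1 : A * B - A' * B' = A' * (B - B') + (B' * (A - A') + (B - B') * (A - A')) := by ring
  rw [h1]
  refine (Low.mul hA.1 hB.2).add (Low.add ?_ ?_)
  · rw [add_comm a b]
    exact Low.mul hB.1 hA.2
  · rw [add_comm a b]
    refine Low.mul ?_ hA.2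
    rcases hB.2 with h | h
    · rw [h, totalDegree_zero]
      exact Nat.zero_le _
    · exact h.le

theorem Gd.pow {K : Type*} [CommRing K] {r : ℕ} {a : ℕ} {A A' : MvPolynomial (Fin r) K}
    (hA : Gd a A A') (k : ℕ) : Gd (k * a) (A ^ k) (A' ^ k) := by
  induction k with
  | zero =>
    rw [pow_zero, pow_zero, zero_mul]
    exact Gd.one
  | succ k ih =>
    rw [pow_succ, pow_succ, Nat.succ_mul]
    exact ih.mul hA

theorem Gd.prod {K : Type*} [CommRing K] {r : ℕ} {κ : Type*} (S : Finset κ) (a : κ → ℕ)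
    (A A' : κ → MvPolynomial (Fin r) K) (h : ∀ i ∈ S, Gd (a i) (A i) (A' i)) :
    Gd (∑ i ∈ S, a i) (∏ i ∈ S, A i) (∏ i ∈ S, A' i) := by
  classical
  induction S using Finset.induction_on with
  | empty =>
    rw [Finset.sum_empty, Finset.prod_empty, Finset.prod_empty]
    exact Gd.one
  | insert i S hi ih =>
    rw [Finset.sum_insert hi, Finset.prod_insert hi, Finset.prod_insert hi]
    exact (h i (Finset.mem_insert_self i S)).mul
      (ih fun j hj => h j (Finset.mem_insert_of_mem hj))

theorem low_aeval {K : Type*} [Field K] {n r : ℕ} (F : MvPolynomial (Fin n) K) (d : ℕ)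
    (hF : F.IsHomogeneous d) (P P' : Fin n → MvPolynomial (Fin r) K)
    (h : ∀ k, Gd 1 (P k) (P' k)) : Low d (aeval P F - aeval P' F) := by
  have h1 : aeval P F - aeval P' F = ∑ m ∈ F.support,
      (C (coeff m F) * ∏ k, P k ^ m k - C (coeff m F) * ∏ k, P' k ^ m k) := by
    rw [Finset.sum_sub_distrib]
    congr 1
    · rw [aeval_def, eval₂_eq']
      rfl
    · rw [aeval_def, eval₂_eq']
      rfl
  rw [h1]
  refine Low.sum _ _ fun m hm => ?_
  have h2 := Gd.prod Finset.univ (fun k => m k * 1) (fun k => P k ^ m k) (fun k => P' k ^ m k)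
    (fun k _ => (h k).pow (m k))
  have h3 : ∑ k, m k * 1 = d := by
    have := hF (mem_support_iff.1 hm)
    rw [Finsupp.weight_apply, Finsupp.sum_fintype _ _ (by simp)] at this
    simpa using this
  rw [h3] at h2
  rw [← mul_sub]
  have h4 := Low.mul (a := 0) (A := C (coeff m F)) (by simp) h2.2
  rwa [zero_add] at h4

end Pool.Agent.Run7.h490
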