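import Pool.Agent.Run7.h490.OD2
import Pool.Agent.Run7.h490.Lin
import Pool.Agent.Helper133.BULib

/-! Zeros of odd forms with given real part, by the theorem of Borsuk and Ulam. -/

set_option autoImplicit false

namespace Pool.Agent.Run7.h490

open MvPolynomial Pool.Agent.K3h22.EX Pool.Agent.K3h53.UG Module

theorem eval_hsmul {n d : ℕ} (f : MvPolynomial (Fin n) ℂ) (hf : f.IsHomogeneous d) (c : ℂ)
    (z : Fin n → ℂ) : eval (c • z) f = c ^ d * eval z f := by
  rw [eval_eq', eval_eq', Finset.mul_sum]
  refine Finset.sum_congr rfl fun m hm => ?_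
  have h1 : ∑ i, m i = d := by
    have := hf (mem_support_iff.1 hm)
    rw [Finsupp.weight_apply, Finsupp.sum_fintype _ _ (by simp)] at this
    simpa using this
  have h2 : ∏ i, (c • z) i ^ m i = c ^ d * ∏ i, z i ^ m i := by
    rw [← h1, ← Finset.prod_pow_eq_pow_sum, ← Finset.prod_mul_distrib]
    refine Finset.prod_congr rfl fun i _ => ?_
    rw [Pi.smul_apply, smul_eq_mul, mul_pow]
  rw [h2]
  ring

/-- the test space -/
noncomputable def Zf {n r s' : ℕ} (e : Fin (r + s') ⊕ Fin r ≃ Fin n)
    (σ : Fin (r + s') → Fin r → ℚ) (ω : Fin r → ℝ) (c : Fin s' → ℝ)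
    (v : Fin (r + r + 1) → ℝ) : Fin n → ℂ :=
  xr e (fun j b => ((σ j b : ℚ) : ℝ))
    (fun j => Complex.I * ((Fin.append (fun b => v (Fin.castSucc (Fin.castAdd r b)))
      (fun a => v (Fin.last _) * c a) j : ℝ) : ℂ))
    (fun b => ((v (Fin.last _) * ω b : ℝ) : ℂ) +
      Complex.I * ((v (Fin.castSucc (Fin.natAdd r b)) : ℝ) : ℂ))

theorem xr_add {n s r : ℕ} (e : Fin s ⊕ Fin r ≃ Fin n) (σ : Fin s → Fin r → ℝ)
    (l l' : Fin s → ℂ) (θ θ' : Fin r → ℂ) :
    xr e σ (l + l') (θ + θ') = xr e σ l θ + xr e σ l' θ' := by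
  funext i
  obtain ⟨k, rfl⟩ := e.surjective i
  rcases k with j | b
  · simp only [Pi.add_apply, xr_inl, mul_add, Finset.sum_add_distrib]
    ring
  · simp only [Pi.add_apply, xr_inr]

theorem xr_smul {n s r : ℕ} (e : Fin s ⊕ Fin r ≃ Fin n) (σ : Fin s → Fin r → ℝ)
    (a : ℂ) (l : Fin s → ℂ) (θ : Fin r → ℂ) :
    xr e σ (a • l) (a • θ) = a • xr e σ l θ := by
  funext i
  obtain ⟨k, rfl⟩ := e.surjective i
  rcases k with j | b
  · simp only [Pi.smul_apply, smul_eq_mul, xr_inl, mul_add, Finset.mul_sum]
    congr 1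
    exact Finset.sum_congr rfl fun b _ => by ring
  · simp only [Pi.smul_apply, smul_eq_mul, xr_inr]

theorem Zf_add {n r s' : ℕ} (e : Fin (r + s') ⊕ Fin r ≃ Fin n)
    (σ : Fin (r + s') → Fin r → ℚ) (ω : Fin r → ℝ) (c : Fin s' → ℝ)
    (v w : Fin (r + r + 1) → ℝ) : Zf e σ ω c (v + w) = Zf e σ ω c v + Zf e σ ω c w := by
  unfold Zf
  rw [← xr_add]
  congr 1
  · funext j
    induction j using Fin.addCases with
    | left j =>
      simp only [Fin.append_left, Pi.add_apply]
      push_cast
      ring
    | right j =>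
      simp only [Fin.append_right, Pi.add_apply]
      push_cast
      ring
  · funext b
    simp only [Pi.add_apply]
    push_cast
    ring

theorem Zf_smul {n r s' : ℕ} (e : Fin (r + s') ⊕ Fin r ≃ Fin n)
    (σ : Fin (r + s') → Fin r → ℚ) (ω : Fin r → ℝ) (c : Fin s' → ℝ) (a : ℝ)
    (v : Fin (r + r + 1) → ℝ) : Zf e σ ω c (a • v) = a • Zf e σ ω c v := by
  have h1 : a • Zf e σ ω c v = (a : ℂ) • Zf e σ ω c v := rfl
  rw [h1]
  unfold Zf
  rw [← xr_smul]
  congr 1
  · funext j
    induction j using Fin.addCases with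
    | left j =>
      simp only [Fin.append_left, Pi.smul_apply, smul_eq_mul]
      push_cast
      ring
    | right j =>
      simp only [Fin.append_right, Pi.smul_apply, smul_eq_mul]
      push_cast
      ring
  · funext b
    simp only [Pi.smul_apply, smul_eq_mul]
    push_cast
    ring

/-- the test space, as a linear map -/
noncomputable def Zl {n r s' : ℕ} (e : Fin (r + s') ⊕ Fin r ≃ Fin n)
    (σ : Fin (r + s') → Fin r → ℚ) (ω : Fin r → ℝ) (c : Fin s' → ℝ) :
    (Fin (r + r + 1) → ℝ) →ₗ[ℝ] (Fin n → ℂ) where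
  toFun := Zf e σ ω c
  map_add' := Zf_add e σ ω c
  map_smul' a v := Zf_smul e σ ω c a v

/-- a common zero with given real part -/
theorem borsuk_zero {n r s' : ℕ} (e : Fin (r + s') ⊕ Fin r ≃ Fin n)
    (f : Fin r → MvPolynomial (Fin n) ℂ) (d : Fin r → ℕ) (hf : ∀ i, (f i).IsHomogeneous (d i))
    (hodd : ∀ i, Odd (d i))
    (hre : ∀ x : Fin n → ℝ, x ≠ 0 → (∀ i, eval (fun j => (x j : ℂ)) (f i) = 0) →
      2 * r < finrank ℚ (Submodule.span ℚ (Set.range x)))
    (σ : Fin (r + s') → Fin r → ℚ) (ω : Fin r → ℝ) (c : Fin s' → ℝ) :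
    ∃ l y : Fin r → ℝ, ∀ i, eval (xr e (fun j b => ((σ j b : ℚ) : ℝ))
      (fun j => Complex.I * ((Fin.append l c j : ℝ) : ℂ))
      (fun b => (ω b : ℂ) + Complex.I * (y b : ℂ))) (f i) = 0 := by
  classical
  obtain ⟨g, hg⟩ : ∃ g : Fin r → (Fin (r + r + 1) → ℝ) → ℂ,
      g = fun i v => eval (Zl e σ ω c v) (f i) := ⟨_, rfl⟩
  have hgc : ∀ i, Continuous (g i) := by
    intro i
    rw [hg]
    exact (MvPolynomial.continuous_eval (f i)).comp
      (LinearMap.continuous_of_finiteDimensional (Zl e σ ω c))
  have hgodd : ∀ i v, g i (-v) = -g i v := by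
    intro i v
    rw [hg]
    dsimp only
    rw [map_neg]
    have h1 : -(Zl e σ ω c v) = (-1 : ℂ) • Zl e σ ω c v := by
      rw [neg_smul, one_smul]
    rw [h1, eval_hsmul (f i) (hf i), (hodd i).neg_one_pow, neg_one_mul]
  obtain ⟨v, hvK, hv⟩ := Pool.Agent.Helper133.BU.borsuk_ulam (r + r)
    (fun v => Fin.append (fun i => (g i v).re) (fun i => (g i v).im)) (by
      refine continuous_pi fun j => ?_
      induction j using Fin.addCases with
      | left j =>
        simp only [Fin.append_left]
        exact Complex.continuous_re.comp (hgc j)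
      | right j =>
        simp only [Fin.append_right]
        exact Complex.continuous_im.comp (hgc j)) (by
      intro v
      funext j
      induction j using Fin.addCases with
      | left j => simp only [Fin.append_left, Pi.neg_apply, hgodd, Complex.neg_re]
      | right j => simp only [Fin.append_right, Pi.neg_apply, hgodd, Complex.neg_im])
  have hg0 : ∀ i, g i v = 0 := by
    intro i
    have h1 := congrFun hv (Fin.castAdd r i)
    have h2 := congrFun hv (Fin.natAdd r i)
    simp only [Fin.append_left, Fin.append_right, Pi.zero_apply] at h1 h2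
    exact Complex.ext h1 h2
  have hv0 : v ≠ 0 := by
    intro h0
    have h1 : ∑ i, |v i| = 1 := hvK
    rw [h0] at h1
    simp at h1
  have ht : v (Fin.last _) ≠ 0 := by
    intro ht
    obtain ⟨ν, hν⟩ : ∃ ν : Fin n → ℝ, ν = fun i => (Sum.elim
      (fun j => Fin.append (fun b => v (Fin.castSucc (Fin.castAdd r b))) (fun _ => 0) j +
        ∑ b, ((σ j b : ℚ) : ℝ) * v (Fin.castSucc (Fin.natAdd r b)))
      (fun b => v (Fin.castSucc (Fin.natAdd r b))) : Fin (r + s') ⊕ Fin r → ℝ) (e.symm i) :=
      ⟨_, rfl⟩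
    have hZ : Zl e σ ω c v = Complex.I • (fun i => (ν i : ℂ)) := by
      funext i
      obtain ⟨k, rfl⟩ := e.surjective i
      show Zf e σ ω c v (e k) = Complex.I * (ν (e k) : ℂ)
      unfold Zf
      rw [hν]
      simp only [Equiv.symm_apply_apply]
      rcases k with j | b
      · rw [xr_inl]
        simp only [Sum.elim_inl, ht, zero_mul, Complex.ofReal_zero, zero_add]
        push_cast
        rw [mul_add, Finset.mul_sum]
        congr 1
        exact Finset.sum_congr rfl fun b _ => by ring
      · rw [xr_inr]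
        simp only [Sum.elim_inr, ht, zero_mul, Complex.ofReal_zero, zero_add]
    have hν0 : ν ≠ 0 := by
      intro h0
      apply hv0
      have hy : ∀ b, v (Fin.castSucc (Fin.natAdd r b)) = 0 := by
        intro b
        have := congrFun h0 (e (Sum.inr b))
        rw [hν] at this
        simpa using this
      have hl : ∀ b, v (Fin.castSucc (Fin.castAdd r b)) = 0 := by
        intro b
        have := congrFun h0 (e (Sum.inl (Fin.castAdd s' b)))
        rw [hν] at this
        simp only [Equiv.symm_apply_apply, Sum.elim_inl, Fin.append_left, hy, mul_zero,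
          Finset.sum_const_zero, add_zero, Pi.zero_apply] at this
        exact this
      funext k
      induction k using Fin.lastCases with
      | last => exact ht
      | cast k =>
        induction k using Fin.addCases with
        | left b => exact hl b
        | right b => exact hy b
    have hz : ∀ i, eval (fun j => (ν j : ℂ)) (f i) = 0 := by
      intro i
      have h1 := hg0 i
      rw [hg] at h1
      dsimp only at h1
      rw [hZ, eval_hsmul (f i) (hf i)] at h1
      rcases mul_eq_zero.1 h1 with h2 | h2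
      · exact absurd h2 (pow_ne_zero _ Complex.I_ne_zero)
      · exact h2
    have h1 := hre ν hν0 hz
    have h2 : finrank ℚ (Submodule.span ℚ (Set.range ν)) ≤ r + r := by
      have h3 : Submodule.span ℚ (Set.range ν) ≤
          Submodule.span ℚ (Set.range fun k : Fin (r + r) => v (Fin.castSucc k)) := by
        rw [Submodule.span_le]
        rintro _ ⟨i, rfl⟩
        obtain ⟨k, rfl⟩ := e.surjective i
        rw [hν]
        simp only [Equiv.symm_apply_apply]
        rcases k with j | b
        · simp only [Sum.elim_inl]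
          refine Submodule.add_mem _ ?_ (Submodule.sum_mem _ fun b _ => ?_)
          · induction j using Fin.addCases with
            | left b =>
              rw [Fin.append_left]
              exact Submodule.subset_span ⟨_, rfl⟩
            | right a =>
              rw [Fin.append_right]
              exact Submodule.zero_mem _
          · rw [← Rat.smul_def]
            exact Submodule.smul_mem _ _ (Submodule.subset_span ⟨_, rfl⟩)
        · simp only [Sum.elim_inr]
          exact Submodule.subset_span ⟨_, rfl⟩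
      have : Module.Finite ℚ (Submodule.span ℚ
          (Set.range fun k : Fin (r + r) => v (Fin.castSucc k))) :=
        FiniteDimensional.span_of_finite ℚ (Set.finite_range _)
      refine (Submodule.finrank_mono h3).trans ?_
      have h4 := finrank_range_le_card (R := ℚ) fun k : Fin (r + r) => v (Fin.castSucc k)
      rwa [Fintype.card_fin] at h4
    omega
  refine ⟨fun b => (v (Fin.last _))⁻¹ * v (Fin.castSucc (Fin.castAdd r b)),
    fun b => (v (Fin.last _))⁻¹ * v (Fin.castSucc (Fin.natAdd r b)), fun i => ?_⟩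
  have h1 : xr e (fun j b => ((σ j b : ℚ) : ℝ))
      (fun j => Complex.I * ((Fin.append (fun b => (v (Fin.last _))⁻¹ *
        v (Fin.castSucc (Fin.castAdd r b))) c j : ℝ) : ℂ))
      (fun b => (ω b : ℂ) + Complex.I * (((v (Fin.last _))⁻¹ *
        v (Fin.castSucc (Fin.natAdd r b)) : ℝ) : ℂ)) =
      (((v (Fin.last _))⁻¹ : ℝ) : ℂ) • Zl e σ ω c v := by
    have h2 : (((v (Fin.last _))⁻¹ : ℝ) : ℂ) • Zl e σ ω c v =
        Zl e σ ω c ((v (Fin.last _))⁻¹ • v) := by
      rw [map_smul]
      rfl
    rw [h2]
    show _ = Zf e σ ω c ((v (Fin.last _))⁻¹ • v)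
    unfold Zf
    simp only [Pi.smul_apply, smul_eq_mul, inv_mul_cancel₀ ht, one_mul]
  rw [h1, eval_hsmul (f i) (hf i)]
  have h3 := hg0 i
  rw [hg] at h3
  dsimp only at h3
  rw [h3, mul_zero]

end Pool.Agent.Run7.h490
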