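import Pool.Agent.Run7.h490.OD1
import Pool.Agent.Run7.h490.OD3
import Pool.Agent.Run7.h490.OD4

/-! Generic points of cones: algebraicity over the base, minimality. -/

set_option autoImplicit false

namespace Pool.Agent.Run7.h490

open MvPolynomial Pool.Agent.K3h22.EX Pool.Agent.K3h53.UG Module

/-- the countable field of definition, stable under conjugation -/
theorem exists_field {n : ℕ} (S₀ : Finset (MvPolynomial (Fin n) ℂ)) :
    ∃ K : Subfield ℂ, Countable K ∧ Complex.I ∈ K ∧ (∀ x ∈ K, (starRingEnd ℂ) x ∈ K) ∧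
      ∀ f ∈ S₀, ∃ f' : MvPolynomial (Fin n) K, map (algebraMap K ℂ) f' = f := by
  classical
  obtain ⟨S, hS⟩ : ∃ S : Finset ℂ, S = S₀.biUnion fun f =>
    f.support.image fun m => coeff m f := ⟨_, rfl⟩
  obtain ⟨T, hT⟩ : ∃ T : Set ℂ, T = (S : Set ℂ) ∪ (starRingEnd ℂ) '' (S : Set ℂ) ∪ {Complex.I} :=
    ⟨_, rfl⟩
  have hTf : T.Finite := by
    rw [hT]
    exact ((Finset.finite_toSet S).union ((Finset.finite_toSet S).image _)).union
      (Set.finite_singleton _)
  have hcT : Countable T := hTf.countable.to_subtype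
  refine ⟨Subfield.closure T, ?_, ?_, ?_, ?_⟩
  · rw [← Cardinal.mk_le_aleph0_iff]
    refine (Subfield.cardinalMk_closure_le_max _).trans ?_
    exact max_le (Cardinal.mk_le_aleph0_iff.2 hcT) le_rfl
  · apply Subfield.subset_closure
    rw [hT]
    exact Or.inr rfl
  · intro x hx
    induction hx using Subfield.closure_induction with
    | mem x hx =>
      rw [hT] at hx
      rcases hx with (hx | ⟨y, hy, rfl⟩) | hx
      · apply Subfield.subset_closure
        rw [hT]
        exact Or.inl (Or.inr ⟨x, hx, rfl⟩)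
      · apply Subfield.subset_closure
        rw [hT, Complex.conj_conj]
        exact Or.inl (Or.inl hy)
      · rw [Set.mem_singleton_iff.1 hx, Complex.conj_I]
        apply Subfield.neg_mem
        apply Subfield.subset_closure
        rw [hT]
        exact Or.inr rfl
    | one =>
      rw [map_one]
      exact Subfield.one_mem _
    | add x y _ _ hx hy =>
      rw [map_add]
      exact Subfield.add_mem _ hx hy
    | neg x _ hx =>
      rw [map_neg]
      exact Subfield.neg_mem _ hx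
    | inv x _ hx =>
      rw [map_inv₀]
      exact Subfield.inv_mem _ hx
    | mul x y _ _ hx hy =>
      rw [map_mul]
      exact Subfield.mul_mem _ hx hy
  · intro f hf
    have hmem : f ∈ Set.range (MvPolynomial.map (σ := Fin n)
        (algebraMap (Subfield.closure T) ℂ)) := by
      rw [MvPolynomial.mem_range_map_iff_coeffs_subset]
      intro a ha
      obtain ⟨m, hm, rfl⟩ := MvPolynomial.mem_coeffs_iff.1 ha
      have h1 : coeff m f ∈ Subfield.closure T := by
        apply Subfield.subset_closure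
        rw [hT, hS]
        left
        left
        rw [Finset.mem_coe, Finset.mem_biUnion]
        exact ⟨f, hf, Finset.mem_image.2 ⟨m, hm, rfl⟩⟩
      exact ⟨⟨_, h1⟩, rfl⟩
    obtain ⟨f', hf'⟩ := hmem
    exact ⟨f', hf'⟩

/-- the linear substitution of the rational subspace -/
noncomputable def lp {K : Type*} [Field K] {n s r : ℕ} (e : Fin s ⊕ Fin r ≃ Fin n)
    (σ : Fin s → Fin r → ℚ) (k : Fin n) : MvPolynomial (Fin r) K :=
  (Sum.elim (fun j => ∑ b, C ((σ j b : ℚ) : K) * X b) (fun b => X b) :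
      Fin s ⊕ Fin r → MvPolynomial (Fin r) K) (e.symm k)

theorem lp_inl {K : Type*} [Field K] {n s r : ℕ} (e : Fin s ⊕ Fin r ≃ Fin n)
    (σ : Fin s → Fin r → ℚ) (j : Fin s) :
    (lp e σ (e (Sum.inl j)) : MvPolynomial (Fin r) K) = ∑ b, C ((σ j b : ℚ) : K) * X b := by
  unfold lp
  rw [Equiv.symm_apply_apply]
  rfl

theorem lp_inr {K : Type*} [Field K] {n s r : ℕ} (e : Fin s ⊕ Fin r ≃ Fin n)
    (σ : Fin s → Fin r → ℚ) (b : Fin r) :
    (lp e σ (e (Sum.inr b)) : MvPolynomial (Fin r) K) = X b := by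
  unfold lp
  rw [Equiv.symm_apply_apply]
  rfl

theorem lp_homog {K : Type*} [Field K] {n s r : ℕ} (e : Fin s ⊕ Fin r ≃ Fin n)
    (σ : Fin s → Fin r → ℚ) (k : Fin n) :
    (lp e σ k : MvPolynomial (Fin r) K).IsHomogeneous 1 := by
  obtain ⟨k, rfl⟩ := e.surjective k
  rcases k with j | b
  · rw [lp_inl]
    apply IsHomogeneous.sum
    intro b _
    have := (isHomogeneous_C (Fin r) ((σ j b : ℚ) : K)).mul (isHomogeneous_X K b)
    rwa [zero_add] at this
  · rw [lp_inr]
    exact isHomogeneous_X K b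

theorem lp_map {K L : Type*} [Field K] [Field L] (φ : K →+* L) {n s r : ℕ}
    (e : Fin s ⊕ Fin r ≃ Fin n) (σ : Fin s → Fin r → ℚ) (k : Fin n) :
    map φ (lp e σ k) = lp e σ k := by
  obtain ⟨k, rfl⟩ := e.surjective k
  rcases k with j | b
  · rw [lp_inl, lp_inl, map_sum]
    refine Finset.sum_congr rfl fun b _ => ?_
    rw [map_mul, map_C, map_X, map_ratCast]
  · rw [lp_inr, lp_inr, map_X]

/-- the other coordinates are algebraic over the coordinates `λ` -/
theorem theta_alg {K L : Type*} [Field K] [Field L] [Algebra K L] {n s r t : ℕ}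
    (e : Fin s ⊕ Fin r ≃ Fin n) (h : Fin t → MvPolynomial (Fin n) K) (d : Fin t → ℕ)
    (hh : ∀ i, (h i).IsHomogeneous (d i)) (σ : Fin s → Fin r → ℚ)
    (hN : ∀ b, ∃ N, (X b : MvPolynomial (Fin r) K) ^ N ∈
      Ideal.span (Set.range fun i => aeval (lp e σ) (h i)))
    (x : Fin n → L) (hx : ∀ i, aeval x (h i) = 0) (E : IntermediateField K L)
    (hE : ∀ j, x (e (Sum.inl j)) - ∑ b, ((σ j b : ℚ) : L) * x (e (Sum.inr b)) ∈ E)
    (b : Fin r) : IsAlgebraic E (x (e (Sum.inr b))) := by
  classical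
  obtain ⟨c, hc⟩ : ∃ c : Fin n → E, c = fun k =>
    (Sum.elim (fun j => (⟨_, hE j⟩ : E)) (fun _ => 0) : Fin s ⊕ Fin r → E) (e.symm k) :=
      ⟨_, rfl⟩
  have hcl : ∀ j, c (e (Sum.inl j)) = ⟨_, hE j⟩ := by
    intro j
    rw [hc]
    simp only [Equiv.symm_apply_apply, Sum.elim_inl]
  have hcr : ∀ b, c (e (Sum.inr b)) = 0 := by
    intro b
    rw [hc]
    simp only [Equiv.symm_apply_apply, Sum.elim_inr]
  obtain ⟨h', hh'⟩ : ∃ h' : Fin t → MvPolynomial (Fin n) E,
    h' = fun i => map (algebraMap K E) (h i) := ⟨_, rfl⟩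
  have hh'' : ∀ i, h' i = map (algebraMap K E) (h i) := fun i => by rw [hh']
  have hGd : ∀ k, Gd 1 (lp e σ k + C (c k) : MvPolynomial (Fin r) E) (lp e σ k) := by
    intro k
    refine ⟨(lp_homog e σ k).totalDegree_le, Or.inr ?_⟩
    rw [add_sub_cancel_left, totalDegree_C]
    exact one_pos
  have hev1 : ∀ k, aeval (fun b => x (e (Sum.inr b)))
      (lp e σ k + C (c k) : MvPolynomial (Fin r) E) = x k := by
    intro k
    rw [map_add, algHom_C]
    obtain ⟨k, rfl⟩ := e.surjective k
    rcases k with j | b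
    · rw [lp_inl, map_sum, hcl]
      have h1 : ∀ b, aeval (fun b => x (e (Sum.inr b)))
          (C ((σ j b : ℚ) : E) * X b : MvPolynomial (Fin r) E) =
          ((σ j b : ℚ) : L) * x (e (Sum.inr b)) := by
        intro b
        rw [map_mul, aeval_X, algHom_C, map_ratCast]
      simp only [h1]
      show _ + (x (e (Sum.inl j)) - ∑ b, ((σ j b : ℚ) : L) * x (e (Sum.inr b))) = _
      ring
    · rw [lp_inr, aeval_X, hcr, map_zero, add_zero]
  have hhom : ∀ i, (h' i).IsHomogeneous (d i) := by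
    intro i
    rw [hh'']
    exact (hh i).map _
  refine alg_of_top (fun i => aeval (lp e σ : Fin n → MvPolynomial (Fin r) E) (h' i))
    (fun i => aeval (fun k => (lp e σ k + C (c k) : MvPolynomial (Fin r) E)) (h' i) -
      aeval (lp e σ : Fin n → MvPolynomial (Fin r) E) (h' i)) d ?_ ?_ ?_
    (fun b => x (e (Sum.inr b))) ?_ b
  · intro i
    have := (hhom i).aeval (lp e σ : Fin n → MvPolynomial (Fin r) E) (lp_homog e σ)
    rwa [one_mul] at this
  · intro i
    exact low_aeval (h' i) (d i) (hhom i) _ _ hGd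
  · intro b
    obtain ⟨N, hN⟩ := hN b
    refine ⟨N, ?_⟩
    have h1 := Ideal.mem_map_of_mem (MvPolynomial.map (σ := Fin r) (algebraMap K E)) hN
    rw [Ideal.map_span, map_pow, map_X] at h1
    have h2 : (MvPolynomial.map (σ := Fin r) (algebraMap K E)) ''
        (Set.range fun i => aeval (lp e σ) (h i)) = Set.range fun i => aeval (lp e σ) (h' i) := by
      rw [← Set.range_comp]
      congr 1
      funext i
      rw [Function.comp_apply, hh'']
      have h3 : (MvPolynomial.map (σ := Fin r) (algebraMap K E)).comp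
          ((aeval (lp e σ) : MvPolynomial (Fin n) K →ₐ[K] MvPolynomial (Fin r) K) :
            MvPolynomial (Fin n) K →+* MvPolynomial (Fin r) K) =
          ((aeval (lp e σ) : MvPolynomial (Fin n) E →ₐ[E] MvPolynomial (Fin r) E) :
            MvPolynomial (Fin n) E →+* MvPolynomial (Fin r) E).comp
            (MvPolynomial.map (σ := Fin n) (algebraMap K E)) := by
        apply MvPolynomial.ringHom_ext
        · intro a
          simp [algHom_C]
        · intro k
          simp [lp_map]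
      exact RingHom.congr_fun h3 (h i)
    rwa [h2] at h1
  · intro i
    rw [map_sub, add_sub_cancel]
    have h1 : (aeval (fun b => x (e (Sum.inr b))) : MvPolynomial (Fin r) E →ₐ[E] L).comp
        (aeval fun k => lp e σ k + C (c k)) = aeval x := by
      apply MvPolynomial.algHom_ext
      intro k
      rw [AlgHom.comp_apply, aeval_X, aeval_X, hev1]
    have h2 := DFunLike.congr_fun h1 (h' i)
    rw [AlgHom.comp_apply] at h2
    rw [h2, hh'', aeval_map_algebraMap, hx]

/-- the Nullstellensatz on the rational subspace -/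
theorem null_lp {K : Type*} [Field K] [CharZero K] [Algebra K ℂ] {n s r t : ℕ}
    (e : Fin s ⊕ Fin r ≃ Fin n) (h : Fin t → MvPolynomial (Fin n) K)
    (hco : ∀ z : Fin n → ℂ, z ≠ 0 → (∀ i, aeval z (h i) = 0) →
      r < finrank ℚ (Submodule.span ℚ (Set.range z)))
    (σ : Fin s → Fin r → ℚ) (b : Fin r) : ∃ N, (X b : MvPolynomial (Fin r) K) ^ N ∈
      Ideal.span (Set.range fun i => aeval (lp e σ) (h i)) := by
  have h1 : (X b : MvPolynomial (Fin r) K) ∈
      (Ideal.span (Set.range fun i => aeval (lp e σ) (h i))).radical := by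
    rw [← vanishingIdeal_zeroLocus_eq_radical (K := ℂ), mem_vanishingIdeal_iff]
    intro t ht
    rw [mem_zeroLocus_iff] at ht
    rw [aeval_X]
    have hev0 : ∀ k, aeval t (lp e σ k : MvPolynomial (Fin r) K) =
        xr e (fun j b => ((σ j b : ℚ) : ℝ)) 0 t k := by
      intro k
      obtain ⟨k, rfl⟩ := e.surjective k
      rcases k with j | b
      · rw [lp_inl, xr_inl, map_sum, Pi.zero_apply, zero_add]
        refine Finset.sum_congr rfl fun b _ => ?_
        rw [map_mul, aeval_X, algHom_C, map_ratCast]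
        congr 1
      · rw [lp_inr, xr_inr, aeval_X]
    have h2 : ∀ i, aeval (xr e (fun j b => ((σ j b : ℚ) : ℝ)) 0 t) (h i) = 0 := by
      intro i
      have h3 : (aeval t : MvPolynomial (Fin r) K →ₐ[K] ℂ).comp (aeval (lp e σ)) =
          aeval (xr e (fun j b => ((σ j b : ℚ) : ℝ)) 0 t) := by
        apply MvPolynomial.algHom_ext
        intro k
        rw [AlgHom.comp_apply, aeval_X, aeval_X, hev0]
      rw [← h3]
      exact ht _ (Ideal.subset_span ⟨i, rfl⟩)
    by_contra hb
    have h3 : xr e (fun j b => ((σ j b : ℚ) : ℝ)) 0 t ≠ 0 := by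
      intro h4
      apply hb
      have := congrFun h4 (e (Sum.inr b))
      rwa [xr_inr] at this
    have h4 := hco _ h3 h2
    have h5 : Submodule.span ℚ (Set.range (xr e (fun j b => ((σ j b : ℚ) : ℝ)) 0 t)) ≤
        Submodule.span ℚ (Set.range t) := by
      rw [Submodule.span_le]
      rintro _ ⟨k, rfl⟩
      obtain ⟨k, rfl⟩ := e.surjective k
      rcases k with j | b'
      · rw [xr_inl, Pi.zero_apply, zero_add]
        refine Submodule.sum_mem _ fun b' _ => ?_
        have h6 : (((σ j b' : ℚ) : ℝ) : ℂ) * t b' = (σ j b' : ℚ) • t b' := by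
          rw [Rat.smul_def]
          push_cast
          ring
        rw [h6]
        exact Submodule.smul_mem _ _ (Submodule.subset_span ⟨_, rfl⟩)
      · rw [xr_inr]
        exact Submodule.subset_span ⟨_, rfl⟩
    have : Module.Finite ℚ (Submodule.span ℚ (Set.range t)) :=
      FiniteDimensional.span_of_finite ℚ (Set.finite_range _)
    have h6 := Submodule.finrank_mono h5
    have h7 := finrank_range_le_card (R := ℚ) t
    rw [Fintype.card_fin] at h7
    unfold Set.finrank at h7
    omega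
  exact h1

theorem min_mul {R : Type*} [CommRing R] {I p : Ideal R} (hp : p ∈ I.minimalPrimes) {x : R}
    (hx : x ∈ p) : ∃ y ∉ p, ∃ k : ℕ, y * x ^ k ∈ I := by
  obtain ⟨⟨hp₁, hp₂⟩, hp₃⟩ := hp
  have : p.map (algebraMap R (Localization.AtPrime p)) ≤ (I.map (algebraMap _ _)).radical := by
    rw [Ideal.radical_eq_sInf, le_sInf_iff]
    rintro q ⟨hq', hq⟩
    obtain ⟨h₁, h₂⟩ := ((IsLocalization.AtPrime.orderIsoOfPrime _ p) ⟨q, hq⟩).2
    rw [Ideal.map_le_iff_le_comap] at hq' ⊢
    exact hp₃ ⟨h₁, hq'⟩ h₂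
  obtain ⟨k, hn⟩ := this (Ideal.mem_map_of_mem _ hx)
  rw [IsLocalization.mem_map_algebraMap_iff (M := p.primeCompl)] at hn
  obtain ⟨⟨a, b⟩, hn⟩ := hn
  rw [← map_pow, ← map_mul, IsLocalization.eq_iff_exists p.primeCompl] at hn
  obtain ⟨t, ht⟩ := hn
  refine ⟨t * b, fun h => (t * b).2 h, k, ?_⟩
  simp only at ht
  have h1 : (t : R) * b * x ^ k = t * a := by
    rw [← ht]
    ring
  rw [h1]
  exact I.mul_mem_left _ a.2

theorem gen_aux {K L : Type*} [Field K] [Field L] [Algebra K L] [Algebra K ℂ]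
    {n s r t : ℕ} (e : Fin s ⊕ Fin r ≃ Fin n) (h : Fin t → MvPolynomial (Fin n) K)
    (d : Fin t → ℕ) (hh : ∀ i, (h i).IsHomogeneous (d i)) (σ : Fin s → Fin r → ℚ)
    (hN : ∀ b, ∃ N, (X b : MvPolynomial (Fin r) K) ^ N ∈
      Ideal.span (Set.range fun i => aeval (lp e σ) (h i)))
    (x : Fin n → L) (hx : ∀ i, aeval x (h i) = 0) (ζ : Fin n → ℂ)
    (hlam : AlgebraicIndependent K (prj e σ ζ))
    (hsub : ∀ p : MvPolynomial (Fin n) K, aeval x p = 0 → aeval ζ p = 0)
    (g : MvPolynomial (Fin n) K) (hg : aeval x g ≠ 0) (hgζ : aeval ζ g = 0) : False := by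
  classical
  obtain ⟨Λ, hΛ⟩ : ∃ Λ : Fin s → MvPolynomial (Fin n) K, Λ = fun j =>
    X (e (Sum.inl j)) - ∑ b, C ((σ j b : ℚ) : K) * X (e (Sum.inr b)) := ⟨_, rfl⟩
  have hΛx : ∀ j, aeval x (Λ j) = x (e (Sum.inl j)) -
      ∑ b, ((σ j b : ℚ) : L) * x (e (Sum.inr b)) := by
    intro j
    rw [hΛ]
    simp only [map_sub, map_sum, map_mul, aeval_X, algHom_C, map_ratCast]
  have hΛζ : ∀ j, aeval ζ (Λ j) = prj e σ ζ j := by
    intro j
    rw [hΛ, prj_apply]
    simp only [map_sub, map_sum, map_mul, aeval_X, algHom_C, map_ratCast]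
  obtain ⟨E, hE⟩ : ∃ E : IntermediateField K L,
    E = IntermediateField.adjoin K (Set.range fun j => aeval x (Λ j)) := ⟨_, rfl⟩
  have hΛE : ∀ j, x (e (Sum.inl j)) - ∑ b, ((σ j b : ℚ) : L) * x (e (Sum.inr b)) ∈ E := by
    intro j
    rw [← hΛx, hE]
    exact IntermediateField.subset_adjoin _ _ ⟨j, rfl⟩
  have halg1 := theta_alg e h d hh σ hN x hx E hΛE
  have hsumalg : ∀ (S : Finset (Fin r)) (y : Fin r → L), (∀ b, IsAlgebraic E (y b)) →
      IsAlgebraic E (∑ b ∈ S, y b) := by
    intro S y hy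
    induction S using Finset.induction_on with
    | empty =>
      rw [Finset.sum_empty]
      exact isAlgebraic_zero
    | insert b S hb ih =>
      rw [Finset.sum_insert hb]
      exact (hy b).add ih
  have halg2 : ∀ k, IsAlgebraic E (x k) := by
    intro k
    obtain ⟨k, rfl⟩ := e.surjective k
    rcases k with j | b
    · have h1 : x (e (Sum.inl j)) = (x (e (Sum.inl j)) -
        ∑ b, ((σ j b : ℚ) : L) * x (e (Sum.inr b))) +
        ∑ b, ((σ j b : ℚ) : L) * x (e (Sum.inr b)) := by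
        ring
      rw [h1]
      refine IsAlgebraic.add (isAlgebraic_algebraMap (⟨_, hΛE j⟩ : E)) ?_
      refine hsumalg _ _ fun b => ?_
      have h2 : algebraMap E L ((σ j b : ℚ) : E) = ((σ j b : ℚ) : L) := map_ratCast _ _
      rw [← h2]
      exact (isAlgebraic_algebraMap ((σ j b : ℚ) : E)).mul (halg1 b)
    · exact halg1 b
  have halg3 : ∀ g : MvPolynomial (Fin n) K, IsAlgebraic E (aeval x g) := by
    intro g
    induction g using MvPolynomial.induction_on with
    | C a =>
      rw [algHom_C]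
      exact isAlgebraic_algebraMap (algebraMap K E a)
    | add p q hp hq =>
      rw [map_add]
      exact hp.add hq
    | mul_X p i hp =>
      rw [map_mul, aeval_X]
      exact hp.mul (halg2 i)
  have halg4 := halg3 g
  rw [hE, IntermediateField.isAlgebraic_adjoin_iff] at halg4
  obtain ⟨P, hP0, hP⟩ := halg4.exists_nonzero_coeff_and_aeval_eq_zero
    (mem_nonZeroDivisors_of_ne_zero hg)
  have hlift : ∀ a : Algebra.adjoin K (Set.range fun j => aeval x (Λ j)),
      ∃ c : MvPolynomial (Fin s) K, aeval (fun j => aeval x (Λ j)) c = (a : L) := by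
    intro a
    have h1 : (a : L) ∈
        (aeval (fun j => aeval x (Λ j)) : MvPolynomial (Fin s) K →ₐ[K] _).range := by
      rw [← Algebra.adjoin_range_eq_range_aeval]
      exact a.2
    exact h1
  choose c hc using fun k => hlift (P.coeff k)
  have hcx : ∀ k, aeval x (aeval Λ (c k)) = (P.coeff k : L) := by
    intro k
    rw [← hc k]
    have h1 : (aeval x : MvPolynomial (Fin n) K →ₐ[K] L).comp (aeval Λ) =
        aeval (fun j => aeval x (Λ j)) := by
      apply MvPolynomial.algHom_ext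
      intro j
      rw [AlgHom.comp_apply, aeval_X, aeval_X]
    rw [← h1]
    rfl
  have hcζ : ∀ k, aeval ζ (aeval Λ (c k)) = aeval (prj e σ ζ) (c k) := by
    intro k
    have h1 : (aeval ζ : MvPolynomial (Fin n) K →ₐ[K] ℂ).comp (aeval Λ) =
        aeval (prj e σ ζ) := by
      apply MvPolynomial.algHom_ext
      intro j
      rw [AlgHom.comp_apply, aeval_X, aeval_X, hΛζ]
    rw [← h1]
    rfl
  have h1 : aeval x (∑ k ∈ Finset.range (P.natDegree + 1), aeval Λ (c k) * g ^ k) = 0 := by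
    rw [map_sum, ← hP, Polynomial.aeval_eq_sum_range]
    refine Finset.sum_congr rfl fun k _ => ?_
    rw [map_mul, map_pow, hcx]
    rfl
  have h2 := hsub _ h1
  rw [map_sum, Finset.sum_range_succ'] at h2
  have h3 : ∀ k ∈ Finset.range P.natDegree, aeval ζ (aeval Λ (c (k + 1)) * g ^ (k + 1)) = 0 := by
    intro k _
    rw [map_mul, map_pow, hgζ, zero_pow (Nat.succ_ne_zero k), mul_zero]
  rw [Finset.sum_eq_zero h3, zero_add, pow_zero, mul_one, hcζ] at h2
  have h4 : c 0 = 0 := hlam (by rw [h2, map_zero])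
  have h5 := hc 0
  rw [h4, map_zero] at h5
  exact hP0 (Subtype.ext h5.symm)

/-- a generic point lies on one component only -/
theorem gen_min {K : Type} [Field K] [Algebra K ℂ] {n s r t : ℕ}
    (e : Fin s ⊕ Fin r ≃ Fin n) (h : Fin t → MvPolynomial (Fin n) K) (d : Fin t → ℕ)
    (hh : ∀ i, (h i).IsHomogeneous (d i)) (σ : Fin s → Fin r → ℚ)
    (hN : ∀ b, ∃ N, (X b : MvPolynomial (Fin r) K) ^ N ∈
      Ideal.span (Set.range fun i => aeval (lp e σ) (h i)))
    (ζ : Fin n → ℂ) (hζ : ∀ i, aeval ζ (h i) = 0) (hlam : AlgebraicIndependent K (prj e σ ζ))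
    (G : MvPolynomial (Fin n) K) (hG : aeval ζ G = 0) :
    ∃ (u : MvPolynomial (Fin n) K) (k : ℕ), aeval ζ u ≠ 0 ∧
      u * G ^ k ∈ Ideal.span (Set.range h) := by
  classical
  obtain ⟨p, hp⟩ : ∃ p : Ideal (MvPolynomial (Fin n) K),
    p = RingHom.ker (aeval ζ : MvPolynomial (Fin n) K →ₐ[K] ℂ) := ⟨_, rfl⟩
  have hmem : ∀ g, g ∈ p ↔ aeval ζ g = 0 := by
    intro g
    rw [hp]
    exact RingHom.mem_ker
  have hpp : p.IsPrime := by
    rw [hp]
    exact RingHom.ker_isPrime _
  have hle : Ideal.span (Set.range h) ≤ p := by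
    rw [Ideal.span_le]
    rintro _ ⟨i, rfl⟩
    exact (hmem _).2 (hζ i)
  have hmin : p ∈ (Ideal.span (Set.range h)).minimalPrimes := by
    refine ⟨⟨hpp, hle⟩, ?_⟩
    rintro q ⟨hq, hqh⟩ hqp g hg
    by_contra hgq
    have hx0 : ∀ g : MvPolynomial (Fin n) K,
        aeval (fun k => algebraMap (MvPolynomial (Fin n) K ⧸ q)
          (FractionRing (MvPolynomial (Fin n) K ⧸ q)) (Ideal.Quotient.mk q (X k))) g = 0 ↔
        g ∈ q := by
      intro g
      have h1 : (aeval (fun k => algebraMap (MvPolynomial (Fin n) K ⧸ q)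
          (FractionRing (MvPolynomial (Fin n) K ⧸ q)) (Ideal.Quotient.mk q (X k))) :
            MvPolynomial (Fin n) K →ₐ[K] _) =
          (IsScalarTower.toAlgHom K (MvPolynomial (Fin n) K ⧸ q)
            (FractionRing (MvPolynomial (Fin n) K ⧸ q))).comp (Ideal.Quotient.mkₐ K q) := by
        apply MvPolynomial.algHom_ext
        intro k
        rw [aeval_X]
        rfl
      rw [h1]
      show algebraMap (MvPolynomial (Fin n) K ⧸ q)
          (FractionRing (MvPolynomial (Fin n) K ⧸ q)) (Ideal.Quotient.mk q g) = 0 ↔ _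
      rw [FaithfulSMul.algebraMap_eq_zero_iff, Ideal.Quotient.eq_zero_iff_mem]
    exact gen_aux e h d hh σ hN _ (fun i => (hx0 _).2 (hqh (Ideal.subset_span ⟨i, rfl⟩))) ζ hlam
      (fun p hp => (hmem p).1 (hqp ((hx0 p).1 hp))) g (fun h0 => hgq ((hx0 g).1 h0))
      ((hmem g).1 hg)
  obtain ⟨u, hu, k, hk⟩ := min_mul hmin ((hmem G).2 hG)
  exact ⟨u, k, fun h0 => hu ((hmem u).2 h0), hk⟩

end Pool.Agent.Run7.h490
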