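import Pool.Agent.Run7.h490.OD5

/-! Good directions for varieties which contain a complete intersection of odd degrees at
infinity. -/

set_option autoImplicit false

namespace Pool.Agent.Run7.h490

open MvPolynomial Pool.Agent.K3h22.EX Pool.Agent.K3h53.UG Module

theorem exists_minor {r n : ℕ} (v : Fin r → Fin n → ℂ) (hv : LinearIndependent ℂ v) :
    ∃ κ : Fin r → Fin n, (Matrix.of fun i b => v i (κ b)).det ≠ 0 := by
  classical
  have hspan : Submodule.span ℂ (Set.range fun k => (fun i => v i k : Fin r → ℂ)) = ⊤ := by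
    by_contra hne
    obtain ⟨g, hg0, hg⟩ := Submodule.exists_le_ker_of_lt_top _ (lt_top_iff_ne_top.2 hne)
    have hgc : ∀ y : Fin r → ℂ, g y = ∑ i, g (Pi.single i 1) * y i := by
      intro y
      conv_lhs => rw [← Finset.univ_sum_single y]
      rw [map_sum]
      refine Finset.sum_congr rfl fun i _ => ?_
      have : Pi.single i (y i) = (y i) • (Pi.single i (1 : ℂ) : Fin r → ℂ) := by
        rw [← Pi.single_smul]
        simp
      rw [this, map_smul, smul_eq_mul, mul_comm]
    have h1 := Fintype.linearIndependent_iff.1 hv (fun i => g (Pi.single i 1)) (by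
      funext k
      have h2 : g (fun i => v i k) = 0 := hg (Submodule.subset_span ⟨k, rfl⟩)
      rw [hgc] at h2
      rw [Finset.sum_apply, Pi.zero_apply, ← h2]
      rfl)
    apply hg0
    refine LinearMap.ext fun y => ?_
    rw [hgc]
    exact Finset.sum_eq_zero fun i _ => by rw [h1 i, zero_mul]
  obtain ⟨m, f, hm, hf1, hf2, hf3⟩ : ∃ (m : ℕ) (f : Fin m → Fin r → ℂ), m = r ∧
      (∀ i, f i ∈ Set.range fun k => (fun i => v i k : Fin r → ℂ)) ∧
      Submodule.span ℂ (Set.range f) =
        Submodule.span ℂ (Set.range fun k => (fun i => v i k : Fin r → ℂ)) ∧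
      LinearIndependent ℂ f := by
    refine ⟨_, (Submodule.exists_fun_fin_finrank_span_eq ℂ
      (Set.range fun k => (fun i => v i k : Fin r → ℂ))).choose, ?_,
      (Submodule.exists_fun_fin_finrank_span_eq ℂ
        (Set.range fun k => (fun i => v i k : Fin r → ℂ))).choose_spec⟩
    rw [hspan, finrank_top, finrank_fin_fun]
  subst hm
  choose κ hκ using hf1
  refine ⟨κ, fun h0 => ?_⟩
  obtain ⟨c, hc0, hc⟩ := Matrix.exists_mulVec_eq_zero_iff.2 h0
  apply hc0
  have h2 := Fintype.linearIndependent_iff.1 hf3 c (by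
    funext i
    have h3 := congrFun hc i
    simp only [Matrix.mulVec, dotProduct, Matrix.of_apply, Pi.zero_apply] at h3
    rw [Finset.sum_apply, Pi.zero_apply, ← h3]
    refine Finset.sum_congr rfl fun b _ => ?_
    rw [Pi.smul_apply, smul_eq_mul, ← hκ b, mul_comm])
  exact funext h2

theorem indep_of_minor {r n : ℕ} (v : Fin r → Fin n → ℂ) (κ : Fin r → Fin n)
    (h : (Matrix.of fun i b => v i (κ b)).det ≠ 0) : LinearIndependent ℂ v := by
  rw [Fintype.linearIndependent_iff]
  intro c hc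
  by_contra hne
  push Not at hne
  obtain ⟨i, hi⟩ := hne
  apply h
  rw [← Matrix.exists_vecMul_eq_zero_iff]
  refine ⟨c, fun h0 => hi (congrFun h0 i), ?_⟩
  funext b
  have h1 := congrFun hc (κ b)
  rw [Finset.sum_apply, Pi.zero_apply] at h1
  simp only [Matrix.vecMul, dotProduct, Matrix.of_apply, Pi.zero_apply]
  rw [← h1]
  rfl

/-- good directions near a given real part -/
theorem exists_good {n s r : ℕ} (hsr : r ≤ s) (e : Fin s ⊕ Fin r ≃ Fin n)
    (h : Fin r → MvPolynomial (Fin n) ℂ) (d : Fin r → ℕ) (hh : ∀ i, (h i).IsHomogeneous (d i))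
    (hodd : ∀ i, Odd (d i))
    (hco : ∀ z : Fin n → ℂ, z ≠ 0 → (∀ i, eval z (h i) = 0) →
      r < finrank ℚ (Submodule.span ℚ (Set.range z)))
    (hre : ∀ x : Fin n → ℝ, x ≠ 0 → (∀ i, eval (fun j => (x j : ℂ)) (h i) = 0) →
      2 * r < finrank ℚ (Submodule.span ℚ (Set.range x)))
    (f : Fin r → MvPolynomial (Fin n) ℂ) (g : MvPolynomial (Fin n) ℂ)
    (hfh : ∀ z : Fin n → ℂ, (∀ i, eval z (h i) = 0) → ∀ i, eval z (f i) = 0)
    (hd : ∀ z : Fin n → ℂ, (∀ i, eval z (h i) = 0) → z ∈ closure {z' : Fin n → ℂ |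
      (∀ i, eval z' (h i) = 0) ∧ (LinearIndependent ℂ fun i j => eval z' (pderiv j (f i))) ∧
      eval z' g ≠ 0})
    (σ : Fin s → Fin r → ℚ) (ω : Fin r → ℝ) (δ : ℝ) (hδ : 0 < δ) :
    ∃ (lam : Fin s → ℂ) (θ : Fin r → ℂ), Good e f (fun j b => ((σ j b : ℚ) : ℝ)) lam θ ∧
      eval (xr e (fun j b => ((σ j b : ℚ) : ℝ)) lam θ) g ≠ 0 ∧ ∀ b, |(θ b).re - ω b| < δ := by
  classical
  obtain ⟨s', rfl⟩ := Nat.exists_eq_add_of_le hsr
  obtain ⟨K, hKc, hKI, hKs, hKf⟩ := exists_field
    (Finset.univ.image h ∪ Finset.univ.image f ∪ {g})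
  have hKh : ∀ i, ∃ h' : MvPolynomial (Fin n) K, map (algebraMap K ℂ) h' = h i := fun i =>
    hKf _ (by simp)
  have hKff : ∀ i, ∃ f' : MvPolynomial (Fin n) K, map (algebraMap K ℂ) f' = f i := fun i =>
    hKf _ (by simp)
  obtain ⟨g', hg'⟩ := hKf g (by simp)
  choose h' hh' using hKh
  choose f' hf' using hKff
  have hev : ∀ (z : Fin n → ℂ) (g : MvPolynomial (Fin n) K),
      aeval z g = eval z (map (algebraMap K ℂ) g) := by
    intro z g
    rw [eval_map]
    rfl
  have hhom : ∀ i, (h' i).IsHomogeneous (d i) := fun i =>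
    IsHomogeneous.of_map (algebraMap K ℂ).injective (by rw [hh']; exact hh i)
  have hN := fun b => null_lp e h' (fun z hz hz' => hco z hz fun i => by
    rw [← hh' i, ← hev]
    exact hz' i) σ b
  -- generic real data
  obtain ⟨x, hxU, hx⟩ := gen_real K {x : Fin (r + s') → ℝ | ∀ b : Fin r,
    |x (Fin.castAdd s' b) - ω b| < δ} (by
      have h1 : {x : Fin (r + s') → ℝ | ∀ b : Fin r, |x (Fin.castAdd s' b) - ω b| < δ} =
          ⋂ b, {x : Fin (r + s') → ℝ | |x (Fin.castAdd s' b) - ω b| < δ} := by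
        ext x
        simp
      rw [h1]
      exact isOpen_iInter_of_finite fun b =>
        isOpen_lt ((continuous_apply _).sub continuous_const).abs continuous_const)
    ⟨Fin.append ω 0, fun b => by
      rw [Fin.append_left, sub_self, abs_zero]
      exact hδ⟩
  obtain ⟨l, y, hz⟩ := borsuk_zero e h d hh hodd hre σ (fun b => x (Fin.castAdd s' b))
    (fun a => x (Fin.natAdd r a))
  obtain ⟨u, hu⟩ : ∃ u : Fin (r + s') → ℝ, u = Fin.append l (fun a => x (Fin.natAdd r a)) :=
    ⟨_, rfl⟩
  rw [← hu] at hz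
  obtain ⟨lam, hlam⟩ : ∃ lam : Fin (r + s') → ℂ, lam = fun j => Complex.I * ((u j : ℝ) : ℂ) :=
    ⟨_, rfl⟩
  obtain ⟨θ, hθ⟩ : ∃ θ : Fin r → ℂ, θ = fun b => ((x (Fin.castAdd s' b) : ℝ) : ℂ) +
    Complex.I * (y b : ℂ) := ⟨_, rfl⟩
  obtain ⟨ζ, hζ⟩ : ∃ ζ : Fin n → ℂ, ζ = xr e (fun j b => ((σ j b : ℚ) : ℝ)) lam θ := ⟨_, rfl⟩
  have hz' : ∀ i, eval ζ (h i) = 0 := by
    rw [hζ, hlam, hθ]
    exact hz
  have hprj : prj e σ ζ = lam := by rw [hζ, prj_xr]
  have hθζ : ∀ b, ζ (e (Sum.inr b)) = θ b := by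
    intro b
    rw [hζ, xr_inr]
  -- the field generated by the real numbers `u`
  obtain ⟨E, hE⟩ : ∃ E : IntermediateField K ℂ, E = IntermediateField.adjoin K
    (Set.range fun j => ((u j : ℝ) : ℂ)) := ⟨_, rfl⟩
  have huE : ∀ j, ((u j : ℝ) : ℂ) ∈ E := by
    intro j
    rw [hE]
    exact IntermediateField.subset_adjoin _ _ ⟨j, rfl⟩
  have hKE : ∀ a ∈ K, a ∈ E := fun a ha => E.algebraMap_mem ⟨a, ha⟩
  have hEs : ∀ z ∈ E.toSubfield, (starRingEnd ℂ) z ∈ E.toSubfield := by
    intro z hz
    have hz1 : z ∈ IntermediateField.adjoin K (Set.range fun j => ((u j : ℝ) : ℂ)) := by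
      rw [← hE]
      exact hz
    have hgoal : (starRingEnd ℂ) z ∈ E := by
      clear hz
      induction hz1 using IntermediateField.adjoin_induction with
      | mem z hz =>
        obtain ⟨j, rfl⟩ := hz
        rw [Complex.conj_ofReal]
        exact huE j
      | algebraMap a => exact hKE _ (hKs _ a.2)
      | add z w _ _ hz hw =>
        rw [map_add]
        exact E.add_mem hz hw
      | inv z _ hz =>
        rw [map_inv₀]
        exact E.inv_mem hz
      | mul z w _ _ hz hw =>
        rw [map_mul]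
        exact E.mul_mem hz hw
    exact hgoal
  have hθE : ∀ b, IsAlgebraic E.toSubfield (θ b) := by
    intro b
    have h1 := theta_alg e h' d hhom σ hN ζ (fun i => by rw [hev, hh' i]; exact hz' i) E (by
      intro j
      have h2 : ζ (e (Sum.inl j)) - ∑ b, ((σ j b : ℚ) : ℂ) * ζ (e (Sum.inr b)) = lam j := by
        rw [← prj_apply, hprj]
      rw [h2, hlam]
      exact E.mul_mem (hKE _ hKI) (huE j)) b
    rw [hθζ] at h1
    exact h1
  have hθre : ∀ b, (θ b).re = x (Fin.castAdd s' b) := by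
    intro b
    rw [hθ]
    simp
  have hxE : ∀ j, IsAlgebraic E ((x j : ℝ) : ℂ) := by
    intro j
    induction j using Fin.addCases with
    | left b =>
      have h1 := alg_conj E.toSubfield hEs _ (hθE b)
      have h2 := (hθE b).add h1
      have h3 : θ b + (starRingEnd ℂ) (θ b) = 2 * ((x (Fin.castAdd s' b) : ℝ) : ℂ) := by
        rw [Complex.add_conj, hθre]
        push_cast
        ring
      rw [h3] at h2
      have h4 : IsAlgebraic E.toSubfield ((2 : ℂ)⁻¹) := by
        have h5 : (2 : ℂ)⁻¹ ∈ E.toSubfield := by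
          apply Subfield.inv_mem
          have : (2 : ℂ) = 1 + 1 := by norm_num
          rw [this]
          exact Subfield.add_mem _ (Subfield.one_mem _) (Subfield.one_mem _)
        exact isAlgebraic_algebraMap (⟨_, h5⟩ : E.toSubfield)
      have h5 := h4.mul h2
      rw [inv_mul_cancel_left₀ two_ne_zero] at h5
      exact h5
    | right a =>
      have h1 : ((x (Fin.natAdd r a) : ℝ) : ℂ) ∈ E := by
        have := huE (Fin.natAdd r a)
        rw [hu, Fin.append_right] at this
        exact this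
      exact isAlgebraic_algebraMap (⟨_, h1⟩ : E)
  have hui : AlgebraicIndependent K fun j => ((u j : ℝ) : ℂ) := by
    refine exch _ _ hx fun j => ?_
    rw [← IntermediateField.isAlgebraic_adjoin_iff, ← hE]
    exact hxE j
  have hlami : AlgebraicIndependent K lam := by
    refine exch _ _ hui fun j => ?_
    have h1 : ((u j : ℝ) : ℂ) ∈ Algebra.adjoin K (Set.range lam) := by
      have hKI' : -Complex.I ∈ K := K.neg_mem hKI
      have h2 : ((u j : ℝ) : ℂ) = (⟨-Complex.I, hKI'⟩ : K) • lam j := by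
        rw [hlam]
        show _ = -Complex.I * (Complex.I * ((u j : ℝ) : ℂ))
        rw [← mul_assoc, neg_mul, Complex.I_mul_I, neg_neg, one_mul]
      rw [h2]
      have h3 : lam j ∈ Algebra.adjoin K (Set.range lam) :=
        Algebra.subset_adjoin (Set.mem_range_self j)
      exact Subalgebra.smul_mem _ h3 _
    exact isAlgebraic_algebraMap (⟨_, h1⟩ : Algebra.adjoin K (Set.range lam))
  -- the generic point is a good point
  have hgood : (LinearIndependent ℂ fun i j => eval ζ (pderiv j (f i))) ∧ eval ζ g ≠ 0 := by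
    by_contra hbad
    obtain ⟨G, hG⟩ : ∃ G : (Fin r → Fin n) → MvPolynomial (Fin n) K,
      G = fun κ => (Matrix.of fun i b => pderiv (κ b) (f' i)).det * g' := ⟨_, rfl⟩
    have hGe : ∀ z κ, aeval z (G κ) =
        (Matrix.of fun i b => eval z (pderiv (κ b) (f i))).det * eval z g := by
      intro z κ
      rw [hG, map_mul, hev z g', hg', AlgHom.map_det]
      congr 2
      ext i b
      rw [AlgHom.mapMatrix_apply, Matrix.map_apply, Matrix.of_apply, Matrix.of_apply, hev,
        ← pderiv_map, hf' i]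
    have hG0 : ∀ κ, aeval ζ (G κ) = 0 := by
      intro κ
      rw [hGe]
      by_contra hne
      exact hbad ⟨indep_of_minor _ κ (left_ne_zero_of_mul hne), right_ne_zero_of_mul hne⟩
    have hgen := fun κ => gen_min e h' d hhom σ hN ζ (fun i => by
      rw [hev, hh' i]
      exact hz' i) (by rw [hprj]; exact hlami) (G κ) (hG0 κ)
    choose v k hv hvk using hgen
    have hopen : ∀ᶠ z in nhds ζ, ∀ κ, eval z (map (algebraMap K ℂ) (v κ)) ≠ 0 := by
      rw [Filter.eventually_all]
      intro κ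
      refine (MvPolynomial.continuous_eval _).continuousAt.eventually_ne ?_
      rw [← hev]
      exact hv κ
    obtain ⟨z, hzv, hz1, hz2, hz3⟩ := (mem_closure_iff_nhds.1 (hd ζ hz')) _ hopen
    obtain ⟨κ, hκ⟩ := exists_minor _ hz2
    have h1 : aeval z (v κ * G κ ^ k κ) = 0 := by
      have h2 : ∀ p ∈ Ideal.span (Set.range h'), aeval z p = 0 := by
        intro p hp
        have h3 : Ideal.span (Set.range h') ≤
            RingHom.ker (aeval z : MvPolynomial (Fin n) K →ₐ[K] ℂ) := by
          rw [Ideal.span_le]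
          rintro _ ⟨i, rfl⟩
          rw [SetLike.mem_coe, RingHom.mem_ker, hev, hh' i]
          exact hz1 i
        exact h3 hp
      exact h2 _ (hvk κ)
    rw [map_mul, map_pow, hGe, hev] at h1
    exact mul_ne_zero (hzv κ) (pow_ne_zero _ (mul_ne_zero hκ hz3)) h1
  have hfz := hfh ζ hz'
  refine ⟨lam, θ, ⟨?_, ?_, ?_⟩, ?_, ?_⟩
  · intro j
    rw [hlam]
    simp
  · rw [← hζ]
    exact hfz
  · have h1 := nondeg e σ f' lam θ hlami (fun i => by rw [← hζ, hev, hf' i]; exact hfz i) (by
      have h2 := hgood.1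
      rw [← hζ]
      convert h2 using 3 with i j
      rw [hev, ← pderiv_map, hf' i])
    simp only [hf'] at h1
    exact h1
  · rw [← hζ]
    exact hgood.2
  · intro b
    rw [hθre]
    exact hxU b

end Pool.Agent.Run7.h490
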