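import Pool.Agent.Run7.h490.OD6
import Pool.Agent.Run7.h490.Main
import Pool.Agent.K3h53.UG.Fin11
import Pool.Agent.K3h64.E8.CORE8
import Pool.Agent.K3h77.E8.ALG8
import Pool.Agent.K3h60.E8.SUPP8
import Pool.Agent.K3h86.E8.TRD8
import Pool.Agent.K3h58.ET.FLAG
import Pool.Agent.K3h24.ET.CONE2
import Pool.Agent.K3h25.ET3.CONE1
import Pool.Agent.K3h35.ET.TRM
import Pool.Agent.K3h49.ET.VAL
import Pool.Agent.K3h87.ET.SEP

/-! Exponential points on varieties over bases which contain a complete intersection of odd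
degrees at infinity. -/

set_option autoImplicit false

namespace Pool.Agent.Run7.h490

open MvPolynomial Filter Topology Metric Set Pool.Agent.K3h22.EX Pool.Agent.K3h53.UG
  Pool.Agent.K3h22.E8 Module

theorem geoL_odd {n s r : ℕ} (hsr : r ≤ s) (e : Fin s ⊕ Fin r ≃ Fin n)
    (F : Fin r → MvPolynomial (Fin n) ℂ) (g : MvPolynomial (Fin n) ℂ)
    (h : Fin r → MvPolynomial (Fin n) ℂ) (d : Fin r → ℕ) (hh : ∀ i, (h i).IsHomogeneous (d i))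
    (hodd : ∀ i, Odd (d i))
    (hco : ∀ z : Fin n → ℂ, z ≠ 0 → (∀ i, eval z (h i) = 0) →
      r < finrank ℚ (Submodule.span ℚ (Set.range z)))
    (hre : ∀ x : Fin n → ℝ, x ≠ 0 → (∀ i, eval (fun j => (x j : ℂ)) (h i) = 0) →
      2 * r < finrank ℚ (Submodule.span ℚ (Set.range x)))
    (hfh : ∀ z : Fin n → ℂ, (∀ i, eval z (h i) = 0) → ∀ i, eval z (top (F i)) = 0)
    (hd : ∀ z : Fin n → ℂ, (∀ i, eval z (h i) = 0) → z ∈ closure {z' : Fin n → ℂ |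
      (∀ i, eval z' (h i) = 0) ∧
      (LinearIndependent ℂ fun i j => eval z' (pderiv j (top (F i)))) ∧ eval z' (top g) ≠ 0})
    (I : Ideal (MvPolynomial (Fin n) ℂ)) (hI : I.IsPrime)
    (hId : ∀ K : Finset (Fin n), K.card = s + 1 → ∃ G ∈ I, G ≠ 0 ∧ G.vars ⊆ K)
    (hIF : ∀ x : Fin n → ℂ, (∀ i, eval x (F i) = 0) → eval x g ≠ 0 → ∀ G ∈ I, eval x G = 0)
    (ω : Fin r → ℝ) (σ : Fin s → Fin r → ℚ) :
    GeoL e {x : Fin n → ℂ | (∀ i, eval x (F i) = 0) ∧ eval x g ≠ 0} I ω σ := by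
  classical
  intro δ' hδ' T hT δ hδ
  obtain ⟨lam, θ, h4, h5, h6⟩ := exists_good hsr e h d hh hodd hco hre (fun i => top (F i))
    (top g) hfh hd σ ω δ' hδ'
  have e1 : (sg e (fun _ => 1) fun j b => ((σ j b : ℚ) : ℝ)) =
      fun j b => ((σ j b : ℚ) : ℝ) := by
    funext j b
    simp [sg]
  obtain ⟨cn, ε, C, R₀, h7, h8, h9, h10, h11⟩ := Pool.Agent.K3h57.UG.t_GEO7
    Pool.Agent.K3h68.UG.t_DIR7 Pool.Agent.K3h99.UG.t_BR6 Pool.Agent.K3h72.UG.t_TOP6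
    Pool.Agent.K3h90.UG.t_TOP7 Pool.Agent.K3h72.UG.t_NORM6 n s r e (fun _ => 1)
    (fun _ => le_rfl) (fun _ => rfl) F g I hI hId hIF (fun j b => ((σ j b : ℚ) : ℝ)) lam θ (by
      simp only [e1, wtop_one]
      exact h4) (by
      rw [e1, wtop_one]
      exact h5) T hT δ hδ
  exact ⟨fun b => (θ b).re, h6, cn, ε, C, R₀, h7, h8, h9, h10, h11⟩

theorem gq_top {n : ℕ} : GQ (⊤ : Submodule ℝ (Fin n → ℝ)) := by
  intro k M
  right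
  intro x
  exact ⟨x, Submodule.mem_top, fun i => rfl⟩

theorem geOdd {n s r : ℕ} (hn : n = s + r) (hsr : r ≤ s) (hr : 1 ≤ r)
    (P : Ideal (MvPolynomial (Fin n ⊕ Fin n) ℂ)) (V : Set (Fin n ⊕ Fin n → ℂ)) (hP : P.IsPrime)
    (hV : V = {p | (∀ f ∈ P, eval p f = 0) ∧ ∀ j : Fin n, p (Sum.inr j) ≠ 0})
    (hne : V.Nonempty)
    (hX1 : ∃ K : Finset (Fin n), K.card = s ∧ ∀ G : MvPolynomial (Fin n) ℂ, G.vars ⊆ K →
      (∀ u ∈ V, eval (fun i => u (Sum.inl i)) G = 0) → G = 0)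
    (hX2 : ∀ K : Finset (Fin n), K.card = s + 1 → ¬ ∀ G : MvPolynomial (Fin n) ℂ, G.vars ⊆ K →
      (∀ u ∈ V, eval (fun i => u (Sum.inl i)) G = 0) → G = 0)
    (hd : ∃ K : Finset (Fin n ⊕ Fin n), K.card = n ∧ Indep V K)
    (F : Fin r → MvPolynomial (Fin n) ℂ) (g : MvPolynomial (Fin n) ℂ)
    (hIF : ∀ x : Fin n → ℂ, (∀ i, eval x (F i) = 0) → eval x g ≠ 0 →
      ∀ G : MvPolynomial (Fin n) ℂ, (∀ u ∈ V, eval (fun i => u (Sum.inl i)) G = 0) →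
        eval x G = 0)
    (h : Fin r → MvPolynomial (Fin n) ℂ) (d : Fin r → ℕ) (hh : ∀ i, (h i).IsHomogeneous (d i))
    (hodd : ∀ i, Odd (d i))
    (hco : ∀ z : Fin n → ℂ, z ≠ 0 → (∀ i, eval z (h i) = 0) →
      r < finrank ℚ (Submodule.span ℚ (Set.range z)))
    (hre : ∀ x : Fin n → ℝ, x ≠ 0 → (∀ i, eval (fun j => (x j : ℂ)) (h i) = 0) →
      2 * r < finrank ℚ (Submodule.span ℚ (Set.range x)))
    (hfh : ∀ z : Fin n → ℂ, (∀ i, eval z (h i) = 0) → ∀ i, eval z (top (F i)) = 0)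
    (hdense : ∀ z : Fin n → ℂ, (∀ i, eval z (h i) = 0) → z ∈ closure {z' : Fin n → ℂ |
      (∀ i, eval z' (h i) = 0) ∧
      (LinearIndependent ℂ fun i j => eval z' (pderiv j (top (F i)))) ∧ eval z' (top g) ≠ 0})
    (c : Fin n ⊕ Fin n → ℂ) (hc : ∀ i, c (Sum.inr i) ≠ 0)
    (H : MvPolynomial (Fin n ⊕ Fin n) ℂ)
    (hHV : ∃ u ∈ V, eval (Sum.elim (fun i => u (Sum.inl i) + c (Sum.inl i))
      (fun i => c (Sum.inr i) * u (Sum.inr i))) H ≠ 0) :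
    ∃ z : Fin n → ℂ, (∃ u ∈ V, (Sum.elim z fun i => Complex.exp (z i) :
      Fin n ⊕ Fin n → ℂ) = Sum.elim (fun i => u (Sum.inl i) + c (Sum.inl i))
        (fun i => c (Sum.inr i) * u (Sum.inr i))) ∧
      eval (Sum.elim z fun i => Complex.exp (z i)) H ≠ 0 := by
  classical
  obtain ⟨H', hH'⟩ := pullback c H
  obtain ⟨u, hu, huH⟩ := hHV
  rw [← hH'] at huH
  obtain ⟨L', T, hL', hLT, hTc, hT⟩ := exists_T hn P V hP hV hne hX2 hX1 hd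
  obtain ⟨P', V', h1, h2, h3, ⟨v, hv, hvH⟩, h5, h6, h7⟩ := reduceT hn P V hP hV hne hX2 L' hL' T
    hLT hTc hT H' ⟨u, hu, huH⟩
  obtain ⟨K₁, hK₁, hK₂⟩ := hX1
  obtain ⟨z, ⟨u', hu', hz⟩, hzH⟩ := mainG Pool.Agent.K3h64.E8.t_CORE8
    Pool.Agent.K3h77.E8.t_ALG8 Pool.Agent.K3h60.E8.t_SUPP8 Pool.Agent.K3h86.E8.t_TRD8
    Pool.Agent.K3h87.ET.t_SEP (Pool.Agent.K3h58.ET.t_FLAG Pool.Agent.K3h49.ET.t_VAL
      Pool.Agent.K3h35.ET.t_TRM) Pool.Agent.K3h25.ET3.t_CONE1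
    Pool.Agent.K3h24.ET.t_CONE2 hn (hr.trans hsr) hr P' V' h1 h2 ⟨v, hv⟩ ⟨_, hTc, h5⟩ h6
    ⟨K₁, hK₁, fun G hG hGV => hK₂ G hG ((h7 G).1 hGV)⟩
    (fun K hK hcon => hX2 K hK fun G hG hGV => hcon G hG ((h7 G).2 hGV)) F g
    (fun x hx hxg G hG => hIF x hx hxg G ((h7 G).1 hG)) ⊤ 0 (by omega) (fun i => i.elim0)
    gq_top (fun w _ => Submodule.mem_top)
    (fun I hI hId hIF w _ e σ _ => geoL_odd hsr e F g h d hh hodd hco hre hfh hdense I hI hId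
      hIF _ σ) c hc H
    ⟨v, hv, by rw [← hH']; exact hvH⟩
  exact ⟨z, ⟨u', h3 hu', hz⟩, hzH⟩

end Pool.Agent.Run7.h490
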