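import Pool.Agent.Run7.h490.OD4
import Pool.Agent.K3h68.ET.GENA

/-! Forms with algebraically independent coefficients are in general position. -/

set_option autoImplicit false

namespace Pool.Agent.Run7.h490

open MvPolynomial Module

/-- counting -/
theorem count {L : Type} [Field L] [Algebra ℚ L] {ι : Type} [Fintype ι] [DecidableEq ι]
    (a : ι → L) (ha : AlgebraicIndependent ℚ a) (T : Finset ι) (Z : Set L) (k : ℕ)
    (hZ : (AlgebraicIndependent.matroid ℚ L).eRk Z ≤ k)
    (hT : ∀ t ∈ T, a t ∈ (AlgebraicIndependent.matroid ℚ L).closure (Z ∪ a '' {i | i ∉ T})) :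
    T.card ≤ k := by
  obtain ⟨M, hM⟩ : ∃ M, M = AlgebraicIndependent.matroid ℚ L := ⟨_, rfl⟩
  rw [← hM] at hZ hT
  have hE : M.E = Set.univ := by rw [hM]; rfl
  have hI : M.Indep (Set.range a) := by
    rw [hM, AlgebraicIndependent.matroid_indep_iff]
    exact ha.coe_range
  have h1 : (Set.range a).encard = Fintype.card ι := by
    rw [← Set.image_univ, ha.injective.injOn.encard_image, Set.encard_univ]
    simp
  have h2 : Set.range a ⊆ M.closure (Z ∪ a '' {i | i ∉ T}) := by
    rintro _ ⟨i, rfl⟩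
    by_cases hi : i ∈ T
    · exact hT i hi
    · exact M.mem_closure_of_mem (Or.inr ⟨i, hi, rfl⟩) (by rw [hE]; exact Set.subset_univ _)
  have h3 : (Fintype.card ι : ℕ∞) ≤ M.eRk (Z ∪ a '' {i | i ∉ T}) := by
    rw [← h1, ← M.eRk_closure_eq]
    exact hI.encard_le_eRk_of_subset h2
  have h4 : M.eRk (Z ∪ a '' {i | i ∉ T}) ≤ k + (Fintype.card ι - T.card : ℕ) := by
    refine (M.eRk_union_le_eRk_add_encard _ _).trans (add_le_add hZ ?_)
    refine (Set.encard_image_le _ _).trans ?_
    have h5 : {i | i ∉ T} = ((Tᶜ : Finset ι) : Set ι) := by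
      ext i
      simp
    rw [h5, Set.encard_coe_eq_coe_finsetCard, Finset.card_compl]
  have h5 := h3.trans h4
  have h6 : Fintype.card ι ≤ k + (Fintype.card ι - T.card) := by exact_mod_cast h5
  have h7 : T.card ≤ Fintype.card ι := Finset.card_le_univ T
  omega

theorem mem_clQ {L : Type} [Field L] [Algebra ℚ L] (S : Set L) (z : L) :
    z ∈ (AlgebraicIndependent.matroid ℚ L).closure S ↔ IsAlgebraic (Algebra.adjoin ℚ S) z := by
  rw [AlgebraicIndependent.matroid_closure_eq]
  rfl

/-- the rank of a normalized vector -/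
theorem rk_le {L : Type} [Field L] [CharZero L] {n : ℕ} (z : Fin n → L) (k₀ : Fin n)
    (h1 : z k₀ = 1) (ρ : ℕ) (hρ : finrank ℚ (Submodule.span ℚ (Set.range z)) ≤ ρ + 1) :
    (AlgebraicIndependent.matroid ℚ L).eRk (Set.range z) ≤ ρ := by
  classical
  obtain ⟨M, hM⟩ : ∃ M, M = AlgebraicIndependent.matroid ℚ L := ⟨_, rfl⟩
  have hE : M.E = Set.univ := by rw [hM]; rfl
  obtain ⟨V, hV⟩ : ∃ V, V = Submodule.span ℚ (Set.range z) := ⟨_, rfl⟩
  have hVf : Module.Finite ℚ V := by
    rw [hV]
    exact FiniteDimensional.span_of_finite ℚ (Set.finite_range _)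
  obtain ⟨W, hW⟩ : ∃ W : Submodule ℚ L, W = Submodule.span ℚ {(1 : L)} := ⟨_, rfl⟩
  have h1V : (1 : L) ∈ V := by
    rw [hV, ← h1]
    exact Submodule.subset_span ⟨k₀, rfl⟩
  let Φ : V →ₗ[ℚ] L ⧸ W := W.mkQ.domRestrict V
  have hker : 1 ≤ finrank ℚ (LinearMap.ker Φ) := by
    rw [Nat.one_le_iff_ne_zero]
    intro h0
    have h2 : LinearMap.ker Φ = ⊥ := Submodule.finrank_eq_zero.1 h0
    have h3 : (⟨1, h1V⟩ : V) ∈ LinearMap.ker Φ := by
      rw [LinearMap.mem_ker]
      show W.mkQ 1 = 0
      rw [Submodule.mkQ_apply, Submodule.Quotient.mk_eq_zero, hW]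
      exact Submodule.mem_span_singleton_self 1
    rw [h2, Submodule.mem_bot] at h3
    exact one_ne_zero (congrArg Subtype.val h3)
  have hrange : finrank ℚ (LinearMap.range Φ) ≤ ρ := by
    have h2 := LinearMap.finrank_range_add_finrank_ker Φ
    rw [← hV] at hρ
    omega
  have hfin : Module.Finite ℚ (Submodule.span ℚ (Set.range fun k => W.mkQ (z k))) :=
    FiniteDimensional.span_of_finite ℚ (Set.finite_range _)
  obtain ⟨m, f, hm, hf1, hf2⟩ : ∃ (m : ℕ) (f : Fin m → L ⧸ W), m ≤ ρ ∧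
      (∀ i, f i ∈ Set.range fun k => W.mkQ (z k)) ∧
      Submodule.span ℚ (Set.range f) = Submodule.span ℚ (Set.range fun k => W.mkQ (z k)) := by
    refine ⟨_, (Submodule.exists_fun_fin_finrank_span_eq ℚ
      (Set.range fun k => W.mkQ (z k))).choose, ?_,
      (Submodule.exists_fun_fin_finrank_span_eq ℚ
        (Set.range fun k => W.mkQ (z k))).choose_spec.1,
      (Submodule.exists_fun_fin_finrank_span_eq ℚ
        (Set.range fun k => W.mkQ (z k))).choose_spec.2.1⟩
    refine le_trans ?_ hrange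
    apply Submodule.finrank_mono
    rw [Submodule.span_le]
    rintro _ ⟨k, rfl⟩
    refine ⟨⟨z k, ?_⟩, rfl⟩
    rw [hV]
    exact Submodule.subset_span ⟨k, rfl⟩
  choose κ hκ using hf1
  have hsub : Set.range z ⊆ M.closure (Set.range (z ∘ κ)) := by
    rintro _ ⟨k, rfl⟩
    rw [hM, mem_clQ]
    have h2 : W.mkQ (z k) ∈ Submodule.span ℚ (Set.range f) := by
      rw [hf2]
      exact Submodule.subset_span ⟨k, rfl⟩
    have h3 : Submodule.span ℚ (Set.range f) ≤
        Submodule.map W.mkQ (Submodule.span ℚ (Set.range (z ∘ κ))) := by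
      rw [Submodule.span_le]
      rintro _ ⟨i, rfl⟩
      exact ⟨z (κ i), Submodule.subset_span ⟨i, rfl⟩, hκ i⟩
    obtain ⟨v, hv, hvk⟩ := h3 h2
    have h4 : z k - v ∈ W := by
      rw [← Submodule.Quotient.mk_eq_zero, ← Submodule.mkQ_apply, map_sub, hvk, sub_self]
    rw [hW, Submodule.mem_span_singleton] at h4
    obtain ⟨q, hq⟩ := h4
    have h5 : z k ∈ Algebra.adjoin ℚ (Set.range (z ∘ κ)) := by
      have h6 : z k = q • (1 : L) + v := by rw [hq]; ring
      rw [h6]
      refine Subalgebra.add_mem _ (Subalgebra.smul_mem _ (Subalgebra.one_mem _) q) ?_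
      have h7 : Submodule.span ℚ (Set.range (z ∘ κ)) ≤
          Subalgebra.toSubmodule (Algebra.adjoin ℚ (Set.range (z ∘ κ))) := by
        rw [Submodule.span_le]
        exact Algebra.subset_adjoin
      exact h7 hv
    exact isAlgebraic_algebraMap (⟨_, h5⟩ : Algebra.adjoin ℚ (Set.range (z ∘ κ)))
  rw [← hM]
  calc M.eRk (Set.range z) ≤ M.eRk (M.closure (Set.range (z ∘ κ))) := M.eRk_mono hsub
    _ = M.eRk (Set.range (z ∘ κ)) := M.eRk_closure_eq _
    _ ≤ (Set.range (z ∘ κ)).encard := M.eRk_le_encard _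
    _ ≤ m := by
      rw [← Set.image_univ]
      refine (Set.encard_image_le _ _).trans ?_
      rw [Set.encard_univ]
      simp
    _ ≤ ρ := by exact_mod_cast hm

theorem lin_solve {L : Type} [Field L] {κ : Type} [Fintype κ] [DecidableEq κ] (C : Subring L)
    (x y : κ → L) (m₀ : κ) (h : ∑ m, x m * y m = 0) (hy0 : y m₀ = 1)
    (h' : ∀ m, m ≠ m₀ → x m * y m ∈ C) : x m₀ ∈ C := by
  rw [← Finset.add_sum_erase Finset.univ _ (Finset.mem_univ m₀), hy0, mul_one] at h
  rw [eq_neg_of_add_eq_zero_left h]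
  exact C.neg_mem (C.sum_mem fun m hm => h' m (Finset.ne_of_mem_erase hm))

section

variable {n r : ℕ} (d : Fin r → ℕ) (S : Fin r → Finset (Fin n →₀ ℕ))

/-- the polynomials with coefficients `a` -/
noncomputable def Fp (a : (Σ i : Fin r, {m // m ∈ S i}) → ℂ) (i : Fin r) :
    MvPolynomial (Fin n) ℂ := ∑ m : {m // m ∈ S i}, monomial m.1 (a ⟨i, m⟩)

/-- the part of degree `d i` -/
noncomputable def Hp (a : (Σ i : Fin r, {m // m ∈ S i}) → ℂ) (i : Fin r) :
    MvPolynomial (Fin n) ℂ :=
  ∑ m : {m // m ∈ S i}, if m.1.degree = d i then monomial m.1 (a ⟨i, m⟩) else 0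

theorem coeff_Fp (a : (Σ i : Fin r, {m // m ∈ S i}) → ℂ) (i : Fin r) (m : Fin n →₀ ℕ)
    (hm : m ∈ S i) : coeff m (Fp S a i) = a ⟨i, ⟨m, hm⟩⟩ := by
  classical
  unfold Fp
  rw [coeff_sum, Finset.sum_eq_single (⟨m, hm⟩ : {m // m ∈ S i})]
  · rw [coeff_monomial, if_pos rfl]
  · intro b _ hb
    rw [coeff_monomial, if_neg]
    intro h0
    exact hb (Subtype.ext h0)
  · intro h0
    exact absurd (Finset.mem_univ _) h0

theorem homog_Fp (a : (Σ i : Fin r, {m // m ∈ S i}) → ℂ) (i : Fin r) :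
    homogeneousComponent (d i) (Fp S a i) = Hp d S a i := by
  unfold Fp Hp
  rw [map_sum]
  refine Finset.sum_congr rfl fun m _ => ?_
  have h1 : (monomial m.1 (a ⟨i, m⟩) : MvPolynomial (Fin n) ℂ) ∈
      homogeneousSubmodule (Fin n) ℂ m.1.degree := isHomogeneous_monomial _ rfl
  rw [homogeneousComponent_of_mem h1]
  by_cases h : m.1.degree = d i
  · rw [if_pos h, if_pos h.symm]
  · rw [if_neg h, if_neg (Ne.symm h)]

theorem Hp_homog (a : (Σ i : Fin r, {m // m ∈ S i}) → ℂ) (i : Fin r) :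
    (Hp d S a i).IsHomogeneous (d i) := by
  rw [← homog_Fp]
  exact homogeneousComponent_isHomogeneous _ _

/-- the value of the monomials -/
noncomputable def Vw {L : Type} [Field L] (z : Fin n → L) (i : Fin r)
    (p : Σ i : Fin r, {m // m ∈ S i}) : L :=
  if p.1 = i ∧ p.2.1.degree = d p.1 then ∏ j, z j ^ p.2.1 j else 0

/-- the value of the derivatives of the monomials -/
noncomputable def Ww (z : Fin n → ℂ) (c : Fin r → ℂ) (k : Fin n)
    (p : Σ i : Fin r, {m // m ∈ S i}) : ℂ :=
  if p.2.1.degree = d p.1 then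
    c p.1 * ((p.2.1 k : ℂ) * ∏ j, z j ^ (p.2.1 - Finsupp.single k 1 : Fin n →₀ ℕ) j) else 0

theorem eval_Hp (a : (Σ i : Fin r, {m // m ∈ S i}) → ℂ) (i : Fin r) (z : Fin n → ℂ) :
    eval z (Hp d S a i) = ∑ p, a p * Vw d S z i p := by
  classical
  rw [Fintype.sum_sigma, Finset.sum_eq_single i]
  · unfold Hp Vw
    rw [map_sum]
    refine Finset.sum_congr rfl fun m _ => ?_
    by_cases h : m.1.degree = d i
    · rw [if_pos h, if_pos ⟨rfl, h⟩, eval_monomial, Finsupp.prod_fintype _ _ (by simp)]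
    · rw [if_neg h, if_neg (fun h' => h h'.2), map_zero, mul_zero]
  · intro i' _ hi'
    refine Finset.sum_eq_zero fun m _ => ?_
    unfold Vw
    rw [if_neg (fun h' => hi' h'.1), mul_zero]
  · intro h0
    exact absurd (Finset.mem_univ _) h0

theorem eval_dHp (a : (Σ i : Fin r, {m // m ∈ S i}) → ℂ) (c : Fin r → ℂ) (k : Fin n)
    (z : Fin n → ℂ) :
    ∑ i, c i * eval z (pderiv k (Hp d S a i)) = ∑ p, a p * Ww d S z c k p := by
  classical
  rw [Fintype.sum_sigma]
  refine Finset.sum_congr rfl fun i _ => ?_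
  unfold Hp Ww
  rw [map_sum, map_sum, Finset.mul_sum]
  refine Finset.sum_congr rfl fun m _ => ?_
  by_cases h : m.1.degree = d i
  · rw [if_pos h, if_pos h, pderiv_monomial, eval_monomial, Finsupp.prod_fintype _ _ (by simp)]
    ring
  · rw [if_neg h, if_neg h, map_zero, map_zero, mul_zero, mul_zero]

variable (hS : ∀ i m, m ∈ S i ↔ m.degree ≤ d i)

include hS

theorem totalDegree_Fp (k₀ : Fin n) (a : (Σ i : Fin r, {m // m ∈ S i}) → ℂ)
    (ha : ∀ p, a p ≠ 0) (i : Fin r) : (Fp S a i).totalDegree = d i := by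
  classical
  apply le_antisymm
  · unfold Fp
    refine totalDegree_finsetSum_le fun m _ => ?_
    refine (totalDegree_monomial_le _ _).trans ?_
    have h1 := (hS i m.1).1 m.2
    rw [Finsupp.degree_eq_sum] at h1
    exact (Finsupp.sum_fintype _ _ (fun _ => rfl)).le.trans h1
  · have hm : Finsupp.single k₀ (d i) ∈ S i := (hS i _).2 (by rw [Finsupp.degree_single])
    have h1 : Finsupp.single k₀ (d i) ∈ (Fp S a i).support := by
      rw [MvPolynomial.mem_support_iff, coeff_Fp S a i _ hm]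
      exact ha _
    have h2 := le_totalDegree h1
    rw [Finsupp.sum_single_index rfl] at h2
    exact h2

/-- the monomials of highest degree in one variable -/
noncomputable def pw (k₀ : Fin n) (i : Fin r) : Σ i : Fin r, {m // m ∈ S i} :=
  ⟨i, ⟨Finsupp.single k₀ (d i), (hS i _).2 (by rw [Finsupp.degree_single])⟩⟩

theorem Vw_pw {L : Type} [Field L] (z : Fin n → L) (k₀ : Fin n) (hz : z k₀ = 1) (i : Fin r) :
    Vw d S z i (pw d S hS k₀ i) = 1 := by
  unfold Vw pw
  rw [if_pos ⟨rfl, by rw [Finsupp.degree_single]⟩]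
  refine Finset.prod_eq_one fun j _ => ?_
  by_cases h : j = k₀
  · rw [h, hz, one_pow]
  · rw [Finsupp.single_eq_of_ne h, pow_zero]

theorem pw_inj (k₀ : Fin n) : Function.Injective (pw d S hS k₀) := by
  intro i j hij
  exact congrArg Sigma.fst hij

/-- forms in general position: no zeros of small rank -/
theorem rank_zero {L : Type} [Field L] [CharZero L] (ρ : ℕ) {τ : Type} [Fintype τ]
    (A : τ → (Σ i : Fin r, {m // m ∈ S i}) → L)
    (hA : AlgebraicIndependent ℚ (fun p : τ × (Σ i : Fin r, {m // m ∈ S i}) => A p.1 p.2))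
    (z : Fin n → L) (k₀ : Fin n) (hz : z k₀ = 1)
    (hz0 : ∀ t i, ∑ p, A t p * Vw d S z i p = 0)
    (hρ : finrank ℚ (Submodule.span ℚ (Set.range z)) ≤ ρ + 1) : Fintype.card τ * r ≤ ρ := by
  classical
  obtain ⟨T, hT⟩ : ∃ T : Finset (τ × (Σ i : Fin r, {m // m ∈ S i})),
    T = Finset.univ.image fun q : τ × Fin r => (q.1, pw d S hS k₀ q.2) := ⟨_, rfl⟩
  have hTc : T.card = Fintype.card τ * r := by
    rw [hT, Finset.card_image_of_injective, Finset.card_univ, Fintype.card_prod, Fintype.card_fin]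
    rintro ⟨t, i⟩ ⟨t', i'⟩ h
    rw [Prod.mk.injEq] at h
    exact Prod.ext h.1 (pw_inj d S hS k₀ h.2)
  rw [← hTc]
  refine count _ hA T (Set.range z) ρ (rk_le z k₀ hz ρ hρ) fun t ht => ?_
  rw [hT, Finset.mem_image] at ht
  obtain ⟨⟨t', i⟩, -, rfl⟩ := ht
  obtain ⟨Z, hZ⟩ : ∃ Z : Set L, Z = Set.range z ∪
    (fun p : τ × (Σ i : Fin r, {m // m ∈ S i}) => A p.1 p.2) '' {i | i ∉ T} := ⟨_, rfl⟩
  rw [← hZ, AlgebraicIndependent.matroid_closure_eq]
  refine lin_solve (Subalgebra.algebraicClosure (Algebra.adjoin ℚ Z) L).toSubring (A t')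
    (Vw d S z i) (pw d S hS k₀ i) (hz0 t' i) (Vw_pw d S hS z k₀ hz i) fun p hp => ?_
  have hmem : ∀ x ∈ Z, x ∈ (Subalgebra.algebraicClosure (Algebra.adjoin ℚ Z) L).toSubring := by
    intro x hx
    exact isAlgebraic_algebraMap (⟨x, Algebra.subset_adjoin hx⟩ : Algebra.adjoin ℚ Z)
  by_cases hpi : p.1 = i
  · apply Subring.mul_mem
    · apply hmem
      rw [hZ]
      right
      refine ⟨(t', p), ?_, rfl⟩
      rw [hT]
      intro hmemT
      obtain ⟨⟨t'', i'⟩, -, h2⟩ := Finset.mem_image.1 hmemT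
      rw [Prod.mk.injEq] at h2
      apply hp
      rw [← h2.2]
      have h3 : i' = i := by
        rw [← hpi, ← h2.2]
        rfl
      rw [h3]
    · unfold Vw
      split_ifs
      · refine Subring.prod_mem _ fun j _ => Subring.pow_mem _ (hmem _ ?_) _
        rw [hZ]
        exact Or.inl ⟨j, rfl⟩
      · exact Subring.zero_mem _
  · unfold Vw
    rw [if_neg (fun h' => hpi h'.1), mul_zero]
    exact Subring.zero_mem _

/-- the monomials of highest degree, linear in one of the variables -/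
noncomputable def pk (k₀ : Fin n) (i₀ : Fin r) (hd : 1 ≤ d i₀) (k : Fin n) :
    Σ i : Fin r, {m // m ∈ S i} :=
  ⟨i₀, ⟨Finsupp.single k₀ (d i₀ - 1) + Finsupp.single k 1, (hS i₀ _).2 (by
    rw [map_add, Finsupp.degree_single, Finsupp.degree_single]
    omega)⟩⟩

theorem smooth_gen (a : (Σ i : Fin r, {m // m ∈ S i}) → ℂ) (ha : AlgebraicIndependent ℚ a)
    (z : Fin n → ℂ) (k₀ : Fin n) (hz : z k₀ = 1) (c : Fin r → ℂ) (i₀ : Fin r) (hc : c i₀ = 1)
    (hd : 1 ≤ d i₀) (hz0 : ∀ i, ∑ p, a p * Vw d S z i p = 0)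
    (hg0 : ∀ k, ∑ p, a p * Ww d S z c k p = 0) : False := by
  classical
  have hn0 : 1 ≤ n := by
    have := k₀.2
    omega
  have hr0 : 1 ≤ r := by
    have := i₀.2
    omega
  obtain ⟨T, hT⟩ : ∃ T : Finset (Σ i : Fin r, {m // m ∈ S i}),
    T = Finset.univ.image (Sum.elim (fun i => pw d S hS k₀ i)
      (fun k : {k // k ≠ k₀} => pk d S hS k₀ i₀ hd k)) := ⟨_, rfl⟩
  have hne : ∀ i (k : Fin n), k ≠ k₀ → pw d S hS k₀ i ≠ pk d S hS k₀ i₀ hd k := by
    intro i k hk h
    have h1 : i = i₀ := congrArg Sigma.fst h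
    subst h1
    have h2 := Subtype.ext_iff.1 (eq_of_heq (Sigma.mk.inj_iff.1 h).2)
    have h3 := DFunLike.congr_fun h2 k
    rw [Finsupp.add_apply, Finsupp.single_eq_same, Finsupp.single_eq_of_ne hk,
      Finsupp.single_eq_of_ne hk] at h3
    omega
  have hpki : ∀ k k' : Fin n, k ≠ k₀ → pk d S hS k₀ i₀ hd k = pk d S hS k₀ i₀ hd k' → k = k' := by
    intro k k' hk h
    have h2 := Subtype.ext_iff.1 (eq_of_heq (Sigma.mk.inj_iff.1 h).2)
    have h3 := DFunLike.congr_fun h2 k
    rw [Finsupp.add_apply, Finsupp.add_apply, Finsupp.single_eq_same,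
      Finsupp.single_eq_of_ne hk] at h3
    by_contra hkk
    rw [Finsupp.single_eq_of_ne hkk] at h3
    omega
  have hTc : T.card = r + (n - 1) := by
    rw [hT, Finset.card_image_of_injective, Finset.card_univ, Fintype.card_sum, Fintype.card_fin]
    · congr 1
      rw [Fintype.card_subtype_compl, Fintype.card_fin, Fintype.card_subtype_eq]
    · rintro (i | k) (i' | k') h
      · exact congrArg Sum.inl (pw_inj d S hS k₀ h)
      · exact absurd h (hne i k' k'.2)
      · exact absurd h.symm (hne i' k k.2)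
      · exact congrArg Sum.inr (Subtype.ext (hpki k k' k.2 h))
  have hcount : T.card ≤ (n - 1) + (r - 1) := by
    refine count a ha T (Set.range z ∪ Set.range c) _ ?_ ?_
    · refine (Matroid.eRk_union_le_eRk_add_eRk _ _ _).trans ?_
      push_cast
      refine add_le_add (rk_le z k₀ hz (n - 1) ?_) (rk_le c i₀ hc (r - 1) ?_)
      · have h4 := finrank_range_le_card (R := ℚ) z
        rw [Fintype.card_fin] at h4
        unfold Set.finrank at h4
        omega
      · have h4 := finrank_range_le_card (R := ℚ) c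
        rw [Fintype.card_fin] at h4
        unfold Set.finrank at h4
        omega
    · obtain ⟨Z, hZ⟩ : ∃ Z : Set ℂ, Z = (Set.range z ∪ Set.range c) ∪ a '' {i | i ∉ T} :=
        ⟨_, rfl⟩
      rw [← hZ, AlgebraicIndependent.matroid_closure_eq]
      obtain ⟨C, hC⟩ : ∃ C : Subring ℂ,
        C = (Subalgebra.algebraicClosure (Algebra.adjoin ℚ Z) ℂ).toSubring := ⟨_, rfl⟩
      have hmem : ∀ x ∈ Z, x ∈ C := by
        intro x hx
        rw [hC]
        exact isAlgebraic_algebraMap (⟨x, Algebra.subset_adjoin hx⟩ : Algebra.adjoin ℚ Z)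
      have hzC : ∀ j, z j ∈ C := fun j => hmem _ (by rw [hZ]; exact Or.inl (Or.inl ⟨j, rfl⟩))
      have hcC : ∀ j, c j ∈ C := fun j => hmem _ (by rw [hZ]; exact Or.inl (Or.inr ⟨j, rfl⟩))
      have haC : ∀ p, p ∉ T → a p ∈ C := fun p hp => hmem _ (by
        rw [hZ]
        exact Or.inr ⟨p, hp, rfl⟩)
      have hVC : ∀ i p, Vw d S z i p ∈ C := by
        intro i p
        unfold Vw
        split_ifs
        · exact Subring.prod_mem _ fun j _ => Subring.pow_mem _ (hzC j) _
        · exact Subring.zero_mem _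
      have hWC : ∀ k p, Ww d S z c k p ∈ C := by
        intro k p
        unfold Ww
        split_ifs
        · refine Subring.mul_mem _ (hcC _) (Subring.mul_mem _ (natCast_mem C _)
            (Subring.prod_mem _ fun j _ => Subring.pow_mem _ (hzC j) _))
        · exact Subring.zero_mem _
      have hTm : ∀ p, p ∈ T → (∃ i, p = pw d S hS k₀ i) ∨
          ∃ k, k ≠ k₀ ∧ p = pk d S hS k₀ i₀ hd k := by
        intro p hp
        rw [hT, Finset.mem_image] at hp
        obtain ⟨q, -, rfl⟩ := hp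
        rcases q with i | k
        · exact Or.inl ⟨i, rfl⟩
        · exact Or.inr ⟨k, k.2, rfl⟩
      have hst1 : ∀ k, k ≠ k₀ → a (pk d S hS k₀ i₀ hd k) ∈ C := by
        intro k hk
        refine lin_solve C a (Ww d S z c k) (pk d S hS k₀ i₀ hd k) (hg0 k) ?_ fun p hp => ?_
        · unfold Ww pk
          rw [if_pos (by
            show (Finsupp.single k₀ (d i₀ - 1) + Finsupp.single k 1 : Fin n →₀ ℕ).degree = d i₀
            rw [map_add, Finsupp.degree_single, Finsupp.degree_single]
            omega)]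
          show c i₀ * ((((Finsupp.single k₀ (d i₀ - 1) + Finsupp.single k 1 :
            Fin n →₀ ℕ) k : ℕ) : ℂ) * ∏ j, z j ^ (Finsupp.single k₀ (d i₀ - 1) +
              Finsupp.single k 1 - Finsupp.single k 1 : Fin n →₀ ℕ) j) = 1
          rw [hc, one_mul, Finsupp.add_apply, Finsupp.single_eq_same,
            Finsupp.single_eq_of_ne hk, zero_add, Nat.cast_one, one_mul, add_tsub_cancel_right]
          refine Finset.prod_eq_one fun j _ => ?_
          by_cases h : j = k₀
          · rw [h, hz, one_pow]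
          · rw [Finsupp.single_eq_of_ne h, pow_zero]
        · by_cases hpT : p ∈ T
          · have h0 : Ww d S z c k p = 0 := by
              rcases hTm p hpT with ⟨i, rfl⟩ | ⟨k', hk', rfl⟩
              · unfold Ww pw
                show (if _ then c i * ((((Finsupp.single k₀ (d i) : Fin n →₀ ℕ) k : ℕ) : ℂ) * _)
                  else 0) = 0
                rw [Finsupp.single_eq_of_ne hk, Nat.cast_zero, zero_mul, mul_zero, ite_self]
              · have hkk : k ≠ k' := fun h => hp (by rw [h])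
                unfold Ww pk
                show (if _ then c i₀ * ((((Finsupp.single k₀ (d i₀ - 1) + Finsupp.single k' 1 :
                  Fin n →₀ ℕ) k : ℕ) : ℂ) * _) else 0) = 0
                rw [Finsupp.add_apply, Finsupp.single_eq_of_ne hk, Finsupp.single_eq_of_ne hkk,
                  add_zero, Nat.cast_zero, zero_mul, mul_zero, ite_self]
            rw [h0, mul_zero]
            exact Subring.zero_mem _
          · exact Subring.mul_mem _ (haC p hpT) (hWC k p)
      have hst2 : ∀ i, a (pw d S hS k₀ i) ∈ C := by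
        intro i
        refine lin_solve C a (Vw d S z i) (pw d S hS k₀ i) (hz0 i)
          (Vw_pw d S hS z k₀ hz i) fun p hp => ?_
        by_cases hpi : p.1 = i
        · refine Subring.mul_mem _ ?_ (hVC i p)
          by_cases hpT : p ∈ T
          · rcases hTm p hpT with ⟨i', rfl⟩ | ⟨k', hk', rfl⟩
            · exfalso
              apply hp
              have h3 : i' = i := hpi
              rw [h3]
            · exact hst1 k' hk'
          · exact haC p hpT
        · unfold Vw
          rw [if_neg (fun h' => hpi h'.1), mul_zero]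
          exact Subring.zero_mem _
      intro t ht
      have hgoal : a t ∈ C := by
        rcases hTm t ht with ⟨i', rfl⟩ | ⟨k', hk', rfl⟩
        · exact hst2 i'
        · exact hst1 k' hk'
      rw [hC] at hgoal
      exact hgoal
  omega

end

end Pool.Agent.Run7.h490
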