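import Mathlib

/-! Real regime: directions of plane relations, chains of types. -/

set_option autoImplicit false

namespace Pool.Agent.Run7.h490.RR

open Set

/-- the differences of points on a curve which satisfies plane relations have finitely many
directions, up to a bounded error -/
theorem dirs {n : ℕ} (hn : 0 < n) (P : Fin n → Fin n → Finset (ℤ × ℤ))
    (hP : ∀ i j, ∀ p ∈ P i j, p ≠ 0) :
    ∃ W : Finset (Fin n → ℚ), (∀ σ ∈ W, σ ≠ 0) ∧ ∀ C : ℝ, 0 ≤ C → ∀ Δ : Fin n → ℝ,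
      (∀ i j, ∃ p ∈ P i j, |(p.1 : ℝ) * Δ i + (p.2 : ℝ) * Δ j| ≤ C) →
      ∃ σ ∈ W, ∃ t : ℝ, ∀ i, |Δ i - t * (σ i : ℝ)| ≤ C := by
  classical
  obtain ⟨sg, hsg⟩ : ∃ sg : Fin n → (Fin n → ℤ × ℤ) → Fin n → ℚ,
    sg = fun i₀ f j => if j = i₀ then 1 else -((f j).1 : ℚ) / ((f j).2 : ℚ) := ⟨_, rfl⟩
  refine ⟨Finset.univ.biUnion fun i₀ => (Fintype.piFinset fun j => P i₀ j).image (sg i₀),
    ?_, ?_⟩
  · intro σ hσ
    obtain ⟨i₀, -, hσ⟩ := Finset.mem_biUnion.1 hσ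
    obtain ⟨f, -, rfl⟩ := Finset.mem_image.1 hσ
    intro h0
    have := congrFun h0 i₀
    rw [hsg] at this
    simp at this
  · intro C hC Δ hΔ
    choose f hf hfC using hΔ
    have hmem : ∀ i₀, sg i₀ (f i₀) ∈
        Finset.univ.biUnion fun i₀ => (Fintype.piFinset fun j => P i₀ j).image (sg i₀) := by
      intro i₀
      refine Finset.mem_biUnion.2 ⟨i₀, Finset.mem_univ _, Finset.mem_image_of_mem _ ?_⟩
      rw [Fintype.mem_piFinset]
      exact hf i₀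
    by_cases hall : ∀ i, |Δ i| ≤ C
    · refine ⟨sg ⟨0, hn⟩ (f ⟨0, hn⟩), hmem _, 0, fun i => ?_⟩
      rw [zero_mul, sub_zero]
      exact hall i
    · push Not at hall
      obtain ⟨k, hk⟩ := hall
      refine ⟨sg k (f k), hmem k, Δ k, fun j => ?_⟩
      rw [hsg]
      by_cases hj : j = k
      · rw [hj]
        simpa using hC
      · simp only [if_neg hj]
        have h1 := hfC k j
        have hq : (f k j).2 ≠ 0 := by
          intro h0
          have hp : (f k j).1 ≠ 0 := by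
            intro h1
            exact hP k j _ (hf k j) (Prod.ext h1 h0)
          rw [h0, Int.cast_zero, zero_mul, add_zero, abs_mul] at h1
          have h2 : (1 : ℝ) ≤ |((f k j).1 : ℝ)| := by
            have h3 : (1 : ℤ) ≤ |(f k j).1| := Int.one_le_abs hp
            have h4 : ((1 : ℤ) : ℝ) ≤ ((|(f k j).1| : ℤ) : ℝ) := by exact_mod_cast h3
            rw [Int.cast_abs] at h4
            simpa using h4
          nlinarith [abs_nonneg (Δ k)]
        have hq' : ((f k j).2 : ℝ) ≠ 0 := by exact_mod_cast hq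
        have hq1 : (1 : ℝ) ≤ |((f k j).2 : ℝ)| := by
          have h3 : (1 : ℤ) ≤ |(f k j).2| := Int.one_le_abs hq
          have h4 : ((1 : ℤ) : ℝ) ≤ ((|(f k j).2| : ℤ) : ℝ) := by exact_mod_cast h3
          rw [Int.cast_abs] at h4
          simpa using h4
        have e1 : Δ j - Δ k * (((-((f k j).1 : ℚ) / ((f k j).2 : ℚ) : ℚ)) : ℝ) =
            (((f k j).1 : ℝ) * Δ k + ((f k j).2 : ℝ) * Δ j) / ((f k j).2 : ℝ) := by
          push_cast
          field_simp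
          ring
        rw [e1, abs_div, div_le_iff₀ (by linarith)]
        calc _ ≤ C := h1
          _ ≤ C * |((f k j).2 : ℝ)| := le_mul_of_one_le_right hC hq1

/-- an integral vector close to the direction `-c` -/
theorem sign {n : ℕ} (W : Finset (Fin n → ℚ)) (c : Fin n → ℝ)
    (hc : ∀ σ ∈ W, ∑ i, c i * (σ i : ℝ) ≠ 0) :
    ∃ m : Fin n → ℤ, ∀ σ ∈ W, (∑ i, c i * (σ i : ℝ)) * (∑ i, (m i : ℝ) * (σ i : ℝ)) < 0 := by
  obtain ⟨Λ, hΛ⟩ : ∃ Λ : ℝ, ∀ σ ∈ W,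
      (∑ i, |(σ i : ℝ)|) < Λ * |∑ i, c i * (σ i : ℝ)| := by
    refine ⟨∑ σ ∈ W, (∑ i, |(σ i : ℝ)|) / |∑ i, c i * (σ i : ℝ)| + 1, fun σ hσ => ?_⟩
    have h0 : 0 < |∑ i, c i * (σ i : ℝ)| := abs_pos.2 (hc σ hσ)
    have h1 : (∑ i, |(σ i : ℝ)|) / |∑ i, c i * (σ i : ℝ)| ≤
        ∑ σ ∈ W, (∑ i, |(σ i : ℝ)|) / |∑ i, c i * (σ i : ℝ)| :=
      Finset.single_le_sum (f := fun σ : Fin n → ℚ =>
        (∑ i, |(σ i : ℝ)|) / |∑ i, c i * (σ i : ℝ)|) (fun σ _ => by positivity) hσ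
    rw [← div_lt_iff₀ h0]
    linarith
  refine ⟨fun i => -⌊Λ * c i⌋, fun σ hσ => ?_⟩
  have h0 : 0 < |∑ i, c i * (σ i : ℝ)| := abs_pos.2 (hc σ hσ)
  have h1 := hΛ σ hσ
  have h2 : |∑ i, (((-⌊Λ * c i⌋ : ℤ) : ℝ) * (σ i : ℝ)) + Λ * ∑ i, c i * (σ i : ℝ)| ≤
      ∑ i, |(σ i : ℝ)| := by
    rw [Finset.mul_sum, ← Finset.sum_add_distrib]
    refine (Finset.abs_sum_le_sum_abs _ _).trans (Finset.sum_le_sum fun i _ => ?_)
    have e1 : (((-⌊Λ * c i⌋ : ℤ) : ℝ) * (σ i : ℝ)) + Λ * (c i * (σ i : ℝ)) =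
        (Λ * c i - ⌊Λ * c i⌋) * (σ i : ℝ) := by
      push_cast
      ring
    rw [e1, abs_mul]
    have h3 : |Λ * c i - ⌊Λ * c i⌋| ≤ 1 := by
      rw [abs_le]
      constructor
      · linarith [Int.floor_le (Λ * c i)]
      · linarith [Int.lt_floor_add_one (Λ * c i)]
    nlinarith [abs_nonneg (σ i : ℝ)]
  obtain ⟨A, hA⟩ : ∃ A, A = ∑ i, c i * (σ i : ℝ) := ⟨_, rfl⟩
  obtain ⟨B, hB⟩ : ∃ B, B = ∑ i, (((-⌊Λ * c i⌋ : ℤ) : ℝ) * (σ i : ℝ)) := ⟨_, rfl⟩
  rw [← hA] at h0 h1 h2 ⊢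
  rw [← hB] at h2 ⊢
  have h3 : |B + Λ * A| < Λ * |A| := lt_of_le_of_lt h2 h1
  rw [abs_lt] at h3
  rcases abs_cases A with ⟨h4, h5⟩ | ⟨h4, h5⟩
  · rw [h4] at h0 h3
    nlinarith
  · rw [h4] at h0 h3
    nlinarith

/-- consequences of the sign condition -/
theorem type_bound {n : ℕ} (W : Finset (Fin n → ℚ)) (c : Fin n → ℝ) (m : Fin n → ℤ)
    (h : ∀ σ ∈ W, (∑ i, c i * (σ i : ℝ)) * (∑ i, (m i : ℝ) * (σ i : ℝ)) < 0) (C : ℝ)
    (hC : 0 ≤ C) :
    ∃ κ K : ℝ, 0 < κ ∧ 0 ≤ K ∧ ∀ Δ : Fin n → ℝ,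
      (∃ σ ∈ W, ∃ t : ℝ, ∀ i, |Δ i - t * (σ i : ℝ)| ≤ C) →
      (0 ≤ ∑ i, (m i : ℝ) * Δ i → ∑ i, c i * Δ i ≤ -κ * (∑ i, (m i : ℝ) * Δ i) + K) ∧
      (∀ i, |Δ i| ≤ K * (1 + |∑ i, (m i : ℝ) * Δ i|)) ∧
      (∀ i, |Δ i| ≤ K * (1 + |∑ i, c i * Δ i|)) := by
  -- one direction
  have key : ∀ σ ∈ W, ∃ κ K : ℝ, 0 < κ ∧ 0 ≤ K ∧ ∀ Δ : Fin n → ℝ,
      (∃ t : ℝ, ∀ i, |Δ i - t * (σ i : ℝ)| ≤ C) →
      (∑ i, c i * Δ i ≤ -κ * (∑ i, (m i : ℝ) * Δ i) + K) ∧
      (∀ i, |Δ i| ≤ K * (1 + |∑ i, (m i : ℝ) * Δ i|)) ∧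
      (∀ i, |Δ i| ≤ K * (1 + |∑ i, c i * Δ i|)) := by
    intro σ hσ
    have hs := h σ hσ
    obtain ⟨A, hA⟩ : ∃ A, A = ∑ i, c i * (σ i : ℝ) := ⟨_, rfl⟩
    obtain ⟨B, hB⟩ : ∃ B, B = ∑ i, (m i : ℝ) * (σ i : ℝ) := ⟨_, rfl⟩
    rw [← hA, ← hB] at hs
    have hA0 : A ≠ 0 := by
      rintro h0
      rw [h0, zero_mul] at hs
      exact lt_irrefl _ hs
    have hB0 : B ≠ 0 := by
      rintro h0
      rw [h0, mul_zero] at hs
      exact lt_irrefl _ hs
    obtain ⟨a, ha⟩ : ∃ a, a = ∑ i, |c i| := ⟨_, rfl⟩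
    obtain ⟨b, hb⟩ : ∃ b, b = ∑ i, |(m i : ℝ)| := ⟨_, rfl⟩
    obtain ⟨S, hS⟩ : ∃ S, S = ∑ i, |(σ i : ℝ)| := ⟨_, rfl⟩
    have ha0 : 0 ≤ a := by rw [ha]; positivity
    have hb0 : 0 ≤ b := by rw [hb]; positivity
    have hS0 : 0 ≤ S := by rw [hS]; positivity
    have hApos : 0 < |A| := abs_pos.2 hA0
    have hBpos : 0 < |B| := abs_pos.2 hB0
    refine ⟨|A| / |B|, a * C + |A| / |B| * (b * C) + (S * ((1 + b * C) / |B|) + C) +
      (S * ((1 + a * C) / |A|) + C), by positivity, by positivity, ?_⟩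
    rintro Δ ⟨t, ht⟩
    have h1 : |∑ i, c i * Δ i - t * A| ≤ a * C := by
      rw [hA, ha, Finset.mul_sum, Finset.sum_mul, ← Finset.sum_sub_distrib]
      refine (Finset.abs_sum_le_sum_abs _ _).trans (Finset.sum_le_sum fun i _ => ?_)
      have : c i * Δ i - t * (c i * (σ i : ℝ)) = c i * (Δ i - t * (σ i : ℝ)) := by ring
      rw [this, abs_mul]
      exact mul_le_mul_of_nonneg_left (ht i) (abs_nonneg _)
    have h2 : |∑ i, (m i : ℝ) * Δ i - t * B| ≤ b * C := by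
      rw [hB, hb, Finset.mul_sum, Finset.sum_mul, ← Finset.sum_sub_distrib]
      refine (Finset.abs_sum_le_sum_abs _ _).trans (Finset.sum_le_sum fun i _ => ?_)
      have : (m i : ℝ) * Δ i - t * ((m i : ℝ) * (σ i : ℝ)) =
          (m i : ℝ) * (Δ i - t * (σ i : ℝ)) := by ring
      rw [this, abs_mul]
      exact mul_le_mul_of_nonneg_left (ht i) (abs_nonneg _)
    obtain ⟨x, hx⟩ : ∃ x, x = ∑ i, c i * Δ i := ⟨_, rfl⟩
    obtain ⟨y, hy⟩ : ∃ y, y = ∑ i, (m i : ℝ) * Δ i := ⟨_, rfl⟩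
    rw [← hx] at h1 ⊢
    rw [← hy] at h2 ⊢
    have hti : ∀ i, |Δ i| ≤ S * |t| + C := by
      intro i
      have h3 : |Δ i| ≤ |t * (σ i : ℝ)| + |Δ i - t * (σ i : ℝ)| := by
        calc |Δ i| = |t * (σ i : ℝ) + (Δ i - t * (σ i : ℝ))| := by ring_nf
          _ ≤ _ := abs_add_le _ _
      have h4 : |(σ i : ℝ)| ≤ S := by
        rw [hS]
        exact Finset.single_le_sum (f := fun i => |(σ i : ℝ)|) (fun i _ => abs_nonneg _)
          (Finset.mem_univ i)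
      rw [abs_mul] at h3
      nlinarith [ht i, abs_nonneg t]
    refine ⟨?_, fun i => ?_, fun i => ?_⟩
    · -- `x ≈ t A`, `y ≈ t B`, `A B < 0`
      have hAB : A = -(|A| / |B|) * B := by
        rcases abs_cases A with ⟨e1, e2⟩ | ⟨e1, e2⟩ <;> rcases abs_cases B with ⟨e3, e4⟩ | ⟨e3, e4⟩
        · exfalso
          nlinarith [mul_nonneg e2 e4]
        · rw [e1, e3]
          field_simp
        · rw [e1, e3]
          field_simp
        · exfalso
          nlinarith [mul_pos_of_neg_of_neg e2 e4]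
      have h3 : x + |A| / |B| * y = (x - t * A) + |A| / |B| * (y - t * B) := by
        have h4 : t * A + |A| / |B| * (t * B) = 0 := by
          have : t * A = t * (-(|A| / |B|) * B) := by rw [← hAB]
          rw [this]
          ring
        linarith
      have h4 : |x + |A| / |B| * y| ≤ a * C + |A| / |B| * (b * C) := by
        rw [h3]
        refine (abs_add_le _ _).trans (add_le_add h1 ?_)
        rw [abs_mul, abs_of_pos (by positivity : 0 < |A| / |B|)]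
        exact mul_le_mul_of_nonneg_left h2 (by positivity)
      have h5 := le_abs_self (x + |A| / |B| * y)
      have h6 : 0 ≤ (S * ((1 + b * C) / |B|) + C) + (S * ((1 + a * C) / |A|) + C) := by
        positivity
      linarith
    · have h3 : |t| * |B| ≤ |y| + b * C := by
        rw [← abs_mul]
        calc |t * B| = |y - (y - t * B)| := by ring_nf
          _ ≤ |y| + |y - t * B| := abs_sub _ _
          _ ≤ |y| + b * C := by linarith
      have h4 : |t| ≤ (1 + b * C) / |B| * (1 + |y|) := by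
        rw [div_mul_eq_mul_div, le_div_iff₀ hBpos]
        nlinarith [abs_nonneg y, mul_nonneg hb0 hC, mul_nonneg (mul_nonneg hb0 hC) (abs_nonneg y)]
      have h5 := hti i
      have h6 : S * |t| ≤ S * ((1 + b * C) / |B| * (1 + |y|)) :=
        mul_le_mul_of_nonneg_left h4 hS0
      have h7 : 0 ≤ a * C + |A| / |B| * (b * C) + (S * ((1 + a * C) / |A|) + C) := by positivity
      nlinarith [abs_nonneg y, mul_nonneg h7 (by positivity : 0 ≤ 1 + |y|),
        mul_nonneg hC (abs_nonneg y)]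
    · have h3 : |t| * |A| ≤ |x| + a * C := by
        rw [← abs_mul]
        calc |t * A| = |x - (x - t * A)| := by ring_nf
          _ ≤ |x| + |x - t * A| := abs_sub _ _
          _ ≤ |x| + a * C := by linarith
      have h4 : |t| ≤ (1 + a * C) / |A| * (1 + |x|) := by
        rw [div_mul_eq_mul_div, le_div_iff₀ hApos]
        nlinarith [abs_nonneg x, mul_nonneg ha0 hC, mul_nonneg (mul_nonneg ha0 hC) (abs_nonneg x)]
      have h5 := hti i
      have h6 : S * |t| ≤ S * ((1 + a * C) / |A| * (1 + |x|)) :=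
        mul_le_mul_of_nonneg_left h4 hS0
      have h7 : 0 ≤ a * C + |A| / |B| * (b * C) + (S * ((1 + b * C) / |B|) + C) := by positivity
      nlinarith [abs_nonneg x, mul_nonneg h7 (by positivity : 0 ≤ 1 + |x|),
        mul_nonneg hC (abs_nonneg x)]
  choose! κ K hκ hK hkey using key
  rcases W.eq_empty_or_nonempty with hW | hW
  · refine ⟨1, 0, one_pos, le_rfl, ?_⟩
    rintro Δ ⟨σ, hσ, -⟩
    rw [hW] at hσ
    simp at hσ
  obtain ⟨σ₀, hσ₀, hmin⟩ := W.exists_min_image κ hW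
  refine ⟨κ σ₀, ∑ σ ∈ W, K σ, hκ _ hσ₀, Finset.sum_nonneg hK, ?_⟩
  rintro Δ ⟨σ, hσ, ht⟩
  obtain ⟨h1, h2, h3⟩ := hkey σ hσ Δ ht
  have hKσ : K σ ≤ ∑ σ ∈ W, K σ := Finset.single_le_sum (fun σ hσ => hK σ hσ) hσ
  refine ⟨fun h0 => ?_, fun i => ?_, fun i => ?_⟩
  · have := mul_le_mul_of_nonneg_right (hmin σ hσ) h0
    linarith
  · refine (h2 i).trans (mul_le_mul_of_nonneg_right hKσ ?_)
    positivity
  · refine (h3 i).trans (mul_le_mul_of_nonneg_right hKσ ?_)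
    positivity

/-- chains of types -/
theorem chain {ι : Type} [DecidableEq ι] (Φ : ℝ → ℝ) (κ C : ℝ) (hC : 0 ≤ C) (F : ι → Set ℝ) :
    ∀ (S : Finset ι) (a b : ℝ), a ≤ b → (∀ e ∈ S, IsClosed (F e ∩ Icc a b)) →
      (∀ t ∈ Icc a b, ∃ e ∈ S, t ∈ F e) →
      (∀ e ∈ S, ∀ s ∈ F e ∩ Icc a b, ∀ t ∈ F e ∩ Icc a b, s ≤ t →
        Φ t - Φ s ≤ -κ * (t - s) + C) →
      Φ b - Φ a ≤ -κ * (b - a) + S.card * C := by
  intro S
  induction S using Finset.strongInduction with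
  | H S ih =>
    intro a b hab hcl hcov hΦ
    obtain ⟨e, he, hae⟩ := hcov a ⟨le_rfl, hab⟩
    have hne : (F e ∩ Icc a b).Nonempty := ⟨a, hae, le_rfl, hab⟩
    have hbdd : BddAbove (F e ∩ Icc a b) := ⟨b, fun t ht => ht.2.2⟩
    obtain ⟨t, ht⟩ : ∃ t, t = sSup (F e ∩ Icc a b) := ⟨_, rfl⟩
    have htm : t ∈ F e ∩ Icc a b := by
      rw [ht]
      exact (hcl e he).csSup_mem hne hbdd
    have h1 := hΦ e he a ⟨hae, le_rfl, hab⟩ t htm htm.2.1
    have hcard : ((S.erase e).card : ℝ) = S.card - 1 := by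
      rw [Finset.card_erase_of_mem he]
      have : 1 ≤ S.card := Finset.card_pos.2 ⟨e, he⟩
      push_cast [Nat.cast_sub this]
      ring
    rcases htm.2.2.eq_or_lt with htb | htb
    · rw [← htb]
      have h2 : (1 : ℝ) ≤ S.card := by
        have : 1 ≤ S.card := Finset.card_pos.2 ⟨e, he⟩
        exact_mod_cast this
      nlinarith
    · have hsub : ∀ s, s ∈ Ioc t b → ∃ e' ∈ S.erase e, s ∈ F e' ∩ Icc a b := by
        intro s hs
        obtain ⟨e', he', hse'⟩ := hcov s ⟨htm.2.1.trans hs.1.le, hs.2⟩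
        refine ⟨e', Finset.mem_erase.2 ⟨?_, he'⟩, hse', htm.2.1.trans hs.1.le, hs.2⟩
        rintro rfl
        have := le_csSup hbdd (⟨hse', htm.2.1.trans hs.1.le, hs.2⟩ : s ∈ F e' ∩ Icc a b)
        rw [← ht] at this
        linarith [hs.1]
      have hUc : IsClosed (⋃ e' ∈ S.erase e, F e' ∩ Icc a b) :=
        (S.erase e).finite_toSet.isClosed_biUnion fun e' he' =>
          hcl e' (Finset.mem_of_mem_erase he')
      have hIcc : Icc t b ⊆ ⋃ e' ∈ S.erase e, F e' ∩ Icc a b := by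
        rw [← closure_Ioc htb.ne]
        refine closure_minimal (fun s hs => ?_) hUc
        obtain ⟨e', he', h⟩ := hsub s hs
        exact mem_biUnion he' h
      have h2 := ih (S.erase e) (Finset.erase_ssubset he) t b htb.le (fun e' he' => by
          have h3 := (hcl e' (Finset.mem_of_mem_erase he')).inter (isClosed_Icc (a := t) (b := b))
          have h4 : F e' ∩ Icc a b ∩ Icc t b = F e' ∩ Icc t b := by
            ext s
            constructor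
            · rintro ⟨⟨h5, -⟩, h6⟩
              exact ⟨h5, h6⟩
            · rintro ⟨h5, h6⟩
              exact ⟨⟨h5, htm.2.1.trans h6.1, h6.2⟩, h6⟩
          rwa [h4] at h3)
        (fun s hs => by
          obtain ⟨e', he', h⟩ := mem_iUnion₂.1 (hIcc hs)
          exact ⟨e', he', h.1⟩)
        (fun e' he' s hs s' hs' hss => hΦ e' (Finset.mem_of_mem_erase he') s
          ⟨hs.1, htm.2.1.trans hs.2.1, hs.2.2⟩ s' ⟨hs'.1, htm.2.1.trans hs'.2.1, hs'.2.2⟩ hss)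
      rw [hcard] at h2
      linarith

/-- two monomials of comparable size -/
theorem two_terms {ι : Type} (S : Finset ι) (hS : S.Nonempty) (z : ι → ℂ) (hz : ∀ k ∈ S, z k ≠ 0)
    (h : ∑ k ∈ S, z k = 0) :
    ∃ k ∈ S, ∃ k' ∈ S, k ≠ k' ∧ |Real.log ‖z k‖ - Real.log ‖z k'‖| ≤ Real.log S.card := by
  classical
  obtain ⟨k, hk, hmax⟩ := S.exists_max_image (fun k => ‖z k‖) hS
  have h1 : z k = -∑ j ∈ S.erase k, z j := by
    rw [← Finset.add_sum_erase S z hk] at h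
    exact eq_neg_of_add_eq_zero_left h
  have hne : (S.erase k).Nonempty := by
    rw [Finset.nonempty_iff_ne_empty]
    intro h0
    rw [h0, Finset.sum_empty, neg_zero] at h1
    exact hz k hk h1
  obtain ⟨k', hk', hmax'⟩ := (S.erase k).exists_max_image (fun k => ‖z k‖) hne
  have hk'S := Finset.mem_of_mem_erase hk'
  refine ⟨k, hk, k', hk'S, (Finset.ne_of_mem_erase hk').symm, ?_⟩
  have hp : 0 < ‖z k‖ := norm_pos_iff.2 (hz k hk)
  have hp' : 0 < ‖z k'‖ := norm_pos_iff.2 (hz k' hk'S)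
  have h2 : ‖z k‖ ≤ S.card * ‖z k'‖ := by
    rw [h1, norm_neg]
    calc ‖∑ j ∈ S.erase k, z j‖ ≤ ∑ j ∈ S.erase k, ‖z j‖ := norm_sum_le _ _
      _ ≤ ∑ _j ∈ S.erase k, ‖z k'‖ := Finset.sum_le_sum hmax'
      _ = (S.erase k).card * ‖z k'‖ := by rw [Finset.sum_const, nsmul_eq_mul]
      _ ≤ S.card * ‖z k'‖ := by
        refine mul_le_mul_of_nonneg_right ?_ hp'.le
        exact_mod_cast Finset.card_le_card (Finset.erase_subset _ _)
  have hcard : (0 : ℝ) < S.card := by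
    exact_mod_cast Finset.card_pos.2 hS
  have h3 : Real.log ‖z k‖ ≤ Real.log S.card + Real.log ‖z k'‖ := by
    rw [← Real.log_mul hcard.ne' hp'.ne']
    exact Real.log_le_log hp h2
  have h4 : Real.log ‖z k'‖ ≤ Real.log ‖z k‖ := Real.log_le_log hp' (hmax k' hk'S)
  rw [abs_le]
  have h5 : 0 ≤ Real.log S.card := Real.log_nonneg (by
    exact_mod_cast Finset.card_pos.2 hS)
  constructor <;> linarith

end Pool.Agent.Run7.h490.RR
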