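import Pool.Agent.K3h23.UG.Alg

/-! Real regime: the algebraic model of a variety over a ring of polynomials in a monomial
`y^m`.  Adapted from `Pool.Agent.K3h77.E8.ALG8`. -/

set_option autoImplicit false

namespace Pool.Agent.Run7.h490.RR

open Polynomial IntermediateField Pool.Agent.K3h23.UG

theorem algR {n : ℕ} (P : Ideal (MvPolynomial (Fin n ⊕ Fin n) ℂ)) (K : Type) [Field K]
    (ψ : MvPolynomial (Fin n ⊕ Fin n) ℂ →+* K) (hψ0 : ∀ F, ψ F = 0 ↔ F ∈ P)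
    (hy0 : ∀ i, MvPolynomial.X (Sum.inr i) ∉ P)
    (A : Type) [CommRing A] [IsDomain A] [Algebra ℂ A] (em : A →+* K)
    (hem : Function.Injective em) (hC : ∀ c : ℂ, em (algebraMap ℂ A c) = ψ (MvPolynomial.C c))
    (xA : Fin n → A) (hxA : ∀ i, em (xA i) = ψ (MvPolynomial.X (Sum.inl i)))
    (hyalg : ∀ i, ∃ g : Polynomial A, g ≠ 0 ∧
      g.eval₂ em (ψ (MvPolynomial.X (Sum.inr i))) = 0)
    (m : Fin n → ℤ) (Y0 : A) (hY0 : em Y0 = ∏ i, ψ (MvPolynomial.X (Sum.inr i)) ^ m i)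
    (H : MvPolynomial (Fin n ⊕ Fin n) ℂ) (hH : H ∉ P) :
    ∃ (f U W : Polynomial A) (D Δ g0 : A) (N g : Fin n → Polynomial A), f.Monic ∧
    0 < f.natDegree ∧ D ≠ 0 ∧ Δ ≠ 0 ∧ g0 ≠ 0 ∧
    U * f + W * Polynomial.derivative f = Polynomial.C Δ ∧ (∀ i, (g i).coeff 0 ≠ 0) ∧
    ∀ (χ : A →ₐ[ℂ] ℂ) (t : ℂ) (Y : Fin n → ℂ),
      (∀ i, χ D * Y i = ((N i).map (χ : A →+* ℂ)).eval t) → χ D ≠ 0 →
      (f.map (χ : A →+* ℂ)).eval t = 0 →
      (∀ G ∈ P, MvPolynomial.eval (Sum.elim (fun i => χ (xA i)) Y) G = 0) ∧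
      (∀ i, ((g i).map (χ : A →+* ℂ)).eval (Y i) = 0) ∧
      ((∀ i, Y i ≠ 0) → ∏ i, Y i ^ m i = χ Y0) ∧
      (χ g0 ≠ 0 → MvPolynomial.eval (Sum.elim (fun i => χ (xA i)) Y) H ≠ 0) := by
  classical
  let _ : Algebra A K := em.toAlgebra
  have halg : ∀ a : A, algebraMap A K a = em a := fun g => rfl
  have hinj : Function.Injective (algebraMap A K) := hem
  have : CharZero K := charZero_of_injective_ringHom (f := ψ.comp MvPolynomial.C)
    (RingHom.injective _)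
  have hy : ∀ j : Fin n, IsAlgebraic A (ψ (MvPolynomial.X (Sum.inr j))) := by
    intro j
    obtain ⟨g, hg, hg0⟩ := hyalg j
    exact ⟨g, hg, hg0⟩
  obtain ⟨θ, f, D, Δ, N, U, W, hmon, hfθ, hdvd, hD, hΔ, hN, hUW⟩ :=
    model hinj (fun j => ψ (MvPolynomial.X (Sum.inr j))) hy
  have hrow := fun j : Fin n => rowpoly em (ψ (MvPolynomial.X (Sum.inr j)))
    (fun h => hy0 j ((hψ0 _).1 h)) (hyalg j)
  choose g hgc hg0 using hrow
  let Gv : Fin n ⊕ Fin n → A[X] := Sum.elim (fun i => C (D * xA i)) N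
  have hG : ∀ v, algebraMap A K D * ψ (MvPolynomial.X v) = aeval θ (Gv v) := by
    rintro (i | i)
    · change _ = aeval θ (C (D * xA i))
      rw [aeval_C, map_mul, halg (xA i), hxA i]
    · exact hN i
  have hψC : ∀ c : ℂ, ψ (MvPolynomial.C c) = algebraMap A K (algebraMap ℂ A c) := by
    intro c
    rw [halg, hC]
  obtain ⟨g0, hg0', hg0''⟩ := nonvanish hinj ψ (algebraMap ℂ A) hψC θ f hmon hfθ hdvd D hD Gv hG H
    (fun h => hH ((hψ0 _).1 h))
  have hdeg : 0 < f.natDegree := by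
    rcases Nat.eq_zero_or_pos f.natDegree with h | h
    · exfalso
      have h1 : f = 1 := by
        rw [eq_C_of_natDegree_eq_zero h, ← Polynomial.C_1]
        congr 1
        have h2 := hmon.coeff_natDegree
        rwa [h] at h2
      rw [h1, map_one] at hfθ
      exact one_ne_zero hfθ
    · exact h
  refine ⟨f, U, W, D, Δ, g0, N, g, hmon, hdeg, hD, hΔ, hg0', hUW, hgc, ?_⟩
  intro χ t Y hY hχD ht
  have hc : ∀ c : ℂ, (χ : A →+* ℂ) (algebraMap ℂ A c) = c := fun c => χ.commutes c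
  have hev : ∀ p : A[X], aeval θ p = 0 → (p.map (χ : A →+* ℂ)).eval t = 0 := by
    intro p hp
    obtain ⟨p', hp'⟩ := hdvd p hp
    rw [hp', Polynomial.map_mul, eval_mul, ht, zero_mul]
  have hq : ∀ v, (χ : A →+* ℂ) D * (Sum.elim (fun i => χ (xA i)) Y : Fin n ⊕ Fin n → ℂ) v =
      ((Gv v).map (χ : A →+* ℂ)).eval t := by
    rintro (i | i)
    · change χ D * χ (xA i) = ((C (D * xA i)).map (χ : A →+* ℂ)).eval t
      rw [Polynomial.map_C, eval_C, map_mul]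
      rfl
    · exact hY i
  refine ⟨fun G hGP => ?_, fun i => ?_, fun hYne => ?_, fun h0 => ?_⟩
  · exact vanish ψ (algebraMap ℂ A) hψC θ f hdvd D Gv hG G ((hψ0 G).2 hGP) χ t _ hc hq hχD ht
  · have h1 : aeval θ ((scaleRoots (g i) D).comp (N i)) = 0 := by
      rw [aeval_comp, ← hN i, aeval_def, scaleRoots_eval₂_mul]
      have h2 : eval₂ (algebraMap A K) (ψ (MvPolynomial.X (Sum.inr i))) (g i) = 0 := hg0 i
      rw [h2, mul_zero]
    have h3 := hev _ h1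
    rw [Polynomial.map_comp, eval_comp, ← hY i, eval_map] at h3
    have h4 := scaleRoots_eval₂_mul (p := g i) (χ : A →+* ℂ) (Y i) D
    have h5 : ((χ : A →+* ℂ) D) ^ (g i).natDegree * eval₂ (χ : A →+* ℂ) (Y i) (g i) = 0 :=
      h4.symm.trans h3
    rw [eval_map]
    exact (mul_eq_zero.1 h5).resolve_left (pow_ne_zero _ hχD)
  · -- the monomial
    obtain ⟨mp, hmp⟩ : ∃ mp : Fin n → ℕ, mp = fun i => (m i).toNat := ⟨_, rfl⟩
    obtain ⟨mm, hmm⟩ : ∃ mm : Fin n → ℕ, mm = fun i => (-m i).toNat := ⟨_, rfl⟩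
    have hmi : ∀ i, m i = mp i - mm i := by
      intro i
      rw [hmp, hmm]
      simp only
      omega
    have hsplit : ∀ (F : Type) [Field F] (y : Fin n → F), (∀ i, y i ≠ 0) →
        (∏ i, y i ^ m i) * ∏ i, y i ^ mm i = ∏ i, y i ^ mp i := by
      intro F _ y hy
      rw [← Finset.prod_mul_distrib]
      refine Finset.prod_congr rfl fun i _ => ?_
      rw [hmi i, zpow_sub₀ (hy i), zpow_natCast, zpow_natCast,
        div_mul_cancel₀ _ (pow_ne_zero _ (hy i))]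
    have h1 := hsplit K (fun i => ψ (MvPolynomial.X (Sum.inr i)))
      (fun i h => hy0 i ((hψ0 _).1 h))
    rw [← hY0] at h1
    obtain ⟨a, ha⟩ : ∃ a : ℕ, a = ∑ i, mp i := ⟨_, rfl⟩
    obtain ⟨b, hb⟩ : ∃ b : ℕ, b = ∑ i, mm i := ⟨_, rfl⟩
    have h2 : aeval θ (C Y0 * (∏ i, N i ^ mm i) * C D ^ a - (∏ i, N i ^ mp i) * C D ^ b) = 0 := by
      rw [map_sub, map_mul, map_mul, map_mul, map_prod, map_prod, map_pow, map_pow, aeval_C,
        aeval_C]
      simp only [map_pow, ← hN, mul_pow, Finset.prod_mul_distrib]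
      rw [Finset.prod_pow_eq_pow_sum, Finset.prod_pow_eq_pow_sum, ← ha, ← hb, halg Y0]
      linear_combination ((algebraMap A K D) ^ a * (algebraMap A K D) ^ b) * h1
    have h3 := hev _ h2
    rw [Polynomial.map_sub, Polynomial.map_mul, Polynomial.map_mul, Polynomial.map_mul,
      Polynomial.map_prod, Polynomial.map_prod, Polynomial.map_pow, Polynomial.map_pow,
      Polynomial.map_C, Polynomial.map_C, eval_sub, eval_mul, eval_mul, eval_mul, eval_prod,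
      eval_prod, eval_pow, eval_pow, eval_C, eval_C] at h3
    simp only [Polynomial.map_pow, eval_pow, ← hY, mul_pow, Finset.prod_mul_distrib] at h3
    rw [Finset.prod_pow_eq_pow_sum, Finset.prod_pow_eq_pow_sum, ← ha, ← hb] at h3
    have h4 := hsplit ℂ Y hYne
    have hprod : ∏ i, Y i ^ mm i ≠ 0 := Finset.prod_ne_zero_iff.2 fun i _ =>
      pow_ne_zero _ (hYne i)
    have h5 : χ D ^ a * χ D ^ b * (χ Y0 * ∏ i, Y i ^ mm i - ∏ i, Y i ^ mp i) = 0 := by
      have h6 : χ D ^ a * χ D ^ b * (χ Y0 * ∏ i, Y i ^ mm i - ∏ i, Y i ^ mp i) =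
          χ Y0 * (χ D ^ b * ∏ i, Y i ^ mm i) * χ D ^ a - (χ D ^ a * ∏ i, Y i ^ mp i) * χ D ^ b := by
        ring
      rw [h6]
      exact h3
    have h6 : χ Y0 * ∏ i, Y i ^ mm i = ∏ i, Y i ^ mp i :=
      sub_eq_zero.1 ((mul_eq_zero.1 h5).resolve_left
        (mul_ne_zero (pow_ne_zero _ hχD) (pow_ne_zero _ hχD)))
    rw [← h4] at h6
    exact (mul_right_cancel₀ hprod h6).symm
  · exact hg0'' χ t _ hc hq ht h0

end Pool.Agent.Run7.h490.RR
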