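import Pool.Agent.Run7.h490.RR7
import Pool.Agent.K3h22.EX.Stm6

/-! Real regime: a monomial `y^m` as a transcendence basis. -/

set_option autoImplicit false

namespace Pool.Agent.Run7.h490.RR

open MvPolynomial Pool.Agent.K3h22.EX

section

variable {R K : Type} [CommRing R] [IsDomain R] [Field K] [Algebra R K]

omit [IsDomain R] in
/-- algebraic elements over the ring generated by one transcendental element -/
theorem alg_iff (x : Fin 1 → K) (hx : AlgebraicIndependent R x) (z : K) :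
    IsAlgebraic (Algebra.adjoin R (Set.range x)) z ↔
      ∃ g : Polynomial (MvPolynomial (Fin 1) R), g ≠ 0 ∧
        g.eval₂ (aeval x : MvPolynomial (Fin 1) R →ₐ[R] K).toRingHom z = 0 := by
  have hcomp : (algebraMap (Algebra.adjoin R (Set.range x)) K).comp
      (hx.aevalEquiv : MvPolynomial (Fin 1) R →+* Algebra.adjoin R (Set.range x)) =
      (aeval x : MvPolynomial (Fin 1) R →ₐ[R] K).toRingHom :=
    RingHom.ext fun p => hx.algebraMap_aevalEquiv p
  have hcomp' : (aeval x : MvPolynomial (Fin 1) R →ₐ[R] K).toRingHom.comp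
      (hx.aevalEquiv.symm : Algebra.adjoin R (Set.range x) →+* MvPolynomial (Fin 1) R) =
      algebraMap (Algebra.adjoin R (Set.range x)) K := by
    refine RingHom.ext fun p => ?_
    have h1 := hx.algebraMap_aevalEquiv (hx.aevalEquiv.symm p)
    rw [AlgEquiv.apply_symm_apply] at h1
    exact h1.symm
  constructor
  · rintro ⟨p, hp, hp0⟩
    refine ⟨p.map (hx.aevalEquiv.symm : Algebra.adjoin R (Set.range x) →+*
      MvPolynomial (Fin 1) R), ?_, ?_⟩
    · rwa [Ne, Polynomial.map_eq_zero_iff]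
      exact hx.aevalEquiv.symm.injective
    · rw [Polynomial.eval₂_map, hcomp']
      exact hp0
  · rintro ⟨g, hg, hg0⟩
    refine ⟨g.map (hx.aevalEquiv : MvPolynomial (Fin 1) R →+*
      Algebra.adjoin R (Set.range x)), ?_, ?_⟩
    · rwa [Ne, Polynomial.map_eq_zero_iff]
      exact hx.aevalEquiv.injective
    · rw [Polynomial.aeval_def, Polynomial.eval₂_map, hcomp]
      exact hg0

/-- change of the transcendence basis -/
theorem transR {n : ℕ} (hinj : Function.Injective (algebraMap R K)) (y : Fin n → K)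
    (k₀ : Fin n) (h0 : AlgebraicIndependent R (fun _ : Fin 1 => y k₀))
    (halg : ∀ i, ∃ g : Polynomial (MvPolynomial (Fin 1) R), g ≠ 0 ∧
      g.eval₂ (aeval (fun _ : Fin 1 => y k₀) : MvPolynomial (Fin 1) R →ₐ[R] K).toRingHom
        (y i) = 0) (m : Fin n → ℤ)
    (hm : AlgebraicIndependent R (fun _ : Fin 1 => ∏ i, y i ^ m i)) (i : Fin n) :
    ∃ g : Polynomial (MvPolynomial (Fin 1) R), g ≠ 0 ∧
      g.eval₂ (aeval (fun _ : Fin 1 => ∏ i, y i ^ m i) :
        MvPolynomial (Fin 1) R →ₐ[R] K).toRingHom (y i) = 0 := by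
  have : FaithfulSMul R K := (faithfulSMul_iff_algebraMap_injective R K).2 hinj
  rw [← alg_iff _ hm]
  have hr : ∀ z : K, Set.range (fun _ : Fin 1 => z) = {z} := fun z => Set.range_const
  have h1 : ∀ i, y i ∈ (AlgebraicIndependent.matroid R K).closure {y k₀} := by
    intro i
    rw [AlgebraicIndependent.matroid_closure_eq]
    have h2 := (alg_iff _ h0 (y i)).2 (halg i)
    rw [hr] at h2
    exact h2
  have h2 : ∏ i, y i ^ m i ∈ (AlgebraicIndependent.matroid R K).closure {y k₀} := by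
    rw [AlgebraicIndependent.matroid_closure_eq]
    refine Subalgebra.prod_mem _ fun i _ => ?_
    have h3 := h1 i
    rw [AlgebraicIndependent.matroid_closure_eq] at h3
    have h4 : IsAlgebraic (Algebra.adjoin R {y k₀}) (y i) := h3
    show IsAlgebraic (Algebra.adjoin R {y k₀}) (y i ^ m i)
    cases m i with
    | ofNat k =>
      rw [Int.ofNat_eq_natCast, zpow_natCast]
      exact h4.pow k
    | negSucc k =>
      rw [zpow_negSucc]
      exact (h4.pow (k + 1)).inv
  have h3 : ∏ i, y i ^ m i ∉ (AlgebraicIndependent.matroid R K).closure ∅ := by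
    rw [AlgebraicIndependent.matroid_closure_eq]
    intro h4
    have h5 : IsAlgebraic (Algebra.adjoin R (∅ : Set K)) (∏ i, y i ^ m i) := h4
    have h6 : Transcendental R (∏ i, y i ^ m i) := by
      have := hm
      rwa [algebraicIndependent_unique_type_iff] at this
    apply h6
    rw [Algebra.adjoin_empty] at h5
    have : Algebra.IsAlgebraic R (⊥ : Subalgebra R K) := by
      constructor
      rintro ⟨z, hz⟩
      obtain ⟨a, rfl⟩ := Algebra.mem_bot.1 hz
      exact isAlgebraic_algebraMap a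
    exact h5.restrictScalars R
  have h4 := Matroid.closure_insert_congr (M := AlgebraicIndependent.matroid R K)
    (e := ∏ i, y i ^ m i) (f := y k₀) (X := ∅) ⟨by
      rw [insert_empty_eq]
      exact h2, h3⟩
  rw [insert_empty_eq, insert_empty_eq] at h4
  have h5 := h1 i
  rw [← h4, AlgebraicIndependent.matroid_closure_eq] at h5
  rw [hr]
  exact h5

end

/-- the support of a relation between two functions -/
noncomputable def SG {n : ℕ} {R : Type} [CommRing R]
    (G : Fin n → Fin n → MvPolynomial (Fin 2) R) (i j : Fin n) : Finset (ℕ × ℕ) :=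
  (G i j).support.image fun m => (m 0, m 1)

theorem pr_map2 {n : ℕ} (i j : Fin n) (m : Fin 2 →₀ ℕ) (w : Fin n → ℝ) :
    pr (Finsupp.mapDomain ![i, j] m) w = (m 0 : ℝ) * w i + (m 1 : ℝ) * w j := by
  have h1 : m = Finsupp.single 0 (m 0) + Finsupp.single 1 (m 1) := by
    refine Finsupp.ext fun k => ?_
    fin_cases k <;> simp
  unfold pr
  have h2 : ∀ k, ((Finsupp.mapDomain ![i, j] m k : ℕ) : ℝ) =
      (if i = k then (m 0 : ℝ) else 0) + (if j = k then (m 1 : ℝ) else 0) := by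
    intro k
    conv_lhs => rw [h1]
    rw [Finsupp.mapDomain_add, Finsupp.mapDomain_single, Finsupp.mapDomain_single,
      Finsupp.add_apply, Finsupp.single_apply, Finsupp.single_apply]
    simp only [Matrix.cons_val_zero, Matrix.cons_val_one]
    by_cases h3 : i = k <;> by_cases h4 : j = k <;> simp [h3, h4]
  simp only [h2, add_mul, ite_mul, zero_mul, Finset.sum_add_distrib, Finset.sum_ite_eq,
    Finset.mem_univ, if_true]

/-- a direction of `W` in which all relations have two monomials of the same growth -/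
theorem flagR (hFLAG : S_FLAG) {R K : Type} [CommRing R] [IsDomain R] [Field K] [Algebra R K]
    {n : ℕ} (hinj : Function.Injective (algebraMap R K)) (y : Fin n → K) (hy : ∀ j, y j ≠ 0)
    (hB1 : ∃ B : Finset (Fin n), B.card = 1 ∧
      AlgebraicIndependent R (fun b : {i // i ∈ B} => y b))
    (hB2 : ∀ B : Finset (Fin n), B.card = 2 →
      ¬ AlgebraicIndependent R (fun b : {i // i ∈ B} => y b))
    (G : Fin n → Fin n → MvPolynomial (Fin 2) R)
    (hG : ∀ i j, i ≠ j → G i j ≠ 0 ∧ aeval ![y i, y j] (G i j) = 0)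
    (W : Finset (Fin n → ℚ))
    (hW : ∀ C : ℝ, 0 ≤ C → ∀ Δ : Fin n → ℝ,
      (∀ i j, ∃ p ∈ Pd (SG G) i j, |(p.1 : ℝ) * Δ i + (p.2 : ℝ) * Δ j| ≤ C) →
      ∃ σ ∈ W, ∃ t : ℝ, ∀ i, |Δ i - t * (σ i : ℝ)| ≤ C)
    (ι : Type) [Finite ι] (q : ι → MvPolynomial (Fin n) R)
    (hq : ∀ k, q k ≠ 0 ∧ aeval y (q k) = 0) :
    ∃ σ ∈ W, ∀ k, ∃ a ∈ (q k).support, ∃ b ∈ (q k).support, a ≠ b ∧
      pr a (fun i => (σ i : ℝ)) = pr b (fun i => (σ i : ℝ)) := by
  classical
  have hinj2 : ∀ i j : Fin n, i ≠ j → Function.Injective ![i, j] := by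
    intro i j hij a b hab
    fin_cases a <;> fin_cases b
    · rfl
    · exact absurd hab hij
    · exact absurd hab.symm hij
    · rfl
  obtain ⟨w, hw, -, ε₀, hε₀, htw⟩ := hFLAG R K n 0 0 y hinj hy hB1 hB2 le_rfl
    (fun _ _ => 0) ({ij : Fin n × Fin n // ij.1 ≠ ij.2} ⊕ ι)
    (Sum.elim (fun ij => rename ![ij.1.1, ij.1.2] (G ij.1.1 ij.1.2)) q) (by
      rintro (⟨⟨i, j⟩, hij⟩ | k)
      · refine ⟨?_, ?_⟩
        · exact (map_ne_zero_iff _ (rename_injective _ (hinj2 i j hij))).2 (hG i j hij).1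
        · show aeval y (rename ![i, j] (G i j)) = 0
          rw [aeval_rename]
          have : y ∘ ![i, j] = ![y i, y j] := by
            funext k
            fin_cases k <;> rfl
          rw [this]
          exact (hG i j hij).2
      · exact hq k)
  have htw' := htw (ε₀ / 2) (by positivity) (by linarith)
  have e1 : (fun j => ∑ i : Fin (0 + 1), (ε₀ / 2) ^ (i : ℕ) * (w i j : ℝ)) =
      fun j => ((w 0 j : ℚ) : ℝ) := by
    funext j
    simp
  rw [e1] at htw'
  have hw0 : w 0 ≠ 0 := hw.ne_zero 0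
  obtain ⟨σ, hσ, t, ht⟩ := hW 0 le_rfl (fun j => ((w 0 j : ℚ) : ℝ)) (by
    intro i j
    by_cases hij : i = j
    · refine ⟨(1, -1), ?_, ?_⟩
      · unfold Pd
        rw [if_pos hij, Finset.mem_singleton]
      · rw [hij]
        simp
    · obtain ⟨a, ha, b, hb, hab, hpr, -⟩ := htw' (Sum.inl ⟨(i, j), hij⟩)
      simp only [Sum.elim_inl] at ha hb
      rw [support_rename_of_injective (hinj2 i j hij)] at ha hb
      obtain ⟨a', ha', rfl⟩ := Finset.mem_image.1 ha
      obtain ⟨b', hb', rfl⟩ := Finset.mem_image.1 hb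
      rw [pr_map2, pr_map2] at hpr
      refine ⟨((a' 0 : ℤ) - b' 0, (a' 1 : ℤ) - b' 1), ?_, ?_⟩
      · unfold Pd
        rw [if_neg hij]
        refine Finset.mem_image.2 ⟨((a' 0, a' 1), (b' 0, b' 1)), Finset.mem_filter.2
          ⟨Finset.mem_product.2 ⟨Finset.mem_image_of_mem _ ha', Finset.mem_image_of_mem _ hb'⟩,
          ?_⟩, rfl⟩
        intro h
        apply hab
        congr 1
        refine Finsupp.ext fun k => ?_
        have h1 := congrArg Prod.fst h
        have h2 := congrArg Prod.snd h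
        fin_cases k
        · exact h1
        · exact h2
      · have e2 : (((a' 0 : ℤ) - b' 0 : ℤ) : ℝ) * ((w 0 i : ℚ) : ℝ) +
            (((a' 1 : ℤ) - b' 1 : ℤ) : ℝ) * ((w 0 j : ℚ) : ℝ) = 0 := by
          push_cast
          linarith
        rw [e2, abs_zero])
  have ht' : ∀ i, ((w 0 i : ℚ) : ℝ) = t * (σ i : ℝ) := by
    intro i
    have := ht i
    rw [abs_nonpos_iff, sub_eq_zero] at this
    exact this
  have ht0 : t ≠ 0 := by
    intro h0
    apply hw0
    funext i
    have := ht' i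
    rw [h0, zero_mul] at this
    exact_mod_cast this
  refine ⟨σ, hσ, fun k => ?_⟩
  obtain ⟨a, ha, b, hb, hab, hpr, -⟩ := htw' (Sum.inr k)
  refine ⟨a, ha, b, hb, hab, ?_⟩
  have e2 : ∀ a : Fin n →₀ ℕ, pr a (fun j => ((w 0 j : ℚ) : ℝ)) =
      t * pr a (fun i => (σ i : ℝ)) := by
    intro a
    unfold pr
    rw [Finset.mul_sum]
    refine Finset.sum_congr rfl fun i _ => ?_
    have h1 := ht' i
    show (a i : ℝ) * ((w 0 i : ℚ) : ℝ) = t * ((a i : ℝ) * (σ i : ℝ))
    rw [h1]
    ring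
  rw [e2, e2] at hpr
  exact mul_left_cancel₀ ht0 hpr

/-- the monomial is transcendental -/
theorem indepR (hFLAG : S_FLAG) {R K : Type} [CommRing R] [IsDomain R] [Field K] [Algebra R K]
    {n : ℕ} (hinj : Function.Injective (algebraMap R K)) (y : Fin n → K) (hy : ∀ j, y j ≠ 0)
    (hB1 : ∃ B : Finset (Fin n), B.card = 1 ∧
      AlgebraicIndependent R (fun b : {i // i ∈ B} => y b))
    (hB2 : ∀ B : Finset (Fin n), B.card = 2 →
      ¬ AlgebraicIndependent R (fun b : {i // i ∈ B} => y b))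
    (G : Fin n → Fin n → MvPolynomial (Fin 2) R)
    (hG : ∀ i j, i ≠ j → G i j ≠ 0 ∧ aeval ![y i, y j] (G i j) = 0)
    (W : Finset (Fin n → ℚ))
    (hW : ∀ C : ℝ, 0 ≤ C → ∀ Δ : Fin n → ℝ,
      (∀ i j, ∃ p ∈ Pd (SG G) i j, |(p.1 : ℝ) * Δ i + (p.2 : ℝ) * Δ j| ≤ C) →
      ∃ σ ∈ W, ∃ t : ℝ, ∀ i, |Δ i - t * (σ i : ℝ)| ≤ C)
    (m : Fin n → ℤ) (hm : ∀ σ ∈ W, ∑ i, (m i : ℝ) * (σ i : ℝ) ≠ 0) :
    AlgebraicIndependent R (fun _ : Fin 1 => ∏ i, y i ^ m i) := by
  classical
  rw [algebraicIndependent_unique_type_iff]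
  rintro ⟨h, hh0, hh⟩
  obtain ⟨mp, hmp⟩ : ∃ mp : Fin n → ℕ, mp = fun i => (m i).toNat := ⟨_, rfl⟩
  obtain ⟨mm, hmm⟩ : ∃ mm : Fin n → ℕ, mm = fun i => (-m i).toNat := ⟨_, rfl⟩
  have hmi : ∀ i, m i = mp i - mm i := by
    intro i
    rw [hmp, hmm]
    simp only
    omega
  -- `m` is not zero
  have hm0 : ∃ i, m i ≠ 0 := by
    by_contra hcon
    push Not at hcon
    obtain ⟨σ, hσ, -⟩ := flagR hFLAG hinj y hy hB1 hB2 G hG W hW Empty (fun k => k.elim)
      (fun k => k.elim)
    apply hm σ hσ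
    refine Finset.sum_eq_zero fun i _ => ?_
    rw [hcon i, Int.cast_zero, zero_mul]
  obtain ⟨i₀, hi₀⟩ := hm0
  obtain ⟨δ, hδ⟩ : ∃ δ : ℕ, δ = h.natDegree := ⟨_, rfl⟩
  obtain ⟨ex, hex⟩ : ∃ ex : ℕ → (Fin n →₀ ℕ), ex = fun k =>
      Finsupp.equivFunOnFinite.symm fun i => k * mp i + (δ - k) * mm i := ⟨_, rfl⟩
  have hexi : ∀ k i, ex k i = k * mp i + (δ - k) * mm i := by
    intro k i
    rw [hex]
    rfl
  have hcast : ∀ k ∈ h.support, ∀ i, ((ex k i : ℕ) : ℤ) = k * m i + δ * mm i := by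
    intro k hk i
    have hkδ : k ≤ δ := by
      rw [hδ]
      exact Polynomial.le_natDegree_of_mem_supp k hk
    rw [hexi, hmi i]
    push_cast [Nat.cast_sub hkδ]
    ring
  have hexinj : ∀ k ∈ h.support, ∀ k' ∈ h.support, ex k = ex k' → k = k' := by
    intro k hk k' hk' he
    have h1 := hcast k hk i₀
    have h2 := hcast k' hk' i₀
    rw [he] at h1
    have h3 : ((k : ℤ) - k') * m i₀ = 0 := by linarith
    rcases mul_eq_zero.1 h3 with h4 | h4
    · omega
    · exact absurd h4 hi₀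
  obtain ⟨p, hp⟩ : ∃ p : MvPolynomial (Fin n) R,
      p = ∑ k ∈ h.support, monomial (ex k) (h.coeff k) := ⟨_, rfl⟩
  have hp0 : p ≠ 0 := by
    obtain ⟨k, hk⟩ := Polynomial.support_nonempty.2 hh0
    intro h0
    have h1 := congrArg (coeff (ex k)) h0
    rw [hp, coeff_sum, coeff_zero, Finset.sum_eq_single k] at h1
    · rw [coeff_monomial, if_pos rfl] at h1
      exact Polynomial.mem_support_iff.1 hk h1
    · intro k' hk' hne
      rw [coeff_monomial, if_neg]
      intro he
      exact hne (hexinj k' hk' k hk he)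
    · intro hk'
      exact absurd hk hk'
  have hpy : aeval y p = 0 := by
    have h1 : aeval y p = (∏ i, y i ^ mm i) ^ δ * Polynomial.aeval (∏ i, y i ^ m i) h := by
      rw [hp, map_sum, Polynomial.aeval_def, Polynomial.eval₂_eq_sum, Polynomial.sum_def,
        Finset.mul_sum]
      refine Finset.sum_congr rfl fun k hk => ?_
      rw [aeval_monomial, Finsupp.prod_fintype _ _ (fun i => pow_zero _)]
      have h2 : ∏ i, y i ^ ex k i = (∏ i, y i ^ mm i) ^ δ * (∏ i, y i ^ m i) ^ k := by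
        rw [← Finset.prod_pow, ← Finset.prod_pow, ← Finset.prod_mul_distrib]
        refine Finset.prod_congr rfl fun i _ => ?_
        have h3 : y i ^ ex k i = y i ^ ((ex k i : ℕ) : ℤ) := (zpow_natCast _ _).symm
        rw [h3, hcast k hk i, zpow_add₀ (hy i), mul_comm (k : ℤ), zpow_mul, zpow_natCast,
          mul_comm (δ : ℤ), zpow_mul, zpow_natCast, zpow_natCast]
        ring
      rw [h2]
      ring
    rw [h1]
    have h2 : Polynomial.aeval (∏ i, y i ^ m i) h = 0 := hh
    rw [h2, mul_zero]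
  obtain ⟨σ, hσ, hk⟩ := flagR hFLAG hinj y hy hB1 hB2 G hG W hW Unit (fun _ => p)
    (fun _ => ⟨hp0, hpy⟩)
  obtain ⟨a, ha, b, hb, hab, hpr⟩ := hk ()
  have hsupp : ∀ a ∈ p.support, ∃ k ∈ h.support, a = ex k := by
    intro a ha
    rw [hp] at ha
    have h1 := support_sum ha
    rw [Finset.mem_biUnion] at h1
    obtain ⟨k, hk, h2⟩ := h1
    have h3 := support_monomial_subset h2
    rw [Finset.mem_singleton] at h3
    exact ⟨k, hk, h3⟩
  obtain ⟨k, hk, rfl⟩ := hsupp a ha
  obtain ⟨k', hk', rfl⟩ := hsupp b hb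
  have hpr' : ∀ k ∈ h.support, pr (ex k) (fun i => (σ i : ℝ)) =
      k * ∑ i, (m i : ℝ) * (σ i : ℝ) + δ * ∑ i, (mm i : ℝ) * (σ i : ℝ) := by
    intro k hk
    unfold pr
    rw [Finset.mul_sum, Finset.mul_sum, ← Finset.sum_add_distrib]
    refine Finset.sum_congr rfl fun i _ => ?_
    have h1 : ((ex k i : ℕ) : ℝ) = (((ex k i : ℕ) : ℤ) : ℝ) := by push_cast; rfl
    rw [h1, hcast k hk i]
    push_cast
    ring
  rw [hpr' k hk, hpr' k' hk'] at hpr
  have h1 : ((k : ℝ) - k') * ∑ i, (m i : ℝ) * (σ i : ℝ) = 0 := by linarith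
  rcases mul_eq_zero.1 h1 with h2 | h2
  · apply hab
    have h3 : (k : ℝ) = k' := by linarith
    rw [Nat.cast_inj.1 h3]
  · exact hm σ hσ h2

end Pool.Agent.Run7.h490.RR
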