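import Pool.Agent.Run7.h490.RR9
import Pool.Agent.Run7.h490.RR10
import Pool.Agent.Run7.h490.RR11
import Pool.Agent.K3h22.E8.Loc

/-! Real regime: the theorem for the ideal. -/

set_option autoImplicit false

namespace Pool.Agent.Run7.h490.RR

open MvPolynomial Filter Topology Metric Set Pool.Agent.K3h22.EX Pool.Agent.K3h53.UG
  Pool.Agent.K3h22.E8

/-- the geometric property of the base in the real regime -/
def GeoR {n s : ℕ} (ε : Fin (s + 1) ≃ Fin n) (Z : Set (Fin n → ℂ))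
    (I : Ideal (MvPolynomial (Fin n) ℂ)) : Prop :=
  ∀ W : Finset (Fin n → ℚ), (∀ σ ∈ W, σ ≠ 0) →
  ∀ TT : Set (MvPolynomial (Fin n) ℂ), TT.Countable → (∀ G ∈ TT, G ∉ I) →
    ∃ c : Fin n → ℝ, c (ε 0) ≠ 0 ∧ (∃ i j, Irrational (c i / c j)) ∧
      (∀ σ ∈ W, ∑ i, c i * (σ i : ℝ) ≠ 0) ∧
      ∀ T : Finset (MvPolynomial (Fin n) ℂ), (∀ G ∈ T, G ∈ TT) → GeoC ε Z c T

/-- the directions are not zero -/
theorem dirs' {n : ℕ} (hn : 0 < n) (S : Fin n → Fin n → Finset (ℕ × ℕ)) :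
    ∃ W : Finset (Fin n → ℚ), (∀ σ ∈ W, σ ≠ 0) ∧ ∀ C : ℝ, 0 ≤ C → ∀ Δ : Fin n → ℝ,
      (∀ i j, ∃ p ∈ Pd S i j, |(p.1 : ℝ) * Δ i + (p.2 : ℝ) * Δ j| ≤ C) →
      ∃ σ ∈ W, ∃ t : ℝ, ∀ i, |Δ i - t * (σ i : ℝ)| ≤ C :=
  dirs hn (Pd S) (Pd_ne S)

theorem badP_inst {n : ℕ} {Z : Set (Fin n → ℂ)} {I : Ideal (MvPolynomial (Fin n) ℂ)}
    {A : Type} [CommRing A] {d1 d2 : DecidableEq A} {e1 e2 : DecidableEq (MvPolynomial (Fin n) ℂ)}
    {Φ : Fam7 1 Z I A} {D Δ G0 : A}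
    {g : Fin n → Polynomial A} {S : Fin n → Fin n → Finset (ℕ × ℕ)}
    {a : Fin n → Fin n → ℕ × ℕ → MvPolynomial (Fin n) ℂ} {Q : MvPolynomial (Fin n) ℂ}
    (h : Q ∈ @badP n Z I A _ d1 e1 Φ D Δ G0 g S a) : Q ∈ @badP n Z I A _ d2 e2 Φ D Δ G0 g S a := by
  have h1 : d1 = d2 := Subsingleton.elim _ _
  have h2 : e1 = e2 := Subsingleton.elim _ _
  subst h1 h2
  exact h

theorem idealR (hTRD : S_TRD8) (hFLAG : S_FLAG) {n s : ℕ} (hn : n = s + 1)
    (P : Ideal (MvPolynomial (Fin n ⊕ Fin n) ℂ)) (hP : P.IsPrime)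
    (h3 : ∀ i, X (Sum.inr i) ∉ P)
    (Zp : Set (Fin n → ℂ)) (I : Ideal (MvPolynomial (Fin n) ℂ))
    (hmemI : ∀ G, G ∈ I ↔ rename Sum.inl G ∈ P) (hIF' : ∀ x ∈ Zp, ∀ G ∈ I, eval x G = 0)
    (hκ : ∃ κ : Fin 1 → Fin n, Function.Injective κ ∧ IndepOver P κ)
    (halg : ∀ κ : Fin 1 → Fin n, Function.Injective κ → IndepOver P κ → ∀ i,
      ∃ g : Polynomial (MvPolynomial (Fin 1) (MvPolynomial (Fin n) ℂ)),
      (∃ a m, rename Sum.inl (coeff m (g.coeff a)) ∉ P) ∧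
      g.eval₂ (yev κ) (X (Sum.inr i)) ∈ P)
    (ε : Fin (s + 1) ≃ Fin n) (hgeo : GeoR ε Zp I)
    (c : Fin n → ℂ) (H : MvPolynomial (Fin n ⊕ Fin n) ℂ) (hHP : H ∉ P) :
    ∃ x : Fin n → ℂ,
      (∀ G ∈ P, eval (Sum.elim x fun i => Complex.exp (x i + c i)) G = 0) ∧
      eval (Sum.elim x fun i => Complex.exp (x i + c i)) H ≠ 0 := by
  classical
  have := hP
  have hI : I.IsPrime := by
    have hIdef : I = P.comap ((rename (Sum.inl : Fin n → Fin n ⊕ Fin n) :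
        MvPolynomial (Fin n) ℂ →ₐ[ℂ] MvPolynomial (Fin n ⊕ Fin n) ℂ) :
        MvPolynomial (Fin n) ℂ →+* MvPolynomial (Fin n ⊕ Fin n) ℂ) := by
      ext G
      rw [hmemI]
      rfl
    rw [hIdef]
    exact Ideal.comap_isPrime _ _
  let F := FractionRing (MvPolynomial (Fin n ⊕ Fin n) ℂ ⧸ P)
  have hQF : Function.Injective (algebraMap (MvPolynomial (Fin n ⊕ Fin n) ℂ ⧸ P) F) :=
    IsFractionRing.injective _ _
  let _ : Algebra (RI I) F := ((algebraMap (MvPolynomial (Fin n ⊕ Fin n) ℂ ⧸ P) F).comp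
    (emI8 P I hmemI : RI I →+* MvPolynomial (Fin n ⊕ Fin n) ℂ ⧸ P)).toAlgebra
  have halgm : ∀ a : RI I, algebraMap (RI I) F a =
      algebraMap (MvPolynomial (Fin n ⊕ Fin n) ℂ ⧸ P) F (emI8 P I hmemI a) := fun _ => rfl
  have hinjA : Function.Injective (algebraMap (RI I) F) :=
    fun a b h => emI8_inj P I hmemI (hQF h)
  let ψ : MvPolynomial (Fin n ⊕ Fin n) ℂ →+* F :=
    (algebraMap (MvPolynomial (Fin n ⊕ Fin n) ℂ ⧸ P) F).comp (Ideal.Quotient.mk P)
  have hψ0 : ∀ G, ψ G = 0 ↔ G ∈ P := by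
    intro G
    rw [← Ideal.Quotient.eq_zero_iff_mem]
    exact map_eq_zero_iff _ hQF
  have hψI : ∀ G : MvPolynomial (Fin n) ℂ, algebraMap (RI I) F (Ideal.Quotient.mk I G) =
      ψ (rename Sum.inl G) := fun G => rfl
  let y : Fin n → F := fun i => ψ (X (Sum.inr i))
  have hy : ∀ j, y j ≠ 0 := fun j h => h3 j ((hψ0 _).1 h)
  have haevr : ∀ (β : Type) (κ : β → Fin n),
      ((aeval (fun b => y (κ b)) : MvPolynomial β (RI I) →ₐ[RI I] F)).toRingHom =
      (algebraMap (MvPolynomial (Fin n ⊕ Fin n) ℂ ⧸ P) F).comp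
        (em8 P I hmemI κ : MvPolynomial β (RI I) →+* MvPolynomial (Fin n ⊕ Fin n) ℂ ⧸ P) := by
    intro β κ
    apply MvPolynomial.ringHom_ext
    · intro a
      simp [em8, halgm]
    · intro b
      simp [em8, y, ψ]
  have haev : ∀ (β : Type) (κ : β → Fin n) (g : MvPolynomial β (RI I)),
      aeval (fun b => y (κ b)) g =
        algebraMap (MvPolynomial (Fin n ⊕ Fin n) ℂ ⧸ P) F (em8 P I hmemI κ g) :=
    fun β κ g => RingHom.congr_fun (haevr β κ) g
  have haev0 : ∀ (β : Type) (κ : β → Fin n) (g : MvPolynomial β (RI I)),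
      aeval (fun b => y (κ b)) g = 0 ↔ em8 P I hmemI κ g = 0 := by
    intro β κ g
    rw [haev]
    exact map_eq_zero_iff _ hQF
  obtain ⟨κ, hκi, hκP⟩ := hκ
  have hκind : ∀ g : MvPolynomial (Fin 1) (RI I), aeval (fun b => y (κ b)) g = 0 → g = 0 := by
    intro g hg
    rw [haev0] at hg
    exact (injective_iff_map_eq_zero _).1 (inj_of_indepOver P I hmemI κ hκP) g hg
  have halg' : ∀ κ : Fin 1 → Fin n, Function.Injective κ →
      (∀ g : MvPolynomial (Fin 1) (RI I), aeval (fun b => y (κ b)) g = 0 → g = 0) →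
      ∀ i, ∃ g : Polynomial (MvPolynomial (Fin 1) (RI I)), g ≠ 0 ∧
      g.eval₂ (aeval (fun b => y (κ b)) : MvPolynomial (Fin 1) (RI I) →ₐ[RI I] F).toRingHom
        (y i) = 0 := by
    intro κ hκi h i
    have h1 : IndepOver P κ := by
      apply indepOver_of_inj P I hmemI κ
      rw [injective_iff_map_eq_zero]
      intro g hg
      exact h g ((haev0 _ κ g).2 hg)
    obtain ⟨g, hg, hg0⟩ := alg_map P I hmemI κ i (halg κ hκi h1 i)
    refine ⟨g, hg, ?_⟩
    have h2 : y i = algebraMap (MvPolynomial (Fin n ⊕ Fin n) ℂ ⧸ P) F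
      (Ideal.Quotient.mk P (X (Sum.inr i))) := rfl
    rw [haevr, h2, ← Polynomial.hom_eval₂, hg0, map_zero]
  obtain ⟨hB1, hB2⟩ := hTRD (RI I) F n 1 y hinjA ⟨κ, hκi, hκind⟩ halg'
  -- the pair relations
  have hpairs : ∀ i j : Fin n, ∃ G : MvPolynomial (Fin 2) (RI I), i ≠ j →
      G ≠ 0 ∧ aeval ![y i, y j] G = 0 := by
    intro i j
    by_cases hij : i = j
    · exact ⟨0, fun h => absurd hij h⟩
    by_contra hcon
    push Not at hcon
    apply hB2 {i, j} (Finset.card_pair hij)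
    have h1 : AlgebraicIndependent (RI I) ![y i, y j] := by
      rw [algebraicIndependent_iff]
      intro p hp
      by_contra hp0
      exact (hcon p).2 hp0 hp
    let e : Fin 2 → {k // k ∈ ({i, j} : Finset (Fin n))} :=
      ![⟨i, Finset.mem_insert_self _ _⟩,
        ⟨j, Finset.mem_insert_of_mem (Finset.mem_singleton_self _)⟩]
    have he : Function.Bijective e := by
      rw [Fintype.bijective_iff_injective_and_card]
      constructor
      · intro a b hab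
        have hab' := congrArg Subtype.val hab
        fin_cases a <;> fin_cases b
        · rfl
        · exact absurd hab' hij
        · exact absurd hab'.symm hij
        · rfl
      · rw [Fintype.card_fin, Fintype.card_coe, Finset.card_pair hij]
    refine (algebraicIndependent_equiv' (Equiv.ofBijective e he)
      (f := fun b : {k // k ∈ ({i, j} : Finset (Fin n))} => y b) (g := ![y i, y j]) ?_).1 h1
    funext k
    fin_cases k <;> rfl
  choose G hG using hpairs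
  obtain ⟨ex2, hex2⟩ : ∃ ex2 : ℕ × ℕ → (Fin 2 →₀ ℕ), ex2 = fun p =>
    Finsupp.equivFunOnFinite.symm ![p.1, p.2] := ⟨_, rfl⟩
  have hex2' : ∀ m : Fin 2 →₀ ℕ, ex2 (m 0, m 1) = m := by
    intro m
    rw [hex2]
    refine Finsupp.ext fun k => ?_
    fin_cases k <;> rfl
  obtain ⟨a, ha⟩ : ∃ a : Fin n → Fin n → ℕ × ℕ → MvPolynomial (Fin n) ℂ, ∀ i j p,
      Ideal.Quotient.mk I (a i j p) = coeff (ex2 p) (G i j) := by
    choose a ha using fun i j p => Ideal.Quotient.mk_surjective (I := I) (coeff (ex2 p) (G i j))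
    exact ⟨a, ha⟩
  have hSne : ∀ i j, i ≠ j → (SG G i j).Nonempty := fun i j hij =>
    (MvPolynomial.support_nonempty.2 (hG i j hij).1).image _
  have haI : ∀ i j, ∀ p ∈ SG G i j, a i j p ∉ I := by
    intro i j p hp hmem
    obtain ⟨m, hm, rfl⟩ := Finset.mem_image.1 hp
    apply MvPolynomial.mem_support_iff.1 hm
    rw [← Ideal.Quotient.eq_zero_iff_mem, ha, hex2'] at hmem
    exact hmem
  have hGP : ∀ i j, i ≠ j → ∑ p ∈ SG G i j, rename Sum.inl (a i j p) * X (Sum.inr i) ^ p.1 *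
      X (Sum.inr j) ^ p.2 ∈ P := by
    intro i j hij
    rw [← hψ0, map_sum, ← (hG i j hij).2, aeval_def, eval₂_eq']
    unfold SG
    rw [Finset.sum_image]
    · refine Finset.sum_congr rfl fun m _ => ?_
      rw [map_mul, map_mul, map_pow, map_pow, ← hψI, ha, hex2', Fin.prod_univ_two]
      simp only [Matrix.cons_val_zero, Matrix.cons_val_one]
      ring
    · intro m _ m' _ h
      simp only at h
      rw [← hex2' m, ← hex2' m', h]
  obtain ⟨W, hW0, hW⟩ := dirs' (by omega : 0 < n) (SG G)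
  -- the models
  have hmodel : ∀ m : Fin n → ℤ, ∃ (f U V : Polynomial (MvPolynomial (Fin 1) (RI I)))
      (D Δ g0 : MvPolynomial (Fin 1) (RI I))
      (N g : Fin n → Polynomial (MvPolynomial (Fin 1) (RI I))),
      AlgebraicIndependent (RI I) (fun _ : Fin 1 => ∏ i, y i ^ m i) → f.Monic ∧
      0 < f.natDegree ∧ D ≠ 0 ∧ Δ ≠ 0 ∧ g0 ≠ 0 ∧
      U * f + V * Polynomial.derivative f = Polynomial.C Δ ∧ (∀ i, (g i).coeff 0 ≠ 0) ∧
      ∀ (χ : MvPolynomial (Fin 1) (RI I) →ₐ[ℂ] ℂ) (t : ℂ) (Y : Fin n → ℂ),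
        (∀ i, χ D * Y i = ((N i).map (χ : MvPolynomial (Fin 1) (RI I) →+* ℂ)).eval t) →
        χ D ≠ 0 → (f.map (χ : MvPolynomial (Fin 1) (RI I) →+* ℂ)).eval t = 0 →
        (∀ G ∈ P, MvPolynomial.eval
          (Sum.elim (fun i => χ (C (Ideal.Quotient.mk I (X i)))) Y) G = 0) ∧
        (∀ i, ((g i).map (χ : MvPolynomial (Fin 1) (RI I) →+* ℂ)).eval (Y i) = 0) ∧
        ((∀ i, Y i ≠ 0) → ∏ i, Y i ^ m i = χ (X 0)) ∧
        (χ g0 ≠ 0 → MvPolynomial.eval
          (Sum.elim (fun i => χ (C (Ideal.Quotient.mk I (X i)))) Y) H ≠ 0) := by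
    intro m
    by_cases hm : AlgebraicIndependent (RI I) (fun _ : Fin 1 => ∏ i, y i ^ m i)
    · obtain ⟨f, U, V, D, Δ, g0, N, g, h⟩ := algR P F ψ hψ0 h3 (MvPolynomial (Fin 1) (RI I))
        (aeval (fun _ : Fin 1 => ∏ i, y i ^ m i) :
          MvPolynomial (Fin 1) (RI I) →ₐ[RI I] F).toRingHom
        (algebraicIndependent_iff_injective_aeval.1 hm) (fun z => by
          have e1 : algebraMap ℂ (MvPolynomial (Fin 1) (RI I)) z =
              C (Ideal.Quotient.mk I (C z)) := rfl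
          rw [e1]
          show aeval _ (C (Ideal.Quotient.mk I (C z))) = _
          rw [aeval_C, hψI, rename_C]) (fun i => C (Ideal.Quotient.mk I (X i))) (fun i => by
          show aeval _ (C (Ideal.Quotient.mk I (X i))) = _
          rw [aeval_C, hψI, rename_X])
        (transR hinjA y (κ 0) (by
          have h1 : AlgebraicIndependent (RI I) (fun b : Fin 1 => y (κ b)) :=
            algebraicIndependent_iff.2 hκind
          have h2 : (fun b : Fin 1 => y (κ b)) = fun _ : Fin 1 => y (κ 0) := by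
            funext b
            rw [Subsingleton.elim b 0]
          rwa [h2] at h1) (by
          intro i
          have h2 : (fun b : Fin 1 => y (κ b)) = fun _ : Fin 1 => y (κ 0) := by
            funext b
            rw [Subsingleton.elim b 0]
          have h1 := halg' κ hκi hκind i
          rwa [h2] at h1) m hm) m (X 0) (by
          show aeval _ (X 0) = _
          rw [aeval_X]) H hHP
      exact ⟨f, U, V, D, Δ, g0, N, g, fun _ => h⟩
    · exact ⟨0, 0, 0, 0, 0, 0, fun _ => 0, fun _ => 0, fun h => absurd h hm⟩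
  choose f U V D Δ g0 N g hmodel using hmodel
  obtain ⟨Φ, hΦ⟩ : ∃ Φ : Fam7 1 Zp I (MvPolynomial (Fin 1) (RI I)),
    Φ = famZ 1 Zp I hIF' := ⟨_, rfl⟩
  have hΦch : ∀ x Y, Φ.ch x Y = (evAZ 1 Zp I hIF' x Y : MvPolynomial (Fin 1) (RI I) →+* ℂ) := by
    intro x Y
    rw [hΦ]
    rfl
  obtain ⟨c', hc0, hirr, hcσ, hgeoc⟩ := hgeo W hW0
    (⋃ m : Fin n → ℤ, (badP Φ (D m) (Δ m) (g0 m) (g m) (SG G) a :
      Set (MvPolynomial (Fin n) ℂ)))
    (countable_iUnion fun m => (Finset.finite_toSet _).countable) (by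
      intro Q hQ
      obtain ⟨m, hQ⟩ := mem_iUnion.1 hQ
      have hQ' : Q ∈ badP Φ (D m) (Δ m) (g0 m) (g m) (SG G) a := hQ
      unfold badP at hQ'
      rw [Finset.mem_union] at hQ'
      rcases hQ' with hQ' | hQ'
      · obtain ⟨b, -, hb⟩ := Finset.mem_biUnion.1 hQ'
        obtain ⟨k, hk, rfl⟩ := Finset.mem_image.1 hb
        exact Φ.nmem b k hk
      · obtain ⟨i, -, hb⟩ := Finset.mem_biUnion.1 hQ'
        obtain ⟨j, -, hb⟩ := Finset.mem_biUnion.1 hb
        split_ifs at hb with hij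
        · simp at hb
        · obtain ⟨p, hp, rfl⟩ := Finset.mem_image.1 hb
          exact haI i j p hp)
  obtain ⟨m, hm⟩ := sign W c' hcσ
  have hmi : AlgebraicIndependent (RI I) (fun _ : Fin 1 => ∏ i, y i ^ m i) :=
    indepR hFLAG hinjA y hy hB1 hB2 G hG W hW m (fun σ hσ h0 => by
      have := hm σ hσ
      rw [h0, mul_zero] at this
      exact lt_irrefl _ this)
  obtain ⟨hf, hf0, hD, hΔ, hg0, hUV, hgc, hM⟩ := hmodel m hmi
  have hrel : ∀ (x : Zp) (Y : Fin 1 → ℂ) (t : ℂ), Φ.ch x Y (D m) ≠ 0 → ∀ i,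
      evAZ 1 Zp I hIF' x Y (D m) * yq (Φ.ch x Y) (N m i) (D m) t =
        ((N m i).map ((evAZ 1 Zp I hIF' x Y : MvPolynomial (Fin 1) (RI I) →ₐ[ℂ] ℂ) :
          MvPolynomial (Fin 1) (RI I) →+* ℂ)).eval t := by
    intro x Y t hD' i
    rw [← hΦch, yq]
    rw [hΦch] at hD'
    rw [hΦch]
    exact mul_div_cancel₀ _ hD'
  have hM' : ∀ (x : Zp) (Y : Fin 1 → ℂ) (t : ℂ),
      ((f m).map (Φ.ch x Y)).eval t = 0 → Φ.ch x Y (D m) ≠ 0 →
      (∀ G ∈ P, MvPolynomial.eval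
        (Sum.elim x.1 (fun i => yq (Φ.ch x Y) (N m i) (D m) t)) G = 0) ∧
      (∀ i, ((g m i).map (Φ.ch x Y)).eval (yq (Φ.ch x Y) (N m i) (D m) t) = 0) ∧
      ((∀ i, yq (Φ.ch x Y) (N m i) (D m) t ≠ 0) →
        ∏ i, yq (Φ.ch x Y) (N m i) (D m) t ^ m i = Y 0) ∧
      (Φ.ch x Y (g0 m) ≠ 0 → MvPolynomial.eval
        (Sum.elim x.1 (fun i => yq (Φ.ch x Y) (N m i) (D m) t)) H ≠ 0) := by
    intro x Y t ht hD'
    have h1 := hM (evAZ 1 Zp I hIF' x Y) t (fun i => yq (Φ.ch x Y) (N m i) (D m) t)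
      (hrel x Y t hD') (by
        rw [hΦch] at hD'
        exact hD') (by
        rw [hΦch] at ht
        exact ht)
    have hxA : (fun i => evAZ 1 Zp I hIF' x Y (C (Ideal.Quotient.mk I (X i)))) = x.1 := by
      funext i
      rw [evAZ, aevalTower_C, evZ_mk, eval_X]
    have hX0 : evAZ 1 Zp I hIF' x Y (X 0) = Y 0 := by
      rw [evAZ, aevalTower_X]
    rw [hxA, hX0] at h1
    refine ⟨h1.1, ?_, h1.2.2.1, ?_⟩
    · intro i
      have h2 := h1.2.1 i
      rw [← hΦch] at h2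
      exact h2
    · intro h2
      apply h1.2.2.2
      rw [hΦch] at h2
      exact h2
  obtain ⟨x, Y, t, h6, h7, h8, h9⟩ := coreR ε Zp I Φ (f m) (U m) (V m) (D m) (Δ m) (g0 m) (N m)
    (g m) hf hf0 hUV hD hΔ hg0 hgc (fun i x Y t ht hD' => (hM' x Y t ht hD').2.1 i) m
    (fun x Y t ht hD' hy' => (hM' x Y t ht hD').2.2.1 hy') (SG G) a hSne
    (fun i j hij x Y t ht hD' => by
      have h1 := (hM' x Y t ht hD').1 _ (hGP i j hij)
      rw [map_sum] at h1
      rw [← h1]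
      refine Finset.sum_congr rfl fun p _ => ?_
      rw [map_mul, map_mul, map_pow, map_pow, eval_rename, eval_X, eval_X, Sum.elim_inr,
        Sum.elim_inr]
      rfl) W hW c' hm hc0 hirr (hgeoc _ fun Q hQ => mem_iUnion.2 ⟨m, by
      rw [Finset.mem_coe]
      exact badP_inst hQ⟩) c
  obtain ⟨m1, -, -, m4⟩ := hM' x Y t h8 h7
  have hYA : (fun i => yq (Φ.ch x Y) (N m i) (D m) t) =
      fun i => Complex.exp (x.1 i + c i) := funext h9
  rw [hYA] at m1 m4
  exact ⟨x.1, m1, m4 h6⟩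

end Pool.Agent.Run7.h490.RR
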