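import Pool.Agent.Run7.h490.RR9
import Pool.Agent.Run7.h490.HY3

/-! Real regime: the branch of a hypersurface near a regular point at infinity, with an estimate
of second order. -/

set_option autoImplicit false

namespace Pool.Agent.Run7.h490.RR

open MvPolynomial Filter Topology Metric Set Pool.Agent.K3h22.EX Pool.Agent.K3h53.UG
open Pool.Agent.K3h67.EX (dlin dlin_apply hasStrict)

/-- estimates of the first and second order -/
theorem taylorE {s : ℕ} (Ψ : ℂ × (Fin s → ℂ) → ℂ) (p₀ : ℂ × (Fin s → ℂ))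
    (h : ContDiffAt ℂ 2 Ψ p₀) :
    ∃ δ C : ℝ, 0 < δ ∧ 0 ≤ C ∧ ∀ a ∈ ball p₀ δ, ∀ b ∈ ball p₀ δ,
      ‖Ψ a - Ψ b‖ ≤ C * ‖a - b‖ ∧
      ‖Ψ a - Ψ b - fderiv ℂ Ψ p₀ (a - b)‖ ≤ C * (‖a - p₀‖ + ‖b - p₀‖) * ‖a - b‖ := by
  have h1 : ContDiffAt ℂ 1 (fderiv ℂ Ψ) p₀ := h.fderiv_right (by norm_num)
  obtain ⟨K, t, ht, hK⟩ := h1.exists_lipschitzOnWith
  have h2 : ∀ᶠ x in 𝓝 p₀, ContDiffAt ℂ 2 Ψ x := h.eventually (by simp)
  obtain ⟨δ, hδ, hball⟩ := Metric.eventually_nhds_iff_ball.1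
    ((show ∀ᶠ x in 𝓝 p₀, x ∈ t from ht).and h2)
  have key : ∀ a ∈ ball p₀ δ, ∀ b ∈ ball p₀ δ,
      ‖Ψ a - Ψ b - fderiv ℂ Ψ p₀ (a - b)‖ ≤ K * (‖a - p₀‖ + ‖b - p₀‖) * ‖a - b‖ := by
    intro a ha b hb
    obtain ⟨ρ, hρ⟩ : ∃ ρ : ℝ, ρ = max ‖a - p₀‖ ‖b - p₀‖ := ⟨_, rfl⟩
    have hρδ : ρ < δ := by
      rw [mem_ball, dist_eq_norm] at ha hb
      rw [hρ]
      exact max_lt ha hb
    have hsub : closedBall p₀ ρ ⊆ ball p₀ δ := closedBall_subset_ball hρδ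
    have h3 := (convex_closedBall p₀ ρ).norm_image_sub_le_of_norm_hasFDerivWithin_le
      (f := fun x => Ψ x - fderiv ℂ Ψ p₀ x) (f' := fun x => fderiv ℂ Ψ x - fderiv ℂ Ψ p₀)
      (C := K * ρ) (x := b) (y := a) (fun x hx => by
        have h4 := ((hball x (hsub hx)).2.differentiableAt two_ne_zero).hasFDerivAt
        exact (h4.sub (fderiv ℂ Ψ p₀).hasFDerivAt).hasFDerivWithinAt) (fun x hx => by
        have h4 := hK.dist_le_mul x (hball x (hsub hx)).1 p₀ (hball p₀ (mem_ball_self hδ)).1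
        rw [dist_eq_norm, dist_eq_norm] at h4
        refine h4.trans (mul_le_mul_of_nonneg_left ?_ K.2)
        rw [mem_closedBall, dist_eq_norm] at hx
        exact hx) (by
        rw [mem_closedBall, dist_eq_norm, hρ]
        exact le_max_right _ _) (by
        rw [mem_closedBall, dist_eq_norm, hρ]
        exact le_max_left _ _)
    have e1 : Ψ a - fderiv ℂ Ψ p₀ a - (Ψ b - fderiv ℂ Ψ p₀ b) =
        Ψ a - Ψ b - fderiv ℂ Ψ p₀ (a - b) := by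
      rw [map_sub]
      ring
    rw [e1] at h3
    refine h3.trans (mul_le_mul_of_nonneg_right (mul_le_mul_of_nonneg_left ?_ K.2)
      (norm_nonneg _))
    rw [hρ]
    exact max_le (by linarith [norm_nonneg (b - p₀)]) (by linarith [norm_nonneg (a - p₀)])
  refine ⟨δ, 2 * K * δ + ‖fderiv ℂ Ψ p₀‖ + K, hδ, by positivity, fun a ha b hb => ⟨?_, ?_⟩⟩
  · have h3 := key a ha b hb
    rw [mem_ball, dist_eq_norm] at ha hb
    have h4 : ‖Ψ a - Ψ b‖ ≤ ‖Ψ a - Ψ b - fderiv ℂ Ψ p₀ (a - b)‖ +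
        ‖fderiv ℂ Ψ p₀ (a - b)‖ := by
      calc ‖Ψ a - Ψ b‖ = ‖(Ψ a - Ψ b - fderiv ℂ Ψ p₀ (a - b)) + fderiv ℂ Ψ p₀ (a - b)‖ := by
            congr 1
            ring
        _ ≤ _ := norm_add_le _ _
    have h5 := (fderiv ℂ Ψ p₀).le_opNorm (a - b)
    have h6 : (K : ℝ) * (‖a - p₀‖ + ‖b - p₀‖) * ‖a - b‖ ≤ K * (2 * δ) * ‖a - b‖ :=
      mul_le_mul_of_nonneg_right (mul_le_mul_of_nonneg_left (by linarith) K.2) (norm_nonneg _)
    have h7 : 0 ≤ (K : ℝ) * ‖a - b‖ := by positivity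
    nlinarith
  · refine (key a ha b hb).trans ?_
    have h3 : 0 ≤ (‖a - p₀‖ + ‖b - p₀‖) * ‖a - b‖ := by positivity
    have h4 : 0 ≤ 2 * (K : ℝ) * δ + ‖fderiv ℂ Ψ p₀‖ := by positivity
    rw [mul_assoc, mul_assoc]
    exact mul_le_mul_of_nonneg_right (by linarith) h3

/-- homogenization -/
noncomputable def Hm {n : ℕ} (F : MvPolynomial (Fin n) ℂ) (z : ℂ) (x : Fin n → ℂ) : ℂ :=
  ∑ m ∈ F.support, coeff m F * z ^ (F.totalDegree - m.degree) * ∏ i, x i ^ m i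

theorem deg_le {n : ℕ} (F : MvPolynomial (Fin n) ℂ) (m : Fin n →₀ ℕ) (hm : m ∈ F.support) :
    m.degree ≤ F.totalDegree := by
  have := MvPolynomial.le_totalDegree (p := F) (s := m) hm
  simpa [Finsupp.degree_apply, Finsupp.sum] using this

theorem Hm_zero {n : ℕ} (F : MvPolynomial (Fin n) ℂ) (x : Fin n → ℂ) :
    Hm F 0 x = eval x (top F) := by
  classical
  unfold Hm top
  rw [homogeneousComponent_apply, map_sum, Finset.sum_filter]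
  refine Finset.sum_congr rfl fun m hm => ?_
  have h1 := deg_le F m hm
  split_ifs with h
  · rw [h, Nat.sub_self, pow_zero, mul_one, eval_monomial, Finsupp.prod_fintype _ _ (by simp)]
  · rw [zero_pow (by omega)]
    simp

theorem Hm_scale {n : ℕ} (F : MvPolynomial (Fin n) ℂ) (R : ℂ) (hR : R ≠ 0) (x : Fin n → ℂ) :
    eval (fun i => R * x i) F = R ^ F.totalDegree * Hm F R⁻¹ x := by
  unfold Hm
  rw [eval_eq', Finset.mul_sum]
  refine Finset.sum_congr rfl fun m hm => ?_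
  have h1 := deg_le F m hm
  have h2 : ∏ i, (R * x i) ^ m i = R ^ m.degree * ∏ i, x i ^ m i := by
    rw [Finsupp.degree_eq_sum, ← Finset.prod_pow_eq_pow_sum, ← Finset.prod_mul_distrib]
    exact Finset.prod_congr rfl fun i _ => mul_pow _ _ _
  have h3 : R ^ F.totalDegree * R⁻¹ ^ (F.totalDegree - m.degree) = R ^ m.degree := by
    obtain ⟨a, ha⟩ := Nat.exists_eq_add_of_le h1
    rw [ha, Nat.add_sub_cancel_left, pow_add, mul_assoc, ← mul_pow, mul_inv_cancel₀ hR, one_pow,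
      mul_one]
  rw [h2, ← h3]
  ring

/-- the coordinates as a linear map -/
noncomputable def xtL {n s : ℕ} (ε : Fin (s + 1) ≃ Fin n) :
    ((Fin s → ℂ) × ℂ) →L[ℂ] (Fin n → ℂ) :=
  ContinuousLinearMap.pi fun i => (Fin.cases (ContinuousLinearMap.snd ℂ (Fin s → ℂ) ℂ)
    (fun j => (ContinuousLinearMap.proj (R := ℂ) (φ := fun _ : Fin s => ℂ) j).comp
      (ContinuousLinearMap.fst ℂ (Fin s → ℂ) ℂ)) (ε.symm i) :
        ((Fin s → ℂ) × ℂ) →L[ℂ] ℂ)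

theorem xtL_zero {n s : ℕ} (ε : Fin (s + 1) ≃ Fin n) (v : (Fin s → ℂ) × ℂ) :
    xtL ε v (ε 0) = v.2 := by
  unfold xtL
  rw [ContinuousLinearMap.pi_apply, Equiv.symm_apply_apply]
  rfl

theorem xtL_succ {n s : ℕ} (ε : Fin (s + 1) ≃ Fin n) (v : (Fin s → ℂ) × ℂ) (j : Fin s) :
    xtL ε v (ε j.succ) = v.1 j := by
  unfold xtL
  rw [ContinuousLinearMap.pi_apply, Equiv.symm_apply_apply]
  rfl

theorem xe_eq {n s : ℕ} (ε : Fin (s + 1) ≃ Fin n) (ψ : (Fin s → ℂ) → ℂ) (l : Fin s → ℂ) :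
    xe ε ψ l = xtL ε (l, ψ l) := by
  funext i
  obtain ⟨k, rfl⟩ := ε.surjective i
  unfold xe xl
  rw [Equiv.symm_apply_apply]
  refine Fin.cases ?_ (fun j => ?_) k
  · rw [xtL_zero, Fin.cons_zero]
  · rw [xtL_succ, Fin.cons_succ]

/-- the branch -/
theorem branchR {n s : ℕ} (ε : Fin (s + 1) ≃ Fin n) (F : MvPolynomial (Fin n) ℂ)
    (ν c : Fin n → ℂ) (μ : ℂ) (hμ : μ ≠ 0) (hc0 : c (ε 0) ≠ 0) (h0 : eval ν (top F) = 0)
    (hgrad : ∀ i, eval ν (pderiv i (top F)) = μ * c i) (δ : ℝ) (hδ : 0 < δ) :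
    ∃ ε' C R₀ : ℝ, 0 < ε' ∧ 0 ≤ C ∧ 1 ≤ R₀ ∧ ∀ R : ℝ, R₀ ≤ R → ∀ l₀ : Fin s → ℂ,
      (∀ j, l₀ j = R * ν (ε j.succ)) → ∃ ψ : (Fin s → ℂ) → ℂ,
      DifferentiableOn ℂ ψ (ball l₀ (ε' * R)) ∧
      (∀ l ∈ ball l₀ (ε' * R), eval (xe ε ψ l) F = 0 ∧ ‖ψ l - R * ν (ε 0)‖ ≤ δ * R) ∧
      ‖ψ l₀ - R * ν (ε 0)‖ ≤ C ∧
      ∀ l ∈ ball l₀ (ε' * R), ‖∑ k, c (ε k) * (xl ψ l k - xl ψ l₀ k)‖ ≤
        C * (1 + ‖l - l₀‖) ^ 2 / R := by
  classical
  obtain ⟨νA, hνA⟩ : ∃ νA : Fin s → ℂ, νA = fun j => ν (ε j.succ) := ⟨_, rfl⟩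
  have hν : xtL ε (νA, ν (ε 0)) = ν := by
    funext i
    obtain ⟨k, rfl⟩ := ε.surjective i
    refine Fin.cases ?_ (fun j => ?_) k
    · rw [xtL_zero]
    · rw [xtL_succ, hνA]
  obtain ⟨f, hf⟩ : ∃ f : (ℂ × (Fin s → ℂ)) × ℂ → ℂ, f = fun p =>
    Hm F p.1.1 (xtL ε (p.1.2, p.2)) := ⟨_, rfl⟩
  have hfc : ContDiff ℂ 2 f := by
    rw [hf]
    unfold Hm
    apply ContDiff.sum
    intro m _
    apply ContDiff.mul
    · exact contDiff_const.mul ((contDiff_fst.comp contDiff_fst).pow _)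
    · apply contDiff_prod
      intro i _
      refine ContDiff.pow ?_ _
      have h1 : ContDiff ℂ 2 (fun p : (ℂ × (Fin s → ℂ)) × ℂ => xtL ε (p.1.2, p.2)) :=
        (xtL ε).contDiff.comp ((contDiff_snd.comp contDiff_fst).prodMk contDiff_snd)
      exact (contDiff_apply ℂ ℂ i).comp h1
  have hcd : ContDiffAt ℂ 2 f (((0 : ℂ), νA), ν (ε 0)) := hfc.contDiffAt
  -- the derivative
  have hcomp : HasFDerivAt (fun t => f ((0, νA), t))
      (fderiv ℂ f (((0 : ℂ), νA), ν (ε 0)) ∘L .inr ℂ (ℂ × (Fin s → ℂ)) ℂ) (ν (ε 0)) := by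
    have h2 : HasFDerivAt (fun t : ℂ => (((0 : ℂ), νA), t))
        (ContinuousLinearMap.inr ℂ (ℂ × (Fin s → ℂ)) ℂ) (ν (ε 0)) :=
      hasFDerivAt_prodMk_right _ _
    exact (hcd.differentiableAt two_ne_zero).hasFDerivAt.comp (ν (ε 0)) h2
  have hcomp' : HasFDerivAt (fun t => f ((0, νA), t))
      ((dlin (top F) ν) ∘L (xtL ε) ∘L .inr ℂ (Fin s → ℂ) ℂ) (ν (ε 0)) := by
    have e1 : (fun t => f ((0, νA), t)) = fun t => eval (xtL ε (νA, t)) (top F) := by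
      funext t
      rw [hf]
      exact Hm_zero F _
    rw [e1]
    have h2 : HasFDerivAt (fun t : ℂ => (νA, t))
        (ContinuousLinearMap.inr ℂ (Fin s → ℂ) ℂ) (ν (ε 0)) :=
      hasFDerivAt_prodMk_right _ _
    have h3 := ((xtL ε).hasFDerivAt (x := (νA, ν (ε 0)))).comp (ν (ε 0)) h2
    have h4 := (hasStrict (top F) ν).hasFDerivAt
    rw [← hν] at h4
    have h5 := h4.comp (ν (ε 0)) h3
    rw [hν] at h5
    exact h5
  have hval := hcomp.unique hcomp'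
  have hdl : ∀ v : (Fin s → ℂ) × ℂ, dlin (top F) ν (xtL ε v) =
      μ * (c (ε 0) * v.2 + ∑ j : Fin s, c (ε j.succ) * v.1 j) := by
    intro v
    rw [dlin_apply, ← Equiv.sum_comp ε, Fin.sum_univ_succ]
    simp only [hgrad, xtL_zero, xtL_succ]
    rw [mul_add, Finset.mul_sum]
    congr 1
    · ring
    · exact Finset.sum_congr rfl fun j _ => by ring
  have hinv : (fderiv ℂ f (((0 : ℂ), νA), ν (ε 0)) ∘L
      .inr ℂ (ℂ × (Fin s → ℂ)) ℂ).IsInvertible := by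
    rw [hval]
    refine ⟨ContinuousLinearEquiv.unitsEquivAut ℂ (Units.mk0 (μ * c (ε 0))
      (mul_ne_zero hμ hc0)), ?_⟩
    ext
    show (1 : ℂ) * (μ * c (ε 0)) = dlin (top F) ν (xtL ε (0, 1))
    rw [hdl]
    simp
  obtain ⟨Ψ, hΨ⟩ : ∃ Ψ : ℂ × (Fin s → ℂ) → ℂ, Ψ = hcd.implicitFunction two_ne_zero hinv :=
    ⟨_, rfl⟩
  have e1 : Ψ (0, νA) = ν (ε 0) := by
    rw [hΨ]
    exact hcd.implicitFunction_apply_self two_ne_zero hinv
  have hf0 : ∀ (νA' : Fin s → ℂ) (t : ℂ), f ((0, νA'), t) = eval (xtL ε (νA', t)) (top F) := by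
    intro νA' t
    rw [hf]
    exact Hm_zero F _
  have hfθ : f (((0 : ℂ), νA), ν (ε 0)) = 0 := by
    rw [hf0, hν, h0]
  have e2 : ∀ᶠ x in 𝓝 ((0 : ℂ), νA), f (x, Ψ x) = 0 := by
    have := hcd.eventually_apply_implicitFunction two_ne_zero hinv
    rw [hfθ] at this
    rw [hΨ]
    exact this
  have e3 : ContDiffAt ℂ 2 Ψ (0, νA) := by
    rw [hΨ]
    exact hcd.contDiffAt_implicitFunction two_ne_zero hinv
  have e4 : ∀ᶠ x in 𝓝 ((0 : ℂ), νA), ContDiffAt ℂ 2 Ψ x := e3.eventually (by simp)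
  have e5 : ∀ᶠ x in 𝓝 ((0 : ℂ), νA), ‖Ψ x - ν (ε 0)‖ < δ := by
    have h2 := e3.continuousAt.tendsto
    rw [e1] at h2
    have h3 := h2.eventually (ball_mem_nhds (ν (ε 0)) hδ)
    filter_upwards [h3] with x hx
    rwa [dist_eq_norm] at hx
  obtain ⟨ρ₁, hρ₁, hball₁⟩ := Metric.eventually_nhds_iff_ball.1 (e2.and (e4.and e5))
  obtain ⟨ρ₂, K, hρ₂, hK, htay⟩ := taylorE Ψ (0, νA) e3
  -- the derivative of the implicit function
  have hder : ∀ h : Fin s → ℂ, c (ε 0) * fderiv ℂ Ψ (0, νA) (0, h) +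
      ∑ j : Fin s, c (ε j.succ) * h j = 0 := by
    intro h
    have h1 : HasFDerivAt (fun lam : Fin s → ℂ => ((0 : ℂ), lam))
        (ContinuousLinearMap.inr ℂ ℂ (Fin s → ℂ)) νA := hasFDerivAt_prodMk_right _ _
    have h2 : HasFDerivAt (fun lam : Fin s → ℂ => Ψ (0, lam))
        (fderiv ℂ Ψ (0, νA) ∘L ContinuousLinearMap.inr ℂ ℂ (Fin s → ℂ)) νA :=
      (e3.differentiableAt two_ne_zero).hasFDerivAt.comp νA h1
    have h3 : HasFDerivAt (fun lam : Fin s → ℂ => (lam, Ψ (0, lam)))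
        ((ContinuousLinearMap.id ℂ (Fin s → ℂ)).prod
          (fderiv ℂ Ψ (0, νA) ∘L ContinuousLinearMap.inr ℂ ℂ (Fin s → ℂ))) νA :=
      (hasFDerivAt_id νA).prodMk h2
    have h4 := ((xtL ε).hasFDerivAt (x := (νA, Ψ (0, νA)))).comp νA h3
    have h5 := (hasStrict (top F) ν).hasFDerivAt
    rw [← hν, ← e1] at h5
    have h6 := h5.comp νA h4
    rw [e1, hν] at h6
    have h7 : HasFDerivAt (fun lam : Fin s → ℂ => eval (xtL ε (lam, Ψ (0, lam))) (top F))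
        (0 : (Fin s → ℂ) →L[ℂ] ℂ) νA := by
      have h8 : (fun lam : Fin s → ℂ => eval (xtL ε (lam, Ψ (0, lam))) (top F)) =ᶠ[𝓝 νA]
          fun _ => 0 := by
        have h9 : Tendsto (fun lam : Fin s → ℂ => ((0 : ℂ), lam)) (𝓝 νA) (𝓝 ((0 : ℂ), νA)) :=
          h1.continuousAt.tendsto
        filter_upwards [h9.eventually e2] with lam hlam
        rw [← hf0]
        exact hlam
      exact (hasFDerivAt_const (0 : ℂ) νA).congr_of_eventuallyEq h8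
    have h8 := h6.unique h7
    have h9 := congrArg (fun A : (Fin s → ℂ) →L[ℂ] ℂ => A h) h8
    have h10 : dlin (top F) ν (xtL ε (h, fderiv ℂ Ψ (0, νA) (0, h))) = 0 := h9
    rw [hdl] at h10
    exact (mul_eq_zero.1 h10).resolve_left hμ
  obtain ⟨ρ, hρ⟩ : ∃ ρ : ℝ, ρ = min ρ₁ ρ₂ := ⟨_, rfl⟩
  have hρ0 : 0 < ρ := by rw [hρ]; exact lt_min hρ₁ hρ₂
  have hball : ∀ x ∈ ball ((0 : ℂ), νA) ρ, f (x, Ψ x) = 0 ∧ ContDiffAt ℂ 2 Ψ x ∧
      ‖Ψ x - ν (ε 0)‖ < δ := fun x hx => hball₁ x (ball_subset_ball (by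
        rw [hρ]; exact min_le_left _ _) hx)
  have htay' : ∀ a ∈ ball ((0 : ℂ), νA) ρ, ∀ b ∈ ball ((0 : ℂ), νA) ρ,
      ‖Ψ a - Ψ b‖ ≤ K * ‖a - b‖ ∧
      ‖Ψ a - Ψ b - fderiv ℂ Ψ (0, νA) (a - b)‖ ≤
        K * (‖a - (0, νA)‖ + ‖b - (0, νA)‖) * ‖a - b‖ := fun a ha b hb =>
    htay a (ball_subset_ball (by rw [hρ]; exact min_le_right _ _) ha) b
      (ball_subset_ball (by rw [hρ]; exact min_le_right _ _) hb)
  refine ⟨ρ, K + ‖c (ε 0)‖ * (2 * K), 2 / ρ + 1, hρ0, by positivity, by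
    have : 0 < 2 / ρ := by positivity
    linarith, ?_⟩
  intro R hR l₀ hl₀
  have hρ2 : 0 < 2 / ρ := by positivity
  have hR1 : 1 ≤ R := by linarith
  have hRpos : 0 < R := by linarith
  have hRc : (R : ℂ) ≠ 0 := by exact_mod_cast hRpos.ne'
  have hRinv' : ‖((R : ℂ))⁻¹‖ = R⁻¹ := by
    rw [norm_inv, Complex.norm_real, Real.norm_of_nonneg hRpos.le]
  have hRinv : ‖((R : ℂ))⁻¹‖ < ρ := by
    rw [hRinv', inv_lt_comm₀ hRpos hρ0]
    have : ρ⁻¹ ≤ 2 / ρ := by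
      rw [inv_eq_one_div]
      exact div_le_div_of_nonneg_right (by norm_num) hρ0.le
    linarith
  have hl₀' : (fun j => (R : ℂ)⁻¹ * l₀ j) = νA := by
    funext j
    rw [hl₀ j, hνA, ← mul_assoc, inv_mul_cancel₀ hRc, one_mul]
  have hdiff : ∀ l : Fin s → ℂ, (fun j => (R : ℂ)⁻¹ * l j) - νA = (R : ℂ)⁻¹ • (l - l₀) := by
    intro l
    rw [← hl₀']
    funext j
    simp only [Pi.sub_apply, Pi.smul_apply, smul_eq_mul]
    ring
  have hdn : ∀ l : Fin s → ℂ, ‖(fun j => (R : ℂ)⁻¹ * l j) - νA‖ = R⁻¹ * ‖l - l₀‖ := by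
    intro l
    rw [hdiff, norm_smul, hRinv']
  have hx : ∀ l ∈ ball l₀ (ρ * R),
      ((R : ℂ)⁻¹, fun j => (R : ℂ)⁻¹ * l j) ∈ ball ((0 : ℂ), νA) ρ := by
    intro l hl
    rw [mem_ball, dist_eq_norm] at hl ⊢
    rw [Prod.norm_def, max_lt_iff]
    constructor
    · simp only [Prod.fst_sub, sub_zero]
      exact hRinv
    · simp only [Prod.snd_sub]
      rw [hdn, inv_mul_lt_iff₀ hRpos]
      linarith
  have hl₀m : l₀ ∈ ball l₀ (ρ * R) := mem_ball_self (by positivity)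
  obtain ⟨ψ, hψ⟩ : ∃ ψ : (Fin s → ℂ) → ℂ, ψ = fun l =>
    (R : ℂ) * Ψ ((R : ℂ)⁻¹, fun j => (R : ℂ)⁻¹ * l j) := ⟨_, rfl⟩
  have hψl : ∀ l, ψ l = (R : ℂ) * Ψ ((R : ℂ)⁻¹, fun j => (R : ℂ)⁻¹ * l j) := fun l => by
    rw [hψ]
  refine ⟨ψ, ?_, ?_, ?_, ?_⟩
  · intro l hl
    obtain ⟨-, q2, -⟩ := hball _ (hx l hl)
    apply DifferentiableAt.differentiableWithinAt
    rw [hψ]
    apply DifferentiableAt.const_mul
    have h2 : DifferentiableAt ℂ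
        (fun l : Fin s → ℂ => ((R : ℂ)⁻¹, fun j => (R : ℂ)⁻¹ * l j)) l := by
      apply DifferentiableAt.prodMk
      · exact differentiableAt_const _
      · rw [differentiableAt_pi]
        intro j
        exact (differentiableAt_apply j l).const_mul _
    exact (q2.differentiableAt two_ne_zero).comp l h2
  · intro l hl
    obtain ⟨q1, -, q3⟩ := hball _ (hx l hl)
    constructor
    · have h2 : xe ε ψ l = fun i => (R : ℂ) * xtL ε ((fun j => (R : ℂ)⁻¹ * l j),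
          Ψ ((R : ℂ)⁻¹, fun j => (R : ℂ)⁻¹ * l j)) i := by
        rw [xe_eq]
        funext i
        obtain ⟨k, rfl⟩ := ε.surjective i
        refine Fin.cases ?_ (fun j => ?_) k
        · rw [xtL_zero, xtL_zero, hψl]
        · rw [xtL_succ, xtL_succ, ← mul_assoc, mul_inv_cancel₀ hRc, one_mul]
      rw [h2, Hm_scale F R hRc]
      have h3 : Hm F (R : ℂ)⁻¹ (xtL ε ((fun j => (R : ℂ)⁻¹ * l j),
          Ψ ((R : ℂ)⁻¹, fun j => (R : ℂ)⁻¹ * l j))) = 0 := by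
        rw [hf] at q1
        exact q1
      rw [h3, mul_zero]
    · rw [hψl, ← mul_sub, norm_mul, Complex.norm_real, Real.norm_of_nonneg hRpos.le, mul_comm]
      exact mul_le_mul_of_nonneg_right q3.le hRpos.le
  · rw [hψl, hl₀', ← mul_sub, norm_mul, Complex.norm_real, Real.norm_of_nonneg hRpos.le, ← e1]
    have h1 := (htay' ((R : ℂ)⁻¹, νA) (by
      have := hx l₀ hl₀m
      rwa [hl₀'] at this) (0, νA) (mem_ball_self hρ0)).1
    have h2 : ‖((R : ℂ)⁻¹, νA) - (0, νA)‖ = R⁻¹ := by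
      rw [Prod.mk_sub_mk, sub_self, sub_zero, Prod.norm_def]
      simp only [norm_zero]
      rw [hRinv', max_eq_left (by positivity)]
    rw [h2] at h1
    calc R * ‖Ψ ((R : ℂ)⁻¹, νA) - Ψ (0, νA)‖ ≤ R * (K * R⁻¹) :=
          mul_le_mul_of_nonneg_left h1 hRpos.le
      _ = K := by field_simp
      _ ≤ K + ‖c (ε 0)‖ * (2 * K) := by
        have : 0 ≤ ‖c (ε 0)‖ * (2 * K) := by positivity
        linarith
  · intro l hl
    have h1 := (htay' _ (hx l hl) _ (hx l₀ hl₀m)).2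
    rw [hl₀'] at h1
    have h2 : (((R : ℂ)⁻¹, fun j => (R : ℂ)⁻¹ * l j) : ℂ × (Fin s → ℂ)) - ((R : ℂ)⁻¹, νA) =
        (0, (R : ℂ)⁻¹ • (l - l₀)) := by
      rw [Prod.mk_sub_mk, sub_self, hdiff]
    have h3 : ‖(((R : ℂ)⁻¹, fun j => (R : ℂ)⁻¹ * l j) : ℂ × (Fin s → ℂ)) - (0, νA)‖ ≤
        R⁻¹ * (1 + ‖l - l₀‖) := by
      rw [Prod.mk_sub_mk, sub_zero, Prod.norm_def]
      simp only
      rw [hRinv', hdn]
      refine max_le ?_ ?_
      · have : 0 ≤ R⁻¹ * ‖l - l₀‖ := by positivity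
        linarith
      · have : 0 ≤ R⁻¹ := by positivity
        linarith
    have h4 : ‖((R : ℂ)⁻¹, νA) - (0, νA)‖ ≤ R⁻¹ * (1 + ‖l - l₀‖) := by
      rw [Prod.mk_sub_mk, sub_self, sub_zero, Prod.norm_def]
      simp only [norm_zero]
      rw [hRinv', max_eq_left (by positivity)]
      have : 0 ≤ R⁻¹ * ‖l - l₀‖ := by positivity
      linarith
    have h5 : ‖(((0 : ℂ), (R : ℂ)⁻¹ • (l - l₀)) : ℂ × (Fin s → ℂ))‖ = R⁻¹ * ‖l - l₀‖ := by
      rw [Prod.norm_def]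
      simp only [norm_zero]
      rw [norm_smul, hRinv', max_eq_right (by positivity)]
    rw [h2, h5] at h1
    have h6 := hder ((R : ℂ)⁻¹ • (l - l₀))
    have h7 : ∑ k, c (ε k) * (xl ψ l k - xl ψ l₀ k) =
        (R : ℂ) * (c (ε 0) * (Ψ ((R : ℂ)⁻¹, fun j => (R : ℂ)⁻¹ * l j) - Ψ ((R : ℂ)⁻¹, νA) -
          fderiv ℂ Ψ (0, νA) (0, (R : ℂ)⁻¹ • (l - l₀)))) := by
      rw [Fin.sum_univ_succ]
      unfold xl
      simp only [Fin.cons_zero, Fin.cons_succ]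
      rw [hψl, hψl, hl₀']
      have h8 : ∑ j : Fin s, c (ε j.succ) * (l j - l₀ j) =
          (R : ℂ) * ∑ j : Fin s, c (ε j.succ) * ((R : ℂ)⁻¹ • (l - l₀)) j := by
        rw [Finset.mul_sum]
        refine Finset.sum_congr rfl fun j _ => ?_
        rw [Pi.smul_apply, Pi.sub_apply, smul_eq_mul]
        field_simp
      rw [h8]
      linear_combination (R : ℂ) * h6
    rw [h7, norm_mul, norm_mul, Complex.norm_real, Real.norm_of_nonneg hRpos.le]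
    have h9 : ‖Ψ ((R : ℂ)⁻¹, fun j => (R : ℂ)⁻¹ * l j) - Ψ ((R : ℂ)⁻¹, νA) -
        fderiv ℂ Ψ (0, νA) (0, (R : ℂ)⁻¹ • (l - l₀))‖ ≤
        K * (2 * (R⁻¹ * (1 + ‖l - l₀‖))) * (R⁻¹ * ‖l - l₀‖) := by
      refine h1.trans (mul_le_mul_of_nonneg_right (mul_le_mul_of_nonneg_left ?_ hK)
        (by positivity))
      linarith
    have h10 : R * (‖c (ε 0)‖ * (K * (2 * (R⁻¹ * (1 + ‖l - l₀‖))) * (R⁻¹ * ‖l - l₀‖))) =
        ‖c (ε 0)‖ * (2 * K) * ((1 + ‖l - l₀‖) * ‖l - l₀‖) / R := by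
      field_simp
    calc R * (‖c (ε 0)‖ * ‖Ψ ((R : ℂ)⁻¹, fun j => (R : ℂ)⁻¹ * l j) - Ψ ((R : ℂ)⁻¹, νA) -
          fderiv ℂ Ψ (0, νA) (0, (R : ℂ)⁻¹ • (l - l₀))‖) ≤
          R * (‖c (ε 0)‖ * (K * (2 * (R⁻¹ * (1 + ‖l - l₀‖))) * (R⁻¹ * ‖l - l₀‖))) :=
          mul_le_mul_of_nonneg_left (mul_le_mul_of_nonneg_left h9 (norm_nonneg _)) hRpos.le
      _ = ‖c (ε 0)‖ * (2 * K) * ((1 + ‖l - l₀‖) * ‖l - l₀‖) / R := h10
      _ ≤ (K + ‖c (ε 0)‖ * (2 * K)) * (1 + ‖l - l₀‖) ^ 2 / R := by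
        apply div_le_div_of_nonneg_right _ hRpos.le
        have h11 : 0 ≤ ‖l - l₀‖ := norm_nonneg _
        have h12 : (1 + ‖l - l₀‖) * ‖l - l₀‖ ≤ (1 + ‖l - l₀‖) ^ 2 := by nlinarith
        have h13 : 0 ≤ ‖c (ε 0)‖ * (2 * K) := by positivity
        have h14 : 0 ≤ K * (1 + ‖l - l₀‖) ^ 2 := by positivity
        nlinarith [mul_le_mul_of_nonneg_left h12 h13]

end Pool.Agent.Run7.h490.RR
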