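import Pool.Agent.Run7.h490.HY3
import Pool.Agent.Run7.h490.OD3

/-! Real regime: generic real zeros of real forms. -/

set_option autoImplicit false

namespace Pool.Agent.Run7.h490.RR

open MvPolynomial Filter Topology Metric Set Pool.Agent.K3h22.EX Pool.Agent.K3h53.UG
  MeasureTheory
open Pool.Agent.K3h67.EX (dlin dlin_apply hasStrict)

/-- a real point off countably many hypersurfaces -/
theorem gen_off {s : ℕ} (HH : Set (MvPolynomial (Fin s) ℂ)) (hc : HH.Countable)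
    (h0 : ∀ h ∈ HH, h ≠ 0) (U : Set (Fin s → ℝ)) (hU : IsOpen U) (hne : U.Nonempty) :
    ∃ x ∈ U, ∀ h ∈ HH, eval (fun j => ((x j : ℝ) : ℂ)) h ≠ 0 := by
  have h := (ae_ball_iff (μ := (volume : Measure (Fin s → ℝ))) (S := HH)
    (p := fun x h _ => eval (fun j => ((x j : ℝ) : ℂ)) h ≠ 0) hc).2 (by
      intro h hh
      rw [ae_iff]
      simpa using H450Sp.poly_null h (h0 h hh))
  by_contra hcon
  push Not at hcon
  have h2 : volume U = 0 := by
    refine measure_mono_null ?_ (ae_iff.1 h)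
    intro x hx
    obtain ⟨q, hq, hq0⟩ := hcon x hx
    intro hall
    exact hall q hq hq0
  exact (hU.measure_pos volume hne).ne' h2

/-- real polynomials at real points -/
theorem eval_real {n : ℕ} (p : MvPolynomial (Fin n) ℝ) (x : Fin n → ℝ) :
    eval (fun i => ((x i : ℝ) : ℂ)) (map (algebraMap ℝ ℂ) p) = ((eval x p : ℝ) : ℂ) := by
  induction p using MvPolynomial.induction_on with
  | C a => simp
  | add p q hp hq => rw [map_add, map_add, map_add, hp, hq]; push_cast; rfl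
  | mul_X p i hp => rw [map_mul, map_mul, map_mul, hp, map_X, eval_X, eval_X]; push_cast; rfl

/-- the zero slopes -/
def z0 (s : ℕ) : Fin s → Fin 1 → ℚ := fun _ _ => 0

/-- the point with real coordinates -/
def xre {n s : ℕ} (e : Fin s ⊕ Fin 1 ≃ Fin n) (l : Fin s → ℝ) (t : ℝ) : Fin n → ℝ :=
  fun i => (Sum.elim l (fun _ => t) : Fin s ⊕ Fin 1 → ℝ) (e.symm i)

theorem xr_z0 {n s : ℕ} (e : Fin s ⊕ Fin 1 ≃ Fin n) (l : Fin s → ℂ) (t : Fin 1 → ℂ) :
    xr e (fun j b => ((z0 s j b : ℚ) : ℝ)) l t =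
      fun i => (Sum.elim l t : Fin s ⊕ Fin 1 → ℂ) (e.symm i) := by
  funext i
  unfold xr z0
  rcases e.symm i with j | b
  · simp
  · simp

theorem xr_xre {n s : ℕ} (e : Fin s ⊕ Fin 1 ≃ Fin n) (l : Fin s → ℝ) (t : ℝ) :
    (fun i => ((xre e l t i : ℝ) : ℂ)) =
      xr e (fun j b => ((z0 s j b : ℚ) : ℝ)) (fun j => (l j : ℂ)) (fun _ => (t : ℂ)) := by
  rw [xr_z0]
  funext i
  unfold xre
  rcases e.symm i with j | b <;> rfl

theorem slv_z0 {n s : ℕ} (e : Fin s ⊕ Fin 1 ≃ Fin n) :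
    (fun i => ((slv e (z0 s) i : ℚ) : ℂ)) = Pi.single (e (Sum.inr 0)) 1 := by
  funext i
  obtain ⟨k, rfl⟩ := e.surjective i
  unfold slv z0
  rw [Equiv.symm_apply_apply]
  rcases k with j | b
  · rw [Sum.elim_inl, Pi.single_eq_of_ne, Rat.cast_zero]
    intro h
    have := e.injective h
    cases this
  · have hb : b = 0 := Subsingleton.elim _ _
    rw [Sum.elim_inr, hb, Pi.single_eq_same, Rat.cast_one]

theorem dd_single {n : ℕ} (b : Fin n) (q : MvPolynomial (Fin n) ℂ) :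
    dd (Pi.single b 1) q = pderiv b q := by
  unfold dd
  rw [Finset.sum_eq_single b]
  · rw [Pi.single_eq_same, map_one, one_mul]
  · intro i _ hi
    rw [Pi.single_eq_of_ne hi, map_zero, zero_mul]
  · intro h
    exact absurd (Finset.mem_univ b) h

theorem lsub_inj {n s : ℕ} (e : Fin s ⊕ Fin 1 ≃ Fin n) (σ : Fin s → Fin 1 → ℝ)
    (h : MvPolynomial (Fin s) ℂ) (hne : h ≠ 0) : lsub e σ h ≠ 0 := by
  intro h0
  apply hne
  refine MvPolynomial.funext fun l => ?_
  rw [map_zero, ← Pool.Agent.K3h57.UG.eval_lsub e σ l 0, h0, map_zero]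

/-- a real zero off countably many hypersurfaces -/
theorem gen_zero {n s d : ℕ} (hn : n = s + 1) (e : Fin s ⊕ Fin 1 ≃ Fin n)
    (p : MvPolynomial (Fin n) ℝ) (q : MvPolynomial (Fin n) ℂ) (hqp : q = map (algebraMap ℝ ℂ) p)
    (hq : q.IsHomogeneous d) (hirr : Irreducible q) (hdb : pderiv (e (Sum.inr 0)) q ≠ 0)
    (hden : ∀ G : MvPolynomial (Fin n) ℂ, ¬ q ∣ G → ∃ x : Fin n → ℝ,
      eval (fun i => (x i : ℂ)) q = 0 ∧ eval (fun i => (x i : ℂ)) G ≠ 0)
    (GG : Set (MvPolynomial (Fin n) ℂ)) (hGc : GG.Countable) (hGG : ∀ G ∈ GG, ¬ q ∣ G) :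
    ∃ ν : Fin n → ℝ, eval (fun i => (ν i : ℂ)) q = 0 ∧
      ∀ G ∈ GG, eval (fun i => (ν i : ℂ)) G ≠ 0 := by
  classical
  have hnd : ¬ q ∣ pderiv (e (Sum.inr 0)) q := by
    have := not_dvd_dd (Pi.single (e (Sum.inr 0)) 1) q hq (by rwa [dd_single])
    rwa [dd_single] at this
  obtain ⟨ν₀, hν₀, hν₀'⟩ := hden _ hnd
  obtain ⟨l₀, hl₀⟩ : ∃ l₀ : Fin s → ℝ, l₀ = fun j => ν₀ (e (Sum.inl j)) := ⟨_, rfl⟩
  obtain ⟨t₀, ht₀⟩ : ∃ t₀ : ℝ, t₀ = ν₀ (e (Sum.inr 0)) := ⟨_, rfl⟩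
  have hx₀ : xre e l₀ t₀ = ν₀ := by
    funext i
    obtain ⟨k, rfl⟩ := e.surjective i
    unfold xre
    rw [Equiv.symm_apply_apply]
    rcases k with j | b
    · rw [Sum.elim_inl, hl₀]
    · rw [Sum.elim_inr, ht₀, Subsingleton.elim b 0]
  -- the real function
  obtain ⟨f, hf⟩ : ∃ f : (Fin s → ℝ) → ℝ → ℝ, f = fun l t => eval (xre e l t) p := ⟨_, rfl⟩
  have hfq : ∀ l t, eval (fun i => ((xre e l t i : ℝ) : ℂ)) q = ((f l t : ℝ) : ℂ) := by
    intro l t
    rw [hqp, eval_real, hf]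
  have hxc : Continuous (fun lt : (Fin s → ℝ) × ℝ => xre e lt.1 lt.2) := by
    refine continuous_pi fun i => ?_
    unfold xre
    rcases e.symm i with j | b
    · simp only [Sum.elim_inl]
      fun_prop
    · simp only [Sum.elim_inr]
      fun_prop
  have hfc : Continuous (fun lt : (Fin s → ℝ) × ℝ => f lt.1 lt.2) := by
    rw [hf]
    exact (MvPolynomial.continuous_eval p).comp hxc
  have hf0 : f l₀ t₀ = 0 := by
    have h1 := hfq l₀ t₀
    rw [hx₀, hν₀] at h1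
    exact_mod_cast h1.symm
  -- the derivative
  obtain ⟨a, ha⟩ : ∃ a : ℝ, a = eval ν₀ (pderiv (e (Sum.inr 0)) p) := ⟨_, rfl⟩
  have hac : eval (fun i => (ν₀ i : ℂ)) (pderiv (e (Sum.inr 0)) q) = (a : ℂ) := by
    rw [hqp, pderiv_map, eval_real, ha]
  have ha0 : a ≠ 0 := by
    intro h
    rw [h] at hac
    exact hν₀' (by rw [hac, Complex.ofReal_zero])
  have hderc : HasDerivAt (fun t : ℂ => eval (xr e (fun j b => ((z0 s j b : ℚ) : ℝ))
      (fun j => (l₀ j : ℂ)) (fun _ => t)) q) (a : ℂ) ((t₀ : ℝ) : ℂ) := by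
    have h1 : HasDerivAt (fun t : ℂ => xr e (fun j b => ((z0 s j b : ℚ) : ℝ))
        (fun j => (l₀ j : ℂ)) (fun _ => t)) (Pi.single (e (Sum.inr 0)) 1) ((t₀ : ℝ) : ℂ) := by
      rw [hasDerivAt_pi]
      intro i
      simp only [xr_z0]
      obtain ⟨k, rfl⟩ := e.surjective i
      rw [Equiv.symm_apply_apply]
      rcases k with j | b
      · simp only [Sum.elim_inl]
        rw [Pi.single_eq_of_ne]
        · exact hasDerivAt_const _ _
        · intro h
          have := e.injective h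
          cases this
      · simp only [Sum.elim_inr]
        rw [Subsingleton.elim b 0, Pi.single_eq_same]
        exact hasDerivAt_id _
    have h2 := (hasStrict q (xr e (fun j b => ((z0 s j b : ℚ) : ℝ))
      (fun j => (l₀ j : ℂ)) (fun _ => ((t₀ : ℝ) : ℂ)))).hasFDerivAt
    have h3 := h2.comp_hasDerivAt ((t₀ : ℝ) : ℂ) h1
    rw [← xr_xre, hx₀, ← Pool.Agent.K3h51.UG.eval_dd, dd_single, hac] at h3
    exact h3
  have hder : HasDerivAt (f l₀) a t₀ := by
    have h1 := hderc.real_of_complex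
    rw [Complex.ofReal_re] at h1
    have h2 : (fun x : ℝ => (eval (xr e (fun j b => ((z0 s j b : ℚ) : ℝ))
        (fun j => (l₀ j : ℂ)) (fun _ => (x : ℂ))) q).re) = f l₀ := by
      funext t
      rw [← xr_xre, hfq, Complex.ofReal_re]
    rw [h2] at h1
    exact h1
  obtain ⟨t₁, ht₁⟩ : ∃ t₁, f l₀ t₁ < 0 := by
    by_contra hcon
    push Not at hcon
    have h1 : IsLocalMin (f l₀) t₀ := by
      refine Filter.Eventually.of_forall fun t => ?_
      rw [hf0]
      exact hcon t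
    exact ha0 (h1.hasDerivAt_eq_zero hder)
  obtain ⟨t₂, ht₂⟩ : ∃ t₂, 0 < f l₀ t₂ := by
    by_contra hcon
    push Not at hcon
    have h1 : IsLocalMax (f l₀) t₀ := by
      refine Filter.Eventually.of_forall fun t => ?_
      rw [hf0]
      exact hcon t
    exact ha0 (h1.hasDerivAt_eq_zero hder)
  obtain ⟨U, hU⟩ : ∃ U : Set (Fin s → ℝ), U = {l | f l t₁ < 0 ∧ 0 < f l t₂} := ⟨_, rfl⟩
  have hUo : IsOpen U := by
    rw [hU]
    have h1 : ∀ t, Continuous (fun l => f l t) := fun t =>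
      hfc.comp (continuous_id.prodMk continuous_const)
    exact (isOpen_lt (h1 t₁) continuous_const).inter (isOpen_lt continuous_const (h1 t₂))
  -- elimination
  have hP : (Ideal.span {q} : Ideal (MvPolynomial (Fin n) ℂ)).IsPrime :=
    (Ideal.span_singleton_prime hirr.ne_zero).2 hirr.prime
  have hind : ∀ h : MvPolynomial (Fin s) ℂ, h ≠ 0 →
      lsub e (fun j b => ((z0 s j b : ℚ) : ℝ)) h ∉ Ideal.span {q} := by
    intro h hne hmem
    rw [Ideal.mem_span_singleton] at hmem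
    exact not_dvd_lsub e (z0 s) q hirr (by rw [slv_z0, dd_single]; exact hnd) h
      (lsub_inj e _ h hne) hmem
  have helim : ∀ G : MvPolynomial (Fin n) ℂ, ∃ (h : MvPolynomial (Fin s) ℂ)
      (G' : MvPolynomial (Fin n) ℂ), G ∈ GG → h ≠ 0 ∧
      G * G' - lsub e (fun j b => ((z0 s j b : ℚ) : ℝ)) h ∈ Ideal.span {q} := by
    intro G
    by_cases hG : G ∈ GG
    · obtain ⟨h, G', h1, h2⟩ := Pool.Agent.K3h72.UG.t_NORM6 n s 1 e
        (fun j b => ((z0 s j b : ℚ) : ℝ)) (Ideal.span {q}) hP (fun K hK => ⟨q,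
          Ideal.mem_span_singleton_self q, hirr.ne_zero, by
            have : K = Finset.univ := by
              rw [← Finset.card_eq_iff_eq_univ, Fintype.card_fin, hK, hn]
            rw [this]
            exact Finset.subset_univ _⟩) hind G (by
          rw [Ideal.mem_span_singleton]
          exact hGG G hG)
      exact ⟨h, G', fun _ => ⟨h1, h2⟩⟩
    · exact ⟨0, 0, fun h => absurd h hG⟩
  choose h G' helim using helim
  obtain ⟨l, hlU, hl⟩ := gen_off (h '' GG) (hGc.image h) (by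
    rintro _ ⟨G, hG, rfl⟩
    exact (helim G hG).1) U hUo ⟨l₀, by
      rw [hU]
      exact ⟨ht₁, ht₂⟩⟩
  rw [hU] at hlU
  obtain ⟨t, ht⟩ : ∃ t, f l t = 0 := by
    have h1 : Continuous (f l) := hfc.comp (continuous_const.prodMk continuous_id)
    exact mem_range_of_exists_le_of_exists_ge h1 ⟨t₁, hlU.1.le⟩ ⟨t₂, hlU.2.le⟩
  have hz : eval (fun i => ((xre e l t i : ℝ) : ℂ)) q = 0 := by
    rw [hfq, ht, Complex.ofReal_zero]
  refine ⟨xre e l t, hz, fun G hG hG0 => ?_⟩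
  obtain ⟨h1, h2⟩ := helim G hG
  rw [Ideal.mem_span_singleton] at h2
  obtain ⟨r, hr⟩ := h2
  have h3 := congrArg (eval (fun i => ((xre e l t i : ℝ) : ℂ))) hr
  rw [map_sub, map_mul, map_mul, hz, zero_mul, hG0, zero_mul, zero_sub, neg_eq_zero, xr_xre,
    Pool.Agent.K3h57.UG.eval_lsub] at h3
  exact hl (h G) (mem_image_of_mem h hG) h3

end Pool.Agent.Run7.h490.RR
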