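import Pool.Agent.Run7.h490.RR12
import Pool.Agent.Run7.h490.RR13
import Pool.Agent.Run7.h490.RR14
import Pool.Agent.Run7.h490.HY4
import Pool.Agent.K3h57.UG.Geo7
import Pool.Agent.K3h90.UG.Top7

/-! Real regime: the geometric property of hypersurfaces. -/

set_option autoImplicit false

namespace Pool.Agent.Run7.h490.RR

open MvPolynomial Filter Topology Metric Set Pool.Agent.K3h22.EX Pool.Agent.K3h53.UG
open Pool.Agent.K3h67.EX (dlin dlin_apply hasStrict)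
open Pool.Agent.K3h57.UG (eval_lsub zero_of_ball one_polyZ PZ unif)

/-- splitting the coordinates -/
def eqs (s : ℕ) : Fin s ⊕ Fin 1 ≃ Fin (s + 1) where
  toFun := Sum.elim Fin.succ (fun _ => 0)
  invFun := Fin.cases (Sum.inr 0) Sum.inl
  left_inv := by
    rintro (j | b)
    · simp
    · rw [Subsingleton.elim b 0]
      simp
  right_inv := by
    intro k
    refine Fin.cases ?_ (fun j => ?_) k <;> simp

theorem xr_xe {n s : ℕ} (ε : Fin (s + 1) ≃ Fin n) (ψ : (Fin s → ℂ) → ℂ) (l : Fin s → ℂ) :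
    xr ((eqs s).trans ε) (fun j b => ((z0 s j b : ℚ) : ℝ)) l (fun _ => ψ l) = xe ε ψ l := by
  rw [xr_z0]
  funext i
  obtain ⟨k, rfl⟩ := ε.surjective i
  unfold xe xl
  rw [Equiv.symm_apply_apply]
  refine Fin.cases ?_ (fun j => ?_) k
  · rw [Fin.cons_zero]
    have h1 : ((eqs s).trans ε).symm (ε 0) = Sum.inr 0 := by
      rw [Equiv.symm_apply_eq]
      rfl
    rw [h1, Sum.elim_inr]
  · rw [Fin.cons_succ]
    have h1 : ((eqs s).trans ε).symm (ε j.succ) = Sum.inl j := by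
      rw [Equiv.symm_apply_eq]
      rfl
    rw [h1, Sum.elim_inl]

/-- nonvanishing of `g` near a direction -/
theorem gne {n s : ℕ} (ε : Fin (s + 1) ≃ Fin n) (g : MvPolynomial (Fin n) ℂ) (ν : Fin n → ℂ)
    (hg : eval ν (top g) ≠ 0) :
    ∃ δ R₀ : ℝ, 0 < δ ∧ 1 ≤ R₀ ∧ ∀ R : ℝ, R₀ ≤ R → ∀ l₀ : Fin s → ℂ,
      (∀ j, l₀ j = R * ν (ε j.succ)) → ∀ (ψ : (Fin s → ℂ) → ℂ), ∀ l ∈ ball l₀ (δ * R),
      ‖ψ l - R * ν (ε 0)‖ ≤ δ * R → eval (xe ε ψ l) g ≠ 0 := by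
  obtain ⟨δ, c, R₀, hδ, hc, hR₀, h⟩ := Pool.Agent.K3h90.UG.t_TOP7 n (fun _ => 1) (fun _ => le_rfl) g ν (by
    rw [wtop_one]
    exact hg)
  refine ⟨δ, R₀, hδ, hR₀, fun R hR l₀ hl₀ ψ l hl hψ h0 => ?_⟩
  have h1 := h R hR (xe ε ψ l) (by
    intro i
    obtain ⟨k, rfl⟩ := ε.surjective i
    rw [xe_eq, pow_one]
    refine Fin.cases ?_ (fun j => ?_) k
    · rw [xtL_zero]
      exact hψ
    · rw [xtL_succ]
      show ‖l j - (R : ℂ) * ν (ε j.succ)‖ ≤ δ * R
      rw [← hl₀ j]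
      rw [mem_ball, dist_eq_norm] at hl
      exact (norm_le_pi_norm (l - l₀) j).trans hl.le)
  rw [h0, norm_zero] at h1
  linarith

/-- the coordinates `l` are independent -/
theorem indI {n s : ℕ} (ε : Fin (s + 1) ≃ Fin n) (F g : MvPolynomial (Fin n) ℂ)
    (I : Ideal (MvPolynomial (Fin n) ℂ))
    (hIF : ∀ x : Fin n → ℂ, eval x F = 0 → eval x g ≠ 0 → ∀ G ∈ I, eval x G = 0)
    (ν : Fin n → ℂ) (h0 : eval ν (top F) = 0) (hd : eval ν (pderiv (ε 0) (top F)) ≠ 0)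
    (hg : eval ν (top g) ≠ 0) (h : MvPolynomial (Fin s) ℂ) (hne : h ≠ 0) :
    lsub ((eqs s).trans ε) (fun j b => ((z0 s j b : ℚ) : ℝ)) h ∉ I := by
  intro hmem
  apply hne
  obtain ⟨δ, R₁, hδ, hR₁, hgn⟩ := gne ε g ν hg
  obtain ⟨ε', C, R₀, hε', hC, hR₀, hbr⟩ := branchR ε F ν
    (fun i => eval ν (pderiv i (top F))) 1 one_ne_zero hd h0 (fun i => (one_mul _).symm) δ hδ
  obtain ⟨R, hR⟩ : ∃ R : ℝ, R = max R₀ R₁ := ⟨_, rfl⟩
  have hR0 : R₀ ≤ R := by rw [hR]; exact le_max_left _ _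
  have hR1 : R₁ ≤ R := by rw [hR]; exact le_max_right _ _
  have hRp : 0 < R := by linarith
  obtain ⟨l₀, hl₀⟩ : ∃ l₀ : Fin s → ℂ, ∀ j, l₀ j = R * ν (ε j.succ) :=
    ⟨fun j => R * ν (ε j.succ), fun j => rfl⟩
  obtain ⟨ψ, -, hψ, -, -⟩ := hbr R hR0 l₀ hl₀
  refine zero_of_ball h l₀ (min ε' δ * R) (by positivity) fun l hl => ?_
  have hl1 : l ∈ ball l₀ (ε' * R) :=
    ball_subset_ball (mul_le_mul_of_nonneg_right (min_le_left _ _) hRp.le) hl
  have hl2 : l ∈ ball l₀ (δ * R) :=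
    ball_subset_ball (mul_le_mul_of_nonneg_right (min_le_right _ _) hRp.le) hl
  obtain ⟨h1, h2⟩ := hψ l hl1
  have h3 := hIF _ h1 (hgn R hR1 l₀ hl₀ ψ l hl2 h2) _ hmem
  rw [← xr_xe, eval_lsub] at h3
  exact h3

theorem geoR_hyp {n s : ℕ} (hn : n = s + 1) (hs : 1 ≤ s) (F g u : MvPolynomial (Fin n) ℂ)
    (p : MvPolynomial (Fin n) ℝ) (q : MvPolynomial (Fin n) ℂ) (hqp : q = map (algebraMap ℝ ℂ) p)
    (hF : top F = q * u) (hirr : Irreducible q) (hqu : ¬ q ∣ u) (hqg : ¬ q ∣ top g)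
    (hv : ∀ v : Fin n → ℚ, v ≠ 0 → dd (fun i => (v i : ℂ)) q ≠ 0)
    (hden : ∀ G : MvPolynomial (Fin n) ℂ, ¬ q ∣ G → ∃ x : Fin n → ℝ,
      eval (fun i => (x i : ℂ)) q = 0 ∧ eval (fun i => (x i : ℂ)) G ≠ 0)
    (I : Ideal (MvPolynomial (Fin n) ℂ)) (hI : I.IsPrime)
    (hId : ∀ K : Finset (Fin n), K.card = s + 1 → ∃ G ∈ I, G ≠ 0 ∧ G.vars ⊆ K)
    (hIF : ∀ x : Fin n → ℂ, eval x F = 0 → eval x g ≠ 0 → ∀ G ∈ I, eval x G = 0)
    (ε : Fin (s + 1) ≃ Fin n) :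
    GeoR ε {x : Fin n → ℂ | (∀ _ : Fin 1, eval x F = 0) ∧ eval x g ≠ 0} I := by
  classical
  intro W hW TT hTTc hTT
  obtain ⟨e, he⟩ : ∃ e : Fin s ⊕ Fin 1 ≃ Fin n, e = (eqs s).trans ε := ⟨_, rfl⟩
  have heb : e (Sum.inr 0) = ε 0 := by rw [he]; rfl
  have hel : ∀ j, e (Sum.inl j) = ε j.succ := fun j => by rw [he]; rfl
  have hFh : (top F).IsHomogeneous F.totalDegree := homogeneousComponent_isHomogeneous _ _
  have hgh : (top g).IsHomogeneous g.totalDegree := homogeneousComponent_isHomogeneous _ _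
  have hF0 : top F ≠ 0 := by
    intro h0
    rw [hF] at h0
    rcases mul_eq_zero.1 h0 with h1 | h1
    · exact hirr.ne_zero h1
    · exact hqu (by rw [h1]; exact dvd_zero _)
  have hqh : q.IsHomogeneous q.totalDegree := homog_of_dvd hFh hF0 ⟨u, hF⟩
  have hndd : ∀ v : Fin n → ℚ, v ≠ 0 → ¬ q ∣ dd (fun i => (v i : ℂ)) q := fun v hv0 =>
    not_dvd_dd _ q hqh (hv v hv0)
  have hsingle : ∀ b : Fin n, (fun i => (((Pi.single b 1 : Fin n → ℚ) i : ℚ) : ℂ)) =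
      Pi.single b 1 := by
    intro b
    funext i
    by_cases hi : i = b
    · rw [hi, Pi.single_eq_same, Pi.single_eq_same, Rat.cast_one]
    · rw [Pi.single_eq_of_ne hi, Pi.single_eq_of_ne hi, Rat.cast_zero]
  have hs0 : ∀ b : Fin n, (Pi.single b 1 : Fin n → ℚ) ≠ 0 := by
    intro b h
    have := congrFun h b
    rw [Pi.single_eq_same] at this
    exact one_ne_zero this
  have hdb : pderiv (e (Sum.inr 0)) q ≠ 0 := by
    have := hv _ (hs0 (e (Sum.inr 0)))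
    rwa [hsingle, dd_single] at this
  -- values at purely imaginary points
  obtain ⟨iv, hiv⟩ : ∃ iv : (Fin n → ℝ) → Fin n → ℂ, iv = fun ν i => Complex.I * (ν i : ℂ) :=
    ⟨_, rfl⟩
  have hivh : ∀ (ν : Fin n → ℝ) (G : MvPolynomial (Fin n) ℂ) (d : ℕ), G.IsHomogeneous d →
      eval (iv ν) G = Complex.I ^ d * eval (fun i => (ν i : ℂ)) G := by
    intro ν G d hG
    have := eval_hsmul G hG Complex.I (fun i => (ν i : ℂ))
    rw [hiv]
    exact this
  have hId0 : ∀ d : ℕ, Complex.I ^ d ≠ 0 := fun d => pow_ne_zero _ Complex.I_ne_zero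
  -- data of a good real zero
  have hdata : ∀ ν : Fin n → ℝ, eval (fun i => (ν i : ℂ)) q = 0 →
      eval (fun i => (ν i : ℂ)) u ≠ 0 → ∃ μ : ℂ, μ ≠ 0 ∧ eval (iv ν) (top F) = 0 ∧
      ∀ i, eval (iv ν) (pderiv i (top F)) = μ * ((eval ν (pderiv i p) : ℝ) : ℂ) := by
    intro ν h1 h2
    refine ⟨Complex.I ^ (F.totalDegree - 1) * eval (fun i => (ν i : ℂ)) u,
      mul_ne_zero (hId0 _) h2, ?_, fun i => ?_⟩
    · rw [hivh ν _ _ hFh, hF, map_mul, h1, zero_mul, mul_zero]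
    · rw [hivh ν _ _ hFh.pderiv, hF, Derivation.leibniz]
      simp only [smul_eq_mul, map_add, map_mul]
      rw [h1, zero_mul, zero_add]
      have h3 : eval (fun i => (ν i : ℂ)) (pderiv i q) = ((eval ν (pderiv i p) : ℝ) : ℂ) := by
        rw [hqp, pderiv_map, eval_real]
      rw [h3]
      ring
  have hqreal : ∀ (ν : Fin n → ℝ) (i : Fin n), eval (fun i => (ν i : ℂ)) (pderiv i q) =
      ((eval ν (pderiv i p) : ℝ) : ℂ) := by
    intro ν i
    rw [hqp, pderiv_map, eval_real]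
  -- independence of the coordinates `l` modulo `I`
  have hind : ∀ h : MvPolynomial (Fin s) ℂ, h ≠ 0 →
      lsub e (fun j b => ((z0 s j b : ℚ) : ℝ)) h ∉ I := by
    intro h hne
    obtain ⟨ν, h1, h2⟩ := hden (u * (top g * pderiv (e (Sum.inr 0)) q)) (by
      intro hdvd
      rcases hirr.prime.dvd_or_dvd hdvd with h | h
      · exact hqu h
      · rcases hirr.prime.dvd_or_dvd h with h | h
        · exact hqg h
        · have := hndd _ (hs0 (e (Sum.inr 0)))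
          rw [hsingle, dd_single] at this
          exact this h)
    rw [map_mul, map_mul] at h2
    have h3 := left_ne_zero_of_mul h2
    have h4 := left_ne_zero_of_mul (right_ne_zero_of_mul h2)
    have h5 := right_ne_zero_of_mul (right_ne_zero_of_mul h2)
    obtain ⟨μ, hμ, h6, h7⟩ := hdata ν h1 h3
    rw [he]
    refine indI ε F g I hIF (iv ν) h6 ?_ ?_ h hne
    · rw [h7, ← hqreal, ← heb]
      exact mul_ne_zero hμ h5
    · rw [hivh ν _ _ hgh]
      exact mul_ne_zero (hId0 _) h4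
  -- elimination
  have helim : ∀ G : MvPolynomial (Fin n) ℂ, ∃ (h : MvPolynomial (Fin s) ℂ)
      (G' : MvPolynomial (Fin n) ℂ), G ∈ TT → h ≠ 0 ∧
      G * G' - lsub e (fun j b => ((z0 s j b : ℚ) : ℝ)) h ∈ I := by
    intro G
    by_cases hG : G ∈ TT
    · obtain ⟨h, G', h1, h2⟩ := Pool.Agent.K3h72.UG.t_NORM6 n s 1 e
        (fun j b => ((z0 s j b : ℚ) : ℝ)) I hI hId hind G (hTT G hG)
      exact ⟨h, G', fun _ => ⟨h1, h2⟩⟩
    · exact ⟨0, 0, fun h => absurd h hG⟩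
  choose hh G' helim using helim
  have htop := fun (h : MvPolynomial (Fin s) ℂ) (hne : h ≠ 0) =>
    Pool.Agent.K3h72.UG.t_TOP6 s (fun _ => 1) (fun _ => le_rfl) h hne
  -- the generic real zero
  obtain ⟨ν, hν0, hν⟩ := gen_zero hn e p q hqp hqh hirr hdb hden
    ((({u, top g} : Set (MvPolynomial (Fin n) ℂ)) ∪
      (fun v : Fin n → ℚ => dd (fun i => (v i : ℂ)) q) '' {v | v ≠ 0}) ∪
      (fun G => lsub e (fun j b => ((z0 s j b : ℚ) : ℝ)) (wtop (fun _ => 1) (hh G))) '' TT)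
    ((((Set.finite_singleton _).insert _).countable.union
      ((Set.to_countable _).image _)).union (hTTc.image _)) (by
      rintro G ((hG | ⟨v, hv0, rfl⟩) | ⟨G, hG, rfl⟩)
      · rcases hG with rfl | hG
        · exact hqu
        · rw [Set.mem_singleton_iff] at hG
          rw [hG]
          exact hqg
      · exact hndd v hv0
      · refine not_dvd_lsub e (z0 s) q hirr ?_ _ (lsub_inj e _ _ (htop _ (helim G hG).1).1)
        rw [slv_z0, dd_single]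
        have := hndd _ (hs0 (e (Sum.inr 0)))
        rwa [hsingle, dd_single] at this)
  have hνu : eval (fun i => (ν i : ℂ)) u ≠ 0 := hν u (Or.inl (Or.inl (Or.inl rfl)))
  have hνg : eval (fun i => (ν i : ℂ)) (top g) ≠ 0 := hν (top g) (Or.inl (Or.inl (Or.inr rfl)))
  have hνv : ∀ v : Fin n → ℚ, v ≠ 0 → eval (fun i => (ν i : ℂ)) (dd (fun i => (v i : ℂ)) q) ≠ 0 :=
    fun v hv0 => hν _ (Or.inl (Or.inr ⟨v, hv0, rfl⟩))
  have hνG : ∀ G ∈ TT, eval (fun i => (ν i : ℂ))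
      (lsub e (fun j b => ((z0 s j b : ℚ) : ℝ)) (wtop (fun _ => 1) (hh G))) ≠ 0 :=
    fun G hG => hν _ (Or.inr ⟨G, hG, rfl⟩)
  obtain ⟨μ, hμ, hF1, hF2⟩ := hdata ν hν0 hνu
  obtain ⟨c, hc⟩ : ∃ c : Fin n → ℝ, c = fun i => eval ν (pderiv i p) := ⟨_, rfl⟩
  have hcv : ∀ v : Fin n → ℚ, v ≠ 0 → ∑ i, c i * (v i : ℝ) ≠ 0 := by
    intro v hv0 h0
    apply hνv v hv0
    unfold dd
    simp only [map_sum, map_mul, eval_C, hqreal]
    have h1 : ∑ i, (v i : ℂ) * ((eval ν (pderiv i p) : ℝ) : ℂ) =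
        ((∑ i, c i * (v i : ℝ) : ℝ) : ℂ) := by
      push_cast
      refine Finset.sum_congr rfl fun i _ => ?_
      rw [hc]
      ring
    rw [h1, h0, Complex.ofReal_zero]
  have hcb : ∀ b, c b ≠ 0 := by
    intro b h0
    apply hcv _ (hs0 b)
    rw [Finset.sum_eq_single b]
    · rw [h0, zero_mul]
    · intro i _ hi
      rw [Pi.single_eq_of_ne hi, Rat.cast_zero, mul_zero]
    · intro h
      exact absurd (Finset.mem_univ b) h
  refine ⟨c, hcb _, ?_, fun σ hσ => hcv σ (hW σ hσ), ?_⟩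
  · -- an irrational quotient
    refine ⟨ε 0, ε (Fin.succ ⟨0, hs⟩), ?_⟩
    rintro ⟨r, hr⟩
    obtain ⟨i, hi⟩ : ∃ i, i = ε 0 := ⟨_, rfl⟩
    obtain ⟨j, hj⟩ : ∃ j, j = ε (Fin.succ ⟨0, hs⟩) := ⟨_, rfl⟩
    have hij : i ≠ j := by
      rw [hi, hj]
      intro h
      have := ε.injective h
      exact absurd this.symm (Fin.succ_ne_zero _)
    rw [← hi, ← hj] at hr
    apply hcv (Pi.single i 1 - r • Pi.single j 1) (by
      intro h
      have := congrFun h i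
      rw [Pi.sub_apply, Pi.smul_apply, Pi.single_eq_same, Pi.single_eq_of_ne hij] at this
      simp at this)
    have h1 : ∀ k : Fin n, c k * ((((Pi.single i 1 - r • Pi.single j 1 : Fin n → ℚ)) k : ℚ) : ℝ) =
        (if k = i then c k else 0) - (if k = j then c k * (r : ℝ) else 0) := by
      intro k
      rw [Pi.sub_apply, Pi.smul_apply, Pi.single_apply, Pi.single_apply]
      split_ifs <;> simp <;> ring
    simp only [h1, Finset.sum_sub_distrib, Finset.sum_ite_eq', Finset.mem_univ, if_true]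
    rw [hr]
    have := hcb j
    field_simp
    ring
  · intro T hT
    obtain ⟨δ, R₁, hδ, hR₁, hgn⟩ := gne ε g (iv ν) (by
      rw [hivh ν _ _ hgh]
      exact mul_ne_zero (hId0 _) hνg)
    obtain ⟨ε₁, C₁, R₂, hε₁, hC₁, hR₂, hbr⟩ := branchR ε F (iv ν) (fun i => ((c i : ℝ) : ℂ)) μ hμ
      (by exact_mod_cast hcb _) hF1 (fun i => by rw [hF2, hc]) δ hδ
    have hid : ∀ G ∈ T, ∀ (l : Fin s → ℂ) (t : Fin 1 → ℂ),
        ((∀ _ : Fin 1, eval (xr e (fun j b => ((z0 s j b : ℚ) : ℝ)) l t) F = 0) ∧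
          eval (xr e (fun j b => ((z0 s j b : ℚ) : ℝ)) l t) g ≠ 0) →
        eval (xr e (fun j b => ((z0 s j b : ℚ) : ℝ)) l t) G *
          eval (xr e (fun j b => ((z0 s j b : ℚ) : ℝ)) l t) (G' G) = eval l (hh G) := by
      intro G hG l t hF
      have h1 := hIF _ (hF.1 0) hF.2 _ (helim G (hT G hG)).2
      rw [map_sub, map_mul, eval_lsub, sub_eq_zero] at h1
      exact h1
    obtain ⟨lam, hlam⟩ : ∃ lam : Fin s → ℂ, lam = fun j => iv ν (ε j.succ) := ⟨_, rfl⟩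
    have hlamh : ∀ G ∈ T, eval lam (wtop (fun _ => 1) (hh G)) ≠ 0 := by
      intro G hG
      have h1 := hνG G (hT G hG)
      have h2 : (fun i => (ν i : ℂ)) = xr e (fun j b => ((z0 s j b : ℚ) : ℝ))
          (fun j => (ν (ε j.succ) : ℂ)) (fun _ => (ν (ε 0) : ℂ)) := by
        rw [xr_z0]
        funext i
        obtain ⟨k, rfl⟩ := e.surjective i
        rw [Equiv.symm_apply_apply]
        rcases k with j | b
        · rw [Sum.elim_inl, hel]
        · rw [Sum.elim_inr, Subsingleton.elim b 0, heb]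
      rw [h2, eval_lsub] at h1
      rw [wtop_one] at h1 ⊢
      have h3 := eval_hsmul (top (hh G)) (homogeneousComponent_isHomogeneous _ _) Complex.I
        (fun j => (ν (ε j.succ) : ℂ))
      have h4 : lam = Complex.I • fun j => (ν (ε j.succ) : ℂ) := by
        rw [hlam, hiv]
        rfl
      rw [h4, h3]
      exact mul_ne_zero (hId0 _) h1
    obtain ⟨ε₂, C₂, R₃, hε₂, hC₂, hR₃, hPP⟩ := unif T (PZ e (fun _ => 1)
      (fun x => (∀ _ : Fin 1, eval x F = 0) ∧ eval x g ≠ 0)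
      (fun j b => ((z0 s j b : ℚ) : ℝ)) lam (fun _ => iv ν (ε 0)) δ) (by
        intro G ε C R₀ ε' C' R₀' hP h1 h2 h3 R hR hR1 l hl t ht hF
        have hR0 : 0 < R := by linarith
        have h4 := hP R (h3.trans hR) hR1 l
          (ball_subset_ball (mul_le_mul_of_nonneg_right h1 hR0.le) hl) t ht hF
        have hL : 0 ≤ Real.log R := Real.log_nonneg hR1
        exact ⟨h4.1, h4.2.trans (mul_le_mul_of_nonneg_right h2 (by linarith))⟩)
      (by
        intro G hG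
        obtain ⟨ε₂, c', R₂, hε₂, hc', hR₂, hlow⟩ := (htop (hh G) (helim G (hT G hG)).1).2 lam
          (hlamh G hG)
        exact one_polyZ e (fun _ => 1) _ (fun j b => ((z0 s j b : ℚ) : ℝ)) lam
          (fun _ => iv ν (ε 0)) δ hδ G (G' G) (hh G) (hid G hG) ε₂ c' R₂ hε₂ hc' hR₂ hlow)
    obtain ⟨ε₃, hε₃⟩ : ∃ ε₃ : ℝ, ε₃ = min (min ε₁ ε₂) δ := ⟨_, rfl⟩
    have hε₃0 : 0 < ε₃ := by rw [hε₃]; positivity
    have hε₃1 : ε₃ ≤ ε₁ := by rw [hε₃]; exact (min_le_left _ _).trans (min_le_left _ _)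
    have hε₃2 : ε₃ ≤ ε₂ := by rw [hε₃]; exact (min_le_left _ _).trans (min_le_right _ _)
    have hε₃3 : ε₃ ≤ δ := by rw [hε₃]; exact min_le_right _ _
    refine ⟨ε₃, C₁ + C₂, max (max R₁ R₂) (max R₃ ((1 / ε₃) ^ 2)), hε₃0, by linarith,
      hR₁.trans ((le_max_left _ _).trans (le_max_left _ _)), fun R hR => ?_⟩
    have hRR₁ : R₁ ≤ R := ((le_max_left _ _).trans (le_max_left _ _)).trans hR
    have hRR₂ : R₂ ≤ R := ((le_max_right _ _).trans (le_max_left _ _)).trans hR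
    have hRR₃ : R₃ ≤ R := ((le_max_left _ _).trans (le_max_right _ _)).trans hR
    have hRR₄ : (1 / ε₃) ^ 2 ≤ R := ((le_max_right _ _).trans (le_max_right _ _)).trans hR
    have hR1 : 1 ≤ R := hR₁.trans hRR₁
    have hRp : 0 < R := by linarith
    have hlog := Real.log_nonneg hR1
    have hsq : √R ≤ ε₃ * R := by
      have h1 : 1 / ε₃ ≤ √R := Real.le_sqrt_of_sq_le hRR₄
      rw [div_le_iff₀ hε₃0] at h1
      have h2 : √R * √R = R := Real.mul_self_sqrt hRp.le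
      have h3 : 0 ≤ √R := Real.sqrt_nonneg R
      calc √R = √R * 1 := (mul_one _).symm
        _ ≤ √R * (√R * ε₃) := mul_le_mul_of_nonneg_left h1 h3
        _ = ε₃ * R := by rw [← mul_assoc, h2, mul_comm]
    obtain ⟨l₀, hl₀⟩ : ∃ l₀ : Fin s → ℂ, ∀ j, l₀ j = R * iv ν (ε j.succ) :=
      ⟨fun j => R * iv ν (ε j.succ), fun j => rfl⟩
    obtain ⟨ψ, hψd, hψ1, hψ2, hψ3⟩ := hbr R hRR₂ l₀ hl₀
    have hre : ∀ i, ((R : ℂ) * iv ν i).re = 0 := by
      intro i
      rw [hiv]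
      simp
    have hcen : cen e (fun _ => 1) R lam = l₀ := by
      funext j
      unfold cen
      rw [hl₀ j, pow_one, hlam]
    refine ⟨l₀, ψ, fun j => by rw [hl₀ j, hre], ?_, hψd.mono (ball_subset_ball
      (mul_le_mul_of_nonneg_right hε₃1 hRp.le)), fun l hl => ?_, fun l hl => ?_⟩
    · have h1 := (Complex.abs_re_le_norm (ψ l₀ - R * iv ν (ε 0))).trans hψ2
      rw [Complex.sub_re, hre, sub_zero] at h1
      linarith
    · have hl1 : l ∈ ball l₀ (ε₁ * R) :=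
        ball_subset_ball (mul_le_mul_of_nonneg_right hε₃1 hRp.le) hl
      have hl2 : l ∈ ball l₀ (ε₂ * R) :=
        ball_subset_ball (mul_le_mul_of_nonneg_right hε₃2 hRp.le) hl
      have hl3 : l ∈ ball l₀ (δ * R) :=
        ball_subset_ball (mul_le_mul_of_nonneg_right hε₃3 hRp.le) hl
      obtain ⟨h1, h2⟩ := hψ1 l hl1
      have h3 := hgn R hRR₁ l₀ hl₀ ψ l hl3 h2
      refine ⟨⟨fun _ => h1, h3⟩, fun G hG => ?_⟩
      have h4 := hPP G hG R hRR₃ hR1 l (by rw [hcen]; exact hl2) (fun _ => ψ l) (fun _ => h2) (by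
        rw [he, xr_xe]
        exact ⟨fun _ => h1, h3⟩)
      rw [he, xr_xe] at h4
      refine ⟨h4.1, h4.2.trans (mul_le_mul_of_nonneg_right (by linarith) (by linarith))⟩
    · have h1 := hψ3 l (ball_subset_ball (hsq.trans
        (mul_le_mul_of_nonneg_right hε₃1 hRp.le)) hl)
      refine h1.trans ?_
      apply div_le_div_of_nonneg_right _ hRp.le
      exact mul_le_mul_of_nonneg_right (by linarith) (sq_nonneg _)

end Pool.Agent.Run7.h490.RR
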