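import Pool.Agent.Run7.h490.RR15

/-! Exponential points on varieties over hypersurfaces whose leading form has a simple irreducible
factor which is not degenerate. -/

set_option autoImplicit false

namespace Pool.Agent.Run7.h490.RR

open MvPolynomial Filter Topology Metric Set Pool.Agent.K3h22.EX Pool.Agent.K3h53.UG
  Pool.Agent.K3h22.E8 Pool.Agent.Run7.h490

/-- exponential points on all translates, real regime -/
theorem mainR (hTRD : S_TRD8) (hFLAG : S_FLAG) {n s : ℕ} (hn : n = s + 1)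
    (P : Ideal (MvPolynomial (Fin n ⊕ Fin n) ℂ)) (V : Set (Fin n ⊕ Fin n → ℂ)) (hP : P.IsPrime)
    (hV : V = {p | (∀ f ∈ P, eval p f = 0) ∧ ∀ j : Fin n, p (Sum.inr j) ≠ 0})
    (hne : V.Nonempty)
    (hdim1 : ∃ K : Finset (Fin n ⊕ Fin n), K.card = n ∧ Indep V K)
    (hdim : ∀ K : Finset (Fin n ⊕ Fin n), K.card = n + 1 → ¬ Indep V K)
    (hX1 : ∃ K : Finset (Fin n), K.card = s ∧ ∀ G : MvPolynomial (Fin n) ℂ, G.vars ⊆ K →
      (∀ u ∈ V, eval (fun i => u (Sum.inl i)) G = 0) → G = 0)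
    (hX2 : ∀ K : Finset (Fin n), K.card = s + 1 → ¬ ∀ G : MvPolynomial (Fin n) ℂ, G.vars ⊆ K →
      (∀ u ∈ V, eval (fun i => u (Sum.inl i)) G = 0) → G = 0)
    (F g : MvPolynomial (Fin n) ℂ)
    (hIF : ∀ x : Fin n → ℂ, eval x F = 0 → eval x g ≠ 0 →
      ∀ G : MvPolynomial (Fin n) ℂ, (∀ u ∈ V, eval (fun i => u (Sum.inl i)) G = 0) →
        eval x G = 0)
    (ε : Fin (s + 1) ≃ Fin n)
    (hgeo : ∀ I : Ideal (MvPolynomial (Fin n) ℂ), I.IsPrime →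
      (∀ K : Finset (Fin n), K.card = s + 1 → ∃ G ∈ I, G ≠ 0 ∧ G.vars ⊆ K) →
      (∀ x : Fin n → ℂ, eval x F = 0 → eval x g ≠ 0 → ∀ G ∈ I, eval x G = 0) →
      GeoR ε {x : Fin n → ℂ | (∀ _ : Fin 1, eval x F = 0) ∧ eval x g ≠ 0} I)
    (c : Fin n ⊕ Fin n → ℂ) (hc : ∀ i, c (Sum.inr i) ≠ 0)
    (H : MvPolynomial (Fin n ⊕ Fin n) ℂ)
    (hHV : ∃ u ∈ V, eval (Sum.elim (fun i => u (Sum.inl i) + c (Sum.inl i))
      (fun i => c (Sum.inr i) * u (Sum.inr i))) H ≠ 0) :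
    ∃ z : Fin n → ℂ, (∃ u ∈ V, (Sum.elim z fun i => Complex.exp (z i) :
      Fin n ⊕ Fin n → ℂ) = Sum.elim (fun i => u (Sum.inl i) + c (Sum.inl i))
        (fun i => c (Sum.inr i) * u (Sum.inr i))) ∧
      eval (Sum.elim z fun i => Complex.exp (z i)) H ≠ 0 := by
  classical
  obtain ⟨d1, d2, d3, d4, d5⟩ := Pool.Agent.K3h60.EX.t_DER n n P V hP hV hne id
    Function.injective_id
  have d6 : ∀ G : MvPolynomial (Fin n ⊕ Fin n) ℂ, G ∈ P → ∀ u ∈ V, eval u G = 0 := by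
    intro G hG u hu
    rw [hV] at hu
    exact hu.1 G hG
  have d7 : ∀ G : MvPolynomial (Fin n) ℂ, rename Sum.inl G ∈ P ↔
      ∀ u ∈ V, eval (fun i => u (Sum.inl i)) G = 0 := by
    intro G
    constructor
    · intro h u hu
      have := d6 _ h u hu
      rw [eval_rename] at this
      exact this
    · intro h
      apply d1
      intro u hu
      rw [eval_rename]
      exact h u hu
  have hId : ∀ K : Finset (Fin n), K.card = s + 1 → ∃ G : MvPolynomial (Fin n) ℂ,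
      rename Sum.inl G ∈ P ∧ G ≠ 0 ∧ G.vars ⊆ K := by
    intro K hK
    have h1 := hX2 K hK
    push Not at h1
    obtain ⟨G, h2, h3, h4⟩ := h1
    exact ⟨G, (d7 G).2 h3, h4, h2⟩
  have hfib := Pool.Agent.K3h23.UG.t_FIB6 n s 1 hn P hP (by
      obtain ⟨K, hK, h1⟩ := hdim1
      exact ⟨K, hK, fun G hG hGP => h1 G hG (d6 G hGP)⟩) (by
      intro K hK
      have h1 := hdim K hK
      unfold Indep at h1
      push Not at h1
      obtain ⟨G, h2, h3, h4⟩ := h1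
      exact ⟨G, d1 G h3, h4, h2⟩) (by
      obtain ⟨K, hK, h1⟩ := hX1
      exact ⟨K, hK, fun G hG hGP => h1 G hG ((d7 G).1 hGP)⟩) hId
  refine Pool.Agent.K3h22.EX.transport P V hV (fun i => (X i : MvPolynomial (Fin n) ℂ))
    (fun c H hHP => ?_) c hc H hHV
  simp only [eval_X]
  obtain ⟨I0, hI0⟩ : ∃ I0 : Ideal (MvPolynomial (Fin n) ℂ), I0 = P.comap
      ((rename (Sum.inl : Fin n → Fin n ⊕ Fin n) :
        MvPolynomial (Fin n) ℂ →ₐ[ℂ] MvPolynomial (Fin n ⊕ Fin n) ℂ) :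
        MvPolynomial (Fin n) ℂ →+* MvPolynomial (Fin n ⊕ Fin n) ℂ) := ⟨_, rfl⟩
  have hm0 : ∀ G, G ∈ I0 ↔ rename Sum.inl G ∈ P := fun G => by
    rw [hI0]
    rfl
  have hp0 : I0.IsPrime := by
    rw [hI0]
    have := hP
    exact Ideal.comap_isPrime _ _
  have hz0 : ∀ x : Fin n → ℂ, eval x F = 0 → eval x g ≠ 0 → ∀ G ∈ I0, eval x G = 0 :=
    fun x hx hx' G hG => hIF x hx hx' G ((d7 G).1 ((hm0 G).1 hG))
  refine idealR hTRD hFLAG hn P hP d3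
    {x : Fin n → ℂ | (∀ _ : Fin 1, eval x F = 0) ∧ eval x g ≠ 0} I0 hm0
    (fun x hx G hG => hz0 x (hx.1 0) hx.2 G hG) ?_ hfib.2 ε ?_ c H hHP
  · obtain ⟨e, he⟩ := hfib.1
    exact ⟨fun b => e (Sum.inr b), fun a b hab => Sum.inr_injective (e.injective hab), he⟩
  · exact hgeo I0 hp0 (fun K hK => by
        obtain ⟨G, h1, h2, h3⟩ := hId K hK
        exact ⟨G, (hm0 G).2 h1, h2, h3⟩) hz0

/-- the theorem for real forms with dense real zeros -/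
theorem geReal {n s : ℕ} (hn : n = s + 1) (hs : 1 ≤ s)
    (P : Ideal (MvPolynomial (Fin n ⊕ Fin n) ℂ)) (V : Set (Fin n ⊕ Fin n → ℂ)) (hP : P.IsPrime)
    (hV : V = {p | (∀ f ∈ P, eval p f = 0) ∧ ∀ j : Fin n, p (Sum.inr j) ≠ 0})
    (hne : V.Nonempty)
    (hX1 : ∃ K : Finset (Fin n), K.card = s ∧ ∀ G : MvPolynomial (Fin n) ℂ, G.vars ⊆ K →
      (∀ u ∈ V, eval (fun i => u (Sum.inl i)) G = 0) → G = 0)
    (hX2 : ∀ K : Finset (Fin n), K.card = s + 1 → ¬ ∀ G : MvPolynomial (Fin n) ℂ, G.vars ⊆ K →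
      (∀ u ∈ V, eval (fun i => u (Sum.inl i)) G = 0) → G = 0)
    (hd : ∃ K : Finset (Fin n ⊕ Fin n), K.card = n ∧ Indep V K)
    (F g q u : MvPolynomial (Fin n) ℂ)
    (hIF : ∀ x : Fin n → ℂ, eval x F = 0 → eval x g ≠ 0 →
      ∀ G : MvPolynomial (Fin n) ℂ, (∀ u ∈ V, eval (fun i => u (Sum.inl i)) G = 0) →
        eval x G = 0)
    (hF : top F = q * u) (hirr : Irreducible q) (hqu : ¬ q ∣ u) (hqg : ¬ q ∣ top g)
    (hv : ∀ v : Fin n → ℚ, v ≠ 0 → dd (fun i => (v i : ℂ)) q ≠ 0)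
    (hden : ∀ G : MvPolynomial (Fin n) ℂ, ¬ q ∣ G → ∃ x : Fin n → ℝ,
      eval (fun i => (x i : ℂ)) q = 0 ∧ eval (fun i => (x i : ℂ)) G ≠ 0)
    (c : Fin n ⊕ Fin n → ℂ) (hc : ∀ i, c (Sum.inr i) ≠ 0)
    (H : MvPolynomial (Fin n ⊕ Fin n) ℂ)
    (hHV : ∃ u ∈ V, eval (Sum.elim (fun i => u (Sum.inl i) + c (Sum.inl i))
      (fun i => c (Sum.inr i) * u (Sum.inr i))) H ≠ 0) :
    ∃ z : Fin n → ℂ, (∃ u ∈ V, (Sum.elim z fun i => Complex.exp (z i) :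
      Fin n ⊕ Fin n → ℂ) = Sum.elim (fun i => u (Sum.inl i) + c (Sum.inl i))
        (fun i => c (Sum.inr i) * u (Sum.inr i))) ∧
      eval (Sum.elim z fun i => Complex.exp (z i)) H ≠ 0 := by
  classical
  -- the form is real up to a constant
  have hcj : q ∣ cj q := by
    by_contra hcon
    obtain ⟨x, hx, hx'⟩ := hden _ hcon
    apply hx'
    rw [eval_cj]
    simp only [Complex.conj_ofReal]
    rw [hx, map_zero]
  obtain ⟨a, p, hqp⟩ := real_of_dvd_cj q hirr.ne_zero hcj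
  have ha : a ≠ 0 := by
    rintro rfl
    apply hirr.ne_zero
    rw [hqp, map_zero, zero_mul]
  obtain ⟨q', hq'⟩ : ∃ q' : MvPolynomial (Fin n) ℂ, q' = MvPolynomial.map (algebraMap ℝ ℂ) p :=
    ⟨_, rfl⟩
  have hassoc : Associated q' q := by
    rw [hqp, ← hq', mul_comm]
    exact (associated_mul_unit_right q' (C a) (IsUnit.map C (isUnit_iff_ne_zero.2 ha)))
  have hirr' : Irreducible q' := hassoc.irreducible_iff.2 hirr
  have hdv : ∀ G : MvPolynomial (Fin n) ℂ, q' ∣ G ↔ q ∣ G := fun G => hassoc.dvd_iff_dvd_left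
  obtain ⟨H', hH'⟩ := pullback c H
  obtain ⟨u', hu, huH⟩ := hHV
  rw [← hH'] at huH
  obtain ⟨L', T, hL', hLT, hTc, hT⟩ := exists_T hn P V hP hV hne hX2 hX1 hd
  obtain ⟨P', V', h1, h2, h3, ⟨v, hv', hvH⟩, h5, h6, h7⟩ := reduceT hn P V hP hV hne hX2 L' hL' T
    hLT hTc hT H' ⟨u', hu, huH⟩
  obtain ⟨K₁, hK₁, hK₂⟩ := hX1
  obtain ⟨z, ⟨u'', hu', hz⟩, hzH⟩ := mainR
    Pool.Agent.K3h86.E8.t_TRD8 (Pool.Agent.K3h58.ET.t_FLAG Pool.Agent.K3h49.ET.t_VAL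
      Pool.Agent.K3h35.ET.t_TRM) hn P' V' h1 h2 ⟨v, hv'⟩ ⟨_, hTc, h5⟩ h6
    ⟨K₁, hK₁, fun G hG hGV => hK₂ G hG ((h7 G).1 hGV)⟩
    (fun K hK hcon => hX2 K hK fun G hG hGV => hcon G hG ((h7 G).2 hGV)) F g
    (fun x hx hxg G hG => hIF x hx hxg G ((h7 G).1 hG)) (finCongr hn.symm)
    (fun I hI hId hIF => geoR_hyp hn hs F g (C a * u) p q' hq' (by
        rw [hF, hqp, ← hq']
        ring) hirr' (by
        rw [hdv]
        intro h
        rcases hirr.prime.dvd_or_dvd h with h | h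
        · exact hirr.not_isUnit (isUnit_of_dvd_unit h (IsUnit.map C (isUnit_iff_ne_zero.2 ha)))
        · exact hqu h) (by rw [hdv]; exact hqg) (fun v hv0 h0 => by
        apply hv v hv0
        rw [hqp, ← hq', dd_mul, h0, mul_zero, zero_add]
        have : dd (fun i => (v i : ℂ)) (C a : MvPolynomial (Fin n) ℂ) = 0 := by
          unfold dd
          exact Finset.sum_eq_zero fun i _ => by rw [pderiv_C, mul_zero]
        rw [this, mul_zero]) (fun G hG => by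
        rw [hdv] at hG
        obtain ⟨x, hx, hx'⟩ := hden G hG
        refine ⟨x, ?_, hx'⟩
        rw [hqp, map_mul, eval_C, ← hq'] at hx
        exact (mul_eq_zero.1 hx).resolve_left ha) I hI hId hIF (finCongr hn.symm)) c hc H
    ⟨v, hv', by rw [← hH']; exact hvH⟩
  exact ⟨z, ⟨u'', h3 hu', hz⟩, hzH⟩

/-- **the theorem for hypersurfaces** -/
theorem geAll {n s : ℕ} (hn : n = s + 1) (hs : 1 ≤ s)
    (P : Ideal (MvPolynomial (Fin n ⊕ Fin n) ℂ)) (V : Set (Fin n ⊕ Fin n → ℂ)) (hP : P.IsPrime)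
    (hV : V = {p | (∀ f ∈ P, eval p f = 0) ∧ ∀ j : Fin n, p (Sum.inr j) ≠ 0})
    (hne : V.Nonempty)
    (hX1 : ∃ K : Finset (Fin n), K.card = s ∧ ∀ G : MvPolynomial (Fin n) ℂ, G.vars ⊆ K →
      (∀ u ∈ V, eval (fun i => u (Sum.inl i)) G = 0) → G = 0)
    (hX2 : ∀ K : Finset (Fin n), K.card = s + 1 → ¬ ∀ G : MvPolynomial (Fin n) ℂ, G.vars ⊆ K →
      (∀ u ∈ V, eval (fun i => u (Sum.inl i)) G = 0) → G = 0)
    (hd : ∃ K : Finset (Fin n ⊕ Fin n), K.card = n ∧ Indep V K)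
    (F g q u : MvPolynomial (Fin n) ℂ)
    (hIF : ∀ x : Fin n → ℂ, eval x F = 0 → eval x g ≠ 0 →
      ∀ G : MvPolynomial (Fin n) ℂ, (∀ u ∈ V, eval (fun i => u (Sum.inl i)) G = 0) →
        eval x G = 0)
    (hF : top F = q * u) (hirr : Irreducible q) (hqu : ¬ q ∣ u) (hqg : ¬ q ∣ top g)
    (hv : ∀ v : Fin n → ℚ, v ≠ 0 → dd (fun i => (v i : ℂ)) q ≠ 0)
    (c : Fin n ⊕ Fin n → ℂ) (hc : ∀ i, c (Sum.inr i) ≠ 0)
    (H : MvPolynomial (Fin n ⊕ Fin n) ℂ)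
    (hHV : ∃ u ∈ V, eval (Sum.elim (fun i => u (Sum.inl i) + c (Sum.inl i))
      (fun i => c (Sum.inr i) * u (Sum.inr i))) H ≠ 0) :
    ∃ z : Fin n → ℂ, (∃ u ∈ V, (Sum.elim z fun i => Complex.exp (z i) :
      Fin n ⊕ Fin n → ℂ) = Sum.elim (fun i => u (Sum.inl i) + c (Sum.inl i))
        (fun i => c (Sum.inr i) * u (Sum.inr i))) ∧
      eval (Sum.elim z fun i => Complex.exp (z i)) H ≠ 0 := by
  classical
  by_cases hden : ∀ G : MvPolynomial (Fin n) ℂ, ¬ q ∣ G → ∃ x : Fin n → ℝ,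
      eval (fun i => (x i : ℂ)) q = 0 ∧ eval (fun i => (x i : ℂ)) G ≠ 0
  · exact geReal hn hs P V hP hV hne hX1 hX2 hd F g q u hIF hF hirr hqu hqg hv hden c hc H hHV
  · push Not at hden
    obtain ⟨G, hG, hre⟩ := hden
    have hFh : (top F).IsHomogeneous F.totalDegree := homogeneousComponent_isHomogeneous _ _
    have hF0 : top F ≠ 0 := by
      intro h0
      rw [hF] at h0
      rcases mul_eq_zero.1 h0 with h1 | h1
      · exact hirr.ne_zero h1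
      · exact hqu (by rw [h1]; exact dvd_zero _)
    have hqh : q.IsHomogeneous q.totalDegree := homog_of_dvd hFh hF0 ⟨u, hF⟩
    exact geHyp hn hs P V hP hV hne hX1 hX2 hd F g q u hIF hF hirr hqu hqg
      (nz_of q hqh hirr hv G hG hre) c hc H hHV

end Pool.Agent.Run7.h490.RR
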