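import Mathlib

/-! Real regime: strips which avoid the roots, lower bounds of polynomials. -/

set_option autoImplicit false

namespace Pool.Agent.Run7.h490.RR

open Polynomial

/-- at most `D` points of the unit circle are avoided by some point -/
theorem circ (D : ℕ) : ∃ δ : ℝ, 0 < δ ∧ δ ≤ 1 ∧ ∀ S : Finset ℂ, S.card ≤ D →
    ∃ θ : ℝ, ∀ a ∈ S, δ ≤ ‖Complex.exp (θ * Complex.I) - a‖ := by
  classical
  obtain ⟨p, hp⟩ : ∃ p : Fin (D + 1) → ℂ,
    p = fun k : Fin (D + 1) => Complex.exp (((((k : ℕ) : ℝ) / (D + 1) : ℝ) : ℂ) * Complex.I) := ⟨_, rfl⟩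
  have hinj : ∀ k k', k ≠ k' → p k ≠ p k' := by
    intro k k' hne h
    apply hne
    rw [hp] at h
    have hD : (0 : ℝ) < D + 1 := by positivity
    have h3 : ∀ k : Fin (D + 1), 0 ≤ ((k : ℕ) : ℝ) / (D + 1) ∧ ((k : ℕ) : ℝ) / (D + 1) ≤ 1 := by
      intro k
      refine ⟨by positivity, ?_⟩
      rw [div_le_one hD]
      have : ((k : ℕ) : ℝ) ≤ D := by exact_mod_cast Nat.lt_succ_iff.1 k.2
      linarith
    have h4 := Real.pi_gt_three
    have h5 : (((((k : ℕ) : ℝ) / (D + 1) : ℝ) : ℂ) * Complex.I) =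
        (((((k' : ℕ) : ℝ) / (D + 1) : ℝ) : ℂ) * Complex.I) := by
      apply Complex.exp_inj_of_neg_pi_lt_of_le_pi _ _ _ _ h
      · rw [Complex.im_ofReal_mul]
        simp only [Complex.I_im, mul_one]
        linarith [(h3 k).1]
      · rw [Complex.im_ofReal_mul]
        simp only [Complex.I_im, mul_one]
        linarith [(h3 k).2]
      · rw [Complex.im_ofReal_mul]
        simp only [Complex.I_im, mul_one]
        linarith [(h3 k').1]
      · rw [Complex.im_ofReal_mul]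
        simp only [Complex.I_im, mul_one]
        linarith [(h3 k').2]
    have h6 := mul_right_cancel₀ Complex.I_ne_zero h5
    have h7 : ((k : ℕ) : ℝ) / (D + 1) = ((k' : ℕ) : ℝ) / (D + 1) := by exact_mod_cast h6
    have h8 : ((k : ℕ) : ℝ) = ((k' : ℕ) : ℝ) := by
      field_simp at h7
      exact h7
    exact Fin.ext (by exact_mod_cast h8)
  obtain ⟨δ, hδ, hδp⟩ : ∃ δ : ℝ, 0 < δ ∧ ∀ k k', k ≠ k' → 2 * δ ≤ ‖p k - p k'‖ := by
    have hfin : ∃ δ : ℝ, 0 < δ ∧ ∀ x ∈ (Finset.univ : Finset (Fin (D + 1) × Fin (D + 1))),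
        x.1 ≠ x.2 → 2 * δ ≤ ‖p x.1 - p x.2‖ := by
      induction (Finset.univ : Finset (Fin (D + 1) × Fin (D + 1))) using Finset.induction_on with
      | empty => exact ⟨1, one_pos, fun x hx => absurd hx (Finset.notMem_empty x)⟩
      | insert x T _ ih =>
        obtain ⟨δ, h1, h2⟩ := ih
        by_cases hx : x.1 = x.2
        · refine ⟨δ, h1, fun y hy hne => ?_⟩
          rcases Finset.mem_insert.1 hy with rfl | hy
          · exact absurd hx hne
          · exact h2 y hy hne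
        · have h3 : 0 < ‖p x.1 - p x.2‖ := norm_pos_iff.2 (sub_ne_zero.2 (hinj _ _ hx))
          refine ⟨min δ (‖p x.1 - p x.2‖ / 2), lt_min h1 (by positivity), fun y hy hne => ?_⟩
          rcases Finset.mem_insert.1 hy with rfl | hy
          · linarith [min_le_right δ (‖p y.1 - p y.2‖ / 2)]
          · linarith [min_le_left δ (‖p x.1 - p x.2‖ / 2), h2 y hy hne]
    obtain ⟨δ, h1, h2⟩ := hfin
    exact ⟨δ, h1, fun k k' h => h2 (k, k') (Finset.mem_univ _) h⟩
  refine ⟨min δ 1, lt_min hδ one_pos, min_le_right _ _, fun S hS => ?_⟩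
  by_contra hcon
  push Not at hcon
  have h1 : ∀ k : Fin (D + 1), ∃ a ∈ S, ‖p k - a‖ < δ := by
    intro k
    obtain ⟨a, ha, h⟩ := hcon (((k : ℕ) : ℝ) / (D + 1))
    refine ⟨a, ha, ?_⟩
    rw [hp]
    exact lt_of_lt_of_le h (min_le_left _ _)
  choose a ha hpa using h1
  obtain ⟨k, -, k', -, hne, hkk⟩ := Finset.exists_ne_map_eq_of_card_lt_of_maps_to
    (s := (Finset.univ : Finset (Fin (D + 1)))) (t := S) (by
      rw [Finset.card_univ, Fintype.card_fin]
      omega) (f := a) (fun k _ => ha k)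
  have h2 := hδp k k' hne
  have h3 := hpa k
  have h4 := hpa k'
  rw [← hkk] at h4
  have h5 : ‖p k - p k'‖ ≤ ‖p k - a k‖ + ‖p k' - a k‖ := by
    rw [norm_sub_rev (p k') (a k)]
    calc ‖p k - p k'‖ = ‖(p k - a k) + (a k - p k')‖ := by congr 1; ring
      _ ≤ _ := norm_add_le _ _
  linarith

/-- points with different arguments -/
theorem sep (p a : ℂ) (hp : ‖p‖ = 1) (ha : ‖a‖ = 1) (δ r s : ℝ) (hδ : δ ≤ ‖p - a‖)
    (hr : 0 ≤ r) (hs : 0 ≤ s) : (r + s) * δ / 8 ≤ ‖(r : ℂ) * p - (s : ℂ) * a‖ := by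
  have hδ2 : ‖p - a‖ ≤ 2 := by
    calc ‖p - a‖ ≤ ‖p‖ + ‖a‖ := norm_sub_le _ _
      _ = 2 := by rw [hp, ha]; norm_num
  have key : ∀ (p a : ℂ) (r s : ℝ), ‖p‖ = 1 → ‖a‖ = 1 → δ ≤ ‖p - a‖ → 0 ≤ r → 0 ≤ s → s ≤ r →
      (r + s) * δ / 8 ≤ ‖(r : ℂ) * p - (s : ℂ) * a‖ := by
    intro p a r s hp ha hδ hr hs hsr
    have h2 : ‖p - a‖ ≤ 2 := by
      calc ‖p - a‖ ≤ ‖p‖ + ‖a‖ := norm_sub_le _ _
        _ = 2 := by rw [hp, ha]; norm_num
    have h1 : r - s ≤ ‖(r : ℂ) * p - (s : ℂ) * a‖ := by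
      have h3 := norm_sub_norm_le ((r : ℂ) * p) ((s : ℂ) * a)
      rw [norm_mul, norm_mul, hp, ha, mul_one, mul_one, Complex.norm_real, Complex.norm_real,
        Real.norm_eq_abs, Real.norm_eq_abs, abs_of_nonneg hr, abs_of_nonneg hs] at h3
      exact h3
    have h4 : s * ‖p - a‖ - (r - s) ≤ ‖(r : ℂ) * p - (s : ℂ) * a‖ := by
      have h3 := norm_sub_norm_le ((s : ℂ) * (p - a)) (-(((r - s : ℝ) : ℂ) * p))
      rw [norm_neg, norm_mul, norm_mul, hp, mul_one, Complex.norm_real, Complex.norm_real,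
        Real.norm_eq_abs, Real.norm_eq_abs, abs_of_nonneg hs,
        abs_of_nonneg (sub_nonneg.2 hsr)] at h3
      have e : (s : ℂ) * (p - a) - -(((r - s : ℝ) : ℂ) * p) = (r : ℂ) * p - (s : ℂ) * a := by
        push_cast
        ring
      rw [e] at h3
      exact h3
    have h5 : s * δ ≤ s * ‖p - a‖ := mul_le_mul_of_nonneg_left hδ hs
    rcases le_total ((r + s) * δ / 8) (r - s) with h6 | h6
    · linarith
    · rcases le_total δ 0 with h7 | h7
      · have : (r + s) * δ / 8 ≤ 0 := by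
          have := mul_nonpos_of_nonneg_of_nonpos (add_nonneg hr hs) h7
          linarith
        exact this.trans (norm_nonneg _)
      · have h8 : δ ≤ 2 := hδ.trans h2
        have h9 : (r + s) * δ ≤ (r + s) * 2 := mul_le_mul_of_nonneg_left h8 (add_nonneg hr hs)
        have h10 : 3 / 8 * (r + s) ≤ s := by linarith
        nlinarith [mul_nonneg (sub_nonneg.2 h10) h7]
  rcases le_total s r with h | h
  · exact key p a r s hp ha hδ hr hs h
  · have := key a p s r ha hp (by rw [norm_sub_rev]; exact hδ) hs hr h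
    rw [norm_sub_rev, add_comm]
    exact this

/-- a strip which avoids finitely many points -/
theorem strip (D : ℕ) : ∃ ρ c : ℝ, 0 < ρ ∧ 0 < c ∧ c ≤ 1 ∧ ∀ S : Finset ℂ, S.card ≤ D →
    ∃ θ : ℝ, ∀ β ∈ S, ∀ ζ : ℂ, |ζ.im - θ| < ρ →
      c * (‖Complex.exp ζ‖ + ‖β‖) ≤ ‖Complex.exp ζ - β‖ := by
  classical
  obtain ⟨δ, hδ, hδ1, h⟩ := circ D
  refine ⟨δ / 2, δ / 16, by positivity, by positivity, by linarith, fun S hS => ?_⟩
  obtain ⟨θ, hθ⟩ := h (S.image fun β => β / (‖β‖ : ℂ)) (Finset.card_image_le.trans hS)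
  refine ⟨θ, fun β hβ ζ hζ => ?_⟩
  by_cases hβ0 : β = 0
  · rw [hβ0, norm_zero, add_zero, sub_zero]
    nlinarith [norm_nonneg (Complex.exp ζ)]
  have hb : 0 < ‖β‖ := norm_pos_iff.2 hβ0
  have hbc : (‖β‖ : ℂ) ≠ 0 := by exact_mod_cast hb.ne'
  have h1 := hθ _ (Finset.mem_image_of_mem _ hβ)
  have h2 : ‖Complex.exp (ζ.im * Complex.I) - Complex.exp (θ * Complex.I)‖ ≤ |ζ.im - θ| := by
    have e1 : Complex.exp (ζ.im * Complex.I) - Complex.exp (θ * Complex.I) =
        Complex.exp (θ * Complex.I) * (Complex.exp (Complex.I * ((ζ.im - θ : ℝ) : ℂ)) - 1) := by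
      rw [mul_sub, ← Complex.exp_add, mul_one]
      congr 2
      push_cast
      ring
    rw [e1, norm_mul, Complex.norm_exp_ofReal_mul_I, one_mul]
    exact Real.norm_exp_I_mul_ofReal_sub_one_le
  have h3 : δ / 2 ≤ ‖Complex.exp (ζ.im * Complex.I) - β / (‖β‖ : ℂ)‖ := by
    have h4 : ‖Complex.exp (θ * Complex.I) - β / (‖β‖ : ℂ)‖ ≤
        ‖Complex.exp (ζ.im * Complex.I) - Complex.exp (θ * Complex.I)‖ +
        ‖Complex.exp (ζ.im * Complex.I) - β / (‖β‖ : ℂ)‖ := by
      rw [norm_sub_rev (Complex.exp (ζ.im * Complex.I)) (Complex.exp (θ * Complex.I))]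
      calc _ = ‖(Complex.exp (θ * Complex.I) - Complex.exp (ζ.im * Complex.I)) +
            (Complex.exp (ζ.im * Complex.I) - β / (‖β‖ : ℂ))‖ := by congr 1; ring
        _ ≤ _ := norm_add_le _ _
    linarith
  have h5 := sep (Complex.exp (ζ.im * Complex.I)) (β / (‖β‖ : ℂ))
    (Complex.norm_exp_ofReal_mul_I _) (by
      rw [norm_div, Complex.norm_real, norm_norm, div_self hb.ne']) (δ / 2)
    (Real.exp ζ.re) ‖β‖ h3 (Real.exp_pos _).le hb.le
  have e2 : (Real.exp ζ.re : ℂ) * Complex.exp (ζ.im * Complex.I) = Complex.exp ζ := by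
    rw [Complex.ofReal_exp, ← Complex.exp_add, Complex.re_add_im]
  have e3 : (‖β‖ : ℂ) * (β / (‖β‖ : ℂ)) = β := by
    field_simp
  rw [e2, e3] at h5
  rw [Complex.norm_exp]
  linarith

/-- the size of a product of linear factors -/
theorem norm_prod_le (y : ℝ) (hy : 0 ≤ y) (s : Multiset ℂ) (M : ℕ) :
    ∑ k ∈ Finset.range M, ‖(s.map fun a => X - C a).prod.coeff k‖ * y ^ k ≤
      (s.map fun a => y + ‖a‖).prod := by
  induction s using Multiset.induction_on generalizing M with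
  | empty =>
    simp only [Multiset.map_zero, Multiset.prod_zero]
    rcases M with _ | M
    · simp
    · rw [Finset.sum_range_succ']
      simp [Polynomial.coeff_one]
  | cons a s ih =>
    rw [Multiset.map_cons, Multiset.prod_cons, Multiset.map_cons, Multiset.prod_cons]
    obtain ⟨q, hq⟩ : ∃ q, q = (s.map fun a => X - C a).prod := ⟨_, rfl⟩
    rw [← hq] at ih ⊢
    have h1 : ∑ k ∈ Finset.range M, ‖((X - C a) * q).coeff k‖ * y ^ k ≤
        ∑ k ∈ Finset.range M, ‖(X * q).coeff k‖ * y ^ k +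
        ∑ k ∈ Finset.range M, ‖a‖ * (‖q.coeff k‖ * y ^ k) := by
      rw [← Finset.sum_add_distrib]
      refine Finset.sum_le_sum fun k _ => ?_
      rw [sub_mul, coeff_sub, coeff_C_mul]
      have h2 : ‖(X * q).coeff k - a * q.coeff k‖ ≤ ‖(X * q).coeff k‖ + ‖a‖ * ‖q.coeff k‖ := by
        rw [← norm_mul]
        exact norm_sub_le _ _
      have := mul_le_mul_of_nonneg_right h2 (pow_nonneg hy k)
      linarith
    have h2 : ∑ k ∈ Finset.range M, ‖(X * q).coeff k‖ * y ^ k ≤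
        y * (s.map fun a => y + ‖a‖).prod := by
      rcases M with _ | M
      · have h3 := ih 0
        simp only [Finset.range_zero, Finset.sum_empty] at h3 ⊢
        exact mul_nonneg hy h3
      · rw [Finset.sum_range_succ']
        simp only [mul_coeff_zero, coeff_X_zero, zero_mul, norm_zero, add_zero, coeff_X_mul]
        have h3 := mul_le_mul_of_nonneg_left (ih M) hy
        rw [Finset.mul_sum] at h3
        refine (Finset.sum_le_sum fun k _ => ?_).trans h3
        rw [pow_succ]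
        exact le_of_eq (by ring)
    have h3 : ∑ k ∈ Finset.range M, ‖a‖ * (‖q.coeff k‖ * y ^ k) ≤
        ‖a‖ * (s.map fun a => y + ‖a‖).prod := by
      rw [← Finset.mul_sum]
      exact mul_le_mul_of_nonneg_left (ih M) (norm_nonneg _)
    linarith

/-- a lower bound off the roots -/
theorem rootsep (p : ℂ[X]) (Y : ℂ) (c : ℝ) (hc : 0 ≤ c)
    (h : ∀ β ∈ p.roots, c * (‖Y‖ + ‖β‖) ≤ ‖Y - β‖) (M : ℕ) :
    c ^ p.natDegree * ∑ k ∈ Finset.range M, ‖p.coeff k‖ * ‖Y‖ ^ k ≤ ‖p.eval Y‖ := by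
  have hsp : p.Splits := IsAlgClosed.splits p
  have h1 : p = C p.leadingCoeff * (p.roots.map fun a => X - C a).prod :=
    hsp.eq_prod_roots
  have hcard : p.roots.card = p.natDegree := hsp.natDegree_eq_card_roots.symm
  have h2 : ∑ k ∈ Finset.range M, ‖p.coeff k‖ * ‖Y‖ ^ k ≤
      ‖p.leadingCoeff‖ * (p.roots.map fun a => ‖Y‖ + ‖a‖).prod := by
    have h3 := mul_le_mul_of_nonneg_left (norm_prod_le ‖Y‖ (norm_nonneg _) p.roots M)
      (norm_nonneg p.leadingCoeff)
    rw [Finset.mul_sum] at h3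
    refine (Finset.sum_le_sum fun k _ => ?_).trans h3
    conv_lhs => rw [h1]
    rw [coeff_C_mul, norm_mul]
    exact le_of_eq (by ring)
  have h4 : ∀ s : Multiset ℂ, (∀ β ∈ s, c * (‖Y‖ + ‖β‖) ≤ ‖Y - β‖) →
      c ^ s.card * (s.map fun a => ‖Y‖ + ‖a‖).prod ≤
        ‖((s.map fun a => X - C a).prod : ℂ[X]).eval Y‖ := by
    intro s
    induction s using Multiset.induction_on with
    | empty => intro _; simp
    | cons a s ih =>
      intro hs
      have h5 := ih fun β hβ => hs β (Multiset.mem_cons_of_mem hβ)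
      have h6 := hs a (Multiset.mem_cons_self a s)
      rw [Multiset.card_cons, Multiset.map_cons, Multiset.prod_cons, Multiset.map_cons,
        Multiset.prod_cons, eval_mul, norm_mul, pow_succ]
      have h7 : 0 ≤ (s.map fun a => ‖Y‖ + ‖a‖).prod := by
        apply Multiset.prod_nonneg
        intro x hx
        obtain ⟨a, -, rfl⟩ := Multiset.mem_map.1 hx
        positivity
      have h8 := mul_le_mul h6 h5 (by positivity) (norm_nonneg _)
      rw [eval_sub, eval_X, eval_C]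
      calc _ = c * (‖Y‖ + ‖a‖) * (c ^ s.card * (s.map fun a => ‖Y‖ + ‖a‖).prod) := by ring
        _ ≤ _ := h8
  have h5 := h4 p.roots h
  rw [hcard] at h5
  have h6 : ‖p.eval Y‖ = ‖p.leadingCoeff‖ *
      ‖((p.roots.map fun a => X - C a).prod : ℂ[X]).eval Y‖ := by
    conv_lhs => rw [h1]
    rw [eval_mul, eval_C, norm_mul]
  rw [h6]
  calc _ ≤ c ^ p.natDegree * (‖p.leadingCoeff‖ * (p.roots.map fun a => ‖Y‖ + ‖a‖).prod) :=
        mul_le_mul_of_nonneg_left h2 (pow_nonneg hc _)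
    _ = ‖p.leadingCoeff‖ * (c ^ p.natDegree * (p.roots.map fun a => ‖Y‖ + ‖a‖).prod) := by ring
    _ ≤ _ := mul_le_mul_of_nonneg_left h5 (norm_nonneg _)

end Pool.Agent.Run7.h490.RR
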