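import Pool.Agent.Helper114.MontelSol

/-! Real regime: points with `|h| = 1` and a large derivative. -/

set_option autoImplicit false

namespace Pool.Agent.Run7.h490.RR

open Set Filter Topology Metric

/-- the rectangle -/
def Rect (M ρ : ℝ) : Set ℂ := {z | -1 < z.re ∧ z.re < M + 1 ∧ |z.im| < ρ}

theorem rect_open (M ρ : ℝ) : IsOpen (Rect M ρ) :=
  (isOpen_lt continuous_const Complex.continuous_re).inter
    ((isOpen_lt Complex.continuous_re continuous_const).inter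
      (isOpen_lt Complex.continuous_im.abs continuous_const))

theorem rect_convex (M ρ : ℝ) : Convex ℝ (Rect M ρ) := by
  have h : Rect M ρ = {z : ℂ | -1 < z.re} ∩ ({z : ℂ | z.re < M + 1} ∩
      ({z : ℂ | -ρ < z.im} ∩ {z : ℂ | z.im < ρ})) := by
    ext z
    simp only [Rect, mem_ofPred_eq, mem_inter_iff, abs_lt]
  rw [h]
  have hre : IsLinearMap ℝ Complex.re := Complex.reLm.isLinear
  have him : IsLinearMap ℝ Complex.im := Complex.imLm.isLinear
  exact (convex_halfSpace_gt hre _).inter ((convex_halfSpace_lt hre _).inter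
    ((convex_halfSpace_gt him _).inter (convex_halfSpace_lt him _)))

theorem open2 (ρ M B r : ℝ) (hρ : 0 < ρ) (hM : 0 ≤ M) (hr : 0 < r) :
    ∃ κ : ℝ, 0 < κ ∧ ∀ h : ℂ → ℂ, DifferentiableOn ℂ h (Rect M ρ) →
      (∀ z ∈ Rect M ρ, ‖h z‖ ≤ B) → ‖h 0‖ = 1 →
      ‖h (M : ℂ)‖ ≤ 1 / 2 → ∃ z ∈ Rect M ρ, ‖z‖ < r ∧ ‖h z‖ = 1 ∧ κ ≤ ‖deriv h z‖ := by
  by_contra hcon
  push Not at hcon
  have h0W : (0 : ℂ) ∈ Rect M ρ := by
    refine ⟨by simp, by simp; linarith, by simpa using hρ⟩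
  have hMW : (M : ℂ) ∈ Rect M ρ := by
    refine ⟨by simp; linarith, by simp, by simpa using hρ⟩
  have hk : ∀ k : ℕ, (0 : ℝ) < 1 / ((k : ℝ) + 1) := fun k => by positivity
  choose h hd hb h0 hM' hz using fun k : ℕ => hcon (1 / ((k : ℝ) + 1)) (hk k)
  obtain ⟨Φ, hΦ, hlim⟩ := Pool.Agent.Helper114.Montel.montel (rect_open M ρ) h hd B hb
    (hyperfilter ℕ)
  have hU : (hyperfilter ℕ : Filter ℕ) ≤ atTop := by
    rw [← Nat.cofinite_eq_atTop]
    exact hyperfilter_le_cofinite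
  have hpt : ∀ z ∈ Rect M ρ, Tendsto (fun k => h k z) (hyperfilter ℕ : Filter ℕ) (𝓝 (Φ z)) :=
    fun z hz => hlim.tendsto_at hz
  have hpn : ∀ z ∈ Rect M ρ, Tendsto (fun k => ‖h k z‖) (hyperfilter ℕ : Filter ℕ) (𝓝 ‖Φ z‖) :=
    fun z hz => (hpt z hz).norm
  have e0 : ‖Φ 0‖ = 1 := by
    refine tendsto_nhds_unique (hpn 0 h0W) ?_
    simp only [h0]
    exact tendsto_const_nhds
  have eM : ‖Φ (M : ℂ)‖ ≤ 1 / 2 := le_of_tendsto (hpn _ hMW) (Eventually.of_forall hM')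
  have han : AnalyticOnNhd ℂ Φ (Rect M ρ) := hΦ.analyticOnNhd (rect_open M ρ)
  have hnc : ¬ ∀ᶠ z in 𝓝 (0 : ℂ), Φ z = Φ 0 := by
    intro hev
    have h1 := han.eqOn_of_preconnected_of_eventuallyEq
      (analyticOnNhd_const (v := Φ 0)) (rect_convex M ρ).isPreconnected h0W hev
    have h2 := h1 hMW
    simp only at h2
    rw [h2, e0] at eM
    norm_num at eM
  -- a ball without zeros of the derivative, except `0`
  have hder := (han 0 h0W).deriv.eventually_eq_zero_or_eventually_ne_zero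
  obtain ⟨δ, hδ, hδr, hδW, hδd⟩ : ∃ δ : ℝ, 0 < δ ∧ δ ≤ r ∧ ball (0 : ℂ) δ ⊆ Rect M ρ ∧
      ∀ z ∈ ball (0 : ℂ) δ, z ≠ 0 → deriv Φ z ≠ 0 := by
    obtain ⟨δ₁, hδ₁, hb₁⟩ := Metric.isOpen_iff.1 (rect_open M ρ) 0 h0W
    rcases hder with h1 | h1
    · exfalso
      obtain ⟨δ₂, hδ₂, hb₂⟩ := Metric.eventually_nhds_iff_ball.1 h1
      apply hnc
      have hm : 0 < min δ₁ δ₂ := lt_min hδ₁ hδ₂
      filter_upwards [ball_mem_nhds (0 : ℂ) hm] with z hz
      have h3 : ∀ x ∈ ball (0 : ℂ) (min δ₁ δ₂), DifferentiableAt ℂ Φ x := fun x hx =>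
        (han x (hb₁ (ball_subset_ball (min_le_left _ _) hx))).differentiableAt
      have h4 := (convex_ball (0 : ℂ) (min δ₁ δ₂)).norm_image_sub_le_of_norm_deriv_le
        (C := 0) h3 (fun x hx => by
          rw [hb₂ x (ball_subset_ball (min_le_right _ _) hx), norm_zero])
        (mem_ball_self hm) hz
      rw [zero_mul] at h4
      exact sub_eq_zero.1 (norm_le_zero_iff.1 h4)
    · rw [eventually_nhdsWithin_iff] at h1
      obtain ⟨δ₂, hδ₂, hb₂⟩ := Metric.eventually_nhds_iff_ball.1 h1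
      refine ⟨min r (min δ₁ δ₂), lt_min hr (lt_min hδ₁ hδ₂), min_le_left _ _,
        (ball_subset_ball ((min_le_right _ _).trans (min_le_left _ _))).trans hb₁,
        fun z hz hne => hb₂ z (ball_subset_ball ((min_le_right _ _).trans (min_le_right _ _)) hz)
          hne⟩
  -- a point on the level set
  obtain ⟨z₁, hz₁b, hz₁n, hz₁0⟩ : ∃ z₁ ∈ ball (0 : ℂ) δ, ‖Φ z₁‖ = 1 ∧ z₁ ≠ 0 := by
    have h1 := (han 0 h0W).eventually_constant_or_nhds_le_map_nhds.resolve_left hnc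
    have h2 : Φ '' ball (0 : ℂ) δ ∈ 𝓝 (Φ 0) := h1 (image_mem_map (ball_mem_nhds _ hδ))
    have h3 : Tendsto (fun t : ℝ => Φ 0 * Complex.exp (t * Complex.I)) (𝓝 0) (𝓝 (Φ 0)) := by
      have : Continuous fun t : ℝ => Φ 0 * Complex.exp (t * Complex.I) := by fun_prop
      have h4 := this.tendsto 0
      simpa using h4
    obtain ⟨ε, hε, hεb⟩ := Metric.eventually_nhds_iff_ball.1 (h3.eventually h2)
    obtain ⟨t, ht⟩ : ∃ t : ℝ, t = min (ε / 2) 1 := ⟨_, rfl⟩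
    have ht0 : 0 < t := by rw [ht]; positivity
    have ht1 : t ≤ 1 := by rw [ht]; exact min_le_right _ _
    obtain ⟨z₁, hz₁, hz₁e⟩ := hεb t (by
      rw [mem_ball_zero_iff, Real.norm_eq_abs, abs_of_pos ht0, ht]
      exact lt_of_le_of_lt (min_le_left _ _) (by linarith))
    refine ⟨z₁, hz₁, ?_, ?_⟩
    · rw [hz₁e, norm_mul, e0, Complex.norm_exp_ofReal_mul_I, one_mul]
    · rintro rfl
      have h5 : Φ 0 ≠ 0 := by
        rw [← norm_pos_iff, e0]
        exact one_pos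
      have h6 : Complex.exp (t * Complex.I) = 1 := by
        have := hz₁e
        have h7 : Φ 0 * 1 = Φ 0 * Complex.exp (t * Complex.I) := by rw [mul_one]; exact this
        exact (mul_left_cancel₀ h5 h7).symm
      rw [Complex.exp_eq_one_iff] at h6
      obtain ⟨N, hN⟩ := h6
      have h8 := congrArg Complex.im hN
      simp at h8
      have h9 : t = N * (2 * Real.pi) := by simpa using h8
      have h10 := Real.pi_gt_three
      rcases lt_trichotomy N 0 with hN0 | hN0 | hN0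
      · have : (N : ℝ) ≤ -1 := by exact_mod_cast Int.le_sub_one_of_lt hN0
        nlinarith
      · rw [hN0] at h9
        simp at h9
        linarith
      · have : (1 : ℝ) ≤ N := by exact_mod_cast hN0
        nlinarith
  have hz₁W := hδW hz₁b
  have hd1 := hδd z₁ hz₁b hz₁0
  obtain ⟨κ, hκ⟩ : ∃ κ : ℝ, κ = ‖deriv Φ z₁‖ / 4 := ⟨_, rfl⟩
  have hκ0 : 0 < κ := by
    rw [hκ]
    have := norm_pos_iff.2 hd1
    positivity
  obtain ⟨δ₂, hδ₂, hδ₂b, hδ₂d⟩ : ∃ δ₂ : ℝ, 0 < δ₂ ∧ ball z₁ δ₂ ⊆ ball (0 : ℂ) δ ∧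
      ∀ z ∈ ball z₁ δ₂, 2 * κ ≤ ‖deriv Φ z‖ := by
    have h1 : Tendsto (fun z => ‖deriv Φ z‖) (𝓝 z₁) (𝓝 ‖deriv Φ z₁‖) :=
      (han z₁ hz₁W).deriv.continuousAt.norm.tendsto
    have h2 : ∀ᶠ z in 𝓝 z₁, 2 * κ < ‖deriv Φ z‖ := by
      refine h1.eventually (lt_mem_nhds ?_)
      linarith
    obtain ⟨ε, hε, h3⟩ := Metric.eventually_nhds_iff_ball.1
      (h2.and (isOpen_ball.mem_nhds hz₁b : ball (0 : ℂ) δ ∈ 𝓝 z₁))
    exact ⟨ε, hε, fun z hz => (h3 z hz).2, fun z hz => (h3 z hz).1.le⟩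
  -- two points
  obtain ⟨za, zb, hza, hzb, hna, hnb⟩ : ∃ za zb : ℂ, za ∈ ball z₁ δ₂ ∧ zb ∈ ball z₁ δ₂ ∧
      ‖Φ za‖ < 1 ∧ 1 < ‖Φ zb‖ := by
    have hnc1 : ¬ ∀ᶠ z in 𝓝 z₁, Φ z = Φ z₁ := by
      intro hev
      apply hd1
      have : Φ =ᶠ[𝓝 z₁] fun _ => Φ z₁ := hev
      rw [this.deriv_eq, deriv_const]
    have h1 := (han z₁ hz₁W).eventually_constant_or_nhds_le_map_nhds.resolve_left hnc1
    have h2 : Φ '' ball z₁ δ₂ ∈ 𝓝 (Φ z₁) := h1 (image_mem_map (ball_mem_nhds _ hδ₂))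
    have h3 : Tendsto (fun t : ℝ => ((1 + t : ℝ) : ℂ) * Φ z₁) (𝓝 0) (𝓝 (Φ z₁)) := by
      have : Continuous fun t : ℝ => ((1 + t : ℝ) : ℂ) * Φ z₁ := by fun_prop
      have h4 := this.tendsto 0
      simpa using h4
    obtain ⟨ε, hε, hεb⟩ := Metric.eventually_nhds_iff_ball.1 (h3.eventually h2)
    obtain ⟨t, ht⟩ : ∃ t : ℝ, t = min (ε / 2) (1 / 2) := ⟨_, rfl⟩
    have ht0 : 0 < t := by rw [ht]; positivity
    have ht1 : t ≤ 1 / 2 := by rw [ht]; exact min_le_right _ _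
    have ht2 : t < ε := by
      rw [ht]
      exact lt_of_le_of_lt (min_le_left _ _) (by linarith)
    obtain ⟨zb, hzb, hzbe⟩ := hεb t (by
      rw [mem_ball_zero_iff, Real.norm_eq_abs, abs_of_pos ht0]
      exact ht2)
    obtain ⟨za, hza, hzae⟩ := hεb (-t) (by
      rw [mem_ball_zero_iff, Real.norm_eq_abs, abs_neg, abs_of_pos ht0]
      exact ht2)
    refine ⟨za, zb, hza, hzb, ?_, ?_⟩
    · rw [hzae, norm_mul, hz₁n, mul_one, Complex.norm_real, Real.norm_eq_abs,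
        abs_of_pos (by linarith)]
      linarith
    · rw [hzbe, norm_mul, hz₁n, mul_one, Complex.norm_real, Real.norm_eq_abs,
        abs_of_pos (by linarith)]
      linarith
  have hseg : segment ℝ za zb ⊆ ball z₁ δ₂ := (convex_ball z₁ δ₂).segment_subset hza hzb
  have hsegW : segment ℝ za zb ⊆ Rect M ρ := (hseg.trans hδ₂b).trans hδW
  have hcomp : IsCompact (segment ℝ za zb) := by
    rw [segment_eq_image_lineMap]
    exact isCompact_Icc.image AffineMap.lineMap_continuous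
  have hdl : TendstoLocallyUniformlyOn (deriv ∘ h) (deriv Φ) (hyperfilter ℕ : Filter ℕ)
      (Rect M ρ) := hlim.deriv (Eventually.of_forall hd) (rect_open M ρ)
  have hdu : TendstoUniformlyOn (deriv ∘ h) (deriv Φ) (hyperfilter ℕ : Filter ℕ)
      (segment ℝ za zb) := (tendstoLocallyUniformlyOn_iff_forall_isCompact (rect_open M ρ)).1 hdl
      _ hsegW hcomp
  rw [Metric.tendstoUniformlyOn_iff] at hdu
  have h1 := hdu κ hκ0
  have h2 : ∀ᶠ k in (hyperfilter ℕ : Filter ℕ), ‖h k za‖ < 1 :=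
    (hpn za (hsegW (left_mem_segment ℝ za zb))).eventually (gt_mem_nhds hna)
  have h3 : ∀ᶠ k in (hyperfilter ℕ : Filter ℕ), 1 < ‖h k zb‖ :=
    (hpn zb (hsegW (right_mem_segment ℝ za zb))).eventually (lt_mem_nhds hnb)
  have h4 : ∀ᶠ k : ℕ in (hyperfilter ℕ : Filter ℕ), 1 / ((k : ℝ) + 1) < κ :=
    hU (tendsto_one_div_add_atTop_nhds_zero_nat.eventually (gt_mem_nhds hκ0))
  obtain ⟨k, h1k, h2k, h3k, h4k⟩ := (h1.and (h2.and (h3.and h4))).exists
  have hcont : ContinuousOn (fun z => ‖h k z‖) (segment ℝ za zb) :=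
    ((hd k).continuousOn.mono hsegW).norm
  obtain ⟨z, hzs, hze⟩ := (convex_segment za zb).isPreconnected.intermediate_value
    (left_mem_segment ℝ za zb) (right_mem_segment ℝ za zb) hcont
    (⟨h2k.le, h3k.le⟩ : (1 : ℝ) ∈ Icc (‖h k za‖) (‖h k zb‖))
  have hzW := hsegW hzs
  have h5 := hz k z hzW (by
    have := hδ₂b (hseg hzs)
    rw [mem_ball_zero_iff] at this
    linarith) hze
  have h6 := hδ₂d z (hseg hzs)
  have h7 := h1k z hzs
  rw [dist_eq_norm, Function.comp_apply] at h7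
  have h8 := norm_sub_norm_le (deriv Φ z) (deriv (h k) z)
  linarith

end Pool.Agent.Run7.h490.RR
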