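import Pool.Agent.Helper133.Brouwer

/-! Real regime: integral vectors near a hyperplane, a fixed point theorem for boxes, Taylor
estimate. -/

set_option autoImplicit false

namespace Pool.Agent.Run7.h490.RR

open Set Filter Topology Metric

/-- small values of an irrational linear form in two variables -/
theorem kron2 (α β : ℝ) (h : Irrational (α / β)) (ε B : ℝ) (hε : 0 < ε) (hB : 0 ≤ B) :
    ∃ K : ℝ, 0 ≤ K ∧ ∀ r : ℝ, |r| ≤ B → ∃ p q : ℤ, |(p : ℝ)| ≤ K ∧ |(q : ℝ)| ≤ K ∧
      |p * α + q * β - r| < ε := by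
  have hd := dense_addSubgroupClosure_pair_iff.2 h
  obtain ⟨g, hg, hgm⟩ := hd.exists_mem_open (isOpen_Ioo (a := (0 : ℝ)) (b := ε))
    ⟨ε / 2, by constructor <;> linarith⟩
  rw [SetLike.mem_coe, AddSubgroup.mem_closure_pair] at hg
  obtain ⟨p, q, hpq⟩ := hg
  rw [zsmul_eq_mul, zsmul_eq_mul] at hpq
  refine ⟨(B / g + 1) * (|(p : ℝ)| + |(q : ℝ)|), ?_, fun r hr => ?_⟩
  · have := div_nonneg hB hgm.1.le
    positivity
  · obtain ⟨k, hk⟩ : ∃ k : ℤ, k = ⌊r / g⌋ := ⟨_, rfl⟩
    have h1 : (k : ℝ) ≤ r / g := by rw [hk]; exact Int.floor_le _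
    have h2 : r / g < k + 1 := by rw [hk]; exact Int.lt_floor_add_one _
    rw [le_div_iff₀ hgm.1] at h1
    rw [div_lt_iff₀ hgm.1] at h2
    have h3 : |(k : ℝ)| ≤ B / g + 1 := by
      have h4 : |r / g| ≤ B / g := by
        rw [abs_div, abs_of_pos hgm.1]
        exact div_le_div_of_nonneg_right hr hgm.1.le
      have h5 := abs_le.1 h4
      rw [abs_le]
      constructor
      · have : r / g < k + 1 := by rw [hk]; exact Int.lt_floor_add_one _
        linarith
      · have : (k : ℝ) ≤ r / g := by rw [hk]; exact Int.floor_le _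
        linarith
    refine ⟨k * p, k * q, ?_, ?_, ?_⟩
    · push_cast
      rw [abs_mul]
      exact mul_le_mul h3 (by linarith [abs_nonneg (q : ℝ)]) (abs_nonneg _)
        (by linarith [abs_nonneg (k : ℝ)])
    · push_cast
      rw [abs_mul]
      exact mul_le_mul h3 (by linarith [abs_nonneg (p : ℝ)]) (abs_nonneg _)
        (by linarith [abs_nonneg (k : ℝ)])
    · push_cast
      have e : (k : ℝ) * p * α + k * q * β - r = k * g - r := by
        rw [← hpq]
        ring
      rw [e, abs_lt]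
      constructor
      · nlinarith [hgm.2]
      · linarith

/-- integral vectors near a given point and near a hyperplane -/
theorem kron {n : ℕ} (c : Fin n → ℝ) (b : Fin n) (hb : c b ≠ 0)
    (hirr : ∃ i j, Irrational (c i / c j)) (ε : ℝ) (hε : 0 < ε) :
    ∃ K : ℝ, 0 ≤ K ∧ ∀ (a : Fin n → ℝ) (τ : ℝ), ∃ N : Fin n → ℤ,
      (∀ i, i ≠ b → |(N i : ℝ) - a i| ≤ K) ∧ |∑ i, c i * (N i : ℝ) - τ| < ε := by
  classical
  obtain ⟨i₀, j₀, h⟩ := hirr
  obtain ⟨K, hK, hpq⟩ := kron2 (c i₀) (c j₀) h ε |c b| hε (abs_nonneg _)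
  refine ⟨1 + 2 * K, by positivity, fun a τ => ?_⟩
  obtain ⟨S, hS⟩ : ∃ S : ℝ, S = ∑ i ∈ Finset.univ.erase b, c i * (⌊a i⌋ : ℝ) := ⟨_, rfl⟩
  obtain ⟨M, hM⟩ : ∃ M : Fin n → ℤ, M = fun i => if i = b then ⌊(τ - S) / c b⌋ else ⌊a i⌋ :=
    ⟨_, rfl⟩
  have hsum : ∑ i, c i * (M i : ℝ) = c b * (⌊(τ - S) / c b⌋ : ℝ) + S := by
    rw [← Finset.add_sum_erase _ _ (Finset.mem_univ b), hS]
    congr 1
    · rw [hM]
      simp only [↓reduceIte]
      rw [← hS]
    · refine Finset.sum_congr rfl fun i hi => ?_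
      rw [hM]
      simp [Finset.ne_of_mem_erase hi]
  have hr : |τ - ∑ i, c i * (M i : ℝ)| ≤ |c b| := by
    have e : τ - ∑ i, c i * (M i : ℝ) = c b * ((τ - S) / c b - ⌊(τ - S) / c b⌋) := by
      rw [hsum]
      field_simp
      ring
    rw [e, abs_mul]
    have h1 : |(τ - S) / c b - ⌊(τ - S) / c b⌋| ≤ 1 := by
      rw [abs_le]
      constructor
      · linarith [Int.floor_le ((τ - S) / c b)]
      · linarith [Int.lt_floor_add_one ((τ - S) / c b)]
    calc _ ≤ |c b| * 1 := mul_le_mul_of_nonneg_left h1 (abs_nonneg _)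
      _ = |c b| := mul_one _
  obtain ⟨p, q, hp, hq, h2⟩ := hpq _ hr
  refine ⟨fun k => M k + (if k = i₀ then p else 0) + (if k = j₀ then q else 0), ?_, ?_⟩
  · intro i hi
    have h3 : |((M i : ℤ) : ℝ) - a i| ≤ 1 := by
      rw [hM]
      simp only [if_neg hi]
      rw [abs_le]
      constructor
      · linarith [Int.lt_floor_add_one (a i)]
      · linarith [Int.floor_le (a i)]
    have h4 : |(((if i = i₀ then p else 0 : ℤ) : ℝ))| ≤ K := by
      split_ifs
      · exact hp
      · simpa using hK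
    have h5 : |(((if i = j₀ then q else 0 : ℤ) : ℝ))| ≤ K := by
      split_ifs
      · exact hq
      · simpa using hK
    push_cast at h4 h5 ⊢
    rw [abs_le] at h3 h4 h5 ⊢
    constructor <;> linarith [h3.1, h3.2, h4.1, h4.2, h5.1, h5.2]
  · have e1 : ∑ k, c k * (((M k + (if k = i₀ then p else 0) + (if k = j₀ then q else 0) : ℤ)) : ℝ) =
        ∑ k, c k * (M k : ℝ) + (p * c i₀ + q * c j₀) := by
      have h6 : ∀ k, c k * (((M k + (if k = i₀ then p else 0) +
          (if k = j₀ then q else 0) : ℤ)) : ℝ) = c k * (M k : ℝ) +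
          ((if k = i₀ then (p : ℝ) * c k else 0) + (if k = j₀ then (q : ℝ) * c k else 0)) := by
        intro k
        push_cast
        split_ifs <;> push_cast <;> ring
      rw [Finset.sum_congr rfl fun k _ => h6 k, Finset.sum_add_distrib, Finset.sum_add_distrib,
        Finset.sum_ite_eq' Finset.univ i₀ (fun k => (p : ℝ) * c k),
        Finset.sum_ite_eq' Finset.univ j₀ (fun k => (q : ℝ) * c k)]
      simp
    rw [e1]
    have e2 : ∑ k, c k * (M k : ℝ) + (p * c i₀ + q * c j₀) - τ =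
        p * c i₀ + q * c j₀ - (τ - ∑ i, c i * (M i : ℝ)) := by ring
    rw [e2]
    exact h2

/-- truncation of real numbers -/
noncomputable def cl (r x : ℝ) : ℝ := max (-r) (min r x)

theorem cl_cont (r : ℝ) : Continuous (cl r) := by
  unfold cl
  fun_prop

theorem cl_abs {r : ℝ} (hr : 0 ≤ r) (x : ℝ) : |cl r x| ≤ r := by
  unfold cl
  rw [abs_le]
  exact ⟨le_max_left _ _, max_le (by linarith) (min_le_left _ _)⟩

theorem cl_eq {r x : ℝ} (h : |x| ≤ r) : cl r x = x := by
  unfold cl
  rw [abs_le] at h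
  rw [min_eq_right h.2, max_eq_right h.1]

/-- Brouwer for boxes -/
theorem brouwer_box {m : ℕ} (w₁ : Fin m → ℂ) (ρ : Fin m → ℝ) (hρ : ∀ i, 0 ≤ ρ i)
    (T : (Fin m → ℂ) → (Fin m → ℂ))
    (hT : ContinuousOn T {w | ∀ i, ‖w i - w₁ i‖ ≤ 2 * ρ i})
    (hm : ∀ w, (∀ i, ‖w i - w₁ i‖ ≤ 2 * ρ i) → ∀ i, ‖T w i - w₁ i‖ ≤ ρ i) :
    ∃ w, (∀ i, ‖w i - w₁ i‖ ≤ 2 * ρ i) ∧ T w = w := by
  obtain ⟨P, hP⟩ : ∃ P : (Fin m → ℂ) → (Fin m → ℂ), P = fun w i =>
    w₁ i + (((cl (ρ i) (w i - w₁ i).re : ℝ) : ℂ) +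
      ((cl (ρ i) (w i - w₁ i).im : ℝ) : ℂ) * Complex.I) := ⟨_, rfl⟩
  have hPc : Continuous P := by
    rw [hP]
    refine continuous_pi fun i => ?_
    have h1 : Continuous fun w : Fin m → ℂ => cl (ρ i) (w i - w₁ i).re :=
      (cl_cont _).comp (Complex.continuous_re.comp ((continuous_apply i).sub continuous_const))
    have h2 : Continuous fun w : Fin m → ℂ => cl (ρ i) (w i - w₁ i).im :=
      (cl_cont _).comp (Complex.continuous_im.comp ((continuous_apply i).sub continuous_const))
    exact continuous_const.add ((Complex.continuous_ofReal.comp h1).add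
      ((Complex.continuous_ofReal.comp h2).mul continuous_const))
  have hPm : ∀ w i, ‖P w i - w₁ i‖ ≤ 2 * ρ i := by
    intro w i
    rw [hP]
    simp only [add_sub_cancel_left]
    refine (norm_add_le _ _).trans ?_
    rw [norm_mul, Complex.norm_I, mul_one, Complex.norm_real, Complex.norm_real,
      Real.norm_eq_abs, Real.norm_eq_abs]
    linarith [cl_abs (hρ i) (w i - w₁ i).re, cl_abs (hρ i) (w i - w₁ i).im]
  obtain ⟨w, hw⟩ := Pool.Agent.Helper133.Brouwer.brouwer (fun w => T (P w))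
    (hT.comp_continuous hPc (fun w => hPm w)) (‖w₁‖ + ∑ i, ρ i) (by
      intro w
      rw [pi_norm_le_iff_of_nonneg (by
        have := Finset.sum_nonneg fun i (_ : i ∈ Finset.univ) => hρ i
        positivity)]
      intro i
      have h1 := hm (P w) (hPm w) i
      have h2 : ‖T (P w) i‖ ≤ ‖w₁ i‖ + ‖T (P w) i - w₁ i‖ := by
        calc ‖T (P w) i‖ = ‖w₁ i + (T (P w) i - w₁ i)‖ := by congr 1; ring
          _ ≤ _ := norm_add_le _ _
      have h3 := norm_le_pi_norm w₁ i
      have h4 := Finset.single_le_sum (f := ρ) (fun i _ => hρ i) (Finset.mem_univ i)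
      linarith)
  have hPw : P w = w := by
    funext i
    have h1 := hm (P w) (hPm w) i
    have h2 : T (P w) i = w i := congrFun hw i
    rw [h2] at h1
    have h3 : |(w i - w₁ i).re| ≤ ρ i := (Complex.abs_re_le_norm _).trans h1
    have h4 : |(w i - w₁ i).im| ≤ ρ i := (Complex.abs_im_le_norm _).trans h1
    rw [hP]
    simp only
    rw [cl_eq h3, cl_eq h4, Complex.re_add_im]
    ring
  refine ⟨w, fun i => ?_, ?_⟩
  · have := hPm w i
    rwa [hPw] at this
  · have : T (P w) = w := hw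
    rwa [hPw] at this

/-- second order Taylor estimate -/
theorem taylor2 (h : ℂ → ℂ) (z₀ : ℂ) (r M : ℝ) (hr : 0 < r)
    (hd : DifferentiableOn ℂ h (ball z₀ r)) (hM : ∀ z ∈ ball z₀ r, ‖h z - h z₀‖ ≤ M) :
    ∀ z ∈ ball z₀ (r / 4), ‖h z - h z₀ - deriv h z₀ * (z - z₀)‖ ≤ 16 * M / r ^ 2 * ‖z - z₀‖ ^ 2 := by
  have hM0 : 0 ≤ M := (norm_nonneg _).trans (hM z₀ (mem_ball_self hr))
  have hd1 : ∀ z ∈ ball z₀ (r / 2), ‖deriv h z‖ ≤ M / (r / 2) * 1 := by
    intro z hz
    rw [mul_one]
    have e1 : deriv h z = deriv (fun w => h w - h z₀) z := by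
      rw [deriv_sub_const]
    rw [e1]
    by_cases hlt : True
    · have hsub : ball z (r / 2) ⊆ ball z₀ r := by
        intro w hw
        rw [mem_ball] at hw hz ⊢
        calc dist w z₀ ≤ dist w z + dist z z₀ := dist_triangle _ _ _
          _ < r := by linarith
      -- bound by all smaller radii
      have key : ∀ r' : ℝ, 0 < r' → r' < r / 2 → ‖deriv (fun w => h w - h z₀) z‖ ≤ M / r' := by
        intro r' hr' hlt
        refine Complex.norm_deriv_le_of_forall_mem_sphere_norm_le hr' ?_ fun w hw => ?_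
        · refine DifferentiableOn.diffContOnCl ?_
          refine DifferentiableOn.mono ?_ (closure_ball_subset_closedBall.trans
            ((closedBall_subset_ball hlt).trans hsub))
          exact hd.sub_const _
        · exact hM w (hsub (by
            rw [mem_sphere] at hw
            rw [mem_ball, hw]
            exact hlt))
      have hlim : Tendsto (fun r' : ℝ => M / r') (𝓝[<] (r / 2)) (𝓝 (M / (r / 2))) := by
        have : ContinuousAt (fun r' : ℝ => M / r') (r / 2) :=
          continuousAt_const.div continuousAt_id (by positivity)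
        exact this.tendsto.mono_left nhdsWithin_le_nhds
      refine ge_of_tendsto hlim ?_
      have h1 : ∀ᶠ r' in 𝓝[<] (r / 2), r' ∈ Ioo (r / 4) (r / 2) :=
        Ioo_mem_nhdsLT (by linarith)
      filter_upwards [h1] with r' hr'
      exact key r' (by linarith [hr'.1]) hr'.2
    · exact absurd trivial hlt
  have hd2 : ∀ z ∈ ball z₀ (r / 4), ‖deriv h z - deriv h z₀‖ ≤ 16 * M / r ^ 2 * ‖z - z₀‖ := by
    have hdd : DifferentiableOn ℂ (deriv h) (ball z₀ r) := hd.deriv isOpen_ball
    have hb : ∀ z ∈ ball z₀ (r / 4), ‖deriv (deriv h) z‖ ≤ 16 * M / r ^ 2 := by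
      intro z hz
      have hsub : closedBall z (r / 8) ⊆ ball z₀ (r / 2) := by
        intro w hw
        rw [mem_closedBall] at hw
        rw [mem_ball] at hz ⊢
        calc dist w z₀ ≤ dist w z + dist z z₀ := dist_triangle _ _ _
          _ < r / 2 := by linarith
      have h1 := Complex.norm_deriv_le_of_forall_mem_sphere_norm_le (f := deriv h) (c := z)
        (R := r / 8) (C := M / (r / 2)) (by positivity) (by
          refine DifferentiableOn.diffContOnCl ?_
          refine hdd.mono (closure_ball_subset_closedBall.trans (hsub.trans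
            (ball_subset_ball (by linarith))))) (fun w hw => by
          have := hd1 w (hsub (sphere_subset_closedBall hw))
          rwa [mul_one] at this)
      refine h1.trans (le_of_eq ?_)
      field_simp
      ring
    intro z hz
    have h2 := (convex_ball z₀ (r / 4)).norm_image_sub_le_of_norm_deriv_le (f := deriv h)
      (C := 16 * M / r ^ 2) (fun w hw => (hdd w (ball_subset_ball (by linarith) hw)).differentiableAt
        (isOpen_ball.mem_nhds (ball_subset_ball (by linarith) hw))) hb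
      (mem_ball_self (by positivity)) hz
    exact h2
  intro z hz
  obtain ⟨g, hg⟩ : ∃ g : ℂ → ℂ, g = fun w => h w - deriv h z₀ * (w - z₀) := ⟨_, rfl⟩
  have hδ : ∀ w ∈ closedBall z₀ ‖z - z₀‖, HasDerivWithinAt g (deriv h w - deriv h z₀)
      (closedBall z₀ ‖z - z₀‖) w := by
    intro w hw
    have hw' : w ∈ ball z₀ r := by
      rw [mem_closedBall] at hw
      rw [mem_ball] at hz ⊢
      rw [dist_eq_norm] at hz
      linarith
    have h1 : HasDerivAt h (deriv h w) w :=
      ((hd w hw').differentiableAt (isOpen_ball.mem_nhds hw')).hasDerivAt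
    have h2 : HasDerivAt (fun w : ℂ => deriv h z₀ * (w - z₀)) (deriv h z₀ * 1) w :=
      ((hasDerivAt_id w).sub_const z₀).const_mul _
    rw [mul_one] at h2
    rw [hg]
    exact (h1.sub h2).hasDerivWithinAt
  have h3 := (convex_closedBall z₀ ‖z - z₀‖).norm_image_sub_le_of_norm_hasDerivWithin_le
    (f := g) (C := 16 * M / r ^ 2 * ‖z - z₀‖) hδ (fun w hw => by
      have hw' : w ∈ ball z₀ (r / 4) := by
        rw [mem_closedBall] at hw
        rw [mem_ball] at hz ⊢
        rw [dist_eq_norm] at hz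
        linarith
      refine (hd2 w hw').trans (mul_le_mul_of_nonneg_left ?_ (by positivity))
      rw [mem_closedBall, dist_eq_norm] at hw
      exact hw) (mem_closedBall_self (norm_nonneg _)) (by
      rw [mem_closedBall, dist_eq_norm] : z ∈ closedBall z₀ ‖z - z₀‖)
  rw [hg] at h3
  simp only [sub_self, mul_zero, sub_zero] at h3
  have e : h z - deriv h z₀ * (z - z₀) - h z₀ = h z - h z₀ - deriv h z₀ * (z - z₀) := by ring
  rw [e] at h3
  calc _ ≤ _ := h3
    _ = _ := by ring

end Pool.Agent.Run7.h490.RR
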