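import Pool.Agent.Run7.h490.RR3
import Pool.Agent.Run7.h490.RR4

/-! Real regime: a point of the strip with a given real part and a large derivative. -/

set_option autoImplicit false

namespace Pool.Agent.Run7.h490.RR

open Set Filter Topology Metric

/-- the strip -/
def Stp (T θ ρ : ℝ) : Set ℂ := {z | |z.re| < T ∧ |z.im - θ| < ρ}

theorem stp_open (T θ ρ : ℝ) : IsOpen (Stp T θ ρ) :=
  (isOpen_lt Complex.continuous_re.abs continuous_const).inter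
    (isOpen_lt (Complex.continuous_im.sub continuous_const).abs continuous_const)

theorem findz {n : ℕ} (c : Fin n → ℝ) (ρ κ K : ℝ) (hρ : 0 < ρ) (hκ : 0 < κ) (hK : 0 ≤ K) :
    ∃ κ₂ : ℝ, 0 < κ₂ ∧ ∀ (T T' θ Tg : ℝ) (ℓ : Fin n → ℂ → ℂ), 0 ≤ T' →
      T' + (K + 1) / κ + 2 ≤ T →
      (∀ i, DifferentiableOn ℂ (ℓ i) (Stp T θ ρ)) →
      (∀ a b : ℝ, |a| < T → |b| < T → a ≤ b →
        ∑ i, c i * (ℓ i (b + θ * Complex.I)).re - ∑ i, c i * (ℓ i (a + θ * Complex.I)).re ≤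
          -κ * (b - a) + K) →
      (∀ ζ ∈ Stp T θ ρ, ∀ ζ' ∈ Stp T θ ρ, ∀ i, |(ℓ i ζ).re - (ℓ i ζ').re| ≤ K * (1 + ‖ζ - ζ'‖)) →
      Tg ≤ ∑ i, c i * (ℓ i (((-T' : ℝ) : ℂ) + θ * Complex.I)).re →
      ∑ i, c i * (ℓ i ((T' : ℂ) + θ * Complex.I)).re ≤ Tg →
      ∃ ζ₁ : ℂ, |ζ₁.re| ≤ T' + 1 / 4 ∧ |ζ₁.im - θ| < ρ / 4 ∧ ∑ i, c i * (ℓ i ζ₁).re = Tg ∧
        κ₂ ≤ ‖deriv (fun ζ => ∑ i, (c i : ℂ) * ℓ i ζ) ζ₁‖ := by
  classical
  obtain ⟨M, hM⟩ : ∃ M : ℝ, M = (K + 1) / κ := ⟨_, rfl⟩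
  have hM0 : 0 ≤ M := by rw [hM]; positivity
  obtain ⟨B, hB⟩ : ∃ B : ℝ, B = Real.exp ((∑ i, |c i|) * (K * (1 + (M + 1 + ρ)))) := ⟨_, rfl⟩
  have hr : 0 < min ρ 1 / 4 := by
    have := lt_min hρ one_pos
    positivity
  obtain ⟨κ₂, hκ₂, hop⟩ := open2 ρ M B (min ρ 1 / 4) hρ hM0 hr
  refine ⟨κ₂, hκ₂, fun T T' θ Tg ℓ hT' hT hd hch hvar hl hr' => ?_⟩
  rw [← hM] at hT
  have him : ∀ t : ℝ, ((t : ℂ) + θ * Complex.I).im = θ := fun t => by simp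
  have hre : ∀ t : ℝ, ((t : ℂ) + θ * Complex.I).re = t := fun t => by simp
  have hmem : ∀ t : ℝ, |t| < T → ((t : ℂ) + θ * Complex.I) ∈ Stp T θ ρ := by
    intro t ht
    refine ⟨by rw [hre]; exact ht, ?_⟩
    rw [him, sub_self, abs_zero]
    exact hρ
  -- intermediate value
  obtain ⟨t₀, ht₀, ht₀e⟩ : ∃ t₀ ∈ Icc (-T') T',
      ∑ i, c i * (ℓ i ((t₀ : ℂ) + θ * Complex.I)).re = Tg := by
    have hcont : ContinuousOn (fun t : ℝ => ∑ i, c i * (ℓ i ((t : ℂ) + θ * Complex.I)).re)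
        (Icc (-T') T') := by
      refine continuousOn_finsetSum _ fun i _ => continuousOn_const.mul ?_
      refine Complex.continuous_re.comp_continuousOn ?_
      refine (hd i).continuousOn.comp (by fun_prop) fun t ht => hmem t ?_
      rw [abs_lt]
      constructor <;> linarith [ht.1, ht.2]
    have h1 := isPreconnected_Icc.intermediate_value (right_mem_Icc.2 (by linarith : -T' ≤ T'))
      (left_mem_Icc.2 (by linarith : -T' ≤ T')) hcont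
    obtain ⟨t, ht, hte⟩ := h1 (⟨hr', hl⟩ : Tg ∈ Icc _ _)
    exact ⟨t, ht, hte⟩
  have ht₀a : |t₀| ≤ T' := abs_le.2 ht₀
  obtain ⟨ζ₀, hζ₀⟩ : ∃ ζ₀ : ℂ, ζ₀ = (t₀ : ℂ) + θ * Complex.I := ⟨_, rfl⟩
  obtain ⟨φ, hφ⟩ : ∃ φ : ℂ → ℂ, φ = fun ζ => ∑ i, (c i : ℂ) * ℓ i ζ := ⟨_, rfl⟩
  have hφre : ∀ ζ, (φ ζ).re = ∑ i, c i * (ℓ i ζ).re := by
    intro ζ
    rw [hφ]
    simp only [Complex.re_sum, Complex.re_ofReal_mul]
  have hφd : DifferentiableOn ℂ φ (Stp T θ ρ) := by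
    rw [hφ]
    exact DifferentiableOn.fun_sum fun i _ => (hd i).const_mul _
  have hrect : ∀ z ∈ Rect M ρ, ζ₀ + z ∈ Stp T θ ρ := by
    rintro z ⟨h1, h2, h3⟩
    have h4 := abs_le.1 ht₀a
    refine ⟨?_, ?_⟩
    · rw [hζ₀, Complex.add_re, hre, abs_lt]
      constructor <;> linarith [h4.1, h4.2]
    · rw [hζ₀, Complex.add_im, him]
      have : θ + z.im - θ = z.im := by ring
      rw [this]
      exact h3
  have hζ₀S : ζ₀ ∈ Stp T θ ρ := by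
    rw [hζ₀]
    exact hmem t₀ (by linarith)
  have h0e : (φ ζ₀).re = Tg := by
    rw [hφre, hζ₀]
    exact ht₀e
  obtain ⟨h, hh⟩ : ∃ h : ℂ → ℂ, h = fun z => Complex.exp (φ (ζ₀ + z) - Tg) := ⟨_, rfl⟩
  have hhn : ∀ z, ‖h z‖ = Real.exp ((φ (ζ₀ + z)).re - Tg) := by
    intro z
    rw [hh]
    simp only [Complex.norm_exp, Complex.sub_re, Complex.ofReal_re]
  have hhd : DifferentiableOn ℂ h (Rect M ρ) := by
    rw [hh]
    refine DifferentiableOn.cexp (DifferentiableOn.sub_const ?_ _)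
    exact hφd.comp (by fun_prop) fun z hz => hrect z hz
  obtain ⟨z₁, hz₁R, hz₁r, hz₁1, hz₁d⟩ := hop h hhd (by
    intro z hz
    rw [hhn, hB]
    apply Real.exp_le_exp.2
    rw [← h0e, hφre, hφre, ← Finset.sum_sub_distrib, Finset.sum_mul]
    refine Finset.sum_le_sum fun i _ => ?_
    have h1 := hvar _ (hrect z hz) _ hζ₀S i
    have e1 : ζ₀ + z - ζ₀ = z := by ring
    rw [e1] at h1
    have h2 : ‖z‖ ≤ M + 1 + ρ := by
      obtain ⟨h3, h4, h5⟩ := hz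
      refine (Complex.norm_le_abs_re_add_abs_im z).trans ?_
      have : |z.re| ≤ M + 1 := abs_le.2 ⟨by linarith, h4.le⟩
      linarith
    have h3 : |(ℓ i (ζ₀ + z)).re - (ℓ i ζ₀).re| ≤ K * (1 + (M + 1 + ρ)) :=
      h1.trans (mul_le_mul_of_nonneg_left (by linarith) hK)
    calc c i * (ℓ i (ζ₀ + z)).re - c i * (ℓ i ζ₀).re
        = c i * ((ℓ i (ζ₀ + z)).re - (ℓ i ζ₀).re) := by ring
      _ ≤ |c i * ((ℓ i (ζ₀ + z)).re - (ℓ i ζ₀).re)| := le_abs_self _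
      _ = |c i| * |(ℓ i (ζ₀ + z)).re - (ℓ i ζ₀).re| := abs_mul _ _
      _ ≤ _ := mul_le_mul_of_nonneg_left h3 (abs_nonneg _))
    (by rw [hhn, add_zero, h0e, sub_self, Real.exp_zero])
    (by
      rw [hhn]
      have h1 := hch t₀ (t₀ + M) (by linarith) (by
        have h4 := abs_le.1 ht₀a
        rw [abs_lt]
        constructor <;> linarith [h4.1, h4.2]) (by linarith)
      have h2 : -κ * (t₀ + M - t₀) + K = -1 := by
        rw [hM]
        field_simp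
        ring
      rw [h2] at h1
      have e1 : ζ₀ + (M : ℂ) = ((t₀ + M : ℝ) : ℂ) + θ * Complex.I := by
        rw [hζ₀]
        push_cast
        ring
      have h3 : (φ (ζ₀ + (M : ℂ))).re - Tg ≤ -1 := by
        rw [hφre, e1, ← ht₀e]
        exact h1
      calc Real.exp _ ≤ Real.exp (-1) := Real.exp_le_exp.2 h3
        _ ≤ 1 / 2 := by
          rw [Real.exp_neg]
          have h5 : (2 : ℝ) ≤ Real.exp 1 := by
            have := Real.add_one_le_exp (1 : ℝ)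
            linarith
          rw [inv_eq_one_div]
          exact one_div_le_one_div_of_le (by norm_num) h5)
  have hmin1 : min ρ 1 ≤ ρ := min_le_left _ _
  have hmin2 : min ρ 1 ≤ 1 := min_le_right _ _
  refine ⟨ζ₀ + z₁, ?_, ?_, ?_, ?_⟩
  · rw [hζ₀, Complex.add_re, hre]
    have h1 := Complex.abs_re_le_norm z₁
    calc |t₀ + z₁.re| ≤ |t₀| + |z₁.re| := abs_add_le _ _
      _ ≤ T' + 1 / 4 := by linarith
  · rw [hζ₀, Complex.add_im, him]
    have e1 : θ + z₁.im - θ = z₁.im := by ring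
    rw [e1]
    have h1 := Complex.abs_im_le_norm z₁
    linarith
  · rw [← hφre]
    rw [hhn, Real.exp_eq_one_iff] at hz₁1
    linarith
  · have hmemz := hrect z₁ hz₁R
    have h1 : HasDerivAt φ (deriv φ (ζ₀ + z₁)) (ζ₀ + z₁) :=
      ((hφd _ hmemz).differentiableAt ((stp_open _ _ _).mem_nhds hmemz)).hasDerivAt
    have h2 : HasDerivAt (fun z => φ (ζ₀ + z)) (deriv φ (ζ₀ + z₁)) z₁ :=
      HasDerivAt.comp_const_add ζ₀ z₁ h1
    have h3 : HasDerivAt h (Complex.exp (φ (ζ₀ + z₁) - Tg) * deriv φ (ζ₀ + z₁)) z₁ := by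
      rw [hh]
      exact (h2.sub_const (Tg : ℂ)).cexp
    rw [h3.deriv, norm_mul] at hz₁d
    have h4 : ‖Complex.exp (φ (ζ₀ + z₁) - Tg)‖ = 1 := by
      have := hz₁1
      rw [hh] at this
      exact this
    rw [h4, one_mul, hφ] at hz₁d
    exact hz₁d

end Pool.Agent.Run7.h490.RR
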