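import Pool.Agent.Run7.h490.RR5
import Pool.Agent.K3h60.EX.LogBC

/-! Real regime: solution of the equations for one large `R`. -/

set_option autoImplicit false

namespace Pool.Agent.Run7.h490.RR

open Set Filter Topology Metric

theorem loglarge (A ε : ℝ) (hε : 0 < ε) : ∃ R₀ : ℝ, 1 ≤ R₀ ∧ ∀ R : ℝ, R₀ ≤ R →
    A * (1 + Real.log R) ^ 2 ≤ ε * √R := by
  have h1 : ∀ᶠ u : ℝ in atTop, ‖Real.log u ^ 2‖ ≤ ε / (16 * (|A| + 1)) * ‖id u‖ :=
    (Real.isLittleO_pow_log_id_atTop (n := 2)).bound (by positivity)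
  have h2 : ∀ᶠ u : ℝ in atTop, 4 * (|A| + 1) / ε ≤ u := eventually_ge_atTop _
  obtain ⟨u₀, hu₀⟩ := (h1.and h2).exists_forall_of_atTop
  refine ⟨max 1 (u₀ ^ 2), le_max_left _ _, fun R hR => ?_⟩
  have hR1 : 1 ≤ R := (le_max_left _ _).trans hR
  have hu : u₀ ≤ √R := Real.le_sqrt_of_sq_le ((le_max_right _ _).trans hR)
  obtain ⟨h3, h4⟩ := hu₀ (√R) hu
  have hs : 0 < √R := Real.sqrt_pos.2 (by linarith)
  have hlog : Real.log R = 2 * Real.log (√R) := by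
    rw [Real.log_sqrt (by linarith)]
    ring
  rw [id, Real.norm_eq_abs, Real.norm_eq_abs, abs_of_pos hs, abs_of_nonneg (sq_nonneg _)] at h3
  rw [hlog]
  obtain ⟨x, hx⟩ : ∃ x, x = Real.log (√R) := ⟨_, rfl⟩
  rw [← hx] at h3 ⊢
  have h5 : (1 + 2 * x) ^ 2 ≤ 2 + 8 * x ^ 2 := by nlinarith [sq_nonneg (1 - 2 * x)]
  have hA : 0 < |A| + 1 := by positivity
  have h6 : (|A| + 1) * x ^ 2 ≤ ε / 16 * √R := by
    have h7 := mul_le_mul_of_nonneg_left h3 hA.le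
    have e : (|A| + 1) * (ε / (16 * (|A| + 1)) * √R) = ε / 16 * √R := by
      field_simp
    rw [e] at h7
    exact h7
  have h7 : 4 * (|A| + 1) ≤ ε * √R := by
    rw [div_le_iff₀ hε] at h4
    linarith
  calc A * (1 + 2 * x) ^ 2 ≤ (|A| + 1) * (1 + 2 * x) ^ 2 := by
        refine mul_le_mul_of_nonneg_right ?_ (sq_nonneg _)
        linarith [le_abs_self A]
    _ ≤ (|A| + 1) * (2 + 8 * x ^ 2) := mul_le_mul_of_nonneg_left h5 hA.le
    _ ≤ ε * √R := by linarith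

/-- the coordinates of the point of the base -/
def xl {s : ℕ} (ψ : (Fin s → ℂ) → ℂ) (l : Fin s → ℂ) : Fin (s + 1) → ℂ := Fin.cons (ψ l) l

/-- Lipschitz estimate in one variable -/
theorem bc1 (f : ℂ → ℂ) (z₀ : ℂ) (r η : ℝ) (hr : 0 < r) (hη : 0 < η)
    (hd : DifferentiableOn ℂ f (ball z₀ r)) (hb : ∀ z ∈ ball z₀ r, |(f z).re - (f z₀).re| ≤ η) :
    ∀ z ∈ ball z₀ (r / 4), ‖f z - f z₀‖ ≤ 100 * η / r * ‖z - z₀‖ := by
  intro z hz
  have hcoe : ∀ (z : ℂ) (r : ℝ), 0 < r → ((fun _ : Fin 1 => z) ∈ ball (fun _ : Fin 1 => z₀) r ↔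
      z ∈ ball z₀ r) := by
    intro z r hr
    rw [mem_ball, mem_ball, dist_pi_lt_iff hr]
    simp
  have h := Pool.Agent.K3h60.EX.t_BC 1 (fun _ => z₀) r η (fun v => f (v 0) - f z₀) hr hη (by
      refine DifferentiableOn.sub_const ?_ _
      refine hd.comp (differentiable_apply 0).differentiableOn fun v hv => ?_
      rw [mem_ball, dist_pi_lt_iff hr] at hv
      exact hv 0) (by
      intro v hv
      rw [Complex.sub_re]
      refine hb (v 0) ?_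
      rw [mem_ball, dist_pi_lt_iff hr] at hv
      exact hv 0) (fun _ => z) ((hcoe z _ (by positivity)).2 hz) (fun _ => z₀)
      (mem_ball_self (by positivity))
  have e1 : ‖(fun _ : Fin 1 => z) - fun _ => z₀‖ = ‖z - z₀‖ := by
    have : ((fun _ : Fin 1 => z) - fun _ => z₀) = fun _ => z - z₀ := rfl
    rw [this, pi_norm_const]
  rw [e1] at h
  simpa using h

theorem final {s : ℕ} (c : Fin (s + 1) → ℝ) (hc0 : c 0 ≠ 0)
    (hirr : ∃ i j, Irrational (c i / c j)) (tr : Fin (s + 1) → ℂ) (ρ κ K C : ℝ) (hρ : 0 < ρ)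
    (hκ : 0 < κ) (hK : 0 ≤ K) (hC : 0 ≤ C) :
    ∃ C₁ R₀ : ℝ, 0 ≤ C₁ ∧ 1 ≤ R₀ ∧ ∀ R : ℝ, R₀ ≤ R → ∀ (l₀ : Fin s → ℂ) (θ : ℝ)
      (ψ : (Fin s → ℂ) → ℂ) (L : Fin (s + 1) → ℂ → (Fin s → ℂ) → ℂ),
      (∀ j, (l₀ j).re = 0) → |(ψ l₀).re| ≤ C → ContinuousOn ψ (ball l₀ (√R)) →
      (∀ l ∈ ball l₀ (√R), ‖∑ i, (c i : ℂ) * (xl ψ l i - xl ψ l₀ i)‖ ≤
        C * (1 + ‖l - l₀‖) ^ 2 / R) →
      (∀ i, ContinuousOn (fun w : ℂ × (Fin s → ℂ) => L i w.1 w.2)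
        (Stp (C₁ * (1 + Real.log R)) θ ρ ×ˢ ball l₀ (√R))) →
      (∀ i, DifferentiableOn ℂ (fun ζ => L i ζ l₀) (Stp (C₁ * (1 + Real.log R)) θ ρ)) →
      (∀ i, ∀ ζ ∈ Stp (C₁ * (1 + Real.log R)) θ ρ, DifferentiableOn ℂ (L i ζ) (ball l₀ (√R))) →
      (∀ i, ∀ ζ ∈ Stp (C₁ * (1 + Real.log R)) θ ρ, ∀ l ∈ ball l₀ (√R),
        |(L i ζ l).re| ≤ C * (1 + Real.log R + |ζ.re|)) →
      (∀ a b : ℝ, |a| < C₁ * (1 + Real.log R) → |b| < C₁ * (1 + Real.log R) → a ≤ b →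
        ∑ i, c i * (L i (b + θ * Complex.I) l₀).re - ∑ i, c i * (L i (a + θ * Complex.I) l₀).re ≤
          -κ * (b - a) + K) →
      (∀ ζ ∈ Stp (C₁ * (1 + Real.log R)) θ ρ, ∀ ζ' ∈ Stp (C₁ * (1 + Real.log R)) θ ρ, ∀ i,
        |(L i ζ l₀).re - (L i ζ' l₀).re| ≤ K * (1 + ‖ζ - ζ'‖)) →
      ∃ ζ ∈ Stp (C₁ * (1 + Real.log R)) θ ρ, ∃ l ∈ ball l₀ (√R), ∃ N : Fin (s + 1) → ℤ,
        ∀ i, L i ζ l + 2 * Real.pi * Complex.I * (N i : ℂ) = xl ψ l i + tr i := by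
  classical
  obtain ⟨κ₂, hκ₂, hfind⟩ := findz c ρ κ K hρ hκ hK
  obtain ⟨Sc, hSc⟩ : ∃ Sc : ℝ, Sc = ∑ i, |c i| := ⟨_, rfl⟩
  have hSc0 : 0 ≤ Sc := by rw [hSc]; positivity
  obtain ⟨G, hG⟩ : ∃ G : ℝ, G = Sc * (∑ i, |(tr i).re|) + Sc * C := ⟨_, rfl⟩
  have hG0 : 0 ≤ G := by rw [hG]; positivity
  obtain ⟨C₁, hC₁⟩ : ∃ C₁ : ℝ, C₁ = (K + G + Sc * C) / κ + (K + 1) / κ + 3 := ⟨_, rfl⟩
  have hC₁0 : 0 ≤ C₁ := by rw [hC₁]; positivity
  -- the radii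
  obtain ⟨r₂, hr₂⟩ : ∃ r₂ : ℝ, r₂ = min ρ 1 / 2 := ⟨_, rfl⟩
  have hr₂0 : 0 < r₂ := by
    rw [hr₂]
    have := lt_min hρ one_pos
    positivity
  have hr₂ρ : r₂ ≤ ρ / 2 := by rw [hr₂]; linarith [min_le_left ρ 1]
  have hr₂1 : r₂ ≤ 1 / 2 := by rw [hr₂]; linarith [min_le_right ρ 1]
  obtain ⟨η, hη⟩ : ∃ η : ℝ, η = 2 * K + 1 := ⟨_, rfl⟩
  have hη0 : 0 < η := by rw [hη]; positivity
  obtain ⟨M₃, hM₃⟩ : ∃ M₃ : ℝ, M₃ = Sc * (25 * η) := ⟨_, rfl⟩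
  have hM₃0 : 0 ≤ M₃ := by rw [hM₃]; positivity
  obtain ⟨C₂, hC₂⟩ : ∃ C₂ : ℝ, C₂ = 16 * M₃ / (r₂ / 4) ^ 2 := ⟨_, rfl⟩
  have hC₂0 : 0 ≤ C₂ := by rw [hC₂]; positivity
  obtain ⟨r, hr⟩ : ∃ r : ℝ, r = min (r₂ / 64) (κ₂ / (16 * (C₂ + 1))) := ⟨_, rfl⟩
  have hr0 : 0 < r := by
    rw [hr]
    exact lt_min (by positivity) (by positivity)
  have hr64 : r ≤ r₂ / 64 := by rw [hr]; exact min_le_left _ _
  have hrC : 16 * C₂ * r ≤ κ₂ := by
    have h1 : r ≤ κ₂ / (16 * (C₂ + 1)) := by rw [hr]; exact min_le_right _ _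
    rw [le_div_iff₀ (by positivity)] at h1
    nlinarith
  obtain ⟨ε₄, hε₄⟩ : ∃ ε₄ : ℝ, ε₄ = κ₂ * r / 4 := ⟨_, rfl⟩
  have hε₄0 : 0 < ε₄ := by rw [hε₄]; positivity
  obtain ⟨KN, hKN, hkron⟩ := kron c 0 hc0 hirr (ε₄ / (2 * Real.pi)) (by positivity)
  obtain ⟨K', hK'⟩ : ∃ K' : ℝ, K' = 2 * Real.pi * KN + 100 * η + 1 := ⟨_, rfl⟩
  have hK'0 : 0 ≤ K' := by rw [hK']; positivity
  obtain ⟨A₁, hA₁⟩ : ∃ A₁ : ℝ, A₁ = C * (1 + C₁) + ∑ i, |(tr i).re| := ⟨_, rfl⟩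
  have hA₁0 : 0 ≤ A₁ := by rw [hA₁]; positivity
  obtain ⟨A₂, hA₂⟩ : ∃ A₂ : ℝ, A₂ = 2 * K' + A₁ + 1 := ⟨_, rfl⟩
  have hA₂0 : 0 < A₂ := by rw [hA₂]; positivity
  -- large `R`
  obtain ⟨R₁, hR₁, hL₁⟩ := loglarge (8 * A₂) 1 one_pos
  obtain ⟨R₂, hR₂, hL₂⟩ := loglarge ((Sc + 1) * (100 * (C * (1 + C₁) + 1)) * A₂)
    (min 1 ε₄) (lt_min one_pos hε₄0)
  obtain ⟨R₃, hR₃, hL₃⟩ := loglarge (C * (1 + A₂) ^ 2) ε₄ hε₄0
  refine ⟨C₁, max R₁ (max R₂ R₃), hC₁0, hR₁.trans (le_max_left _ _), ?_⟩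
  intro R hR l₀ θ ψ L hl₀ hψ0 hψc hψ2 hLc hLζ hLl hsize hch hvar
  have hRR₁ : R₁ ≤ R := (le_max_left _ _).trans hR
  have hRR₂ : R₂ ≤ R := (le_max_left _ _).trans ((le_max_right _ _).trans hR)
  have hRR₃ : R₃ ≤ R := (le_max_right _ _).trans ((le_max_right _ _).trans hR)
  have hR1 : 1 ≤ R := hR₁.trans hRR₁
  have hlog : 0 ≤ Real.log R := Real.log_nonneg hR1
  obtain ⟨lam, hlam⟩ : ∃ lam : ℝ, lam = 1 + Real.log R := ⟨_, rfl⟩
  have hlam1 : 1 ≤ lam := by rw [hlam]; linarith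
  have hb₁ := hL₁ R hRR₁
  have hb₂ := hL₂ R hRR₂
  have hb₃ := hL₃ R hRR₃
  have hsize' : ∀ i, ∀ ζ ∈ Stp (C₁ * lam) θ ρ, ∀ l ∈ ball l₀ (√R),
      |(L i ζ l).re| ≤ C * (1 + C₁) * lam := by
    intro i ζ hζ l hl
    rw [hlam] at hζ ⊢
    refine (hsize i ζ hζ l hl).trans ?_
    have h1 : |ζ.re| ≤ C₁ * (1 + Real.log R) := hζ.1.le
    have h2 := mul_le_mul_of_nonneg_left
      (add_le_add_right h1 (1 + Real.log R)) hC
    linarith only [h2]
  rw [← hlam] at hb₁ hb₂ hb₃ hLc hLζ hLl hch hvar ⊢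
  have hs1 : 1 ≤ √R := Real.one_le_sqrt.2 hR1
  have hs0 : 0 < √R := by linarith
  have hsq : √R * √R = R := Real.mul_self_sqrt (by linarith)
  have hl₀b : l₀ ∈ ball l₀ (√R) := mem_ball_self hs0
  -- the target
  obtain ⟨Tg, hTg⟩ : ∃ Tg : ℝ, Tg = ∑ i, c i * ((xl ψ l₀ i).re + (tr i).re) := ⟨_, rfl⟩
  have hxl0 : ∀ i, |(xl ψ l₀ i).re| ≤ C := by
    intro i
    refine Fin.cases ?_ (fun j => ?_) i
    · exact hψ0
    · show |(l₀ j).re| ≤ C
      rw [hl₀ j, abs_zero]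
      exact hC
  have hTgb : |Tg| ≤ G := by
    rw [hTg, hG, ← mul_add, hSc, Finset.sum_mul]
    refine (Finset.abs_sum_le_sum_abs _ _).trans (Finset.sum_le_sum fun i _ => ?_)
    rw [abs_mul]
    refine mul_le_mul_of_nonneg_left ?_ (abs_nonneg _)
    have h1 := Finset.single_le_sum (f := fun i => |(tr i).re|) (fun i _ => abs_nonneg _)
      (Finset.mem_univ i)
    have h2 := abs_add_le ((xl ψ l₀ i).re) ((tr i).re)
    linarith only [hxl0 i, h1, h2]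
  obtain ⟨T', hT'⟩ : ∃ T' : ℝ, T' = (K + G + Sc * C) / κ * lam := ⟨_, rfl⟩
  have hT'0 : 0 ≤ T' := by rw [hT']; positivity
  have hTT : T' + (K + 1) / κ + 3 ≤ C₁ * lam := by
    rw [hT', hC₁]
    have h1 : 0 ≤ (K + 1) / κ + 3 := by positivity
    linarith only [mul_le_mul_of_nonneg_left hlam1 h1]
  have hlin : ∀ t : ℝ, ((t : ℂ) + θ * Complex.I).re = t := fun t => by simp
  have hmemt : ∀ t : ℝ, |t| < C₁ * lam → ((t : ℂ) + θ * Complex.I) ∈ Stp (C₁ * lam) θ ρ := by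
    intro t ht
    refine ⟨by rw [hlin]; exact ht, ?_⟩
    simpa using hρ
  have hTpos : 0 < C₁ * lam := by
    have : 0 ≤ (K + 1) / κ := by positivity
    linarith only [this, hTT, hT'0]
  have hTlt : T' < C₁ * lam := by
    have : 0 ≤ (K + 1) / κ := by positivity
    linarith only [this, hTT]
  have hΦ0 : |∑ i, c i * (L i (((0 : ℝ) : ℂ) + θ * Complex.I) l₀).re| ≤ Sc * C * lam := by
    rw [hSc, Finset.sum_mul, Finset.sum_mul]
    refine (Finset.abs_sum_le_sum_abs _ _).trans (Finset.sum_le_sum fun i _ => ?_)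
    rw [abs_mul]
    have h1 := hsize i _ (by
      rw [hlam] at hTpos
      refine ⟨?_, ?_⟩
      · rw [hlin, abs_zero]
        exact hTpos
      · simpa using hρ) l₀ hl₀b
    rw [hlin, abs_zero, add_zero, ← hlam] at h1
    calc |c i| * _ ≤ |c i| * (C * lam) := mul_le_mul_of_nonneg_left h1 (abs_nonneg _)
      _ = _ := by ring
  have hκT : κ * T' = (K + G + Sc * C) * lam := by
    rw [hT']
    field_simp
  obtain ⟨ζ₁, hζ₁re, hζ₁im, hζ₁T, hζ₁d⟩ := hfind (C₁ * lam) T' θ Tg (fun i ζ => L i ζ l₀) hT'0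
    (by linarith only [hTT]) hLζ hch hvar (by
      have h1 := hch (-T') 0 (by rw [abs_neg, abs_of_nonneg hT'0]; exact hTlt)
        (by rw [abs_zero]; exact hTpos) (by linarith only [hT'0])
      have h2 := abs_le.1 hΦ0
      have h3 := abs_le.1 hTgb
      have h4 : (K + G) ≤ (K + G) * lam := le_mul_of_one_le_right (by positivity) hlam1
      have e1 : -κ * (0 - -T') + K = -((K + G + Sc * C) * lam) + K := by
        rw [← hκT]
        ring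
      rw [e1] at h1
      linarith only [h1, h2.1, h3.2, h4]) (by
      have h1 := hch 0 T' (by rw [abs_zero]; exact hTpos)
        (by rw [abs_of_nonneg hT'0]; exact hTlt) hT'0
      have h2 := abs_le.1 hΦ0
      have h3 := abs_le.1 hTgb
      have h4 : (K + G) ≤ (K + G) * lam := le_mul_of_one_le_right (by positivity) hlam1
      have e1 : -κ * (T' - 0) + K = -((K + G + Sc * C) * lam) + K := by
        rw [← hκT]
        ring
      rw [e1] at h1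
      linarith only [h1, h2.2, h3.1, h4])
  -- the ball around `ζ₁`
  have hball : ball ζ₁ r₂ ⊆ Stp (C₁ * lam) θ ρ := by
    intro z hz
    rw [mem_ball, dist_eq_norm] at hz
    have h1 := Complex.abs_re_le_norm (z - ζ₁)
    have h2 := Complex.abs_im_le_norm (z - ζ₁)
    rw [Complex.sub_re] at h1
    rw [Complex.sub_im] at h2
    have h3 : 0 ≤ (K + 1) / κ := by positivity
    refine ⟨?_, ?_⟩
    · have h4 : |z.re| ≤ |z.re - ζ₁.re| + |ζ₁.re| := by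
        calc |z.re| = |(z.re - ζ₁.re) + ζ₁.re| := by ring_nf
          _ ≤ _ := abs_add_le _ _
      linarith only [h1, h4, h3, hz, hζ₁re, hTT, hr₂1]
    · have h4 : |z.im - θ| ≤ |z.im - ζ₁.im| + |ζ₁.im - θ| := by
        calc |z.im - θ| = |(z.im - ζ₁.im) + (ζ₁.im - θ)| := by ring_nf
          _ ≤ _ := abs_add_le _ _
      linarith only [h2, h4, hz, hζ₁im, hr₂ρ, hρ]
  have hζ₁S : ζ₁ ∈ Stp (C₁ * lam) θ ρ := hball (mem_ball_self hr₂0)
  have hlip : ∀ i, ∀ z ∈ ball ζ₁ (r₂ / 4), ‖L i z l₀ - L i ζ₁ l₀‖ ≤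
      100 * η / r₂ * ‖z - ζ₁‖ := by
    intro i
    refine bc1 (fun ζ => L i ζ l₀) ζ₁ r₂ η hr₂0 hη0 ((hLζ i).mono hball) fun z hz => ?_
    refine (hvar z (hball hz) ζ₁ hζ₁S i).trans ?_
    rw [mem_ball, dist_eq_norm] at hz
    rw [hη]
    linarith only [mul_le_mul_of_nonneg_left (hz.le.trans hr₂1) hK, hK]
  obtain ⟨φ, hφ⟩ : ∃ φ : ℂ → ℂ, φ = fun ζ => ∑ i, (c i : ℂ) * L i ζ l₀ := ⟨_, rfl⟩
  have hφd : DifferentiableOn ℂ φ (Stp (C₁ * lam) θ ρ) := by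
    rw [hφ]
    exact DifferentiableOn.fun_sum fun i _ => (hLζ i).const_mul _
  have hd1 : κ₂ ≤ ‖deriv φ ζ₁‖ := by rw [hφ]; exact hζ₁d
  have hφb : ∀ z ∈ ball ζ₁ (r₂ / 4), ‖φ z - φ ζ₁‖ ≤ M₃ := by
    intro z hz
    rw [hφ]
    simp only
    rw [← Finset.sum_sub_distrib, hM₃, hSc, Finset.sum_mul]
    refine (norm_sum_le _ _).trans (Finset.sum_le_sum fun i _ => ?_)
    rw [← mul_sub, norm_mul, Complex.norm_real, Real.norm_eq_abs]
    refine mul_le_mul_of_nonneg_left ((hlip i z hz).trans ?_) (abs_nonneg _)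
    rw [mem_ball, dist_eq_norm] at hz
    have h1 : 100 * η / r₂ * ‖z - ζ₁‖ ≤ 100 * η / r₂ * (r₂ / 4) :=
      mul_le_mul_of_nonneg_left hz.le (by positivity)
    have h2 : 100 * η / r₂ * (r₂ / 4) = 25 * η := by
      field_simp
      norm_num
    linarith only [h1, h2]
  have htay : ∀ z ∈ ball ζ₁ (r₂ / 16), ‖φ z - φ ζ₁ - deriv φ ζ₁ * (z - ζ₁)‖ ≤
      C₂ * ‖z - ζ₁‖ ^ 2 := by
    intro z hz
    rw [hC₂]
    refine taylor2 φ ζ₁ (r₂ / 4) M₃ (by positivity) (hφd.mono ((ball_subset_ball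
      (by linarith only [hr₂0])).trans hball)) hφb z (ball_subset_ball (by linarith only [hr₂0]) hz)
  -- the integers
  obtain ⟨l₁, hl₁⟩ : ∃ l₁ : Fin s → ℂ, l₁ = fun j =>
    l₀ j + (((L j.succ ζ₁ l₀).re - (tr j.succ).re : ℝ) : ℂ) := ⟨_, rfl⟩
  obtain ⟨N, hN1, hN2⟩ := hkron
    (fun i => ((xl ψ l₀ i).im + (tr i).im - (L i ζ₁ l₀).im) / (2 * Real.pi))
    ((∑ i, c i * ((xl ψ l₀ i).im + (tr i).im - (L i ζ₁ l₀).im)) / (2 * Real.pi))
  have h2π : (0 : ℝ) < 2 * Real.pi := by positivity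
  -- the variation in `l`
  have hlvar : ∀ i, ∀ z ∈ Stp (C₁ * lam) θ ρ, ∀ l ∈ ball l₀ (√R / 4),
      ‖L i z l - L i z l₀‖ ≤ 100 * ((C * (1 + C₁) + 1) * lam) / √R * ‖l - l₀‖ := by
    intro i z hz l hl
    refine Pool.Agent.K3h60.EX.t_BC s l₀ (√R) ((C * (1 + C₁) + 1) * lam) (L i z) hs0
      (by positivity) (hLl i z hz) (fun v hv => ?_) l hl l₀ (mem_ball_self (by positivity))
    refine (hsize' i z hz v hv).trans ?_
    linarith only [hlam1]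
  have hl₁b : ∀ j, ‖l₁ j - l₀ j‖ ≤ A₁ * lam := by
    intro j
    rw [hl₁]
    simp only [add_sub_cancel_left, Complex.norm_real, Real.norm_eq_abs]
    have h1 := hsize' j.succ ζ₁ hζ₁S l₀ hl₀b
    have h2 := Finset.single_le_sum (f := fun i => |(tr i).re|) (fun i _ => abs_nonneg _)
      (Finset.mem_univ j.succ)
    have h3 := abs_sub ((L j.succ ζ₁ l₀).re) ((tr j.succ).re)
    have h4 : 0 ≤ ∑ i, |(tr i).re| := by positivity
    rw [hA₁]
    have h5 : ∑ i, |(tr i).re| ≤ (∑ i, |(tr i).re|) * lam := le_mul_of_one_le_right h4 hlam1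
    calc _ ≤ _ := h3
      _ ≤ C * (1 + C₁) * lam + ∑ i, |(tr i).re| := by
        linarith only [h1, h2]
      _ ≤ _ := by linarith only [h5]
  have hdist : ∀ l : Fin s → ℂ, (∀ j, ‖l j - l₁ j‖ ≤ 2 * K') → ‖l - l₀‖ ≤ A₂ * lam - 1 := by
    intro l hl
    rw [pi_norm_le_iff_of_nonneg (by rw [hA₂]; linarith only [hlam1, mul_nonneg hK'0 (zero_le_one.trans hlam1), mul_nonneg hA₁0 (zero_le_one.trans hlam1)])]
    intro j
    have h1 : ‖l j - l₀ j‖ ≤ ‖l j - l₁ j‖ + ‖l₁ j - l₀ j‖ := by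
      calc ‖l j - l₀ j‖ = ‖(l j - l₁ j) + (l₁ j - l₀ j)‖ := by congr 1; ring
        _ ≤ _ := norm_add_le _ _
    rw [Pi.sub_apply]
    have h2 : 2 * K' ≤ 2 * K' * lam := le_mul_of_one_le_right (by positivity) hlam1
    rw [hA₂]
    linarith only [h1, h2, hl j, hl₁b j, hlam1]
  have hA₂lam : A₂ * lam ≤ √R / 8 := by
    have h1 : A₂ * lam ≤ A₂ * lam ^ 2 := by
      refine mul_le_mul_of_nonneg_left ?_ hA₂0.le
      nlinarith only [hlam1]
    linarith only [h1, hb₁]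
  have hinb : ∀ l : Fin s → ℂ, (∀ j, ‖l j - l₁ j‖ ≤ 2 * K') → l ∈ ball l₀ (√R / 4) := by
    intro l hl
    rw [mem_ball, dist_eq_norm]
    have := hdist l hl
    linarith only [this, hA₂lam, hs0]
  have hvarl : ∀ i, ∀ z ∈ Stp (C₁ * lam) θ ρ, ∀ l : Fin s → ℂ, (∀ j, ‖l j - l₁ j‖ ≤ 2 * K') →
      (Sc + 1) * ‖L i z l - L i z l₀‖ ≤ min 1 ε₄ := by
    intro i z hz l hl
    have h1 := hlvar i z hz l (hinb l hl)
    have h2 : ‖l - l₀‖ ≤ A₂ * lam := by linarith only [hdist l hl]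
    have h3 : 100 * ((C * (1 + C₁) + 1) * lam) / √R * ‖l - l₀‖ ≤
        100 * ((C * (1 + C₁) + 1) * lam) / √R * (A₂ * lam) :=
      mul_le_mul_of_nonneg_left h2 (by positivity)
    have h4 := mul_le_mul_of_nonneg_left (h1.trans h3) (by positivity : 0 ≤ Sc + 1)
    refine h4.trans ?_
    have e : (Sc + 1) * (100 * ((C * (1 + C₁) + 1) * lam) / √R * (A₂ * lam)) =
        ((Sc + 1) * (100 * (C * (1 + C₁) + 1)) * A₂ * lam ^ 2) / √R := by
      field_simp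
    rw [e, div_le_iff₀ hs0]
    exact hb₂
  have hgeo : ∀ l : Fin s → ℂ, (∀ j, ‖l j - l₁ j‖ ≤ 2 * K') →
      ‖∑ i, (c i : ℂ) * (xl ψ l i - xl ψ l₀ i)‖ ≤ ε₄ := by
    intro l hl
    have h1 := hψ2 l (ball_subset_ball (by linarith only [hs0]) (hinb l hl))
    refine h1.trans ?_
    rw [div_le_iff₀ (by linarith only [hR1])]
    have h2 : 1 + ‖l - l₀‖ ≤ A₂ * lam := by linarith only [hdist l hl]
    have h3 : (1 + ‖l - l₀‖) ^ 2 ≤ (A₂ * lam) ^ 2 :=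
      pow_le_pow_left₀ (by positivity) h2 2
    have h4 : C * (1 + ‖l - l₀‖) ^ 2 ≤ C * (A₂ * lam) ^ 2 := mul_le_mul_of_nonneg_left h3 hC
    have h5 : C * (A₂ * lam) ^ 2 ≤ C * (1 + A₂) ^ 2 * lam ^ 2 := by
      have : A₂ ^ 2 ≤ (1 + A₂) ^ 2 := pow_le_pow_left₀ hA₂0.le (by linarith only [hA₂0]) 2
      have h6 := mul_le_mul_of_nonneg_left (mul_le_mul_of_nonneg_right this (sq_nonneg lam)) hC
      calc _ = C * (A₂ ^ 2 * lam ^ 2) := by ring
        _ ≤ _ := h6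
        _ = _ := by ring
    have h6 : ε₄ * √R ≤ ε₄ * R := by
      refine mul_le_mul_of_nonneg_left ?_ hε₄0.le
      nlinarith only [hs1, hsq, hs0]
    linarith only [h4, h5, hb₃, h6]
  -- the map
  obtain ⟨E, hE⟩ : ∃ E : ℂ → (Fin s → ℂ) → ℂ, E = fun ζ l => ∑ i, (c i : ℂ) *
    (L i ζ l + 2 * Real.pi * Complex.I * (N i : ℂ) - tr i - xl ψ l i) := ⟨_, rfl⟩
  have hE₁ : ‖E ζ₁ l₀‖ ≤ ε₄ := by
    have hre : (E ζ₁ l₀).re = 0 := by
      rw [hE]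
      simp only [Complex.re_sum, Complex.re_ofReal_mul, Complex.sub_re, Complex.add_re]
      have e1 : ∀ i, (2 * (Real.pi : ℂ) * Complex.I * (N i : ℂ)).re = 0 := by
        intro i
        simp
      simp only [e1, add_zero]
      have h1 := hζ₁T
      rw [hTg] at h1
      have e2 : ∑ i, c i * ((L i ζ₁ l₀).re - (tr i).re - (xl ψ l₀ i).re) =
          ∑ i, c i * (L i ζ₁ l₀).re - ∑ i, c i * ((xl ψ l₀ i).re + (tr i).re) := by
        rw [← Finset.sum_sub_distrib]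
        exact Finset.sum_congr rfl fun i _ => by ring
      rw [e2, sub_eq_zero]
      exact h1
    have him : |(E ζ₁ l₀).im| ≤ ε₄ := by
      rw [hE]
      simp only [Complex.im_sum, Complex.im_ofReal_mul, Complex.sub_im, Complex.add_im]
      have e1 : ∀ i, (2 * (Real.pi : ℂ) * Complex.I * (N i : ℂ)).im = 2 * Real.pi * N i := by
        intro i
        simp
      simp only [e1]
      have e2 : ∑ i, c i * ((L i ζ₁ l₀).im + 2 * Real.pi * (N i : ℝ) - (tr i).im -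
          (xl ψ l₀ i).im) = 2 * Real.pi * (∑ i, c i * (N i : ℝ) -
            (∑ i, c i * ((xl ψ l₀ i).im + (tr i).im - (L i ζ₁ l₀).im)) / (2 * Real.pi)) := by
        rw [mul_sub, mul_div_cancel₀ _ h2π.ne', Finset.mul_sum, ← Finset.sum_sub_distrib]
        exact Finset.sum_congr rfl fun i _ => by ring
      rw [e2, abs_mul, abs_of_pos h2π]
      have h1 := mul_le_mul_of_nonneg_left hN2.le h2π.le
      rw [mul_div_cancel₀ _ h2π.ne'] at h1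
      exact h1
    have h1 := Complex.norm_le_abs_re_add_abs_im (E ζ₁ l₀)
    rw [hre, abs_zero, zero_add] at h1
    exact h1.trans him
  have hEdec : ∀ ζ l, E ζ l - deriv φ ζ₁ * (ζ - ζ₁) = (φ ζ - φ ζ₁ - deriv φ ζ₁ * (ζ - ζ₁)) +
      ∑ i, (c i : ℂ) * (L i ζ l - L i ζ l₀) + E ζ₁ l₀ -
      ∑ i, (c i : ℂ) * (xl ψ l i - xl ψ l₀ i) := by
    intro ζ l
    rw [hE, hφ]
    simp only
    have e1 : ∑ i, (c i : ℂ) * (L i ζ l + 2 * Real.pi * Complex.I * (N i : ℂ) - tr i - xl ψ l i) =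
        ∑ i, (c i : ℂ) * L i ζ l₀ - ∑ i, (c i : ℂ) * L i ζ₁ l₀ +
        ∑ i, (c i : ℂ) * (L i ζ l - L i ζ l₀) +
        ∑ i, (c i : ℂ) * (L i ζ₁ l₀ + 2 * Real.pi * Complex.I * (N i : ℂ) - tr i - xl ψ l₀ i) -
        ∑ i, (c i : ℂ) * (xl ψ l i - xl ψ l₀ i) := by
      rw [← Finset.sum_sub_distrib, ← Finset.sum_add_distrib, ← Finset.sum_add_distrib,
        ← Finset.sum_sub_distrib]
      exact Finset.sum_congr rfl fun i _ => by ring
    rw [e1]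
    ring
  have hdne : deriv φ ζ₁ ≠ 0 := by
    rw [← norm_pos_iff]
    linarith only [hd1, hκ₂]
  have hdpos : 0 < ‖deriv φ ζ₁‖ := by linarith only [hd1, hκ₂]
  have hζin : ∀ ζ : ℂ, ‖ζ - ζ₁‖ ≤ 2 * r → ζ ∈ ball ζ₁ (r₂ / 16) := by
    intro ζ hζ
    rw [mem_ball, dist_eq_norm]
    linarith only [hζ, hr64, hr₂0]
  have hζS : ∀ ζ : ℂ, ‖ζ - ζ₁‖ ≤ 2 * r → ζ ∈ Stp (C₁ * lam) θ ρ := fun ζ hζ =>
    hball (ball_subset_ball (by linarith only [hr₂0]) (hζin ζ hζ))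
  have hEb : ∀ (ζ : ℂ) (l : Fin s → ℂ), ‖ζ - ζ₁‖ ≤ 2 * r → (∀ j, ‖l j - l₁ j‖ ≤ 2 * K') →
      ‖ζ - E ζ l / deriv φ ζ₁ - ζ₁‖ ≤ r := by
    intro ζ l hζ hl
    have e1 : ζ - E ζ l / deriv φ ζ₁ - ζ₁ = -((E ζ l - deriv φ ζ₁ * (ζ - ζ₁)) / deriv φ ζ₁) := by
      field_simp
      ring
    rw [e1, norm_neg, norm_div, div_le_iff₀ hdpos, hEdec]
    have h1 : ‖φ ζ - φ ζ₁ - deriv φ ζ₁ * (ζ - ζ₁)‖ ≤ κ₂ * r / 4 := by
      refine (htay ζ (hζin ζ hζ)).trans ?_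
      have h2 : ‖ζ - ζ₁‖ ^ 2 ≤ (2 * r) ^ 2 := pow_le_pow_left₀ (norm_nonneg _) hζ 2
      have h3 := mul_le_mul_of_nonneg_left h2 hC₂0
      have h4 := mul_le_mul_of_nonneg_right hrC hr0.le
      nlinarith only [h3, h4]
    have h2 : ‖∑ i, (c i : ℂ) * (L i ζ l - L i ζ l₀)‖ ≤ ε₄ := by
      refine (norm_sum_le _ _).trans ?_
      have h3 : ∀ i ∈ (Finset.univ : Finset (Fin (s + 1))),
          ‖(c i : ℂ) * (L i ζ l - L i ζ l₀)‖ ≤ |c i| * (ε₄ / (Sc + 1)) := by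
        intro i _
        rw [norm_mul, Complex.norm_real, Real.norm_eq_abs]
        refine mul_le_mul_of_nonneg_left ?_ (abs_nonneg _)
        rw [le_div_iff₀ (by positivity), mul_comm]
        exact (hvarl i ζ (hζS ζ hζ) l hl).trans (min_le_right _ _)
      refine (Finset.sum_le_sum h3).trans ?_
      rw [← Finset.sum_mul, ← hSc, mul_div_assoc', div_le_iff₀ (by positivity)]
      linarith only [hε₄0]
    have h3 := hgeo l hl
    have h4 : ‖(φ ζ - φ ζ₁ - deriv φ ζ₁ * (ζ - ζ₁)) +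
        ∑ i, (c i : ℂ) * (L i ζ l - L i ζ l₀) + E ζ₁ l₀ -
        ∑ i, (c i : ℂ) * (xl ψ l i - xl ψ l₀ i)‖ ≤ κ₂ * r / 4 + ε₄ + ε₄ + ε₄ := by
      refine (norm_sub_le _ _).trans (add_le_add ?_ h3)
      refine (norm_add_le _ _).trans (add_le_add ?_ hE₁)
      exact (norm_add_le _ _).trans (add_le_add h1 h2)
    refine h4.trans ?_
    rw [hε₄]
    linarith only [mul_le_mul_of_nonneg_left hd1 hr0.le]
  have hLb : ∀ (ζ : ℂ) (l : Fin s → ℂ), ‖ζ - ζ₁‖ ≤ 2 * r → (∀ j, ‖l j - l₁ j‖ ≤ 2 * K') →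
      ∀ j : Fin s, ‖L j.succ ζ l + 2 * Real.pi * Complex.I * (N j.succ : ℂ) - tr j.succ - l₁ j‖ ≤
        K' := by
    intro ζ l hζ hl j
    have e1 : L j.succ ζ l + 2 * Real.pi * Complex.I * (N j.succ : ℂ) - tr j.succ - l₁ j =
        (L j.succ ζ l - L j.succ ζ l₀) + (L j.succ ζ l₀ - L j.succ ζ₁ l₀) +
        (L j.succ ζ₁ l₀ + 2 * Real.pi * Complex.I * (N j.succ : ℂ) - tr j.succ - l₁ j) := by ring
    have h1 : ‖L j.succ ζ l - L j.succ ζ l₀‖ ≤ 1 := by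
      have h2 := (hvarl j.succ ζ (hζS ζ hζ) l hl).trans (min_le_left _ _)
      linarith only [h2, norm_nonneg (L j.succ ζ l - L j.succ ζ l₀),
        mul_nonneg hSc0 (norm_nonneg (L j.succ ζ l - L j.succ ζ l₀))]
    have h2 : ‖L j.succ ζ l₀ - L j.succ ζ₁ l₀‖ ≤ 100 * η := by
      refine (hlip j.succ ζ (ball_subset_ball (by linarith only [hr₂0]) (hζin ζ hζ))).trans ?_
      have h3 : ‖ζ - ζ₁‖ ≤ r₂ := by linarith only [hζ, hr64, hr₂0]
      calc _ ≤ 100 * η / r₂ * r₂ := mul_le_mul_of_nonneg_left h3 (by positivity)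
        _ = 100 * η := by field_simp
    have h3 : ‖L j.succ ζ₁ l₀ + 2 * Real.pi * Complex.I * (N j.succ : ℂ) - tr j.succ - l₁ j‖ ≤
        2 * Real.pi * KN := by
      have h4 := hN1 j.succ (Fin.succ_ne_zero j)
      have hx : xl ψ l₀ j.succ = l₀ j := rfl
      rw [hx] at h4
      have hre : (L j.succ ζ₁ l₀ + 2 * Real.pi * Complex.I * (N j.succ : ℂ) - tr j.succ -
          l₁ j).re = 0 := by
        rw [hl₁]
        simp [hl₀ j]
      have him : (L j.succ ζ₁ l₀ + 2 * Real.pi * Complex.I * (N j.succ : ℂ) - tr j.succ -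
          l₁ j).im = 2 * Real.pi * ((N j.succ : ℝ) -
            ((l₀ j).im + (tr j.succ).im - (L j.succ ζ₁ l₀).im) / (2 * Real.pi)) := by
        rw [mul_sub, mul_div_cancel₀ _ h2π.ne', hl₁]
        simp
        ring
      refine (Complex.norm_le_abs_re_add_abs_im _).trans ?_
      rw [hre, him, abs_zero, zero_add, abs_mul, abs_of_pos h2π]
      exact mul_le_mul_of_nonneg_left h4 h2π.le
    rw [e1, hK']
    refine (norm_add_le _ _).trans ?_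
    have := norm_add_le (L j.succ ζ l - L j.succ ζ l₀) (L j.succ ζ l₀ - L j.succ ζ₁ l₀)
    linarith only [this, h1, h2, h3]
  obtain ⟨Tm, hTm⟩ : ∃ Tm : (Fin (s + 1) → ℂ) → (Fin (s + 1) → ℂ), Tm = fun w =>
    Fin.cons (w 0 - E (w 0) (Fin.tail w) / deriv φ ζ₁) (fun j : Fin s =>
      L j.succ (w 0) (Fin.tail w) + 2 * Real.pi * Complex.I * (N j.succ : ℂ) - tr j.succ) :=
    ⟨_, rfl⟩
  obtain ⟨w, hw, hwT⟩ := brouwer_box (m := s + 1) (Fin.cons ζ₁ l₁)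
    (Fin.cons r fun _ => K') (by
      intro i
      refine Fin.cases ?_ (fun j => ?_) i
      · exact hr0.le
      · exact hK'0) Tm (by
      have hmap : MapsTo (fun w : Fin (s + 1) → ℂ => (w 0, (Fin.tail w : Fin s → ℂ)))
          {w | ∀ i, ‖w i - (Fin.cons ζ₁ l₁ : Fin (s + 1) → ℂ) i‖ ≤
            2 * (Fin.cons r (fun _ => K') : Fin (s + 1) → ℝ) i}
          (Stp (C₁ * lam) θ ρ ×ˢ ball l₀ (√R)) := by
        intro w hw
        refine ⟨hζS (w 0) (hw 0), ball_subset_ball (by linarith only [hs0]) (hinb (Fin.tail w) fun j =>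
          hw j.succ)⟩
      have hcw : Continuous fun w : Fin (s + 1) → ℂ => (w 0, (Fin.tail w : Fin s → ℂ)) :=
        (continuous_apply 0).prodMk (continuous_pi fun j => continuous_apply j.succ)
      have hLcw : ∀ i, ContinuousOn (fun w : Fin (s + 1) → ℂ => L i (w 0) (Fin.tail w))
          {w | ∀ i, ‖w i - (Fin.cons ζ₁ l₁ : Fin (s + 1) → ℂ) i‖ ≤
            2 * (Fin.cons r (fun _ => K') : Fin (s + 1) → ℝ) i} := fun i =>
        (hLc i).comp hcw.continuousOn hmap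
      have hψcw : ContinuousOn (fun w : Fin (s + 1) → ℂ => ψ (Fin.tail w))
          {w | ∀ i, ‖w i - (Fin.cons ζ₁ l₁ : Fin (s + 1) → ℂ) i‖ ≤
            2 * (Fin.cons r (fun _ => K') : Fin (s + 1) → ℝ) i} :=
        hψc.comp (continuous_snd.comp hcw).continuousOn fun w hw => (hmap hw).2
      rw [hTm]
      refine continuousOn_pi.2 fun i => ?_
      refine Fin.cases ?_ (fun j => ?_) i
      · simp only [Fin.cons_zero]
        refine (continuous_apply 0).continuousOn.sub (ContinuousOn.div_const ?_ _)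
        rw [hE]
        simp only
        refine continuousOn_finsetSum _ fun i _ => continuousOn_const.mul ?_
        refine (((hLcw i).add continuousOn_const).sub continuousOn_const).sub ?_
        refine Fin.cases ?_ (fun j => ?_) i
        · exact hψcw
        · exact (continuous_apply j.succ).continuousOn
      · simp only [Fin.cons_succ]
        exact ((hLcw j.succ).add continuousOn_const).sub continuousOn_const) (by
      intro w hw i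
      have h0 : ‖w 0 - ζ₁‖ ≤ 2 * r := hw 0
      have h1 : ∀ j, ‖(Fin.tail w : Fin s → ℂ) j - l₁ j‖ ≤ 2 * K' := fun j => hw j.succ
      rw [hTm]
      refine Fin.cases ?_ (fun j => ?_) i
      · simp only [Fin.cons_zero]
        exact hEb (w 0) (Fin.tail w) h0 h1
      · simp only [Fin.cons_succ]
        exact hLb (w 0) (Fin.tail w) h0 h1 j)
  have h0 : ‖w 0 - ζ₁‖ ≤ 2 * r := hw 0
  have h1 : ∀ j, ‖(Fin.tail w : Fin s → ℂ) j - l₁ j‖ ≤ 2 * K' := fun j => hw j.succ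
  have hsucc : ∀ j : Fin s, L j.succ (w 0) (Fin.tail w) +
      2 * Real.pi * Complex.I * (N j.succ : ℂ) = Fin.tail w j + tr j.succ := by
    intro j
    have h2 := congrFun hwT j.succ
    rw [hTm] at h2
    simp only [Fin.cons_succ] at h2
    have h3 : Fin.tail w j = w j.succ := rfl
    rw [h3]
    linear_combination h2
  have hzero : E (w 0) (Fin.tail w) = 0 := by
    have h2 := congrFun hwT 0
    rw [hTm] at h2
    simp only [Fin.cons_zero] at h2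
    have h3 : E (w 0) (Fin.tail w) / deriv φ ζ₁ = 0 := by linear_combination -h2
    rcases div_eq_zero_iff.1 h3 with h4 | h4
    · exact h4
    · exact absurd h4 hdne
  refine ⟨w 0, hζS _ h0, Fin.tail w, ball_subset_ball (by linarith only [hs0]) (hinb _ h1), N, fun i => ?_⟩
  refine Fin.cases ?_ (fun j => ?_) i
  · rw [hE] at hzero
    simp only at hzero
    rw [Fin.sum_univ_succ] at hzero
    have h3 : ∀ j : Fin s, (c j.succ : ℂ) * (L j.succ (w 0) (Fin.tail w) +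
        2 * Real.pi * Complex.I * (N j.succ : ℂ) - tr j.succ - xl ψ (Fin.tail w) j.succ) = 0 := by
      intro j
      have h4 : xl ψ (Fin.tail w) j.succ = Fin.tail w j := rfl
      rw [h4, hsucc j]
      ring
    rw [Finset.sum_eq_zero fun j _ => h3 j, add_zero] at hzero
    rcases mul_eq_zero.1 hzero with h4 | h4
    · exact absurd (Complex.ofReal_eq_zero.1 h4) hc0
    · linear_combination h4
  · exact hsucc j

end Pool.Agent.Run7.h490.RR
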