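import Pool.Agent.Run7.h490.RR1

/-! Real regime: sizes of functions which satisfy plane relations. -/

set_option autoImplicit false

namespace Pool.Agent.Run7.h490.RR

open Set

/-- differences of exponents -/
noncomputable def Pd {n : ℕ} (S : Fin n → Fin n → Finset (ℕ × ℕ)) (i j : Fin n) :
    Finset (ℤ × ℤ) :=
  if i = j then {(1, -1)} else
    ((S i j ×ˢ S i j).filter fun pq => pq.1 ≠ pq.2).image fun pq =>
      ((pq.1.1 : ℤ) - pq.2.1, (pq.1.2 : ℤ) - pq.2.2)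

theorem Pd_ne {n : ℕ} (S : Fin n → Fin n → Finset (ℕ × ℕ)) (i j : Fin n) :
    ∀ p ∈ Pd S i j, p ≠ 0 := by
  classical
  intro p hp h0
  unfold Pd at hp
  split_ifs at hp with hij
  · rw [Finset.mem_singleton] at hp
    rw [hp] at h0
    simp at h0
  · obtain ⟨pq, hpq, rfl⟩ := Finset.mem_image.1 hp
    rw [Finset.mem_filter] at hpq
    apply hpq.2
    have h1 := congrArg Prod.fst h0
    have h2 := congrArg Prod.snd h0
    simp only [Prod.fst_zero, Prod.snd_zero] at h1 h2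
    exact Prod.ext (by omega) (by omega)

/-- functions on a convex set which satisfy plane relations -/
theorem types {n : ℕ} (S : Fin n → Fin n → Finset (ℕ × ℕ))
    (hS : ∀ i j, i ≠ j → (S i j).Nonempty) (W : Finset (Fin n → ℚ))
    (hW : ∀ C : ℝ, 0 ≤ C → ∀ Δ : Fin n → ℝ,
      (∀ i j, ∃ p ∈ Pd S i j, |(p.1 : ℝ) * Δ i + (p.2 : ℝ) * Δ j| ≤ C) →
      ∃ σ ∈ W, ∃ t : ℝ, ∀ i, |Δ i - t * (σ i : ℝ)| ≤ C)
    (c : Fin n → ℝ) (m : Fin n → ℤ)
    (hs : ∀ σ ∈ W, (∑ i, c i * (σ i : ℝ)) * (∑ i, (m i : ℝ) * (σ i : ℝ)) < 0) :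
    ∃ κ K : ℝ, 0 < κ ∧ 0 ≤ K ∧ ∀ (U : Set ℂ), Convex ℝ U → ∀ (a : Fin n → Fin n → ℕ × ℕ → ℂ)
      (y : Fin n → ℂ → ℂ), (∀ i, ContinuousOn (y i) U) → (∀ i, ∀ ζ ∈ U, y i ζ ≠ 0) →
      (∀ i j, i ≠ j → ∀ p ∈ S i j, a i j p ≠ 0) →
      (∀ i j, i ≠ j → ∀ ζ ∈ U, ∑ p ∈ S i j, a i j p * y i ζ ^ p.1 * y j ζ ^ p.2 = 0) →
      (∃ k₀ : ℝ, ∀ ζ ∈ U, ∑ i, (m i : ℝ) * Real.log ‖y i ζ‖ = ζ.re + k₀) →
      (∀ ζ ∈ U, ∀ ζ' ∈ U, ζ.re ≤ ζ'.re →
        ∑ i, c i * Real.log ‖y i ζ'‖ - ∑ i, c i * Real.log ‖y i ζ‖ ≤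
          -κ * (ζ'.re - ζ.re) + K) ∧
      ∀ ζ ∈ U, ∀ ζ' ∈ U, ∀ i, |Real.log ‖y i ζ‖ - Real.log ‖y i ζ'‖| ≤ K * (1 + ‖ζ - ζ'‖) := by
  classical
  obtain ⟨C₀, hC₀⟩ : ∃ C₀ : ℝ, C₀ = ∑ i, ∑ j, 2 * Real.log (S i j).card := ⟨_, rfl⟩
  have hlogc : ∀ i j, 0 ≤ Real.log (S i j).card := by
    intro i j
    exact Real.log_natCast_nonneg _
  have hC₀ij : ∀ i j, 2 * Real.log (S i j).card ≤ C₀ := by
    intro i j
    rw [hC₀]
    have h1 : 2 * Real.log (S i j).card ≤ ∑ j, 2 * Real.log (S i j).card :=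
      Finset.single_le_sum (f := fun j => 2 * Real.log (S i j).card)
        (fun j _ => mul_nonneg zero_le_two (hlogc i j)) (Finset.mem_univ j)
    exact h1.trans (Finset.single_le_sum (f := fun i => ∑ j, 2 * Real.log (S i j).card)
      (fun i _ => Finset.sum_nonneg fun j _ => mul_nonneg zero_le_two (hlogc i j))
      (Finset.mem_univ i))
  have hC₀0 : 0 ≤ C₀ := by
    rw [hC₀]
    exact Finset.sum_nonneg fun i _ => Finset.sum_nonneg fun j _ =>
      mul_nonneg zero_le_two (hlogc i j)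
  obtain ⟨κ, K, hκ, hK, htb⟩ := type_bound W c m hs C₀ hC₀0
  -- the types
  obtain ⟨Ty, hTy⟩ : ∃ Ty : Finset (Fin n × Fin n → (ℕ × ℕ) × (ℕ × ℕ)),
      Ty = Fintype.piFinset fun ij => if ij.1 = ij.2 then {0} else
        (S ij.1 ij.2 ×ˢ S ij.1 ij.2).filter fun pq => pq.1 ≠ pq.2 := ⟨_, rfl⟩
  refine ⟨κ, Ty.card * K, hκ, by positivity, ?_⟩
  intro U hU a y hyc hy0 ha hrel hm
  obtain ⟨k₀, hk₀⟩ := hm
  obtain ⟨u, hu⟩ : ∃ u : Fin n → ℂ → ℝ, u = fun i ζ => Real.log ‖y i ζ‖ := ⟨_, rfl⟩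
  have hui : ∀ i ζ, Real.log ‖y i ζ‖ = u i ζ := fun i ζ => by rw [hu]
  have huc : ∀ i, ContinuousOn (u i) U := by
    intro i
    rw [hu]
    exact ContinuousOn.log (hyc i).norm fun ζ hζ => norm_ne_zero_iff.2 (hy0 i ζ hζ)
  simp only [hui] at hk₀ ⊢
  -- the difference of two terms
  obtain ⟨D, hD⟩ : ∃ D : (Fin n × Fin n → (ℕ × ℕ) × (ℕ × ℕ)) → Fin n → Fin n → ℂ → ℝ,
      D = fun e i j ζ => (Real.log ‖a i j (e (i, j)).1‖ + ((e (i, j)).1.1 : ℝ) * u i ζ +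
        ((e (i, j)).1.2 : ℝ) * u j ζ) - (Real.log ‖a i j (e (i, j)).2‖ +
        ((e (i, j)).2.1 : ℝ) * u i ζ + ((e (i, j)).2.2 : ℝ) * u j ζ) := ⟨_, rfl⟩
  have hTyc : ∀ ζ ∈ U, ∃ e ∈ Ty, ∀ i j, i ≠ j → |D e i j ζ| ≤ Real.log (S i j).card := by
    intro ζ hζ
    have h1 : ∀ ij : Fin n × Fin n, ∃ pq : (ℕ × ℕ) × (ℕ × ℕ),
        pq ∈ (if ij.1 = ij.2 then {0} else
        (S ij.1 ij.2 ×ˢ S ij.1 ij.2).filter fun pq => pq.1 ≠ pq.2) ∧
        (ij.1 ≠ ij.2 → |(Real.log ‖a ij.1 ij.2 pq.1‖ + (pq.1.1 : ℝ) * u ij.1 ζ +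
        (pq.1.2 : ℝ) * u ij.2 ζ) - (Real.log ‖a ij.1 ij.2 pq.2‖ +
        (pq.2.1 : ℝ) * u ij.1 ζ + (pq.2.2 : ℝ) * u ij.2 ζ)| ≤
          Real.log (S ij.1 ij.2).card) := by
      rintro ⟨i, j⟩
      by_cases hij : i = j
      · refine ⟨0, by simp [hij], fun h => absurd hij h⟩
      · obtain ⟨p, hp, q, hq, hpq, h2⟩ := two_terms (S i j) (hS i j hij)
          (fun p => a i j p * y i ζ ^ p.1 * y j ζ ^ p.2) (fun p hp =>
            mul_ne_zero (mul_ne_zero (ha i j hij p hp) (pow_ne_zero _ (hy0 i ζ hζ)))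
              (pow_ne_zero _ (hy0 j ζ hζ))) (hrel i j hij ζ hζ)
        refine ⟨(p, q), ?_, fun _ => ?_⟩
        · rw [if_neg hij]
          exact Finset.mem_filter.2 ⟨Finset.mem_product.2 ⟨hp, hq⟩, hpq⟩
        · have h3 : ∀ p ∈ S i j, Real.log ‖a i j p * y i ζ ^ p.1 * y j ζ ^ p.2‖ =
              Real.log ‖a i j p‖ + (p.1 : ℝ) * u i ζ + (p.2 : ℝ) * u j ζ := by
            intro p hp
            have e1 : ‖a i j p‖ ≠ 0 := norm_ne_zero_iff.2 (ha i j hij p hp)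
            have e2 : ‖y i ζ‖ ≠ 0 := norm_ne_zero_iff.2 (hy0 i ζ hζ)
            have e3 : ‖y j ζ‖ ≠ 0 := norm_ne_zero_iff.2 (hy0 j ζ hζ)
            rw [norm_mul, norm_mul, norm_pow, norm_pow, Real.log_mul (mul_ne_zero e1
              (pow_ne_zero _ e2)) (pow_ne_zero _ e3), Real.log_mul e1 (pow_ne_zero _ e2),
              Real.log_pow, Real.log_pow, hui, hui]
          rw [h3 p hp, h3 q hq] at h2
          exact h2
    choose e he he' using h1
    refine ⟨e, ?_, fun i j hij => ?_⟩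
    · rw [hTy, Fintype.mem_piFinset]
      exact he
    · rw [hD]
      exact he' (i, j) hij
  -- two points of the same type
  have hsame : ∀ e ∈ Ty, ∀ ζ ∈ U, ∀ ζ' ∈ U,
      (∀ i j, i ≠ j → |D e i j ζ| ≤ Real.log (S i j).card) →
      (∀ i j, i ≠ j → |D e i j ζ'| ≤ Real.log (S i j).card) → ζ.re ≤ ζ'.re →
      (∑ i, c i * (u i ζ' - u i ζ) ≤ -κ * (ζ'.re - ζ.re) + K) ∧
      (∀ i, |u i ζ' - u i ζ| ≤ K * (1 + (ζ'.re - ζ.re))) := by
    intro e he ζ hζ ζ' hζ' h1 h2 hre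
    have h3 := htb (fun i => u i ζ' - u i ζ) (hW C₀ hC₀0 _ fun i j => ?_)
    · have h4 : ∑ i, (m i : ℝ) * (u i ζ' - u i ζ) = ζ'.re - ζ.re := by
        have e1 : ∑ i, (m i : ℝ) * (u i ζ' - u i ζ) =
            ∑ i, (m i : ℝ) * u i ζ' - ∑ i, (m i : ℝ) * u i ζ := by
          rw [← Finset.sum_sub_distrib]
          exact Finset.sum_congr rfl fun i _ => by ring
        rw [e1, hk₀ ζ' hζ', hk₀ ζ hζ]
        ring
      rw [h4] at h3
      refine ⟨h3.1 (by linarith), fun i => ?_⟩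
      have h5 := h3.2.1 i
      rwa [abs_of_nonneg (by linarith : (0 : ℝ) ≤ ζ'.re - ζ.re)] at h5
    · by_cases hij : i = j
      · refine ⟨(1, -1), ?_, ?_⟩
        · unfold Pd
          rw [if_pos hij, Finset.mem_singleton]
        · rw [hij]
          simp only [Int.cast_one, Int.cast_neg]
          have e1 : (1 : ℝ) * (u j ζ' - u j ζ) + -1 * (u j ζ' - u j ζ) = 0 := by ring
          rw [e1, abs_zero]
          exact hC₀0
      · rw [hTy, Fintype.mem_piFinset] at he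
        have h4 := he (i, j)
        simp only [if_neg hij] at h4
        refine ⟨(((e (i, j)).1.1 : ℤ) - (e (i, j)).2.1, ((e (i, j)).1.2 : ℤ) - (e (i, j)).2.2),
          ?_, ?_⟩
        · unfold Pd
          rw [if_neg hij]
          exact Finset.mem_image.2 ⟨e (i, j), h4, rfl⟩
        · have h5 := h1 i j hij
          have h6 := h2 i j hij
          have e1 : (((((e (i, j)).1.1 : ℤ) - (e (i, j)).2.1 : ℤ)) : ℝ) * (u i ζ' - u i ζ) +
              (((((e (i, j)).1.2 : ℤ) - (e (i, j)).2.2 : ℤ)) : ℝ) * (u j ζ' - u j ζ) =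
              D e i j ζ' - D e i j ζ := by
            rw [hD]
            push_cast
            ring
          rw [e1]
          refine (abs_sub _ _).trans ?_
          have h7 := hC₀ij i j
          linarith
  -- the segment
  have hchain : ∀ ζ ∈ U, ∀ ζ' ∈ U, ζ.re ≤ ζ'.re → ∀ (f : ℂ → ℝ) (k C : ℝ), 0 ≤ C →
      (∀ e ∈ Ty, ∀ z ∈ U, ∀ z' ∈ U, z.re ≤ z'.re → z'.re - z.re ≤ ζ'.re - ζ.re →
        (∀ i j, i ≠ j → |D e i j z| ≤ Real.log (S i j).card) →
        (∀ i j, i ≠ j → |D e i j z'| ≤ Real.log (S i j).card) →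
        f z' - f z ≤ -k * (z'.re - z.re) + C) →
      f ζ' - f ζ ≤ -k * (ζ'.re - ζ.re) + Ty.card * C := by
    intro ζ hζ ζ' hζ' hre f k C hC hf
    obtain ⟨γ, hγ⟩ : ∃ γ : ℝ → ℂ, γ = fun t : ℝ => ζ + (t : ℂ) * (ζ' - ζ) := ⟨_, rfl⟩
    have hγU : ∀ t ∈ Icc (0 : ℝ) 1, γ t ∈ U := by
      intro t ht
      have := hU hζ hζ' (sub_nonneg.2 ht.2) ht.1 (by ring)
      rw [hγ]
      convert this using 1
      simp only [Complex.real_smul]
      push_cast
      ring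
    have hγc : Continuous γ := by
      rw [hγ]
      fun_prop
    have hγre : ∀ t, (γ t).re = ζ.re + t * (ζ'.re - ζ.re) := by
      intro t
      rw [hγ]
      simp
    have h1 := chain (ι := Fin n × Fin n → (ℕ × ℕ) × (ℕ × ℕ)) (fun t => f (γ t))
      (k * (ζ'.re - ζ.re)) C hC
      (fun e => {t | ∀ i j, i ≠ j → |D e i j (γ t)| ≤ Real.log (S i j).card}) Ty 0 1
      zero_le_one (fun e _ => ?_) (fun t ht => ?_) (fun e he s hs t ht hst => ?_)
    · have e0 : γ 0 = ζ := by rw [hγ]; simp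
      have e1 : γ 1 = ζ' := by rw [hγ]; simp
      simp only [e0, e1] at h1
      linarith
    · have h2 : {t | ∀ i j, i ≠ j → |D e i j (γ t)| ≤ Real.log (S i j).card} ∩ Icc (0 : ℝ) 1 =
          Icc (0 : ℝ) 1 ∩ ⋂ i, ⋂ j, ⋂ (_ : i ≠ j),
            (Icc (0 : ℝ) 1 ∩ (fun t => |D e i j (γ t)|) ⁻¹' Iic (Real.log (S i j).card)) := by
        ext t
        simp only [mem_inter_iff, mem_ofPred_eq, mem_iInter, mem_preimage, mem_Iic]
        constructor
        · rintro ⟨h3, h4⟩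
          exact ⟨h4, fun i j hij => ⟨h4, h3 i j hij⟩⟩
        · rintro ⟨h3, h4⟩
          exact ⟨fun i j hij => (h4 i j hij).2, h3⟩
      rw [h2]
      refine isClosed_Icc.inter (isClosed_iInter fun i => isClosed_iInter fun j =>
        isClosed_iInter fun _ => ?_)
      refine ContinuousOn.preimage_isClosed_of_isClosed ?_ isClosed_Icc isClosed_Iic
      have hui' : ∀ i, ContinuousOn (fun t => u i (γ t)) (Icc (0 : ℝ) 1) := fun i =>
        (huc i).comp hγc.continuousOn hγU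
      have e3 : (fun t => |D e i j (γ t)|) = fun t =>
          |(Real.log ‖a i j (e (i, j)).1‖ + ((e (i, j)).1.1 : ℝ) * u i (γ t) +
          ((e (i, j)).1.2 : ℝ) * u j (γ t)) - (Real.log ‖a i j (e (i, j)).2‖ +
          ((e (i, j)).2.1 : ℝ) * u i (γ t) + ((e (i, j)).2.2 : ℝ) * u j (γ t))| := by
        rw [hD]
      rw [e3]
      exact (((continuousOn_const.add (continuousOn_const.mul (hui' i))).add
        (continuousOn_const.mul (hui' j))).sub
        ((continuousOn_const.add (continuousOn_const.mul (hui' i))).add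
        (continuousOn_const.mul (hui' j)))).abs
    · obtain ⟨e, he, h2⟩ := hTyc (γ t) (hγU t ht)
      exact ⟨e, he, h2⟩
    · have h2 : (γ t).re - (γ s).re = (t - s) * (ζ'.re - ζ.re) := by
        rw [hγre, hγre]
        ring
      have h3 : 0 ≤ ζ'.re - ζ.re := by linarith
      have h4 : (γ s).re ≤ (γ t).re := by
        have := mul_nonneg (sub_nonneg.2 hst) h3
        linarith
      have h5 : (γ t).re - (γ s).re ≤ ζ'.re - ζ.re := by
        rw [h2]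
        have h6 : t - s ≤ 1 := by linarith [hs.2.1, ht.2.2]
        nlinarith
      have h6 := hf e he (γ s) (hγU s hs.2) (γ t) (hγU t ht.2) h4 h5 hs.1 ht.1
      rw [h2] at h6
      have e5 : -(k * (ζ'.re - ζ.re)) * (t - s) = -k * ((t - s) * (ζ'.re - ζ.re)) := by ring
      show f (γ t) - f (γ s) ≤ -(k * (ζ'.re - ζ.re)) * (t - s) + C
      rw [e5]
      exact h6
  refine ⟨fun ζ hζ ζ' hζ' hre => ?_, ?_⟩
  · have h1 := hchain ζ hζ ζ' hζ' hre (fun ζ => ∑ i, c i * u i ζ) κ K hK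
      (fun e he z hz z' hz' h1 _ h2 h3 => ?_)
    · simpa using h1
    · have h4 := (hsame e he z hz z' hz' h2 h3 h1).1
      have e1 : ∑ i, c i * (u i z' - u i z) = ∑ i, c i * u i z' - ∑ i, c i * u i z := by
        rw [← Finset.sum_sub_distrib]
        exact Finset.sum_congr rfl fun i _ => by ring
      rw [e1] at h4
      exact h4
  · have key : ∀ ζ ∈ U, ∀ ζ' ∈ U, ζ.re ≤ ζ'.re → ∀ i,
        |u i ζ' - u i ζ| ≤ Ty.card * K * (1 + ‖ζ - ζ'‖) := by
      intro ζ hζ ζ' hζ' hre i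
      have hn : ζ'.re - ζ.re ≤ ‖ζ - ζ'‖ := by
        rw [norm_sub_rev]
        have := Complex.re_le_norm (ζ' - ζ)
        rwa [Complex.sub_re] at this
      have h1 : ∀ sgn : ℝ, |sgn| = 1 → sgn * u i ζ' - sgn * u i ζ ≤
          Ty.card * (K * (1 + ‖ζ - ζ'‖)) := by
        intro sgn hsgn
        have h2 := hchain ζ hζ ζ' hζ' hre (fun ζ => sgn * u i ζ) 0 (K * (1 + ‖ζ - ζ'‖))
          (by positivity) (fun e he z hz z' hz' h1 h1' h2 h3 => ?_)
        · simpa using h2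
        · have h4 := (hsame e he z hz z' hz' h2 h3 h1).2 i
          have h5 : sgn * u i z' - sgn * u i z ≤ |u i z' - u i z| := by
            have e1 : sgn * u i z' - sgn * u i z = sgn * (u i z' - u i z) := by ring
            rw [e1]
            refine (le_abs_self _).trans ?_
            rw [abs_mul, hsgn, one_mul]
          have h6 : K * (1 + (z'.re - z.re)) ≤ K * (1 + ‖ζ - ζ'‖) :=
            mul_le_mul_of_nonneg_left (by linarith) hK
          show sgn * u i z' - sgn * u i z ≤ -0 * (z'.re - z.re) + K * (1 + ‖ζ - ζ'‖)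
          rw [neg_zero, zero_mul, zero_add]
          linarith
      have h2 := h1 1 (by norm_num)
      have h3 := h1 (-1) (by norm_num)
      rw [abs_le]
      constructor
      · linarith
      · linarith
    intro ζ hζ ζ' hζ' i
    rcases le_total ζ.re ζ'.re with h | h
    · rw [abs_sub_comm]
      exact key ζ hζ ζ' hζ' h i
    · rw [norm_sub_rev]
      exact key ζ' hζ' ζ hζ h i

end Pool.Agent.Run7.h490.RR
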