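import Pool.Agent.Run7.h490.RR2
import Pool.Agent.Run7.h490.RR6
import Pool.Agent.K3h53.UG.Core7a

/-! Real regime: sizes of polynomials in `e^ζ` on strips. -/

set_option autoImplicit false

namespace Pool.Agent.Run7.h490.RR

open Set Filter Topology Metric Polynomial
open Pool.Agent.K3h53.UG (Fam7)

/-- functions of polynomial size on large balls are nearly constant on small balls -/
theorem nearconst (s : ℕ) (ε C η : ℝ) (hε : 0 < ε) (hC : 0 ≤ C) (hη : 0 < η) :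
    ∃ R₀ : ℝ, 1 ≤ R₀ ∧ ∀ R : ℝ, R₀ ≤ R → √R ≤ ε * R ∧
      ∀ (l₀ : Fin s → ℂ) (h : (Fin s → ℂ) → ℂ), DifferentiableOn ℂ h (ball l₀ (ε * R)) →
      (∀ l ∈ ball l₀ (ε * R), h l ≠ 0 ∧ |Real.log ‖h l‖| ≤ C * (1 + Real.log R)) →
      ∀ l ∈ ball l₀ (√R), ‖h l - h l₀‖ ≤ η * ‖h l₀‖ := by
  obtain ⟨τ, hτ⟩ : ∃ τ : ℝ, τ = min 1 (η / 2) := ⟨_, rfl⟩
  have hτ0 : 0 < τ := by
    rw [hτ]
    exact lt_min one_pos (by positivity)
  have hτ1 : τ ≤ 1 := by rw [hτ]; exact min_le_left _ _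
  have hτη : τ ≤ η / 2 := by rw [hτ]; exact min_le_right _ _
  obtain ⟨R₀, hR₀, hlarge⟩ := loglarge (100 * (C + 1) / (ε * τ) + 4 / ε) 1 one_pos
  refine ⟨R₀, hR₀, fun R hR => ?_⟩
  have hR1 : 1 ≤ R := hR₀.trans hR
  have hR0 : 0 < R := by linarith
  have hlog := Real.log_nonneg hR1
  have hsq : 0 < √R := Real.sqrt_pos.2 hR0
  have hsqR : √R * √R = R := Real.mul_self_sqrt hR0.le
  have h1 := hlarge R hR
  rw [one_mul] at h1
  have hl1 : 1 ≤ (1 + Real.log R) ^ 2 := by nlinarith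
  have hl2 : 1 + Real.log R ≤ (1 + Real.log R) ^ 2 := by nlinarith
  have hA1 : 0 ≤ 100 * (C + 1) / (ε * τ) := by positivity
  have hA2 : 0 ≤ 4 / ε := by positivity
  have h2 : 4 / ε ≤ √R := by
    have h3 : 4 / ε * 1 ≤ (100 * (C + 1) / (ε * τ) + 4 / ε) * (1 + Real.log R) ^ 2 := by
      apply mul_le_mul _ hl1 zero_le_one (by positivity)
      linarith
    linarith
  have h3 : 100 * (C + 1) / (ε * τ) * (1 + Real.log R) ≤ √R := by
    refine le_trans ?_ h1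
    apply mul_le_mul _ hl2 (by positivity) (by positivity)
    linarith
  have h4 : √R ≤ ε * R / 4 := by
    rw [div_le_iff₀ hε] at h2
    have h5 : 4 * √R ≤ √R * ε * √R := mul_le_mul_of_nonneg_right h2 hsq.le
    have e : √R * ε * √R = ε * R := by rw [mul_comm (√R) ε, mul_assoc, hsqR]
    rw [e] at h5
    linarith
  refine ⟨by nlinarith, fun l₀ h hd hb l hl => ?_⟩
  have hball : (ball l₀ (√R) : Set (Fin s → ℂ)) ⊆ ball l₀ (ε * R / 4) := ball_subset_ball h4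
  have hεR : 0 < ε * R := by positivity
  obtain ⟨ℓ, hℓd, hℓ⟩ := Pool.Agent.K3h60.EX.t_LOG s (ball l₀ (ε * R)) h isOpen_ball
    (convex_ball _ _) hd fun v hv => (hb v hv).1
  have hre : ∀ v ∈ ball l₀ (ε * R), (ℓ v).re = Real.log ‖h v‖ := by
    intro v hv
    rw [← hℓ v hv, Complex.norm_exp, Real.log_exp]
  have h5 := Pool.Agent.K3h60.EX.t_BC s l₀ (ε * R) ((C + 1) * (1 + Real.log R)) ℓ hεR
    (by positivity) hℓd (by
      intro v hv
      rw [hre v hv]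
      refine (hb v hv).2.trans ?_
      nlinarith) l (hball hl) l₀ (mem_ball_self (by positivity))
  have hln : ‖l - l₀‖ ≤ √R := by
    rw [mem_ball, dist_eq_norm] at hl
    exact hl.le
  have h6 : ‖ℓ l - ℓ l₀‖ ≤ τ := by
    refine h5.trans ?_
    have h7 : 100 * ((C + 1) * (1 + Real.log R)) / (ε * R) * ‖l - l₀‖ ≤
        100 * ((C + 1) * (1 + Real.log R)) / (ε * R) * √R :=
      mul_le_mul_of_nonneg_left hln (by positivity)
    refine h7.trans ?_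
    have e : 100 * ((C + 1) * (1 + Real.log R)) / (ε * R) * √R =
        τ * ((100 * (C + 1) / (ε * τ) * (1 + Real.log R)) / √R) := by
      have e2 : R = √R * √R := hsqR.symm
      field_simp
      rw [Real.sq_sqrt hR0.le]
    rw [e]
    have h8 : (100 * (C + 1) / (ε * τ) * (1 + Real.log R)) / √R ≤ 1 := by
      rw [div_le_one hsq]
      exact h3
    nlinarith
  have hlb : l ∈ ball l₀ (ε * R) := ball_subset_ball (by linarith) (hball hl)
  have h7 : h l - h l₀ = h l₀ * (Complex.exp (ℓ l - ℓ l₀) - 1) := by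
    rw [mul_sub, mul_one, Complex.exp_sub, hℓ l hlb, hℓ l₀ (mem_ball_self hεR),
      mul_div_cancel₀ _ (hb l₀ (mem_ball_self hεR)).1]
  rw [h7, norm_mul, mul_comm]
  refine mul_le_mul_of_nonneg_right ?_ (norm_nonneg _)
  have h8 := Complex.norm_exp_sub_one_le (h6.trans hτ1)
  linarith

/-- the size of a polynomial off the roots -/
theorem polysize (S : Finset ℕ) (hS : S.Nonempty) (d : ℕ) (hd : ∀ k ∈ S, k ≤ d) (c : ℝ)
    (hc : 0 < c) (hc1 : c ≤ 1) (α α' : ℕ → ℂ) (B : ℝ) (Y : ℂ) (hY : Y ≠ 0)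
    (hα : ∀ k ∈ S, α k ≠ 0 ∧ |Real.log ‖α k‖| ≤ B)
    (hα' : ∀ k ∈ S, ‖α' k - α k‖ ≤ c ^ d / 2 * ‖α k‖)
    (hr : ∀ β ∈ (∑ k ∈ S, monomial k (α k) : ℂ[X]).roots, c * (‖Y‖ + ‖β‖) ≤ ‖Y - β‖) :
    ∑ k ∈ S, α' k * Y ^ k ≠ 0 ∧ |Real.log ‖∑ k ∈ S, α' k * Y ^ k‖| ≤
      B + d * |Real.log ‖Y‖| + Real.log (2 * S.card) + |Real.log (c ^ d / 2)| := by
  classical
  obtain ⟨p, hp⟩ : ∃ p : ℂ[X], p = ∑ k ∈ S, monomial k (α k) := ⟨_, rfl⟩
  rw [← hp] at hr
  have hcoef : ∀ k ∈ S, p.coeff k = α k := by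
    intro k hk
    rw [hp, finsetSum_coeff, Finset.sum_eq_single k]
    · rw [coeff_monomial, if_pos rfl]
    · intro j _ hj
      rw [coeff_monomial, if_neg hj]
    · intro h
      exact absurd hk h
  have hdeg : p.natDegree ≤ d := by
    rw [hp]
    refine natDegree_sum_le_of_forall_le _ _ fun k hk => ?_
    exact (natDegree_monomial_le _).trans (hd k hk)
  have heval : p.eval Y = ∑ k ∈ S, α k * Y ^ k := by
    rw [hp, eval_finsetSum]
    exact Finset.sum_congr rfl fun k _ => eval_monomial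
  obtain ⟨Sg, hSg⟩ : ∃ Sg : ℝ, Sg = ∑ k ∈ S, ‖α k‖ * ‖Y‖ ^ k := ⟨_, rfl⟩
  have hYp : 0 < ‖Y‖ := norm_pos_iff.2 hY
  have hterm : ∀ k ∈ S, 0 < ‖α k‖ * ‖Y‖ ^ k := fun k hk =>
    mul_pos (norm_pos_iff.2 (hα k hk).1) (by positivity)
  have hSg0 : 0 < Sg := by
    rw [hSg]
    exact Finset.sum_pos hterm hS
  have h1 : c ^ d * Sg ≤ ‖p.eval Y‖ := by
    have h2 := rootsep p Y c hc.le hr (d + 1)
    refine le_trans ?_ h2
    apply mul_le_mul _ _ hSg0.le (by positivity)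
    · exact pow_le_pow_of_le_one hc.le hc1 hdeg
    · rw [hSg]
      have h3 : ∑ k ∈ S, ‖α k‖ * ‖Y‖ ^ k = ∑ k ∈ S, ‖p.coeff k‖ * ‖Y‖ ^ k :=
        Finset.sum_congr rfl fun k hk => by rw [hcoef k hk]
      rw [h3]
      refine Finset.sum_le_sum_of_subset_of_nonneg (fun k hk => ?_) fun k _ _ => by positivity
      rw [Finset.mem_range]
      have := hd k hk
      omega
  have hcd : 0 < c ^ d := by positivity
  have hcd1 : c ^ d ≤ 1 := pow_le_one₀ hc.le hc1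
  have h2 : ‖∑ k ∈ S, α' k * Y ^ k - p.eval Y‖ ≤ c ^ d / 2 * Sg := by
    rw [heval, ← Finset.sum_sub_distrib, hSg, Finset.mul_sum]
    refine (norm_sum_le _ _).trans (Finset.sum_le_sum fun k hk => ?_)
    rw [← sub_mul, norm_mul, norm_pow, ← mul_assoc]
    exact mul_le_mul_of_nonneg_right (hα' k hk) (by positivity)
  obtain ⟨v, hv⟩ : ∃ v : ℂ, v = ∑ k ∈ S, α' k * Y ^ k := ⟨_, rfl⟩
  rw [← hv] at h2 ⊢
  have h3 : c ^ d / 2 * Sg ≤ ‖v‖ := by
    have h4 : ‖p.eval Y‖ ≤ ‖v‖ + ‖v - p.eval Y‖ := by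
      calc ‖p.eval Y‖ = ‖v - (v - p.eval Y)‖ := by congr 1; ring
        _ ≤ _ := norm_sub_le _ _
    linarith
  have h4 : ‖v‖ ≤ 2 * Sg := by
    rw [hv, hSg, Finset.mul_sum]
    refine (norm_sum_le _ _).trans (Finset.sum_le_sum fun k hk => ?_)
    rw [norm_mul, norm_pow, ← mul_assoc]
    refine mul_le_mul_of_nonneg_right ?_ (by positivity)
    have h5 : ‖α' k‖ ≤ ‖α k‖ + ‖α' k - α k‖ := by
      calc ‖α' k‖ = ‖α k + (α' k - α k)‖ := by congr 1; ring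
        _ ≤ _ := norm_add_le _ _
    have h6 := hα' k hk
    have h7 : c ^ d / 2 * ‖α k‖ ≤ 1 * ‖α k‖ :=
      mul_le_mul_of_nonneg_right (by linarith) (norm_nonneg _)
    linarith
  obtain ⟨E, hE⟩ : ∃ E : ℝ, E = B + d * |Real.log ‖Y‖| := ⟨_, rfl⟩
  have hlog : ∀ k ∈ S, |Real.log (‖α k‖ * ‖Y‖ ^ k)| ≤ E := by
    intro k hk
    rw [Real.log_mul (norm_ne_zero_iff.2 (hα k hk).1) (by positivity), Real.log_pow, hE]
    refine (abs_add_le _ _).trans (add_le_add (hα k hk).2 ?_)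
    rw [abs_mul, Nat.abs_cast]
    refine mul_le_mul_of_nonneg_right ?_ (abs_nonneg _)
    exact_mod_cast hd k hk
  have h5 : Real.log Sg ≤ Real.log S.card + E := by
    have hcard : (0 : ℝ) < S.card := by exact_mod_cast Finset.card_pos.2 hS
    have h6 : Sg ≤ S.card * Real.exp E := by
      rw [hSg]
      calc ∑ k ∈ S, ‖α k‖ * ‖Y‖ ^ k ≤ ∑ _k ∈ S, Real.exp E := by
            refine Finset.sum_le_sum fun k hk => ?_
            rw [← Real.log_le_iff_le_exp (hterm k hk)]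
            exact (le_abs_self _).trans (hlog k hk)
        _ = S.card * Real.exp E := by rw [Finset.sum_const, nsmul_eq_mul]
    have h7 := Real.log_le_log hSg0 h6
    rwa [Real.log_mul hcard.ne' (Real.exp_ne_zero _), Real.log_exp] at h7
  have h6 : -E ≤ Real.log Sg := by
    obtain ⟨k, hk⟩ := hS
    have h7 : ‖α k‖ * ‖Y‖ ^ k ≤ Sg := by
      rw [hSg]
      exact Finset.single_le_sum (f := fun k => ‖α k‖ * ‖Y‖ ^ k) (fun k hk => (hterm k hk).le) hk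
    have h8 := Real.log_le_log (hterm k hk) h7
    have h9 := (abs_le.1 (hlog k hk)).1
    linarith
  have hvp : 0 < ‖v‖ := lt_of_lt_of_le (by positivity) h3
  refine ⟨norm_pos_iff.1 hvp, ?_⟩
  have hcard : (1 : ℝ) ≤ S.card := by exact_mod_cast Finset.card_pos.2 hS
  have hlc : 0 ≤ Real.log S.card := Real.log_nonneg hcard
  have h7 := Real.log_le_log (by positivity) h3
  rw [Real.log_mul (by positivity) hSg0.ne'] at h7
  have h8 := Real.log_le_log hvp h4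
  rw [Real.log_mul two_ne_zero hSg0.ne'] at h8
  have h9 : Real.log (2 * S.card) = Real.log 2 + Real.log S.card :=
    Real.log_mul two_ne_zero (by positivity)
  have h10 : 0 ≤ Real.log 2 := Real.log_nonneg (by norm_num)
  have h11 := neg_abs_le (Real.log (c ^ d / 2))
  have h12 := abs_nonneg (Real.log (c ^ d / 2))
  rw [h9, ← hE, abs_le]
  constructor <;> linarith

/-- exponents of one variable -/
theorem one_var (m : Fin 1 →₀ ℕ) : m = Finsupp.single 0 (m 0) := by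
  refine Finsupp.ext fun i => ?_
  have hi : i = 0 := Subsingleton.elim _ _
  rw [hi, Finsupp.single_eq_same]

/-- sizes of finitely many elements on a strip -/
theorem famsize {n : ℕ} (s : ℕ) {Z : Set (Fin n → ℂ)} {I : Ideal (MvPolynomial (Fin n) ℂ)}
    {A : Type} [CommRing A] (Φ : Fam7 1 Z I A) (T : Finset A) (hT : ∀ a ∈ T, a ≠ 0) :
    ∃ ρ : ℝ, 0 < ρ ∧ ∀ ε C : ℝ, 0 < ε → 0 ≤ C → ∃ C' R₀ : ℝ, 0 ≤ C' ∧ 1 ≤ R₀ ∧
      ∀ R : ℝ, R₀ ≤ R → √R ≤ ε * R ∧ ∀ (l₀ : Fin s → ℂ) (x : (Fin s → ℂ) → Fin n → ℂ),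
      (∀ i, DifferentiableOn ℂ (fun l => x l i) (ball l₀ (ε * R))) →
      (∀ l ∈ ball l₀ (ε * R), ∀ a ∈ T, ∀ m ∈ Φ.sp a, MvPolynomial.eval (x l) (Φ.cf a m) ≠ 0 ∧
        |Real.log ‖MvPolynomial.eval (x l) (Φ.cf a m)‖| ≤ C * (1 + Real.log R)) →
      ∃ θ : ℝ, ∀ ζ : ℂ, |ζ.im - θ| < ρ → ∀ l ∈ ball l₀ (√R), ∀ h : x l ∈ Z, ∀ a ∈ T,
        Φ.ch ⟨x l, h⟩ (fun _ => Complex.exp ζ) a ≠ 0 ∧
        |Real.log ‖Φ.ch ⟨x l, h⟩ (fun _ => Complex.exp ζ) a‖| ≤
          C' * (1 + Real.log R + |ζ.re|) := by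
  classical
  obtain ⟨Sa, hSa⟩ : ∃ Sa : A → Finset ℕ, Sa = fun a => (Φ.sp a).image fun m => m 0 := ⟨_, rfl⟩
  obtain ⟨d, hd⟩ : ∃ d : ℕ, d = T.sup fun a => (Sa a).sup id := ⟨_, rfl⟩
  have hdk : ∀ a ∈ T, ∀ k ∈ Sa a, k ≤ d := by
    intro a ha k hk
    rw [hd]
    exact (Finset.le_sup (f := id) hk).trans (Finset.le_sup (f := fun a => (Sa a).sup id) ha)
  obtain ⟨ρ, c, hρ, hc, hc1, hstrip⟩ := strip (T.card * d)
  refine ⟨ρ, hρ, fun ε C hε hC => ?_⟩
  obtain ⟨R₀, hR₀, hnc⟩ := nearconst s ε C (c ^ d / 2) hε hC (by positivity)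
  obtain ⟨C₂, hC₂⟩ : ∃ C₂ : ℝ, C₂ = ∑ a ∈ T, Real.log (2 * (Sa a).card) := ⟨_, rfl⟩
  have hSne : ∀ a ∈ T, (Sa a).Nonempty := by
    intro a ha
    rw [hSa]
    exact (Φ.ne a (hT a ha)).image _
  have hlc : ∀ a ∈ T, 0 ≤ Real.log (2 * (Sa a).card) := by
    intro a ha
    apply Real.log_nonneg
    have : (1 : ℝ) ≤ (Sa a).card := by exact_mod_cast Finset.card_pos.2 (hSne a ha)
    linarith
  have hC₂0 : 0 ≤ C₂ := by
    rw [hC₂]
    exact Finset.sum_nonneg hlc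
  refine ⟨C + d + C₂ + |Real.log (c ^ d / 2)|, R₀, by positivity, hR₀, fun R hR => ?_⟩
  obtain ⟨hsq, hnc⟩ := hnc R hR
  have hR1 : 1 ≤ R := hR₀.trans hR
  have hlog := Real.log_nonneg hR1
  refine ⟨hsq, fun l₀ x hx hb => ?_⟩
  -- the polynomials at the centre
  obtain ⟨α, hα⟩ : ∃ α : A → (Fin s → ℂ) → ℕ → ℂ, α = fun a l k =>
    MvPolynomial.eval (x l) (Φ.cf a (Finsupp.single 0 k)) := ⟨_, rfl⟩
  have hmem : ∀ a k, k ∈ Sa a ↔ Finsupp.single 0 k ∈ Φ.sp a := by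
    intro a k
    rw [hSa]
    constructor
    · intro h
      obtain ⟨m, hm, rfl⟩ := Finset.mem_image.1 h
      rwa [one_var m] at hm
    · intro h
      exact Finset.mem_image.2 ⟨_, h, Finsupp.single_eq_same⟩
  have hsum : ∀ (a : A) (l : Fin s → ℂ) (h : x l ∈ Z) (ζ : ℂ),
      Φ.ch ⟨x l, h⟩ (fun _ => Complex.exp ζ) a = ∑ k ∈ Sa a, α a l k * Complex.exp ζ ^ k := by
    intro a l h ζ
    rw [Φ.sum, hSa, Finset.sum_image]
    · refine Finset.sum_congr rfl fun m _ => ?_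
      rw [hα]
      simp only [Finset.univ_unique, Fin.default_eq_zero, Fin.isValue, Finset.prod_singleton]
      rw [← one_var m]
    · intro m _ m' _ h
      simp only at h
      rw [one_var m, one_var m', h]
  obtain ⟨Rt, hRt⟩ : ∃ Rt : Finset ℂ, Rt = T.biUnion fun a =>
    (∑ k ∈ Sa a, monomial k (α a l₀ k) : ℂ[X]).roots.toFinset := ⟨_, rfl⟩
  have hRtc : Rt.card ≤ T.card * d := by
    rw [hRt]
    refine Finset.card_biUnion_le_card_mul _ _ _ fun a ha => ?_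
    refine (Multiset.toFinset_card_le _).trans ((card_roots' _).trans ?_)
    refine natDegree_sum_le_of_forall_le _ _ fun k hk => ?_
    exact (natDegree_monomial_le _).trans (hdk a ha k hk)
  obtain ⟨θ, hθ⟩ := hstrip Rt hRtc
  refine ⟨θ, fun ζ hζ l hl h a ha => ?_⟩
  rw [hsum]
  have hεR : 0 < ε * R := by positivity
  have h1 := polysize (Sa a) (hSne a ha) d (hdk a ha) c hc hc1 (α a l₀) (α a l)
    (C * (1 + Real.log R)) (Complex.exp ζ) (Complex.exp_ne_zero _) (fun k hk => ?_)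
    (fun k hk => ?_) (fun β hβ => ?_)
  · refine ⟨h1.1, h1.2.trans ?_⟩
    rw [Complex.norm_exp, Real.log_exp]
    have h2 : Real.log (2 * (Sa a).card) ≤ C₂ := by
      rw [hC₂]
      exact Finset.single_le_sum (f := fun a => Real.log (2 * (Sa a).card)) hlc ha
    have h3 := abs_nonneg ζ.re
    have h4 := abs_nonneg (Real.log (c ^ d / 2))
    have h5 : (0 : ℝ) ≤ d := Nat.cast_nonneg _
    have h6 : 0 ≤ 1 + Real.log R + |ζ.re| := by linarith
    have t1 : C * (1 + Real.log R) ≤ C * (1 + Real.log R + |ζ.re|) :=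
      mul_le_mul_of_nonneg_left (by linarith) hC
    have t2 : (d : ℝ) * |ζ.re| ≤ d * (1 + Real.log R + |ζ.re|) :=
      mul_le_mul_of_nonneg_left (by linarith) h5
    have t3 : C₂ ≤ C₂ * (1 + Real.log R + |ζ.re|) :=
      le_mul_of_one_le_right hC₂0 (by linarith)
    have t4 : |Real.log (c ^ d / 2)| ≤ |Real.log (c ^ d / 2)| * (1 + Real.log R + |ζ.re|) :=
      le_mul_of_one_le_right h4 (by linarith)
    linarith
  · have h2 := hb l₀ (mem_ball_self hεR) a ha _ ((hmem a k).1 hk)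
    rw [hα]
    exact h2
  · rw [hα]
    exact hnc l₀ (fun l => MvPolynomial.eval (x l) (Φ.cf a (Finsupp.single 0 k))) (by
      refine (Pool.Agent.K3h53.UG.diff_eval _ _).comp_differentiableOn ?_
      rw [differentiableOn_pi]
      exact hx) (fun l hl => hb l hl a ha _ ((hmem a k).1 hk)) l hl
  · refine hθ β ?_ ζ hζ
    rw [hRt]
    exact Finset.mem_biUnion.2 ⟨a, ha, Multiset.mem_toFinset.2 hβ⟩

end Pool.Agent.Run7.h490.RR
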