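import Pool.Agent.Run7.h490.RR7
import Pool.Agent.Run7.h490.RR8
import Pool.Agent.K3h92.UG.Root4

/-! Real regime: the analytic core. -/

set_option autoImplicit false

namespace Pool.Agent.Run7.h490.RR

open Set Filter Topology Metric
open Pool.Agent.K3h53.UG (Fam7 yq diff7)

/-- the point of the base -/
def xe {n s : ℕ} (ε : Fin (s + 1) ≃ Fin n) (ψ : (Fin s → ℂ) → ℂ) (l : Fin s → ℂ) : Fin n → ℂ :=
  fun i => xl ψ l (ε.symm i)

/-- the geometric property: branches of the base near an imaginary direction `iν` with real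
conormal vector `c` -/
def GeoC {n s : ℕ} (ε : Fin (s + 1) ≃ Fin n) (Z : Set (Fin n → ℂ)) (c : Fin n → ℝ)
    (T : Finset (MvPolynomial (Fin n) ℂ)) : Prop :=
  ∃ ε' C R₀ : ℝ, 0 < ε' ∧ 0 ≤ C ∧ 1 ≤ R₀ ∧ ∀ R : ℝ, R₀ ≤ R →
    ∃ (l₀ : Fin s → ℂ) (ψ : (Fin s → ℂ) → ℂ), (∀ j, (l₀ j).re = 0) ∧ |(ψ l₀).re| ≤ C ∧
      DifferentiableOn ℂ ψ (ball l₀ (ε' * R)) ∧
      (∀ l ∈ ball l₀ (ε' * R), xe ε ψ l ∈ Z ∧ ∀ G ∈ T, MvPolynomial.eval (xe ε ψ l) G ≠ 0 ∧
        |Real.log ‖MvPolynomial.eval (xe ε ψ l) G‖| ≤ C * (1 + Real.log R)) ∧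
      ∀ l ∈ ball l₀ (√R), ‖∑ k, (c (ε k) : ℂ) * (xl ψ l k - xl ψ l₀ k)‖ ≤
        C * (1 + ‖l - l₀‖) ^ 2 / R

/-- the last coordinates -/
def tl {s : ℕ} (w : Fin (s + 1) → ℂ) : Fin s → ℂ := fun j => w j.succ

theorem tl_cons {s : ℕ} (ζ : ℂ) (l : Fin s → ℂ) : tl (Fin.cons ζ l) = l := rfl

theorem stp_convex (T θ ρ : ℝ) : Convex ℝ (Stp T θ ρ) := by
  intro z hz w hw a b ha hb hab
  obtain ⟨h1, h2⟩ := hz
  obtain ⟨h3, h4⟩ := hw
  have e1 : (a • z + b • w).re = a * z.re + b * w.re := by simp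
  have e2 : (a • z + b • w).im - θ = a * (z.im - θ) + b * (w.im - θ) := by
    have : (a • z + b • w).im = a * z.im + b * w.im := by simp
    rw [this]
    linear_combination θ * hab
  have key : ∀ x y T : ℝ, |x| < T → |y| < T → |a * x + b * y| < T := by
    intro x y T hx hy
    rw [abs_lt] at hx hy ⊢
    rcases ha.eq_or_lt with h0 | h0
    · have hb1 : b = 1 := by linarith
      rw [← h0, hb1]
      constructor <;> linarith
    · constructor
      · nlinarith [mul_nonneg hb (by linarith : 0 ≤ y + T), mul_pos h0 (by linarith : 0 < x + T)]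
      · nlinarith [mul_nonneg hb (by linarith : 0 ≤ T - y), mul_pos h0 (by linarith : 0 < T - x)]
  refine ⟨?_, ?_⟩
  · rw [e1]
    exact key _ _ _ h1 h3
  · rw [e2]
    exact key _ _ _ h2 h4

/-- the bad elements of the ring -/
noncomputable def badA {n : ℕ} {A : Type} [CommRing A] [DecidableEq A] (D Δ G0 : A)
    (g : Fin n → Polynomial A) : Finset A :=
  {D, Δ, G0} ∪ Finset.univ.biUnion fun i => (g i).support.image (g i).coeff

/-- the bad polynomials -/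
noncomputable def badP {n : ℕ} {Z : Set (Fin n → ℂ)} {I : Ideal (MvPolynomial (Fin n) ℂ)}
    {A : Type} [CommRing A] [DecidableEq A] [DecidableEq (MvPolynomial (Fin n) ℂ)]
    (Φ : Fam7 1 Z I A) (D Δ G0 : A)
    (g : Fin n → Polynomial A) (S : Fin n → Fin n → Finset (ℕ × ℕ))
    (a : Fin n → Fin n → ℕ × ℕ → MvPolynomial (Fin n) ℂ) : Finset (MvPolynomial (Fin n) ℂ) :=
  ((badA D Δ G0 g).biUnion fun b => (Φ.sp b).image (Φ.cf b)) ∪
    (Finset.univ.biUnion fun i => Finset.univ.biUnion fun j => if i = j then ∅ else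
      (S i j).image (a i j))

open scoped Classical in
/-- the analytic core in the real regime -/
theorem coreR {n s : ℕ} (ε : Fin (s + 1) ≃ Fin n) (Z : Set (Fin n → ℂ))
    (I : Ideal (MvPolynomial (Fin n) ℂ)) {A : Type} [CommRing A] (Φ : Fam7 1 Z I A)
    (f U V : Polynomial A) (D Δ G0 : A) (N g : Fin n → Polynomial A) (hf : f.Monic)
    (hf0 : 0 < f.natDegree) (hUW : U * f + V * Polynomial.derivative f = Polynomial.C Δ)
    (hD : D ≠ 0) (hΔ : Δ ≠ 0) (hG0 : G0 ≠ 0) (hg : ∀ i, (g i).coeff 0 ≠ 0)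
    (hrel : ∀ (i : Fin n) (x : Z) (Y : Fin 1 → ℂ) (t : ℂ),
      (f.map (Φ.ch x Y)).eval t = 0 → Φ.ch x Y D ≠ 0 →
      ((g i).map (Φ.ch x Y)).eval (yq (Φ.ch x Y) (N i) D t) = 0)
    (m : Fin n → ℤ)
    (hm : ∀ (x : Z) (Y : Fin 1 → ℂ) (t : ℂ),
      (f.map (Φ.ch x Y)).eval t = 0 → Φ.ch x Y D ≠ 0 →
      (∀ i, yq (Φ.ch x Y) (N i) D t ≠ 0) → ∏ i, yq (Φ.ch x Y) (N i) D t ^ m i = Y 0)
    (S : Fin n → Fin n → Finset (ℕ × ℕ))
    (a : Fin n → Fin n → ℕ × ℕ → MvPolynomial (Fin n) ℂ)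
    (hS : ∀ i j, i ≠ j → (S i j).Nonempty)
    (hpair : ∀ i j, i ≠ j → ∀ (x : Z) (Y : Fin 1 → ℂ) (t : ℂ),
      (f.map (Φ.ch x Y)).eval t = 0 → Φ.ch x Y D ≠ 0 →
      ∑ p ∈ S i j, MvPolynomial.eval x.1 (a i j p) * yq (Φ.ch x Y) (N i) D t ^ p.1 *
        yq (Φ.ch x Y) (N j) D t ^ p.2 = 0)
    (W : Finset (Fin n → ℚ))
    (hW : ∀ C : ℝ, 0 ≤ C → ∀ Δ : Fin n → ℝ,
      (∀ i j, ∃ p ∈ Pd S i j, |(p.1 : ℝ) * Δ i + (p.2 : ℝ) * Δ j| ≤ C) →
      ∃ σ ∈ W, ∃ t : ℝ, ∀ i, |Δ i - t * (σ i : ℝ)| ≤ C)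
    (c : Fin n → ℝ) (hs : ∀ σ ∈ W, (∑ i, c i * (σ i : ℝ)) * (∑ i, (m i : ℝ) * (σ i : ℝ)) < 0)
    (hc0 : c (ε 0) ≠ 0) (hirr : ∃ i j, Irrational (c i / c j))
    (hgeo : GeoC ε Z c (badP Φ D Δ G0 g S a)) (tr : Fin n → ℂ) :
    ∃ (x : Z) (Y : Fin 1 → ℂ) (t : ℂ), Φ.ch x Y G0 ≠ 0 ∧ Φ.ch x Y D ≠ 0 ∧
      (f.map (Φ.ch x Y)).eval t = 0 ∧
      ∀ i, yq (Φ.ch x Y) (N i) D t = Complex.exp (x.1 i + tr i) := by
  obtain ⟨ε', C, R₀, hε', hC, hR₀, hgeo⟩ := hgeo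
  obtain ⟨κ, K, hκ, hK, htypes⟩ := types S hS W hW c m hs
  have hTne : ∀ b ∈ badA D Δ G0 g, b ≠ 0 := by
    intro b hb
    unfold badA at hb
    rw [Finset.mem_union] at hb
    rcases hb with hb | hb
    · simp only [Finset.mem_insert, Finset.mem_singleton] at hb
      rcases hb with rfl | rfl | rfl
      · exact hD
      · exact hΔ
      · exact hG0
    · obtain ⟨i, -, hb⟩ := Finset.mem_biUnion.1 hb
      obtain ⟨k, hk, rfl⟩ := Finset.mem_image.1 hb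
      exact Polynomial.mem_support_iff.1 hk
  have hDm : D ∈ badA D Δ G0 g := Finset.mem_union_left _ (by simp)
  have hΔm : Δ ∈ badA D Δ G0 g := Finset.mem_union_left _ (by simp)
  have hG0m : G0 ∈ badA D Δ G0 g := Finset.mem_union_left _ (by simp)
  have hgm : ∀ i, ∀ k ∈ (g i).support, (g i).coeff k ∈ badA D Δ G0 g := fun i k hk =>
    Finset.mem_union_right _ (Finset.mem_biUnion.2 ⟨i, Finset.mem_univ _,
      Finset.mem_image_of_mem _ hk⟩)
  obtain ⟨ρ, hρ, hfam⟩ := famsize s Φ (badA D Δ G0 g) hTne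
  obtain ⟨C', R₁, hC', hR₁, hfam⟩ := hfam ε' C hε' hC
  obtain ⟨Cu, hCu⟩ : ∃ Cu : ℝ, Cu = 2 * C' + ∑ i, Real.log ((g i).support.card) := ⟨_, rfl⟩
  have hlc : ∀ i, 0 ≤ Real.log ((g i).support.card) := fun i => Real.log_natCast_nonneg _
  have hCu0 : 0 ≤ Cu := by
    rw [hCu]
    have := Finset.sum_nonneg fun i (_ : i ∈ Finset.univ) => hlc i
    linarith
  obtain ⟨C₁, R₂, hC₁, hR₂, hfinal⟩ := final (fun k => c (ε k)) hc0 (by
      obtain ⟨i, j, hij⟩ := hirr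
      refine ⟨ε.symm i, ε.symm j, ?_⟩
      rw [Equiv.apply_symm_apply, Equiv.apply_symm_apply]
      exact hij) (fun k => tr (ε k)) ρ κ K (C + Cu) hρ hκ hK (by linarith)
  obtain ⟨R, hR⟩ : ∃ R : ℝ, R = max R₀ (max R₁ R₂) := ⟨_, rfl⟩
  have hRR₀ : R₀ ≤ R := by rw [hR]; exact le_max_left _ _
  have hRR₁ : R₁ ≤ R := by rw [hR]; exact (le_max_left _ _).trans (le_max_right _ _)
  have hRR₂ : R₂ ≤ R := by rw [hR]; exact (le_max_right _ _).trans (le_max_right _ _)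
  have hR1 : 1 ≤ R := hR₀.trans hRR₀
  have hlog := Real.log_nonneg hR1
  have hR0 : 0 < R := by linarith
  have hsq0 : 0 < √R := Real.sqrt_pos.2 hR0
  obtain ⟨l₀, ψ, hl₀, hψre, hψd, hψb, hψc⟩ := hgeo R hRR₀
  obtain ⟨hsq, hfam⟩ := hfam R hRR₁
  have hsub : (ball l₀ (√R) : Set (Fin s → ℂ)) ⊆ ball l₀ (ε' * R) := ball_subset_ball hsq
  have hxd : ∀ i, DifferentiableOn ℂ (fun l => xe ε ψ l i) (ball l₀ (ε' * R)) := by
    intro i
    unfold xe xl
    refine Fin.cases ?_ (fun j => ?_) (ε.symm i)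
    · simp only [Fin.cons_zero]
      exact hψd
    · simp only [Fin.cons_succ]
      exact (differentiable_apply j).differentiableOn
  have hTpoly : ∀ b ∈ badA D Δ G0 g, ∀ k ∈ Φ.sp b, Φ.cf b k ∈ badP Φ D Δ G0 g S a := by
    intro b hb k hk
    exact Finset.mem_union_left _ (Finset.mem_biUnion.2 ⟨b, hb, Finset.mem_image_of_mem _ hk⟩)
  obtain ⟨θ, hθ⟩ := hfam l₀ (xe ε ψ) hxd (fun l hl b hb k hk =>
    (hψb l hl).2 _ (hTpoly b hb k hk))
  obtain ⟨Tt, hTt⟩ : ∃ Tt : ℝ, Tt = C₁ * (1 + Real.log R) := ⟨_, rfl⟩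
  have hTt0 : 0 ≤ Tt := by rw [hTt]; positivity
  -- the domain
  obtain ⟨Ω, hΩ⟩ : ∃ Ω : Set (Fin (s + 1) → ℂ), Ω = {w | w 0 ∈ Stp (Tt + 1) θ ρ ∧
    tl w ∈ ball l₀ (√R)} := ⟨_, rfl⟩
  have htailc : Continuous (fun w : Fin (s + 1) → ℂ => tl w) :=
    continuous_pi fun j => continuous_apply _
  have hΩo : IsOpen Ω := by
    rw [hΩ]
    exact ((stp_open _ _ _).preimage (continuous_apply 0)).inter
      (isOpen_ball.preimage htailc)
  have hΩc : Convex ℝ Ω := by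
    rw [hΩ]
    intro w hw w' hw' p q hp hq hpq
    refine ⟨?_, ?_⟩
    · exact stp_convex _ _ _ hw.1 hw'.1 hp hq hpq
    · exact convex_ball l₀ (√R) hw.2 hw'.2 hp hq hpq
  have hmemΩ : ∀ ζ ∈ Stp (Tt + 1) θ ρ, ∀ l ∈ ball l₀ (√R), (Fin.cons ζ l : Fin (s + 1) → ℂ) ∈ Ω := by
    intro ζ hζ l hl
    rw [hΩ]
    refine ⟨?_, ?_⟩
    · show (Fin.cons ζ l : Fin (s + 1) → ℂ) 0 ∈ _
      rw [Fin.cons_zero]
      exact hζ
    · rw [tl_cons]
      exact hl
  have hxZ : ∀ l ∈ ball l₀ (√R), xe ε ψ l ∈ Z := fun l hl => (hψb l (hsub hl)).1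
  have hl₀m : l₀ ∈ ball l₀ (√R) := mem_ball_self hsq0
  -- the homomorphisms
  obtain ⟨χ, hχ⟩ : ∃ χ : (Fin (s + 1) → ℂ) → A →+* ℂ, χ = fun w =>
      if h : tl w ∈ ball l₀ (√R) then
        Φ.ch ⟨xe ε ψ (tl w), hxZ _ h⟩ (fun _ => Complex.exp (w 0))
      else Φ.ch ⟨xe ε ψ l₀, hxZ _ hl₀m⟩ (fun _ => 0) := ⟨_, rfl⟩
  have hχΩ : ∀ w ∈ Ω, ∃ h : xe ε ψ (tl w) ∈ Z,
      χ w = Φ.ch ⟨xe ε ψ (tl w), h⟩ fun b : Fin 1 => Complex.exp (w 0) := by
    intro w hw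
    rw [hΩ] at hw
    refine ⟨hxZ _ hw.2, ?_⟩
    rw [hχ]
    simp only [dif_pos hw.2]
  have hχd : ∀ b : A, DifferentiableOn ℂ (fun w => χ w b) Ω := by
    intro b
    have htd : Differentiable ℂ (fun w : Fin (s + 1) → ℂ => tl w) := by
      rw [differentiable_pi]
      intro j
      exact differentiable_apply _
    refine diff7 Φ Ω (fun w => xe ε ψ (tl w)) (fun w _ => w 0) (fun i => ?_)
      (fun _ => (differentiable_apply 0).differentiableOn) χ hχΩ b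
    refine ((hxd i).mono hsub).comp htd.differentiableOn fun w hw => ?_
    rw [hΩ] at hw
    exact hw.2
  have hχs : ∀ w ∈ Ω, ∀ b ∈ badA D Δ G0 g, χ w b ≠ 0 ∧
      |Real.log ‖χ w b‖| ≤ C' * (1 + Real.log R + |(w 0).re|) := by
    intro w hw b hb
    obtain ⟨h, hh⟩ := hχΩ w hw
    rw [hh]
    rw [hΩ] at hw
    exact hθ (w 0) hw.1.2 _ hw.2 h b hb
  -- the roots
  have hstar : ((θ : ℝ) : ℂ) * Complex.I ∈ Stp (Tt + 1) θ ρ := by
    refine ⟨?_, ?_⟩
    · simp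
      linarith
    · simp [hρ]
  have hw₀ := hmemΩ _ hstar l₀ hl₀m
  obtain ⟨t₀, ht₀⟩ : ∃ t₀ : ℂ, (f.map (χ (Fin.cons (((θ : ℝ) : ℂ) * Complex.I) l₀))).eval t₀ = 0 := by
    have h1 := Complex.exists_root (f := f.map (χ (Fin.cons (((θ : ℝ) : ℂ) * Complex.I) l₀))) (by
      rw [Polynomial.degree_eq_natDegree (hf.map _).ne_zero, hf.natDegree_map]
      exact_mod_cast hf0)
    exact h1
  obtain ⟨Zr, hZd, -, hZr⟩ := Pool.Agent.K3h53.UG.t_ROOT4 (s + 1) A f U V Δ hf hUW Ω hΩo hΩc χ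
    hχd (fun w hw => (hχs w hw Δ hΔm).1) _ hw₀ t₀ ht₀
  obtain ⟨y, hy⟩ : ∃ y : Fin n → (Fin (s + 1) → ℂ) → ℂ, y = fun i w =>
    yq (χ w) (N i) D (Zr w) := ⟨_, rfl⟩
  have hyi : ∀ i w, yq (χ w) (N i) D (Zr w) = y i w := fun i w => by rw [hy]
  have hyd : ∀ i, DifferentiableOn ℂ (y i) Ω := by
    intro i
    have e0 : y i = fun l => (∑ m ∈ (N i).support, χ l ((N i).coeff m) * Zr l ^ m) *
        (χ l D)⁻¹ := by
      funext l
      rw [← hyi, yq, div_eq_mul_inv, Polynomial.eval_map, Polynomial.eval₂_eq_sum,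
        Polynomial.sum_def]
    rw [e0]
    exact DifferentiableOn.fun_mul (DifferentiableOn.fun_sum fun m _ =>
      (hχd _).fun_mul (hZd.fun_pow m)) ((hχd D).fun_inv fun w hw => (hχs w hw D hDm).1)
  have hgrel : ∀ i, ∀ w ∈ Ω, ∑ k ∈ (g i).support, χ w ((g i).coeff k) * y i w ^ k = 0 := by
    intro i w hw
    obtain ⟨h, hh⟩ := hχΩ w hw
    have h1 := hrel i ⟨_, h⟩ _ (Zr w) (by rw [← hh]; exact hZr w hw) (by
      rw [← hh]
      exact (hχs w hw D hDm).1)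
    rw [← hh, hyi, Polynomial.eval_map, Polynomial.eval₂_eq_sum, Polynomial.sum_def] at h1
    exact h1
  have hg0s : ∀ i, 0 ∈ (g i).support := fun i => Polynomial.mem_support_iff.2 (hg i)
  have hy0 : ∀ i, ∀ w ∈ Ω, y i w ≠ 0 := by
    intro i w hw h0
    have h1 := hgrel i w hw
    rw [Finset.sum_eq_single 0] at h1
    · rw [pow_zero, mul_one] at h1
      exact (hχs w hw _ (hgm i 0 (hg0s i))).1 h1
    · intro k _ hk
      rw [h0, zero_pow hk, mul_zero]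
    · intro h
      exact absurd (hg0s i) h
  have hysize : ∀ i, ∀ w ∈ Ω, |Real.log ‖y i w‖| ≤ Cu * (1 + Real.log R + |(w 0).re|) := by
    intro i w hw
    have hwp : 0 ≤ 1 + Real.log R + |(w 0).re| := by positivity
    obtain ⟨k, hk, k', hk', hkk, h1⟩ := two_terms (g i).support ⟨0, hg0s i⟩
      (fun k => χ w ((g i).coeff k) * y i w ^ k) (fun k hk =>
        mul_ne_zero (hχs w hw _ (hgm i k hk)).1 (pow_ne_zero _ (hy0 i w hw))) (hgrel i w hw)
    have h2 : ∀ k ∈ (g i).support, Real.log ‖χ w ((g i).coeff k) * y i w ^ k‖ =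
        Real.log ‖χ w ((g i).coeff k)‖ + k * Real.log ‖y i w‖ := by
      intro k hk
      rw [norm_mul, norm_pow, Real.log_mul (norm_ne_zero_iff.2 (hχs w hw _ (hgm i k hk)).1)
        (pow_ne_zero _ (norm_ne_zero_iff.2 (hy0 i w hw))), Real.log_pow]
    rw [h2 k hk, h2 k' hk'] at h1
    have h3 := (hχs w hw _ (hgm i k hk)).2
    have h4 := (hχs w hw _ (hgm i k' hk')).2
    obtain ⟨E, hE⟩ : ∃ E : ℝ, E = C' * (1 + Real.log R + |(w 0).re|) := ⟨_, rfl⟩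
    rw [← hE] at h3 h4
    have h5 : |((k : ℝ) - k') * Real.log ‖y i w‖| ≤ Real.log ((g i).support.card) + 2 * E := by
      rw [abs_le] at h1 h3 h4 ⊢
      constructor <;> nlinarith [h1.1, h1.2, h3.1, h3.2, h4.1, h4.2]
    have h6 : (1 : ℝ) ≤ |(k : ℝ) - k'| := by
      have h7 : ((k : ℤ) - k') ≠ 0 := by omega
      have h8 := Int.one_le_abs h7
      have h9 : ((1 : ℤ) : ℝ) ≤ ((|(k : ℤ) - k'| : ℤ) : ℝ) := by exact_mod_cast h8
      rw [Int.cast_abs] at h9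
      push_cast at h9
      exact h9
    rw [abs_mul] at h5
    have h7 : |Real.log ‖y i w‖| ≤ |(k : ℝ) - k'| * |Real.log ‖y i w‖| :=
      le_mul_of_one_le_left (abs_nonneg _) h6
    have h8 : Real.log ((g i).support.card) ≤ ∑ i, Real.log ((g i).support.card) :=
      Finset.single_le_sum (f := fun i => Real.log ((g i).support.card)) (fun i _ => hlc i)
        (Finset.mem_univ i)
    have h9 : (0 : ℝ) ≤ ∑ i, Real.log ((g i).support.card) := (hlc i).trans h8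
    have h10 : (∑ i, Real.log ((g i).support.card)) ≤
        (∑ i, Real.log ((g i).support.card)) * (1 + Real.log R + |(w 0).re|) :=
      le_mul_of_one_le_right h9 (by linarith [abs_nonneg (w 0).re])
    rw [hCu, add_mul, mul_assoc, ← hE]
    linarith
  -- the logarithms
  choose L hLd hL using fun i => Pool.Agent.K3h60.EX.t_LOG (s + 1) Ω (y i) hΩo hΩc (hyd i)
    (hy0 i)
  have hLre : ∀ i, ∀ w ∈ Ω, (L i w).re = Real.log ‖y i w‖ := by
    intro i w hw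
    rw [← hL i w hw, Complex.norm_exp, Real.log_exp]
  have hStp : Stp Tt θ ρ ⊆ Stp (Tt + 1) θ ρ := fun ζ hζ => ⟨by
    have := hζ.1
    linarith, hζ.2⟩
  have hcons1 : Continuous (fun w : ℂ × (Fin s → ℂ) => (Fin.cons w.1 w.2 : Fin (s + 1) → ℂ)) := by
    refine continuous_pi fun k => ?_
    refine Fin.cases ?_ (fun j => ?_) k
    · simp only [Fin.cons_zero]
      exact continuous_fst
    · simp only [Fin.cons_succ]
      exact (continuous_apply j).comp continuous_snd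
  have hcons2 : ∀ l : Fin s → ℂ, Differentiable ℂ (fun ζ : ℂ => (Fin.cons ζ l : Fin (s + 1) → ℂ)) := by
    intro l
    rw [differentiable_pi]
    intro k
    refine Fin.cases ?_ (fun j => ?_) k
    · simp only [Fin.cons_zero]
      exact differentiable_id
    · simp only [Fin.cons_succ]
      exact differentiable_const _
  have hcons3 : ∀ ζ : ℂ, Differentiable ℂ (fun l : Fin s → ℂ => (Fin.cons ζ l : Fin (s + 1) → ℂ)) := by
    intro ζ
    rw [differentiable_pi]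
    intro k
    refine Fin.cases ?_ (fun j => ?_) k
    · simp only [Fin.cons_zero]
      exact differentiable_const _
    · simp only [Fin.cons_succ]
      exact differentiable_apply j
  -- the types at the centre
  obtain ⟨ht1, ht2⟩ := htypes (Stp (Tt + 1) θ ρ) (stp_convex _ _ _)
    (fun i j p => MvPolynomial.eval (xe ε ψ l₀) (a i j p))
    (fun i ζ => y i (Fin.cons ζ l₀)) (fun i => by
      refine ((hyd i).continuousOn).comp (hcons2 l₀).continuous.continuousOn fun ζ hζ => ?_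
      exact hmemΩ ζ hζ l₀ hl₀m) (fun i ζ hζ => hy0 i _ (hmemΩ ζ hζ l₀ hl₀m))
    (fun i j hij p hp => ((hψb l₀ (mem_ball_self (by positivity))).2 _ (by
      refine Finset.mem_union_right _ (Finset.mem_biUnion.2 ⟨i, Finset.mem_univ _,
        Finset.mem_biUnion.2 ⟨j, Finset.mem_univ _, ?_⟩⟩)
      rw [if_neg hij]
      exact Finset.mem_image_of_mem _ hp)).1) (fun i j hij ζ hζ => by
      have hw := hmemΩ ζ hζ l₀ hl₀m
      obtain ⟨h, hh⟩ := hχΩ _ hw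
      have h1 := hpair i j hij ⟨_, h⟩ _ (Zr (Fin.cons ζ l₀)) (by
        rw [← hh]
        exact hZr _ hw) (by
        rw [← hh]
        exact (hχs _ hw D hDm).1)
      rw [← hh, hyi, hyi] at h1
      simp only [tl_cons] at h1
      exact h1) ⟨0, fun ζ hζ => by
      have hw := hmemΩ ζ hζ l₀ hl₀m
      obtain ⟨h, hh⟩ := hχΩ _ hw
      have h1 := hm ⟨_, h⟩ _ (Zr (Fin.cons ζ l₀)) (by
        rw [← hh]
        exact hZr _ hw) (by
        rw [← hh]
        exact (hχs _ hw D hDm).1) (fun i => by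
        rw [← hh, hyi]
        exact hy0 i _ hw)
      rw [← hh] at h1
      simp only [hyi, Fin.cons_zero] at h1
      have h2 := congrArg (fun z : ℂ => Real.log ‖z‖) h1
      simp only [norm_prod, norm_zpow, Complex.norm_exp, Real.log_exp] at h2
      rw [Real.log_prod (fun i _ => zpow_ne_zero _ (norm_ne_zero_iff.2 (hy0 i _ hw)))] at h2
      simp only [Real.log_zpow] at h2
      rw [h2, add_zero]⟩
  have hre₀ : ∀ ζ ∈ Stp (Tt + 1) θ ρ, ∀ i, (L i (Fin.cons ζ l₀)).re =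
      Real.log ‖y i (Fin.cons ζ l₀)‖ := fun ζ hζ i => hLre i _ (hmemΩ ζ hζ l₀ hl₀m)
  have hsumre : ∀ ζ ∈ Stp (Tt + 1) θ ρ, ∑ k, c (ε k) * (L (ε k) (Fin.cons ζ l₀)).re =
      ∑ i, c i * Real.log ‖y i (Fin.cons ζ l₀)‖ := by
    intro ζ hζ
    rw [← Equiv.sum_comp ε]
    exact Finset.sum_congr rfl fun k _ => by rw [hre₀ ζ hζ]
  obtain ⟨ζ, hζ, l, hl, Nn, hsol⟩ := hfinal R hRR₂ l₀ θ ψ (fun k ζ l => L (ε k) (Fin.cons ζ l))
    hl₀ (by linarith) ((hψd.continuousOn).mono hsub) (fun l hl => by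
      refine (hψc l hl).trans ?_
      apply div_le_div_of_nonneg_right _ hR0.le
      refine mul_le_mul_of_nonneg_right (by linarith) (sq_nonneg _)) (fun k => by
      rw [← hTt]
      refine ((hLd (ε k)).continuousOn).comp hcons1.continuousOn fun w hw => ?_
      exact hmemΩ w.1 (hStp hw.1) w.2 hw.2) (fun k => by
      rw [← hTt]
      exact (hLd (ε k)).comp (hcons2 l₀).differentiableOn fun ζ hζ =>
        hmemΩ ζ (hStp hζ) l₀ hl₀m) (fun k ζ hζ => by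
      rw [← hTt] at hζ
      exact (hLd (ε k)).comp (hcons3 ζ).differentiableOn fun l hl =>
        hmemΩ ζ (hStp hζ) l hl) (fun k ζ hζ l hl => by
      rw [← hTt] at hζ
      have hw := hmemΩ ζ (hStp hζ) l hl
      rw [hLre _ _ hw]
      have h1 := hysize (ε k) _ hw
      rw [Fin.cons_zero] at h1
      refine h1.trans (mul_le_mul_of_nonneg_right (by linarith) ?_)
      positivity) (fun a b ha hb hab => by
      rw [← hTt] at ha hb
      have hma : ∀ a : ℝ, |a| < Tt → (a : ℂ) + (θ : ℂ) * Complex.I ∈ Stp (Tt + 1) θ ρ := by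
        intro a ha
        refine ⟨?_, ?_⟩
        · simp
          linarith
        · simp [hρ]
      rw [hsumre _ (hma a ha), hsumre _ (hma b hb)]
      have h1 := ht1 _ (hma a ha) _ (hma b hb) (by simpa using hab)
      refine h1.trans (le_of_eq ?_)
      simp) (fun ζ hζ ζ' hζ' k => by
      rw [← hTt] at hζ hζ'
      rw [hre₀ ζ (hStp hζ), hre₀ ζ' (hStp hζ')]
      exact ht2 ζ (hStp hζ) ζ' (hStp hζ') (ε k))
  rw [← hTt] at hζ
  have hw := hmemΩ ζ (hStp hζ) l hl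
  obtain ⟨h, hh⟩ := hχΩ _ hw
  refine ⟨⟨_, h⟩, fun _ => Complex.exp ((Fin.cons ζ l : Fin (s + 1) → ℂ) 0),
    Zr (Fin.cons ζ l), ?_, ?_, ?_, fun i => ?_⟩
  · rw [← hh]
    exact (hχs _ hw G0 hG0m).1
  · rw [← hh]
    exact (hχs _ hw D hDm).1
  · rw [← hh]
    exact hZr _ hw
  · rw [← hh, hyi, ← hL i _ hw]
    have h1 := hsol (ε.symm i)
    rw [Equiv.apply_symm_apply] at h1
    have h2 : L i (Fin.cons ζ l) = (xl ψ l (ε.symm i) + tr i) -
        (Nn (ε.symm i) : ℂ) * (2 * Real.pi * Complex.I) := by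
      rw [← h1]
      ring
    rw [h2, Complex.exp_sub, Complex.exp_int_mul_two_pi_mul_I, div_one]
    simp only [tl_cons]
    rfl

end Pool.Agent.Run7.h490.RR
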